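import Mathlib
import Pool.Agent.Lib.MP_90b327_co.Interface
import Pool.Agent.Lib.MP_90b327_co.RB.RDefs
import Pool.Agent.Lib.MP_90b327_co.WW.WDefs

/-!
Definitions for Theorem X (`γ^(d-1) × Γ` with `|Γ| = Q(|γ|)` exactly), MP_90b327_co.
Text: /team-store/RSTAR33.md
-/

set_option autoImplicit false

namespace Pool.Agent.Lib.MP_90b327_co.RS

open Finset MeasureTheory Filter Pool.Agent.Lib.MP_90b327_co Pool.Agent.Lib.MP_90b327_co.RB
  Pool.Agent.Lib.MP_90b327_co.WW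

/-! ### level one and level two (text 2, 3) -/

/-- relation of level one: insertion of a common cell which is not below a difference cell of its
column; relabelling of rows and columns -/
def RL {D : ℕ} (X Y X' Y' : Bp D) : Prop :=
  (∃ (c : Ce D) (j : ℕ), Free X Y c j ∧ X' = insert (c, j) X ∧ Y' = insert (c, j) Y) ∨
  (∃ σ τ : ℕ → ℕ, Function.Injective σ ∧ Function.Injective τ ∧ X' = rb σ τ X ∧ Y' = rb σ τ Y)

/-- merging of level one: even rows and columns, odd rows and columns -/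
def ml {D : ℕ} (X A : Bp D) : Bp D :=
  rb (fun i => 2 * i) (fun j => 2 * j) X ∪ rb (fun i => 2 * i + 1) (fun j => 2 * j + 1) A

/-- `T` represents the complex bipartite kernel `θ` -/
def RepL {D : ℕ} (θ : Bp D → Bp D → ℂ) (T : CS D) : Prop :=
  ∀ (X Y : Bp D) (J : Finset ℕ), (∀ c ∈ X, c.2 ∈ J) → (∀ c ∈ Y, c.2 ∈ J) →
    θ X Y = ∫ ω, ∏ j ∈ J, T.z ω (colm X j) (colm Y j) ∂T.P

/-- dissociated column spaces: disjoint sets of rows are independent -/
structure DS (D : ℕ) extends CS D where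
  ind : ∀ (ι κ : Type) [Fintype ι] [Fintype κ] (x y : ι → Co D) (x' y' : κ → Co D)
    (V V' : Finset ℕ), Disjoint V V' → (∀ i, x i ⊆ pw D V ∧ y i ⊆ pw D V) →
    (∀ j, x' j ⊆ pw D V' ∧ y' j ⊆ pw D V') →
    ProbabilityTheory.IndepFun (fun ω i => z ω (x i) (y i)) (fun ω j => z ω (x' j) (y' j)) P

/-- the value of the kernel at `∅`, `[n]^D` -/
def zn {D : ℕ} (T : CS D) (n : ℕ) (ω : T.Ω) : ℂ := T.z ω ∅ (pw D (range n))

/-! ### coordinates and contents (text 6) -/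

/-- finite sets of coordinates; a coordinate is a non-empty set of at most `D` vertices -/
abbrev Cn : Type := Finset (Finset ℕ)

/-- all coordinates inside `S` -/
def br (D : ℕ) (S : Finset ℕ) : Cn := S.powerset.filter (fun A => A.Nonempty ∧ A.card ≤ D)

/-- row tuples with set of entries `A` -/
def rg (D : ℕ) (A : Finset ℕ) : Co D := (pw D A).filter (fun c => ∀ v ∈ A, ∃ i, c i = v)

/-- the cells of a content -/
def cl (D : ℕ) (x : Cn) : Co D := x.biUnion (rg D)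

/-- all elements are coordinates -/
def Va (D : ℕ) (x : Cn) : Prop := ∀ A ∈ x, A.Nonempty ∧ A.card ≤ D

/-- kernels on contents; a common coordinate which is not below a difference may be removed -/
structure KN (k : Cn → Cn → ℂ) : Prop where
  one : ∀ x, k x x = 1
  herm : ∀ x y, k y x = (starRingEnd ℂ) (k x y)
  psd : PosK k
  rem : ∀ (x y : Cn) (A : Finset ℕ), A ∉ x → A ∉ y → (∀ B, A ⊆ B → (B ∈ x ↔ B ∈ y)) →
    k (insert A x) (insert A y) = k x y

/-- property (STAR): arbitrarily fresh unimodular sets above every finite set -/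
structure KS (D : ℕ) (k : Cn → Cn → ℂ) : Prop extends KN k where
  star : ∀ B F : Finset ℕ, ∃ g : Finset ℕ, g.Nonempty ∧ Disjoint g (B ∪ F) ∧
    ‖k ∅ (br D (B ∪ g))‖ = 1

/-- the kernel on contents of a kernel on cells -/
def kz {D : ℕ} (z : Co D → Co D → ℂ) (x y : Cn) : ℂ := z (cl D x) (cl D y)

/-- (STAR) holds almost surely -/
def StAE {D : ℕ} (T : CS D) : Prop := ∀ᵐ ω ∂T.P, KS D (kz (T.z ω))

/-- relabelling of a content -/
def mvc (σ : ℕ → ℕ) (x : Cn) : Cn := x.image (fun A => A.image σ)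

/-! ### storages (text 7) -/

/-- a family of storages over the vertex set `B` -/
structure Sto (D : ℕ) (k : Cn → Cn → ℂ) (B : Finset ℕ) (g : Finset ℕ → ℕ → Finset ℕ) : Prop where
  ne : ∀ A i, (g A i).Nonempty
  disj : ∀ A i A' i', (A, i) ≠ (A', i') → Disjoint (g A i) (g A' i')
  out : ∀ A i, Disjoint (g A i) B
  uni : ∀ A ∈ br D B, ∀ i, ‖k ∅ (br D (A ∪ g A i))‖ = 1

/-- the coordinates of `A ∪ g` which meet `g` -/
def GA (D : ℕ) (A g : Finset ℕ) : Cn := (br D (A ∪ g)).filter (fun A' => ¬ Disjoint A' g)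

/-- number of filled storages -/
def nf (p : Finset ℕ → ℤ) (N : ℕ) (A : Finset ℕ) : ℕ := ((N : ℤ) + p A).toNat

/-- the content of the state `(x, p)` at the level `N` -/
def WN (D : ℕ) (B : Finset ℕ) (g : Finset ℕ → ℕ → Finset ℕ) (N : ℕ) (x : Cn)
    (p : Finset ℕ → ℤ) : Cn :=
  x ∪ (br D B).biUnion (fun A => (range (nf p N A)).biUnion (fun i => GA D A (g A i)))

/-- the phase of the state -/
noncomputable def fN (D : ℕ) (k : Cn → Cn → ℂ) (B : Finset ℕ) (g : Finset ℕ → ℕ → Finset ℕ) (N : ℕ)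
    (p : Finset ℕ → ℤ) : ℂ :=
  ∏ A ∈ br D B, ∏ i ∈ range (nf p N A), (starRingEnd ℂ) (k ∅ (br D (A ∪ g A i)))

/-- the kernel of two states -/
noncomputable def KK (D : ℕ) (k : Cn → Cn → ℂ) (B : Finset ℕ) (g : Finset ℕ → ℕ → Finset ℕ) (N : ℕ)
    (x : Cn) (p : Finset ℕ → ℤ) (y : Cn) (q : Finset ℕ → ℤ) : ℂ :=
  (starRingEnd ℂ) (fN D k B g N p) * fN D k B g N q * k (WN D B g N x p) (WN D B g N y q)

/-- equivalence of states -/
def Eqv (D : ℕ) (k : Cn → Cn → ℂ) (B : Finset ℕ) (g : Finset ℕ → ℕ → Finset ℕ)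
    (x : Cn) (p : Finset ℕ → ℤ) (y : Cn) (q : Finset ℕ → ℤ) : Prop :=
  ∀ᶠ N : ℕ in atTop, KK D k B g N x p y q = 1

/-- the unit vector of `A` -/
def ev (A : Finset ℕ) : Finset ℕ → ℤ := Pi.single A 1

/-- `w(A)` of the text -/
def wA (A : Finset ℕ) : Finset ℕ → ℤ :=
  ∑ A' ∈ A.powerset.filter (fun A' => A'.Nonempty), ((-1 : ℤ) ^ (A.card - A'.card)) • ev A'

/-- `w(x)` of the text -/
def wx (x : Cn) : Finset ℕ → ℤ := ∑ A ∈ x, wA A

/-! ### the group of the coordinates, partial characters (text 7, 8) -/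

/-- free abelian group on the finite sets of vertices -/
abbrev GG : Type := Finset ℕ →₀ ℤ

/-- relabelling -/
noncomputable def rel (σ : ℕ → ℕ) (a : GG) : GG := Finsupp.mapDomain (fun C : Finset ℕ => C.image σ) a

/-- all coordinates of `a` are subsets of `V` -/
def Sup (a : GG) (V : Finset ℕ) : Prop := ∀ C ∈ a.support, C ⊆ V

/-- indicator of a content -/
noncomputable def iv (x : Cn) : GG := ∑ A ∈ x, Finsupp.single A 1

/-- sum of the coordinates of size `≤ k` inside `g` (with the coordinate `∅`) -/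
noncomputable def ag (k : ℕ) (g : Finset ℕ) : GG :=
  ∑ C ∈ g.powerset.filter (fun C => C.card ≤ k), Finsupp.single C 1

/-- partial characters: a unimodular homomorphism on a subgroup, zero outside -/
structure PCh {G : Type} [AddCommGroup G] (f : G → ℂ) : Prop where
  zero : f 0 = 1
  neg : ∀ a, f (-a) = (starRingEnd ℂ) (f a)
  nrm : ∀ a, f a = 0 ∨ ‖f a‖ = 1
  add : ∀ a b, f a ≠ 0 → f b ≠ 0 → f (a + b) = f a * f b

/-- pairs of contents over the vertex set `W` -/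
def Pn (D : ℕ) (W : Finset ℕ) : Finset (Cn × Cn) := (br D W).powerset ×ˢ (br D W).powerset

/-- unimodular pairs over `W` -/
noncomputable def Un (D : ℕ) (W : Finset ℕ) (k : Cn → Cn → ℂ) : Finset (Cn × Cn) := by
  classical exact (Pn D W).filter (fun p => ‖k p.1 p.2‖ = 1)

/-- `a` is the combination of the pairs in `U` with the coefficients `m` -/
def Rp (U : Finset (Cn × Cn)) (a : GG) (m : Cn × Cn → ℤ) : Prop :=
  ∑ p ∈ U, m p • (iv p.2 - iv p.1) = a

open Classical in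
/-- the homomorphism generated by the unimodular pairs over `W`, zero outside the subgroup -/
noncomputable def zt (D : ℕ) (W : Finset ℕ) (k : Cn → Cn → ℂ) (a : GG) : ℂ :=
  if h : ∃ m, Rp (Un D W k) a m then
    ∏ p ∈ Un D W k, k p.1 p.2 ^ (Classical.choose h p) else 0

open Classical in
/-- the union over `W = [n]` -/
noncomputable def zi (D : ℕ) (k : Cn → Cn → ℂ) (a : GG) : ℂ :=
  if h : ∃ n : ℕ, zt D (range n) k a ≠ 0 then zt D (range (Nat.find h)) k a else 0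

/-! ### exchangeable positive definite functions (text 8, 9) -/

/-- positive definite functions -/
structure PD (φ : GG → ℂ) : Prop where
  zero : φ 0 = 1
  neg : ∀ a, φ (-a) = (starRingEnd ℂ) (φ a)
  psd : ∀ (ι : Type) [Fintype ι] (x : ι → GG) (c : ι → ℂ),
    0 ≤ (∑ i, ∑ j, (starRingEnd ℂ) (c i) * c j * φ (x j - x i)).re

/-- exchangeable -/
structure EPD (φ : GG → ℂ) : Prop extends PD φ where
  inv : ∀ σ : ℕ → ℕ, Function.Injective σ → ∀ a, φ (rel σ a) = φ a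

/-- dissociated -/
structure DPD (φ : GG → ℂ) : Prop extends EPD φ where
  mul : ∀ (a b : GG) (U V : Finset ℕ), Sup a U → Sup b V → Disjoint U V → φ (a + b) = φ a * φ b

/-- random characters of `φ` -/
structure RCh (φ : GG → ℂ) where
  Ω : Type
  [mΩ : MeasurableSpace Ω]
  P : Measure Ω
  [prob : IsProbabilityMeasure P]
  F : Ω → GG → ℂ
  zero : ∀ ω, F ω 0 = 1
  add : ∀ ω a b, F ω (a + b) = F ω a * F ω b
  nrm : ∀ ω a, ‖F ω a‖ = 1
  meas : ∀ a, Measurable (fun ω => F ω a)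
  mean : ∀ a, φ a = ∫ ω, F ω a ∂P

attribute [instance] RCh.mΩ RCh.prob

/-- decomposition of an exchangeable function into dissociated ones -/
structure Dec (φ : GG → ℂ) where
  Ω : Type
  [mΩ : MeasurableSpace Ω]
  P : Measure Ω
  [prob : IsProbabilityMeasure P]
  th : Ω → GG → ℂ
  dpd : ∀ ω, DPD (th ω)
  meas : ∀ a, Measurable (fun ω => th ω a)
  mean : ∀ a, φ a = ∫ ω, th ω a ∂P

attribute [instance] Dec.mΩ Dec.prob

/-- `b_i`: `n` even vertices -/
def evn (n : ℕ) : Finset ℕ := (range n).image (fun i => 2 * i)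

/-- `b'_i`: `n` odd vertices -/
def odn (n : ℕ) : Finset ℕ := (range n).image (fun i => 2 * i + 1)

/-- `m_(N,l)` -/
noncomputable def mm (k N l : ℕ) (φ : GG → ℂ) : ℂ :=
  (∑ i ∈ range l, φ (ag k (range (N * (i + 1))))) / l

/-- `Y_(N,l)` -/
noncomputable def YY (k N l : ℕ) (φ : GG → ℂ) : ℝ :=
  (∑ i ∈ range l, ∑ j ∈ range l, (φ (ag k (evn (N * (i + 1))) - ag k (odn (N * (j + 1))))).re) /
    (l : ℝ) ^ 2

open Classical in
/-- `J^(-2r) ∑ f(p - q)` -/
noncomputable def AF {ι : Type} [Fintype ι] (J : ℕ) (f : (ι → ℤ) → ℂ) : ℂ :=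
  (∑ p : ι → Fin J, ∑ q : ι → Fin J, f (fun t => ((p t : ℕ) : ℤ) - ((q t : ℕ) : ℤ))) /
    (J : ℂ) ^ (2 * Fintype.card ι)

/-- `A_J(φ; a)` -/
noncomputable def AJ {ι : Type} [Fintype ι] (J : ℕ) (φ : GG → ℂ) (a : ι → GG) : ℂ :=
  AF J (fun j : ι → ℤ => φ (∑ t, j t • a t))

/-- additive map with values `τ` on the coordinates -/
noncomputable def lin (τ : Finset ℕ → GG) (a : GG) : GG := a.sum (fun C n => n • τ C)

/-- `1_A ↦ ∑ 1_(σA ∪ B)`, `∅ ≠ B ⊆ b`, `|σA ∪ B| ≤ k` (step 1) -/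
noncomputable def ins (k : ℕ) (σ : ℕ → ℕ) (b A : Finset ℕ) : GG :=
  ∑ B ∈ b.powerset.filter (fun B => B.Nonempty ∧ (A.image σ ∪ B).card ≤ k),
    Finsupp.single (A.image σ ∪ B) 1

/-- `n` vertices `≡ 1 mod 3` -/
def b1 (n : ℕ) : Finset ℕ := (range n).image (fun x => 3 * x + 1)

/-- `n` vertices `≡ 2 mod 3` -/
def b2 (n : ℕ) : Finset ℕ := (range n).image (fun x => 3 * x + 2)

/-- `ψ` of step 1 (fresh vertices: multiples of 3) -/
noncomputable def psi1 (k N l : ℕ) (φ : GG → ℂ) (a : GG) : ℂ :=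
  (∑ i ∈ range l, ∑ j ∈ range l, φ (lin (ins k (fun x => 3 * x) (b1 (N * (i + 1)))) a -
    lin (ins k (fun x => 3 * x) (b2 (N * (j + 1)))) a)) / (l : ℂ) ^ 2

/-- `ρ_v(1_B) = 1_(B + v)` -/
noncomputable def rt (k v : ℕ) (B : Finset ℕ) : GG :=
  if B.Nonempty ∧ B.card + 1 ≤ k then Finsupp.single (insert v B) 1 else 0

/-- injection of `ℕ` onto the numbers `≢ 0 mod 3`; even numbers go to `≡ 1`, odd ones to `≡ 2` -/
def t3 (x : ℕ) : ℕ := 3 * (x / 2) + 1 + x % 2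

/-- `φ_j` of step 1 -/
noncomputable def phj {ι : Type} [Fintype ι] (k M : ℕ) (e : ι → ℕ) (φ : GG → ℂ) (j : ι → ℤ)
    (a : GG) : ℂ :=
  φ (∑ t, (j t * (M : ℤ)) • lin (rt k (3 * e t)) (rel t3 a))

/-- `ρ_b(1_A)` of step 3 (`A` on the even vertices) -/
noncomputable def rho (k : ℕ) (b A : Finset ℕ) : GG :=
  if A.card + 1 ≤ k then
    ∑ B ∈ b.powerset.filter (fun B => (A.image (fun x => 2 * x) ∪ B).card ≤ k),
      Finsupp.single (A.image (fun x => 2 * x) ∪ B) 1 else 0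

/-- the blocks `B_j` of step 3: `N (t + 1)` odd vertices -/
def bj (N M j t : ℕ) : Finset ℕ := (range (N * (t + 1))).image (fun x => 2 * (M * x + j) + 1)

open Classical in
/-- `ξ_l` of step 3 -/
noncomputable def xi2 (k N M l : ℕ) (φ : GG → ℂ) (a : GG) : ℂ :=
  (∑ t : Fin M → Fin l, φ (∑ j : Fin M, lin (rho k (bj N M j (t j))) a)) / (l : ℂ) ^ M

/-- Proposition `T(k)` -/
def T1 (k : ℕ) : Prop := ∀ (N : ℕ) (c : ℝ), 1 ≤ N → 0 < c → ∃ M : ℕ, 1 ≤ M ∧
  ∀ φ : GG → ℂ, DPD φ → (∃ᶠ l in atTop, c ≤ ‖mm k N l φ‖) →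
    ∀ C : Finset ℕ, C.Nonempty → C.card ≤ k → φ ((M : ℤ) • Finsupp.single C 1) = 1

/-- Proposition `T''(k)` -/
def T2 (k : ℕ) : Prop := ∀ (N : ℕ) (c : ℝ), 1 ≤ N → 0 < c → ∃ M : ℕ, 1 ≤ M ∧
  ∀ φ : GG → ℂ, EPD φ → (∃ᶠ l in atTop, c ≤ YY k N l φ) →
    ∀ M' : ℕ, 1 ≤ M' → M ∣ M' → ∀ (ι : Type) [Fintype ι] (C : ι → Finset ℕ),
      (∀ t, (C t).Nonempty ∧ (C t).card ≤ k) → ∀ J : ℕ, 1 ≤ J →
        c / 2 ≤ (AJ J φ (fun t => (M' : ℤ) • Finsupp.single (C t) 1)).re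

/-! ### polynomial (text 10) -/

/-- the part of `c` on the coordinates -/
noncomputable def la (D : ℕ) (c : GG) : GG := by
  classical exact c.filter (fun C => C.Nonempty ∧ C.card ≤ D)

/-- Moebius coefficients of `g ↦ Q(|g|) 1(A ⊆ g)` -/
noncomputable def be (Q : Polynomial ℤ) (A C : Finset ℕ) : ℤ :=
  ∑ g ∈ C.powerset.filter (fun g => A ⊆ g), (-1) ^ (C.card - g.card) * Q.eval (g.card : ℤ)

/-- `b(1_C)` -/
noncomputable def bc (D : ℕ) (Q : Polynomial ℤ) (C : Finset ℕ) : GG :=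
  ∑ A ∈ br D C, be Q A C • Finsupp.single A 1

/-- `b(c)` -/
noncomputable def lb (D : ℕ) (Q : Polynomial ℤ) (c : GG) : GG := lin (bc D Q) c

/-- `ψ(c) = 1(a(c) ∈ L) 1(b(c) ∈ L) ζ(b(c))` -/
noncomputable def psi (D : ℕ) (Q : Polynomial ℤ) (k : Cn → Cn → ℂ) (c : GG) : ℂ :=
  (‖zi D k (la D c)‖ : ℂ) * zi D k (lb D Q c)

/-- the positive definite function of the end of the proof -/
noncomputable def phi {D : ℕ} (Q : Polynomial ℤ) (T : CS D) (c : GG) : ℂ :=
  ∫ ω, psi D Q (kz (T.z ω)) c ∂T.P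

open Classical in
/-- `z_n^(Q(n))` on `|z_n| = 1`, zero elsewhere -/
noncomputable def mu {D : ℕ} (Q : Polynomial ℤ) (T : CS D) (n : ℕ) : ℂ :=
  ∫ ω, (if ‖zn T n ω‖ = 1 then zn T n ω ^ (Q.eval (n : ℤ)) else 0) ∂T.P

end Pool.Agent.Lib.MP_90b327_co.RS
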