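import Mathlib
import Pool.Agent.Lib.MP_90b327_co.RS.RDef

/-!
MODULE PolyB (50 minutes, old scale). The Moebius coefficients (text 10).

PROOF. `be_zero`: for `A ⊆ C` with `|C \ A| = n > natDegree Q`: `be Q A C = ∑_{U ⊆ C \ A} (-1)^(n - |U|) Q(|A| + |U|) = ∑_{j ≤ n} (-1)^(n-j) (n choose j) Q(|A| + j)` (`Finset.sum_powerset_apply_card`), the `n`-th forward difference of a polynomial of degree `< n`, zero
(Mathlib: `fwdDiff_iter_eq_sum_shift`, `Polynomial.fwdDiff_iter_degree...`/ `Polynomial.iterate_fwdDiff...`; or by linearity from `Finset.sum_range_choose_mul...` for the monomials `Int.alternating_sum_range_choose...`). So `bc D Q C = 0` if `|C| > D + natDegree Q`.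
`bc_sum`: for fixed `A ∈ br D g`: `∑_{A ⊆ C ⊆ g} be Q A C = ∑_{A ⊆ g' ⊆ g} Q(|g'|) ∑_{g' ⊆ C ⊆ g} (-1)^(|C| - |g'|) = Q(|g|)` (the inner sum is `1` for `g' = g` and `0` otherwise: `Finset.sum_powerset_neg_one_pow_card` for `g \ g'`). Exchange of sums; the terms with `|C| > D + natDegree Q` are zero.
-/

set_option autoImplicit false

namespace Pool.Agent.Lib.MP_90b327_co.RS

open Finset MeasureTheory Filter Pool.Agent.Lib.MP_90b327_co Pool.Agent.Lib.MP_90b327_co.RB
  Pool.Agent.Lib.MP_90b327_co.WW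

/-- sums over the sets between `A` and `C` -/
theorem polyB_sum_between {M : Type*} [AddCommMonoid M] (A C : Finset ℕ) (hAC : A ⊆ C)
    (f : Finset ℕ → M) :
    ∑ g ∈ C.powerset.filter (fun g => A ⊆ g), f g = ∑ U ∈ (C \ A).powerset, f (A ∪ U) := by
  have h1 : C.powerset.filter (fun g => A ⊆ g) = (C \ A).powerset.image (fun U => A ∪ U) := by
    ext g
    simp only [mem_filter, mem_powerset, mem_image]
    constructor
    · rintro ⟨h1, h2⟩
      exact ⟨g \ A, sdiff_subset_sdiff h1 (Subset.refl _), by rw [union_sdiff_of_subset h2]⟩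
    · rintro ⟨U, hU, rfl⟩
      exact ⟨union_subset hAC (hU.trans sdiff_subset), subset_union_left⟩
  rw [h1, sum_image]
  intro U hU V hV hUV
  have hdU : Disjoint A U := by
    have := mem_powerset.mp hU
    exact disjoint_of_subset_right this disjoint_sdiff
  have hdV : Disjoint A V := by
    have := mem_powerset.mp hV
    exact disjoint_of_subset_right this disjoint_sdiff
  have h2 : (A ∪ U) \ A = (A ∪ V) \ A := by
    have : A ∪ U = A ∪ V := hUV
    rw [this]
  rwa [union_sdiff_cancel_left hdU, union_sdiff_cancel_left hdV] at h2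

theorem be_zero (Q : Polynomial ℤ) (A C : Finset ℕ) (hAC : A ⊆ C)
    (h : Q.natDegree < C.card - A.card) : be Q A C = 0 := by
  unfold be
  rw [polyB_sum_between A C hAC]
  have hcd : (C \ A).card = C.card - A.card := card_sdiff_of_subset hAC
  set n := C.card - A.card with hn
  have hle : A.card ≤ C.card := card_le_card hAC
  have h1 : ∀ U ∈ (C \ A).powerset, (-1 : ℤ) ^ (C.card - (A ∪ U).card) *
      Q.eval (((A ∪ U).card : ℕ) : ℤ) =
      (fun j : ℕ => (-1 : ℤ) ^ (n - j) * Q.eval ((A.card : ℤ) + (j : ℤ))) U.card := by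
    intro U hU
    have hd : Disjoint A U := disjoint_of_subset_right (mem_powerset.mp hU) disjoint_sdiff
    rw [card_union_of_disjoint hd]
    have : C.card - (A.card + U.card) = n - U.card := by omega
    simp only [this]
    push_cast
    rfl
  rw [sum_congr rfl h1]
  rw [sum_powerset_apply_card (fun j : ℕ => (-1 : ℤ) ^ (n - j) * Q.eval ((A.card : ℤ) + (j : ℤ))),
    hcd]
  have h2 := congrFun (Polynomial.fwdDiff_iter_eq_zero_of_degree_lt (P := Q) h) (A.card : ℤ)
  rw [fwdDiff_iter_eq_sum_shift] at h2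
  rw [Pi.zero_apply] at h2
  rw [← h2]
  refine sum_congr rfl fun j _ => ?_
  simp only [nsmul_eq_mul, smul_eq_mul, mul_one]
  ring

theorem bc_zero (D : ℕ) (Q : Polynomial ℤ) (C : Finset ℕ) (h : D + Q.natDegree < C.card) :
    bc D Q C = 0 := by
  unfold bc
  refine sum_eq_zero fun A hA => ?_
  simp only [br, mem_filter, mem_powerset] at hA
  rw [be_zero Q A C hA.1 (by omega), zero_smul]

theorem polyB_inner (g g' : Finset ℕ) (h : g' ⊆ g) :
    ∑ C ∈ g.powerset.filter (fun C => g' ⊆ C), (-1 : ℤ) ^ (C.card - g'.card) =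
      if g' = g then 1 else 0 := by
  rw [polyB_sum_between g' g h]
  have h1 : ∀ U ∈ (g \ g').powerset, (-1 : ℤ) ^ ((g' ∪ U).card - g'.card) = (-1 : ℤ) ^ U.card := by
    intro U hU
    have hd : Disjoint g' U := disjoint_of_subset_right (mem_powerset.mp hU) disjoint_sdiff
    rw [card_union_of_disjoint hd]
    congr 1
    omega
  rw [sum_congr rfl h1, sum_powerset_neg_one_pow_card]
  by_cases hg : g' = g
  · subst hg; simp
  · rw [if_neg hg, if_neg]
    intro h2
    exact hg (Subset.antisymm h (sdiff_eq_empty_iff_subset.mp h2))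

/-- the sum of the Moebius coefficients over all sets between `A` and `g` -/
theorem polyB_be_sum (Q : Polynomial ℤ) (A g : Finset ℕ) (hA : A ⊆ g) :
    ∑ C ∈ g.powerset.filter (fun C => A ⊆ C), be Q A C = Q.eval (g.card : ℤ) := by
  unfold be
  have h1 : ∑ C ∈ g.powerset.filter (fun C => A ⊆ C),
      ∑ g' ∈ C.powerset.filter (fun g' => A ⊆ g'),
        (-1 : ℤ) ^ (C.card - g'.card) * Q.eval (g'.card : ℤ) =
      ∑ g' ∈ g.powerset.filter (fun g' => A ⊆ g'),
        ∑ C ∈ g.powerset.filter (fun C => g' ⊆ C),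
          (-1 : ℤ) ^ (C.card - g'.card) * Q.eval (g'.card : ℤ) := by
    refine sum_comm' ?_
    intro C g'
    simp only [mem_filter, mem_powerset]
    constructor
    · rintro ⟨⟨h1, h2⟩, h3, h4⟩
      exact ⟨⟨h1, h3⟩, h3.trans h1, h4⟩
    · rintro ⟨⟨h1, h2⟩, h3, h4⟩
      exact ⟨⟨h1, h4.trans h2⟩, h2, h4⟩
  rw [h1]
  have h2 : ∀ g' ∈ g.powerset.filter (fun g' => A ⊆ g'),
      ∑ C ∈ g.powerset.filter (fun C => g' ⊆ C),
          (-1 : ℤ) ^ (C.card - g'.card) * Q.eval (g'.card : ℤ) =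
      if g' = g then Q.eval (g.card : ℤ) else 0 := by
    intro g' hg'
    simp only [mem_filter, mem_powerset] at hg'
    rw [← sum_mul, polyB_inner g g' hg'.1]
    split_ifs with h
    · rw [h, one_mul]
    · rw [zero_mul]
  rw [sum_congr rfl h2, sum_ite_eq' _ g]
  rw [if_pos]
  simp [hA]

theorem bc_sum (D : ℕ) (Q : Polynomial ℤ) (k : ℕ) (hk : D + Q.natDegree ≤ k) (g : Finset ℕ) :
    ∑ C ∈ g.powerset.filter (fun C => C.card ≤ k), bc D Q C = Q.eval (g.card : ℤ) • iv (br D g) := by
  have h0 : ∑ C ∈ g.powerset.filter (fun C => C.card ≤ k), bc D Q C =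
      ∑ C ∈ g.powerset, bc D Q C := by
    refine sum_subset (filter_subset _ _) ?_
    intro C hC hC2
    have : k < C.card := by
      by_contra hcon
      exact hC2 (mem_filter.mpr ⟨hC, by omega⟩)
    exact bc_zero D Q C (by omega)
  rw [h0]
  unfold bc iv
  have h1 : ∑ C ∈ g.powerset, ∑ A ∈ br D C, be Q A C • Finsupp.single A (1 : ℤ) =
      ∑ A ∈ br D g, ∑ C ∈ g.powerset.filter (fun C => A ⊆ C), be Q A C • Finsupp.single A 1 := by
    refine sum_comm' ?_
    intro C A
    simp only [br, mem_filter, mem_powerset]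
    constructor
    · rintro ⟨h1, h2, h3⟩
      exact ⟨⟨h1, h2⟩, h2.trans h1, h3⟩
    · rintro ⟨⟨h1, h2⟩, h3, h4⟩
      exact ⟨h1, h2, h4⟩
  rw [h1, smul_sum]
  refine sum_congr rfl fun A hA => ?_
  simp only [br, mem_filter, mem_powerset] at hA
  rw [← sum_smul, polyB_be_sum Q A g hA.1]

end Pool.Agent.Lib.MP_90b327_co.RS
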