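import Mathlib
import Pool.Agent.Lib.MP_90b327_co.RS.RDef

/-!
MODULE ClBr (25 minutes, old scale). Cells of contents.

`br D S` is the set of the non-empty subsets of `S` with at most `D` elements, `rg D A` the set of the row tuples with set of entries `A`, `cl D x` the union of `rg D A`, `A ∈ x`.
PROOF. `cl_br`: a row tuple `c` with entries in `S` has the range `A = univ.image c ⊆ S`, non-empty (`1 ≤ D`), with at most `D` elements, and `c ∈ rg D A`; conversely `rg D A ⊆ pw D A ⊆ pw D S`.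
`cl_insert`: `Finset.biUnion_insert`. `rg_disj`: a row tuple has only one range. `cl_mem`: `c ∈ cl D x` iff `univ.image c ∈ x`.
-/

set_option autoImplicit false

namespace Pool.Agent.Lib.MP_90b327_co.RS

open Finset MeasureTheory Filter Pool.Agent.Lib.MP_90b327_co Pool.Agent.Lib.MP_90b327_co.RB
  Pool.Agent.Lib.MP_90b327_co.WW

private lemma rg_mem {D : ℕ} (A : Finset ℕ) (c : Ce D) :
    c ∈ rg D A ↔ Finset.univ.image c = A := by
  unfold rg pw
  rw [Finset.mem_filter, Fintype.mem_piFinset]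
  constructor
  · rintro ⟨h1, h2⟩
    ext v
    rw [Finset.mem_image]
    constructor
    · rintro ⟨i, -, rfl⟩
      exact h1 i
    · intro hv
      obtain ⟨i, hi⟩ := h2 v hv
      exact ⟨i, Finset.mem_univ i, hi⟩
  · rintro rfl
    refine ⟨fun i => Finset.mem_image_of_mem c (Finset.mem_univ i), fun v hv => ?_⟩
    obtain ⟨i, -, hi⟩ := Finset.mem_image.1 hv
    exact ⟨i, hi⟩

theorem cl_mem {D : ℕ} (x : Cn) (c : Ce D) : c ∈ cl D x ↔ Finset.univ.image c ∈ x := by
  unfold cl
  rw [Finset.mem_biUnion]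
  constructor
  · rintro ⟨A, hA, hc⟩
    rw [rg_mem] at hc
    rw [hc]
    exact hA
  · intro h
    exact ⟨_, h, (rg_mem _ c).2 rfl⟩

theorem cl_empty {D : ℕ} : cl D ∅ = ∅ := by
  unfold cl
  exact Finset.biUnion_empty

theorem cl_insert {D : ℕ} (x : Cn) (A : Finset ℕ) : cl D (insert A x) = cl D x ∪ rg D A := by
  unfold cl
  rw [Finset.biUnion_insert, Finset.union_comm]

theorem br_mem {D : ℕ} (S A : Finset ℕ) : A ∈ br D S ↔ A ⊆ S ∧ A.Nonempty ∧ A.card ≤ D := by
  unfold br
  rw [Finset.mem_filter, Finset.mem_powerset]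

theorem cl_br {D : ℕ} (hD : 1 ≤ D) (S : Finset ℕ) : cl D (br D S) = pw D S := by
  ext c
  rw [cl_mem, br_mem]
  unfold pw
  rw [Fintype.mem_piFinset]
  constructor
  · rintro ⟨h, -, -⟩ i
    exact h (Finset.mem_image_of_mem c (Finset.mem_univ i))
  · intro h
    refine ⟨?_, ?_, ?_⟩
    · intro v hv
      obtain ⟨i, -, rfl⟩ := Finset.mem_image.1 hv
      exact h i
    · exact ⟨c ⟨0, hD⟩, Finset.mem_image_of_mem c (Finset.mem_univ _)⟩
    · refine Finset.card_image_le.trans ?_
      rw [Finset.card_univ, Fintype.card_fin]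

theorem br_va (D : ℕ) (S : Finset ℕ) : Va D (br D S) := by
  intro A hA
  exact ((br_mem S A).1 hA).2

end Pool.Agent.Lib.MP_90b327_co.RS
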