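import Mathlib
import Pool.Agent.Lib.MP_90b327_co.RS.RDef
import Pool.Agent.Lib.MP_90b327_co.RB.RepA

/-!
MODULE KnUni (30 minutes, old scale). Unimodular values of a kernel (text 6, (U)).

PROOF. `kn_norm`: `posk_cs` / `ker_norm_le` (RB/RepA), or `psd` with two points. `kn_uni`: `psd` with the three points `w, x, y`: put `λ = k x y`, `|λ| = 1`; with the coefficients `t` at `w`, `s` at `x` and `- s * conj λ`... the vector
`v_y - λ v_x` is zero: `∑∑ conj(c_i) c_j k = |c_w|² + 2 Re(conj(c_w) (c_y k(w,y) + c_x k(w,x))) + |c_x|² + |c_y|² + 2 Re(conj(c_x) c_y λ)`; with `c_y = s`, `c_x = - λ s` the last three terms are `2|s|² - 2 |s|² = 0`, so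
`|c_w|² + 2 Re(conj(c_w) s (k(w,y) - λ k(w,x))) ≥ 0` for all `c_w, s`, hence `k(w,y) = λ k(w,x)`. `kn_uni'`: conjugate (`herm`). `kn_tr`: special case `w := x`.
-/

set_option autoImplicit false

namespace Pool.Agent.Lib.MP_90b327_co.RS

open Finset MeasureTheory Filter Pool.Agent.Lib.MP_90b327_co Pool.Agent.Lib.MP_90b327_co.RB
  Pool.Agent.Lib.MP_90b327_co.WW

theorem kn_norm {k : Cn → Cn → ℂ} (hk : KN k) (x y : Cn) : ‖k x y‖ ≤ 1 := by
  have h := posk_cs k hk.psd hk.herm x y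
  rw [hk.one, hk.one, Complex.one_re, mul_one] at h
  have h0 := norm_nonneg (k x y)
  nlinarith

theorem kn_uni {k : Cn → Cn → ℂ} (hk : KN k) (x y : Cn) (h : ‖k x y‖ = 1) (w : Cn) :
    k w y = k w x * k x y := by
  have hlam : (starRingEnd ℂ) (k x y) * k x y = 1 := by
    rw [mul_comm, Complex.mul_conj, Complex.normSq_eq_norm_sq, h]
    norm_num
  have key : ∀ s : ℂ, 0 ≤ 1 + 2 * (s * (k w y - k w x * k x y)).re := by
    intro s
    have hp := hk.psd (Fin 3) ![w, x, y] ![1, -(k x y * s), s]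
    have e : (∑ i : Fin 3, ∑ j : Fin 3,
        (starRingEnd ℂ) ((![1, -(k x y * s), s] : Fin 3 → ℂ) i) *
          (![1, -(k x y * s), s] : Fin 3 → ℂ) j *
          k ((![w, x, y] : Fin 3 → Cn) i) ((![w, x, y] : Fin 3 → Cn) j)) =
        1 + s * (k w y - k w x * k x y) +
          (starRingEnd ℂ) (s * (k w y - k w x * k x y)) := by
      simp only [Fin.sum_univ_three, Matrix.cons_val_zero, Matrix.cons_val_one, Matrix.cons_val]
      rw [hk.one w, hk.one x, hk.one y, hk.herm w x, hk.herm w y, hk.herm x y]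
      simp only [map_one, map_neg, map_mul, map_sub]
      linear_combination (0 : ℂ) * hlam
        - (starRingEnd ℂ) s * s * hlam * 1
    rw [e] at hp
    rw [Complex.add_re, Complex.add_re, Complex.one_re, Complex.conj_re] at hp
    linarith
  by_contra hne
  have hd : k w y - k w x * k x y ≠ 0 := sub_ne_zero.2 hne
  set d := k w y - k w x * k x y with hdd
  have hpos : 0 < ‖d‖ ^ 2 := by positivity
  have h1 := key (-(((1 / ‖d‖ ^ 2 : ℝ) : ℂ) * (starRingEnd ℂ) d))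
  have e2 : -(((1 / ‖d‖ ^ 2 : ℝ) : ℂ) * (starRingEnd ℂ) d) * d = ((-1 : ℝ) : ℂ) := by
    have e3 : (starRingEnd ℂ) d * d = ((‖d‖ ^ 2 : ℝ) : ℂ) := by
      rw [mul_comm, Complex.mul_conj, Complex.normSq_eq_norm_sq]
    have e4 : -(((1 / ‖d‖ ^ 2 : ℝ) : ℂ) * (starRingEnd ℂ) d) * d =
        -(((1 / ‖d‖ ^ 2 : ℝ) : ℂ) * ((starRingEnd ℂ) d * d)) := by ring
    rw [e4, e3, ← Complex.ofReal_mul, ← Complex.ofReal_neg]
    congr 1
    field_simp
  rw [e2, Complex.ofReal_re] at h1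
  linarith

theorem kn_uni' {k : Cn → Cn → ℂ} (hk : KN k) (x y : Cn) (h : ‖k x y‖ = 1) (w : Cn) :
    k y w = (starRingEnd ℂ) (k x y) * k x w := by
  rw [hk.herm w y, kn_uni hk x y h w, map_mul, ← hk.herm w x]
  ring

end Pool.Agent.Lib.MP_90b327_co.RS
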