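import Mathlib
import Pool.Agent.Lib.MP_90b327_co.RS.RDef
import Pool.Agent.Lib.MP_90b327_co.RS.KnUni
import Pool.Agent.Lib.MP_90b327_co.RS.ClBr

/-!
MODULE KnRem (30 minutes, old scale). Removal of several common coordinates.

PROOF. `kn_union`: induction on `u` (`Finset.induction_on`): insert the elements of `u` one after the other; the condition of `rem` for `A ∈ u` and the contents `x ∪ u'`, `y ∪ u'` (`u' ⊆ u`): for `B ⊇ A`: `B ∈ x ∪ u' ↔ B ∈ y ∪ u'` from the
hypothesis. If `A ∈ x` then `A ∈ y` (hypothesis with `B = A`) and nothing has to be inserted. `kn_add`: for `w` with no element contained in `S`: `kn_union` with `x = ∅`, `y = br D S`, `u = w`: for `A ∈ w`, `B ⊇ A`, `B ∈ br D S` would give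
`A ⊆ S`. (`∅ ∪ w = w`, `br D S ∪ w = w ∪ br D S`.)
-/

set_option autoImplicit false

namespace Pool.Agent.Lib.MP_90b327_co.RS

open Finset MeasureTheory Filter Pool.Agent.Lib.MP_90b327_co Pool.Agent.Lib.MP_90b327_co.RB
  Pool.Agent.Lib.MP_90b327_co.WW

theorem kn_union {k : Cn → Cn → ℂ} (hk : KN k) (x y u : Cn)
    (h : ∀ A ∈ u, ∀ B, A ⊆ B → (B ∈ x ↔ B ∈ y)) : k (x ∪ u) (y ∪ u) = k x y := by
  classical
  induction u using Finset.induction_on with
  | empty => rw [union_empty, union_empty]
  | insert A u hA ih =>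
    have ih' := ih fun d hd => h d (mem_insert_of_mem hd)
    rw [union_insert, union_insert]
    have h1 : ∀ B, A ⊆ B → (B ∈ x ∪ u ↔ B ∈ y ∪ u) := by
      intro B hB
      rw [mem_union, mem_union, h A (mem_insert_self _ _) B hB]
    by_cases hx : A ∈ x ∪ u
    · have hy := (h1 A (Finset.Subset.refl A)).1 hx
      rw [insert_eq_of_mem hx, insert_eq_of_mem hy, ih']
    · have hy : A ∉ y ∪ u := fun h2 => hx ((h1 A (Finset.Subset.refl A)).2 h2)
      rw [hk.rem _ _ A hx hy h1, ih']

theorem kn_add {D : ℕ} {k : Cn → Cn → ℂ} (hk : KN k) (w : Cn) (S : Finset ℕ)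
    (hw : ∀ A ∈ w, ¬ A ⊆ S) : k w (w ∪ br D S) = k ∅ (br D S) := by
  have h := kn_union hk ∅ (br D S) w (by
    intro A hA B hB
    constructor
    · intro h0
      exact absurd h0 (Finset.notMem_empty B)
    · intro h0
      exact absurd (hB.trans ((br_mem S B).1 h0).1) (hw A hA))
  rw [Finset.empty_union, Finset.union_comm (br D S) w] at h
  exact h

end Pool.Agent.Lib.MP_90b327_co.RS
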