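import Mathlib
import Pool.Agent.Lib.MP_90b327_co.RS.RDef
import Pool.Agent.Lib.MP_90b327_co.RS.KnRem

/-!
MODULE FdA (45 minutes, old scale). Lemma FD, case without differences below `B` (text 6).

`hB'` is FD for the smaller coordinates. `x`, `y` contain no subset of `B`.
PROOF. Text 6, case `Dl = 0` after the removal. `h.star B F` with `F` = all vertices of `x`, `y` (`x.biUnion id ∪ y.biUnion id`) gives `g`; `S = B ∪ g`, `lam = k ∅ (br D S)`. `w ∈ {x, y}`: no element of `w` is a subset of `S` (it does not meet `g`, so it would be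
a subset of `B`), `kn_add`: `k w (w ∪ br D S) = lam`. `kn_uni`, `kn_uni'`: `k (x ∪ br D S) (y ∪ br D S) = conj lam * k x y * lam = k x y`. `br D S = br D B ∪ GA D B g`; `kn_union` with `u = GA D B g` (an element of `u` meets `g`, and no difference of
`x ∪ br D B`, `y ∪ br D B` does): `k (x ∪ br D B) (y ∪ br D B) = k x y`. `br D B = insert B (proper ones)`; remove the proper ones one after the other by `hB'` (they are smaller coordinates, non-empty, not in `insert B x`..): gives
`k (insert B x) (insert B y)`. (Induction on a set `u ⊆ (br D B).erase B`: `k (insert B x ∪ u) (insert B y ∪ u) = k (insert B x) (insert B y)`; `hB'` applies to contents with elements which are coordinates: `Va D`.)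
-/

set_option autoImplicit false

namespace Pool.Agent.Lib.MP_90b327_co.RS

open Finset MeasureTheory Filter Pool.Agent.Lib.MP_90b327_co Pool.Agent.Lib.MP_90b327_co.RB
  Pool.Agent.Lib.MP_90b327_co.WW

private theorem FdA_sub {w : Cn} {A B F g : Finset ℕ} (hw : ∀ A ∈ w, ¬ A ⊆ B)
    (hF : w.biUnion id ⊆ F) (hg : Disjoint g (B ∪ F)) (hA : A ∈ w) : ¬ A ⊆ B ∪ g := by
  intro h
  refine hw A hA fun a ha => ?_
  rcases mem_union.1 (h ha) with h1 | h1
  · exact h1
  · exfalso
    have h2 : a ∈ F := hF (mem_biUnion.2 ⟨A, hA, ha⟩)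
    exact (Finset.disjoint_left.1 hg h1) (mem_union_right _ h2)

private theorem FdA_meet {w : Cn} {A C B F g : Finset ℕ} {D : ℕ}
    (hF : w.biUnion id ⊆ F) (hg : Disjoint g (B ∪ F)) (hA : A ∈ GA D B g) (hAC : A ⊆ C) :
    C ∉ w ∪ br D B := by
  intro h
  have h1 : ¬ Disjoint A g := (mem_filter.1 hA).2
  rw [Finset.not_disjoint_iff] at h1
  obtain ⟨a, h2, h3⟩ := h1
  have h4 : a ∉ B ∪ F := Finset.disjoint_left.1 hg h3
  rcases mem_union.1 h with h5 | h5
  · exact h4 (mem_union_right _ (hF (mem_biUnion.2 ⟨C, h5, hAC h2⟩)))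
  · rw [br_mem] at h5
    exact h4 (mem_union_left _ (h5.1 (hAC h2)))

private theorem FdA_br (D : ℕ) (B g : Finset ℕ) : br D (B ∪ g) = br D B ∪ GA D B g := by
  ext C
  rw [mem_union, GA, mem_filter, br_mem, br_mem]
  constructor
  · rintro ⟨h1, h2⟩
    by_cases h3 : Disjoint C g
    · left
      refine ⟨fun a ha => ?_, h2⟩
      rcases mem_union.1 (h1 ha) with h4 | h4
      · exact h4
      · exact absurd h4 (Finset.disjoint_left.1 h3 ha)
    · exact Or.inr ⟨⟨h1, h2⟩, h3⟩
  · rintro (⟨h1, h2⟩ | ⟨h1, _⟩)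
    · exact ⟨h1.trans subset_union_left, h2⟩
    · exact h1

private theorem FdA_small {D : ℕ} {k : Cn → Cn → ℂ} (B : Finset ℕ) (hBn : B.Nonempty)
    (hBc : B.card ≤ D)
    (hB' : ∀ A : Finset ℕ, A.Nonempty → A.card < B.card → ∀ x y : Cn, Va D x → Va D y → A ∉ x →
      A ∉ y → k (insert A x) (insert A y) = k x y)
    (x y : Cn) (hx : Va D x) (hy : Va D y) (hx' : ∀ A ∈ x, ¬ A ⊆ B) (hy' : ∀ A ∈ y, ¬ A ⊆ B)
    (u : Cn) (hu : u ⊆ (br D B).erase B) :
    k (insert B x ∪ u) (insert B y ∪ u) = k (insert B x) (insert B y) := by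
  induction u using Finset.induction_on with
  | empty => rw [union_empty, union_empty]
  | insert A u hA ih =>
    have hAm := hu (mem_insert_self A u)
    rw [mem_erase, br_mem] at hAm
    have hu' : u ⊆ (br D B).erase B := (subset_insert A u).trans hu
    have hlt : A.card < B.card :=
      card_lt_card (HasSubset.Subset.ssubset_of_ne hAm.2.1 hAm.1)
    have hva : ∀ w : Cn, Va D w → Va D (insert B w ∪ u) := by
      intro w hw C hC
      rcases mem_union.1 hC with h1 | h1
      · rcases mem_insert.1 h1 with h2 | h2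
        · rw [h2]
          exact ⟨hBn, hBc⟩
        · exact hw C h2
      · exact br_va D B C (mem_of_mem_erase (hu' h1))
    have hni : ∀ w : Cn, (∀ A ∈ w, ¬ A ⊆ B) → A ∉ insert B w ∪ u := by
      intro w hw h
      rcases mem_union.1 h with h1 | h1
      · rcases mem_insert.1 h1 with h2 | h2
        · exact hAm.1 h2
        · exact hw A h2 hAm.2.1
      · exact hA h1
    rw [union_insert, union_insert, hB' A hAm.2.2.1 hlt _ _ (hva x hx) (hva y hy) (hni x hx')
      (hni y hy')]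
    exact ih hu'

theorem fd_a {D : ℕ} {k : Cn → Cn → ℂ} (h : KS D k) (B : Finset ℕ) (hBn : B.Nonempty)
    (hBc : B.card ≤ D)
    (hB' : ∀ A : Finset ℕ, A.Nonempty → A.card < B.card → ∀ x y : Cn, Va D x → Va D y → A ∉ x →
      A ∉ y → k (insert A x) (insert A y) = k x y)
    (x y : Cn) (hx : Va D x) (hy : Va D y) (hx' : ∀ A ∈ x, ¬ A ⊆ B) (hy' : ∀ A ∈ y, ¬ A ⊆ B) :
    k (insert B x) (insert B y) = k x y := by
  obtain ⟨g, hg1, hg2, hg3⟩ := h.star B (x.biUnion id ∪ y.biUnion id)
  have hk : KN k := h.toKN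
  have hFx : x.biUnion id ⊆ x.biUnion id ∪ y.biUnion id := subset_union_left
  have hFy : y.biUnion id ⊆ x.biUnion id ∪ y.biUnion id := subset_union_right
  have hax : k x (x ∪ br D (B ∪ g)) = k ∅ (br D (B ∪ g)) :=
    kn_add hk x (B ∪ g) fun A hA => FdA_sub hx' hFx hg2 hA
  have hay : k y (y ∪ br D (B ∪ g)) = k ∅ (br D (B ∪ g)) :=
    kn_add hk y (B ∪ g) fun A hA => FdA_sub hy' hFy hg2 hA
  have h1 : k (x ∪ br D (B ∪ g)) (y ∪ br D (B ∪ g)) = k x y := by
    rw [kn_uni' hk x (x ∪ br D (B ∪ g)) (by rw [hax]; exact hg3),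
      kn_uni hk y (y ∪ br D (B ∪ g)) (by rw [hay]; exact hg3), hax, hay]
    have h2 : (starRingEnd ℂ) (k ∅ (br D (B ∪ g))) * k ∅ (br D (B ∪ g)) = 1 := by
      rw [← Complex.normSq_eq_conj_mul_self, Complex.normSq_eq_norm_sq, hg3]
      norm_num
    calc (starRingEnd ℂ) (k ∅ (br D (B ∪ g))) * (k x y * k ∅ (br D (B ∪ g)))
        = k x y * ((starRingEnd ℂ) (k ∅ (br D (B ∪ g))) * k ∅ (br D (B ∪ g))) := by ring
      _ = k x y := by rw [h2, mul_one]
  have h3 : k (x ∪ br D (B ∪ g)) (y ∪ br D (B ∪ g)) = k (x ∪ br D B) (y ∪ br D B) := by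
    rw [FdA_br, ← union_assoc, ← union_assoc]
    refine kn_union hk _ _ _ fun A hA C hAC => ?_
    exact ⟨fun h4 => absurd h4 (FdA_meet hFx hg2 hA hAC),
      fun h4 => absurd h4 (FdA_meet hFy hg2 hA hAC)⟩
  have hBm : B ∈ br D B := (br_mem (D := D) B B).2 ⟨Subset.refl B, hBn, hBc⟩
  have h5 : ∀ w : Cn, w ∪ br D B = insert B w ∪ (br D B).erase B := by
    intro w
    ext C
    simp only [mem_union, mem_insert, mem_erase]
    constructor
    · rintro (h6 | h6)
      · exact Or.inl (Or.inr h6)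
      · by_cases h7 : C = B
        · exact Or.inl (Or.inl h7)
        · exact Or.inr ⟨h7, h6⟩
    · rintro ((h6 | h6) | h6)
      · rw [h6]
        exact Or.inr hBm
      · exact Or.inl h6
      · exact Or.inr h6.2
  rw [← FdA_small B hBn hBc hB' x y hx hy hx' hy' ((br D B).erase B) (Subset.refl _), ← h5, ← h5,
    ← h3, h1]

end Pool.Agent.Lib.MP_90b327_co.RS
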