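import Mathlib
import Pool.Agent.Lib.MP_90b327_co.RS.RDef
import Pool.Agent.Lib.MP_90b327_co.RS.KnRem

/-!
MODULE FdB (50 minutes, old scale). Lemma FD, reduction of a minimal difference (text 6).

`C ∈ x`, `C ∉ y` is a proper subset of `B`; `x` and `y` contain all proper subsets of `C`. The step replaces `x` by `w = x - (subsets of C)` and `y` by `y' = y ∪ GA D C g`, `g` fresh.
PROOF. Text 6, case `Dl ≠ 0`. `h.star C F` with `F` = all vertices of `x`, `y`, `B` gives `g`, `S = C ∪ g`; `G = GA D C g`, `br D S = br D C ∪ G`. `kn_union` with `u = G`: `k x y = k (x ∪ G) (y ∪ G)` and `k (insert B x) (insert B y) = k (insert B x ∪ G) (insert B y ∪ G)`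
(no difference meets `g`; for the second pair the differences are the same, `B` is common). `x ∪ G = w ∪ br D S` (`x` contains `br D C`), `w = x \ br D C` has no element inside `S` (it does not meet `g`, and the subsets of `C` in `x` are coordinates,
so they are in `br D C`): `kn_add`: `k w (w ∪ br D S) = lam`, `kn_uni'`: `k x y = conj lam * k w (y ∪ G)`. The same with `insert B x ∪ G = insert B w ∪ br D S` (`B ⊄ S`, since `B` is disjoint from `g` and not a subset of `C`).
The properties of `y' = y ∪ G`: an element of `y'` which is a subset of `B` is in `y` (elements of `G` meet `g`, which is disjoint from `B`).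
-/

set_option autoImplicit false

namespace Pool.Agent.Lib.MP_90b327_co.RS

open Finset MeasureTheory Filter Pool.Agent.Lib.MP_90b327_co Pool.Agent.Lib.MP_90b327_co.RB
  Pool.Agent.Lib.MP_90b327_co.WW

theorem fd_b {D : ℕ} {k : Cn → Cn → ℂ} (h : KS D k) (B C : Finset ℕ) (hBn : B.Nonempty)
    (hBc : B.card ≤ D) (hC : C ⊂ B) (x y : Cn) (hx : Va D x) (hy : Va D y) (hBx : B ∉ x) (hBy : B ∉ y)
    (hCx : C ∈ x) (hCy : C ∉ y) (hsub : ∀ A, A.Nonempty → A ⊂ C → A ∈ x ∧ A ∈ y) :
    ∃ (lam : ℂ) (y' : Cn), Va D y' ∧ B ∉ y' ∧ (∀ A, A ⊆ B → (A ∈ y' ↔ A ∈ y)) ∧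
      k x y = lam * k (x \ br D C) y' ∧
      k (insert B x) (insert B y) = lam * k (insert B (x \ br D C)) (insert B y') := by
  obtain ⟨g, _, hg, hu⟩ := h.star C (B ∪ (x.biUnion id ∪ y.biUnion id))
  have hgB : ∀ v ∈ g, v ∉ B := fun v hv hvB =>
    Finset.disjoint_left.1 hg hv (Finset.mem_union_right _ (Finset.mem_union_left _ hvB))
  have hgx : ∀ A ∈ x, ∀ v ∈ g, v ∉ A := fun A hA v hv hvA =>
    Finset.disjoint_left.1 hg hv (Finset.mem_union_right _ (Finset.mem_union_right _
      (Finset.mem_union_left _ (Finset.mem_biUnion.2 ⟨A, hA, hvA⟩))))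
  have hgy : ∀ A ∈ y, ∀ v ∈ g, v ∉ A := fun A hA v hv hvA =>
    Finset.disjoint_left.1 hg hv (Finset.mem_union_right _ (Finset.mem_union_right _
      (Finset.mem_union_right _ (Finset.mem_biUnion.2 ⟨A, hA, hvA⟩))))
  set G := GA D C g with hG
  have hGm : ∀ A, A ∈ G ↔ A ∈ br D (C ∪ g) ∧ ∃ v ∈ g, v ∈ A := by
    intro A
    rw [hG]
    unfold GA
    rw [Finset.mem_filter, Finset.not_disjoint_iff]
    constructor
    · rintro ⟨h1, v, h2, h3⟩
      exact ⟨h1, v, h3, h2⟩
    · rintro ⟨h1, v, h2, h3⟩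
      exact ⟨h1, v, h3, h2⟩
  have hCxc := hx C hCx
  have hCD : C ∈ br D C := (br_mem C C).2 ⟨Finset.Subset.refl _, hCxc⟩
  have hbrx : br D C ⊆ x := by
    intro A hA
    rw [br_mem] at hA
    by_cases hAC : A = C
    · rw [hAC]
      exact hCx
    · exact (hsub A hA.2.1 (Finset.ssubset_iff_subset_ne.2 ⟨hA.1, hAC⟩)).1
  have hS : ∀ A, A ∈ br D (C ∪ g) ↔ A ∈ br D C ∨ A ∈ G := by
    intro A
    rw [hGm A, br_mem, br_mem]
    constructor
    · rintro ⟨h1, h2⟩
      by_cases hm : ∃ v ∈ g, v ∈ A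
      · exact Or.inr ⟨⟨h1, h2⟩, hm⟩
      · left
        refine ⟨fun v hv => ?_, h2⟩
        rcases Finset.mem_union.1 (h1 hv) with h3 | h3
        · exact h3
        · exact absurd ⟨v, h3, hv⟩ hm
    · rintro (⟨h1, h2⟩ | ⟨⟨h1, h2⟩, _⟩)
      · exact ⟨h1.trans Finset.subset_union_left, h2⟩
      · exact ⟨h1, h2⟩
  set w := x \ br D C with hw
  have hwx : w ⊆ x := Finset.sdiff_subset
  have e1 : x ∪ G = w ∪ br D (C ∪ g) := by
    ext A
    rw [Finset.mem_union, Finset.mem_union, hS A, hw, Finset.mem_sdiff]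
    constructor
    · rintro (h1 | h1)
      · by_cases h2 : A ∈ br D C
        · exact Or.inr (Or.inl h2)
        · exact Or.inl ⟨h1, h2⟩
      · exact Or.inr (Or.inr h1)
    · rintro (h1 | h1 | h1)
      · exact Or.inl h1.1
      · exact Or.inl (hbrx h1)
      · exact Or.inr h1
  have e2 : insert B x ∪ G = insert B w ∪ br D (C ∪ g) := by
    rw [Finset.insert_union, e1, Finset.insert_union]
  have e3 : insert B y ∪ G = insert B (y ∪ G) := Finset.insert_union _ _ _
  have hwS : ∀ A ∈ w, ¬ A ⊆ C ∪ g := by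
    intro A hA hAS
    have hAx := hwx hA
    refine (Finset.mem_sdiff.1 hA).2 ((br_mem C A).2 ⟨fun v hv => ?_, hx A hAx⟩)
    rcases Finset.mem_union.1 (hAS hv) with h3 | h3
    · exact h3
    · exact absurd hv (hgx A hAx v h3)
  have hBS : ¬ B ⊆ C ∪ g := by
    intro hB
    refine hC.2 fun v hv => ?_
    rcases Finset.mem_union.1 (hB hv) with h3 | h3
    · exact h3
    · exact absurd hv (hgB v h3)
  have k1 : k (x ∪ G) (y ∪ G) = k x y := by
    refine kn_union h.toKN x y G fun A hA E hAE => ?_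
    obtain ⟨v, hv, hvA⟩ := ((hGm A).1 hA).2
    constructor
    · exact fun hE => absurd (hAE hvA) (hgx E hE v hv)
    · exact fun hE => absurd (hAE hvA) (hgy E hE v hv)
  have k2 : k (insert B x ∪ G) (insert B y ∪ G) = k (insert B x) (insert B y) := by
    refine kn_union h.toKN _ _ G fun A hA E hAE => ?_
    obtain ⟨v, hv, hvA⟩ := ((hGm A).1 hA).2
    have hvE := hAE hvA
    have hEB : E ≠ B := by
      rintro rfl
      exact hgB v hv hvE
    constructor
    · intro hE
      rcases Finset.mem_insert.1 hE with h3 | h3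
      · exact absurd h3 hEB
      · exact absurd hvE (hgx E h3 v hv)
    · intro hE
      rcases Finset.mem_insert.1 hE with h3 | h3
      · exact absurd h3 hEB
      · exact absurd hvE (hgy E h3 v hv)
  have a1 : k w (w ∪ br D (C ∪ g)) = k ∅ (br D (C ∪ g)) := kn_add h.toKN w (C ∪ g) hwS
  have a2 : k (insert B w) (insert B w ∪ br D (C ∪ g)) = k ∅ (br D (C ∪ g)) := by
    refine kn_add h.toKN _ (C ∪ g) fun A hA => ?_
    rcases Finset.mem_insert.1 hA with h3 | h3
    · rw [h3]
      exact hBS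
    · exact hwS A h3
  refine ⟨(starRingEnd ℂ) (k ∅ (br D (C ∪ g))), y ∪ G, ?_, ?_, ?_, ?_, ?_⟩
  · intro A hA
    rcases Finset.mem_union.1 hA with h3 | h3
    · exact hy A h3
    · exact ((br_mem _ A).1 ((hGm A).1 h3).1).2
  · intro hB
    rcases Finset.mem_union.1 hB with h3 | h3
    · exact hBy h3
    · obtain ⟨v, hv, hvB⟩ := ((hGm B).1 h3).2
      exact hgB v hv hvB
  · intro A hAB
    constructor
    · intro hA
      rcases Finset.mem_union.1 hA with h3 | h3
      · exact h3
      · obtain ⟨v, hv, hvA⟩ := ((hGm A).1 h3).2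
        exact absurd (hAB hvA) (hgB v hv)
    · exact fun hA => Finset.mem_union_left _ hA
  · rw [← k1, e1, kn_uni' h.toKN w (w ∪ br D (C ∪ g)) (by rw [a1]; exact hu) (y ∪ G), a1]
  · rw [← k2, e2, kn_uni' h.toKN (insert B w) (insert B w ∪ br D (C ∪ g)) (by rw [a2]; exact hu)
      (insert B y ∪ G), a2, e3]

end Pool.Agent.Lib.MP_90b327_co.RS
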