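import Mathlib
import Pool.Agent.Lib.MP_90b327_co.RS.RDef
import Pool.Agent.Lib.MP_90b327_co.RS.FdA
import Pool.Agent.Lib.MP_90b327_co.RS.FdB

/-!
MODULE Fd (60 minutes, old scale). Lemma FD (text 6).

PROOF. Strong induction on `B.card`. Fix `B`, assume FD for smaller coordinates (`hB'` of `fd_a`). Let `mu x y = ∑ C ∈ (br D B).filter (fun C => ¬ (C ∈ x ↔ C ∈ y)), 2 ^ (D * C.card)`. Strong induction on `mu x y`, for all `x y` with `Va D`, `B ∉ x`, `B ∉ y`.
Case `mu x y = 0` (no difference in `br D B`): `x = x₀ ∪ u`, `y = y₀ ∪ u`, `u = x ∩ br D B = y ∩ br D B` (proper subsets of `B`); remove the elements of `u` one after the other by FD for smaller coordinates from both pairs `(x, y)`, `(insert B x, insert B y)`; then `fd_a`.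
Case of a difference: choose `C ∈ br D B` in exactly one of `x`, `y` with minimal cardinality (`C ≠ B`); by symmetry (`herm`, all statements are symmetric under conjugation) let `C ∈ x`, `C ∉ y`. Let `N = (br D C).erase C`; by minimality `A ∈ x ↔ A ∈ y` for `A ∈ N`. Add the
missing ones: `x₁ = x ∪ N`, `y₁ = y ∪ N`: by FD for smaller coordinates `k x₁ y₁ = k x y` and the same with `insert B`. The set of differences is unchanged. `fd_b` for `x₁, y₁` gives `lam, y'`; the pair `(x₁ \ br D C, y')` has in `br D B` the differences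
(old ones `- C + N`), so `mu` drops: `∑_{A ∈ N} 2^(D |A|) ≤ (2^D - 1) 2^(D (|C| - 1)) < 2^(D |C|)` (`N` has at most `2^|C| - 2 < 2^D` elements, each with `|A| ≤ |C| - 1`). Induction: `k (x₁ \ br D C) y' = k (insert B ..) (insert B y')`.
`fd_union`: induction on `u`.
-/

set_option autoImplicit false

namespace Pool.Agent.Lib.MP_90b327_co.RS

open Finset MeasureTheory Filter Pool.Agent.Lib.MP_90b327_co Pool.Agent.Lib.MP_90b327_co.RB
  Pool.Agent.Lib.MP_90b327_co.WW

private theorem fd_mem {D : ℕ} {S A : Finset ℕ} : A ∈ br D S ↔ A ⊆ S ∧ A.Nonempty ∧ A.card ≤ D := by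
  unfold br
  rw [mem_filter, mem_powerset]

private theorem fd_rm {D : ℕ} {k : Cn → Cn → ℂ} (n : ℕ) (hn : n ≤ D)
    (hB' : ∀ A : Finset ℕ, A.Nonempty → A.card < n → ∀ x y : Cn, Va D x → Va D y → A ∉ x →
      A ∉ y → k (insert A x) (insert A y) = k x y) (x y u : Cn) (hx : Va D x) (hy : Va D y)
    (hu : ∀ A ∈ u, A.Nonempty ∧ A.card < n) (hxu : Disjoint x u) (hyu : Disjoint y u) :
    k (x ∪ u) (y ∪ u) = k x y := by
  induction u using Finset.induction_on with
  | empty => rw [union_empty, union_empty]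
  | insert A u hA ih =>
    rw [disjoint_insert_right] at hxu hyu
    have hA' := hu A (mem_insert_self _ _)
    have hu' : ∀ B ∈ u, B.Nonempty ∧ B.card < n := fun B hB => hu B (mem_insert_of_mem hB)
    have hVa : ∀ z : Cn, Va D z → Va D (z ∪ u) := by
      intro z hz B hB
      rcases mem_union.1 hB with h | h
      · exact hz B h
      · exact ⟨(hu' B h).1, by have := (hu' B h).2; omega⟩
    have h1 : A ∉ x ∪ u := by
      rw [mem_union, not_or]
      exact ⟨hxu.1, hA⟩
    have h2 : A ∉ y ∪ u := by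
      rw [mem_union, not_or]
      exact ⟨hyu.1, hA⟩
    rw [union_insert, union_insert, hB' A hA'.1 hA'.2 _ _ (hVa x hx) (hVa y hy) h1 h2]
    exact ih hu' hxu.2 hyu.2

private def fd_mu (D : ℕ) (B : Finset ℕ) (x y : Cn) : ℕ :=
  ∑ C ∈ (br D B).filter (fun C => ¬ (C ∈ x ↔ C ∈ y)), 2 ^ (D * C.card)

private theorem fd_mu_symm (D : ℕ) (B : Finset ℕ) (x y : Cn) : fd_mu D B x y = fd_mu D B y x := by
  unfold fd_mu
  exact sum_congr (filter_congr fun C _ => not_congr Iff.comm) fun _ _ => rfl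

private theorem fd_small {D : ℕ} {C : Finset ℕ} (hC : C.Nonempty) (hCD : C.card ≤ D) :
    ∑ A ∈ (br D C).erase C, 2 ^ (D * A.card) < 2 ^ (D * C.card) := by
  have hc : 0 < C.card := card_pos.2 hC
  have h1 : ∑ A ∈ (br D C).erase C, 2 ^ (D * A.card) ≤
      ((br D C).erase C).card * 2 ^ (D * (C.card - 1)) := by
    rw [← smul_eq_mul]
    refine sum_le_card_nsmul _ _ _ fun A hA => ?_
    obtain ⟨hAC, hA'⟩ := mem_erase.1 hA
    have h2 : A ⊂ C := lt_of_le_of_ne (fd_mem.1 hA').1 hAC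
    have h3 := card_lt_card h2
    exact Nat.pow_le_pow_right (by norm_num) (Nat.mul_le_mul_left _ (by omega))
  have h4 : ((br D C).erase C).card < 2 ^ D := by
    have h5 : (br D C).erase C ⊆ C.powerset.erase C :=
      erase_subset_erase _ (filter_subset _ _)
    have h6 := card_le_card h5
    rw [card_erase_of_mem (mem_powerset_self C), card_powerset] at h6
    have h7 : 2 ^ C.card ≤ 2 ^ D := Nat.pow_le_pow_right (by norm_num) hCD
    have h8 : 0 < 2 ^ C.card := by positivity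
    omega
  have h9 : 2 ^ (D * C.card) = 2 ^ D * 2 ^ (D * (C.card - 1)) := by
    rw [← pow_add]
    refine congrArg _ ?_
    obtain ⟨c, hc'⟩ : ∃ c, C.card = c + 1 := ⟨C.card - 1, by omega⟩
    rw [hc', Nat.add_sub_cancel]
    ring
  rw [h9]
  exact h1.trans_lt (Nat.mul_lt_mul_of_pos_right h4 (by positivity))

private theorem fd_key {D : ℕ} {k : Cn → Cn → ℂ} (h : KS D k) (B : Finset ℕ) (hBn : B.Nonempty)
    (hBc : B.card ≤ D)
    (hB' : ∀ A : Finset ℕ, A.Nonempty → A.card < B.card → ∀ x y : Cn, Va D x → Va D y → A ∉ x →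
      A ∉ y → k (insert A x) (insert A y) = k x y)
    (x y : Cn) (hx : Va D x) (hy : Va D y) (hBx : B ∉ x) (hBy : B ∉ y)
    (ih : ∀ x' y' : Cn, Va D x' → Va D y' → B ∉ x' → B ∉ y' → fd_mu D B x' y' < fd_mu D B x y →
      k (insert B x') (insert B y') = k x' y')
    (C : Finset ℕ) (hC : C ∈ br D B) (hCx : C ∈ x) (hCy : C ∉ y)
    (hmin : ∀ A ∈ br D B, ¬ (A ∈ x ↔ A ∈ y) → C.card ≤ A.card) :
    k (insert B x) (insert B y) = k x y := by
  obtain ⟨hCB, hCn, hCD⟩ := fd_mem.1 hC
  have hCB' : C ⊂ B := lt_of_le_of_ne hCB (fun h1 => hBx (h1 ▸ hCx))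
  have hcc := card_lt_card hCB'
  set N : Cn := (br D C).erase C with hN
  have hNm : ∀ A ∈ N, A ⊂ C ∧ A.Nonempty ∧ A.card ≤ D := by
    intro A hA
    obtain ⟨h1, h2⟩ := mem_erase.1 hA
    obtain ⟨h3, h4, h5⟩ := fd_mem.1 h2
    exact ⟨lt_of_le_of_ne h3 h1, h4, h5⟩
  have hNB : ∀ A ∈ N, A ∈ br D B := fun A hA =>
    fd_mem.2 ⟨(hNm A hA).1.subset.trans hCB, (hNm A hA).2⟩
  have hNxy : ∀ A ∈ N, (A ∈ x ↔ A ∈ y) := by
    intro A hA
    by_contra h1
    have h2 := hmin A (hNB A hA) h1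
    have h3 := card_lt_card (hNm A hA).1
    omega
  have hBN : B ∉ N := by
    intro h1
    have h2 := card_lt_card (hNm B h1).1
    omega
  have hxN : x ∪ N = x ∪ (N \ x) := (union_sdiff_self_eq_union).symm
  have hyN : y ∪ N = y ∪ (N \ x) := by
    ext A
    rw [mem_union, mem_union, Finset.mem_sdiff]
    constructor
    · rintro (h1 | h1)
      · exact Or.inl h1
      · by_cases h2 : A ∈ x
        · exact Or.inl ((hNxy A h1).1 h2)
        · exact Or.inr ⟨h1, h2⟩
    · rintro (h1 | h1)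
      · exact Or.inl h1
      · exact Or.inr h1.1
  have hu : ∀ A ∈ N \ x, A.Nonempty ∧ A.card < B.card := by
    intro A hA
    have h1 := hNm A (Finset.mem_sdiff.1 hA).1
    exact ⟨h1.2.1, (card_lt_card h1.1).trans hcc⟩
  have hd1 : Disjoint x (N \ x) := disjoint_sdiff
  have hd2 : Disjoint y (N \ x) := by
    rw [disjoint_left]
    intro A hA hA'
    obtain ⟨h1, h2⟩ := Finset.mem_sdiff.1 hA'
    exact h2 ((hNxy A h1).2 hA)
  have hBd : ∀ z : Cn, Disjoint z (N \ x) → Disjoint (insert B z) (N \ x) := by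
    intro z hz
    rw [disjoint_insert_left]
    exact ⟨fun h1 => hBN (Finset.mem_sdiff.1 h1).1, hz⟩
  have hVB : ∀ z : Cn, Va D z → Va D (insert B z) := by
    intro z hz A hA
    rcases mem_insert.1 hA with h1 | h1
    · rw [h1]
      exact ⟨hBn, hBc⟩
    · exact hz A h1
  have hVN : ∀ z : Cn, Va D z → Va D (z ∪ N) := by
    intro z hz A hA
    rcases mem_union.1 hA with h1 | h1
    · exact hz A h1
    · exact (hNm A h1).2
  have e1 : k (x ∪ N) (y ∪ N) = k x y := by
    rw [hxN, hyN]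
    exact fd_rm B.card hBc hB' x y _ hx hy hu hd1 hd2
  have e2 : k (insert B (x ∪ N)) (insert B (y ∪ N)) = k (insert B x) (insert B y) := by
    rw [hxN, hyN, ← insert_union, ← insert_union]
    exact fd_rm B.card hBc hB' _ _ _ (hVB x hx) (hVB y hy) hu (hBd x hd1) (hBd y hd2)
  have hBxN : B ∉ x ∪ N := by
    rw [mem_union, not_or]
    exact ⟨hBx, hBN⟩
  have hByN : B ∉ y ∪ N := by
    rw [mem_union, not_or]
    exact ⟨hBy, hBN⟩
  have hCN : C ∉ N := by
    rw [hN]
    exact notMem_erase _ _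
  have hCyN : C ∉ y ∪ N := by
    rw [mem_union, not_or]
    exact ⟨hCy, hCN⟩
  have hsub : ∀ A : Finset ℕ, A.Nonempty → A ⊂ C → A ∈ x ∪ N ∧ A ∈ y ∪ N := by
    intro A hA hAC
    have h1 : A ∈ N := by
      rw [hN]
      refine mem_erase.2 ⟨hAC.ne, fd_mem.2 ⟨hAC.subset, hA, ?_⟩⟩
      have := card_lt_card hAC
      omega
    exact ⟨mem_union_right _ h1, mem_union_right _ h1⟩
  obtain ⟨lam, y', hVy', hBy', hiff, f1, f2⟩ := fd_b h B C hBn hBc hCB' (x ∪ N) (y ∪ N)
    (hVN x hx) (hVN y hy) hBxN hByN (mem_union_left _ hCx) hCyN hsub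
  have hVw : Va D ((x ∪ N) \ br D C) := fun A hA => hVN x hx A (Finset.mem_sdiff.1 hA).1
  have hBw : B ∉ (x ∪ N) \ br D C := fun h1 => hBxN (Finset.mem_sdiff.1 h1).1
  have hmu : fd_mu D B ((x ∪ N) \ br D C) y' < fd_mu D B x y := by
    unfold fd_mu
    set F := (br D B).filter (fun A => ¬ (A ∈ x ↔ A ∈ y)) with hF
    have hCF : C ∈ F := by
      rw [hF]
      exact mem_filter.2 ⟨hC, fun h1 => hCy (h1.1 hCx)⟩
    have g1 : (br D B).filter (fun A => ¬ (A ∈ (x ∪ N) \ br D C ↔ A ∈ y')) ⊆ F.erase C ∪ N := by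
      intro A hA
      obtain ⟨h1, h2⟩ := mem_filter.1 hA
      have h3 := hiff A (fd_mem.1 h1).1
      rw [mem_union]
      by_cases h4 : A ∈ N
      · exact Or.inr h4
      · left
        have hAC : A ≠ C := by
          intro h5
          refine h2 (iff_of_false ?_ ?_)
          · intro h6
            rw [h5] at h6
            exact (Finset.mem_sdiff.1 h6).2 (fd_mem.2 ⟨Subset.refl _, hCn, hCD⟩)
          · intro h6
            rw [h3, h5] at h6
            exact hCyN h6
        refine mem_erase.2 ⟨hAC, mem_filter.2 ⟨h1, fun h5 => h2 ?_⟩⟩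
        have h6 : A ∉ br D C := by
          intro h7
          exact h4 (mem_erase.2 ⟨hAC, h7⟩)
        rw [h3, Finset.mem_sdiff, mem_union, mem_union]
        constructor
        · rintro ⟨h7 | h7, -⟩
          · exact Or.inl (h5.1 h7)
          · exact Or.inr h7
        · rintro (h7 | h7)
          · exact ⟨Or.inl (h5.2 h7), h6⟩
          · exact absurd h7 h4
    calc ∑ A ∈ (br D B).filter (fun A => ¬ (A ∈ (x ∪ N) \ br D C ↔ A ∈ y')), 2 ^ (D * A.card)
        ≤ ∑ A ∈ F.erase C ∪ N, 2 ^ (D * A.card) := sum_le_sum_of_subset g1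
      _ ≤ ∑ A ∈ F.erase C, 2 ^ (D * A.card) + ∑ A ∈ N, 2 ^ (D * A.card) := by
          rw [← sum_union_inter]
          exact Nat.le_add_right _ _
      _ < ∑ A ∈ F.erase C, 2 ^ (D * A.card) + 2 ^ (D * C.card) :=
          Nat.add_lt_add_left (fd_small hCn hCD) _
      _ = ∑ A ∈ F, 2 ^ (D * A.card) := sum_erase_add _ _ hCF
  rw [← e2, f2, ih _ _ hVw hVy' hBw hBy' hmu, ← f1, e1]

private theorem fd_step {D : ℕ} {k : Cn → Cn → ℂ} (h : KS D k) (B : Finset ℕ) (hBn : B.Nonempty)
    (hBc : B.card ≤ D)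
    (hB' : ∀ A : Finset ℕ, A.Nonempty → A.card < B.card → ∀ x y : Cn, Va D x → Va D y → A ∉ x →
      A ∉ y → k (insert A x) (insert A y) = k x y) (m : ℕ) :
    ∀ x y : Cn, Va D x → Va D y → B ∉ x → B ∉ y → fd_mu D B x y = m →
      k (insert B x) (insert B y) = k x y := by
  induction m using Nat.strong_induction_on with
  | _ m ihm =>
  intro x y hx hy hBx hBy hm
  have ih : ∀ x' y' : Cn, Va D x' → Va D y' → B ∉ x' → B ∉ y' →
      fd_mu D B x' y' < fd_mu D B x y → k (insert B x') (insert B y') = k x' y' := by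
    intro x' y' h1 h2 h3 h4 h5
    exact ihm _ (by rw [← hm]; exact h5) x' y' h1 h2 h3 h4 rfl
  rcases ((br D B).filter (fun C => ¬ (C ∈ x ↔ C ∈ y))).eq_empty_or_nonempty with h0 | h0
  · have hxy : ∀ C ∈ br D B, (C ∈ x ↔ C ∈ y) := by
      intro C hC
      by_contra h1
      have h2 : C ∈ (br D B).filter (fun C => ¬ (C ∈ x ↔ C ∈ y)) := mem_filter.2 ⟨hC, h1⟩
      rw [h0] at h2
      exact notMem_empty _ h2
    have hx1 : (x \ br D B) ∪ (x ∩ br D B) = x := sdiff_union_inter _ _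
    have hy1 : (y \ br D B) ∪ (x ∩ br D B) = y := by
      ext A
      rw [mem_union, Finset.mem_sdiff, mem_inter]
      constructor
      · rintro (h1 | h1)
        · exact h1.1
        · exact (hxy A h1.2).1 h1.1
      · intro h1
        by_cases h2 : A ∈ br D B
        · exact Or.inr ⟨(hxy A h2).2 h1, h2⟩
        · exact Or.inl ⟨h1, h2⟩
    have hu : ∀ A ∈ x ∩ br D B, A.Nonempty ∧ A.card < B.card := by
      intro A hA
      obtain ⟨h1, h2⟩ := mem_inter.1 hA
      obtain ⟨h3, h4, h5⟩ := fd_mem.1 h2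
      exact ⟨h4, card_lt_card (lt_of_le_of_ne h3 (fun h6 => hBx (h6 ▸ h1)))⟩
    have hd : ∀ z : Cn, Disjoint (z \ br D B) (x ∩ br D B) := by
      intro z
      rw [disjoint_left]
      intro A hA hA'
      exact (Finset.mem_sdiff.1 hA).2 (mem_inter.1 hA').2
    have hBu : B ∉ x ∩ br D B := fun h1 => hBx (mem_inter.1 h1).1
    have hdB : ∀ z : Cn, Disjoint (insert B (z \ br D B)) (x ∩ br D B) := by
      intro z
      rw [disjoint_insert_left]
      exact ⟨hBu, hd z⟩
    have hV0 : ∀ z : Cn, Va D z → Va D (z \ br D B) := fun z hz A hA => hz A (Finset.mem_sdiff.1 hA).1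
    have hVB : ∀ z : Cn, Va D z → Va D (insert B z) := by
      intro z hz A hA
      rcases mem_insert.1 hA with h1 | h1
      · rw [h1]
        exact ⟨hBn, hBc⟩
      · exact hz A h1
    have e1 := fd_rm B.card hBc hB' _ _ _ (hV0 x hx) (hV0 y hy) hu (hd x) (hd y)
    have e2 := fd_rm B.card hBc hB' _ _ _ (hVB _ (hV0 x hx)) (hVB _ (hV0 y hy)) hu (hdB x) (hdB y)
    rw [insert_union, insert_union] at e2
    rw [hx1, hy1] at e1 e2
    have hn : ∀ z : Cn, Va D z → ∀ A ∈ z \ br D B, ¬ A ⊆ B := by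
      intro z hz A hA h1
      obtain ⟨h2, h3⟩ := Finset.mem_sdiff.1 hA
      exact h3 (fd_mem.2 ⟨h1, hz A h2⟩)
    have e3 := fd_a h B hBn hBc hB' (x \ br D B) (y \ br D B) (hV0 x hx) (hV0 y hy) (hn x hx)
      (hn y hy)
    rw [e1, e2, e3]
  · obtain ⟨C, hCF, hmin⟩ := exists_min_image _ (fun C : Finset ℕ => C.card) h0
    obtain ⟨hC, hCd⟩ := mem_filter.1 hCF
    have hmin' : ∀ A ∈ br D B, ¬ (A ∈ x ↔ A ∈ y) → C.card ≤ A.card := fun A hA hA' =>
      hmin A (mem_filter.2 ⟨hA, hA'⟩)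
    by_cases hCx : C ∈ x
    · have hCy : C ∉ y := fun h1 => hCd (iff_of_true hCx h1)
      exact fd_key h B hBn hBc hB' x y hx hy hBx hBy ih C hC hCx hCy hmin'
    · have hCy : C ∈ y := by
        by_contra h1
        exact hCd (iff_of_false hCx h1)
      have e := fd_key h B hBn hBc hB' y x hy hx hBy hBx
        (by rw [fd_mu_symm D B y x]; exact ih) C hC hCy hCx
        (fun A hA hA' => hmin' A hA (fun h1 => hA' h1.symm))
      rw [h.herm (insert B y) (insert B x), e, ← h.herm]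

theorem fd {D : ℕ} {k : Cn → Cn → ℂ} (h : KS D k) (B : Finset ℕ) (hBn : B.Nonempty)
    (hBc : B.card ≤ D) (x y : Cn) (hx : Va D x) (hy : Va D y) (hBx : B ∉ x) (hBy : B ∉ y) :
    k (insert B x) (insert B y) = k x y := by
  induction hn : B.card using Nat.strong_induction_on generalizing B x y with
  | _ n ih =>
  have hB' : ∀ A : Finset ℕ, A.Nonempty → A.card < B.card → ∀ x y : Cn, Va D x → Va D y → A ∉ x →
      A ∉ y → k (insert A x) (insert A y) = k x y := by
    intro A hA hAc x y hx hy hAx hAy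
    exact ih A.card (by omega) A hA (by omega) x y hx hy hAx hAy rfl
  exact fd_step h B hBn hBc hB' _ x y hx hy hBx hBy rfl

theorem fd_union {D : ℕ} {k : Cn → Cn → ℂ} (h : KS D k) (x y u : Cn) (hx : Va D x) (hy : Va D y)
    (hu : Va D u) (hxu : Disjoint x u) (hyu : Disjoint y u) : k (x ∪ u) (y ∪ u) = k x y := by
  induction u using Finset.induction_on with
  | empty => rw [union_empty, union_empty]
  | insert A u hA ih =>
    rw [disjoint_insert_right] at hxu hyu
    have hA' := hu A (mem_insert_self _ _)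
    have hu' : Va D u := fun B hB => hu B (mem_insert_of_mem hB)
    have hVa : ∀ z : Cn, Va D z → Va D (z ∪ u) := by
      intro z hz B hB
      rcases mem_union.1 hB with h | h
      · exact hz B h
      · exact hu' B h
    have h1 : A ∉ x ∪ u := by
      rw [mem_union, not_or]
      exact ⟨hxu.1, hA⟩
    have h2 : A ∉ y ∪ u := by
      rw [mem_union, not_or]
      exact ⟨hyu.1, hA⟩
    rw [union_insert, union_insert, fd h A hA'.1 hA'.2 _ _ (hVa x hx) (hVa y hy) h1 h2]
    exact ih hu' hxu.2 hyu.2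

end Pool.Agent.Lib.MP_90b327_co.RS
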