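import Mathlib
import Pool.Agent.Lib.MP_90b327_co.RS.RDef
import Pool.Agent.Lib.MP_90b327_co.RS.ClBr

/-!
MODULE StoEx (40 minutes, old scale). Existence of storages (text 7).

PROOF. Only `Finset ℕ × ℕ` many pairs `(A, i)`: enumerate them (`Encodable` / `Countable`: `e : Finset ℕ × ℕ → ℕ` injective, e.g. `Encodable.encode`). Define by strong recursion on `n` sets `G n` with: for `n` = code of `(A, i)`: `G n` = the set given by
`h.star A (B ∪ ⋃_{m < n} G m)`; for other `n` any non-empty set disjoint from `B` and all earlier ones. A convenient way: a choice function `f : Finset ℕ → Finset ℕ → Finset ℕ`, `f A F` non-empty, disjoint from `A ∪ F`, `‖k ∅ (br D (A ∪ f A F))‖ = 1`, and the recursion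
`H 0 = B`, `H (n + 1) = H n ∪ f (A_n) (H n)` with `A_n` = first component of the decoded pair (or `∅`). `g A i = f A (H (e (A, i)))`. It is disjoint from `H (e (A, i)) ⊇ B` and all earlier ones, hence pairwise disjoint.
-/

set_option autoImplicit false

namespace Pool.Agent.Lib.MP_90b327_co.RS

open Finset MeasureTheory Filter Pool.Agent.Lib.MP_90b327_co Pool.Agent.Lib.MP_90b327_co.RB
  Pool.Agent.Lib.MP_90b327_co.WW

/-- first component of the pair coded by `n` -/
private noncomputable def stA (n : ℕ) : Finset ℕ :=
  ((Encodable.decode n : Option (Finset ℕ × ℕ)).getD (∅, 0)).1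

/-- the used vertices before step `n` -/
private noncomputable def stH (f : Finset ℕ → Finset ℕ → Finset ℕ) (B : Finset ℕ) : ℕ → Finset ℕ
  | 0 => B
  | n + 1 => stH f B n ∪ f (stA n) (stH f B n)

private lemma stH_step (f : Finset ℕ → Finset ℕ → Finset ℕ) (B : Finset ℕ) (n : ℕ) :
    stH f B n ⊆ stH f B (n + 1) := Finset.subset_union_left

private lemma stH_mono (f : Finset ℕ → Finset ℕ → Finset ℕ) (B : Finset ℕ) :
    Monotone (stH f B) := monotone_nat_of_le_succ (fun n => stH_step f B n)

private lemma stA_enc (A : Finset ℕ) (i : ℕ) : stA (Encodable.encode (A, i)) = A := by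
  unfold stA
  rw [Encodable.encodek]
  rfl

theorem sto_ex {D : ℕ} {k : Cn → Cn → ℂ} (h : KS D k) (B : Finset ℕ) :
    ∃ g : Finset ℕ → ℕ → Finset ℕ, Sto D k B g := by
  choose f hf1 hf2 hf3 using h.star
  have hsub : ∀ (A : Finset ℕ) (i : ℕ),
      f A (stH f B (Encodable.encode (A, i))) ⊆ stH f B (Encodable.encode (A, i) + 1) := by
    intro A i
    have h1 : f (stA (Encodable.encode (A, i))) (stH f B (Encodable.encode (A, i))) ⊆
        stH f B (Encodable.encode (A, i) + 1) := Finset.subset_union_right
    rw [stA_enc] at h1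
    exact h1
  have hdis : ∀ (A : Finset ℕ) (i : ℕ),
      Disjoint (f A (stH f B (Encodable.encode (A, i)))) (stH f B (Encodable.encode (A, i))) := by
    intro A i
    exact Disjoint.mono_right Finset.subset_union_right (hf2 A _)
  have hlt : ∀ (A : Finset ℕ) (i : ℕ) (A' : Finset ℕ) (i' : ℕ),
      Encodable.encode (A, i) < Encodable.encode (A', i') →
      Disjoint (f A (stH f B (Encodable.encode (A, i))))
        (f A' (stH f B (Encodable.encode (A', i')))) := by
    intro A i A' i' hc
    have h1 := (hsub A i).trans (stH_mono f B (Nat.succ_le_of_lt hc))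
    exact (Disjoint.mono_right h1 (hdis A' i')).symm
  refine ⟨fun A i => f A (stH f B (Encodable.encode (A, i))), ?_, ?_, ?_, ?_⟩
  · intro A i
    exact hf1 A _
  · intro A i A' i' hne
    rcases lt_trichotomy (Encodable.encode (A, i)) (Encodable.encode (A', i')) with hc | hc | hc
    · exact hlt A i A' i' hc
    · exact absurd (Encodable.encode_injective hc) hne
    · exact (hlt A' i' A i hc).symm
  · intro A i
    exact Disjoint.mono_right (stH_mono f B (Nat.zero_le _)) (hdis A i)
  · intro A _ i
    exact hf3 A _

end Pool.Agent.Lib.MP_90b327_co.RS
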