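import Mathlib
import Pool.Agent.Lib.MP_90b327_co.RS.RDef
import Pool.Agent.Lib.MP_90b327_co.RS.KnUni
import Pool.Agent.Lib.MP_90b327_co.RS.StoEx

/-!
MODULE StA (35 minutes, old scale). Equivalence of states (text 7).

PROOF. `‖fN N p‖ = 1` (`Sto.uni`). `kk_uni`: (U) for the kernel `KK N` at a fixed level: if `KK N x p y q` has modulus one then `‖k (WN x p) (WN y q)‖ = 1` and `kn_uni` gives `KK N w r y q = KK N w r x p * KK N x p y q` (the phases cancel: `fN N p * conj (fN N p) = 1`).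
`eqv_refl` from `k x x = 1`; `eqv_symm` from `herm`; `eqv_trans` from `kk_uni`. `eqv_kk`: if `Eqv x p x' p'` and `Eqv y q y' q'` then for all large `N`: `KK N x p y q = KK N x' p' y' q'`.
-/

set_option autoImplicit false

namespace Pool.Agent.Lib.MP_90b327_co.RS

open Finset MeasureTheory Filter Pool.Agent.Lib.MP_90b327_co Pool.Agent.Lib.MP_90b327_co.RB
  Pool.Agent.Lib.MP_90b327_co.WW

theorem fn_norm {D : ℕ} {k : Cn → Cn → ℂ} {B : Finset ℕ} {g : Finset ℕ → ℕ → Finset ℕ}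
    (hs : Sto D k B g) (N : ℕ) (p : Finset ℕ → ℤ) : ‖fN D k B g N p‖ = 1 := by
  unfold fN
  rw [norm_prod]
  refine Finset.prod_eq_one fun A hA => ?_
  rw [norm_prod]
  refine Finset.prod_eq_one fun i _ => ?_
  rw [RCLike.norm_conj]
  exact hs.uni A hA i

private lemma fn_conj {D : ℕ} {k : Cn → Cn → ℂ} {B : Finset ℕ} {g : Finset ℕ → ℕ → Finset ℕ}
    (hs : Sto D k B g) (N : ℕ) (p : Finset ℕ → ℤ) :
    fN D k B g N p * (starRingEnd ℂ) (fN D k B g N p) = 1 := by
  rw [Complex.mul_conj, Complex.normSq_eq_norm_sq, fn_norm hs N p]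
  norm_num

private lemma kk_herm {D : ℕ} {k : Cn → Cn → ℂ} (h : KS D k) (B : Finset ℕ)
    (g : Finset ℕ → ℕ → Finset ℕ) (N : ℕ) (x y : Cn) (p q : Finset ℕ → ℤ) :
    KK D k B g N y q x p = (starRingEnd ℂ) (KK D k B g N x p y q) := by
  unfold KK
  rw [h.herm (WN D B g N x p) (WN D B g N y q), map_mul, map_mul, Complex.conj_conj]
  ring

theorem kk_uni {D : ℕ} {k : Cn → Cn → ℂ} (h : KS D k) {B : Finset ℕ} {g : Finset ℕ → ℕ → Finset ℕ}
    (hs : Sto D k B g) (N : ℕ) (w x y : Cn) (r p q : Finset ℕ → ℤ)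
    (h1 : ‖KK D k B g N x p y q‖ = 1) :
    KK D k B g N w r y q = KK D k B g N w r x p * KK D k B g N x p y q := by
  have hn : ‖k (WN D B g N x p) (WN D B g N y q)‖ = 1 := by
    unfold KK at h1
    rw [norm_mul, norm_mul, RCLike.norm_conj, fn_norm hs, fn_norm hs, one_mul, one_mul] at h1
    exact h1
  have hu := kn_uni h.toKN _ _ hn (WN D B g N w r)
  have hc := fn_conj hs N p
  unfold KK
  rw [hu]
  linear_combination (-((starRingEnd ℂ) (fN D k B g N r) * fN D k B g N q *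
    k (WN D B g N w r) (WN D B g N x p) * k (WN D B g N x p) (WN D B g N y q))) * hc

theorem eqv_refl {D : ℕ} {k : Cn → Cn → ℂ} (h : KS D k) {B : Finset ℕ}
    {g : Finset ℕ → ℕ → Finset ℕ} (hs : Sto D k B g) (x : Cn) (p : Finset ℕ → ℤ) :
    Eqv D k B g x p x p := by
  refine Filter.Eventually.of_forall fun N => ?_
  unfold KK
  rw [h.one, mul_one, mul_comm]
  exact fn_conj hs N p

theorem eqv_symm {D : ℕ} {k : Cn → Cn → ℂ} (h : KS D k) {B : Finset ℕ}
    {g : Finset ℕ → ℕ → Finset ℕ} {x y : Cn} {p q : Finset ℕ → ℤ} (h1 : Eqv D k B g x p y q) :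
    Eqv D k B g y q x p := by
  refine h1.mono fun N hN => ?_
  rw [kk_herm h B g N x y p q, hN, map_one]

theorem eqv_trans {D : ℕ} {k : Cn → Cn → ℂ} (h : KS D k) {B : Finset ℕ}
    {g : Finset ℕ → ℕ → Finset ℕ} (hs : Sto D k B g) {x y w : Cn} {p q r : Finset ℕ → ℤ}
    (h1 : Eqv D k B g x p y q) (h2 : Eqv D k B g y q w r) : Eqv D k B g x p w r := by
  refine (h1.and h2).mono fun N hN => ?_
  rw [kk_uni h hs N x y w p q r (by rw [hN.2, norm_one]), hN.1, hN.2, mul_one]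

theorem eqv_kk {D : ℕ} {k : Cn → Cn → ℂ} (h : KS D k) {B : Finset ℕ}
    {g : Finset ℕ → ℕ → Finset ℕ} (hs : Sto D k B g) {x x' y y' : Cn} {p p' q q' : Finset ℕ → ℤ}
    (h1 : Eqv D k B g x p x' p') (h2 : Eqv D k B g y q y' q') :
    ∀ᶠ N : ℕ in atTop, KK D k B g N x p y q = KK D k B g N x' p' y' q' := by
  refine (h1.and h2).mono fun N hN => ?_
  have e1 := kk_uni h hs N x y y' p q q' (by rw [hN.2, norm_one])
  rw [hN.2, mul_one] at e1
  have e2 := kk_uni h hs N y' x x' q' p p' (by rw [hN.1, norm_one])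
  rw [hN.1, mul_one] at e2
  rw [← e1, kk_herm h B g N y' x' q' p', e2, kk_herm h B g N y' x q' p]

end Pool.Agent.Lib.MP_90b327_co.RS
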