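import Mathlib
import Pool.Agent.Lib.MP_90b327_co.RS.RDef
import Pool.Agent.Lib.MP_90b327_co.RS.Fd
import Pool.Agent.Lib.MP_90b327_co.RS.StA

/-!
MODULE StM1 (35 minutes, old scale). (M1): states with the same storages (text 7).

PROOF. `WN N x p = x ∪ u`, `WN N y p = y ∪ u` with the same `u` (union of sets `GA D A (g A i)`), whose elements are coordinates (`Va`) and meet some `g A i`, while the elements of `x`, `y ⊆ br D B` are subsets of `B` (disjoint from all `g A i`): so `u` is disjoint from `x` and `y`,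
`fd_union`: `k (x ∪ u) (y ∪ u) = k x y`. The phases: `conj f * f = 1`.
-/

set_option autoImplicit false

namespace Pool.Agent.Lib.MP_90b327_co.RS

open Finset MeasureTheory Filter Pool.Agent.Lib.MP_90b327_co Pool.Agent.Lib.MP_90b327_co.RB
  Pool.Agent.Lib.MP_90b327_co.WW

theorem st_m1 {D : ℕ} {k : Cn → Cn → ℂ} (h : KS D k) {B : Finset ℕ} {g : Finset ℕ → ℕ → Finset ℕ}
    (hs : Sto D k B g) (N : ℕ) (x y : Cn) (hx : x ⊆ br D B) (hy : y ⊆ br D B)
    (p : Finset ℕ → ℤ) : KK D k B g N x p y p = k x y := by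
  have hph : (starRingEnd ℂ) (fN D k B g N p) * fN D k B g N p = 1 := by
    rw [mul_comm, Complex.mul_conj, Complex.normSq_eq_norm_sq, fn_norm hs N p]
    simp
  unfold KK
  rw [hph, one_mul]
  unfold WN
  have hbr : ∀ (S A : Finset ℕ), A ∈ br D S ↔ A ⊆ S ∧ A.Nonempty ∧ A.card ≤ D := by
    intro S A
    unfold br
    rw [mem_filter, mem_powerset]
  have hu : ∀ A' ∈ (br D B).biUnion (fun A => (range (nf p N A)).biUnion
      (fun i => GA D A (g A i))), (A'.Nonempty ∧ A'.card ≤ D) ∧ ¬ A' ⊆ B := by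
    intro A' hA'
    simp only [mem_biUnion] at hA'
    obtain ⟨A, _, i, _, hA⟩ := hA'
    unfold GA at hA
    rw [mem_filter, hbr] at hA
    refine ⟨hA.1.2, fun hB => hA.2 ?_⟩
    exact (Finset.disjoint_of_subset_left hB (hs.out A i).symm)
  have hd : ∀ z : Cn, z ⊆ br D B → Disjoint z ((br D B).biUnion (fun A =>
      (range (nf p N A)).biUnion (fun i => GA D A (g A i)))) := by
    intro z hz
    rw [Finset.disjoint_left]
    intro A hA hA'
    exact (hu A hA').2 ((hbr B A).1 (hz hA)).1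
  exact fd_union h x y _ (fun A hA => ((hbr B A).1 (hx hA)).2) (fun A hA => ((hbr B A).1 (hy hA)).2)
    (fun A hA => (hu A hA).1) (hd x hx) (hd y hy)

end Pool.Agent.Lib.MP_90b327_co.RS
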