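import Mathlib
import Pool.Agent.Lib.MP_90b327_co.RS.RDef
import Pool.Agent.Lib.MP_90b327_co.RS.Fd
import Pool.Agent.Lib.MP_90b327_co.RS.StA

/-!
MODULE StM2 (60 minutes, old scale). (M2): a storage removes all coordinates inside `A` (text 7).

PROOF. `N` large: `i := nf p N A = N + p A ≥ 0`, `nf (p + ev A) N A = i + 1`, and `nf` is unchanged for `A' ≠ A`. `fN N (p + ev A) = fN N p * conj lam`, `lam = k ∅ (br D (A ∪ g A i))`. Let `W' = WN N (x \ br D A) p`, `S = A ∪ g A i`.
`WN N x (p + ev A) = W' ∪ br D S`: `br D S = br D A ∪ GA D A (g A i)`, `br D A ⊆ x`. `W'` and `br D S` are disjoint: an element of `W'` is either in `x \ br D A`, a subset of `B` (so disjoint from `g A i`; if it were a subset of `S` it would be a coordinate inside `A`,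
i.e. in `br D A`), or it meets `g A' i'` with `(A', i') ≠ (A, i)` and so is not a subset of `A ∪ g A i` (`Sto.disj`, `Sto.out`, `A ⊆ B`). `fd_union` (adding `W'` to `∅`, `br D S`): `k W' (W' ∪ br D S) = lam`. So
`KK N x (p + ev A) (x \ br D A) p = conj (f conj lam) * f * k (W' ∪ br D S) W' = lam * conj lam = 1`.
-/

set_option autoImplicit false

namespace Pool.Agent.Lib.MP_90b327_co.RS

open Finset MeasureTheory Filter Pool.Agent.Lib.MP_90b327_co Pool.Agent.Lib.MP_90b327_co.RB
  Pool.Agent.Lib.MP_90b327_co.WW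

private theorem m2_br {D : ℕ} {S C : Finset ℕ} : C ∈ br D S ↔ C ⊆ S ∧ C.Nonempty ∧ C.card ≤ D := by
  unfold br
  rw [mem_filter, mem_powerset]

private theorem m2_GA {D : ℕ} {A g C : Finset ℕ} :
    C ∈ GA D A g ↔ (C ⊆ A ∪ g ∧ C.Nonempty ∧ C.card ≤ D) ∧ ¬ Disjoint C g := by
  unfold GA
  rw [mem_filter, m2_br]

private theorem m2_WN {D : ℕ} {B : Finset ℕ} {g : Finset ℕ → ℕ → Finset ℕ} {N : ℕ} {x : Cn}
    {p : Finset ℕ → ℤ} {C : Finset ℕ} : C ∈ WN D B g N x p ↔
      C ∈ x ∨ ∃ A' ∈ br D B, ∃ j < nf p N A', C ∈ GA D A' (g A' j) := by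
  unfold WN
  rw [mem_union, mem_biUnion]
  simp only [mem_biUnion, mem_range]

theorem st_m2 {D : ℕ} {k : Cn → Cn → ℂ} (h : KS D k) {B : Finset ℕ} {g : Finset ℕ → ℕ → Finset ℕ}
    (hs : Sto D k B g) (x : Cn) (hx : x ⊆ br D B) (A : Finset ℕ) (hA : A ∈ br D B)
    (hAx : br D A ⊆ x) (p : Finset ℕ → ℤ) :
    Eqv D k B g x (p + ev A) (x \ br D A) p := by
  unfold Eqv
  have hev : ∀ᶠ N : ℕ in atTop, 0 ≤ (N : ℤ) + p A := by
    filter_upwards [eventually_ge_atTop (p A).natAbs] with N hN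
    omega
  filter_upwards [hev] with N hN
  obtain ⟨i, hi⟩ : ∃ i : ℕ, i = nf p N A := ⟨_, rfl⟩
  obtain ⟨S, hS⟩ : ∃ S : Finset ℕ, S = A ∪ g A i := ⟨_, rfl⟩
  obtain ⟨W', hW'⟩ : ∃ W' : Cn, W' = WN D B g N (x \ br D A) p := ⟨_, rfl⟩
  obtain ⟨lam, hlam⟩ : ∃ lam : ℂ, lam = k ∅ (br D S) := ⟨_, rfl⟩
  have hAB : A ⊆ B := (m2_br.1 hA).1
  have hevA : (p + ev A) A = p A + 1 := by
    unfold ev
    rw [Pi.add_apply, Pi.single_eq_same]
  have hev' : ∀ A' : Finset ℕ, A' ≠ A → (p + ev A) A' = p A' := by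
    intro A' hne
    unfold ev
    rw [Pi.add_apply, Pi.single_eq_of_ne hne, add_zero]
  have hn1 : nf (p + ev A) N A = i + 1 := by
    rw [hi]
    unfold nf
    rw [hevA]
    omega
  have hn2 : ∀ A' : Finset ℕ, A' ≠ A → nf (p + ev A) N A' = nf p N A' := by
    intro A' hne
    unfold nf
    rw [hev' A' hne]
  -- the phase
  have hf : fN D k B g N (p + ev A) = fN D k B g N p * (starRingEnd ℂ) lam := by
    unfold fN
    have h1 : ∀ A' ∈ br D B, ∏ j ∈ range (nf (p + ev A) N A'), (starRingEnd ℂ) (k ∅ (br D (A' ∪ g A' j))) =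
        (∏ j ∈ range (nf p N A'), (starRingEnd ℂ) (k ∅ (br D (A' ∪ g A' j)))) *
          (if A' = A then (starRingEnd ℂ) lam else 1) := by
      intro A' _
      by_cases hAA : A' = A
      · rw [if_pos hAA, hAA, hn1, prod_range_succ, ← hi, hlam, hS]
      · rw [if_neg hAA, mul_one, hn2 A' hAA]
    rw [prod_congr rfl h1, prod_mul_distrib, prod_ite_eq' (br D B) A, if_pos hA]
  -- the content
  have hW : WN D B g N x (p + ev A) = W' ∪ br D S := by
    ext C
    rw [mem_union, hW', m2_WN, m2_WN, m2_br, hS, Finset.mem_sdiff]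
    constructor
    · rintro (h1 | ⟨A', h1, j, h2, h3⟩)
      · by_cases h4 : C ∈ br D A
        · right
          obtain ⟨h5, h6, h7⟩ := m2_br.1 h4
          exact ⟨h5.trans subset_union_left, h6, h7⟩
        · exact Or.inl (Or.inl ⟨h1, h4⟩)
      · by_cases hAA : A' = A
        · subst hAA
          rw [hn1] at h2
          rcases Nat.lt_succ_iff_lt_or_eq.1 h2 with h4 | h4
          · refine Or.inl (Or.inr ⟨A', h1, j, ?_, h3⟩)
            rw [← hi]
            exact h4
          · right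
            rw [h4] at h3
            exact (m2_GA.1 h3).1
        · rw [hn2 A' hAA] at h2
          exact Or.inl (Or.inr ⟨A', h1, j, h2, h3⟩)
    · rintro ((⟨h1, -⟩ | ⟨A', h1, j, h2, h3⟩) | h1)
      · exact Or.inl h1
      · refine Or.inr ⟨A', h1, j, ?_, h3⟩
        by_cases hAA : A' = A
        · subst hAA
          rw [hn1, hi]
          omega
        · rw [hn2 A' hAA]
          exact h2
      · by_cases h2 : Disjoint C (g A i)
        · left
          apply hAx
          rw [m2_br]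
          refine ⟨?_, h1.2⟩
          intro v hv
          rcases mem_union.1 (h1.1 hv) with h3 | h3
          · exact h3
          · exact absurd h3 (disjoint_left.1 h2 hv)
        · refine Or.inr ⟨A, hA, i, ?_, m2_GA.2 ⟨h1, h2⟩⟩
          rw [hn1]
          omega
  have hdisj : Disjoint (br D S) W' := by
    rw [disjoint_left]
    intro C h1 h2
    rw [m2_br, hS] at h1
    rw [hW', m2_WN, Finset.mem_sdiff] at h2
    rcases h2 with ⟨h2, h3⟩ | ⟨A', h2, j, h3, h4⟩
    · apply h3
      rw [m2_br]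
      refine ⟨?_, h1.2⟩
      intro v hv
      rcases mem_union.1 (h1.1 hv) with h5 | h5
      · exact h5
      · have h6 : v ∈ B := (m2_br.1 (hx h2)).1 hv
        exact absurd h6 (disjoint_left.1 (hs.out A i) h5)
    · obtain ⟨h5, h6⟩ := m2_GA.1 h4
      rw [not_disjoint_iff] at h6
      obtain ⟨v, h7, h8⟩ := h6
      rcases mem_union.1 (h1.1 h7) with h9 | h9
      · exact absurd (hAB h9) (disjoint_left.1 (hs.out A' j) h8)
      · have hne : (A', j) ≠ (A, i) := by
          intro h10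
          rw [Prod.mk.injEq] at h10
          obtain ⟨h11, h12⟩ := h10
          rw [h11, ← hi, h12] at h3
          exact lt_irrefl _ h3
        exact absurd h9 (disjoint_left.1 (hs.disj A' j A i hne) h8)
  have hVW : Va D W' := by
    intro C hC
    rw [hW', m2_WN, Finset.mem_sdiff] at hC
    rcases hC with ⟨h2, -⟩ | ⟨A', h2, j, h3, h4⟩
    · exact (m2_br.1 (hx h2)).2
    · exact (m2_GA.1 h4).1.2
  have hVS : Va D (br D S) := fun C hC => (m2_br.1 hC).2
  have hV0 : Va D ∅ := fun C hC => absurd hC (notMem_empty C)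
  have hk : k W' (W' ∪ br D S) = lam := by
    have h1 := fd_union h ∅ (br D S) W' hV0 hVS hVW (disjoint_empty_left _) hdisj
    rw [empty_union, union_comm] at h1
    rw [h1, hlam]
  have hlam1 : ‖lam‖ = 1 := by
    rw [hlam, hS]
    exact hs.uni A hA i
  have hf1 := fn_norm hs N p
  unfold KK
  rw [hW, ← hW', hf, h.herm W' (W' ∪ br D S), hk, map_mul, Complex.conj_conj]
  have e1 : (starRingEnd ℂ) (fN D k B g N p) * fN D k B g N p = 1 := by
    rw [mul_comm, Complex.mul_conj, Complex.normSq_eq_norm_sq, hf1]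
    norm_num
  have e2 : lam * (starRingEnd ℂ) lam = 1 := by
    rw [Complex.mul_conj, Complex.normSq_eq_norm_sq, hlam1]
    norm_num
  calc (starRingEnd ℂ) (fN D k B g N p) * lam * fN D k B g N p * (starRingEnd ℂ) lam =
      ((starRingEnd ℂ) (fN D k B g N p) * fN D k B g N p) * (lam * (starRingEnd ℂ) lam) := by ring
    _ = 1 := by rw [e1, e2, one_mul]

end Pool.Agent.Lib.MP_90b327_co.RS
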