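import Mathlib
import Pool.Agent.Lib.MP_90b327_co.RS.RDef

/-!
MODULE WSum (25 minutes, old scale). Moebius inversion for `w(A)` (text 7).

PROOF. `w_sum`: evaluate at `C`: `∑_{∅ ≠ A' ⊆ A} wA A' C = ∑_{A' : C ⊆ A' ⊆ A} (-1)^(|A'| - |C|)` (`C` non-empty; `wA A' C = (-1)^(|A'| - |C|)` if `∅ ≠ C ⊆ A'`, else `0`), which is `1` if `C = A` and `0` otherwise
(`Finset.sum_powerset_neg_one_pow_card` for the set `A \ C`). If `C = ∅` or `C ⊄ A` both sides are zero.
-/

set_option autoImplicit false

namespace Pool.Agent.Lib.MP_90b327_co.RS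

open Finset MeasureTheory Filter Pool.Agent.Lib.MP_90b327_co Pool.Agent.Lib.MP_90b327_co.RB
  Pool.Agent.Lib.MP_90b327_co.WW

private theorem wsum_apply (A C : Finset ℕ) : wA A C =
    if C.Nonempty ∧ C ⊆ A then (-1 : ℤ) ^ (A.card - C.card) else 0 := by
  unfold wA
  rw [Finset.sum_apply]
  have h1 : ∀ A' ∈ A.powerset.filter (fun A' => A'.Nonempty),
      (((-1 : ℤ) ^ (A.card - A'.card)) • ev A') C =
        if C = A' then (-1 : ℤ) ^ (A.card - A'.card) else 0 := by
    intro A' _
    unfold ev
    rw [Pi.smul_apply, Pi.single_apply, smul_eq_mul]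
    split_ifs <;> simp
  rw [Finset.sum_congr rfl h1, Finset.sum_ite_eq]
  have h2 : (C ∈ A.powerset.filter (fun A' => A'.Nonempty)) ↔ (C.Nonempty ∧ C ⊆ A) := by
    rw [Finset.mem_filter, Finset.mem_powerset, and_comm]
  by_cases h3 : C.Nonempty ∧ C ⊆ A
  · rw [if_pos h3, if_pos (h2.2 h3)]
  · rw [if_neg h3, if_neg (fun h => h3 (h2.1 h))]

theorem w_sum (A : Finset ℕ) (hA : A.Nonempty) :
    ∑ A' ∈ A.powerset.filter (fun A' => A'.Nonempty), wA A' = ev A := by
  funext C
  rw [Finset.sum_apply, Finset.sum_congr rfl (fun A' _ => wsum_apply A' C), ← Finset.sum_filter]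
  have hev : ev A C = if C = A then 1 else 0 := by
    unfold ev
    rw [Pi.single_apply]
  rw [hev]
  by_cases hC : C.Nonempty ∧ C ⊆ A
  · have h1 : ∑ A' ∈ (A.powerset.filter (fun A' => A'.Nonempty)).filter
        (fun A' => C.Nonempty ∧ C ⊆ A'), (-1 : ℤ) ^ (A'.card - C.card) =
        ∑ B ∈ (A \ C).powerset, (-1 : ℤ) ^ B.card := by
      refine Finset.sum_nbij' (fun A' => A' \ C) (fun B => B ∪ C) ?_ ?_ ?_ ?_ ?_
      · intro A' hA'
        rw [Finset.mem_filter, Finset.mem_filter, Finset.mem_powerset] at hA'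
        rw [Finset.mem_powerset]
        exact Finset.sdiff_subset_sdiff hA'.1.1 (Finset.Subset.refl C)
      · intro B hB
        rw [Finset.mem_powerset] at hB
        rw [Finset.mem_filter, Finset.mem_filter, Finset.mem_powerset]
        exact ⟨⟨Finset.union_subset (hB.trans Finset.sdiff_subset) hC.2,
          hC.1.mono Finset.subset_union_right⟩, hC.1, Finset.subset_union_right⟩
      · intro A' hA'
        rw [Finset.mem_filter] at hA'
        exact Finset.sdiff_union_of_subset hA'.2.2
      · intro B hB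
        rw [Finset.mem_powerset] at hB
        have hd : Disjoint B C := Finset.disjoint_of_subset_left hB Finset.sdiff_disjoint
        exact Finset.union_sdiff_cancel_right hd
      · intro A' hA'
        rw [Finset.mem_filter] at hA'
        rw [Finset.card_sdiff_of_subset hA'.2.2]
    rw [h1, Finset.sum_powerset_neg_one_pow_card]
    by_cases h2 : C = A
    · rw [if_pos h2, h2, Finset.sdiff_self, if_pos rfl]
    · rw [if_neg h2, if_neg]
      intro h3
      rw [Finset.sdiff_eq_empty_iff_subset] at h3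
      exact h2 (Finset.Subset.antisymm hC.2 h3)
  · have h1 : (A.powerset.filter (fun A' => A'.Nonempty)).filter
        (fun A' => C.Nonempty ∧ C ⊆ A') = ∅ := by
      rw [Finset.filter_eq_empty_iff]
      intro A' hA' h
      rw [Finset.mem_filter, Finset.mem_powerset] at hA'
      exact hC ⟨h.1, h.2.trans hA'.1⟩
    rw [h1, Finset.sum_empty, if_neg]
    rintro rfl
    exact hC ⟨hA, Finset.Subset.refl C⟩

end Pool.Agent.Lib.MP_90b327_co.RS
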