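import Mathlib
import Pool.Agent.Lib.MP_90b327_co.RS.RDef
import Pool.Agent.Lib.MP_90b327_co.RS.StM2
import Pool.Agent.Lib.MP_90b327_co.RS.WSum
import Pool.Agent.Lib.MP_90b327_co.RS.ClBr

/-!
MODULE StM3 (60 minutes, old scale). (M3): states and removal of coordinates (text 7).

PROOF. Text 7, (M3). Let `P(A)` be: for all `x ⊆ br D B` with `A ∈ x` and all `p`: `Eqv x (p + wA A) (x \ {A}) p`. First: if `P(A)` for all `A ∈ y`, then for all `x ⊆ br D B` with `y ⊆ x` and all `p`: `Eqv x (p + wx y) (x \ y) p` (induction on `y`, `Finset.induction_on`,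
`eqv_trans`). Prove `P(A)` by strong induction on `A.card`, `A ∈ br D B`: `Nn = (br D A).erase A` (all smaller, `P` known), `y0 = Nn \ x`, `x' = x ∪ y0 ⊇ br D A`, `q = p + wx y0 - wx Nn`. `p + wA A + wx y0 = q + ev A` by `w_sum` (`∑_{A' ∈ br D A} wA A' = ev A`: for `|A| ≤ D` `br D A` is the set of
all non-empty subsets). Chain: `(x, p + wA A) ≡ (x', p + wA A + wx y0)` [reverse of the iterated statement for `y0 ⊆ x'`, `x' \ y0 = x`] `= (x', q + ev A) ≡ (x' \ br D A, q)` [`st_m2`] `≡ (x' \ {A}, q + wx Nn)` [reverse, `Nn ⊆ x' \ {A}`] `= (x' \ {A}, p + wx y0) ≡ (x \ {A}, p)`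
[`y0 ⊆ x' \ {A}`, `(x' \ {A}) \ y0 = x \ {A}`]. Conclusion: the iterated statement with `y = x`.
-/

set_option autoImplicit false

namespace Pool.Agent.Lib.MP_90b327_co.RS

open Finset MeasureTheory Filter Pool.Agent.Lib.MP_90b327_co Pool.Agent.Lib.MP_90b327_co.RB
  Pool.Agent.Lib.MP_90b327_co.WW

private theorem stm3_wx_insert (y : Cn) (A : Finset ℕ) (h : A ∉ y) :
    wx (insert A y) = wA A + wx y := by
  unfold wx
  rw [Finset.sum_insert h]

private theorem stm3_iter {D : ℕ} {k : Cn → Cn → ℂ} (h : KS D k) {B : Finset ℕ}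
    {g : Finset ℕ → ℕ → Finset ℕ} (hs : Sto D k B g) (y : Cn)
    (hP : ∀ A ∈ y, ∀ x : Cn, x ⊆ br D B → A ∈ x → ∀ p : Finset ℕ → ℤ,
      Eqv D k B g x (p + wA A) (x.erase A) p) :
    ∀ x : Cn, x ⊆ br D B → y ⊆ x → ∀ p : Finset ℕ → ℤ, Eqv D k B g x (p + wx y) (x \ y) p := by
  induction y using Finset.induction_on with
  | empty =>
    intro x _ _ p
    have h0 : wx (∅ : Cn) = 0 := by
      unfold wx
      exact Finset.sum_empty
    rw [h0, add_zero, Finset.sdiff_empty]
    exact eqv_refl h hs x p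
  | insert A y hA ih =>
    intro x hx hy p
    have hAx : A ∈ x := hy (Finset.mem_insert_self _ _)
    have hyx : y ⊆ x := fun C hC => hy (Finset.mem_insert_of_mem hC)
    have h1 := ih (fun C hC => hP C (Finset.mem_insert_of_mem hC)) x hx hyx (p + wA A)
    have h2 := hP A (Finset.mem_insert_self _ _) (x \ y)
      (fun C hC => hx (Finset.mem_sdiff.1 hC).1) (Finset.mem_sdiff.2 ⟨hAx, hA⟩) p
    have h3 : (x \ y).erase A = x \ insert A y := by
      ext C
      simp only [Finset.mem_erase, Finset.mem_sdiff, Finset.mem_insert]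
      tauto
    rw [h3] at h2
    rw [stm3_wx_insert y A hA, ← add_assoc]
    exact eqv_trans h hs h1 h2

private theorem stm3_one {D : ℕ} {k : Cn → Cn → ℂ} (h : KS D k) {B : Finset ℕ}
    {g : Finset ℕ → ℕ → Finset ℕ} (hs : Sto D k B g) : ∀ n : ℕ, ∀ A : Finset ℕ, A.card = n →
    A ∈ br D B → ∀ x : Cn, x ⊆ br D B → A ∈ x → ∀ p : Finset ℕ → ℤ,
      Eqv D k B g x (p + wA A) (x.erase A) p := by
  intro n
  induction n using Nat.strong_induction_on with
  | _ n ih =>
    intro A hn hAB x hx hAx p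
    have hA := (br_mem B A).1 hAB
    have hAA : A ∈ br D A := (br_mem A A).2 ⟨Finset.Subset.refl _, hA.2⟩
    have hbr : br D A = A.powerset.filter (fun A' => A'.Nonempty) := by
      ext C
      rw [br_mem, Finset.mem_filter, Finset.mem_powerset]
      constructor
      · exact fun hC => ⟨hC.1, hC.2.1⟩
      · exact fun hC => ⟨hC.1, hC.2, (Finset.card_le_card hC.1).trans hA.2.2⟩
    have hN : ∀ C ∈ (br D A).erase A, C ∈ br D B ∧ C.card < n := by
      intro C hC
      rw [Finset.mem_erase, br_mem] at hC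
      refine ⟨(br_mem B C).2 ⟨hC.2.1.trans hA.1, hC.2.2⟩, ?_⟩
      rw [← hn]
      exact Finset.card_lt_card (Finset.ssubset_iff_subset_ne.2 ⟨hC.2.1, hC.1⟩)
    have hit : ∀ y : Cn, y ⊆ (br D A).erase A → ∀ x : Cn, x ⊆ br D B → y ⊆ x →
        ∀ p : Finset ℕ → ℤ, Eqv D k B g x (p + wx y) (x \ y) p := by
      intro y hy
      refine stm3_iter h hs y fun C hC => ?_
      have hC1 := hN C (hy hC)
      exact ih C.card hC1.2 C rfl hC1.1
    set Nn := (br D A).erase A with hNn
    set y0 := Nn \ x with hy0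
    set x' := x ∪ y0 with hx'
    have hy0N : y0 ⊆ Nn := Finset.sdiff_subset
    have hx'B : x' ⊆ br D B := by
      intro C hC
      rw [hx', Finset.mem_union] at hC
      rcases hC with hC | hC
      · exact hx hC
      · exact (hN C (hy0N hC)).1
    have hy0x' : y0 ⊆ x' := Finset.subset_union_right
    have hAy0 : A ∉ y0 := fun hc => (Finset.mem_sdiff.1 hc).2 hAx
    have hNx' : Nn ⊆ x' := by
      intro C hC
      by_cases hCx : C ∈ x
      · exact Finset.mem_union_left _ hCx
      · exact Finset.mem_union_right _ (Finset.mem_sdiff.2 ⟨hC, hCx⟩)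
    have hbrx' : br D A ⊆ x' := by
      intro C hC
      by_cases hCA : C = A
      · rw [hCA]
        exact Finset.mem_union_left _ hAx
      · exact hNx' (Finset.mem_erase.2 ⟨hCA, hC⟩)
    have hwN : wA A + wx Nn = ev A := by
      rw [← w_sum A hA.2.1, ← hbr, ← Finset.insert_erase hAA, ← hNn, Finset.sum_insert
        (Finset.notMem_erase A _)]
      rfl
    set q := p + wx y0 - wx Nn with hq
    have e1 : p + wA A + wx y0 = q + ev A := by
      rw [hq, ← hwN]
      abel
    have e2 : q + wx Nn = p + wx y0 := by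
      rw [hq]
      abel
    have s1 := hit y0 hy0N x' hx'B hy0x' (p + wA A)
    have e3 : x' \ y0 = x := by
      ext C
      simp only [hx', Finset.mem_sdiff, Finset.mem_union]
      constructor
      · rintro ⟨h1 | h1, h2⟩
        · exact h1
        · exact absurd h1 h2
      · exact fun h1 => ⟨Or.inl h1, fun h2 => (Finset.mem_sdiff.1 h2).2 h1⟩
    rw [e3, e1] at s1
    have s2 := st_m2 h hs x' hx'B A hAB hbrx' q
    have hxe : x'.erase A ⊆ br D B := (Finset.erase_subset _ _).trans hx'B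
    have s3 := hit Nn (Finset.Subset.refl _) (x'.erase A) hxe (by
      intro C hC
      refine Finset.mem_erase.2 ⟨?_, hNx' hC⟩
      rintro rfl
      exact Finset.notMem_erase _ _ hC) q
    have e4 : x'.erase A \ Nn = x' \ br D A := by
      ext C
      simp only [hNn, Finset.mem_sdiff, Finset.mem_erase]
      constructor
      · rintro ⟨⟨h1, h2⟩, h3⟩
        exact ⟨h2, fun h4 => h3 ⟨h1, h4⟩⟩
      · rintro ⟨h1, h2⟩
        refine ⟨⟨?_, h1⟩, fun h3 => h2 h3.2⟩
        rintro rfl
        exact h2 hAA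
    rw [e4, e2] at s3
    have s4 := hit y0 hy0N (x'.erase A) hxe (by
      intro C hC
      refine Finset.mem_erase.2 ⟨?_, hy0x' hC⟩
      rintro rfl
      exact hAy0 hC) p
    have e5 : x'.erase A \ y0 = x.erase A := by
      rw [← e3]
      ext C
      simp only [Finset.mem_sdiff, Finset.mem_erase]
      tauto
    rw [e5] at s4
    exact eqv_trans h hs (eqv_symm h s1) (eqv_trans h hs s2 (eqv_trans h hs (eqv_symm h s3) s4))

theorem st_m3 {D : ℕ} {k : Cn → Cn → ℂ} (h : KS D k) {B : Finset ℕ} {g : Finset ℕ → ℕ → Finset ℕ}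
    (hs : Sto D k B g) (x : Cn) (hx : x ⊆ br D B) (p : Finset ℕ → ℤ) :
    Eqv D k B g x (p + wx x) ∅ p := by
  have h1 := stm3_iter h hs x (fun A hA => stm3_one h hs A.card A rfl (hx hA)) x hx
    (Finset.Subset.refl _) p
  rwa [Finset.sdiff_self] at h1

end Pool.Agent.Lib.MP_90b327_co.RS
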