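import Mathlib
import Pool.Agent.Lib.MP_90b327_co.RS.RDef
import Pool.Agent.Lib.MP_90b327_co.RS.StM1
import Pool.Agent.Lib.MP_90b327_co.RS.StM3
import Pool.Agent.Lib.MP_90b327_co.RS.StoEx

/-!
MODULE Chain (50 minutes, old scale). The chain lemma (text 7).

PROOF. `B` = union of all vertices of `x i`, `y i`, `u`, `v`, so all of them are `⊆ br D B`. `sto_ex`. By induction on the finite set of indices (or after transport to `Fin m`, or `Finset.induction_on` over `s ⊆ univ`): for every `s : Finset ι` and every `p`: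
for all large `N`: `KK N ∅ p ∅ (p - ∑ i ∈ s, (wx (y i) - wx (x i))) = ∏ i ∈ s, k (x i) (y i)`. Step: `(∅, q) ≡ (x i, q + wx (x i))`, `KK N (x i) r (y i) r = k (x i) (y i)` (`st_m1`, modulus one), `(y i, q + wx (x i)) ≡ (∅, q + wx (x i) - wx (y i))` (`st_m3`); `kk_uni` multiplies.
Apply it with `p = - wx u`.. : `(u, 0) ≡ (∅, - wx u)`, and `- wx u - ∑ (wx (y i) - wx (x i)) = - wx v` because `x ↦ wx x = ∑_{A ∈ x} wA A` is the image of `iv x` under the additive map with `1_A ↦ wA A` (`Finsupp.liftAddHom` or `Finsupp.sum`), applied to `hs`; `(∅, - wx v) ≡ (v, 0)`. So for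
large `N` `KK N u 0 v 0 = ∏ k (x i) (y i)` (`eqv_kk`), and it is `k u v` by `st_m1`.
-/

set_option autoImplicit false

namespace Pool.Agent.Lib.MP_90b327_co.RS

open Finset MeasureTheory Filter Pool.Agent.Lib.MP_90b327_co Pool.Agent.Lib.MP_90b327_co.RB
  Pool.Agent.Lib.MP_90b327_co.WW

private theorem chain_wx (ι : Type) [Fintype ι] (x y : ι → Cn) (u v : Cn)
    (hs : ∑ i, (iv (y i) - iv (x i)) = iv v - iv u) :
    ∑ i, (wx (y i) - wx (x i)) = wx v - wx u := by
  let W : GG →+ (Finset ℕ → ℤ) :=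
    Finsupp.liftAddHom (fun A : Finset ℕ => (zmultiplesHom (Finset ℕ → ℤ)) (wA A))
  have hW : ∀ z : Cn, W (iv z) = wx z := by
    intro z
    unfold iv wx
    rw [map_sum]
    refine Finset.sum_congr rfl fun A _ => ?_
    change Finsupp.liftAddHom _ (Finsupp.single A 1) = _
    rw [Finsupp.liftAddHom_apply_single, zmultiplesHom_apply, one_smul]
  have h1 := congrArg W hs
  rw [map_sum, map_sub, hW, hW] at h1
  rw [← h1]
  refine Finset.sum_congr rfl fun i _ => ?_
  rw [map_sub, hW, hW]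

private theorem chain_step {D : ℕ} {k : Cn → Cn → ℂ} (h : KS D k) {B : Finset ℕ}
    {g : Finset ℕ → ℕ → Finset ℕ} (hst : Sto D k B g) {ι : Type} (x y : ι → Cn)
    (hx : ∀ i, x i ⊆ br D B) (hy : ∀ i, y i ⊆ br D B)
    (hn : ∀ i, ‖k (x i) (y i)‖ = 1) (p : Finset ℕ → ℤ) (s : Finset ι) :
    ∀ᶠ N : ℕ in atTop, KK D k B g N ∅ p ∅ (p - ∑ i ∈ s, (wx (y i) - wx (x i))) =
      ∏ i ∈ s, k (x i) (y i) := by
  classical
  induction s using Finset.induction_on with
  | empty =>
    refine Filter.Eventually.of_forall fun N => ?_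
    rw [Finset.sum_empty, sub_zero, Finset.prod_empty,
      st_m1 h hst N ∅ ∅ (empty_subset _) (empty_subset _) p, h.one]
  | insert i s hi ih =>
    set q : Finset ℕ → ℤ := p - ∑ i ∈ s, (wx (y i) - wx (x i)) with hq
    have ht : p - ∑ j ∈ insert i s, (wx (y j) - wx (x j)) = q + wx (x i) - wx (y i) := by
      rw [Finset.sum_insert hi, hq]
      abel
    rw [ht, Finset.prod_insert hi]
    have e1 := st_m3 h hst (x i) (hx i) q
    have e2 := st_m3 h hst (y i) (hy i) (q + wx (x i) - wx (y i))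
    rw [sub_add_cancel] at e2
    filter_upwards [ih, eqv_kk h hst e1 e2] with N h1 h2
    rw [st_m1 h hst N _ _ (hx i) (hy i)] at h2
    rw [kk_uni h hst N ∅ ∅ ∅ p q _ (by rw [← h2]; exact hn i), h1, ← h2, mul_comm]

theorem chain {D : ℕ} {k : Cn → Cn → ℂ} (h : KS D k) (ι : Type) [Fintype ι] (x y : ι → Cn)
    (u v : Cn) (hx : ∀ i, Va D (x i)) (hy : ∀ i, Va D (y i)) (hu : Va D u) (hv : Va D v)
    (hn : ∀ i, ‖k (x i) (y i)‖ = 1) (hs : ∑ i, (iv (y i) - iv (x i)) = iv v - iv u) :
    k u v = ∏ i, k (x i) (y i) := by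
  classical
  set B : Finset ℕ := (Finset.univ.biUnion fun i => (x i).biUnion id ∪ (y i).biUnion id) ∪
    (u.biUnion id ∪ v.biUnion id) with hB
  have hsub : ∀ z : Cn, Va D z → z.biUnion id ⊆ B → z ⊆ br D B := by
    intro z hz hzB A hA
    unfold br
    rw [mem_filter, mem_powerset]
    exact ⟨(subset_biUnion_of_mem id hA).trans hzB, hz A hA⟩
  have hxB : ∀ i, x i ⊆ br D B := fun i => hsub _ (hx i)
    ((subset_union_left.trans (subset_biUnion_of_mem
      (fun i => (x i).biUnion id ∪ (y i).biUnion id) (mem_univ i))).trans subset_union_left)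
  have hyB : ∀ i, y i ⊆ br D B := fun i => hsub _ (hy i)
    ((subset_union_right.trans (subset_biUnion_of_mem
      (fun i => (x i).biUnion id ∪ (y i).biUnion id) (mem_univ i))).trans subset_union_left)
  have huB : u ⊆ br D B := hsub _ hu (subset_union_left.trans subset_union_right)
  have hvB : v ⊆ br D B := hsub _ hv (subset_union_right.trans subset_union_right)
  obtain ⟨g, hst⟩ := sto_ex h B
  have h1 := chain_step h hst x y hxB hyB hn (-wx u) Finset.univ
  rw [chain_wx ι x y u v hs] at h1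
  have h2 : -wx u - (wx v - wx u) = -wx v := by abel
  rw [h2] at h1
  have e1 := st_m3 h hst u huB (-wx u)
  have e2 := st_m3 h hst v hvB (-wx v)
  rw [neg_add_cancel] at e1 e2
  obtain ⟨N, hN1, hN2⟩ := (h1.and (eqv_kk h hst e1 e2)).exists
  rw [st_m1 h hst N u v huB hvB, hN1] at hN2
  exact hN2

end Pool.Agent.Lib.MP_90b327_co.RS
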