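import Mathlib
import Pool.Agent.Lib.MP_90b327_co.RS.RDef
import Pool.Agent.Lib.MP_90b327_co.RS.Chain

/-!
MODULE ZtA (45 minutes, old scale). Well-definedness of the generated homomorphism (text 7, consequence).

PROOF. `chain_int`: chain lemma with integer coefficients: write `m p = m⁺ - m⁻`; take the finite type `Σ p : {p // p ∈ Un D W k}, Fin (m p).natAbs` and for it the pairs `(p.1, p.2)` if `m p ≥ 0` and `(p.2, p.1)` if `m p < 0` (value `conj (k p.1 p.2) = (k p.1 p.2)⁻¹`, modulus one). The sum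
of `iv (second) - iv (first)` is `∑ m p • (iv p.2 - iv p.1)`, the product of the values is `∏ k p.1 p.2 ^ (m p)`. The elements of `Pn D W` consist of coordinates (`br_va`).
`zt_spec`: unfold `zt`; with `m₀ = choose`: `Rp (Un D W k) 0 (m - m₀)`, so `∏ k ^ (m p - m₀ p) = k ∅ ∅ = 1` by `chain_int` with `u = v = ∅`; `zpow_sub₀` (the values are non-zero).
-/

set_option autoImplicit false

namespace Pool.Agent.Lib.MP_90b327_co.RS

open Finset MeasureTheory Filter Pool.Agent.Lib.MP_90b327_co Pool.Agent.Lib.MP_90b327_co.RB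
  Pool.Agent.Lib.MP_90b327_co.WW

theorem un_mem {D : ℕ} (W : Finset ℕ) (k : Cn → Cn → ℂ) (p : Cn × Cn) :
    p ∈ Un D W k ↔ p.1 ⊆ br D W ∧ p.2 ⊆ br D W ∧ ‖k p.1 p.2‖ = 1 := by
  unfold Un Pn
  rw [Finset.mem_filter, Finset.mem_product, Finset.mem_powerset, Finset.mem_powerset, and_assoc]

private theorem zta_va {D : ℕ} {W : Finset ℕ} {x : Cn} (h : x ⊆ br D W) : Va D x := by
  intro A hA
  have := h hA
  unfold br at this
  rw [Finset.mem_filter] at this
  exact this.2

private theorem zta_zpow {z : ℂ} (hz : ‖z‖ = 1) {n : ℤ} (hn : n < 0) :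
    (starRingEnd ℂ) z ^ n.natAbs = z ^ n := by
  have h0 : z ≠ 0 := by
    intro h
    rw [h, norm_zero] at hz
    exact zero_ne_one hz
  have h1 : (starRingEnd ℂ) z = z⁻¹ := by
    rw [Complex.inv_def, Complex.normSq_eq_norm_sq, hz]
    simp
  have h2 : n = -(n.natAbs : ℤ) := by omega
  conv_rhs => rw [h2]
  rw [h1, zpow_neg, zpow_natCast, inv_pow]

theorem chain_int {D : ℕ} {k : Cn → Cn → ℂ} (h : KS D k) (W : Finset ℕ) (m : Cn × Cn → ℤ)
    (u v : Cn) (hu : Va D u) (hv : Va D v) (hm : Rp (Un D W k) (iv v - iv u) m) :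
    k u v = ∏ p ∈ Un D W k, k p.1 p.2 ^ m p := by
  classical
  have hU : ∀ p : {p // p ∈ Un D W k}, Va D p.1.1 ∧ Va D p.1.2 ∧ ‖k p.1.1 p.1.2‖ = 1 := by
    intro p
    have := (un_mem W k p.1).1 p.2
    exact ⟨zta_va this.1, zta_va this.2.1, this.2.2⟩
  have hnorm : ∀ x y : Cn, ‖k y x‖ = ‖k x y‖ := by
    intro x y
    rw [h.herm x y, RCLike.norm_conj]
  have key := chain h (Σ p : {p // p ∈ Un D W k}, Fin (m p.1).natAbs)
    (fun i => if 0 ≤ m i.1.1 then i.1.1.1 else i.1.1.2)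
    (fun i => if 0 ≤ m i.1.1 then i.1.1.2 else i.1.1.1) u v
    (fun i => by
      split_ifs
      · exact (hU i.1).1
      · exact (hU i.1).2.1)
    (fun i => by
      split_ifs
      · exact (hU i.1).2.1
      · exact (hU i.1).1)
    hu hv
    (fun i => by
      split_ifs
      · exact (hU i.1).2.2
      · rw [hnorm]
        exact (hU i.1).2.2)
    (by
      rw [Fintype.sum_sigma]
      unfold Rp at hm
      rw [← hm, ← Finset.sum_coe_sort (Un D W k) (fun p => m p • (iv p.2 - iv p.1))]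
      apply Finset.sum_congr rfl
      intro p _
      by_cases h0 : 0 ≤ m p.1
      · rw [Finset.sum_congr rfl (g := fun _ => iv p.1.2 - iv p.1.1)
          (fun y _ => by rw [if_pos h0, if_pos h0]), Finset.sum_const, Finset.card_univ,
          Fintype.card_fin, ← natCast_zsmul, Int.natAbs_of_nonneg h0]
      · rw [Finset.sum_congr rfl (g := fun _ => iv p.1.1 - iv p.1.2)
          (fun y _ => by rw [if_neg h0, if_neg h0]), Finset.sum_const, Finset.card_univ,
          Fintype.card_fin, ← natCast_zsmul]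
        have h2 : ((m p.1).natAbs : ℤ) = -(m p.1) := by omega
        rw [h2, neg_smul, ← smul_neg, neg_sub])
  rw [key, Fintype.prod_sigma, ← Finset.prod_coe_sort (Un D W k) (fun p => k p.1 p.2 ^ m p)]
  apply Finset.prod_congr rfl
  intro p _
  by_cases h0 : 0 ≤ m p.1
  · rw [Finset.prod_congr rfl (g := fun _ => k p.1.1 p.1.2)
      (fun y _ => by rw [if_pos h0, if_pos h0]), Finset.prod_const, Finset.card_univ,
      Fintype.card_fin, ← zpow_natCast, Int.natAbs_of_nonneg h0]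
  · rw [Finset.prod_congr rfl (g := fun _ => k p.1.2 p.1.1)
      (fun y _ => by rw [if_neg h0, if_neg h0]), Finset.prod_const, Finset.card_univ,
      Fintype.card_fin, h.herm p.1.1 p.1.2]
    exact zta_zpow (hU p).2.2 (by omega)

theorem zt_spec {D : ℕ} {k : Cn → Cn → ℂ} (h : KS D k) (W : Finset ℕ) (a : GG)
    (m : Cn × Cn → ℤ) (hm : Rp (Un D W k) a m) :
    zt D W k a = ∏ p ∈ Un D W k, k p.1 p.2 ^ m p := by
  have hex : ∃ m, Rp (Un D W k) a m := ⟨m, hm⟩
  unfold zt
  rw [dif_pos hex]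
  have hm0 : Rp (Un D W k) a (Classical.choose hex) := Classical.choose_spec hex
  set m0 := Classical.choose hex with hm0def
  have h1 : Rp (Un D W k) (iv ∅ - iv ∅) (fun p => m p - m0 p) := by
    unfold Rp at hm hm0 ⊢
    simp only [sub_smul, Finset.sum_sub_distrib]
    rw [hm, hm0, sub_self, sub_self]
  have hVa : Va D (∅ : Cn) := fun A hA => absurd hA (Finset.notMem_empty A)
  have h2 := chain_int h W (fun p => m p - m0 p) ∅ ∅ hVa hVa h1
  rw [h.one] at h2
  have hne : ∀ p ∈ Un D W k, k p.1 p.2 ≠ 0 := by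
    intro p hp h0
    have := ((un_mem W k p).1 hp).2.2
    rw [h0, norm_zero] at this
    exact zero_ne_one this
  have h3 : ∏ p ∈ Un D W k, k p.1 p.2 ^ (m p - m0 p) =
      (∏ p ∈ Un D W k, k p.1 p.2 ^ m p) / ∏ p ∈ Un D W k, k p.1 p.2 ^ m0 p := by
    rw [← Finset.prod_div_distrib]
    exact Finset.prod_congr rfl fun p hp => zpow_sub₀ (hne p hp) _ _
  rw [h3] at h2
  have h4 : ∏ p ∈ Un D W k, k p.1 p.2 ^ m0 p ≠ 0 :=
    Finset.prod_ne_zero_iff.2 fun p hp => zpow_ne_zero _ (hne p hp)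
  rw [eq_div_iff h4, one_mul] at h2
  exact h2

theorem zt_none {D : ℕ} {k : Cn → Cn → ℂ} (W : Finset ℕ) (a : GG)
    (hm : ¬ ∃ m, Rp (Un D W k) a m) : zt D W k a = 0 := by
  unfold zt
  rw [dif_neg hm]

end Pool.Agent.Lib.MP_90b327_co.RS
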