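import Mathlib
import Pool.Agent.Lib.MP_90b327_co.RS.RDef
import Pool.Agent.Lib.MP_90b327_co.RS.ZtA

/-!
MODULE ZtB (30 minutes, old scale). The generated homomorphism is a partial character.

PROOF. `zero`: `m = 0`. `neg`: `m ↦ -m` represents `-a`; `zpow_neg`, and `z⁻¹ = conj z` for `|z| = 1`; if `a` is not represented, neither is `-a`. `nrm`: product of unimodular numbers. `add`: a non-zero value means represented (`zt_none`); `m + m'` represents the sum; `zpow_add₀`.
-/

set_option autoImplicit false

namespace Pool.Agent.Lib.MP_90b327_co.RS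

open Finset MeasureTheory Filter Pool.Agent.Lib.MP_90b327_co Pool.Agent.Lib.MP_90b327_co.RB
  Pool.Agent.Lib.MP_90b327_co.WW

private theorem ztb_zero (U : Finset (Cn × Cn)) : Rp U 0 (fun _ => 0) := by
  unfold Rp
  simp

private theorem ztb_neg {U : Finset (Cn × Cn)} {a : GG} {m : Cn × Cn → ℤ} (h : Rp U a m) :
    Rp U (-a) (fun p => -(m p)) := by
  unfold Rp at h ⊢
  rw [← h, ← Finset.sum_neg_distrib]
  exact Finset.sum_congr rfl fun p _ => neg_smul _ _

private theorem ztb_add {U : Finset (Cn × Cn)} {a b : GG} {m n : Cn × Cn → ℤ} (h : Rp U a m)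
    (h' : Rp U b n) : Rp U (a + b) (fun p => m p + n p) := by
  unfold Rp at h h' ⊢
  rw [← h, ← h', ← Finset.sum_add_distrib]
  exact Finset.sum_congr rfl fun p _ => add_smul _ _ _

private theorem ztb_conj {z : ℂ} (hz : ‖z‖ = 1) : (starRingEnd ℂ) z = z⁻¹ := by
  rw [Complex.inv_def, Complex.normSq_eq_norm_sq, hz]
  simp

theorem zt_pch {D : ℕ} {k : Cn → Cn → ℂ} (h : KS D k) (W : Finset ℕ) : PCh (zt D W k) where
  zero := by
    rw [zt_spec h W 0 _ (ztb_zero _)]
    simp
  neg := by
    intro a
    by_cases hex : ∃ m, Rp (Un D W k) a m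
    · obtain ⟨m, hm⟩ := hex
      rw [zt_spec h W a m hm, zt_spec h W (-a) _ (ztb_neg hm), map_prod]
      refine Finset.prod_congr rfl fun p hp => ?_
      rw [map_zpow₀, ztb_conj ((un_mem W k p).1 hp).2.2, zpow_neg, inv_zpow]
    · have hex' : ¬ ∃ m, Rp (Un D W k) (-a) m := by
        rintro ⟨m, hm⟩
        apply hex
        have := ztb_neg hm
        rw [neg_neg] at this
        exact ⟨_, this⟩
      rw [zt_none W a hex, zt_none W (-a) hex', map_zero]
  nrm := by
    intro a
    by_cases hex : ∃ m, Rp (Un D W k) a m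
    · right
      obtain ⟨m, hm⟩ := hex
      rw [zt_spec h W a m hm, norm_prod]
      refine Finset.prod_eq_one fun p hp => ?_
      rw [norm_zpow, ((un_mem W k p).1 hp).2.2, one_zpow]
    · left
      exact zt_none W a hex
  add := by
    intro a b ha hb
    have hxa : ∃ m, Rp (Un D W k) a m := by
      by_contra hc
      exact ha (zt_none W a hc)
    have hxb : ∃ m, Rp (Un D W k) b m := by
      by_contra hc
      exact hb (zt_none W b hc)
    obtain ⟨m, hm⟩ := hxa
    obtain ⟨n, hn⟩ := hxb
    rw [zt_spec h W a m hm, zt_spec h W b n hn, zt_spec h W (a + b) _ (ztb_add hm hn),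
      ← Finset.prod_mul_distrib]
    refine Finset.prod_congr rfl fun p hp => ?_
    have h0 : k p.1 p.2 ≠ 0 := by
      intro h0
      have := ((un_mem W k p).1 hp).2.2
      rw [h0, norm_zero] at this
      exact zero_ne_one this
    exact zpow_add₀ h0 _ _

end Pool.Agent.Lib.MP_90b327_co.RS
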