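import Mathlib
import Pool.Agent.Lib.MP_90b327_co.RS.RDef
import Pool.Agent.Lib.MP_90b327_co.RS.ZtB

/-!
MODULE ZtC (30 minutes, old scale). Values on differences, monotonicity.

PROOF. `zt_iv`: if `‖k u v‖ = 1` then `(u, v) ∈ Un D W k`, `m = Pi.single (u, v) 1` (`Function.update 0 ..`), value `k u v`. If `‖k u v‖ ≠ 1` and `m` represented `iv v - iv u`, `chain_int` would give `k u v = ∏ ..`, of modulus one. `zt_mono`: `Un D W k ⊆ Un D W' k`; extend `m` by zero outside
`Un D W k`; the product is the same (`Finset.prod_subset`, `zpow_zero`); `zt_spec` twice.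
-/

set_option autoImplicit false

namespace Pool.Agent.Lib.MP_90b327_co.RS

open Finset MeasureTheory Filter Pool.Agent.Lib.MP_90b327_co Pool.Agent.Lib.MP_90b327_co.RB
  Pool.Agent.Lib.MP_90b327_co.WW

private theorem ztc_va {D : ℕ} {W : Finset ℕ} {x : Cn} (h : x ⊆ br D W) : Va D x := by
  intro A hA
  have := h hA
  unfold br at this
  rw [Finset.mem_filter] at this
  exact this.2

private theorem ztc_br {D : ℕ} {W W' : Finset ℕ} (h : W ⊆ W') : br D W ⊆ br D W' := by
  unfold br
  exact Finset.filter_subset_filter _ (Finset.powerset_mono.2 h)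

theorem zt_iv {D : ℕ} {k : Cn → Cn → ℂ} (h : KS D k) (W : Finset ℕ) (u v : Cn)
    (hu : u ⊆ br D W) (hv : v ⊆ br D W) :
    zt D W k (iv v - iv u) = if ‖k u v‖ = 1 then k u v else 0 := by
  classical
  split_ifs with h1
  · have hmem : (u, v) ∈ Un D W k := (un_mem W k (u, v)).2 ⟨hu, hv, h1⟩
    have hm : Rp (Un D W k) (iv v - iv u) (Pi.single (u, v) 1) := by
      unfold Rp
      rw [Finset.sum_eq_single_of_mem (u, v) hmem]
      · rw [Pi.single_eq_same, one_smul]
      · intro p _ hp
        rw [Pi.single_eq_of_ne hp, zero_smul]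
    rw [zt_spec h W _ _ hm, Finset.prod_eq_single_of_mem (u, v) hmem]
    · rw [Pi.single_eq_same, zpow_one]
    · intro p _ hp
      rw [Pi.single_eq_of_ne hp, zpow_zero]
  · apply zt_none
    rintro ⟨m, hm⟩
    apply h1
    rw [chain_int h W m u v (ztc_va hu) (ztc_va hv) hm, norm_prod]
    refine Finset.prod_eq_one fun p hp => ?_
    rw [norm_zpow, ((un_mem W k p).1 hp).2.2, one_zpow]

theorem zt_mono {D : ℕ} {k : Cn → Cn → ℂ} (h : KS D k) (W W' : Finset ℕ) (hW : W ⊆ W') (a : GG)
    (ha : zt D W k a ≠ 0) : zt D W' k a = zt D W k a := by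
  classical
  have hxa : ∃ m, Rp (Un D W k) a m := by
    by_contra hc
    exact ha (zt_none W a hc)
  obtain ⟨m, hm⟩ := hxa
  have hsub : Un D W k ⊆ Un D W' k := by
    intro p hp
    have hp' := (un_mem W k p).1 hp
    exact (un_mem W' k p).2 ⟨hp'.1.trans (ztc_br hW), hp'.2.1.trans (ztc_br hW), hp'.2.2⟩
  have hm' : Rp (Un D W' k) a (fun p => if p ∈ Un D W k then m p else 0) := by
    unfold Rp at hm ⊢
    rw [← hm, ← Finset.sum_subset hsub]
    · refine Finset.sum_congr rfl fun p hp => ?_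
      dsimp only
      rw [if_pos hp]
    · intro p _ hp
      dsimp only
      rw [if_neg hp, zero_smul]
  rw [zt_spec h W a m hm, zt_spec h W' a _ hm', ← Finset.prod_subset hsub]
  · refine Finset.prod_congr rfl fun p hp => ?_
    rw [if_pos hp]
  · intro p _ hp
    rw [if_neg hp, zpow_zero]

end Pool.Agent.Lib.MP_90b327_co.RS
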