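import Mathlib
import Pool.Agent.Lib.MP_90b327_co.RS.RDef
import Pool.Agent.Lib.MP_90b327_co.RS.ZtC

/-!
MODULE ZtRel (45 minutes, old scale). Relabelling of the generated homomorphism.

PROOF. Facts on relabelling (`σ` injective): `mvc σ` is injective, maps the subsets of `br D W` bijectively onto the subsets of `br D (W.image σ)` (`br D (W.image σ) = mvc σ (br D W)`), `iv (mvc σ x) = rel σ (iv x)`, `rel σ` is additive and injective (`Finsupp.mapDomain_injective`; `C ↦ C.image σ` is
injective: `Finset.image_injective`). So with `k' x y = k (mvc σ x) (mvc σ y)`: `(x, y) ↦ (mvc σ x, mvc σ y)` is a bijection `Un D W k' → Un D (W.image σ) k`. If `m` represents `a` over `Un D W k'`, then `m' (mvc σ x, mvc σ y) = m (x, y)` represents `rel σ a` over `Un D (W.image σ) k` with the same product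
(`Finset.prod_bij` / `sum_image`), so `zt_spec` for `k` gives the value; and conversely a representation of `rel σ a` gives one of `a`. For `k'`, the value `zt D W k' a = ∏ k' ^ (choose)` by definition (no `KS` for `k'` needed): use the representation chosen by `zt`.
-/

set_option autoImplicit false

namespace Pool.Agent.Lib.MP_90b327_co.RS

open Finset MeasureTheory Filter Pool.Agent.Lib.MP_90b327_co Pool.Agent.Lib.MP_90b327_co.RB
  Pool.Agent.Lib.MP_90b327_co.WW

private noncomputable def rlH (σ : ℕ → ℕ) : GG →+ GG :=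
  Finsupp.mapDomain.addMonoidHom (fun C : Finset ℕ => C.image σ)

private theorem rlH_eq (σ : ℕ → ℕ) (a : GG) : rlH σ a = rel σ a := rfl

theorem rel_add (σ : ℕ → ℕ) (a b : GG) : rel σ (a + b) = rel σ a + rel σ b := by
  rw [← rlH_eq, ← rlH_eq, ← rlH_eq, map_add]

private theorem rel_single' (σ : ℕ → ℕ) (C : Finset ℕ) (n : ℤ) :
    rel σ (Finsupp.single C n) = Finsupp.single (C.image σ) n := by
  unfold rel
  exact Finsupp.mapDomain_single

theorem rel_iv {σ : ℕ → ℕ} (hσ : Function.Injective σ) (x : Cn) : rel σ (iv x) = iv (mvc σ x) := by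
  unfold iv mvc
  rw [← rlH_eq, map_sum, sum_image]
  · refine sum_congr rfl fun A _ => ?_
    rw [rlH_eq, rel_single']
  · intro A _ A' _ hAA
    exact Finset.image_injective hσ hAA

theorem rel_single (σ : ℕ → ℕ) (C : Finset ℕ) (n : ℤ) :
    rel σ (Finsupp.single C n) = Finsupp.single (C.image σ) n := rel_single' σ C n

theorem rel_ag {σ : ℕ → ℕ} (hσ : Function.Injective σ) (k : ℕ) (g : Finset ℕ) :
    rel σ (ag k g) = ag k (g.image σ) := by
  unfold ag
  have h1 : (g.image σ).powerset.filter (fun C => C.card ≤ k) =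
      (g.powerset.filter (fun C => C.card ≤ k)).image (fun C => C.image σ) := by
    ext C
    rw [mem_filter, mem_powerset, mem_image]
    constructor
    · rintro ⟨h2, h3⟩
      obtain ⟨C0, h4, h5⟩ := Finset.subset_image_iff.1 h2
      refine ⟨C0, ?_, h5⟩
      rw [mem_filter, mem_powerset]
      refine ⟨h4, ?_⟩
      rw [← h5, card_image_of_injective _ hσ] at h3
      exact h3
    · rintro ⟨C0, h4, rfl⟩
      rw [mem_filter, mem_powerset] at h4
      refine ⟨image_subset_image h4.1, ?_⟩
      rw [card_image_of_injective _ hσ]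
      exact h4.2
  rw [h1, ← rlH_eq, map_sum, sum_image]
  · refine sum_congr rfl fun A _ => ?_
    rw [rlH_eq, rel_single']
  · intro A _ A' _ hAA
    exact Finset.image_injective hσ hAA

private theorem rel_inj {σ : ℕ → ℕ} (hσ : Function.Injective σ) : Function.Injective (rel σ) := by
  unfold rel
  exact Finsupp.mapDomain_injective (Finset.image_injective hσ)

private theorem mvc_inj {σ : ℕ → ℕ} (hσ : Function.Injective σ) : Function.Injective (mvc σ) := by
  unfold mvc
  exact Finset.image_injective (Finset.image_injective hσ)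

private def rlF (σ : ℕ → ℕ) (p : Cn × Cn) : Cn × Cn := (mvc σ p.1, mvc σ p.2)

private theorem rlF_inj {σ : ℕ → ℕ} (hσ : Function.Injective σ) : Function.Injective (rlF σ) := by
  intro p q hpq
  unfold rlF at hpq
  rw [Prod.mk.injEq] at hpq
  exact Prod.ext (mvc_inj hσ hpq.1) (mvc_inj hσ hpq.2)

private theorem rl_br {D : ℕ} {σ : ℕ → ℕ} (hσ : Function.Injective σ) (W : Finset ℕ) :
    br D (W.image σ) = mvc σ (br D W) := by
  unfold br mvc
  ext C
  rw [mem_filter, mem_powerset, mem_image]
  constructor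
  · rintro ⟨h2, h3, h4⟩
    obtain ⟨C0, h5, h6⟩ := Finset.subset_image_iff.1 h2
    refine ⟨C0, ?_, h6⟩
    rw [mem_filter, mem_powerset]
    refine ⟨h5, ?_, ?_⟩
    · rw [← h6, image_nonempty] at h3
      exact h3
    · rw [← h6, card_image_of_injective _ hσ] at h4
      exact h4
  · rintro ⟨C0, h5, rfl⟩
    rw [mem_filter, mem_powerset] at h5
    refine ⟨image_subset_image h5.1, image_nonempty.2 h5.2.1, ?_⟩
    rw [card_image_of_injective _ hσ]
    exact h5.2.2

private theorem rl_un {D : ℕ} {k : Cn → Cn → ℂ} {σ : ℕ → ℕ} (hσ : Function.Injective σ) (W : Finset ℕ) :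
    Un D (W.image σ) k = (Un D W (fun x y => k (mvc σ x) (mvc σ y))).image (rlF σ) := by
  ext q
  rw [un_mem, mem_image, rl_br hσ]
  constructor
  · rintro ⟨h1, h2, h3⟩
    unfold mvc at h1 h2
    obtain ⟨x, hx, hx'⟩ := Finset.subset_image_iff.1 h1
    obtain ⟨y, hy, hy'⟩ := Finset.subset_image_iff.1 h2
    refine ⟨(x, y), ?_, ?_⟩
    · rw [un_mem]
      refine ⟨hx, hy, ?_⟩
      change ‖k (x.image fun A => A.image σ) (y.image fun A => A.image σ)‖ = 1
      rw [hx', hy']
      exact h3
    · unfold rlF mvc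
      exact Prod.ext hx' hy'
  · rintro ⟨p, hp, rfl⟩
    rw [un_mem] at hp
    exact ⟨image_subset_image hp.1, image_subset_image hp.2.1, hp.2.2⟩

private theorem rl_sum {D : ℕ} {k : Cn → Cn → ℂ} {σ : ℕ → ℕ} (hσ : Function.Injective σ) (W : Finset ℕ)
    (m : Cn × Cn → ℤ) :
    ∑ q ∈ Un D (W.image σ) k, m q • (iv q.2 - iv q.1) =
      rel σ (∑ p ∈ Un D W (fun x y => k (mvc σ x) (mvc σ y)), m (rlF σ p) • (iv p.2 - iv p.1)) := by
  rw [rl_un hσ, sum_image (fun p _ q _ h => rlF_inj hσ h), ← rlH_eq, map_sum]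
  refine sum_congr rfl fun p _ => ?_
  rw [map_zsmul, map_sub, rlH_eq, rlH_eq, rel_iv hσ, rel_iv hσ]
  rfl

theorem zt_rel {D : ℕ} {k : Cn → Cn → ℂ} (h : KS D k) {σ : ℕ → ℕ} (hσ : Function.Injective σ)
    (W : Finset ℕ) (a : GG) :
    zt D (W.image σ) k (rel σ a) = zt D W (fun x y => k (mvc σ x) (mvc σ y)) a := by
  by_cases hm : ∃ m, Rp (Un D W (fun x y => k (mvc σ x) (mvc σ y))) a m
  · have h1 : zt D W (fun x y => k (mvc σ x) (mvc σ y)) a =
        ∏ p ∈ Un D W (fun x y => k (mvc σ x) (mvc σ y)),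
          k (mvc σ p.1) (mvc σ p.2) ^ (Classical.choose hm p) := by
      unfold zt
      rw [dif_pos hm]
    have hch := Classical.choose_spec hm
    obtain ⟨m0, hm0⟩ : ∃ m0 : Cn × Cn → ℤ, m0 = Classical.choose hm := ⟨_, rfl⟩
    rw [← hm0] at hch h1
    have hext : ∀ p, Function.extend (rlF σ) m0 (fun _ => 0) (rlF σ p) = m0 p :=
      fun p => (rlF_inj hσ).extend_apply _ _ _
    have hRp : Rp (Un D (W.image σ) k) (rel σ a) (Function.extend (rlF σ) m0 (fun _ => 0)) := by
      unfold Rp
      rw [rl_sum hσ]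
      congr 1
      unfold Rp at hch
      rw [← hch]
      refine sum_congr rfl fun p _ => ?_
      rw [hext]
    rw [zt_spec h (W.image σ) (rel σ a) _ hRp, h1, rl_un hσ, prod_image (fun p _ q _ h => rlF_inj hσ h)]
    refine prod_congr rfl fun p _ => ?_
    rw [hext]
    rfl
  · rw [zt_none W a hm, zt_none]
    rintro ⟨m, hm'⟩
    apply hm
    refine ⟨fun p => m (rlF σ p), ?_⟩
    unfold Rp at hm' ⊢
    rw [rl_sum hσ] at hm'
    exact rel_inj hσ hm'

end Pool.Agent.Lib.MP_90b327_co.RS
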