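import Mathlib
import Pool.Agent.Lib.MP_90b327_co.RS.RDef
import Pool.Agent.Lib.MP_90b327_co.RS.PolyB
import Pool.Agent.Lib.MP_90b327_co.RS.ZtRel

/-!
MODULE LaLb (35 minutes, old scale). The two additive maps (text 10).

PROOF. `lin_add`, `lin_single`, `lin_zero`: `Finsupp.sum_add_index'`, `Finsupp.sum_single_index`. `la`: `Finsupp.filter_add`, `Finsupp.filter_single_of_pos / of_neg`. `la_ag`: for `k ≥ D`: `ag k g` restricted to non-empty sets with at most `D` elements is `iv (br D g)`. `lb_ag`: `bc_sum`.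
`la_rel`, `lb_rel`: additive in `c`, check on `single C 1`: `C.image σ` has the same cardinality; `bc D Q (C.image σ) = rel σ (bc D Q C)` (`A ↦ A.image σ` is a bijection `br D C → br D (C.image σ)` and `be Q (A.image σ) (C.image σ) = be Q A C`). Use `Finsupp.induction_linear`.
-/

set_option autoImplicit false

namespace Pool.Agent.Lib.MP_90b327_co.RS

open Finset MeasureTheory Filter Pool.Agent.Lib.MP_90b327_co Pool.Agent.Lib.MP_90b327_co.RB
  Pool.Agent.Lib.MP_90b327_co.WW

theorem lin_zero (τ : Finset ℕ → GG) : lin τ 0 = 0 := by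
  unfold lin
  exact Finsupp.sum_zero_index

theorem lin_add (τ : Finset ℕ → GG) (a b : GG) : lin τ (a + b) = lin τ a + lin τ b := by
  unfold lin
  exact Finsupp.sum_add_index' (fun C => zero_smul ℤ _) (fun C m n => add_smul m n _)

theorem lin_single (τ : Finset ℕ → GG) (C : Finset ℕ) (n : ℤ) :
    lin τ (Finsupp.single C n) = n • τ C := by
  unfold lin
  exact Finsupp.sum_single_index (zero_smul ℤ _)

theorem la_add (D : ℕ) (a b : GG) : la D (a + b) = la D a + la D b := by
  unfold la
  exact Finsupp.filter_add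

private theorem LaLb_lin_sum {ι : Type} (τ : Finset ℕ → GG) (s : Finset ι) (f : ι → GG) :
    lin τ (∑ i ∈ s, f i) = ∑ i ∈ s, lin τ (f i) :=
  map_sum (AddMonoidHom.mk' (lin τ) (lin_add τ)) f s

private theorem LaLb_la_sum {ι : Type} (D : ℕ) (s : Finset ι) (f : ι → GG) :
    la D (∑ i ∈ s, f i) = ∑ i ∈ s, la D (f i) :=
  map_sum (AddMonoidHom.mk' (la D) (la_add D)) f s

private theorem LaLb_rel_sum {ι : Type} (σ : ℕ → ℕ) (s : Finset ι) (f : ι → GG) :
    rel σ (∑ i ∈ s, f i) = ∑ i ∈ s, rel σ (f i) :=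
  map_sum (AddMonoidHom.mk' (rel σ) (rel_add σ)) f s

private theorem LaLb_rel_zero (σ : ℕ → ℕ) : rel σ 0 = 0 := by
  unfold rel
  exact Finsupp.mapDomain_zero

private theorem LaLb_rel_smul (σ : ℕ → ℕ) (n : ℤ) (a : GG) : rel σ (n • a) = n • rel σ a := by
  unfold rel
  exact Finsupp.mapDomain_smul n a

private theorem LaLb_la_pos (D : ℕ) (C : Finset ℕ) (n : ℤ) (h : C.Nonempty ∧ C.card ≤ D) :
    la D (Finsupp.single C n) = Finsupp.single C n := by
  unfold la
  exact Finsupp.filter_single_of_pos _ h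

private theorem LaLb_la_neg (D : ℕ) (C : Finset ℕ) (n : ℤ) (h : ¬ (C.Nonempty ∧ C.card ≤ D)) :
    la D (Finsupp.single C n) = 0 := by
  unfold la
  exact Finsupp.filter_single_of_neg _ h

theorem la_ag (D k : ℕ) (hk : D ≤ k) (g : Finset ℕ) : la D (ag k g) = iv (br D g) := by
  classical
  unfold ag iv
  rw [LaLb_la_sum]
  have h1 : ∀ C ∈ g.powerset.filter (fun C => C.card ≤ k), la D (Finsupp.single C 1) =
      if C.Nonempty ∧ C.card ≤ D then Finsupp.single C 1 else 0 := by
    intro C _
    split_ifs with h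
    · exact LaLb_la_pos D C 1 h
    · exact LaLb_la_neg D C 1 h
  rw [Finset.sum_congr rfl h1, ← Finset.sum_filter]
  refine Finset.sum_congr ?_ fun _ _ => rfl
  ext C
  unfold br
  simp only [Finset.mem_filter, Finset.mem_powerset]
  constructor
  · rintro ⟨⟨h2, _⟩, h3⟩
    exact ⟨h2, h3⟩
  · rintro ⟨h2, h3⟩
    exact ⟨⟨h2, h3.2.trans hk⟩, h3⟩

theorem lb_ag (D : ℕ) (Q : Polynomial ℤ) (k : ℕ) (hk : D + Q.natDegree ≤ k) (g : Finset ℕ) :
    lb D Q (ag k g) = Q.eval (g.card : ℤ) • iv (br D g) := by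
  rw [← bc_sum D Q k hk g]
  unfold lb ag
  rw [LaLb_lin_sum]
  refine Finset.sum_congr rfl fun C _ => ?_
  rw [lin_single, one_smul]

theorem la_rel (D : ℕ) {σ : ℕ → ℕ} (hσ : Function.Injective σ) (c : GG) :
    la D (rel σ c) = rel σ (la D c) := by
  induction c using Finsupp.induction_linear with
  | zero =>
    have h0 : la D 0 = 0 := by
      unfold la
      exact Finsupp.filter_zero _
    rw [LaLb_rel_zero, h0, LaLb_rel_zero]
  | add a b ha hb => rw [rel_add, la_add, ha, hb, la_add, rel_add]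
  | single C n =>
    rw [rel_single]
    by_cases h : C.Nonempty ∧ C.card ≤ D
    · have h' : (C.image σ).Nonempty ∧ (C.image σ).card ≤ D := by
        rw [Finset.image_nonempty, Finset.card_image_of_injective _ hσ]
        exact h
      rw [LaLb_la_pos D C n h, LaLb_la_pos D _ n h', rel_single]
    · have h' : ¬ ((C.image σ).Nonempty ∧ (C.image σ).card ≤ D) := by
        rw [Finset.image_nonempty, Finset.card_image_of_injective _ hσ]
        exact h
      rw [LaLb_la_neg D C n h, LaLb_la_neg D _ n h', LaLb_rel_zero]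

private theorem LaLb_sub {σ : ℕ → ℕ} (hσ : Function.Injective σ) {A g : Finset ℕ} :
    A.image σ ⊆ g.image σ ↔ A ⊆ g :=
  Finset.image_subset_image_iff hσ

private theorem LaLb_be (Q : Polynomial ℤ) {σ : ℕ → ℕ} (hσ : Function.Injective σ)
    (A C : Finset ℕ) : be Q (A.image σ) (C.image σ) = be Q A C := by
  classical
  unfold be
  have h1 : (C.image σ).powerset.filter (fun g => A.image σ ⊆ g) =
      (C.powerset.filter (fun g => A ⊆ g)).image (fun g => g.image σ) := by
    ext g
    simp only [Finset.mem_filter, Finset.mem_powerset, Finset.mem_image]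
    constructor
    · rintro ⟨h2, h3⟩
      obtain ⟨g', h4, h5⟩ := Finset.subset_image_iff.1 h2
      refine ⟨g', ⟨by exact_mod_cast h4, ?_⟩, h5⟩
      rw [← h5] at h3
      exact (LaLb_sub hσ).1 h3
    · rintro ⟨g', ⟨h4, h5⟩, rfl⟩
      exact ⟨(LaLb_sub hσ).2 h4, (LaLb_sub hσ).2 h5⟩
  rw [h1, Finset.sum_image (fun a _ b _ hab => Finset.image_injective hσ hab)]
  refine Finset.sum_congr rfl fun g _ => ?_
  rw [Finset.card_image_of_injective _ hσ, Finset.card_image_of_injective _ hσ]

private theorem LaLb_bc (D : ℕ) (Q : Polynomial ℤ) {σ : ℕ → ℕ} (hσ : Function.Injective σ)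
    (C : Finset ℕ) : bc D Q (C.image σ) = rel σ (bc D Q C) := by
  classical
  unfold bc
  rw [LaLb_rel_sum]
  have h1 : br D (C.image σ) = (br D C).image (fun g => g.image σ) := by
    ext g
    unfold br
    simp only [Finset.mem_filter, Finset.mem_powerset, Finset.mem_image]
    constructor
    · rintro ⟨h2, h3, h6⟩
      obtain ⟨g', h4, h5⟩ := Finset.subset_image_iff.1 h2
      rw [← h5, Finset.image_nonempty] at h3
      rw [← h5, Finset.card_image_of_injective _ hσ] at h6
      exact ⟨g', ⟨by exact_mod_cast h4, h3, h6⟩, h5⟩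
    · rintro ⟨g', ⟨h4, h5, h6⟩, rfl⟩
      refine ⟨(LaLb_sub hσ).2 h4, ?_, ?_⟩
      · rw [Finset.image_nonempty]
        exact h5
      · rw [Finset.card_image_of_injective _ hσ]
        exact h6
  rw [h1, Finset.sum_image (fun a _ b _ hab => Finset.image_injective hσ hab)]
  refine Finset.sum_congr rfl fun A _ => ?_
  rw [LaLb_be Q hσ, LaLb_rel_smul, rel_single]

theorem lb_rel (D : ℕ) (Q : Polynomial ℤ) {σ : ℕ → ℕ} (hσ : Function.Injective σ) (c : GG) :
    lb D Q (rel σ c) = rel σ (lb D Q c) := by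
  unfold lb
  induction c using Finsupp.induction_linear with
  | zero => rw [LaLb_rel_zero, lin_zero, LaLb_rel_zero]
  | add a b ha hb => rw [rel_add, lin_add, ha, hb, lin_add, rel_add]
  | single C n => rw [rel_single, lin_single, lin_single, LaLb_bc D Q hσ, LaLb_rel_smul]

end Pool.Agent.Lib.MP_90b327_co.RS
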