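import Mathlib
import Pool.Agent.Lib.MP_90b327_co.RS.RDef
import Pool.Agent.Lib.MP_90b327_co.RS.ZtC

/-!
MODULE ZiA (35 minutes, old scale). The union over all vertex sets.

PROOF. `zi_eq`: if `zt D (range n) k a ≠ 0` then `Nat.find ≤ n` and `zt_mono` (`range_subset`). `zi_of`: for arbitrary `W` choose `n` with `W ⊆ range n`, `zt_mono` twice. `zi_pch`: `zero`: `n = 0`.. (`zt D W k 0 = 1`); for `add` choose a common `n` for `a` and `b`; for `neg` and `nrm` from `zt_pch`
(if no `n` works for `a` none works for `-a`). `zi_iv`: choose `n` with `u, v ⊆ br D (range n)` (all vertices `< n`); if `‖k u v‖ ≠ 1` then `zt D (range n') k (iv v - iv u) = 0` for ALL `n'`: for `n'` large by `zt_iv`, for small `n'` by `zt_mono` (a non-zero value would persist). `zi_tend`: eventually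
constant.
-/

set_option autoImplicit false

namespace Pool.Agent.Lib.MP_90b327_co.RS

open Finset MeasureTheory Filter Pool.Agent.Lib.MP_90b327_co Pool.Agent.Lib.MP_90b327_co.RB
  Pool.Agent.Lib.MP_90b327_co.WW

theorem zi_eq {D : ℕ} {k : Cn → Cn → ℂ} (h : KS D k) (n : ℕ) (a : GG)
    (ha : zt D (range n) k a ≠ 0) : zi D k a = zt D (range n) k a := by
  classical
  have hex : ∃ n : ℕ, zt D (range n) k a ≠ 0 := ⟨n, ha⟩
  have h1 : zi D k a = zt D (range (Nat.find hex)) k a := by
    unfold zi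
    rw [dif_pos hex]
  have h2 : Nat.find hex ≤ n := Nat.find_min' hex ha
  rw [h1, zt_mono h (range (Nat.find hex)) (range n) (Finset.range_subset_range.2 h2) a
    (Nat.find_spec hex)]

theorem zi_of {D : ℕ} {k : Cn → Cn → ℂ} (h : KS D k) (W : Finset ℕ) (a : GG)
    (ha : zt D W k a ≠ 0) : zi D k a = zt D W k a := by
  obtain ⟨n, hn⟩ := W.exists_nat_subset_range
  have h1 := zt_mono h W (range n) hn a ha
  rw [← h1]
  exact zi_eq h n a (by rw [h1]; exact ha)

/-- the value is reached at all large `n` -/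
theorem zi_ev {D : ℕ} {k : Cn → Cn → ℂ} (h : KS D k) (a : GG) :
    ∃ n0 : ℕ, ∀ n ≥ n0, zt D (range n) k a = zi D k a := by
  classical
  by_cases hex : ∃ n : ℕ, zt D (range n) k a ≠ 0
  · obtain ⟨n0, h0⟩ := hex
    refine ⟨n0, fun n hn => ?_⟩
    have h1 := zt_mono h (range n0) (range n) (Finset.range_subset_range.2 hn) a h0
    exact (zi_eq h n a (by rw [h1]; exact h0)).symm
  · refine ⟨0, fun n _ => ?_⟩
    have h1 : zi D k a = 0 := by
      unfold zi
      rw [dif_neg hex]
    rw [h1]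
    by_contra hcon
    exact hex ⟨n, hcon⟩

theorem zi_pch {D : ℕ} {k : Cn → Cn → ℂ} (h : KS D k) : PCh (zi D k) where
  zero := by
    obtain ⟨n, hn⟩ := zi_ev h (0 : GG)
    rw [← hn n le_rfl]
    exact (zt_pch h (range n)).zero
  neg a := by
    obtain ⟨n, hn⟩ := zi_ev h a
    obtain ⟨m, hm⟩ := zi_ev h (-a)
    rw [← hn (max n m) (le_max_left _ _), ← hm (max n m) (le_max_right _ _)]
    exact (zt_pch h (range (max n m))).neg a
  nrm a := by
    obtain ⟨n, hn⟩ := zi_ev h a
    rw [← hn n le_rfl]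
    exact (zt_pch h (range n)).nrm a
  add a b ha hb := by
    obtain ⟨n, hn⟩ := zi_ev h a
    obtain ⟨m, hm⟩ := zi_ev h b
    obtain ⟨l, hl⟩ := zi_ev h (a + b)
    set N := max n (max m l) with hN
    have e1 := hn N (le_max_left _ _)
    have e2 := hm N ((le_max_left _ _).trans (le_max_right _ _))
    have e3 := hl N ((le_max_right _ _).trans (le_max_right _ _))
    rw [← e1] at ha ⊢
    rw [← e2] at hb ⊢
    rw [← e3]
    exact (zt_pch h (range N)).add a b ha hb

private theorem zia_br {D : ℕ} {u : Cn} (hu : Va D u) : ∃ n0 : ℕ, ∀ n ≥ n0, u ⊆ br D (range n) := by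
  classical
  obtain ⟨n0, h0⟩ := (u.biUnion id).exists_nat_subset_range
  refine ⟨n0, fun n hn A hA => ?_⟩
  unfold br
  rw [Finset.mem_filter, Finset.mem_powerset]
  refine ⟨fun x hx => ?_, hu A hA⟩
  have h1 : x ∈ range n0 := h0 (Finset.mem_biUnion.2 ⟨A, hA, hx⟩)
  rw [Finset.mem_range] at h1 ⊢
  omega

theorem zi_iv {D : ℕ} {k : Cn → Cn → ℂ} (h : KS D k) (u v : Cn) (hu : Va D u) (hv : Va D v) :
    zi D k (iv v - iv u) = if ‖k u v‖ = 1 then k u v else 0 := by
  obtain ⟨n, hn⟩ := zi_ev h (iv v - iv u)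
  obtain ⟨m, hm⟩ := zia_br hu
  obtain ⟨l, hl⟩ := zia_br hv
  set N := max n (max m l) with hN
  rw [← hn N (le_max_left _ _)]
  exact zt_iv h (range N) u v (hm N ((le_max_left _ _).trans (le_max_right _ _)))
    (hl N ((le_max_right _ _).trans (le_max_right _ _)))

theorem zi_tend {D : ℕ} {k : Cn → Cn → ℂ} (h : KS D k) (a : GG) :
    Tendsto (fun n : ℕ => zt D (range n) k a) atTop (nhds (zi D k a)) := by
  obtain ⟨n0, h0⟩ := zi_ev h a
  refine tendsto_const_nhds.congr' ?_
  filter_upwards [eventually_ge_atTop n0] with n hn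
  exact (h0 n hn).symm

end Pool.Agent.Lib.MP_90b327_co.RS
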