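import Mathlib
import Pool.Agent.Lib.MP_90b327_co.RS.RDef
import Pool.Agent.Lib.MP_90b327_co.RS.LaLb
import Pool.Agent.Lib.MP_90b327_co.RS.ZiA

/-!
MODULE PchPd (45 minutes, old scale). Partial characters are positive definite (text 10).

PROOF. `pch_mul`: the zero set and values: if `f a ≠ 0` and `f (a + b) ≠ 0` then `f b ≠ 0` (`b = (a + b) + (-a)`). `pch_psd`: relation `i ~ j` iff `f (x j - x i) ≠ 0`: an equivalence relation on `ι` (`zero`, `neg`, `add`). Group the sum by the classes: for a class with representative `r`: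
`f (x j - x i) = f (x j - x r) * conj (f (x i - x r))`, so the sum over the class is `|∑_i c_i f (x_i - x_r)|² ≥ 0`. A way without choosing representatives: induction on the number of elements of a finset `s ⊆ univ`: pick `r ∈ s`, split `s` into the class of `r` and the rest (cross terms are zero).
`pch_pow`: `f (n • a) = f a ^ n` if `f a ≠ 0` (`n : ℕ`, induction). `psi_pch`: `psi c = ‖f (la c)‖ * f (lb c)` with `f = zi D k`: `zero` (`la 0 = 0`), `neg`, `nrm`, `add` from `zi_pch`, `la_add`, `lin_add` (`‖f‖` is `0` or `1`).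
-/

set_option autoImplicit false

namespace Pool.Agent.Lib.MP_90b327_co.RS

open Finset MeasureTheory Filter Pool.Agent.Lib.MP_90b327_co Pool.Agent.Lib.MP_90b327_co.RB
  Pool.Agent.Lib.MP_90b327_co.WW

private theorem PchPd_symm {G : Type} [AddCommGroup G] {f : G → ℂ} (hf : PCh f) {a : G}
    (ha : f a ≠ 0) : f (-a) ≠ 0 := by
  rw [hf.neg]
  exact (map_ne_zero _).2 ha

theorem pch_psd {G : Type} [AddCommGroup G] {f : G → ℂ} (hf : PCh f) (ι : Type) [Fintype ι]
    (x : ι → G) (c : ι → ℂ) :
    0 ≤ (∑ i, ∑ j, (starRingEnd ℂ) (c i) * c j * f (x j - x i)).re := by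
  classical
  let S : Setoid ι :=
    { r := fun i j => f (x j - x i) ≠ 0
      iseqv :=
        { refl := fun i => by
            rw [sub_self, hf.zero]
            exact one_ne_zero
          symm := fun {i j} h => by
            have h1 := PchPd_symm hf h
            rwa [neg_sub] at h1
          trans := fun {i j k} h1 h2 => by
            have h3 : x k - x i = (x j - x i) + (x k - x j) := by abel
            rw [h3, hf.add _ _ h1 h2]
            exact mul_ne_zero h1 h2 } }
  let r : ι → ι := fun i => (Quotient.mk S i).out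
  have hr : ∀ i, f (x i - x (r i)) ≠ 0 := fun i => Quotient.exact (Quotient.out_eq (Quotient.mk S i))
  have hr2 : ∀ i j, f (x j - x i) ≠ 0 → r i = r j := by
    intro i j h
    have h1 : Quotient.mk S i = Quotient.mk S j := Quotient.sound h
    show (Quotient.mk S i).out = (Quotient.mk S j).out
    rw [h1]
  let u : ι → ℂ := fun i => c i * f (x i - x (r i))
  have key : ∀ i j, (starRingEnd ℂ) (c i) * c j * f (x j - x i) =
      ∑ k, (if r i = k then (starRingEnd ℂ) (u i) else 0) * (if r j = k then u j else 0) := by
    intro i j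
    rw [Finset.sum_eq_single (r i)]
    · rw [if_pos rfl]
      by_cases hij : f (x j - x i) = 0
      · rw [hij, mul_zero]
        have hne : ¬ r j = r i := by
          intro h
          have h1 := hr i
          have h2 := hr j
          rw [h] at h2
          have h3 : x j - x i = (x j - x (r i)) + -(x i - x (r i)) := by abel
          rw [h3, hf.add _ _ h2 (PchPd_symm hf h1)] at hij
          exact mul_ne_zero h2 (PchPd_symm hf h1) hij
        rw [if_neg hne, mul_zero]
      · rw [if_pos (hr2 i j hij).symm]
        have h1 := hr i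
        have h2 := hr j
        have h4 : r j = r i := (hr2 i j hij).symm
        have h3 : x j - x i = (x j - x (r i)) + -(x i - x (r i)) := by abel
        have h5 : f (x j - x i) = f (x j - x (r i)) * (starRingEnd ℂ) (f (x i - x (r i))) := by
          rw [← hf.neg, ← hf.add _ _ (by rw [← h4]; exact h2) (PchPd_symm hf h1), ← h3]
        show _ = (starRingEnd ℂ) (c i * f (x i - x (r i))) * (c j * f (x j - x (r j)))
        rw [h5, h4, map_mul]
        ring
    · intro k _ hk
      rw [if_neg (fun h => hk h.symm), zero_mul]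
    · intro h
      exact absurd (Finset.mem_univ _) h
  have h1 : ∑ i, ∑ j, (starRingEnd ℂ) (c i) * c j * f (x j - x i) =
      ∑ k, (starRingEnd ℂ) (∑ j, if r j = k then u j else 0) * (∑ j, if r j = k then u j else 0) := by
    have h2 : ∀ i, ∑ j, (starRingEnd ℂ) (c i) * c j * f (x j - x i) =
        ∑ k, ∑ j, (if r i = k then (starRingEnd ℂ) (u i) else 0) * (if r j = k then u j else 0) := by
      intro i
      rw [Finset.sum_comm]
      exact Finset.sum_congr rfl fun j _ => key i j
    rw [Finset.sum_congr rfl fun i _ => h2 i, Finset.sum_comm]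
    refine Finset.sum_congr rfl fun k _ => ?_
    rw [map_sum, Finset.sum_mul_sum]
    refine Finset.sum_congr rfl fun i _ => Finset.sum_congr rfl fun j _ => ?_
    congr 1
    split_ifs
    · rfl
    · rw [map_zero]
  rw [h1, Complex.re_sum]
  refine Finset.sum_nonneg fun k _ => ?_
  rw [mul_comm, Complex.mul_conj, Complex.ofReal_re]
  exact Complex.normSq_nonneg _

theorem pch_pow {G : Type} [AddCommGroup G] {f : G → ℂ} (hf : PCh f) (a : G) (ha : f a ≠ 0)
    (n : ℕ) : f (n • a) = f a ^ n := by
  induction n with
  | zero => rw [zero_smul, hf.zero, pow_zero]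
  | succ n ih =>
    rw [succ_nsmul, hf.add _ _ (by rw [ih]; exact pow_ne_zero n ha) ha, ih, pow_succ]

theorem pch_zpow {G : Type} [AddCommGroup G] {f : G → ℂ} (hf : PCh f) (a : G) (ha : f a ≠ 0)
    (n : ℤ) : f (n • a) = f a ^ n := by
  have hn : ‖f a‖ = 1 := (hf.nrm a).resolve_left ha
  obtain ⟨m, rfl | rfl⟩ := n.eq_nat_or_neg
  · rw [natCast_zsmul, pch_pow hf a ha, zpow_natCast]
  · rw [neg_smul, natCast_zsmul, hf.neg, pch_pow hf a ha, zpow_neg, zpow_natCast, map_pow,
      ← Complex.inv_eq_conj hn, inv_pow]

theorem psi_pch {D : ℕ} (Q : Polynomial ℤ) {k : Cn → Cn → ℂ} (h : KS D k) : PCh (psi D Q k) := by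
  have hf : PCh (zi D k) := zi_pch h
  have la0 : la D 0 = 0 := by
    have h1 := la_add D 0 0
    rw [add_zero] at h1
    exact left_eq_add.1 h1
  have lb0 : lb D Q 0 = 0 := lin_zero _
  have lbadd : ∀ a b, lb D Q (a + b) = lb D Q a + lb D Q b := fun a b => lin_add _ a b
  have laneg : ∀ a, la D (-a) = -la D a := by
    intro a
    have h1 := la_add D a (-a)
    rw [add_neg_cancel, la0] at h1
    exact (neg_eq_of_add_eq_zero_right h1.symm).symm
  have lbneg : ∀ a, lb D Q (-a) = -lb D Q a := by
    intro a
    have h1 := lbadd a (-a)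
    rw [add_neg_cancel, lb0] at h1
    exact (neg_eq_of_add_eq_zero_right h1.symm).symm
  constructor
  · unfold psi
    rw [la0, lb0, hf.zero, norm_one, Complex.ofReal_one, one_mul]
  · intro a
    unfold psi
    rw [laneg, lbneg, hf.neg, hf.neg, map_mul, Complex.conj_ofReal, RCLike.norm_conj]
  · intro a
    unfold psi
    rcases hf.nrm (la D a) with h1 | h1
    · left
      rw [h1, norm_zero, Complex.ofReal_zero, zero_mul]
    · rcases hf.nrm (lb D Q a) with h2 | h2
      · left
        rw [h2, mul_zero]
      · right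
        rw [h1, Complex.ofReal_one, one_mul, h2]
  · intro a b ha hb
    unfold psi at ha hb ⊢
    have ha1 : zi D k (la D a) ≠ 0 := by
      intro h0
      apply ha
      rw [h0, norm_zero, Complex.ofReal_zero, zero_mul]
    have hb1 : zi D k (la D b) ≠ 0 := by
      intro h0
      apply hb
      rw [h0, norm_zero, Complex.ofReal_zero, zero_mul]
    have ha2 : zi D k (lb D Q a) ≠ 0 := by
      intro h0
      apply ha
      rw [h0, mul_zero]
    have hb2 : zi D k (lb D Q b) ≠ 0 := by
      intro h0
      apply hb
      rw [h0, mul_zero]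
    rw [la_add, lbadd, hf.add _ _ ha1 hb1, hf.add _ _ ha2 hb2, norm_mul, Complex.ofReal_mul]
    ring

end Pool.Agent.Lib.MP_90b327_co.RS
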