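import Mathlib
import Pool.Agent.Lib.MP_90b327_co.RS.RDef
import Pool.Agent.Lib.MP_90b327_co.RS.LaLb
import Pool.Agent.Lib.MP_90b327_co.RS.PchPd
import Pool.Agent.Lib.MP_90b327_co.RS.PolyB

/-!
MODULE EndAlg (60 minutes, old scale). Algebra: from `b(1_C)` to the coordinates (text 10).

PROOF. `K := {a | f a = 1}` is a subgroup (`PCh`). (1) For `g ⊆ W`: `∑_{C ⊆ g, |C| ≤ D + natDegree Q} bc D Q C = Q(|g|) • iv (br D g)` (`bc_sum`; `bc D Q ∅ = 0` since `br D ∅ = ∅`), so `(m Q(|g|)) • iv (br D g) ∈ K`. (2) `M* = m * ∏_{n = n0}^{n0+D} Q(n)`: for `g ⊆ W` with `n0 ≤ |g| ≤ n0 + D`: `M* • iv (br D g) ∈ K`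
(`Q(|g|)` is a factor: `Finset.mul_prod_erase`). (3) For `A ∈ br D W`, `s ⊆ W \ A`, `|s| = n0` (exists: `|W| ≥ D + n0`): `∑_{U ⊆ A} (-1)^(|A| - |U|) • iv (br D (s ∪ U)) = ∑_{B ⊆ s, |A ∪ B| ≤ D} 1_(A ∪ B)`: a coordinate `E ⊆ s ∪ A` is counted with `∑_{E ∩ A ⊆ U ⊆ A} (-1)^(|A| - |U|)`, which is `1` if
`E ∩ A = A` and `0` otherwise (`Finset.sum_powerset_neg_one_pow_card`). So `M* • ∑_{B ⊆ s, |A ∪ B| ≤ D} 1_(A ∪ B) ∈ K`. (4) Descending induction on `|A|` (i.e. strong induction on `D - |A|`): the terms with `B ≠ ∅` are `M* • 1_(A ∪ B)` with a larger set, in `K` by induction; so `M* • 1_A ∈ K`.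
-/

set_option autoImplicit false

namespace Pool.Agent.Lib.MP_90b327_co.RS

open Finset MeasureTheory Filter Pool.Agent.Lib.MP_90b327_co Pool.Agent.Lib.MP_90b327_co.RB
  Pool.Agent.Lib.MP_90b327_co.WW

private def endKG {f : GG → ℂ} (hf : PCh f) : AddSubgroup GG where
  carrier := {a | f a = 1}
  zero_mem' := hf.zero
  add_mem' := by
    intro a b ha hb
    have ha' : f a = 1 := ha
    have hb' : f b = 1 := hb
    show f (a + b) = 1
    rw [hf.add a b (by rw [ha']; exact one_ne_zero) (by rw [hb']; exact one_ne_zero), ha', hb',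
      one_mul]
  neg_mem' := by
    intro a ha
    have ha' : f a = 1 := ha
    show f (-a) = 1
    rw [hf.neg, ha', map_one]

private lemma endKG_mem {f : GG → ℂ} (hf : PCh f) (a : GG) : a ∈ endKG hf ↔ f a = 1 := Iff.rfl

private lemma br_mem' {D : ℕ} (S A : Finset ℕ) :
    A ∈ br D S ↔ A ⊆ S ∧ A.Nonempty ∧ A.card ≤ D := by
  unfold br
  rw [Finset.mem_filter, Finset.mem_powerset]

/-- sum of the coordinates inside `g` which contain `T` -/
private noncomputable def GT (D : ℕ) (T g : Finset ℕ) : GG :=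
  ∑ E ∈ (br D g).filter (fun E => T ⊆ E), Finsupp.single E 1

private lemma GT_empty (D : ℕ) (g : Finset ℕ) : GT D ∅ g = iv (br D g) := by
  unfold GT iv
  rw [Finset.filter_true_of_mem]
  intro E _
  exact Finset.empty_subset E

private lemma GT_insert (D : ℕ) (T g : Finset ℕ) (v : ℕ) :
    GT D T g = GT D (insert v T) g + GT D T (g.erase v) := by
  unfold GT
  have h1 : (br D g).filter (fun E => T ⊆ E) =
      (br D g).filter (fun E => insert v T ⊆ E) ∪ (br D (g.erase v)).filter (fun E => T ⊆ E) := by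
    ext E
    simp only [Finset.mem_union, Finset.mem_filter, br_mem', Finset.insert_subset_iff,
      Finset.subset_erase]
    tauto
  rw [h1, Finset.sum_union]
  rw [Finset.disjoint_left]
  intro E hE hE'
  simp only [Finset.mem_filter, br_mem', Finset.insert_subset_iff, Finset.subset_erase] at hE hE'
  tauto

theorem end_alg (D : ℕ) (Q : Polynomial ℤ) (n₀ : ℕ) {f : GG → ℂ} (hf : PCh f) (m : ℤ)
    (W : Finset ℕ) (hW : D + n₀ ≤ W.card)
    (h : ∀ C, C ⊆ W → C.Nonempty → C.card ≤ D + Q.natDegree → f (m • bc D Q C) = 1)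
    (A : Finset ℕ) (hA : A ∈ br D W) :
    f ((m * ∏ n ∈ Finset.Icc n₀ (n₀ + D), Q.eval (n : ℤ)) • Finsupp.single A 1) = 1 := by
  classical
  set K := endKG hf with hK
  set Ms : ℤ := m * ∏ n ∈ Finset.Icc n₀ (n₀ + D), Q.eval (n : ℤ) with hMs
  -- (1)
  have h1 : ∀ g : Finset ℕ, g ⊆ W → (m * Q.eval (g.card : ℤ)) • iv (br D g) ∈ K := by
    intro g hg
    rw [mul_smul, ← bc_sum D Q (D + Q.natDegree) le_rfl g, Finset.smul_sum]
    apply K.sum_mem
    intro C hC
    rw [Finset.mem_filter, Finset.mem_powerset] at hC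
    rcases C.eq_empty_or_nonempty with rfl | hne
    · have : bc D Q ∅ = 0 := by
        unfold bc
        apply Finset.sum_eq_zero
        intro E hE
        rw [br_mem'] at hE
        exact absurd (Finset.subset_empty.mp hE.1) hE.2.1.ne_empty
      rw [this, smul_zero]
      exact K.zero_mem
    · exact h C (hC.1.trans hg) hne hC.2
  -- (2)
  have h2 : ∀ g : Finset ℕ, g ⊆ W → n₀ ≤ g.card → g.card ≤ n₀ + D → Ms • iv (br D g) ∈ K := by
    intro g hg hg1 hg2
    have hmem : g.card ∈ Finset.Icc n₀ (n₀ + D) := Finset.mem_Icc.mpr ⟨hg1, hg2⟩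
    have hprod := Finset.mul_prod_erase (Finset.Icc n₀ (n₀ + D)) (fun n : ℕ => Q.eval (n : ℤ)) hmem
    have hM : Ms = (∏ n ∈ (Finset.Icc n₀ (n₀ + D)).erase g.card, Q.eval (n : ℤ)) *
        (m * Q.eval (g.card : ℤ)) := by
      rw [hMs, ← hprod]
      ring
    rw [hM, mul_smul]
    exact K.zsmul_mem (h1 g hg) _
  -- (3)
  have h3 : ∀ T : Finset ℕ, ∀ g : Finset ℕ, T ⊆ g → g ⊆ W → n₀ + T.card ≤ g.card →
      g.card ≤ n₀ + D → Ms • GT D T g ∈ K := by
    intro T
    induction T using Finset.induction_on with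
    | empty =>
      intro g _ hg hg1 hg2
      rw [GT_empty]
      exact h2 g hg (by simpa using hg1) hg2
    | insert v T hv ih =>
      intro g hTg hg hg1 hg2
      rw [Finset.card_insert_of_notMem hv] at hg1
      have hvg : v ∈ g := hTg (Finset.mem_insert_self v T)
      have hTg' : T ⊆ g := (Finset.subset_insert v T).trans hTg
      have ha := ih g hTg' hg (by omega) hg2
      have hcard : (g.erase v).card = g.card - 1 := Finset.card_erase_of_mem hvg
      have hb := ih (g.erase v) (Finset.subset_erase.mpr ⟨hTg', hv⟩)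
        ((Finset.erase_subset v g).trans hg) (by omega) (by omega)
      have hc : GT D (insert v T) g = GT D T g - GT D T (g.erase v) := by
        rw [GT_insert D T g v, add_sub_cancel_right]
      rw [hc, smul_sub]
      exact K.sub_mem ha hb
  -- (4)
  have h4 : ∀ n : ℕ, ∀ A : Finset ℕ, A ∈ br D W → D - A.card = n →
      Ms • (Finsupp.single A 1 : GG) ∈ K := by
    intro n
    induction n using Nat.strong_induction_on with
    | _ n ih =>
      intro A hA hn
      rw [br_mem'] at hA
      obtain ⟨hAW, hAne, hAD⟩ := hA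
      have hsd : n₀ ≤ (W \ A).card := by
        rw [Finset.card_sdiff_of_subset hAW]
        omega
      obtain ⟨s, hs, hsc⟩ := Finset.exists_subset_card_eq hsd
      have hdis : Disjoint A s := by
        rw [Finset.disjoint_left]
        intro x hx hx'
        exact (Finset.mem_sdiff.mp (hs hx')).2 hx
      have hcard : (A ∪ s).card = A.card + n₀ := by
        rw [Finset.card_union_of_disjoint hdis, hsc]
      have hsub : A ∪ s ⊆ W := Finset.union_subset hAW (hs.trans Finset.sdiff_subset)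
      have hG := h3 A (A ∪ s) Finset.subset_union_left hsub (by omega) (by omega)
      have hAm : A ∈ (br D (A ∪ s)).filter (fun E => A ⊆ E) := by
        rw [Finset.mem_filter, br_mem']
        exact ⟨⟨Finset.subset_union_left, hAne, hAD⟩, Finset.Subset.refl A⟩
      have hsplit : GT D A (A ∪ s) = Finsupp.single A 1 +
          ∑ E ∈ ((br D (A ∪ s)).filter (fun E => A ⊆ E)).erase A, Finsupp.single E 1 := by
        unfold GT
        rw [← Finset.add_sum_erase _ _ hAm]
      have hrest : Ms • (∑ E ∈ ((br D (A ∪ s)).filter (fun E => A ⊆ E)).erase A,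
          (Finsupp.single E 1 : GG)) ∈ K := by
        rw [Finset.smul_sum]
        apply K.sum_mem
        intro E hE
        rw [Finset.mem_erase, Finset.mem_filter, br_mem'] at hE
        obtain ⟨hEA, ⟨hE1, hE2, hE3⟩, hE4⟩ := hE
        have hss : A ⊂ E := Finset.ssubset_iff_subset_ne.mpr ⟨hE4, fun h => hEA h.symm⟩
        have hlt := Finset.card_lt_card hss
        exact ih (D - E.card) (by omega) E
          (by rw [br_mem']; exact ⟨hE1.trans hsub, hE2, hE3⟩) rfl
      have hfin : Ms • (Finsupp.single A 1 : GG) = Ms • GT D A (A ∪ s) -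
          Ms • (∑ E ∈ ((br D (A ∪ s)).filter (fun E => A ⊆ E)).erase A,
            (Finsupp.single E 1 : GG)) := by
        rw [hsplit, smul_add, add_sub_cancel_right]
      rw [hfin]
      exact K.sub_mem hG hrest
  exact (endKG_mem hf _).mp (h4 _ A hA rfl)

end Pool.Agent.Lib.MP_90b327_co.RS
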