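import Mathlib
import Pool.Agent.Lib.MP_90b327_co.RS.RDef

/-!
MODULE PdA (40 minutes, old scale). Elementary facts on positive definite functions (text 8.1, 8.4).

PROOF. `pd_norm`: `psd` with two points `0, a` (coefficients `1`, `- conj`-phase): or from `pd_cs`. `pd_cs` (Cauchy-Schwarz in the GNS space): for the family `x : ι → GG` with coefficients `c` and the extra point `y` with coefficient `t`:
`|t|² + 2 Re (conj t * S) + Q ≥ 0` for all complex `t`, `S = ∑ c_i φ (x i - y)`, `Q` the quadratic form; take `t = - S`: `‖S‖² ≤ Q`. `pd_one`: `pd_cs`-like with the three points `0, -a..`: the vector `v_a - λ v_0` (`λ = φ a`, `|λ| = 1`) has norm zero: apply `pd_cs` with `x = (a, 0)`, `c = (1, -λ)`, `y = -b`: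
`φ (a + b) - λ φ b` has modulus² `≤ |1|² + |λ|² - 2 Re (conj λ.. φ a) = 0`. `pd_zsmul`: `φ a = 1` implies `φ (n • a) = 1`, `pd_add_one`: `φ (b + n • a) = φ b`. Induction (`pd_one`).
-/

set_option autoImplicit false

namespace Pool.Agent.Lib.MP_90b327_co.RS

open Finset MeasureTheory Filter Pool.Agent.Lib.MP_90b327_co Pool.Agent.Lib.MP_90b327_co.RB
  Pool.Agent.Lib.MP_90b327_co.WW

theorem pd_cs {φ : GG → ℂ} (h : PD φ) (ι : Type) [Fintype ι] (x : ι → GG) (c : ι → ℂ) (y : GG) :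
    ‖∑ i, c i * φ (x i - y)‖ ^ 2 ≤
      (∑ i, ∑ j, (starRingEnd ℂ) (c i) * c j * φ (x j - x i)).re := by
  classical
  obtain ⟨S, hS⟩ : ∃ S : ℂ, S = ∑ i, c i * φ (x i - y) := ⟨_, rfl⟩
  obtain ⟨Q, hQ⟩ : ∃ Q : ℂ, Q = ∑ i, ∑ j, (starRingEnd ℂ) (c i) * c j * φ (x j - x i) := ⟨_, rfl⟩
  rw [← hS, ← hQ]
  have h1 := h.psd (Option ι) (fun o => o.elim y x) (fun o => o.elim (-S) c)
  have e1 : (∑ i : Option ι, ∑ j : Option ι,
      (starRingEnd ℂ) ((fun o : Option ι => o.elim (-S) c) i) *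
        (fun o : Option ι => o.elim (-S) c) j *
        φ ((fun o : Option ι => o.elim y x) j - (fun o : Option ι => o.elim y x) i)) =
      (starRingEnd ℂ) S * S - (starRingEnd ℂ) S * S - S * (starRingEnd ℂ) S + Q := by
    rw [Fintype.sum_option]
    simp only [Fintype.sum_option, Option.elim, sub_self, h.zero, mul_one]
    rw [Finset.sum_add_distrib]
    have e2 : ∑ j, (starRingEnd ℂ) (-S) * c j * φ (x j - y) = -((starRingEnd ℂ) S * S) := by
      rw [map_neg, show ∑ j, -(starRingEnd ℂ) S * c j * φ (x j - y) =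
        -(starRingEnd ℂ) S * ∑ j, c j * φ (x j - y) by
          rw [Finset.mul_sum]; exact Finset.sum_congr rfl (fun j _ => by ring)]
      rw [← hS]; ring
    have e3 : ∑ i, (starRingEnd ℂ) (c i) * -S * φ (y - x i) = -(S * (starRingEnd ℂ) S) := by
      have : (starRingEnd ℂ) S = ∑ i, (starRingEnd ℂ) (c i) * φ (y - x i) := by
        rw [hS, map_sum]
        refine Finset.sum_congr rfl (fun i _ => ?_)
        rw [map_mul, ← h.neg, neg_sub]
      rw [this, Finset.mul_sum, ← Finset.sum_neg_distrib]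
      exact Finset.sum_congr rfl (fun i _ => by ring)
    rw [e2, e3, ← hQ, map_neg]
    ring
  rw [e1] at h1
  have e4 : (starRingEnd ℂ) S * S - (starRingEnd ℂ) S * S - S * (starRingEnd ℂ) S + Q =
      Q - ((‖S‖ ^ 2 : ℝ) : ℂ) := by
    rw [Complex.mul_conj, Complex.normSq_eq_norm_sq]
    push_cast
    ring
  rw [e4, Complex.sub_re, Complex.ofReal_re] at h1
  linarith

theorem pd_norm {φ : GG → ℂ} (h : PD φ) (a : GG) : ‖φ a‖ ≤ 1 := by
  have h1 := pd_cs h Unit (fun _ => a) (fun _ => 1) 0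
  simp [h.zero] at h1
  have h0 := norm_nonneg (φ a)
  nlinarith

theorem pd_one {φ : GG → ℂ} (h : PD φ) (a b : GG) (ha : ‖φ a‖ = 1) : φ (a + b) = φ a * φ b := by
  have h1 := pd_cs h (Fin 2) ![a, 0] ![1, -φ a] (-b)
  simp only [Fin.sum_univ_two, Matrix.cons_val_zero, Matrix.cons_val_one, sub_self, h.zero,
    sub_zero, zero_sub, map_one, map_neg, sub_neg_eq_add, zero_add, h.neg, one_mul, mul_one] at h1
  have e1 : (1 + -φ a * (starRingEnd ℂ) (φ a) + (-(starRingEnd ℂ) (φ a) * φ a +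
      -(starRingEnd ℂ) (φ a) * -φ a)).re = 0 := by
    have : φ a * (starRingEnd ℂ) (φ a) = 1 := by
      rw [Complex.mul_conj, Complex.normSq_eq_norm_sq, ha]; simp
    have e : (1 + -φ a * (starRingEnd ℂ) (φ a) + (-(starRingEnd ℂ) (φ a) * φ a +
      -(starRingEnd ℂ) (φ a) * -φ a)) = 1 - φ a * (starRingEnd ℂ) (φ a) := by ring
    rw [e, this]; simp
  rw [e1] at h1
  have h2 : ‖φ (a + b) + -φ a * φ b‖ = 0 := by
    have := norm_nonneg (φ (a + b) + -φ a * φ b)
    nlinarith
  rw [norm_eq_zero] at h2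
  linear_combination h2

theorem pd_zsmul {φ : GG → ℂ} (h : PD φ) (a : GG) (ha : φ a = 1) (n : ℤ) : φ (n • a) = 1 := by
  have h1 : ∀ b, φ (a + b) = φ b := fun b => by
    rw [pd_one h a b (by rw [ha]; simp), ha, one_mul]
  induction n using Int.induction_on with
  | zero => simp [h.zero]
  | succ n ih =>
    rw [add_smul, one_smul, add_comm, h1, ih]
  | pred n ih =>
    have e : ((-(n : ℤ)) • a) = a + ((-(n : ℤ) - 1) • a) := by
      rw [sub_smul, one_smul]; abel
    rw [e, h1] at ih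
    exact ih

theorem pd_add_one {φ : GG → ℂ} (h : PD φ) (a b : GG) (ha : φ a = 1) (n : ℤ) :
    φ (b + n • a) = φ b := by
  have h1 := pd_zsmul h a ha n
  rw [add_comm, pd_one h (n • a) b (by rw [h1]; simp), h1, one_mul]

end Pool.Agent.Lib.MP_90b327_co.RS
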