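import Mathlib
import Pool.Agent.Lib.MP_90b327_co.RS.RDef
import Pool.Agent.Lib.MP_90b327_co.RS.PdA

/-!
MODULE AjA (45 minutes, old scale). The averages `A_J`: characters and integrals (text 8.5).

PROOF. `aj_char`: for a homomorphism `F` into the unit circle `F (∑ (p_t - q_t) • a_t) = ∏ F(a_t)^(p_t) * conj (F(a_t)^(q_t))`; `∑_p ∑_q` factors: `(∏_t ∑_{p < J} F(a_t)^p) * conj (..)` (`Finset.prod_univ_sum` / `Fintype.piFinset`; `∑ p : ι → Fin J, ∏ t, f t (p t) = ∏ t, ∑ x, f t x`: `Finset.prod_univ_sum`). The power of `J`: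
`∏_t (1/J²) = 1/J^(2 card ι)`. `af_int`: `AF J` is a finite linear combination; `integral_finsetSum`, bounded measurable functions. `aj_nonneg`: positive definiteness with the points `x p = ∑ p_t • a_t` and coefficients `1` (`x q - x p` gives `φ (∑ (q - p) • a)`; symmetric sum). `aj_le`: norm of an average.
-/

set_option autoImplicit false

namespace Pool.Agent.Lib.MP_90b327_co.RS

open Finset MeasureTheory Filter Pool.Agent.Lib.MP_90b327_co Pool.Agent.Lib.MP_90b327_co.RB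
  Pool.Agent.Lib.MP_90b327_co.WW

theorem char_zsmul {F : GG → ℂ} (h0 : F 0 = 1) (ha : ∀ a b, F (a + b) = F a * F b)
    (hn : ∀ a, ‖F a‖ = 1) (n : ℤ) (b : GG) : F (n • b) = F b ^ n := by
  have hne : ∀ a, F a ≠ 0 := fun a h => by
    have := hn a
    rw [h, norm_zero] at this
    norm_num at this
  induction n using Int.induction_on with
  | zero => simp [h0]
  | succ n ih => rw [add_smul, one_smul, ha, ih, zpow_add_one₀ (hne b)]
  | pred n ih =>
    have h1 : F ((-(n : ℤ) - 1) • b) * F b = F b ^ (-(n : ℤ)) := by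
      rw [← ha, ← ih]
      congr 1
      rw [sub_smul, one_smul, sub_add_cancel]
    rw [zpow_sub_one₀ (hne b), ← h1, mul_assoc, mul_inv_cancel₀ (hne b), mul_one]

theorem char_sum {F : GG → ℂ} (h0 : F 0 = 1) (ha : ∀ a b, F (a + b) = F a * F b)
    {ι : Type} (s : Finset ι) (g : ι → GG) : F (∑ t ∈ s, g t) = ∏ t ∈ s, F (g t) := by
  classical
  induction s using Finset.induction_on with
  | empty => simp [h0]
  | insert x s hx ih => rw [Finset.sum_insert hx, Finset.prod_insert hx, ha, ih]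

theorem aj_char {F : GG → ℂ} (h0 : F 0 = 1) (ha : ∀ a b, F (a + b) = F a * F b)
    (hn : ∀ a, ‖F a‖ = 1) {ι : Type} [Fintype ι] (J : ℕ) (a : ι → GG) :
    AJ J F a = ((∏ t, ‖(∑ p ∈ range J, F (a t) ^ p) / (J : ℂ)‖ ^ 2 : ℝ) : ℂ) := by
  classical
  have hne : ∀ a, F a ≠ 0 := fun a h => by
    have := hn a
    rw [h, norm_zero] at this
    norm_num at this
  have hpi : ∀ g : ι → Fin J → ℂ, ∑ p : ι → Fin J, ∏ t, g t (p t) = ∏ t, ∑ x : Fin J, g t x := by
    intro g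
    rw [Finset.prod_univ_sum, Fintype.piFinset_univ]
  have hterm : ∀ p q : ι → Fin J, F (∑ t, (((p t : ℕ) : ℤ) - ((q t : ℕ) : ℤ)) • a t) =
      (∏ t, F (a t) ^ (p t : ℕ)) * ∏ t, (starRingEnd ℂ) (F (a t)) ^ (q t : ℕ) := by
    intro p q
    rw [char_sum h0 ha, ← Finset.prod_mul_distrib]
    apply Finset.prod_congr rfl
    intro t _
    rw [char_zsmul h0 ha hn, zpow_sub₀ (hne _), zpow_natCast, zpow_natCast, div_eq_mul_inv,
      ← inv_pow, Complex.inv_eq_conj (hn _)]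
  have hsum : ∑ p : ι → Fin J, ∑ q : ι → Fin J,
      F (∑ t, (((p t : ℕ) : ℤ) - ((q t : ℕ) : ℤ)) • a t) =
      ((∏ t, ‖∑ p ∈ range J, F (a t) ^ p‖ ^ 2 : ℝ) : ℂ) := by
    calc ∑ p : ι → Fin J, ∑ q : ι → Fin J,
        F (∑ t, (((p t : ℕ) : ℤ) - ((q t : ℕ) : ℤ)) • a t)
        = ∑ p : ι → Fin J, ∑ q : ι → Fin J,
          (∏ t, F (a t) ^ (p t : ℕ)) * ∏ t, (starRingEnd ℂ) (F (a t)) ^ (q t : ℕ) :=
          Finset.sum_congr rfl (fun p _ => Finset.sum_congr rfl (fun q _ => hterm p q))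
      _ = (∑ p : ι → Fin J, ∏ t, F (a t) ^ (p t : ℕ)) *
          ∑ q : ι → Fin J, ∏ t, (starRingEnd ℂ) (F (a t)) ^ (q t : ℕ) := by
          rw [Finset.sum_mul_sum]
      _ = (∏ t, ∑ x : Fin J, F (a t) ^ (x : ℕ)) *
          ∏ t, ∑ x : Fin J, (starRingEnd ℂ) (F (a t)) ^ (x : ℕ) := by
          rw [hpi (fun t x => F (a t) ^ (x : ℕ)),
            hpi (fun t x => (starRingEnd ℂ) (F (a t)) ^ (x : ℕ))]
      _ = ((∏ t, ‖∑ p ∈ range J, F (a t) ^ p‖ ^ 2 : ℝ) : ℂ) := by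
          rw [← Finset.prod_mul_distrib, Complex.ofReal_prod]
          apply Finset.prod_congr rfl
          intro t _
          have e1 : ∑ x : Fin J, F (a t) ^ (x : ℕ) = ∑ p ∈ range J, F (a t) ^ p :=
            Fin.sum_univ_eq_sum_range (fun p => F (a t) ^ p) J
          have e2 : ∑ x : Fin J, (starRingEnd ℂ) (F (a t)) ^ (x : ℕ) =
              (starRingEnd ℂ) (∑ p ∈ range J, F (a t) ^ p) := by
            rw [map_sum, Fin.sum_univ_eq_sum_range (fun p => (starRingEnd ℂ) (F (a t)) ^ p) J]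
            exact Finset.sum_congr rfl (fun p _ => (map_pow _ _ _).symm)
          rw [e1, e2, Complex.mul_conj, Complex.normSq_eq_norm_sq]
  have hdef : AJ J F a = (∑ p : ι → Fin J, ∑ q : ι → Fin J,
      F (∑ t, (((p t : ℕ) : ℤ) - ((q t : ℕ) : ℤ)) • a t)) / (J : ℂ) ^ (2 * Fintype.card ι) := by
    unfold AJ AF
    rfl
  rw [hdef, hsum]
  have e3 : (∏ t : ι, ‖(∑ p ∈ range J, F (a t) ^ p) / (J : ℂ)‖ ^ 2 : ℝ) =
      (∏ t : ι, ‖∑ p ∈ range J, F (a t) ^ p‖ ^ 2 : ℝ) / (J : ℝ) ^ (2 * Fintype.card ι) := by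
    have e4 : (J : ℝ) ^ (2 * Fintype.card ι) = ∏ _t : ι, (J : ℝ) ^ 2 := by
      rw [Finset.prod_const, Finset.card_univ, pow_mul]
    rw [e4, ← Finset.prod_div_distrib]
    apply Finset.prod_congr rfl
    intro t _
    rw [norm_div, div_pow, Complex.norm_natCast]
  rw [e3]
  push_cast
  rfl

theorem af_int {Ω : Type} [MeasurableSpace Ω] (P : Measure Ω) [IsProbabilityMeasure P] {ι : Type}
    [Fintype ι] (J : ℕ) (f : Ω → (ι → ℤ) → ℂ) (hm : ∀ j, Measurable (fun ω => f ω j))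
    (hb : ∀ ω j, ‖f ω j‖ ≤ 1) : AF J (fun j => ∫ ω, f ω j ∂P) = ∫ ω, AF J (f ω) ∂P := by
  have hi : ∀ j, Integrable (fun ω => f ω j) P := fun j =>
    Integrable.of_bound (hm j).aestronglyMeasurable 1 (Eventually.of_forall fun ω => hb ω j)
  unfold AF
  rw [integral_div, integral_finset_sum]
  · congr 1
    apply Finset.sum_congr rfl
    intro p _
    rw [integral_finset_sum]
    intro q _
    exact hi _
  · intro p _
    exact integrable_finset_sum _ (fun q _ => hi _)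

theorem aj_nonneg {φ : GG → ℂ} (h : PD φ) {ι : Type} [Fintype ι] (J : ℕ) (a : ι → GG) :
    0 ≤ (AJ J φ a).re := by
  classical
  have h1 := h.psd (ι → Fin J) (fun p => ∑ t, ((p t : ℕ) : ℤ) • a t) (fun _ => 1)
  simp only [map_one, one_mul] at h1
  rw [Finset.sum_comm] at h1
  have hdef : AJ J φ a = (∑ p : ι → Fin J, ∑ q : ι → Fin J,
      φ (∑ t, (((p t : ℕ) : ℤ) - ((q t : ℕ) : ℤ)) • a t)) / (J : ℂ) ^ (2 * Fintype.card ι) := by
    unfold AJ AF
    rfl
  have h2 : (∑ p : ι → Fin J, ∑ q : ι → Fin J,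
      φ (∑ t, (((p t : ℕ) : ℤ) - ((q t : ℕ) : ℤ)) • a t)) =
      ∑ p : ι → Fin J, ∑ q : ι → Fin J,
        φ (∑ t, ((p t : ℕ) : ℤ) • a t - ∑ t, ((q t : ℕ) : ℤ) • a t) := by
    apply Finset.sum_congr rfl
    intro p _
    apply Finset.sum_congr rfl
    intro q _
    congr 1
    rw [← Finset.sum_sub_distrib]
    exact Finset.sum_congr rfl (fun t _ => sub_smul _ _ _)
  rw [hdef, h2]
  have e : (J : ℂ) ^ (2 * Fintype.card ι) = (((J : ℝ) ^ (2 * Fintype.card ι) : ℝ) : ℂ) := by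
    push_cast; rfl
  rw [e, Complex.div_ofReal_re]
  exact div_nonneg h1 (by positivity)

theorem af_norm {ι : Type} [Fintype ι] (J : ℕ) (f : (ι → ℤ) → ℂ) (hf : ∀ j, ‖f j‖ ≤ 1) :
    ‖AF J f‖ ≤ 1 := by
  classical
  unfold AF
  rw [norm_div, norm_pow, Complex.norm_natCast]
  apply div_le_one_of_le₀ _ (by positivity)
  refine (norm_sum_le _ _).trans ?_
  have h1 : ∀ p : ι → Fin J, ‖∑ q : ι → Fin J, f (fun t => ((p t : ℕ) : ℤ) - ((q t : ℕ) : ℤ))‖ ≤
      (J : ℝ) ^ Fintype.card ι := by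
    intro p
    refine (norm_sum_le _ _).trans ?_
    calc ∑ q : ι → Fin J, ‖f (fun t => ((p t : ℕ) : ℤ) - ((q t : ℕ) : ℤ))‖
        ≤ ∑ _q : ι → Fin J, (1 : ℝ) := Finset.sum_le_sum (fun q _ => hf _)
      _ = (J : ℝ) ^ Fintype.card ι := by
        rw [Finset.sum_const, Finset.card_univ, Fintype.card_fun, Fintype.card_fin]
        simp
  calc _ ≤ ∑ _p : ι → Fin J, (J : ℝ) ^ Fintype.card ι := Finset.sum_le_sum (fun p _ => by
        have := h1 p
        convert this)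
    _ = (J : ℝ) ^ (2 * Fintype.card ι) := by
      rw [Finset.sum_const, Finset.card_univ, Fintype.card_fun, Fintype.card_fin, nsmul_eq_mul]
      push_cast
      rw [two_mul, pow_add]

end Pool.Agent.Lib.MP_90b327_co.RS
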