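import Mathlib
import Pool.Agent.Lib.MP_90b327_co.RS.RDef
import Pool.Agent.Lib.MP_90b327_co.RS.PchPd

/-!
MODULE LatA (60 minutes, old scale). The lattice lemma (text 10, Lemma LAT).

Additive group `ι → ℤ`; `e_t = Pi.single t 1`.
PROOF. Fix `t` and all other coordinates of `p`, `q`; the inner sum over `p_t, q_t < J` is `∑ f (w + (p_t - q_t) • e_t)` with `w` fixed (`w t = 0`). Let `D = {d : ℤ | f (w + d • e_t) ≠ 0}`. If `D` is empty the inner sum is `0`. Otherwise, with `d₀ ∈ D`: `d ∈ D` iff `f ((d - d₀) • e_t) ≠ 0` (partial character), and then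
`f (w + d • e_t) = f (w + d₀ • e_t) * f ((d - d₀) • e_t)`.
`lat_a`: if `f (m • e_t) = 0` for `1 ≤ m ≤ K`, then `D` meets every interval of `K + 1` consecutive integers at most once (differences `m` and `-m`), so for fixed `q_t` at most `J/(K+1) + 1` values of `p_t < J` count: inner sum `≤ J (J/(K+1) + 1)`, so `‖AF J f‖ ≤ 1/(K+1) + 1/J`.
`lat`: let `K = ⌊1/c⌋`. Suppose no `m` with `1 ≤ m ≤ K` has `f (m • e_t) = 1`. If `f (m • e_t) = 0` for all `1 ≤ m ≤ K`: `c ≤ 1/(K+1) + 1/J` for infinitely many `J`, impossible as `1/(K+1) < c`. Otherwise let `m₀ ≤ K` be the least `m ≥ 1` with `f (m • e_t) ≠ 0`, `λ = f (m₀ • e_t) ≠ 1`, `|λ| = 1`. `{d | f (d • e_t) ≠ 0} = m₀ ℤ`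
(subgroup of `ℤ`, Euclidean division), `f (m₀ i • e_t) = λ^i`. For fixed `q_t` the sum over `p_t` is a geometric sum `f (..) * ∑_{i in an interval} λ^i` of modulus `≤ 2/|1 - λ|`; so `‖AF J f‖ ≤ 2/(J |1 - λ|) → 0`, contradiction. (`c ≤ 1` since `‖AF‖ ≤ 1`, so `K ≥ 1`.)
-/

set_option autoImplicit false

namespace Pool.Agent.Lib.MP_90b327_co.RS

open Finset MeasureTheory Filter Pool.Agent.Lib.MP_90b327_co Pool.Agent.Lib.MP_90b327_co.RB
  Pool.Agent.Lib.MP_90b327_co.WW

/-- averaging one coordinate -/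
private theorem sum_upd {ι : Type} [Fintype ι] [DecidableEq ι] (J : ℕ) (t : ι)
    (F : (ι → Fin J) → ℂ) :
    ∑ p : ι → Fin J, ∑ i : Fin J, F (Function.update p t i) = (J : ℂ) * ∑ p, F p := by
  classical
  have h1 : ∑ p : ι → Fin J, ∑ i : Fin J, F (Function.update p t i) =
      ∑ x : (ι → Fin J) × Fin J, F (Function.update x.1 t x.2) := by
    rw [Fintype.sum_prod_type]
  have h2 : (J : ℂ) * ∑ p, F p = ∑ x : (ι → Fin J) × Fin J, F x.1 := by
    rw [Fintype.sum_prod_type]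
    simp [Finset.mul_sum]
  rw [h1, h2]
  refine Fintype.sum_equiv
    { toFun := fun x => (Function.update x.1 t x.2, x.1 t)
      invFun := fun x => (Function.update x.1 t x.2, x.1 t)
      left_inv := fun x => by ext <;> simp
      right_inv := fun x => by ext <;> simp } _ _ (fun x => rfl)

/-- a bound of the inner sums over one coordinate gives a bound of `AF` -/
private theorem af_le {ι : Type} [Fintype ι] [DecidableEq ι] (J : ℕ) (hJ : 1 ≤ J) (t : ι)
    (f : (ι → ℤ) → ℂ) (B : ℝ)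
    (h : ∀ w : ι → ℤ, ∀ j : Fin J, ‖∑ i : Fin J,
      f (w + ((((i : ℕ) : ℤ) - ((j : ℕ) : ℤ)) • Pi.single t 1))‖ ≤ B) :
    ‖AF J f‖ ≤ B / J := by
  classical
  have hJ0 : (0 : ℝ) < J := by exact_mod_cast hJ
  have hJc : (J : ℂ) ≠ 0 := by
    have : (J : ℝ) ≠ 0 := hJ0.ne'
    exact_mod_cast this
  have hB : 0 ≤ B := (norm_nonneg _).trans (h 0 ⟨0, hJ⟩)
  set F : (ι → Fin J) → (ι → Fin J) → ℂ := fun p q =>
    f (fun s => ((p s : ℕ) : ℤ) - ((q s : ℕ) : ℤ)) with hF
  have key : ∀ p q : ι → Fin J, ‖∑ i : Fin J, ∑ j : Fin J,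
      F (Function.update p t i) (Function.update q t j)‖ ≤ J * B := by
    intro p q
    rw [Finset.sum_comm]
    refine (norm_sum_le _ _).trans ?_
    calc ∑ j : Fin J, ‖∑ i : Fin J, F (Function.update p t i) (Function.update q t j)‖
        ≤ ∑ _j : Fin J, B := by
          apply Finset.sum_le_sum
          intro j _
          have e : ∀ i : Fin J, F (Function.update p t i) (Function.update q t j) =
              f ((fun s => if s = t then 0 else ((p s : ℕ) : ℤ) - ((q s : ℕ) : ℤ)) +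
                ((((i : ℕ) : ℤ) - ((j : ℕ) : ℤ)) • Pi.single t 1)) := by
            intro i
            simp only [hF]
            congr 1
            funext s
            by_cases hs : s = t
            · subst hs; simp
            · simp [hs]
          simp only [e]
          exact h _ j
      _ = J * B := by simp
  have e1 : (J : ℂ) ^ 2 * ∑ p, ∑ q, F p q =
      ∑ p : ι → Fin J, ∑ q : ι → Fin J, ∑ i : Fin J, ∑ j : Fin J,
        F (Function.update p t i) (Function.update q t j) := by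
    have a1 : ∀ p : ι → Fin J, ∑ q : ι → Fin J, ∑ i : Fin J, ∑ j : Fin J,
        F (Function.update p t i) (Function.update q t j) =
        ∑ i : Fin J, (J : ℂ) * ∑ q, F (Function.update p t i) q := by
      intro p
      rw [Finset.sum_comm]
      apply Finset.sum_congr rfl
      intro i _
      exact sum_upd J t (fun q => F (Function.update p t i) q)
    simp only [a1]
    rw [sum_upd J t (fun p => (J : ℂ) * ∑ q, F p q), ← Finset.mul_sum]
    ring
  have hc : (Fintype.card (ι → Fin J) : ℝ) = (J : ℝ) ^ Fintype.card ι := by simp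
  have e2 : ‖(J : ℂ) ^ 2 * ∑ p, ∑ q, F p q‖ ≤ (J : ℝ) ^ (2 * Fintype.card ι) * (J * B) := by
    rw [e1]
    refine (norm_sum_le _ _).trans ?_
    calc ∑ p : ι → Fin J, ‖∑ q : ι → Fin J, ∑ i : Fin J, ∑ j : Fin J,
          F (Function.update p t i) (Function.update q t j)‖
        ≤ ∑ _p : ι → Fin J, ∑ _q : ι → Fin J, (J * B) := by
          apply Finset.sum_le_sum
          intro p _
          refine (norm_sum_le _ _).trans ?_
          exact Finset.sum_le_sum (fun q _ => key p q)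
      _ = _ := by
          simp only [Finset.sum_const, Finset.card_univ, nsmul_eq_mul, hc]
          rw [two_mul, pow_add]
          ring
  have e3 : AF J f = ((J : ℂ) ^ 2 * ∑ p, ∑ q, F p q) / (J : ℂ) ^ (2 + 2 * Fintype.card ι) := by
    unfold AF
    rw [pow_add, mul_div_mul_left _ _ (pow_ne_zero 2 hJc)]
    congr 1
    refine Finset.sum_congr (by ext; simp) (fun p _ => Finset.sum_congr (by ext; simp)
      (fun q _ => rfl))
  rw [e3, norm_div, norm_pow, Complex.norm_natCast, div_le_div_iff₀ (by positivity) hJ0]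
  calc ‖(J : ℂ) ^ 2 * ∑ p, ∑ q, F p q‖ * J
      ≤ ((J : ℝ) ^ (2 * Fintype.card ι) * (J * B)) * J :=
        mul_le_mul_of_nonneg_right e2 hJ0.le
    _ = B * (J : ℝ) ^ (2 + 2 * Fintype.card ι) := by rw [pow_add]; ring

private theorem pch_le {G : Type} [AddCommGroup G] {f : G → ℂ} (hf : PCh f) (a : G) : ‖f a‖ ≤ 1 := by
  rcases hf.nrm a with h | h
  · rw [h]; simp
  · exact h.le

/-- subtraction -/
private theorem pch_sub' {G : Type} [AddCommGroup G] {f : G → ℂ} (hf : PCh f) (a b : G)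
    (ha : f a ≠ 0) (hb : f b ≠ 0) : f (a - b) ≠ 0 := by
  have hb' : f (-b) ≠ 0 := by
    rw [hf.neg]
    exact (map_ne_zero _).mpr hb
  rw [sub_eq_add_neg, hf.add a (-b) ha hb']
  exact mul_ne_zero ha hb'

theorem lat_a {ι : Type} [Fintype ι] [DecidableEq ι] {f : (ι → ℤ) → ℂ} (hf : PCh f) (t : ι) (K J : ℕ)
    (hJ : 1 ≤ J) (h : ∀ m : ℕ, 1 ≤ m → m ≤ K → f ((m : ℤ) • Pi.single t 1) = 0) :
    ‖AF J f‖ ≤ 1 / ((K : ℝ) + 1) + 1 / J := by
  classical
  have hJ0 : (0 : ℝ) < J := by exact_mod_cast hJ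
  have hK0 : (0 : ℝ) < (K : ℝ) + 1 := by positivity
  have main := af_le J hJ t f ((J : ℝ) / (K + 1) + 1) (by
    intro w j
    set g : Fin J → ℂ := fun i =>
      f (w + ((((i : ℕ) : ℤ) - ((j : ℕ) : ℤ)) • Pi.single t 1)) with hg
    set T : Finset (Fin J) := univ.filter (fun i => g i ≠ 0) with hT
    have h1 : ‖∑ i, g i‖ ≤ T.card := by
      have e : ∑ i, g i = ∑ i ∈ T, g i := by
        rw [hT, Finset.sum_filter_ne_zero]
      rw [e]
      refine (norm_sum_le _ _).trans ?_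
      calc ∑ i ∈ T, ‖g i‖ ≤ ∑ _i ∈ T, (1 : ℝ) := Finset.sum_le_sum (fun i _ => pch_le hf _)
        _ = T.card := by simp
    have hinj : ∀ a ∈ T, ∀ b ∈ T, (b : ℕ) < (a : ℕ) → ¬ ((a : ℕ) - (b : ℕ) ≤ K) := by
      intro a ha b hb hab hle
      have ha' : g a ≠ 0 := (mem_filter.mp ha).2
      have hb' : g b ≠ 0 := (mem_filter.mp hb).2
      have h2 := pch_sub' hf _ _ ha' hb'
      apply h2
      have e : (w + ((((a : ℕ) : ℤ) - ((j : ℕ) : ℤ)) • Pi.single t (1 : ℤ))) -
          (w + ((((b : ℕ) : ℤ) - ((j : ℕ) : ℤ)) • Pi.single t (1 : ℤ))) =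
          ((((a : ℕ) - (b : ℕ) : ℕ) : ℤ) • Pi.single t (1 : ℤ) : ι → ℤ) := by
        rw [Nat.cast_sub hab.le, add_sub_add_left_eq_sub, ← sub_smul]
        congr 1
        ring
      rw [e]
      exact h _ (by omega) hle
    have h2 : T.card ≤ (J - 1) / (K + 1) + 1 := by
      have h3 : (T.image (fun i : Fin J => (i : ℕ) / (K + 1))).card = T.card := by
        apply Finset.card_image_of_injOn
        intro a ha b hb hab
        simp only at hab
        by_contra hne
        rcases Nat.lt_trichotomy (a : ℕ) (b : ℕ) with hlt | heq | hgt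
        · apply hinj b hb a ha hlt
          have := Nat.div_add_mod (a : ℕ) (K + 1)
          have := Nat.div_add_mod (b : ℕ) (K + 1)
          have := Nat.mod_lt (a : ℕ) (show K + 1 > 0 by omega)
          have := Nat.mod_lt (b : ℕ) (show K + 1 > 0 by omega)
          rw [hab] at *
          omega
        · exact hne (Fin.ext heq)
        · apply hinj a ha b hb hgt
          have := Nat.div_add_mod (a : ℕ) (K + 1)
          have := Nat.div_add_mod (b : ℕ) (K + 1)
          have := Nat.mod_lt (a : ℕ) (show K + 1 > 0 by omega)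
          have := Nat.mod_lt (b : ℕ) (show K + 1 > 0 by omega)
          rw [hab] at *
          omega
      rw [← h3]
      calc (T.image (fun i : Fin J => (i : ℕ) / (K + 1))).card
          ≤ (range ((J - 1) / (K + 1) + 1)).card := by
            apply Finset.card_le_card
            intro x hx
            obtain ⟨i, _, rfl⟩ := mem_image.mp hx
            rw [mem_range, Nat.lt_succ_iff]
            apply Nat.div_le_div_right
            have := i.2
            omega
        _ = _ := card_range _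
    have h3 : (((J - 1) / (K + 1) + 1 : ℕ) : ℝ) ≤ (J : ℝ) / (K + 1) + 1 := by
      have h4 : (((J - 1) / (K + 1) : ℕ) : ℝ) ≤ ((J - 1 : ℕ) : ℝ) / ((K + 1 : ℕ) : ℝ) :=
        Nat.cast_div_le
      have h5 : ((J - 1 : ℕ) : ℝ) ≤ J := by exact_mod_cast Nat.sub_le _ _
      have h6 : ((J - 1 : ℕ) : ℝ) / ((K + 1 : ℕ) : ℝ) ≤ (J : ℝ) / (K + 1) := by
        push_cast
        exact div_le_div_of_nonneg_right h5 hK0.le
      push_cast
      linarith
    calc ‖∑ i, g i‖ ≤ T.card := h1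
      _ ≤ (((J - 1) / (K + 1) + 1 : ℕ) : ℝ) := by exact_mod_cast h2
      _ ≤ _ := h3)
  refine main.trans (le_of_eq ?_)
  field_simp

/-- geometric case -/
private theorem lat_b {ι : Type} [Fintype ι] [DecidableEq ι] {f : (ι → ℤ) → ℂ} (hf : PCh f) (t : ι)
    (m J : ℕ) (hJ : 1 ≤ J) (h0 : f ((m : ℤ) • Pi.single t 1) ≠ 0)
    (h1 : f ((m : ℤ) • Pi.single t 1) ≠ 1) :
    ‖AF J f‖ ≤ (2 * m / ‖f ((m : ℤ) • Pi.single t 1) - 1‖) / J := by
  classical
  set lam : ℂ := f ((m : ℤ) • Pi.single t 1) with hlam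
  have hl : 0 < ‖lam - 1‖ := norm_pos_iff.mpr (sub_ne_zero.mpr h1)
  apply af_le J hJ t f
  intro w j
  set g : ℕ → ℂ := fun i => f (w + (((i : ℤ) - ((j : ℕ) : ℤ)) • Pi.single t 1)) with hg
  have hs : ∀ i, g (i + m) = lam * g i := by
    intro i
    have e : w + ((((i + m : ℕ) : ℤ) - ((j : ℕ) : ℤ)) • Pi.single t (1 : ℤ)) =
        ((m : ℤ) • Pi.single t (1 : ℤ)) + (w + (((i : ℤ) - ((j : ℕ) : ℤ)) • Pi.single t (1 : ℤ))) := by
      push_cast
      rw [show ((i : ℤ) + m - (j : ℕ)) = m + ((i : ℤ) - (j : ℕ)) by ring, add_smul]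
      abel
    simp only [hg]
    rw [e]
    by_cases hz : f (w + (((i : ℤ) - ((j : ℕ) : ℤ)) • Pi.single t 1)) = 0
    · rw [hz, mul_zero]
      by_contra hne
      have h2 := pch_sub' hf _ _ hne h0
      rw [add_sub_cancel_left] at h2
      exact h2 hz
    · rw [hf.add _ _ h0 hz]
  have hle : ∀ i, ‖g i‖ ≤ 1 := fun i => pch_le hf _
  have e1 : ∑ i : Fin J, f (w + ((((i : ℕ) : ℤ) - ((j : ℕ) : ℤ)) • Pi.single t 1)) =
      ∑ i ∈ range J, g i := by
    rw [Finset.sum_range]
  rw [e1]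
  have e2 : (lam - 1) * ∑ i ∈ range J, g i = ∑ i ∈ range m, g (J + i) - ∑ i ∈ range m, g i := by
    have a1 : ∑ i ∈ range (J + m), g i = ∑ i ∈ range J, g i + ∑ i ∈ range m, g (J + i) :=
      Finset.sum_range_add _ _ _
    have a2 : ∑ i ∈ range (m + J), g i = ∑ i ∈ range m, g i + ∑ i ∈ range J, g (m + i) :=
      Finset.sum_range_add _ _ _
    have a3 : ∑ i ∈ range J, g (m + i) = lam * ∑ i ∈ range J, g i := by
      rw [Finset.mul_sum]
      apply Finset.sum_congr rfl
      intro i _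
      rw [add_comm m i, hs]
    rw [add_comm m J, a1, a3] at a2
    linear_combination -a2
  have e3 : ‖(lam - 1) * ∑ i ∈ range J, g i‖ ≤ 2 * m := by
    rw [e2]
    refine (norm_sub_le _ _).trans ?_
    have b1 : ‖∑ i ∈ range m, g (J + i)‖ ≤ m := by
      refine (norm_sum_le _ _).trans ?_
      calc ∑ i ∈ range m, ‖g (J + i)‖ ≤ ∑ _i ∈ range m, (1 : ℝ) :=
            Finset.sum_le_sum (fun i _ => hle _)
        _ = m := by simp
    have b2 : ‖∑ i ∈ range m, g i‖ ≤ m := by
      refine (norm_sum_le _ _).trans ?_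
      calc ∑ i ∈ range m, ‖g i‖ ≤ ∑ _i ∈ range m, (1 : ℝ) :=
            Finset.sum_le_sum (fun i _ => hle _)
        _ = m := by simp
    linarith
  rw [norm_mul] at e3
  rw [le_div_iff₀ hl, mul_comm]
  exact e3

theorem lat {ι : Type} [Fintype ι] [DecidableEq ι] {f : (ι → ℤ) → ℂ} (hf : PCh f) (t : ι) (c : ℝ)
    (hc : 0 < c) (h : ∃ᶠ J : ℕ in atTop, c ≤ (AF J f).re) :
    ∃ m : ℕ, 1 ≤ m ∧ (m : ℝ) ≤ 1 / c ∧ f ((m : ℤ) • Pi.single t 1) = 1 := by
  classical
  obtain ⟨K, hK⟩ : ∃ K : ℕ, K = ⌊1 / c⌋₊ := ⟨_, rfl⟩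
  have hKle : (K : ℝ) ≤ 1 / c := by rw [hK]; exact Nat.floor_le (by positivity)
  have hKlt : 1 / c < (K : ℝ) + 1 := by rw [hK]; exact Nat.lt_floor_add_one _
  by_contra hcon
  push Not at hcon
  have hno : ∀ m : ℕ, 1 ≤ m → m ≤ K → f ((m : ℤ) • Pi.single t 1) ≠ 1 := by
    intro m h1 h2
    apply hcon m h1
    exact le_trans (by exact_mod_cast h2) hKle
  by_cases hz : ∀ m : ℕ, 1 ≤ m → m ≤ K → f ((m : ℤ) • Pi.single t 1) = 0
  · have h2 : 1 / ((K : ℝ) + 1) < c := by
      rw [div_lt_iff₀ (by positivity)]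
      rw [div_lt_iff₀ hc] at hKlt
      linarith
    have hev : ∀ᶠ J : ℕ in atTop, (1 : ℝ) / J < c - 1 / ((K : ℝ) + 1) := by
      have := tendsto_one_div_atTop_nhds_zero_nat (𝕜 := ℝ)
      exact this.eventually (gt_mem_nhds (by linarith))
    obtain ⟨J, hJ1, hJ2, hJ3⟩ := (h.and_eventually (hev.and (eventually_ge_atTop 1))).exists
    have h3 := lat_a hf t K J hJ3 hz
    have h4 := Complex.re_le_norm (AF J f)
    linarith
  · push Not at hz
    obtain ⟨m, hm1, hm2, hm3⟩ := hz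
    have hm4 := hno m hm1 hm2
    obtain ⟨B, hB⟩ : ∃ B : ℝ, B = 2 * m / ‖f ((m : ℤ) • Pi.single t 1) - 1‖ := ⟨_, rfl⟩
    have hev : ∀ᶠ J : ℕ in atTop, B / (J : ℝ) < c :=
      (tendsto_const_div_atTop_nhds_zero_nat B).eventually (gt_mem_nhds hc)
    obtain ⟨J, hJ1, hJ2, hJ3⟩ := (h.and_eventually (hev.and (eventually_ge_atTop 1))).exists
    have h3 := lat_b hf t m J hJ3 hm3 hm4
    rw [← hB] at h3
    have h4 := Complex.re_le_norm (AF J f)
    linarith

end Pool.Agent.Lib.MP_90b327_co.RS
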