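import Mathlib
import Pool.Agent.Lib.MP_90b327_co.RS.RDef
import Pool.Agent.Lib.MP_90b327_co.RS.ClBr

/-!
MODULE ZtMeas (45 minutes, old scale). Measurability.

PROOF. `Un D W (kz (T.z ω))` takes finitely many values `U ⊆ Pn D W`, and `{ω | Un .. = U}` is measurable: it is the intersection over `p ∈ Pn D W` of the sets `{‖z‖ = 1}` or their complements (`T.meas`). On this set `zt D W (kz (T.z ω)) a` is `∏ p ∈ U, (kz (T.z ω) p.1 p.2) ^ (m_U p)` with a FIXED `m_U` (the choice
depends only on the set `U`: `Classical.choose h` for `h : ∃ m, Rp U a m`), or zero. Write `F U ω := if h : ∃ m, Rp U a m then ∏ p ∈ U, kz (T.z ω) p.1 p.2 ^ (Classical.choose h p) else 0`; `zt .. = F (Un ..) ω` and `= ∑ U ∈ (Pn D W).powerset, if Un .. = U then F U ω else 0`.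
`zi_meas`: `{ω | ∃ n, zt (range n) ≠ 0 ∧ ∀ m < n, zt (range m) = 0} =: E_n` are measurable, disjoint, `zi = ∑' indicator`, or `Measurable.find`, or write `zi` as a countable piecewise function (`measurable_of_...`). A simple way: `zi = limit of g_n` with `g_n ω = if ∃ m ≤ n, zt (range m) ≠ 0 then zt (range (Nat.find ..))`,
eventually constant in `n` (`measurable_of_tendsto_metrizable`), `g_(n+1) = if g_n ≠ 0 then g_n else zt (range (n+1))`.
-/

set_option autoImplicit false

namespace Pool.Agent.Lib.MP_90b327_co.RS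

open Finset MeasureTheory Filter Pool.Agent.Lib.MP_90b327_co Pool.Agent.Lib.MP_90b327_co.RB
  Pool.Agent.Lib.MP_90b327_co.WW

theorem kz_meas {D : ℕ} (T : CS D) (x y : Cn) : Measurable (fun ω => kz (T.z ω) x y) :=
  T.meas _ _

open Classical in
/-- the value of `zt` as a function of the set of unimodular pairs -/
private noncomputable def ZtMeas_F (a : GG) (U : Finset (Cn × Cn)) (k : Cn → Cn → ℂ) : ℂ :=
  if h : ∃ m, Rp U a m then ∏ p ∈ U, k p.1 p.2 ^ (Classical.choose h p) else 0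

private theorem ZtMeas_eq (D : ℕ) (W : Finset ℕ) (k : Cn → Cn → ℂ) (a : GG) :
    zt D W k a = ZtMeas_F a (Un D W k) k := rfl

private theorem ZtMeas_Fm {D : ℕ} (T : CS D) (a : GG) (U : Finset (Cn × Cn)) :
    Measurable (fun ω => ZtMeas_F a U (kz (T.z ω))) := by
  unfold ZtMeas_F
  by_cases h : ∃ m, Rp U a m
  · simp only [dif_pos h]
    exact Finset.measurable_prod _ fun p _ => (kz_meas T p.1 p.2).pow_const _
  · simp only [dif_neg h]
    exact measurable_const

private theorem ZtMeas_mem {D : ℕ} {W : Finset ℕ} {k : Cn → Cn → ℂ} {p : Cn × Cn} :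
    p ∈ Un D W k ↔ p ∈ Pn D W ∧ ‖k p.1 p.2‖ = 1 := by
  unfold Un
  rw [Finset.mem_filter]

private theorem ZtMeas_un {D : ℕ} {W : Finset ℕ} {k : Cn → Cn → ℂ} {U : Finset (Cn × Cn)}
    (hU : U ⊆ Pn D W) : Un D W k = U ↔ ∀ p ∈ Pn D W, (‖k p.1 p.2‖ = 1 ↔ p ∈ U) := by
  constructor
  · rintro rfl p hp
    rw [ZtMeas_mem]
    exact ⟨fun h => ⟨hp, h⟩, fun h => h.2⟩
  · intro h
    ext p
    rw [ZtMeas_mem]
    constructor
    · rintro ⟨h1, h2⟩
      exact (h p h1).1 h2
    · intro h1
      exact ⟨hU h1, (h p (hU h1)).2 h1⟩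

private theorem ZtMeas_set {D : ℕ} (T : CS D) (W : Finset ℕ) {U : Finset (Cn × Cn)}
    (hU : U ⊆ Pn D W) : MeasurableSet {ω | Un D W (kz (T.z ω)) = U} := by
  have h : {ω | Un D W (kz (T.z ω)) = U} =
      ⋂ p ∈ Pn D W, {ω | ‖kz (T.z ω) p.1 p.2‖ = 1 ↔ p ∈ U} := by
    ext ω
    simp only [Set.mem_iInter]
    exact ZtMeas_un hU
  rw [h]
  refine Finset.measurableSet_biInter _ fun p _ => ?_
  have h1 : MeasurableSet {ω | ‖kz (T.z ω) p.1 p.2‖ = 1} :=
    (kz_meas T p.1 p.2).norm (measurableSet_singleton (1 : ℝ))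
  by_cases hp : p ∈ U
  · simpa only [hp, iff_true] using h1
  · have h2 : {ω | ‖kz (T.z ω) p.1 p.2‖ = 1 ↔ p ∈ U} =
        {ω | ‖kz (T.z ω) p.1 p.2‖ = 1}ᶜ := by
      ext ω
      simp only [hp, iff_false]
      exact Iff.rfl
    rw [h2]
    exact h1.compl

theorem zt_meas {D : ℕ} (T : CS D) (W : Finset ℕ) (a : GG) :
    Measurable (fun ω => zt D W (kz (T.z ω)) a) := by
  classical
  have h : (fun ω => zt D W (kz (T.z ω)) a) = fun ω =>
      ∑ U ∈ (Pn D W).powerset,
        Set.indicator {ω | Un D W (kz (T.z ω)) = U} (fun ω => ZtMeas_F a U (kz (T.z ω))) ω := by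
    funext ω
    have hmem : Un D W (kz (T.z ω)) ∈ (Pn D W).powerset := by
      rw [Finset.mem_powerset]
      intro p hp
      exact (ZtMeas_mem.1 hp).1
    rw [Finset.sum_eq_single (Un D W (kz (T.z ω)))]
    · rw [Set.indicator_of_mem (by rfl)]
      exact ZtMeas_eq _ _ _ _
    · intro U _ hU
      exact Set.indicator_of_notMem (fun h => hU h.symm) _
    · intro h
      exact absurd hmem h
  rw [h]
  refine Finset.measurable_fun_sum _ fun U hU => ?_
  exact (ZtMeas_Fm T a U).indicator (ZtMeas_set T W (Finset.mem_powerset.1 hU))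

open Classical in
/-- the first nonzero value among the indices `≤ n` -/
private noncomputable def ZtMeas_g (f : ℕ → ℂ) : ℕ → ℂ
  | 0 => f 0
  | n + 1 => if ZtMeas_g f n = 0 then f (n + 1) else ZtMeas_g f n

private theorem ZtMeas_g0 (f : ℕ → ℂ) (n : ℕ) (h : ∀ m ≤ n, f m = 0) : ZtMeas_g f n = 0 := by
  induction n with
  | zero => exact h 0 le_rfl
  | succ n ih =>
    rw [ZtMeas_g, if_pos (ih fun m hm => h m (by omega))]
    exact h _ le_rfl

private theorem ZtMeas_g1 (f : ℕ → ℂ) (m : ℕ) (h0 : ∀ m' < m, f m' = 0) (h1 : f m ≠ 0) (n : ℕ)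
    (hn : m ≤ n) : ZtMeas_g f n = f m := by
  induction n with
  | zero =>
    have : m = 0 := by omega
    rw [this]
    rfl
  | succ n ih =>
    rcases Nat.lt_or_ge n m with h | h
    · have hm : m = n + 1 := by omega
      rw [ZtMeas_g, if_pos (ZtMeas_g0 f n fun m' hm' => h0 m' (by omega)), hm]
    · rw [ZtMeas_g, ih h, if_neg h1]

open Classical in
private theorem ZtMeas_gm {Ω : Type} [MeasurableSpace Ω] (f : ℕ → Ω → ℂ)
    (hf : ∀ n, Measurable (f n)) (n : ℕ) : Measurable (fun ω => ZtMeas_g (fun m => f m ω) n) := by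
  induction n with
  | zero => exact hf 0
  | succ n ih =>
    have h : (fun ω => ZtMeas_g (fun m => f m ω) (n + 1)) = fun ω =>
        if ZtMeas_g (fun m => f m ω) n = 0 then f (n + 1) ω else
          ZtMeas_g (fun m => f m ω) n := by
      funext ω
      rw [ZtMeas_g]
    rw [h]
    exact Measurable.ite (ih (measurableSet_singleton (0 : ℂ))) (hf _) ih

theorem zi_meas {D : ℕ} (T : CS D) (a : GG) : Measurable (fun ω => zi D (kz (T.z ω)) a) := by
  classical
  refine measurable_of_tendsto_metrizable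
    (f := fun n ω => ZtMeas_g (fun m => zt D (range m) (kz (T.z ω)) a) n)
    (fun n => ZtMeas_gm (fun m ω => zt D (range m) (kz (T.z ω)) a)
      (fun m => zt_meas T (range m) a) n) ?_
  rw [tendsto_pi_nhds]
  intro ω
  by_cases h : ∃ n : ℕ, zt D (range n) (kz (T.z ω)) a ≠ 0
  · have h1 : zi D (kz (T.z ω)) a = zt D (range (Nat.find h)) (kz (T.z ω)) a := by
      unfold zi
      rw [dif_pos h]
    refine tendsto_const_nhds.congr' ?_
    filter_upwards [eventually_ge_atTop (Nat.find h)] with n hn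
    rw [h1]
    refine (ZtMeas_g1 (fun m => zt D (range m) (kz (T.z ω)) a) (Nat.find h) ?_
      (Nat.find_spec h) n hn).symm
    intro m' hm'
    exact not_not.1 (Nat.find_min h hm')
  · have h1 : zi D (kz (T.z ω)) a = 0 := by
      unfold zi
      rw [dif_neg h]
    refine tendsto_const_nhds.congr' ?_
    filter_upwards with n
    rw [h1]
    refine (ZtMeas_g0 _ n ?_).symm
    intro m _
    by_contra h2
    exact h ⟨m, h2⟩

theorem psi_meas {D : ℕ} (Q : Polynomial ℤ) (T : CS D) (c : GG) :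
    Measurable (fun ω => psi D Q (kz (T.z ω)) c) := by
  unfold psi
  exact (Complex.measurable_ofReal.comp (zi_meas T _).norm).mul (zi_meas T _)

end Pool.Agent.Lib.MP_90b327_co.RS
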