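import Mathlib
import Pool.Agent.Lib.MP_90b327_co.RS.RDef
import Pool.Agent.Lib.MP_90b327_co.RS.ZtRel
import Pool.Agent.Lib.MP_90b327_co.RS.ZtMeas
import Pool.Agent.Lib.MP_90b327_co.RS.ClBr

/-!
MODULE ZtLaw (50 minutes, old scale). The law of the generated homomorphism is exchangeable.

PROOF. `kz (T.z ω) (mvc σ x) (mvc σ y) = T.z ω (mv σ (cl D x)) (mv σ (cl D y))` (`cl D (mvc σ x) = mv σ (cl D x)`: `cl_mem`, a row tuple `c` has range `A.image σ` iff `c = σ ∘ c'` with range of `c'` equal to `A`). By `zt_rel` (a.e., `hst`) the left vector is a.e. equal to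
`G (fun p : ↥(Pn D W) => T.z ω (mv σ (cl D p.1.1)) (mv σ (cl D p.1.2)))`, the right one is `G (fun p => T.z ω (cl D p.1.1) (cl D p.1.2))`, where `G : (↥(Pn D W) → ℂ) → (ι → ℂ)`, `G u i = zt D W (kernel of u) (a i)` depends only on the values on `Pn D W` (`zt` only uses `k` on `Pn D W`; kernel of `u`:
`k x y = if h : (x, y) ∈ Pn D W then u ⟨_, h⟩ else 0`). `G` is measurable (same proof as `zt_meas`, for kernels with measurable entries). `T.law` and `Measure.map_map`.
-/

set_option autoImplicit false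

namespace Pool.Agent.Lib.MP_90b327_co.RS

open Finset MeasureTheory Filter Pool.Agent.Lib.MP_90b327_co Pool.Agent.Lib.MP_90b327_co.RB
  Pool.Agent.Lib.MP_90b327_co.WW

open Classical in
/-- the value for a given set of unimodular pairs -/
private noncomputable def ztl_ZU (a : GG) (U : Finset (Cn × Cn)) (k : Cn → Cn → ℂ) : ℂ :=
  if h : ∃ m, Rp U a m then ∏ p ∈ U, k p.1 p.2 ^ (Classical.choose h p) else 0

private theorem ztl_eq {D : ℕ} (W : Finset ℕ) (k : Cn → Cn → ℂ) (a : GG) : zt D W k a = ztl_ZU a (Un D W k) k := rfl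

private theorem ztl_un_sub {D : ℕ} (W : Finset ℕ) (k : Cn → Cn → ℂ) : Un D W k ⊆ Pn D W := by
  unfold Un
  exact Finset.filter_subset _ _

private theorem ztl_un_iff {D : ℕ} (W : Finset ℕ) (k : Cn → Cn → ℂ) (p : Cn × Cn) :
    p ∈ Un D W k ↔ p ∈ Pn D W ∧ ‖k p.1 p.2‖ = 1 := by
  unfold Un
  rw [Finset.mem_filter]

private theorem ztl_congr {D : ℕ} (W : Finset ℕ) {k k' : Cn → Cn → ℂ} (h : ∀ p ∈ Pn D W, k p.1 p.2 = k' p.1 p.2) (a : GG) :
    zt D W k a = zt D W k' a := by
  have hU : Un D W k = Un D W k' := by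
    ext p
    rw [ztl_un_iff, ztl_un_iff]
    constructor
    · rintro ⟨h1, h2⟩
      exact ⟨h1, by rw [← h p h1]; exact h2⟩
    · rintro ⟨h1, h2⟩
      exact ⟨h1, by rw [h p h1]; exact h2⟩
  rw [ztl_eq, ztl_eq, hU]
  unfold ztl_ZU
  split_ifs with hh
  · refine Finset.prod_congr rfl fun p hp => ?_
    rw [h p (ztl_un_sub W k' hp)]
  · rfl

private theorem ztl_meas {D : ℕ} {Ω' : Type} [MeasurableSpace Ω'] (W : Finset ℕ) (k : Ω' → Cn → Cn → ℂ)
    (hk : ∀ x y, Measurable (fun ω => k ω x y)) (a : GG) : Measurable (fun ω => zt D W (k ω) a) := by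
  classical
  have e : (fun ω => zt D W (k ω) a) =
      fun ω => ∑ U ∈ (Pn D W).powerset, if Un D W (k ω) = U then ztl_ZU a U (k ω) else 0 := by
    funext ω
    rw [Finset.sum_ite_eq, if_pos (Finset.mem_powerset.2 (ztl_un_sub W (k ω))), ztl_eq]
  rw [e]
  refine Finset.measurable_sum _ fun U hU => ?_
  have hU' := Finset.mem_powerset.1 hU
  refine Measurable.ite ?_ ?_ measurable_const
  · have hs : {ω | Un D W (k ω) = U} = ⋂ p ∈ Pn D W, {ω | ‖k ω p.1 p.2‖ = 1 ↔ p ∈ U} := by
      ext ω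
      simp only [Set.mem_ofPred_eq, Set.mem_iInter]
      constructor
      · rintro rfl p hp
        rw [ztl_un_iff]
        exact ⟨fun h => ⟨hp, h⟩, fun h => h.2⟩
      · intro h
        ext p
        rw [ztl_un_iff]
        constructor
        · rintro ⟨h1, h2⟩
          exact (h p h1).1 h2
        · intro hp
          exact ⟨hU' hp, (h p (hU' hp)).2 hp⟩
    rw [hs]
    refine Finset.measurableSet_biInter _ fun p _ => ?_
    have hm : MeasurableSet {ω | ‖k ω p.1 p.2‖ = 1} :=
      measurableSet_eq_fun (hk p.1 p.2).norm measurable_const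
    by_cases hp : p ∈ U
    · have : {ω | ‖k ω p.1 p.2‖ = 1 ↔ p ∈ U} = {ω | ‖k ω p.1 p.2‖ = 1} := by
        ext ω
        simp [hp]
      rw [this]
      exact hm
    · have : {ω | ‖k ω p.1 p.2‖ = 1 ↔ p ∈ U} = {ω | ‖k ω p.1 p.2‖ = 1}ᶜ := by
        ext ω
        simp [hp]
      rw [this]
      exact hm.compl
  · unfold ztl_ZU
    split_ifs with hh
    · exact Finset.measurable_prod _ fun p _ => (hk p.1 p.2).pow_const _
    · exact measurable_const

private theorem ztl_cl {D : ℕ} {σ : ℕ → ℕ} (hσ : Function.Injective σ) (x : Cn) :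
    cl D (mvc σ x) = mv σ (cl D x) := by
  ext c
  rw [cl_mem]
  unfold mvc mv
  rw [Finset.mem_image, Finset.mem_image]
  constructor
  · rintro ⟨A, hA, hc⟩
    have h1 : ∀ i, ∃ v ∈ A, σ v = c i := by
      intro i
      have : c i ∈ A.image σ := by
        rw [hc]
        exact Finset.mem_image_of_mem c (Finset.mem_univ i)
      exact Finset.mem_image.1 this
    choose c' hc' hc'' using h1
    refine ⟨c', ?_, ?_⟩
    · rw [cl_mem]
      have : Finset.univ.image c' = A := by
        apply Finset.image_injective hσ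
        rw [hc, Finset.image_image]
        congr 1
        funext i
        exact hc'' i
      rw [this]
      exact hA
    · funext i
      exact hc'' i
  · rintro ⟨c', hc', rfl⟩
    refine ⟨Finset.univ.image c', (cl_mem x c').1 hc', ?_⟩
    rw [Finset.image_image]

open Classical in
/-- kernel with given values on `Pn D W` -/
private noncomputable def ztl_ker {D : ℕ} (W : Finset ℕ) (u : {p : Cn × Cn // p ∈ Pn D W} → ℂ) (x y : Cn) : ℂ :=
  if h : (x, y) ∈ Pn D W then u ⟨(x, y), h⟩ else 0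

theorem zt_law {D : ℕ} (T : CS D) (hst : StAE T) (σ : ℕ → ℕ) (hσ : Function.Injective σ)
    (W : Finset ℕ) (ι : Type) [Fintype ι] (a : ι → GG) :
    T.P.map (fun ω i => zt D (W.image σ) (kz (T.z ω)) (rel σ (a i))) =
      T.P.map (fun ω i => zt D W (kz (T.z ω)) (a i)) := by
  classical
  set vL : T.Ω → ({p : Cn × Cn // p ∈ Pn D W} → ℂ) := fun ω p =>
    T.z ω (mv σ (cl D p.1.1)) (mv σ (cl D p.1.2)) with hvL
  set vR : T.Ω → ({p : Cn × Cn // p ∈ Pn D W} → ℂ) := fun ω p =>
    T.z ω (cl D p.1.1) (cl D p.1.2) with hvR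
  set G : ({p : Cn × Cn // p ∈ Pn D W} → ℂ) → (ι → ℂ) := fun u i => zt D W (ztl_ker W u) (a i) with hG
  have hGm : Measurable G := by
    refine measurable_pi_lambda _ fun i => ztl_meas W _ (fun x y => ?_) (a i)
    unfold ztl_ker
    by_cases h : (x, y) ∈ Pn D W
    · simp only [h, dif_pos]
      exact measurable_pi_apply _
    · simp only [h, dif_neg, not_false_eq_true]
      exact measurable_const
  have hL : Measurable vL := measurable_pi_lambda _ fun p => T.meas _ _
  have hR : Measurable vR := measurable_pi_lambda _ fun p => T.meas _ _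
  have e1 : (fun ω i => zt D (W.image σ) (kz (T.z ω)) (rel σ (a i))) =ᵐ[T.P] (G ∘ vL) := by
    filter_upwards [hst] with ω hω
    funext i
    rw [zt_rel hω hσ W (a i)]
    refine ztl_congr W (fun p hp => ?_) (a i)
    unfold ztl_ker kz
    rw [dif_pos (show (p.1, p.2) ∈ Pn D W from hp), ztl_cl hσ, ztl_cl hσ]
  have e2 : (fun ω i => zt D W (kz (T.z ω)) (a i)) = G ∘ vR := by
    funext ω i
    refine ztl_congr W (fun p hp => ?_) (a i)
    unfold ztl_ker kz
    rw [dif_pos (show (p.1, p.2) ∈ Pn D W from hp)]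
  rw [Measure.map_congr e1, e2, ← Measure.map_map hGm hL, ← Measure.map_map hGm hR]
  rw [T.law {p : Cn × Cn // p ∈ Pn D W} (fun p => cl D p.1.1) (fun p => cl D p.1.2) σ hσ]

end Pool.Agent.Lib.MP_90b327_co.RS
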