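import Mathlib
import Pool.Agent.Lib.MP_90b327_co.RS.RDef
import Pool.Agent.Lib.MP_90b327_co.RS.ZtLaw
import Pool.Agent.Lib.MP_90b327_co.RS.ZiA
import Pool.Agent.Lib.MP_90b327_co.RS.ZtMeas

/-!
MODULE ZiLaw (50 minutes, old scale). Exchangeability of `phi` (text 10).

PROOF. `V₀` = all vertices of `a`, `b` (union of the elements of the supports); for all large `n`: `V₀ ∪ V₀.image σ ⊆ range n`, and there is a permutation `π` of `ℕ` with `π = σ` on `V₀` and `(range n).image π = range n` (extend the injection `V₀ → V₀.image σ` inside `range n`: the complements in `range n` have the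
same cardinality; identity outside `range n`; `Equiv.Perm` from `Fintype.card_compl...` or `Function.Embedding`/`Equiv.extendSubtype` on `Fin n`). Then `rel π a = rel σ a`, `rel π b = rel σ b` (`Finsupp.mapDomain_congr`). `zt_law` with `π`, `W = range n`, `ι = Fin 2` or `Bool`, and `integral_map` for the function
`u ↦ ‖u 0‖ * u 1`: `∫ ‖zt (range n) (rel σ a)‖ * zt (range n) (rel σ b) = ∫ ‖zt (range n) a‖ * zt (range n) b`. `n → ∞`: dominated convergence (`zi_tend` almost surely, norms `≤ 1` by `zt_pch`).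
-/

set_option autoImplicit false

namespace Pool.Agent.Lib.MP_90b327_co.RS

open Finset MeasureTheory Filter Pool.Agent.Lib.MP_90b327_co Pool.Agent.Lib.MP_90b327_co.RB
  Pool.Agent.Lib.MP_90b327_co.WW

/-- an injection of `ℕ` can be changed outside a finite set to preserve `range n` -/
private lemma zil_perm (σ : ℕ → ℕ) (hσ : Function.Injective σ) (V : Finset ℕ) (n : ℕ)
    (h1 : V ⊆ range n) (h2 : V.image σ ⊆ range n) :
    ∃ π : ℕ → ℕ, Function.Injective π ∧ (∀ x ∈ V, π x = σ x) ∧ (range n).image π = range n := by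
  classical
  have hc : Fintype.card (Fin n) = (range n).card := by simp
  have hfst : Finset.image (fun i : Fin n => σ (i : ℕ))
      ((Finset.univ : Finset (Fin n)).filter (fun i => (i : ℕ) ∈ V)) ⊆ range n := by
    intro y hy
    obtain ⟨i, hi, rfl⟩ := Finset.mem_image.1 hy
    exact h2 (Finset.mem_image_of_mem _ (Finset.mem_filter.1 hi).2)
  have hinj : Set.InjOn (fun i : Fin n => σ (i : ℕ))
      (((Finset.univ : Finset (Fin n)).filter (fun i => (i : ℕ) ∈ V) : Finset (Fin n)) :
        Set (Fin n)) := by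
    intro i _ j _ hij
    exact Fin.ext (hσ hij)
  obtain ⟨g, hg⟩ := Finset.exists_equiv_extend_of_card_eq hc hfst hinj
  refine ⟨fun x => if h : x < n then ((g ⟨x, h⟩ : ↥(range n)) : ℕ) else x, ?_, ?_, ?_⟩
  · intro x y hxy
    by_cases hx : x < n
    · by_cases hy : y < n
      · simp only [hx, hy, dif_pos] at hxy
        have := g.injective (Subtype.ext hxy)
        exact congrArg Fin.val this
      · simp only [hx, hy, dif_pos, dif_neg, not_false_eq_true] at hxy
        have := (g ⟨x, hx⟩).2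
        rw [hxy] at this
        exact absurd (Finset.mem_range.1 this) hy
    · by_cases hy : y < n
      · simp only [hx, hy, dif_pos, dif_neg, not_false_eq_true] at hxy
        have := (g ⟨y, hy⟩).2
        rw [← hxy] at this
        exact absurd (Finset.mem_range.1 this) hx
      · simp only [hx, hy, dif_neg, not_false_eq_true] at hxy
        exact hxy
  · intro x hx
    have hxn : x < n := Finset.mem_range.1 (h1 hx)
    simp only [hxn, dif_pos]
    exact hg ⟨x, hxn⟩ (Finset.mem_filter.2 ⟨Finset.mem_univ _, hx⟩)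
  · apply Finset.Subset.antisymm
    · intro y hy
      obtain ⟨x, hx, rfl⟩ := Finset.mem_image.1 hy
      have hxn : x < n := Finset.mem_range.1 hx
      simp only [hxn, dif_pos]
      exact (g ⟨x, hxn⟩).2
    · intro y hy
      refine Finset.mem_image.2 ⟨((g.symm ⟨y, hy⟩ : Fin n) : ℕ), Finset.mem_range.2 (Fin.is_lt _), ?_⟩
      simp

/-- relabellings which agree on the vertices -/
private lemma zil_rel (σ π : ℕ → ℕ) (V : Finset ℕ) (h : ∀ x ∈ V, π x = σ x) (a : GG)
    (ha : ∀ C ∈ a.support, C ⊆ V) : rel π a = rel σ a := by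
  classical
  unfold rel
  apply Finsupp.mapDomain_congr
  intro C hC
  exact Finset.image_congr (fun x hx => h x (ha C hC hx))

private lemma zil_step {D : ℕ} (T : CS D) (hst : StAE T) (σ : ℕ → ℕ) (hσ : Function.Injective σ)
    (W : Finset ℕ) (a b : GG) :
    ∫ ω, (‖zt D (W.image σ) (kz (T.z ω)) (rel σ a)‖ : ℂ) *
        zt D (W.image σ) (kz (T.z ω)) (rel σ b) ∂T.P =
      ∫ ω, (‖zt D W (kz (T.z ω)) a‖ : ℂ) * zt D W (kz (T.z ω)) b ∂T.P := by
  have hlaw := zt_law T hst σ hσ W (Fin 2) ![a, b]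
  have hc : Continuous (fun u : Fin 2 → ℂ => (‖u 0‖ : ℂ) * u 1) := by fun_prop
  have hm1 : Measurable (fun ω (i : Fin 2) =>
      zt D (W.image σ) (kz (T.z ω)) (rel σ ((![a, b] : Fin 2 → GG) i))) :=
    measurable_pi_lambda _ (fun i => zt_meas T _ _)
  have hm2 : Measurable (fun ω (i : Fin 2) =>
      zt D W (kz (T.z ω)) ((![a, b] : Fin 2 → GG) i)) :=
    measurable_pi_lambda _ (fun i => zt_meas T _ _)
  have e1 := integral_map (μ := T.P) hm1.aemeasurable
    (f := fun u : Fin 2 → ℂ => (‖u 0‖ : ℂ) * u 1) hc.aestronglyMeasurable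
  have e2 := integral_map (μ := T.P) hm2.aemeasurable
    (f := fun u : Fin 2 → ℂ => (‖u 0‖ : ℂ) * u 1) hc.aestronglyMeasurable
  rw [hlaw] at e1
  rw [e1] at e2
  simpa using e2

private lemma zil_norm {D : ℕ} {k : Cn → Cn → ℂ} (h : KS D k) (W : Finset ℕ) (a : GG) :
    ‖zt D W k a‖ ≤ 1 := by
  rcases (zt_pch h W).nrm a with h0 | h1
  · rw [h0]; simp
  · exact h1.le

private lemma zil_lim {D : ℕ} (T : CS D) (hst : StAE T) (a b : GG) :
    Tendsto (fun n : ℕ => ∫ ω, (‖zt D (range n) (kz (T.z ω)) a‖ : ℂ) *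
        zt D (range n) (kz (T.z ω)) b ∂T.P) atTop
      (nhds (∫ ω, (‖zi D (kz (T.z ω)) a‖ : ℂ) * zi D (kz (T.z ω)) b ∂T.P)) := by
  apply tendsto_integral_of_dominated_convergence (fun _ => (1 : ℝ))
  · intro n
    exact (((zt_meas T (range n) a).norm.complex_ofReal).mul
      (zt_meas T (range n) b)).aestronglyMeasurable
  · exact integrable_const _
  · intro n
    filter_upwards [hst] with ω hω
    rw [norm_mul, Complex.norm_real, norm_norm]
    exact mul_le_one₀ (zil_norm hω _ _) (norm_nonneg _) (zil_norm hω _ _)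
  · filter_upwards [hst] with ω hω
    have h1 := zi_tend hω a
    have h2 := zi_tend hω b
    exact ((Complex.continuous_ofReal.tendsto _).comp h1.norm).mul h2

theorem zi_law {D : ℕ} (T : CS D) (hst : StAE T) (σ : ℕ → ℕ) (hσ : Function.Injective σ)
    (a b : GG) :
    ∫ ω, (‖zi D (kz (T.z ω)) (rel σ a)‖ : ℂ) * zi D (kz (T.z ω)) (rel σ b) ∂T.P =
      ∫ ω, (‖zi D (kz (T.z ω)) a‖ : ℂ) * zi D (kz (T.z ω)) b ∂T.P := by
  classical
  have hL := zil_lim T hst (rel σ a) (rel σ b)
  have hR := zil_lim T hst a b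
  refine tendsto_nhds_unique hL (hR.congr' ?_)
  obtain ⟨V, hVa, hVb⟩ : ∃ V : Finset ℕ, (∀ C ∈ a.support, C ⊆ V) ∧ (∀ C ∈ b.support, C ⊆ V) := by
    refine ⟨(a.support ∪ b.support).biUnion id, ?_, ?_⟩
    · intro C hC x hx
      exact Finset.mem_biUnion.2 ⟨C, Finset.mem_union_left _ hC, hx⟩
    · intro C hC x hx
      exact Finset.mem_biUnion.2 ⟨C, Finset.mem_union_right _ hC, hx⟩
  obtain ⟨n0, hn0⟩ := (V ∪ V.image σ).exists_nat_subset_range
  filter_upwards [eventually_ge_atTop n0] with n hn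
  have hsub : V ∪ V.image σ ⊆ range n := hn0.trans (Finset.range_subset_range.2 hn)
  obtain ⟨π, hπ, hπV, hπn⟩ := zil_perm σ hσ V n (Finset.subset_union_left.trans hsub)
    (Finset.subset_union_right.trans hsub)
  have hs := zil_step T hst π hπ (range n) a b
  rw [hπn, zil_rel σ π V hπV a hVa, zil_rel σ π V hπV b hVb] at hs
  exact hs.symm

end Pool.Agent.Lib.MP_90b327_co.RS
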