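import Mathlib
import Pool.Agent.Lib.MP_90b327_co.RS.RDef
import Pool.Agent.Lib.MP_90b327_co.RS.PchPd
import Pool.Agent.Lib.MP_90b327_co.RS.ZiLaw
import Pool.Agent.Lib.MP_90b327_co.RS.ZtMeas

/-!
MODULE PhiEPD (40 minutes, old scale). `phi` is positive definite and exchangeable (text 10).

PROOF. `zero`, `neg`: pointwise a.e. (`psi_pch`) and `integral_conj`. `psd`: the sum of integrals is the integral of the sum (bounded measurable functions: `psi_meas`, norm `≤ 1`), a.e. `≥ 0` real part (`pch_psd`); `(∫ f).re = ∫ f.re` (`integral_re` / `reCLM`). `inv`: `la_rel`, `lb_rel`, `zi_law` with `a = la D c`, `b = lb D Q c`.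
-/

set_option autoImplicit false

namespace Pool.Agent.Lib.MP_90b327_co.RS

open Finset MeasureTheory Filter Pool.Agent.Lib.MP_90b327_co Pool.Agent.Lib.MP_90b327_co.RB
  Pool.Agent.Lib.MP_90b327_co.WW

private theorem PhiEPD_int {D : ℕ} (Q : Polynomial ℤ) (T : CS D) (hst : StAE T) (c : GG) :
    Integrable (fun ω => psi D Q (kz (T.z ω)) c) T.P := by
  refine Integrable.of_bound (psi_meas Q T c).aestronglyMeasurable 1 ?_
  filter_upwards [hst] with ω hω
  rcases (psi_pch Q hω).nrm c with h0 | h0
  · rw [h0, norm_zero]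
    exact zero_le_one
  · exact h0.le

theorem phi_epd {D : ℕ} (Q : Polynomial ℤ) (T : CS D) (hst : StAE T) : EPD (phi Q T) where
  zero := by
    unfold phi
    have h : (fun ω => psi D Q (kz (T.z ω)) 0) =ᵐ[T.P] fun _ => (1 : ℂ) := by
      filter_upwards [hst] with ω hω using (psi_pch Q hω).zero
    rw [integral_congr_ae h]
    simp
  neg := by
    intro a
    unfold phi
    have h : (fun ω => psi D Q (kz (T.z ω)) (-a)) =ᵐ[T.P]
        fun ω => (starRingEnd ℂ) (psi D Q (kz (T.z ω)) a) := by
      filter_upwards [hst] with ω hω using (psi_pch Q hω).neg a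
    rw [integral_congr_ae h, integral_conj]
  psd := by
    intro ι _ x c
    have hint : Integrable (fun ω => ∑ i, ∑ j, (starRingEnd ℂ) (c i) * c j *
        psi D Q (kz (T.z ω)) (x j - x i)) T.P :=
      integrable_finset_sum _ fun i _ => integrable_finset_sum _ fun j _ =>
        (PhiEPD_int Q T hst _).const_mul _
    have e : ∑ i, ∑ j, (starRingEnd ℂ) (c i) * c j * phi Q T (x j - x i) =
        ∫ ω, ∑ i, ∑ j, (starRingEnd ℂ) (c i) * c j * psi D Q (kz (T.z ω)) (x j - x i) ∂T.P := by
      rw [integral_finset_sum]
      · refine Finset.sum_congr rfl fun i _ => ?_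
        rw [integral_finset_sum]
        · refine Finset.sum_congr rfl fun j _ => ?_
          unfold phi
          rw [integral_const_mul]
        · intro j _
          exact (PhiEPD_int Q T hst _).const_mul _
      · intro i _
        exact integrable_finset_sum _ fun j _ => (PhiEPD_int Q T hst _).const_mul _
    rw [e]
    have e2 := Complex.reCLM.integral_comp_comm hint
    simp only [Complex.reCLM_apply] at e2
    rw [← e2]
    apply integral_nonneg_of_ae
    filter_upwards [hst] with ω hω
    exact pch_psd (psi_pch Q hω) ι x c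
  inv := by
    intro σ hσ a
    unfold phi psi
    rw [la_rel D hσ, lb_rel D Q hσ]
    exact zi_law T hst σ hσ (la D a) (lb D Q a)

end Pool.Agent.Lib.MP_90b327_co.RS
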