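import Mathlib
import Pool.Agent.Lib.MP_90b327_co.RS.RDef
import Pool.Agent.Lib.MP_90b327_co.RS.LatA
import Pool.Agent.Lib.MP_90b327_co.RS.PchPd
import Pool.Agent.Lib.MP_90b327_co.RS.ZtMeas
import Pool.Agent.Lib.MP_90b327_co.RS.AjA
import Pool.Agent.Lib.MP_90b327_co.RS.PhiEPD

/-!
MODULE EndP (60 minutes, old scale). Probability statement from `T(k)` (text 10).

PROOF. Let `f_ω j = psi D Q (kz (T.z ω)) (∑ t, j t • M • 1_(C t))`, a partial character of `ι → ℤ` almost surely (`psi_pch`, additive). `AJ J (phi Q T) (fun t => M • 1_(C t)) = ∫ AF J (f_ω)` (`af_int`; on the null set where `KS` fails one still has `‖psi‖ ≤ 1`? replace `f_ω` there by `0`, or use the a.e. equality of the integrals), so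
`c ≤ ∫ (AF J f_ω).re` for all `J ≥ 1`. Let `E = {ω | ∃ᶠ J, c/2 ≤ (AF J f_ω).re}` (measurable). As in `t1_t2`: `c ≤ P(E) + c/2 + ∫_{Eᶜ} ((AF J f_ω).re - c/2)⁺` and the last integral tends to `0` (dominated convergence), so `P(E) ≥ c/2`. On `E` (a.e.) `lat` with `c/2` gives for every `t` some `1 ≤ m ≤ 2/c` with `f_ω (m • e_t) = 1`, i.e.
`psi (m • M • 1_(C t)) = 1`; `m ∣ ⌊4/c⌋₊.factorial`, and `pch_pow`: `psi ((⌊4/c⌋! * M) • 1_(C t)) = 1`. (`Pi.single t 1` summed: `∑ s, (m • Pi.single t 1) s • x s = m • x t`.)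
-/

set_option autoImplicit false

namespace Pool.Agent.Lib.MP_90b327_co.RS

open Finset MeasureTheory Filter Pool.Agent.Lib.MP_90b327_co Pool.Agent.Lib.MP_90b327_co.RB
  Pool.Agent.Lib.MP_90b327_co.WW

private theorem zt_le (D : ℕ) (W : Finset ℕ) (k : Cn → Cn → ℂ) (a : GG) : ‖zt D W k a‖ ≤ 1 := by
  unfold zt
  split_ifs with h
  · rw [norm_prod]
    apply Finset.prod_le_one (fun _ _ => norm_nonneg _)
    intro p hp
    have h1 : ‖k p.1 p.2‖ = 1 := by
      unfold Un at hp
      exact (Finset.mem_filter.1 hp).2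
    rw [norm_zpow, h1, one_zpow]
  · simp

private theorem zi_le (D : ℕ) (k : Cn → Cn → ℂ) (a : GG) : ‖zi D k a‖ ≤ 1 := by
  unfold zi
  split_ifs with h
  · exact zt_le _ _ _ _
  · simp

private theorem psi_le (D : ℕ) (Q : Polynomial ℤ) (k : Cn → Cn → ℂ) (a : GG) : ‖psi D Q k a‖ ≤ 1 := by
  unfold psi
  rw [norm_mul, Complex.norm_real, norm_norm]
  exact mul_le_one₀ (zi_le _ _ _) (norm_nonneg _) (zi_le _ _ _)

private theorem freq_prob {Ω : Type} [MeasurableSpace Ω] (P : Measure Ω) [IsProbabilityMeasure P]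
    (X : ℕ → Ω → ℝ) (hX : ∀ J, Measurable (X J)) (hb : ∀ J ω, |X J ω| ≤ 1) (c : ℝ) (hc : 0 < c)
    (h : ∀ J : ℕ, 1 ≤ J → c ≤ ∫ ω, X J ω ∂P) :
    c / 2 ≤ P.real {ω | ∃ᶠ J in atTop, c / 2 ≤ X J ω} := by
  set E : Set Ω := {ω | ∃ᶠ J in atTop, c / 2 ≤ X J ω} with hE
  have hEm : MeasurableSet E := by
    have : E = ⋂ n : ℕ, ⋃ J : ℕ, ⋃ (_ : n ≤ J), {ω | c / 2 ≤ X J ω} := by
      ext ω
      simp only [hE, Set.mem_iInter, Set.mem_iUnion, Set.mem_ofPred_eq, Filter.frequently_atTop, exists_prop]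
    rw [this]
    exact MeasurableSet.iInter fun n => MeasurableSet.iUnion fun J => MeasurableSet.iUnion fun _ =>
      measurableSet_le measurable_const (hX J)
  set Y : ℕ → Ω → ℝ := fun J ω => Eᶜ.indicator (fun ω => max (X J ω - c / 2) 0) ω with hY
  have hYm : ∀ J, Measurable (Y J) := fun J => (((hX J).sub_const _).max measurable_const).indicator hEm.compl
  have hYb : ∀ J ω, ‖Y J ω‖ ≤ 1 := by
    intro J ω
    have h1 := (abs_le.1 (hb J ω)).2
    by_cases h2 : ω ∈ E
    · have : Y J ω = 0 := by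
        rw [hY]
        exact Set.indicator_of_notMem (show ω ∉ Eᶜ from fun h3 => h3 h2) _
      rw [this]
      simp
    · have : Y J ω = max (X J ω - c / 2) 0 := by
        rw [hY]
        exact Set.indicator_of_mem (show ω ∈ Eᶜ from h2) _
      rw [this, Real.norm_eq_abs, abs_of_nonneg (le_max_right _ _)]
      exact max_le (by linarith) (by norm_num)
  have hYt : Tendsto (fun J => ∫ ω, Y J ω ∂P) atTop (nhds (∫ _, (0 : ℝ) ∂P)) := by
    refine tendsto_integral_of_dominated_convergence (fun _ => 1) (fun J => (hYm J).aestronglyMeasurable)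
      (integrable_const _) (fun J => Filter.Eventually.of_forall (hYb J)) (Filter.Eventually.of_forall fun ω => ?_)
    by_cases h1 : ω ∈ E
    · have : ∀ J, Y J ω = 0 := by
        intro J
        rw [hY]
        exact Set.indicator_of_notMem (show ω ∉ Eᶜ from fun h2 => h2 h1) _
      simp only [this]
      exact tendsto_const_nhds
    · have h2 : ∀ᶠ J in atTop, ¬ c / 2 ≤ X J ω := Filter.not_frequently.1 h1
      refine tendsto_const_nhds.congr' ?_
      filter_upwards [h2] with J hJ
      rw [hY]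
      simp only
      rw [Set.indicator_of_mem (show ω ∈ Eᶜ from h1)]
      rw [max_eq_right]
      linarith
  rw [integral_zero] at hYt
  have hle : ∀ J : ℕ, 1 ≤ J → c ≤ P.real E + c / 2 + ∫ ω, Y J ω ∂P := by
    intro J hJ
    have hiY : Integrable (Y J) P := Integrable.of_bound (hYm J).aestronglyMeasurable 1
      (Filter.Eventually.of_forall (hYb J))
    have hiX : Integrable (X J) P := Integrable.of_bound (hX J).aestronglyMeasurable 1
      (Filter.Eventually.of_forall (hb J))
    have hiE : Integrable (E.indicator (fun _ => (1 : ℝ))) P := (integrable_const _).indicator hEm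
    have hiE2 : Integrable (fun ω => E.indicator (fun _ => (1 : ℝ)) ω + c / 2) P :=
      hiE.add (integrable_const _)
    have h1 : ∫ ω, X J ω ∂P ≤ ∫ ω, ((E.indicator (fun _ => (1 : ℝ)) ω + c / 2) + Y J ω) ∂P := by
      apply integral_mono hiX (hiE2.add hiY)
      intro ω
      show X J ω ≤ (E.indicator (fun _ => (1 : ℝ)) ω + c / 2) + Y J ω
      have h1 := (abs_le.1 (hb J ω)).2
      by_cases h2 : ω ∈ E
      · rw [Set.indicator_of_mem h2]
        have : Y J ω = 0 := by
          rw [hY]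
          exact Set.indicator_of_notMem (show ω ∉ Eᶜ from fun h3 => h3 h2) _
        rw [this]
        linarith
      · rw [Set.indicator_of_notMem h2]
        have : Y J ω = max (X J ω - c / 2) 0 := by
          rw [hY]
          exact Set.indicator_of_mem (show ω ∈ Eᶜ from h2) _
        rw [this]
        have := le_max_left (X J ω - c / 2) 0
        linarith
    have h2 : ∫ ω, ((E.indicator (fun _ => (1 : ℝ)) ω + c / 2) + Y J ω) ∂P = P.real E + c / 2 + ∫ ω, Y J ω ∂P := by
      rw [integral_add hiE2 hiY, integral_add hiE (integrable_const _),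
        integral_indicator_const _ hEm, integral_const, probReal_univ, smul_eq_mul, mul_one, one_smul]
    linarith [h J hJ]
  have h3 : Tendsto (fun J => P.real E + c / 2 + ∫ ω, Y J ω ∂P) atTop (nhds (P.real E + c / 2 + 0)) :=
    hYt.const_add _
  have h4 : c ≤ P.real E + c / 2 + 0 := by
    refine ge_of_tendsto h3 ?_
    filter_upwards [Filter.eventually_ge_atTop 1] with J hJ
    exact hle J hJ
  linarith

private theorem pch_comp {G H : Type} [AddCommGroup G] [AddCommGroup H] {f : G → ℂ} (hf : PCh f)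
    (L : H → G) (h0 : L 0 = 0) (hn : ∀ a, L (-a) = - L a) (ha : ∀ a b, L (a + b) = L a + L b) :
    PCh (fun a => f (L a)) where
  zero := by
    show f (L 0) = 1
    rw [h0]; exact hf.zero
  neg a := by
    show f (L (-a)) = _
    rw [hn]; exact hf.neg _
  nrm a := hf.nrm _
  add a b h1 h2 := by
    show f (L (a + b)) = _
    rw [ha]; exact hf.add _ _ h1 h2

theorem end_p {D : ℕ} (Q : Polynomial ℤ) (T : CS D) (hst : StAE T) (M : ℕ) (c : ℝ) (hc : 0 < c)
    (ι : Type) [Fintype ι] (C : ι → Finset ℕ)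
    (h : ∀ J : ℕ, 1 ≤ J → c ≤ (AJ J (phi Q T) (fun t => (M : ℤ) • Finsupp.single (C t) 1)).re) :
    c / 2 ≤ T.P.real {ω | ∀ t, psi D Q (kz (T.z ω))
      (((⌊4 / c⌋₊.factorial * M : ℕ) : ℤ) • Finsupp.single (C t) 1) = 1} := by
  classical
  set a : ι → GG := fun t => (M : ℤ) • Finsupp.single (C t) 1 with ha
  set f : T.Ω → (ι → ℤ) → ℂ := fun ω j => psi D Q (kz (T.z ω)) (∑ t, j t • a t) with hf
  have hfm : ∀ j, Measurable (fun ω => f ω j) := fun j => psi_meas Q T _
  have hfb : ∀ ω j, ‖f ω j‖ ≤ 1 := fun ω j => psi_le _ _ _ _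
  have hAJ : ∀ J, AJ J (phi Q T) a = ∫ ω, AF J (f ω) ∂T.P := fun J => af_int T.P J f hfm hfb
  have hAFm : ∀ J, Measurable (fun ω => AF J (f ω)) := by
    intro J
    unfold AF
    exact (Finset.measurable_fun_sum _ fun p _ => Finset.measurable_fun_sum _ fun q _ => hfm _).div_const _
  have hAFb : ∀ J ω, ‖AF J (f ω)‖ ≤ 1 := fun J ω => af_norm J (f ω) (hfb ω)
  have hAFi : ∀ J, Integrable (fun ω => AF J (f ω)) T.P := fun J =>
    Integrable.of_bound (hAFm J).aestronglyMeasurable 1 (Filter.Eventually.of_forall (hAFb J))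
  have hE := freq_prob T.P (fun J ω => (AF J (f ω)).re) (fun J => Complex.measurable_re.comp (hAFm J))
    (fun J ω => (Complex.abs_re_le_norm _).trans (hAFb J ω)) c hc (by
      intro J hJ
      have h1 := h J hJ
      rw [hAJ J] at h1
      have h2 : (∫ ω, AF J (f ω) ∂T.P).re = ∫ ω, (AF J (f ω)).re ∂T.P := by
        have := integral_re (hAFi J)
        exact this.symm
      rw [h2] at h1
      exact h1)
  refine hE.trans ?_
  have hsub : {ω | ∃ᶠ J in atTop, c / 2 ≤ (AF J (f ω)).re} ≤ᵐ[T.P] {ω | ∀ t, psi D Q (kz (T.z ω))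
      (((⌊4 / c⌋₊.factorial * M : ℕ) : ℤ) • Finsupp.single (C t) 1) = 1} := by
    filter_upwards [hst] with ω hω hωE t
    have hp := psi_pch Q hω
    have hpf : PCh (f ω) := by
      refine pch_comp hp (fun j : ι → ℤ => ∑ t, j t • a t) ?_ ?_ ?_
      · simp
      · intro j
        simp
      · intro j j'
        simp only [Pi.add_apply, add_smul, Finset.sum_add_distrib]
    obtain ⟨m, hm1, hm2, hm3⟩ := lat hpf t (c / 2) (by positivity) hωE
    have e1 : ∑ s, ((m : ℤ) • (Pi.single t 1 : ι → ℤ)) s • a s = m • a t := by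
      rw [Finset.sum_eq_single t]
      · simp
      · intro s _ hs
        simp [Pi.single_eq_of_ne hs]
      · intro h1
        exact absurd (Finset.mem_univ t) h1
    have e2 : psi D Q (kz (T.z ω)) (m • a t) = 1 := by
      rw [← e1]
      exact hm3
    have hm4 : m ≤ ⌊4 / c⌋₊ := by
      apply Nat.le_floor
      refine hm2.trans ?_
      rw [one_div_div]
      apply div_le_div_of_nonneg_right (by norm_num) hc.le
    obtain ⟨q, hq⟩ := Nat.dvd_factorial hm1 hm4
    have e3 : (((⌊4 / c⌋₊.factorial * M : ℕ) : ℤ) • Finsupp.single (C t) 1 : GG) = q • (m • a t) := by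
      rw [hq, ha]
      push_cast
      simp only [← natCast_zsmul, smul_smul]
      congr 1
      ring
    rw [e3, pch_pow hp _ (by rw [e2]; exact one_ne_zero), e2, one_pow]
  exact ENNReal.toReal_mono (measure_ne_top _ _) (measure_mono_ae hsub)

end Pool.Agent.Lib.MP_90b327_co.RS
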