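import Mathlib
import Pool.Agent.Lib.MP_90b327_co.RS.RDef
import Pool.Agent.Lib.MP_90b327_co.RS.PdA

/-!
MODULE Avg2 (40 minutes, old scale). Averaging over disjoint copies (text 8.4).

PROOF. `pd_cs` with `ι = Fin l × Fin R`, points `x i r`, coefficients `1/(l R)`: `‖(1/l) ∑ u i‖² ≤ (1/(l R)²) ∑_{(i,r),(j,r')} Re φ (x j r' - x i r)`. For `(i, r) ≠ (j, r')` the term is `v i j`, for equal pairs it is `1 = v i i + (1 - v i i)` with `1 - v i i ≤ 2`. So the right side is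
`≤ (1/l²) ∑ v i j + 2 l R / (l R)² `. `R → ∞`. (`v i i` is a value of `Re φ` if there are two copies, so `|v i i| ≤ 1`.)
-/

set_option autoImplicit false

namespace Pool.Agent.Lib.MP_90b327_co.RS

open Finset MeasureTheory Filter Pool.Agent.Lib.MP_90b327_co Pool.Agent.Lib.MP_90b327_co.RB
  Pool.Agent.Lib.MP_90b327_co.WW

/-- the inequality with `R` copies -/
theorem avg_two_aux {φ : GG → ℂ} (h : PD φ) (l : ℕ) (hl : 1 ≤ l) (x : ℕ → ℕ → GG) (y : GG)
    (u : ℕ → ℂ) (v : ℕ → ℕ → ℝ) (hu : ∀ i r, i < l → φ (x i r - y) = u i)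
    (hv : ∀ i j r r', i < l → j < l → (i, r) ≠ (j, r') → (φ (x j r' - x i r)).re = v i j)
    (R : ℕ) (hR : 1 ≤ R) :
    ‖(∑ i ∈ range l, u i) / l‖ ^ 2 ≤ (∑ i ∈ range l, ∑ j ∈ range l, v i j) / (l : ℝ) ^ 2 +
      2 / R := by
  have hl0 : (0 : ℝ) < l := by exact_mod_cast hl
  have hR0 : (0 : ℝ) < R := by exact_mod_cast hR
  have h1 := pd_cs h (Fin l × Fin R) (fun p => x p.1 p.2) (fun _ => ((1 / (l * R) : ℝ) : ℂ)) y
  -- left side
  have e1 : ∑ p : Fin l × Fin R, ((1 / (l * R) : ℝ) : ℂ) * φ (x p.1 p.2 - y) =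
      (∑ i ∈ range l, u i) / l := by
    have : ∀ p : Fin l × Fin R, ((1 / (l * R) : ℝ) : ℂ) * φ (x p.1 p.2 - y) =
        ((1 / (l * R) : ℝ) : ℂ) * u p.1 := fun p => by rw [hu _ _ p.1.2]
    rw [Finset.sum_congr rfl (fun p _ => this p), ← Finset.mul_sum, Fintype.sum_prod_type]
    simp only [Finset.sum_const, Finset.card_univ, Fintype.card_fin, nsmul_eq_mul]
    rw [← Finset.mul_sum, ← Fin.sum_univ_eq_sum_range (fun i => u i) l]
    have hl1 : (l : ℂ) ≠ 0 := by exact_mod_cast hl0.ne'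
    have hR1 : (R : ℂ) ≠ 0 := by exact_mod_cast hR0.ne'
    push_cast
    field_simp
  rw [e1] at h1
  refine h1.trans ?_
  -- right side
  have e2 : (∑ p : Fin l × Fin R, ∑ q : Fin l × Fin R,
      (starRingEnd ℂ) ((1 / (l * R) : ℝ) : ℂ) * ((1 / (l * R) : ℝ) : ℂ) *
        φ (x q.1 q.2 - x p.1 p.2)).re =
      (1 / (l * R) ^ 2 : ℝ) * ∑ p : Fin l × Fin R, ∑ q : Fin l × Fin R,
        (φ (x q.1 q.2 - x p.1 p.2)).re := by
    rw [Complex.re_sum, Finset.mul_sum]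
    refine Finset.sum_congr rfl (fun p _ => ?_)
    rw [Complex.re_sum, Finset.mul_sum]
    refine Finset.sum_congr rfl (fun q _ => ?_)
    rw [Complex.conj_ofReal, ← Complex.ofReal_mul, Complex.re_ofReal_mul]
    congr 1
    field_simp
  rw [e2]
  -- the values of `v` on the diagonal
  have hvd : ∀ i : Fin l, -1 ≤ v i i := by
    intro i
    rw [← hv i i 0 1 i.2 i.2 (by simp)]
    have := Complex.abs_re_le_norm (φ (x i 1 - x i 0))
    have h2 := pd_norm h (x i 1 - x i 0)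
    have h3 := abs_le.1 (this.trans h2)
    exact h3.1
  have e3 : ∀ p q : Fin l × Fin R, (φ (x q.1 q.2 - x p.1 p.2)).re ≤
      v p.1 q.1 + if p = q then 2 else 0 := by
    intro p q
    by_cases hpq : p = q
    · subst hpq
      have := hvd p.1
      simp only [sub_self, h.zero, if_true, Complex.one_re]
      linarith
    · rw [if_neg hpq, add_zero, hv p.1 q.1 p.2 q.2 p.1.2 q.1.2]
      intro hh
      apply hpq
      rw [Prod.mk.injEq] at hh
      exact Prod.ext (Fin.ext hh.1) (Fin.ext hh.2)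
  have e4 : ∑ p : Fin l × Fin R, ∑ q : Fin l × Fin R, (φ (x q.1 q.2 - x p.1 p.2)).re ≤
      (R : ℝ) ^ 2 * (∑ i ∈ range l, ∑ j ∈ range l, v i j) + 2 * (l * R) := by
    have a1 : ∑ p : Fin l × Fin R, ∑ q : Fin l × Fin R, (φ (x q.1 q.2 - x p.1 p.2)).re ≤
        ∑ p : Fin l × Fin R, ∑ q : Fin l × Fin R, (v p.1 q.1 + if p = q then 2 else 0) :=
      Finset.sum_le_sum (fun p _ => Finset.sum_le_sum (fun q _ => e3 p q))
    refine a1.trans (le_of_eq ?_)
    simp only [Finset.sum_add_distrib]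
    congr 1
    · rw [Fintype.sum_prod_type]
      simp only [Fintype.sum_prod_type, Finset.sum_const, Finset.card_univ, Fintype.card_fin,
        nsmul_eq_mul]
      rw [← Finset.mul_sum, ← Fin.sum_univ_eq_sum_range (fun i => ∑ j ∈ range l, v i j) l]
      have : ∀ i : Fin l, ∑ j : Fin l, (R : ℝ) * v i j = R * ∑ j ∈ range l, v i j := by
        intro i
        rw [← Finset.mul_sum, Fin.sum_univ_eq_sum_range (fun j => v i j) l]
      rw [Finset.sum_congr rfl (fun i _ => this i), ← Finset.mul_sum]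
      ring
    · simp
      ring
  calc (1 / (l * R) ^ 2 : ℝ) * ∑ p : Fin l × Fin R, ∑ q : Fin l × Fin R,
        (φ (x q.1 q.2 - x p.1 p.2)).re
      ≤ (1 / (l * R) ^ 2 : ℝ) * ((R : ℝ) ^ 2 * (∑ i ∈ range l, ∑ j ∈ range l, v i j) +
          2 * (l * R)) := mul_le_mul_of_nonneg_left e4 (by positivity)
    _ = (∑ i ∈ range l, ∑ j ∈ range l, v i j) / (l : ℝ) ^ 2 + 2 / (l * R) := by
        field_simp
    _ ≤ (∑ i ∈ range l, ∑ j ∈ range l, v i j) / (l : ℝ) ^ 2 + 2 / R := by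
        have : (1 : ℝ) ≤ l := by exact_mod_cast hl
        have : (2 : ℝ) / (l * R) ≤ 2 / R := by
          apply div_le_div_of_nonneg_left (by norm_num) hR0
          nlinarith
        linarith

theorem avg_two {φ : GG → ℂ} (h : PD φ) (l : ℕ) (hl : 1 ≤ l) (x : ℕ → ℕ → GG) (y : GG)
    (u : ℕ → ℂ) (v : ℕ → ℕ → ℝ) (hu : ∀ i r, i < l → φ (x i r - y) = u i)
    (hv : ∀ i j r r', i < l → j < l → (i, r) ≠ (j, r') → (φ (x j r' - x i r)).re = v i j) :
    ‖(∑ i ∈ range l, u i) / l‖ ^ 2 ≤ (∑ i ∈ range l, ∑ j ∈ range l, v i j) / (l : ℝ) ^ 2 := by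
  have h1 := avg_two_aux h l hl x y u v hu hv
  have h2 : Tendsto (fun R : ℕ => (∑ i ∈ range l, ∑ j ∈ range l, v i j) / (l : ℝ) ^ 2 +
      2 / (R : ℝ)) atTop (nhds ((∑ i ∈ range l, ∑ j ∈ range l, v i j) / (l : ℝ) ^ 2 + 0)) :=
    tendsto_const_nhds.add (tendsto_const_div_atTop_nhds_zero_nat 2)
  rw [add_zero] at h2
  refine ge_of_tendsto h2 ?_
  filter_upwards [eventually_ge_atTop 1] with R hR
  exact h1 R hR

end Pool.Agent.Lib.MP_90b327_co.RS
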