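import Mathlib
import Pool.Agent.Lib.MP_90b327_co.RS.RDef
import Pool.Agent.Lib.MP_90b327_co.RS.ZtRel
import Pool.Agent.Lib.MP_90b327_co.WW.ExInj
import Pool.Agent.Lib.MP_90b327_co.RS.LaLb

/-!
MODULE ExcA (45 minutes, old scale). Exchangeability for sums of blocks.

These are the forms of exchangeability used below. PROOF. `exc_one`: an injection `σ` with `u.image σ = v` (`exists_inj`, `B = ∅`, `κ = Unit`), `rel_ag`. `exc_two`: `u`, `v` disjoint, `u'`, `v'` disjoint with the same cardinalities and a common set `s`, disjoint from all: `exists_inj` with `B = s`, `κ = Bool`, the unions `u ∪ s` etc. are mapped onto each other.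
`exc_fix`: `hh` lives on `R ∪ V'` (see `Sup`), `V'` is fixed pointwise by `σ`: only `rel` of `hh` changes.
-/

set_option autoImplicit false

namespace Pool.Agent.Lib.MP_90b327_co.RS

open Finset MeasureTheory Filter Pool.Agent.Lib.MP_90b327_co Pool.Agent.Lib.MP_90b327_co.RB
  Pool.Agent.Lib.MP_90b327_co.WW

theorem exc_one {φ : GG → ℂ} (h : EPD φ) (k : ℕ) (u v : Finset ℕ) (hc : u.card = v.card) :
    φ (ag k u) = φ (ag k v) := by
  obtain ⟨σ, hσ, -, h2⟩ := exists_inj Unit ∅ (fun _ => u) (fun _ => v)
    (fun j j' hj => absurd (Subsingleton.elim j j') hj)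
    (fun j j' hj => absurd (Subsingleton.elim j j') hj)
    (fun _ => Finset.disjoint_empty_right _) (fun _ => Finset.disjoint_empty_right _)
    (fun _ => hc)
  have h3 : u.image σ = v := h2 ()
  rw [← h3, ← rel_ag hσ, h.inv σ hσ]

theorem exc_two {φ : GG → ℂ} (h : EPD φ) (k : ℕ) (s u v u' v' : Finset ℕ) (huv : Disjoint u v)
    (huv' : Disjoint u' v') (hus : Disjoint u s) (hvs : Disjoint v s) (hus' : Disjoint u' s)
    (hvs' : Disjoint v' s) (hu : u.card = u'.card) (hv : v.card = v'.card) :
    φ (ag k (u ∪ s) - ag k (v ∪ s)) = φ (ag k (u' ∪ s) - ag k (v' ∪ s)) := by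
  obtain ⟨σ, hσ, h1, h2⟩ := exists_inj Bool s (fun b => if b = true then u else v)
    (fun b => if b = true then u' else v')
    (by
      intro j j' hj
      cases j <;> cases j' <;> simp_all [disjoint_comm])
    (by
      intro j j' hj
      cases j <;> cases j' <;> simp_all [disjoint_comm])
    (by
      intro j
      cases j <;> simp_all)
    (by
      intro j
      cases j <;> simp_all)
    (by
      intro j
      cases j <;> simp_all)
  have h3 : u.image σ = u' := by simpa using h2 true
  have h4 : v.image σ = v' := by simpa using h2 false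
  have h5 : s.image σ = s := by
    ext x
    rw [Finset.mem_image]
    constructor
    · rintro ⟨y, hy, rfl⟩
      rw [h1 y hy]
      exact hy
    · intro hx
      exact ⟨x, hx, h1 x hx⟩
  have h6 : (u ∪ s).image σ = u' ∪ s := by rw [Finset.image_union, h3, h5]
  have h7 : (v ∪ s).image σ = v' ∪ s := by rw [Finset.image_union, h4, h5]
  have h8 : rel σ (ag k (u ∪ s) - ag k (v ∪ s)) = ag k (u' ∪ s) - ag k (v' ∪ s) := by
    rw [← h6, ← h7, ← rel_ag hσ, ← rel_ag hσ]
    exact map_sub (Finsupp.mapDomain.addMonoidHom (fun C : Finset ℕ => C.image σ)) _ _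
  rw [← h8, h.inv σ hσ]

theorem rel_sub (σ : ℕ → ℕ) (a b : GG) : rel σ (a - b) = rel σ a - rel σ b :=
  map_sub (Finsupp.mapDomain.addMonoidHom (fun C : Finset ℕ => C.image σ)) a b

theorem rel_sup {σ : ℕ → ℕ} (a : GG) (V : Finset ℕ) (ha : Sup a V) : Sup (rel σ a) (V.image σ) := by
  classical
  intro C hC
  have h1 := Finsupp.mapDomain_support hC
  rw [Finset.mem_image] at h1
  obtain ⟨C', hC', rfl⟩ := h1
  exact Finset.image_subset_image (ha C' hC')

theorem rel_congr {σ τ : ℕ → ℕ} (a : GG) (V : Finset ℕ) (ha : Sup a V) (h : ∀ v ∈ V, σ v = τ v) :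
    rel σ a = rel τ a := by
  unfold rel
  apply Finsupp.mapDomain_congr
  intro C hC
  apply Finset.image_congr
  intro x hx
  exact h x (ha C hC hx)

theorem rel_comp (σ τ : ℕ → ℕ) (a : GG) : rel σ (rel τ a) = rel (σ ∘ τ) a := by
  unfold rel
  rw [← Finsupp.mapDomain_comp]
  congr 1
  funext C
  exact Finset.image_image

theorem ag_sup (k : ℕ) (g : Finset ℕ) : Sup (ag k g) g := by
  classical
  intro C hC
  unfold ag at hC
  have h1 := Finsupp.support_finsetSum hC
  rw [Finset.mem_biUnion] at h1
  obtain ⟨C', hC', h2⟩ := h1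
  have h3 := Finsupp.support_single_subset h2
  rw [Finset.mem_singleton] at h3
  rw [h3]
  exact Finset.mem_powerset.1 (Finset.mem_filter.1 hC').1

end Pool.Agent.Lib.MP_90b327_co.RS
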