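import Mathlib
import Pool.Agent.Lib.MP_90b327_co.RS.RDef
import Pool.Agent.Lib.MP_90b327_co.RS.Avg2
import Pool.Agent.Lib.MP_90b327_co.RS.ExcA

/-!
MODULE MmYy (35 minutes, old scale). `|m|² ≤ Y` (text 8.4).

PROOF. `avg_two` with `x i r = ag k (b i r)`, `b i r` pairwise disjoint sets (for different `(i, r)`) with `N (i + 1)` elements (e.g. `(range (N (i+1))).image (fun x => Nat.pair i (Nat.pair r x))`.. or any injective coding), `y = 0`, `u i = φ (ag k (range (N (i+1))))` (`exc_one`), `v i j = (φ (ag k (evn (N (i+1))) - ag k (odn (N (j+1))))).re`: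
`exc_two` with `s = ∅` (`(φ (x j r' - x i r)).re = (φ (x i r - x j r')).re` by `neg`).
-/

set_option autoImplicit false

namespace Pool.Agent.Lib.MP_90b327_co.RS

open Finset MeasureTheory Filter Pool.Agent.Lib.MP_90b327_co Pool.Agent.Lib.MP_90b327_co.RB
  Pool.Agent.Lib.MP_90b327_co.WW

private def mmyy_b (N i r : ℕ) : Finset ℕ :=
  (range (N * (i + 1))).image (fun x => Nat.pair (Nat.pair i r) x)

private theorem mmyy_inj (i r : ℕ) : Function.Injective (fun x => Nat.pair (Nat.pair i r) x) := by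
  intro a b h
  have := Nat.pair_eq_pair.1 h
  exact this.2

private theorem mmyy_card (N i r : ℕ) : (mmyy_b N i r).card = N * (i + 1) := by
  unfold mmyy_b
  rw [Finset.card_image_of_injective _ (mmyy_inj i r), Finset.card_range]

private theorem mmyy_disj (N : ℕ) {i r j r' : ℕ} (h : (i, r) ≠ (j, r')) :
    Disjoint (mmyy_b N i r) (mmyy_b N j r') := by
  rw [Finset.disjoint_left]
  intro x hx hx'
  unfold mmyy_b at hx hx'
  rw [Finset.mem_image] at hx hx'
  obtain ⟨a, _, rfl⟩ := hx
  obtain ⟨b, _, hb⟩ := hx'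
  have h1 := (Nat.pair_eq_pair.1 hb).1
  have h2 := Nat.pair_eq_pair.1 h1
  exact h (by rw [h2.1, h2.2])

private theorem mmyy_evn (n : ℕ) : (evn n).card = n := by
  unfold evn
  rw [Finset.card_image_of_injective _ (fun a b h => by simpa using h), Finset.card_range]

private theorem mmyy_odn (n : ℕ) : (odn n).card = n := by
  unfold odn
  rw [Finset.card_image_of_injective _ (fun a b h => by simpa using h), Finset.card_range]

private theorem mmyy_eo (n m : ℕ) : Disjoint (evn n) (odn m) := by
  rw [Finset.disjoint_left]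
  intro x hx hx'
  unfold evn at hx
  unfold odn at hx'
  rw [Finset.mem_image] at hx hx'
  obtain ⟨a, _, ha⟩ := hx
  obtain ⟨b, _, hb⟩ := hx'
  omega

theorem mm_yy {φ : GG → ℂ} (h : EPD φ) (k N l : ℕ) (hl : 1 ≤ l) :
    ‖mm k N l φ‖ ^ 2 ≤ YY k N l φ := by
  have key := avg_two h.toPD l hl (fun i r => ag k (mmyy_b N i r)) 0
    (fun i => φ (ag k (range (N * (i + 1)))))
    (fun i j => (φ (ag k (evn (N * (i + 1))) - ag k (odn (N * (j + 1))))).re)
    (fun i r _ => by
      rw [sub_zero]
      exact exc_one h k _ _ (by rw [mmyy_card, Finset.card_range]))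
    (fun i j r r' _ _ hne => by
      have h1 : (φ (ag k (mmyy_b N j r') - ag k (mmyy_b N i r))).re =
          (φ (ag k (mmyy_b N i r) - ag k (mmyy_b N j r'))).re := by
        rw [← neg_sub (ag k (mmyy_b N i r)), h.neg, Complex.conj_re]
      rw [h1]
      have h2 := exc_two h k ∅ (mmyy_b N i r) (mmyy_b N j r') (evn (N * (i + 1)))
        (odn (N * (j + 1))) (mmyy_disj N hne) (mmyy_eo _ _) (Finset.disjoint_empty_right _)
        (Finset.disjoint_empty_right _) (Finset.disjoint_empty_right _)
        (Finset.disjoint_empty_right _) (by rw [mmyy_card, mmyy_evn])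
        (by rw [mmyy_card, mmyy_odn])
      rw [Finset.union_empty, Finset.union_empty, Finset.union_empty, Finset.union_empty] at h2
      rw [h2])
  exact key

private theorem mmyy_re {φ : GG → ℂ} (h : PD φ) (a : GG) : (φ a).re ≤ 1 := by
  have h1 := h.psd (Fin 2) ![0, a] ![1, -1]
  simp only [Fin.sum_univ_two, Matrix.cons_val_zero, Matrix.cons_val_one, map_one, map_neg,
    sub_self, sub_zero, zero_sub, h.zero, h.neg, one_mul, mul_one, neg_mul, mul_neg, neg_neg,
    Complex.add_re, Complex.neg_re, Complex.one_re, Complex.conj_re] at h1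
  linarith

theorem yy_le {φ : GG → ℂ} (h : EPD φ) (k N l : ℕ) : YY k N l φ ≤ 1 := by
  unfold YY
  rcases Nat.eq_zero_or_pos l with rfl | hl
  · simp
  have hl0 : (0 : ℝ) < (l : ℝ) ^ 2 := by positivity
  rw [div_le_one hl0]
  calc ∑ i ∈ range l, ∑ j ∈ range l,
        (φ (ag k (evn (N * (i + 1))) - ag k (odn (N * (j + 1))))).re ≤
      ∑ i ∈ range l, ∑ j ∈ range l, (1 : ℝ) :=
        Finset.sum_le_sum fun i _ => Finset.sum_le_sum fun j _ => mmyy_re h.toPD _
    _ = (l : ℝ) ^ 2 := by
      simp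
      ring

end Pool.Agent.Lib.MP_90b327_co.RS
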