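import Mathlib
import Pool.Agent.Lib.MP_90b327_co.RS.RDef
import Pool.Agent.Lib.MP_90b327_co.RS.PdA
import Pool.Agent.Lib.MP_90b327_co.RS.ExcA

/-!
MODULE Base (35 minutes, old scale). `T(0)` and `T(1)` (text 9).

PROOF. `T1 0`: `C` non-empty with `card ≤ 0` is impossible; `M = 1`. `T1 1`: `M = N`. `ag 1 (range n) = 1_∅ + ∑_{v < n} 1_{v}`; by `mul` and `inv`: `φ (ag 1 (range n)) = u * w ^ n`, `u = φ (1_∅)`, `w = φ (1_{0})`, `|u|, |w| ≤ 1`. `mm 1 N l φ = u * (∑_{i<l} (w^N)^(i+1)) / l`. If `w^N ≠ 1` then this tends to zero: for `|w| < 1` clear, for `|w| = 1` it is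
`≤ 2/(l |1 - w^N|)`; contradiction to `∃ᶠ l, c ≤ ..`. So `w^N = 1`, `|w| = 1`, `φ (N • 1_{v}) = w^N = 1` (`pd_one`), and for `C = {v}`: `inv`.
-/

set_option autoImplicit false

namespace Pool.Agent.Lib.MP_90b327_co.RS

open Finset MeasureTheory Filter Pool.Agent.Lib.MP_90b327_co Pool.Agent.Lib.MP_90b327_co.RB
  Pool.Agent.Lib.MP_90b327_co.WW

theorem t1_zero : T1 0 := by
  intro N c _ _
  refine ⟨1, le_rfl, ?_⟩
  intro φ _ _ C hC hC0
  have := Finset.card_pos.2 hC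
  omega

private theorem bs_ag (g : Finset ℕ) :
    ag 1 g = Finsupp.single ∅ 1 + ∑ v ∈ g, Finsupp.single {v} 1 := by
  classical
  unfold ag
  have h1 : g.powerset.filter (fun C => C.card ≤ 1) = insert ∅ (g.image (fun v => ({v} : Finset ℕ))) := by
    ext C
    rw [mem_filter, mem_powerset, mem_insert, mem_image]
    constructor
    · rintro ⟨h2, h3⟩
      rcases Finset.eq_empty_or_nonempty C with h4 | ⟨v, hv⟩
      · left; exact h4
      · right
        refine ⟨v, h2 hv, ?_⟩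
        exact (Finset.eq_singleton_iff_unique_mem.2
          ⟨hv, fun x hx => Finset.card_le_one.1 h3 x hx v hv⟩).symm
    · rintro (h2 | ⟨v, hv, rfl⟩)
      · rw [h2]
        exact ⟨Finset.empty_subset _, by simp⟩
      · exact ⟨Finset.singleton_subset_iff.2 hv, by simp⟩
  rw [h1, sum_insert, sum_image]
  · intro a _ b _ hab
    exact Finset.singleton_injective hab
  · rw [mem_image]
    rintro ⟨v, _, hv⟩
    exact Finset.singleton_ne_empty v hv

private theorem bs_sup (v : ℕ) (n : ℤ) : Sup (Finsupp.single ({v} : Finset ℕ) n) {v} := by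
  intro C hC
  have := Finsupp.support_single_subset hC
  rw [Finset.mem_singleton] at this
  rw [this]

private theorem bs_val {φ : GG → ℂ} (h : EPD φ) (v : ℕ) :
    φ (Finsupp.single {v} 1) = φ (Finsupp.single {0} 1) := by
  have h1 := h.inv (fun x => x + v) (fun a b hab => by
    have : a + v = b + v := hab
    omega) (Finsupp.single {0} 1)
  rw [← h1]
  congr 1
  unfold rel
  rw [Finsupp.mapDomain_single]
  simp

private theorem bs_pow {φ : GG → ℂ} (h : DPD φ) (n : ℕ) :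
    φ (ag 1 (range n)) = φ (Finsupp.single ∅ 1) * φ (Finsupp.single {0} 1) ^ n := by
  induction n with
  | zero =>
    rw [bs_ag]
    simp
  | succ n ih =>
    have h1 : ag 1 (range (n + 1)) = ag 1 (range n) + Finsupp.single {n} 1 := by
      rw [bs_ag, bs_ag, Finset.sum_range_succ, add_assoc]
    rw [h1, h.mul _ _ (range n) {n} (ag_sup 1 _) (bs_sup n 1) (by simp), ih, bs_val h.toEPD n,
      pow_succ, mul_assoc]

private theorem bs_nsmul {φ : GG → ℂ} (h : PD φ) (a : GG) (ha : ‖φ a‖ = 1) (n : ℕ) :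
    φ ((n : ℤ) • a) = φ a ^ n := by
  induction n with
  | zero => simp [h.zero]
  | succ n ih =>
    have h1 : (((n + 1 : ℕ) : ℤ)) • a = a + (n : ℤ) • a := by
      push_cast
      rw [add_smul, one_smul, add_comm]
    rw [h1, pd_one h a _ ha, ih, pow_succ, mul_comm]

private theorem bs_geom (z : ℂ) (hz : ‖z‖ ≤ 1) (h1 : z ≠ 1) (l : ℕ) :
    ‖∑ i ∈ range l, z ^ (i + 1)‖ ≤ 2 / ‖z - 1‖ := by
  have h2 : ∑ i ∈ range l, z ^ (i + 1) = z * ((z ^ l - 1) / (z - 1)) := by
    rw [← geom_sum_eq h1, Finset.mul_sum]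
    exact sum_congr rfl fun i _ => by ring
  have h3 : 0 < ‖z - 1‖ := norm_pos_iff.2 (sub_ne_zero.2 h1)
  rw [h2, norm_mul, norm_div]
  have h4 : ‖z ^ l - 1‖ ≤ 2 := by
    calc ‖z ^ l - 1‖ ≤ ‖z ^ l‖ + ‖(1 : ℂ)‖ := norm_sub_le _ _
      _ ≤ 1 + 1 := by
        rw [norm_pow, norm_one]
        have := pow_le_one₀ (n := l) (norm_nonneg z) hz
        linarith
      _ = 2 := by norm_num
  calc ‖z‖ * (‖z ^ l - 1‖ / ‖z - 1‖) ≤ 1 * (2 / ‖z - 1‖) :=
        mul_le_mul hz (div_le_div_of_nonneg_right h4 h3.le) (by positivity) zero_le_one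
    _ = 2 / ‖z - 1‖ := one_mul _

theorem t1_one : T1 1 := by
  intro N c hN hc
  refine ⟨N, hN, ?_⟩
  intro φ h hf C hC hC1
  have hw1 : ‖φ (Finsupp.single {0} 1)‖ ≤ 1 := pd_norm h.toEPD.toPD _
  have hu1 : ‖φ (Finsupp.single ∅ 1)‖ ≤ 1 := pd_norm h.toEPD.toPD _
  have hz : φ (Finsupp.single {0} 1) ^ N = 1 := by
    by_contra hne
    apply hf
    have hz1 : ‖φ (Finsupp.single {0} 1) ^ N‖ ≤ 1 := by
      rw [norm_pow]
      exact pow_le_one₀ (norm_nonneg _) hw1
    have hmm : ∀ l, ‖mm 1 N l φ‖ ≤ (2 / ‖φ (Finsupp.single {0} 1) ^ N - 1‖) / l := by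
      intro l
      have e1 : mm 1 N l φ = φ (Finsupp.single ∅ 1) *
          (∑ i ∈ range l, (φ (Finsupp.single {0} 1) ^ N) ^ (i + 1)) / l := by
        unfold mm
        rw [Finset.mul_sum]
        congr 1
        refine sum_congr rfl fun i _ => ?_
        rw [bs_pow h, pow_mul]
      rw [e1, norm_div, norm_mul, Complex.norm_natCast]
      refine div_le_div_of_nonneg_right ?_ (Nat.cast_nonneg l)
      calc _ ≤ 1 * (2 / ‖φ (Finsupp.single {0} 1) ^ N - 1‖) :=
            mul_le_mul hu1 (bs_geom _ hz1 hne l) (norm_nonneg _) zero_le_one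
        _ = _ := one_mul _
    have hlim : Tendsto (fun l : ℕ => (2 / ‖φ (Finsupp.single {0} 1) ^ N - 1‖) / (l : ℝ)) atTop
        (nhds 0) := tendsto_const_div_atTop_nhds_zero_nat _
    have hev := hlim.eventually (gt_mem_nhds hc)
    filter_upwards [hev] with l hl
    exact not_le.2 (lt_of_le_of_lt (hmm l) hl)
  have hw : ‖φ (Finsupp.single {0} 1)‖ = 1 := by
    have h2 : ‖φ (Finsupp.single {0} 1)‖ ^ N = 1 := by
      rw [← norm_pow, hz, norm_one]
    exact (pow_eq_one_iff_of_nonneg (norm_nonneg _) (by omega)).1 h2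
  obtain ⟨v, hv⟩ := hC
  have hCv : C = {v} := Finset.eq_singleton_iff_unique_mem.2
    ⟨hv, fun x hx => Finset.card_le_one.1 hC1 x hx v hv⟩
  rw [hCv, bs_nsmul h.toEPD.toPD, bs_val h.toEPD, hz]
  rw [bs_val h.toEPD, hw]

end Pool.Agent.Lib.MP_90b327_co.RS
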