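import Mathlib
import Pool.Agent.Lib.MP_90b327_co.RS.RDef
import Pool.Agent.Lib.MP_90b327_co.RS.AjA

/-!
MODULE AjB (45 minutes, old scale). `A_J` and probabilities (text 8.5).

PROOF. `aj_ge`: `AJ J φ a = ∫ AJ J (F ω) a` (`af_int`), `AJ J (F ω) a = ∏ ‖..‖² ≥ 1` on the event (each factor is `1`), `≥ 0` elsewhere. `aj_lim`: `AJ J (F ω) a → 1(event)` as `J → ∞` (for `|y| = 1`, `y ≠ 1`: `‖(1/J) ∑_{p<J} y^p‖ ≤ 2/(J |1 - y|) → 0`), bounded by `1`: dominated convergence; so if all `(AJ J φ a).re ≥ c`, `J ≥ 1`, then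
the probability is `≥ c`.
-/

set_option autoImplicit false

namespace Pool.Agent.Lib.MP_90b327_co.RS

open Finset MeasureTheory Filter Pool.Agent.Lib.MP_90b327_co Pool.Agent.Lib.MP_90b327_co.RB
  Pool.Agent.Lib.MP_90b327_co.WW

/-- the factor of one coordinate -/
noncomputable def ajf (J : ℕ) (y : ℂ) : ℝ := ‖(∑ p ∈ range J, y ^ p) / (J : ℂ)‖ ^ 2

theorem ajf_nonneg (J : ℕ) (y : ℂ) : 0 ≤ ajf J y := by
  unfold ajf
  positivity

theorem ajf_le_one (J : ℕ) {y : ℂ} (hy : ‖y‖ = 1) : ajf J y ≤ 1 := by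
  unfold ajf
  have h1 : ‖(∑ p ∈ range J, y ^ p) / (J : ℂ)‖ ≤ 1 := by
    rw [norm_div, Complex.norm_natCast]
    apply div_le_one_of_le₀ _ (Nat.cast_nonneg J)
    refine (norm_sum_le _ _).trans ?_
    simp [norm_pow, hy]
  exact pow_le_one₀ (norm_nonneg _) h1

theorem ajf_one {J : ℕ} (hJ : 1 ≤ J) : ajf J 1 = 1 := by
  unfold ajf
  have : (J : ℂ) ≠ 0 := by exact_mod_cast (by omega : J ≠ 0)
  simp [this]

theorem ajf_tendsto {y : ℂ} (hy : ‖y‖ = 1) (h1 : y ≠ 1) :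
    Tendsto (fun J : ℕ => ajf J y) atTop (nhds 0) := by
  have h2 : 0 < ‖y - 1‖ := norm_pos_iff.2 (sub_ne_zero.2 h1)
  have hb : ∀ J : ℕ, ‖(∑ p ∈ range J, y ^ p) / (J : ℂ)‖ ≤ (2 / ‖y - 1‖) * (J : ℝ)⁻¹ := by
    intro J
    rw [geom_sum_eq h1, norm_div, norm_div, Complex.norm_natCast, div_eq_mul_inv]
    apply mul_le_mul_of_nonneg_right _ (by positivity)
    apply div_le_div_of_nonneg_right _ h2.le
    refine (norm_sub_le _ _).trans ?_
    rw [norm_pow, hy, one_pow, norm_one]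
    norm_num
  have h3 : Tendsto (fun J : ℕ => ‖(∑ p ∈ range J, y ^ p) / (J : ℂ)‖) atTop (nhds 0) := by
    apply squeeze_zero (fun J => norm_nonneg _) hb
    have h4 : Tendsto (fun J : ℕ => (J : ℝ)⁻¹) atTop (nhds 0) :=
      tendsto_inv_atTop_nhds_zero_nat
    simpa using h4.const_mul (2 / ‖y - 1‖)
  have h5 := h3.pow 2
  simpa [ajf] using h5

theorem ajf_cont (J : ℕ) : Continuous (ajf J) := by
  unfold ajf
  fun_prop

section
variable {φ : GG → ℂ} (r : RCh φ) {ι : Type} [Fintype ι] (a : ι → GG)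

/-- the integrand -/
noncomputable def ajG (J : ℕ) (ω : r.Ω) : ℝ := ∏ t, ajf J (r.F ω (a t))

theorem ajG_nonneg (J : ℕ) (ω : r.Ω) : 0 ≤ ajG r a J ω :=
  Finset.prod_nonneg (fun _ _ => ajf_nonneg _ _)

theorem ajG_le_one (J : ℕ) (ω : r.Ω) : ajG r a J ω ≤ 1 :=
  Finset.prod_le_one (fun _ _ => ajf_nonneg _ _) (fun _ _ => ajf_le_one _ (r.nrm _ _))

theorem ajG_meas (J : ℕ) : Measurable (ajG r a J) := by
  unfold ajG
  exact Finset.measurable_prod _ (fun t _ => (ajf_cont J).measurable.comp (r.meas (a t)))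

theorem ajG_int (J : ℕ) : Integrable (ajG r a J) r.P :=
  Integrable.of_bound (ajG_meas r a J).aestronglyMeasurable 1 (Eventually.of_forall fun ω => by
    rw [Real.norm_of_nonneg (ajG_nonneg r a J ω)]
    exact ajG_le_one r a J ω)

theorem aj_eq (J : ℕ) : (AJ J φ a).re = ∫ ω, ajG r a J ω ∂r.P := by
  have h1 : AJ J φ a = ∫ ω, AF J (fun j : ι → ℤ => r.F ω (∑ t, j t • a t)) ∂r.P := by
    rw [← af_int r.P J (fun ω (j : ι → ℤ) => r.F ω (∑ t, j t • a t)) (fun j => r.meas _)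
      (fun ω j => (r.nrm ω _).le)]
    unfold AJ
    congr 1
    funext j
    exact r.mean _
  have h2 : ∀ ω, AF J (fun j : ι → ℤ => r.F ω (∑ t, j t • a t)) = ((ajG r a J ω : ℝ) : ℂ) := by
    intro ω
    exact aj_char (r.zero ω) (r.add ω) (r.nrm ω) J a
  simp only [h2] at h1
  rw [h1, integral_complex_ofReal, Complex.ofReal_re]

theorem ev_meas : MeasurableSet {ω | ∀ t, r.F ω (a t) = 1} := by
  have : {ω | ∀ t, r.F ω (a t) = 1} = ⋂ t, {ω | r.F ω (a t) = 1} := by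
    ext ω
    simp
  rw [this]
  exact MeasurableSet.iInter (fun t => measurableSet_eq_fun (r.meas (a t)) measurable_const)

private theorem aj_ge' (J : ℕ) (hJ : 1 ≤ J) :
    r.P.real {ω | ∀ t, r.F ω (a t) = 1} ≤ (AJ J φ a).re := by
  rw [aj_eq r a J, ← integral_indicator_one (ev_meas r a)]
  apply integral_mono
  · exact (integrable_const (1 : ℝ)).indicator (ev_meas r a)
  · exact ajG_int r a J
  · intro ω
    by_cases h : ω ∈ {ω | ∀ t, r.F ω (a t) = 1}
    · rw [Set.indicator_of_mem h]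
      have h' : ∀ t, r.F ω (a t) = 1 := h
      show (1 : ℝ) ≤ ∏ t, ajf J (r.F ω (a t))
      rw [Finset.prod_congr rfl (fun t _ => by rw [h' t, ajf_one hJ] : ∀ t ∈ (univ : Finset ι),
        ajf J (r.F ω (a t)) = 1), Finset.prod_const_one]
    · rw [Set.indicator_of_notMem h]
      exact ajG_nonneg r a J ω

private theorem aj_lim' (c : ℝ)
    (h : ∀ J : ℕ, 1 ≤ J → c ≤ (AJ J φ a).re) : c ≤ r.P.real {ω | ∀ t, r.F ω (a t) = 1} := by
  rw [← integral_indicator_one (ev_meas r a)]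
  have hlim : Tendsto (fun J : ℕ => ∫ ω, ajG r a J ω ∂r.P) atTop
      (nhds (∫ ω, Set.indicator {ω | ∀ t, r.F ω (a t) = 1} 1 ω ∂r.P)) := by
    apply tendsto_integral_of_dominated_convergence (fun _ => (1 : ℝ))
    · exact fun J => (ajG_meas r a J).aestronglyMeasurable
    · exact integrable_const 1
    · intro J
      exact Eventually.of_forall fun ω => by
        rw [Real.norm_of_nonneg (ajG_nonneg r a J ω)]
        exact ajG_le_one r a J ω
    · refine Eventually.of_forall fun ω => ?_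
      by_cases hω : ω ∈ {ω | ∀ t, r.F ω (a t) = 1}
      · rw [Set.indicator_of_mem hω]
        have h' : ∀ t, r.F ω (a t) = 1 := hω
        apply tendsto_const_nhds.congr'
        filter_upwards [eventually_ge_atTop 1] with J hJ
        show (1 : ℝ) = ∏ t, ajf J (r.F ω (a t))
        rw [Finset.prod_congr rfl (fun t _ => by rw [h' t, ajf_one hJ] : ∀ t ∈ (univ : Finset ι),
          ajf J (r.F ω (a t)) = 1), Finset.prod_const_one]
      · rw [Set.indicator_of_notMem hω]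
        have h' : ¬ ∀ t, r.F ω (a t) = 1 := hω
        push Not at h'
        obtain ⟨t, ht⟩ := h'
        apply squeeze_zero (fun J => ajG_nonneg r a J ω) _ (ajf_tendsto (r.nrm ω (a t)) ht)
        intro J
        show ∏ t, ajf J (r.F ω (a t)) ≤ ajf J (r.F ω (a t))
        classical
        rw [← Finset.mul_prod_erase univ _ (Finset.mem_univ t)]
        apply mul_le_of_le_one_right (ajf_nonneg _ _)
        exact Finset.prod_le_one (fun _ _ => ajf_nonneg _ _) (fun _ _ => ajf_le_one _ (r.nrm _ _))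
  apply ge_of_tendsto hlim
  filter_upwards [eventually_ge_atTop 1] with J hJ
  rw [← aj_eq r a J]
  exact h J hJ

end

theorem aj_ge {φ : GG → ℂ} (r : RCh φ) {ι : Type} [Fintype ι] (J : ℕ) (hJ : 1 ≤ J) (a : ι → GG) :
    r.P.real {ω | ∀ t, r.F ω (a t) = 1} ≤ (AJ J φ a).re := aj_ge' r a J hJ

theorem aj_lim {φ : GG → ℂ} (r : RCh φ) {ι : Type} [Fintype ι] (a : ι → GG) (c : ℝ)
    (h : ∀ J : ℕ, 1 ≤ J → c ≤ (AJ J φ a).re) : c ≤ r.P.real {ω | ∀ t, r.F ω (a t) = 1} :=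
  aj_lim' r a c h

end Pool.Agent.Lib.MP_90b327_co.RS
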