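import Mathlib
import Pool.Agent.Lib.MP_90b327_co.RS.RDef
import Pool.Agent.Lib.MP_90b327_co.RS.AjA
import Pool.Agent.Lib.MP_90b327_co.RS.ZtRel

/-!
MODULE AjC (50 minutes, old scale). Independent copies force the value one (text 9, end of step 2).

PROOF. `aj_mul`: for `φ` dissociated and `C' t` pairwise disjoint, of the same cardinality as `C`: `φ (∑ t, j t • m • 1_(C' t)) = ∏ t, φ ((j t * m) • 1_C)` (induction with `mul`: `Sup` of partial sums in unions of the `C' t`; `inv` with an injection mapping `C' t` onto `C`: `rel_single`). So `AJ J φ (fun t => m • 1_(C' t)) = (AJ J φ (fun _ : Unit => m • 1_C)) ^ r`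
(factor the double sum as in `aj_char`). `dpd_one`: let `x = (AJ 2 φ (fun _ : Unit => m • 1_C))`; it is real (`= (2 + 2 Re φ (m 1_C)) / 4`), `0 ≤ x ≤ 1`, and `c ≤ x ^ r` for all `r` (`J = 2`), so `x = 1`: `Re φ (m 1_C) = 1` and `‖φ‖ ≤ 1` give `φ (m 1_C) = 1`.
-/

set_option autoImplicit false

namespace Pool.Agent.Lib.MP_90b327_co.RS

open Finset MeasureTheory Filter Pool.Agent.Lib.MP_90b327_co Pool.Agent.Lib.MP_90b327_co.RB
  Pool.Agent.Lib.MP_90b327_co.WW

/-- two finite sets of the same cardinality: an injection of `ℕ` mapping one onto the other -/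
theorem ajC_inj (A C : Finset ℕ) (h : A.card = C.card) :
    ∃ σ : ℕ → ℕ, Function.Injective σ ∧ A.image σ = C := by
  classical
  have e : A ≃ C := Finset.equivOfCardEq h
  set M := C.sup id + 1 with hM
  have hC : ∀ x ∈ C, x < M := fun x hx => by
    have : x ≤ C.sup id := Finset.le_sup (f := id) hx
    omega
  refine ⟨fun x => if hx : x ∈ A then (e ⟨x, hx⟩ : ℕ) else x + M, ?_, ?_⟩
  · intro x y hxy
    by_cases hx : x ∈ A <;> by_cases hy : y ∈ A
    · simp only [hx, hy, dif_pos] at hxy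
      have := e.injective (Subtype.ext hxy)
      simpa using this
    · simp only [hx, hy, dif_pos, dif_neg, not_false_eq_true] at hxy
      have := hC _ (e ⟨x, hx⟩).2
      omega
    · simp only [hx, hy, dif_pos, dif_neg, not_false_eq_true] at hxy
      have := hC _ (e ⟨y, hy⟩).2
      omega
    · simp only [hx, hy, dif_neg, not_false_eq_true] at hxy
      omega
  · ext z
    simp only [mem_image]
    constructor
    · rintro ⟨x, hx, rfl⟩
      simp only [hx, dif_pos]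
      exact (e ⟨x, hx⟩).2
    · intro hz
      refine ⟨(e.symm ⟨z, hz⟩ : ℕ), (e.symm ⟨z, hz⟩).2, ?_⟩
      simp

theorem ajC_single {φ : GG → ℂ} (h : EPD φ) (A C : Finset ℕ) (hc : A.card = C.card) (n : ℤ) :
    φ (n • Finsupp.single A 1) = φ (n • Finsupp.single C 1) := by
  obtain ⟨σ, hσ, hAC⟩ := ajC_inj A C hc
  rw [← h.inv σ hσ (n • Finsupp.single A 1)]
  rw [Finsupp.smul_single, rel_single, hAC, Finsupp.smul_single]

theorem ajC_sup (A : Finset ℕ) (n : ℤ) : Sup (n • Finsupp.single A 1) A := by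
  intro C hC
  have h1 := Finsupp.support_smul hC
  have h2 := Finsupp.support_single_subset h1
  rw [mem_singleton] at h2
  rw [h2]

theorem ajC_sum_sup {r : ℕ} (C' : Fin r → Finset ℕ) (n : Fin r → ℤ) (s : Finset (Fin r)) :
    Sup (∑ t ∈ s, n t • Finsupp.single (C' t) (1 : ℤ)) (s.biUnion C') := by
  classical
  intro C hC
  have h1 := Finsupp.support_finsetSum hC
  simp only [mem_biUnion] at h1
  obtain ⟨t, ht, h2⟩ := h1
  exact (ajC_sup (C' t) (n t) C h2).trans (subset_biUnion_of_mem C' ht)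

theorem ajC_prod {φ : GG → ℂ} (h : DPD φ) (C : Finset ℕ) {r : ℕ} (C' : Fin r → Finset ℕ)
    (hd : ∀ s t, s ≠ t → Disjoint (C' s) (C' t)) (hc : ∀ t, (C' t).card = C.card)
    (n : Fin r → ℤ) (s : Finset (Fin r)) :
    φ (∑ t ∈ s, n t • Finsupp.single (C' t) (1 : ℤ)) =
      ∏ t ∈ s, φ (n t • Finsupp.single C (1 : ℤ)) := by
  classical
  induction s using Finset.induction_on with
  | empty => simp [h.zero]
  | insert a s ha ih =>
    rw [sum_insert ha, prod_insert ha]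
    rw [h.mul _ _ (C' a) (s.biUnion C') (ajC_sup _ _) (ajC_sum_sup C' n s) ?_, ih,
      ajC_single h.toEPD (C' a) C (hc a)]
    rw [disjoint_biUnion_right]
    intro t ht
    exact hd a t (fun h' => ha (h' ▸ ht))

theorem ajC_pow {r : ℕ} (J : ℕ) (g : ℤ → ℂ) :
    AF J (fun j : Fin r → ℤ => ∏ t, g (j t)) =
      ((∑ x : Fin J, ∑ y : Fin J, g (((x : ℕ) : ℤ) - ((y : ℕ) : ℤ))) / (J : ℂ) ^ 2) ^ r := by
  classical
  unfold AF
  have h1 : (∑ p : Fin r → Fin J, ∑ q : Fin r → Fin J,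
      ∏ t, g (((p t : ℕ) : ℤ) - ((q t : ℕ) : ℤ))) =
      (∑ x : Fin J, ∑ y : Fin J, g (((x : ℕ) : ℤ) - ((y : ℕ) : ℤ))) ^ r := by
    have h2 : (∑ x : Fin J, ∑ y : Fin J, g (((x : ℕ) : ℤ) - ((y : ℕ) : ℤ))) ^ r =
        ∏ _t : Fin r, ∑ z : Fin J × Fin J, g (((z.1 : ℕ) : ℤ) - ((z.2 : ℕ) : ℤ)) := by
      rw [prod_const, card_univ, Fintype.card_fin, Fintype.sum_prod_type]
    rw [h2, prod_univ_sum, Fintype.piFinset_univ]
    rw [← Fintype.sum_prod_type' (f := fun (p q : Fin r → Fin J) =>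
      ∏ t, g (((p t : ℕ) : ℤ) - ((q t : ℕ) : ℤ)))]
    refine (Equiv.sum_comp (Equiv.arrowProdEquivProdArrow (Fin r) (fun _ => Fin J)
      (fun _ => Fin J)) (fun z => ∏ t, g (((z.1 t : ℕ) : ℤ) - ((z.2 t : ℕ) : ℤ)))).symm.trans ?_
    rfl
  have h3 : (J : ℂ) ^ (2 * Fintype.card (Fin r)) = ((J : ℂ) ^ 2) ^ r := by
    rw [Fintype.card_fin, pow_mul]
  rw [h3, div_pow]
  congr 1
  rw [← h1]
  have hinst : ∀ (i1 i2 : Fintype (Fin r → Fin J)) (f : (Fin r → Fin J) → ℂ),
      @Finset.sum _ _ _ (@univ _ i1) f = @Finset.sum _ _ _ (@univ _ i2) f := by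
    intro i1 i2 f
    rw [Subsingleton.elim i1 i2]
  rw [hinst _ inferInstance]
  refine sum_congr rfl fun p _ => ?_
  rw [hinst _ inferInstance]

theorem dpd_one {φ : GG → ℂ} (h : DPD φ) (C : Finset ℕ) (m : ℤ) (c : ℝ) (hc : 0 < c)
    (h1 : ∀ r : ℕ, ∃ C' : Fin r → Finset ℕ, (∀ s t, s ≠ t → Disjoint (C' s) (C' t)) ∧
      (∀ t, (C' t).card = C.card) ∧
      ∀ J : ℕ, 1 ≤ J → c ≤ (AJ J φ (fun t => m • Finsupp.single (C' t) 1)).re) :
    φ (m • Finsupp.single C 1) = 1 := by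
  set w := φ (m • Finsupp.single C 1) with hw
  have hw1 : ‖w‖ ≤ 1 := pd_norm h.toPD _
  set X : ℝ := (1 + w.re) / 2 with hX
  have key : ∀ r : ℕ, c ≤ X ^ r := by
    intro r
    obtain ⟨C', hd, hc', h2⟩ := h1 r
    have h3 := h2 2 (by norm_num)
    have h4 : AJ 2 φ (fun t => m • Finsupp.single (C' t) (1 : ℤ)) =
        AF 2 (fun j : Fin r → ℤ => ∏ t, (fun n : ℤ => φ ((n * m) • Finsupp.single C 1)) (j t)) := by
      unfold AJ
      congr 1
      funext j
      rw [← ajC_prod h C C' hd hc' (fun t => j t * m) univ]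
      congr 1
      refine sum_congr rfl fun t _ => ?_
      rw [mul_smul]
    rw [h4.trans (ajC_pow (r := r) 2 (fun n : ℤ => φ ((n * m) • Finsupp.single C 1)))] at h3
    have hcj : (starRingEnd ℂ) w = ((2 * w.re : ℝ) : ℂ) - w := by
      rw [← Complex.add_conj]; ring
    have h5 : (∑ x : Fin 2, ∑ y : Fin 2, φ (((((x : ℕ) : ℤ) - ((y : ℕ) : ℤ)) * m) •
        Finsupp.single C 1)) / ((2 : ℕ) : ℂ) ^ 2 = ((X : ℝ) : ℂ) := by
      simp only [Fin.sum_univ_two, Fin.val_zero, Fin.val_one, Nat.cast_zero, Nat.cast_one,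
        sub_self, zero_mul, zero_smul, zero_sub, sub_zero, one_mul, neg_mul, neg_smul]
      rw [h.zero, h.neg, ← hw, hcj, hX]
      push_cast
      ring
    rw [h5, ← Complex.ofReal_pow, Complex.ofReal_re] at h3
    exact h3
  have hre : |w.re| ≤ 1 := (Complex.abs_re_le_norm w).trans hw1
  have hX0 : 0 ≤ X := by rw [hX]; linarith [(abs_le.mp hre).1]
  have hX1 : 1 ≤ X := by
    by_contra hlt
    push Not at hlt
    obtain ⟨r, hr⟩ := exists_pow_lt_of_lt_one hc hlt
    exact absurd (key r) (not_le.mpr hr)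
  have hre1 : w.re = 1 := by
    have := (abs_le.mp hre).2
    rw [hX] at hX1
    linarith
  have him : w.im = 0 := by
    have h6 : ‖w‖ ^ 2 = w.re ^ 2 + w.im ^ 2 := by
      rw [← Complex.normSq_eq_norm_sq, Complex.normSq_apply]; ring
    have h7 : ‖w‖ ^ 2 ≤ 1 := by
      have := norm_nonneg w
      nlinarith
    rw [h6, hre1] at h7
    nlinarith [sq_nonneg w.im]
  apply Complex.ext
  · rw [hre1]; simp
  · rw [him]; simp

end Pool.Agent.Lib.MP_90b327_co.RS
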