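import Mathlib
import Pool.Agent.Lib.MP_90b327_co.RS.RDef
import Pool.Agent.Lib.MP_90b327_co.RS.PdA
import Pool.Agent.Lib.MP_90b327_co.RB.RepC

/-!
MODULE Boch (50 minutes, old scale). Random characters (text 8.2).

PROOF. `rep` (RB/RepC) with `𝒳 = GG`, `m X A = X + A`, `R X Y X' Y' := ∃ c, X' = X + c ∧ Y' = Y + c`. `Mrg m R`: `rel`: `m (X + c) A = m X A + c` (commutative). `left`: `k (X + A) (Y + A) = k X Y`, `right`: `k (X + A) (X + B) = k A B` (translation by `X`). The kernel `k X Y = φ (Y - X)` is in `Ker R`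
(`one`, `herm` = `neg`, `psd`). `Repr` gives `th ω`, translation invariant, `th ω (X + A) (Y + B) = th ω X Y * th ω A B`. Put `F ω a = th ω 0 a`. `F ω (a + b) = th ω (0 + 0) (a + b) = F ω a * F ω b`, `F ω 0 = 1`, `F ω (-a) = th ω 0 (-a) = th ω a 0 = conj (F ω a)`, so `|F ω a|² = F ω a * F ω (-a) = F ω 0 = 1`.
-/

set_option autoImplicit false

namespace Pool.Agent.Lib.MP_90b327_co.RS

open Finset MeasureTheory Filter Pool.Agent.Lib.MP_90b327_co Pool.Agent.Lib.MP_90b327_co.RB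
  Pool.Agent.Lib.MP_90b327_co.WW

/-- translations -/
private def trR (X Y X' Y' : GG) : Prop := ∃ c : GG, X' = X + c ∧ Y' = Y + c

private theorem trR_mrg : Mrg (fun X A : GG => X + A) trR where
  rel := by
    rintro X Y X' Y' A B ⟨c, rfl, rfl⟩
    exact ⟨c, by show X + c + A = X + A + c; abel, by show Y + c + B = Y + B + c; abel⟩
  left := by
    intro k hk X Y A
    exact (hk X Y _ _ ⟨A, rfl, rfl⟩).symm
  right := by
    intro k hk X A B
    exact (hk A B _ _ ⟨X, by abel, by abel⟩).symm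

theorem boch {φ : GG → ℂ} (h : PD φ) : Nonempty (RCh φ) := by
  have hker : Ker trR (fun X Y : GG => φ (Y - X)) := by
    refine ⟨?_, ?_, ?_, ?_⟩
    · intro X
      show φ (X - X) = 1
      rw [sub_self, h.zero]
    · intro X Y
      show φ (X - Y) = (starRingEnd ℂ) (φ (Y - X))
      rw [← h.neg, neg_sub]
    · intro ι _ X c
      exact h.psd ι X c
    · rintro X Y X' Y' ⟨c, rfl, rfl⟩
      show φ (Y - X) = φ (Y + c - (X + c))
      rw [add_sub_add_right_eq_sub]
  obtain ⟨r⟩ := rep trR_mrg _ hker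
  have hmul : ∀ ω (a b : GG), r.th ω 0 (a + b) = r.th ω 0 a * r.th ω 0 b := by
    intro ω a b
    have := r.mul ω 0 a 0 b
    simpa using this
  have hzero : ∀ ω, r.th ω 0 0 = 1 := fun ω => (r.ker ω).one 0
  have hneg : ∀ ω (a : GG), r.th ω 0 (-a) = (starRingEnd ℂ) (r.th ω 0 a) := by
    intro ω a
    have h1 : r.th ω 0 (-a) = r.th ω a 0 := (r.ker ω).rel _ _ _ _ ⟨a, by simp, by simp⟩
    rw [h1]
    exact (r.ker ω).herm 0 a
  have hnrm : ∀ ω (a : GG), ‖r.th ω 0 a‖ = 1 := by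
    intro ω a
    have h1 : r.th ω 0 a * (starRingEnd ℂ) (r.th ω 0 a) = 1 := by
      rw [← hneg, ← hmul, add_neg_cancel, hzero]
    rw [Complex.mul_conj, Complex.normSq_eq_norm_sq] at h1
    have h2 : ‖r.th ω 0 a‖ ^ 2 = 1 := by exact_mod_cast h1
    nlinarith [norm_nonneg (r.th ω 0 a)]
  have hmean : ∀ a, φ a = ∫ ω, r.th ω 0 a ∂r.P := by
    intro a
    have h1 := r.mean 0 a
    simpa using h1
  exact ⟨{
    Ω := r.Ω
    mΩ := r.mΩ
    P := r.P
    prob := r.prob
    F := fun ω a => r.th ω 0 a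
    zero := hzero
    add := hmul
    nrm := hnrm
    meas := fun a => r.meas 0 a
    mean := hmean }⟩

end Pool.Agent.Lib.MP_90b327_co.RS
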