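import Mathlib
import Pool.Agent.Lib.MP_90b327_co.RS.RDef
import Pool.Agent.Lib.MP_90b327_co.RS.LaLb
import Pool.Agent.Lib.MP_90b327_co.RS.ExcA

/-!
MODULE InsA (40 minutes, old scale). The map of step 1 (text 9).

PROOF. `ins_ag` (`b` disjoint from `s.image σ`, `1 ≤ k`): `lin (ins k σ b) (ag (k-1) s) = ∑_{A ⊆ s, |A| ≤ k-1} ∑_{∅ ≠ B ⊆ b, |σA ∪ B| ≤ k} 1_(σA ∪ B)`, and `(A, B) ↦ σA ∪ B` is a bijection onto the sets `C ⊆ s.image σ ∪ b` with `|C| ≤ k` which meet `b` (`|A| ≤ k - 1` is automatic as `B ≠ ∅`); the sets which do not meet `b` give `ag k (s.image σ)`.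
`ins_rel`: for `τ` injective and `τ'` injective with `τ' ∘ σ = σ ∘ τ`, `τ' = id` on `b`: `lin (ins k σ b) (rel τ a) = rel τ' (lin (ins k σ b) a)` (check on `single`).
-/

set_option autoImplicit false

namespace Pool.Agent.Lib.MP_90b327_co.RS

open Finset MeasureTheory Filter Pool.Agent.Lib.MP_90b327_co Pool.Agent.Lib.MP_90b327_co.RB
  Pool.Agent.Lib.MP_90b327_co.WW

theorem InsA_lin_sum (τ : Finset ℕ → GG) {ι : Type} (s : Finset ι) (f : ι → GG) :
    lin τ (∑ i ∈ s, f i) = ∑ i ∈ s, lin τ (f i) :=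
  map_sum (AddMonoidHom.mk' (lin τ) (lin_add τ)) f s

theorem InsA_rel_sum (τ : ℕ → ℕ) {ι : Type} (s : Finset ι) (f : ι → GG) :
    rel τ (∑ i ∈ s, f i) = ∑ i ∈ s, rel τ (f i) :=
  map_sum (AddMonoidHom.mk' (rel τ) (rel_add τ)) f s

theorem InsA_rel_zero (τ : ℕ → ℕ) : rel τ 0 = 0 :=
  map_zero (AddMonoidHom.mk' (rel τ) (rel_add τ))

theorem InsA_rel_zsmul (τ : ℕ → ℕ) (n : ℤ) (a : GG) : rel τ (n • a) = n • rel τ a :=
  map_zsmul (AddMonoidHom.mk' (rel τ) (rel_add τ)) n a

theorem InsA_lin_zsmul (τ : Finset ℕ → GG) (n : ℤ) (a : GG) : lin τ (n • a) = n • lin τ a :=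
  map_zsmul (AddMonoidHom.mk' (lin τ) (lin_add τ)) n a

theorem InsA_lin_neg (τ : Finset ℕ → GG) (a : GG) : lin τ (-a) = -lin τ a :=
  map_neg (AddMonoidHom.mk' (lin τ) (lin_add τ)) a

theorem InsA_lin_sub (τ : Finset ℕ → GG) (a b : GG) : lin τ (a - b) = lin τ a - lin τ b :=
  map_sub (AddMonoidHom.mk' (lin τ) (lin_add τ)) a b

theorem InsA_lin_ag (τ : Finset ℕ → GG) (k : ℕ) (s : Finset ℕ) :
    lin τ (ag k s) = ∑ A ∈ s.powerset.filter (fun C => C.card ≤ k), τ A := by
  unfold ag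
  rw [InsA_lin_sum]
  refine Finset.sum_congr rfl fun A _ => ?_
  rw [lin_single, one_smul]

theorem ins_ag (k : ℕ) (hk : 1 ≤ k) {σ : ℕ → ℕ} (hσ : Function.Injective σ) (b s : Finset ℕ)
    (hb : Disjoint b (s.image σ)) :
    lin (ins k σ b) (ag (k - 1) s) = ag k (s.image σ ∪ b) - ag k (s.image σ) := by
  classical
  rw [InsA_lin_ag]
  have hdis : ∀ x ∈ s, σ x ∉ b := by
    intro x hx hxb
    exact Finset.disjoint_left.1 hb hxb (Finset.mem_image_of_mem σ hx)
  have e1 : ag k (s.image σ ∪ b) = ag k (s.image σ) +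
      ∑ C ∈ (s.image σ ∪ b).powerset.filter (fun C => C.card ≤ k ∧ (C ∩ b).Nonempty),
        Finsupp.single C 1 := by
    unfold ag
    rw [← Finset.sum_filter_add_sum_filter_not
      ((s.image σ ∪ b).powerset.filter (fun C => C.card ≤ k)) (fun C => ¬ (C ∩ b).Nonempty)]
    congr 1
    · refine Finset.sum_congr ?_ fun _ _ => rfl
      ext C
      simp only [Finset.mem_filter, Finset.mem_powerset]
      constructor
      · rintro ⟨⟨h1, h2⟩, h3⟩
        refine ⟨fun x hx => ?_, h2⟩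
        rcases Finset.mem_union.1 (h1 hx) with h4 | h4
        · exact h4
        · exact absurd ⟨x, Finset.mem_inter.2 ⟨hx, h4⟩⟩ h3
      · rintro ⟨h1, h2⟩
        refine ⟨⟨h1.trans Finset.subset_union_left, h2⟩, ?_⟩
        rintro ⟨x, hx⟩
        rw [Finset.mem_inter] at hx
        exact Finset.disjoint_left.1 hb hx.2 (h1 hx.1)
    · refine Finset.sum_congr ?_ fun _ _ => rfl
      ext C
      simp only [Finset.mem_filter, Finset.mem_powerset, not_not]
      tauto
  rw [e1, add_sub_cancel_left]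
  unfold ins
  rw [Finset.sum_sigma' (s.powerset.filter (fun C => C.card ≤ k - 1))
    (fun A => b.powerset.filter (fun B => B.Nonempty ∧ (A.image σ ∪ B).card ≤ k))
    (fun A B => (Finsupp.single (A.image σ ∪ B) 1 : GG))]
  have hfil : ∀ C : Finset ℕ, C ⊆ s.image σ ∪ b →
      (s.filter (fun x => σ x ∈ C)).image σ ∪ (C ∩ b) = C := by
    intro C hC
    ext y
    simp only [Finset.mem_union, Finset.mem_image, Finset.mem_filter, Finset.mem_inter]
    constructor
    · rintro (⟨x, ⟨_, h2⟩, rfl⟩ | ⟨h1, _⟩)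
      · exact h2
      · exact h1
    · intro hy
      rcases Finset.mem_union.1 (hC hy) with h4 | h4
      · obtain ⟨x, hx, rfl⟩ := Finset.mem_image.1 h4
        exact Or.inl ⟨x, ⟨hx, hy⟩, rfl⟩
      · exact Or.inr ⟨hy, h4⟩
  refine Finset.sum_bij' (fun x _ => x.1.image σ ∪ x.2)
    (fun C _ => (⟨s.filter (fun x => σ x ∈ C), C ∩ b⟩ : Σ _ : Finset ℕ, Finset ℕ)) ?_ ?_ ?_ ?_ ?_
  · rintro ⟨A, B⟩ hx
    simp only [Finset.mem_sigma, Finset.mem_filter, Finset.mem_powerset] at hx ⊢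
    obtain ⟨⟨hA, hA2⟩, hB, ⟨y, hy⟩, hc⟩ := hx
    refine ⟨Finset.union_subset_union (Finset.image_subset_image hA) hB, hc, y, ?_⟩
    exact Finset.mem_inter.2 ⟨Finset.mem_union_right _ hy, hB hy⟩
  · intro C hC
    simp only [Finset.mem_sigma, Finset.mem_filter, Finset.mem_powerset] at hC ⊢
    obtain ⟨hC1, hC2, hC3⟩ := hC
    have h1 := hfil C hC1
    have h2 : ((s.filter (fun x => σ x ∈ C)).image σ).card + (C ∩ b).card = C.card := by
      rw [← Finset.card_union_of_disjoint, h1]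
      rw [Finset.disjoint_left]
      intro y hy hyb
      obtain ⟨x, hx, rfl⟩ := Finset.mem_image.1 hy
      exact hdis x (Finset.mem_filter.1 hx).1 (Finset.mem_inter.1 hyb).2
    rw [Finset.card_image_of_injective _ hσ] at h2
    have h3 : 0 < (C ∩ b).card := Finset.card_pos.2 hC3
    refine ⟨⟨Finset.filter_subset _ _, by omega⟩, Finset.inter_subset_right, hC3, ?_⟩
    rw [h1]
    exact hC2
  · rintro ⟨A, B⟩ hx
    simp only [Finset.mem_sigma, Finset.mem_filter, Finset.mem_powerset] at hx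
    obtain ⟨⟨hA, hA2⟩, hB, _, hc⟩ := hx
    have h1 : s.filter (fun x => σ x ∈ A.image σ ∪ B) = A := by
      ext x
      rw [Finset.mem_filter, Finset.mem_union, Finset.mem_image]
      constructor
      · rintro ⟨hxs, ⟨z, hz, hzx⟩ | h3⟩
        · rw [← hσ hzx]
          exact hz
        · exact absurd (hB h3) (hdis x hxs)
      · intro hxA
        exact ⟨hA hxA, Or.inl ⟨x, hxA, rfl⟩⟩
    have h2 : (A.image σ ∪ B) ∩ b = B := by
      ext y
      rw [Finset.mem_inter, Finset.mem_union, Finset.mem_image]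
      constructor
      · rintro ⟨⟨z, hz, rfl⟩ | h3, hyb⟩
        · exact absurd hyb (hdis z (hA hz))
        · exact h3
      · intro hyB
        exact ⟨Or.inr hyB, hB hyB⟩
    show (⟨s.filter (fun x => σ x ∈ A.image σ ∪ B), (A.image σ ∪ B) ∩ b⟩ :
      Σ _ : Finset ℕ, Finset ℕ) = ⟨A, B⟩
    rw [h1, h2]
  · intro C hC
    exact hfil C (Finset.mem_powerset.1 (Finset.mem_filter.1 hC).1)
  · rintro ⟨A, B⟩ _
    rfl

theorem ins_rel (k : ℕ) {σ τ τ' : ℕ → ℕ} (hσ : Function.Injective σ) (hτ' : Function.Injective τ')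
    (h : ∀ x, τ' (σ x) = σ (τ x)) (b : Finset ℕ) (hb : ∀ x ∈ b, τ' x = x) (a : GG) :
    lin (ins k σ b) (rel τ a) = rel τ' (lin (ins k σ b) a) := by
  classical
  have _ := hσ
  induction a using Finsupp.induction_linear with
  | zero => rw [InsA_rel_zero, lin_zero, InsA_rel_zero]
  | add x y hx hy => rw [rel_add, lin_add, hx, hy, lin_add, rel_add]
  | single C n =>
    rw [rel_single, lin_single, lin_single, InsA_rel_zsmul]
    congr 1
    unfold ins
    rw [InsA_rel_sum]
    have himg : ∀ B : Finset ℕ, B ⊆ b →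
        (C.image σ ∪ B).image τ' = (C.image τ).image σ ∪ B := by
      intro B hB
      rw [Finset.image_union, Finset.image_image, Finset.image_image]
      congr 1
      · exact Finset.image_congr fun x _ => h x
      · calc B.image τ' = B.image id := Finset.image_congr fun x hx => hb x (hB hx)
          _ = B := Finset.image_id
    refine Finset.sum_congr ?_ ?_
    · ext B
      simp only [Finset.mem_filter, Finset.mem_powerset]
      constructor
      · rintro ⟨h1, h2, h3⟩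
        rw [← himg B h1, Finset.card_image_of_injective _ hτ'] at h3
        exact ⟨h1, h2, h3⟩
      · rintro ⟨h1, h2, h3⟩
        rw [← Finset.card_image_of_injective _ hτ', himg B h1] at h3
        exact ⟨h1, h2, h3⟩
    · intro B hB
      rw [rel_single, himg B (Finset.mem_powerset.1 (Finset.mem_filter.1 hB).1)]

end Pool.Agent.Lib.MP_90b327_co.RS
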