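import Mathlib
import Pool.Agent.Lib.MP_90b327_co.RS.RDef
import Pool.Agent.Lib.MP_90b327_co.RS.InsA
import Pool.Agent.Lib.MP_90b327_co.RS.ExcA
import Pool.Agent.Lib.MP_90b327_co.RS.LaLb

/-!
MODULE PhjA (45 minutes, old scale). The functions `φ_j` (text 9, (***)).

PROOF. `phj_epd`: composition of `φ` with an additive map (`lin_add`, `rel_add`); `inv`: for `τ` injective let `τ' (3 x) = 3 x`, `τ' (t3 x) = t3 (τ x)` (`t3` is injective with image the numbers `≢ 0 mod 3`): `lin (rt k (3 e)) (rel t3 (rel τ a)) = rel τ' (lin (rt k (3 e)) (rel t3 a))`.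
`phj_psi`: `lin (ins k (3 ·) b) (n • 1_{e}) = n • ∑_{∅ ≠ B ⊆ b, |B| + 1 ≤ k} 1_(B ∪ {3 e}) = n • lin (rt k (3 e)) (ag (k-1) b)` for `b` without multiples of `3`, and `b1 n = (evn n).image t3`, `b2 n = (odn n).image t3` (`t3 (2 x) = 3 x + 1`, `t3 (2 x + 1) = 3 x + 2`), so `rel t3 (ag (k-1) (evn n)) = ag (k-1) (b1 n)` (`rel_ag`). Hence
`psi1 (∑_t j t • M • 1_{e t}) = (1/l²) ∑_{i,i'} phj .. (ag (k-1) (evn (N (i+1))) - ag (k-1) (odn (N (i'+1))))`; take real parts.
-/

set_option autoImplicit false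

namespace Pool.Agent.Lib.MP_90b327_co.RS

open Finset MeasureTheory Filter Pool.Agent.Lib.MP_90b327_co Pool.Agent.Lib.MP_90b327_co.RB
  Pool.Agent.Lib.MP_90b327_co.WW

private theorem phja_rel_add (σ : ℕ → ℕ) (a b : GG) : rel σ (a + b) = rel σ a + rel σ b := by
  unfold rel
  exact Finsupp.mapDomain_add

private theorem phja_rel_zero (σ : ℕ → ℕ) : rel σ 0 = 0 := by
  unfold rel
  exact Finsupp.mapDomain_zero

private theorem phja_rel_single (σ : ℕ → ℕ) (C : Finset ℕ) (n : ℤ) :
    rel σ (Finsupp.single C n) = Finsupp.single (C.image σ) n := by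
  unfold rel
  exact Finsupp.mapDomain_single

private noncomputable def phja_relH (σ : ℕ → ℕ) : GG →+ GG where
  toFun := rel σ
  map_zero' := phja_rel_zero σ
  map_add' := phja_rel_add σ

private noncomputable def phja_linH (τ : Finset ℕ → GG) : GG →+ GG where
  toFun := lin τ
  map_zero' := lin_zero τ
  map_add' := lin_add τ

private noncomputable def phja_L {ι : Type} [Fintype ι] (k M : ℕ) (e : ι → ℕ) (j : ι → ℤ) :
    GG →+ GG :=
  ∑ t, (j t * (M : ℤ)) • ((phja_linH (rt k (3 * e t))).comp (phja_relH t3))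

private theorem phja_L_apply {ι : Type} [Fintype ι] (k M : ℕ) (e : ι → ℕ) (j : ι → ℤ) (a : GG) :
    phja_L k M e j a = ∑ t, (j t * (M : ℤ)) • lin (rt k (3 * e t)) (rel t3 a) := by
  unfold phja_L
  rw [AddMonoidHom.finsetSum_apply]
  rfl

private theorem phja_phj {ι : Type} [Fintype ι] (k M : ℕ) (e : ι → ℕ) (φ : GG → ℂ) (j : ι → ℤ)
    (a : GG) : phj k M e φ j a = φ (phja_L k M e j a) := by
  rw [phja_L_apply]
  rfl

private theorem phja_t3_inj : Function.Injective t3 := by
  intro x y h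
  unfold t3 at h
  omega

private theorem phja_t3_mod (x : ℕ) : ¬ 3 ∣ t3 x := by
  unfold t3
  omega

/-- the extension of `σ` -/
private def phja_ext (σ : ℕ → ℕ) (x : ℕ) : ℕ :=
  if 3 ∣ x then x else t3 (σ (2 * (x / 3) + (x % 3 - 1)))

private theorem phja_ext_three (σ : ℕ → ℕ) (x : ℕ) : phja_ext σ (3 * x) = 3 * x := by
  unfold phja_ext
  rw [if_pos (Dvd.intro x rfl)]

private theorem phja_ext_t3 (σ : ℕ → ℕ) (x : ℕ) : phja_ext σ (t3 x) = t3 (σ x) := by
  unfold phja_ext
  rw [if_neg (phja_t3_mod x)]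
  have h : 2 * (t3 x / 3) + (t3 x % 3 - 1) = x := by
    unfold t3
    omega
  rw [h]

private theorem phja_ext_inj {σ : ℕ → ℕ} (hσ : Function.Injective σ) :
    Function.Injective (phja_ext σ) := by
  intro x y h
  unfold phja_ext at h
  by_cases hx : 3 ∣ x <;> by_cases hy : 3 ∣ y
  · rwa [if_pos hx, if_pos hy] at h
  · rw [if_pos hx, if_neg hy] at h
    exact absurd (h ▸ hx) (phja_t3_mod _)
  · rw [if_neg hx, if_pos hy] at h
    exact absurd (h ▸ hy) (phja_t3_mod _)
  · rw [if_neg hx, if_neg hy] at h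
    have h1 := hσ (phja_t3_inj h)
    omega

private theorem phja_rt_rel (k v : ℕ) {σ : ℕ → ℕ} (hσ : Function.Injective σ) (a : GG) :
    lin (rt k (3 * v)) (rel t3 (rel σ a)) =
      rel (phja_ext σ) (lin (rt k (3 * v)) (rel t3 a)) := by
  induction a using Finsupp.induction_linear with
  | zero => rw [phja_rel_zero, phja_rel_zero, lin_zero, phja_rel_zero]
  | add a b ha hb =>
    rw [phja_rel_add, phja_rel_add, lin_add, ha, hb, phja_rel_add, lin_add, phja_rel_add]
  | single C n =>
    rw [phja_rel_single, phja_rel_single, phja_rel_single, lin_single, lin_single]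
    have h0 : rel (phja_ext σ) (n • rt k (3 * v) (C.image t3)) =
        n • rel (phja_ext σ) (rt k (3 * v) (C.image t3)) :=
      map_zsmul (phja_relH (phja_ext σ)) n _
    rw [h0]
    refine congrArg _ ?_
    have h1 : ((C.image σ).image t3).card = (C.image t3).card := by
      rw [card_image_of_injective _ phja_t3_inj, card_image_of_injective _ hσ,
        card_image_of_injective _ phja_t3_inj]
    have h2 : (C.image t3).image (phja_ext σ) = (C.image σ).image t3 := by
      rw [image_image, image_image]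
      exact image_congr fun x _ => phja_ext_t3 σ x
    unfold rt
    by_cases hC : C.Nonempty
    · by_cases hk : (C.image t3).card + 1 ≤ k
      · rw [if_pos ⟨(hC.image σ).image t3, by rw [h1]; exact hk⟩, if_pos ⟨hC.image t3, hk⟩,
          phja_rel_single, image_insert, h2, phja_ext_three]
      · rw [if_neg (fun h => hk (by rw [← h1]; exact h.2)), if_neg (fun h => hk h.2),
          phja_rel_zero]
    · rw [not_nonempty_iff_eq_empty] at hC
      rw [hC, image_empty, image_empty, if_neg (by simp), phja_rel_zero]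

private theorem phja_L_rel {ι : Type} [Fintype ι] (k M : ℕ) (e : ι → ℕ) (j : ι → ℤ)
    {σ : ℕ → ℕ} (hσ : Function.Injective σ) (a : GG) :
    phja_L k M e j (rel σ a) = rel (phja_ext σ) (phja_L k M e j a) := by
  rw [phja_L_apply, phja_L_apply]
  have h0 : ∀ f : ι → GG, rel (phja_ext σ) (∑ t, (j t * (M : ℤ)) • f t) =
      ∑ t, (j t * (M : ℤ)) • rel (phja_ext σ) (f t) := by
    intro f
    have h1 := map_sum (phja_relH (phja_ext σ)) (fun t => (j t * (M : ℤ)) • f t) Finset.univ
    refine h1.trans (Finset.sum_congr rfl fun t _ => ?_)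
    exact map_zsmul (phja_relH (phja_ext σ)) _ _
  rw [h0]
  exact Finset.sum_congr rfl fun t _ => by rw [phja_rt_rel k (e t) hσ a]

private theorem phja_ins (k : ℕ) (hk : 1 ≤ k) (b : Finset ℕ) (hb : ∀ x ∈ b, ¬ 3 ∣ x) (v : ℕ) :
    ins k (fun x => 3 * x) b {v} = lin (rt k (3 * v)) (ag (k - 1) b) := by
  have h1 : lin (rt k (3 * v)) (ag (k - 1) b) =
      ∑ C ∈ b.powerset.filter (fun C => C.card ≤ k - 1), rt k (3 * v) C := by
    unfold ag
    have h2 := map_sum (phja_linH (rt k (3 * v))) (fun C : Finset ℕ => Finsupp.single C (1 : ℤ))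
      (b.powerset.filter (fun C => C.card ≤ k - 1))
    refine h2.trans (Finset.sum_congr rfl fun C _ => ?_)
    change lin _ _ = _
    rw [lin_single, one_smul]
  rw [h1]
  unfold ins rt
  rw [← Finset.sum_filter, Finset.filter_filter, image_singleton]
  have hv : ∀ B ∈ b.powerset, 3 * v ∉ B := fun B hB h =>
    hb _ (mem_powerset.1 hB h) (Dvd.intro v rfl)
  have hcard : ∀ B ∈ b.powerset, ({3 * v} ∪ B : Finset ℕ).card = B.card + 1 := by
    intro B hB
    rw [← insert_eq, card_insert_of_notMem (hv B hB)]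
  refine Finset.sum_congr (filter_congr fun B hB => ?_) fun B _ => by rw [insert_eq]
  rw [hcard B hB]
  constructor
  · rintro ⟨h2, h3⟩
    exact ⟨by omega, h2, h3⟩
  · rintro ⟨-, h2, h3⟩
    exact ⟨h2, h3⟩

private theorem phja_rel_ag (k : ℕ) {σ : ℕ → ℕ} (hσ : Function.Injective σ) (g : Finset ℕ) :
    rel σ (ag k g) = ag k (g.image σ) := by
  unfold ag
  have h1 := map_sum (phja_relH σ) (fun C : Finset ℕ => Finsupp.single C (1 : ℤ))
    (g.powerset.filter (fun C => C.card ≤ k))
  refine h1.trans ?_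
  refine Finset.sum_bij (fun C _ => C.image σ) ?_ ?_ ?_ ?_
  · intro C hC
    rw [mem_filter, mem_powerset] at hC ⊢
    exact ⟨image_subset_image hC.1, by rw [card_image_of_injective _ hσ]; exact hC.2⟩
  · intro C _ C' _ h
    exact image_injective hσ h
  · intro C' hC'
    rw [mem_filter, mem_powerset] at hC'
    obtain ⟨C, hC, rfl⟩ := subset_image_iff.1 hC'.1
    refine ⟨C, ?_, rfl⟩
    rw [mem_filter, mem_powerset]
    refine ⟨by exact_mod_cast hC, ?_⟩
    rw [← card_image_of_injective C hσ]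
    exact hC'.2
  · intro C _
    exact phja_rel_single σ C 1

private theorem phja_main {ι : Type} [Fintype ι] (k M : ℕ) (hk : 1 ≤ k) (e : ι → ℕ) (j : ι → ℤ)
    (b : Finset ℕ) :
    lin (ins k (fun x => 3 * x) (b.image t3)) (∑ t, j t • ((M : ℤ) • Finsupp.single {e t} 1)) =
      phja_L k M e j (ag (k - 1) b) := by
  rw [phja_L_apply]
  have h1 := map_sum (phja_linH (ins k (fun x => 3 * x) (b.image t3)))
    (fun t => j t • ((M : ℤ) • Finsupp.single ({e t} : Finset ℕ) (1 : ℤ))) Finset.univ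
  refine h1.trans (Finset.sum_congr rfl fun t _ => ?_)
  rw [map_zsmul, map_zsmul, smul_smul]
  refine congrArg _ ?_
  change lin _ _ = _
  rw [lin_single, one_smul, phja_rel_ag _ phja_t3_inj, phja_ins k hk]
  intro x hx
  obtain ⟨y, -, rfl⟩ := mem_image.1 hx
  exact phja_t3_mod y

private theorem phja_b1 (n : ℕ) : b1 n = (evn n).image t3 := by
  unfold b1 evn
  rw [image_image]
  refine image_congr fun x _ => ?_
  change 3 * x + 1 = t3 (2 * x)
  unfold t3
  omega

private theorem phja_b2 (n : ℕ) : b2 n = (odn n).image t3 := by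
  unfold b2 odn
  rw [image_image]
  refine image_congr fun x _ => ?_
  change 3 * x + 2 = t3 (2 * x + 1)
  unfold t3
  omega

theorem phj_epd {φ : GG → ℂ} (h : EPD φ) {ι : Type} [Fintype ι] (k M : ℕ) (e : ι → ℕ)
    (j : ι → ℤ) : EPD (phj k M e φ j) := by
  refine { zero := ?_, neg := ?_, psd := ?_, inv := ?_ }
  · rw [phja_phj, map_zero, h.zero]
  · intro a
    rw [phja_phj, phja_phj, map_neg, h.neg]
  · intro κ _ x c
    have h1 := h.psd κ (fun i => phja_L k M e j (x i)) c
    simp only [phja_phj, map_sub]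
    exact h1
  · intro σ hσ a
    rw [phja_phj, phja_phj, phja_L_rel k M e j hσ, h.inv _ (phja_ext_inj hσ)]

theorem phj_psi (φ : GG → ℂ) {ι : Type} [Fintype ι] (k M N l : ℕ) (hk : 1 ≤ k)
    (e : ι → ℕ) (j : ι → ℤ) :
    (psi1 k N l φ (∑ t, j t • ((M : ℤ) • Finsupp.single {e t} 1))).re =
      YY (k - 1) N l (phj k M e φ j) := by
  unfold psi1 YY
  have h0 : ((l : ℂ)) ^ 2 = (((l : ℝ) ^ 2 : ℝ) : ℂ) := by push_cast; rfl
  rw [h0, Complex.div_ofReal_re, Complex.re_sum]
  refine congrArg (fun z : ℝ => z / (l : ℝ) ^ 2) (Finset.sum_congr rfl fun i _ => ?_)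
  rw [Complex.re_sum]
  refine Finset.sum_congr rfl fun i' _ => ?_
  rw [phja_b1, phja_b2, phja_main k M hk, phja_main k M hk, phja_phj, map_sub]

end Pool.Agent.Lib.MP_90b327_co.RS
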