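import Mathlib
import Pool.Agent.Lib.MP_90b327_co.RS.RDef

/-!
MODULE Pig (25 minutes, old scale). Pigeonhole principle for averages.

PROOF. For every `l ≥ 1` the set `G_l = {a | c/2 ≤ f l a}` has at least `(c/2) |α|` elements (`c |α| ≤ ∑ f l a ≤ |G_l| + (c/2) |α|`). There are finitely many subsets of `α`, so some `G` equals `G_l` for infinitely many `l` (`Filter.frequently..`, pigeonhole: `exists_infinite_fiber` or `Filter.Tendsto` argument).
-/

set_option autoImplicit false

namespace Pool.Agent.Lib.MP_90b327_co.RS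

open Finset MeasureTheory Filter Pool.Agent.Lib.MP_90b327_co Pool.Agent.Lib.MP_90b327_co.RB
  Pool.Agent.Lib.MP_90b327_co.WW

theorem pig {α : Type} [Fintype α] (f : ℕ → α → ℝ) (c : ℝ) (hc : 0 < c) (hf : ∀ l a, f l a ≤ 1)
    (h : ∀ l, 1 ≤ l → c * Fintype.card α ≤ ∑ a, f l a) :
    ∃ G : Finset α, c / 2 * Fintype.card α ≤ G.card ∧ ∀ a ∈ G, ∃ᶠ l in atTop, c / 2 ≤ f l a := by
  classical
  obtain ⟨G, hG⟩ := Finite.exists_infinite_fiber
    (fun l : ℕ => (Finset.univ.filter (fun a => c / 2 ≤ f l a) : Finset α))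
  have hinf : (((fun l : ℕ => (Finset.univ.filter (fun a => c / 2 ≤ f l a) : Finset α)) ⁻¹'
      {G}) : Set ℕ).Infinite := Set.infinite_coe_iff.1 hG
  have key : ∀ l, 1 ≤ l → c / 2 * Fintype.card α ≤
      ((Finset.univ.filter (fun a => c / 2 ≤ f l a) : Finset α).card : ℝ) := by
    intro l hl
    have h1 := h l hl
    have h2 : ∑ a, f l a ≤ ∑ a : α, ((if c / 2 ≤ f l a then (1 : ℝ) else 0) + c / 2) := by
      apply Finset.sum_le_sum
      intro a _
      split_ifs with h3
      · have := hf l a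
        linarith
      · push Not at h3
        linarith
    rw [Finset.sum_add_distrib, Finset.sum_const, Finset.card_univ, nsmul_eq_mul,
      Finset.sum_boole] at h2
    linarith
  refine ⟨G, ?_, fun a ha => ?_⟩
  · obtain ⟨l, hl, hl1⟩ := hinf.exists_gt 0
    have h1 := key l hl1
    have h2 : (Finset.univ.filter (fun a => c / 2 ≤ f l a) : Finset α) = G := hl
    rw [h2] at h1
    exact h1
  · rw [Nat.frequently_atTop_iff_infinite]
    refine hinf.mono fun l hl => ?_
    have h2 : (Finset.univ.filter (fun a => c / 2 ≤ f l a) : Finset α) = G := hl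
    rw [← h2, Finset.mem_filter] at ha
    exact ha.2

end Pool.Agent.Lib.MP_90b327_co.RS
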