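import Mathlib
import Pool.Agent.Lib.MP_90b327_co.RS.RDef
import Pool.Agent.Lib.MP_90b327_co.RS.InsA
import Pool.Agent.Lib.MP_90b327_co.RS.PdA

/-!
MODULE Psi1A (40 minutes, old scale). `ψ` of step 1 is exchangeable (text 9).

PROOF. `φ ∘ (additive map)` is positive definite (`lin_add`), the mean of positive definite functions is positive definite (`l ≥ 1`). `inv`: for `τ` injective let `τ' (3 x) = 3 τ x`, `τ' y = y` for `y ≢ 0 mod 3` (injective), `ins_rel` and `h.inv τ'`.
-/

set_option autoImplicit false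

namespace Pool.Agent.Lib.MP_90b327_co.RS

open Finset MeasureTheory Filter Pool.Agent.Lib.MP_90b327_co Pool.Agent.Lib.MP_90b327_co.RB
  Pool.Agent.Lib.MP_90b327_co.WW

/-- the composition of a positive definite function with an additive map -/
theorem Psi1A_comp {φ : GG → ℂ} (h : PD φ) (F : GG →+ GG) : PD (fun a => φ (F a)) := by
  refine ⟨?_, ?_, ?_⟩
  · show φ (F 0) = 1
    rw [map_zero, h.zero]
  · intro a
    show φ (F (-a)) = (starRingEnd ℂ) (φ (F a))
    rw [map_neg, h.neg]
  · intro ι _ x c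
    have h1 := h.psd ι (fun i => F (x i)) c
    have h2 : ∀ i j, F (x j) - F (x i) = F (x j - x i) := fun i j => (map_sub F _ _).symm
    simpa only [h2] using h1

/-- the mean of positive definite functions -/
theorem Psi1A_mean {κ : Type} (s : Finset κ) (hs : s.Nonempty) (f : κ → GG → ℂ)
    (h : ∀ i ∈ s, PD (f i)) : PD (fun a => (∑ i ∈ s, f i a) / (s.card : ℂ)) := by
  have hc : (s.card : ℂ) ≠ 0 := by
    exact_mod_cast (Finset.card_pos.2 hs).ne'
  refine ⟨?_, ?_, ?_⟩
  · show (∑ i ∈ s, f i 0) / (s.card : ℂ) = 1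
    rw [Finset.sum_congr rfl (fun i hi => (h i hi).zero), Finset.sum_const, nsmul_eq_mul, mul_one,
      div_self hc]
  · intro a
    show (∑ i ∈ s, f i (-a)) / (s.card : ℂ) = (starRingEnd ℂ) ((∑ i ∈ s, f i a) / (s.card : ℂ))
    rw [Finset.sum_congr rfl (fun i hi => (h i hi).neg a), map_div₀, map_sum, map_natCast]
  · intro ι _ x c
    have h1 : ∑ i, ∑ j, (starRingEnd ℂ) (c i) * c j *
        ((∑ t ∈ s, f t (x j - x i)) / (s.card : ℂ)) =
        (∑ t ∈ s, ∑ i, ∑ j, (starRingEnd ℂ) (c i) * c j * f t (x j - x i)) / (s.card : ℂ) := by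
      calc ∑ i, ∑ j, (starRingEnd ℂ) (c i) * c j * ((∑ t ∈ s, f t (x j - x i)) / (s.card : ℂ)) =
          ∑ i, ∑ j, (∑ t ∈ s, (starRingEnd ℂ) (c i) * c j * f t (x j - x i)) / (s.card : ℂ) := by
            refine Finset.sum_congr rfl fun i _ => Finset.sum_congr rfl fun j _ => ?_
            rw [← Finset.mul_sum, mul_div_assoc]
        _ = (∑ i, ∑ j, ∑ t ∈ s, (starRingEnd ℂ) (c i) * c j * f t (x j - x i)) / (s.card : ℂ) := by
            rw [Finset.sum_div]
            refine Finset.sum_congr rfl fun i _ => ?_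
            rw [Finset.sum_div]
        _ = (∑ t ∈ s, ∑ i, ∑ j, (starRingEnd ℂ) (c i) * c j * f t (x j - x i)) / (s.card : ℂ) := by
            congr 1
            calc ∑ i, ∑ j, ∑ t ∈ s, (starRingEnd ℂ) (c i) * c j * f t (x j - x i) =
                ∑ i, ∑ t ∈ s, ∑ j, (starRingEnd ℂ) (c i) * c j * f t (x j - x i) :=
                  Finset.sum_congr rfl fun i _ => Finset.sum_comm
              _ = ∑ t ∈ s, ∑ i, ∑ j, (starRingEnd ℂ) (c i) * c j * f t (x j - x i) :=
                  Finset.sum_comm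
    show 0 ≤ (∑ i, ∑ j, (starRingEnd ℂ) (c i) * c j *
        ((∑ t ∈ s, f t (x j - x i)) / (s.card : ℂ))).re
    rw [h1]
    have h2 : (((∑ t ∈ s, ∑ i, ∑ j, (starRingEnd ℂ) (c i) * c j * f t (x j - x i)) /
        (s.card : ℂ))).re =
        (∑ t ∈ s, (∑ i, ∑ j, (starRingEnd ℂ) (c i) * c j * f t (x j - x i)).re) / (s.card : ℝ) := by
      rw [Complex.div_natCast_re, Complex.re_sum]
    rw [h2]
    exact div_nonneg (Finset.sum_nonneg fun t ht => (h t ht).psd ι x c) (Nat.cast_nonneg _)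

theorem psi1_epd {φ : GG → ℂ} (h : EPD φ) (k N l : ℕ) (hl : 1 ≤ l) : EPD (psi1 k N l φ) := by
  classical
  let L : Finset ℕ → (GG →+ GG) := fun b =>
    AddMonoidHom.mk' (lin (ins k (fun x => 3 * x) b)) (lin_add _)
  let F : ℕ × ℕ → (GG →+ GG) := fun p => L (b1 (N * (p.1 + 1))) - L (b2 (N * (p.2 + 1)))
  let s : Finset (ℕ × ℕ) := range l ×ˢ range l
  have hs : s.Nonempty := ⟨(0, 0), Finset.mem_product.2
    ⟨Finset.mem_range.2 hl, Finset.mem_range.2 hl⟩⟩
  have heq : psi1 k N l φ = fun a => (∑ p ∈ s, φ (F p a)) / (s.card : ℂ) := by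
    funext a
    unfold psi1
    have h1 : s.card = l ^ 2 := by
      rw [Finset.card_product, Finset.card_range]
      ring
    rw [h1, Finset.sum_product, Nat.cast_pow]
    refine congrArg (fun z : ℂ => z / (l : ℂ) ^ 2) ?_
    refine Finset.sum_congr rfl fun i _ => Finset.sum_congr rfl fun j _ => ?_
    have h2 : F (i, j) a = L (b1 (N * (i + 1))) a - L (b2 (N * (j + 1))) a := by
      show (L (b1 (N * (i + 1))) - L (b2 (N * (j + 1)))) a = _
      rw [AddMonoidHom.sub_apply]
    rw [h2]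
    rfl
  have hPD : PD (psi1 k N l φ) := by
    rw [heq]
    exact Psi1A_mean s hs (fun p a => φ (F p a)) (fun p _ => Psi1A_comp h.toPD (F p))
  refine { toPD := hPD, inv := ?_ }
  intro τ hτ a
  let τ' : ℕ → ℕ := fun x => if x % 3 = 0 then 3 * τ (x / 3) else x
  have hτ' : Function.Injective τ' := by
    intro x y hxy
    simp only [τ'] at hxy
    by_cases hx : x % 3 = 0
    · by_cases hy : y % 3 = 0
      · rw [if_pos hx, if_pos hy] at hxy
        have h1 : x / 3 = y / 3 := hτ (by omega)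
        omega
      · rw [if_pos hx, if_neg hy] at hxy
        omega
    · by_cases hy : y % 3 = 0
      · rw [if_neg hx, if_pos hy] at hxy
        omega
      · rw [if_neg hx, if_neg hy] at hxy
        exact hxy
  have h3 : ∀ x, τ' (3 * x) = 3 * τ x := by
    intro x
    simp only [τ']
    rw [if_pos (by omega)]
    congr 2
    omega
  have hb1 : ∀ n, ∀ x ∈ b1 n, τ' x = x := by
    intro n x hx
    unfold b1 at hx
    obtain ⟨y, _, rfl⟩ := Finset.mem_image.1 hx
    simp only [τ']
    rw [if_neg (by omega)]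
  have hb2 : ∀ n, ∀ x ∈ b2 n, τ' x = x := by
    intro n x hx
    unfold b2 at hx
    obtain ⟨y, _, rfl⟩ := Finset.mem_image.1 hx
    simp only [τ']
    rw [if_neg (by omega)]
  have hinj3 : Function.Injective (fun x : ℕ => 3 * x) := fun x y hxy => by
    have h4 : 3 * x = 3 * y := hxy
    omega
  unfold psi1
  refine congrArg (fun z : ℂ => z / (l : ℂ) ^ 2) ?_
  refine Finset.sum_congr rfl fun i _ => Finset.sum_congr rfl fun j _ => ?_
  rw [ins_rel k hinj3 hτ' h3 _ (hb1 _), ins_rel k hinj3 hτ' h3 _ (hb2 _), ← rel_sub,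
    h.inv τ' hτ']

end Pool.Agent.Lib.MP_90b327_co.RS
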