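import Mathlib
import Pool.Agent.Lib.MP_90b327_co.RS.RDef
import Pool.Agent.Lib.MP_90b327_co.RS.InsA
import Pool.Agent.Lib.MP_90b327_co.RS.Avg2
import Pool.Agent.Lib.MP_90b327_co.RS.ExcA

/-!
MODULE Vdc1 (50 minutes, old scale). Van der Corput with a common block (text 9, step 1).

PROOF. Let `s = (range (N (j+1))).image (3 ·)`. By `ins_ag`: `psi1 k N l φ (ag (k-1) (range (N (j+1)))) = (1/l²) ∑_{i,i'} φ (ag k (s ∪ b1 (N (i+1))) - ag k (s ∪ b2 (N (i'+1))))` (the parts `ag k s` cancel). `avg_two` with `y = 0`, `x i r = ag k (b i r ∪ s)`, `b i r` pairwise disjoint sets of `N (i+1)` vertices outside the multiples of `3`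
(code the pairs: e.g. image of `range (N (i+1))` under `x ↦ 3 * Nat.pair (Nat.pair i r) x + 1`), `u i = φ (ag k (range (N (i+1) + N (j+1))))` (`exc_one`), `v i i' = (φ (ag k (b1 (N (i+1)) ∪ s) - ag k (b2 (N (i'+1)) ∪ s))).re` (`exc_two` and `neg`).
-/

set_option autoImplicit false

namespace Pool.Agent.Lib.MP_90b327_co.RS

open Finset MeasureTheory Filter Pool.Agent.Lib.MP_90b327_co Pool.Agent.Lib.MP_90b327_co.RB
  Pool.Agent.Lib.MP_90b327_co.WW

private def Vdc1_B (N i r : ℕ) : Finset ℕ :=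
  (range (N * (i + 1))).image (fun t => 3 * Nat.pair (Nat.pair i r) t + 1)

private theorem Vdc1_card (N i r : ℕ) : (Vdc1_B N i r).card = N * (i + 1) := by
  unfold Vdc1_B
  rw [card_image_of_injective, card_range]
  intro a b hab
  have h0 : 3 * Nat.pair (Nat.pair i r) a + 1 = 3 * Nat.pair (Nat.pair i r) b + 1 := hab
  have h1 : Nat.pair (Nat.pair i r) a = Nat.pair (Nat.pair i r) b := by omega
  exact (Nat.pair_eq_pair.1 h1).2

private theorem Vdc1_disj (N i r j r' : ℕ) (h : (i, r) ≠ (j, r')) :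
    Disjoint (Vdc1_B N i r) (Vdc1_B N j r') := by
  rw [Finset.disjoint_left]
  intro a ha hb
  unfold Vdc1_B at ha hb
  rw [mem_image] at ha hb
  obtain ⟨t, _, e1⟩ := ha
  obtain ⟨t', _, e2⟩ := hb
  have h1 : Nat.pair (Nat.pair i r) t = Nat.pair (Nat.pair j r') t' := by omega
  have h2 := (Nat.pair_eq_pair.1 (Nat.pair_eq_pair.1 h1).1)
  exact h (Prod.ext h2.1 h2.2)

private theorem Vdc1_mod {s t : Finset ℕ} {a b : ℕ} (hs : ∀ x ∈ s, x % 3 = a)
    (ht : ∀ x ∈ t, x % 3 = b) (hab : a ≠ b) : Disjoint s t := by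
  rw [Finset.disjoint_left]
  intro x h1 h2
  exact hab ((hs x h1).symm.trans (ht x h2))

private theorem Vdc1_B1 (N i r : ℕ) : ∀ x ∈ Vdc1_B N i r, x % 3 = 1 := by
  intro x hx
  unfold Vdc1_B at hx
  rw [mem_image] at hx
  obtain ⟨t, _, e⟩ := hx
  omega

private theorem Vdc1_b1 (n : ℕ) : ∀ x ∈ b1 n, x % 3 = 1 := by
  intro x hx
  unfold b1 at hx
  rw [mem_image] at hx
  obtain ⟨t, _, e⟩ := hx
  omega

private theorem Vdc1_b2 (n : ℕ) : ∀ x ∈ b2 n, x % 3 = 2 := by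
  intro x hx
  unfold b2 at hx
  rw [mem_image] at hx
  obtain ⟨t, _, e⟩ := hx
  omega

private theorem Vdc1_s (s : Finset ℕ) : ∀ x ∈ s.image (fun x => 3 * x), x % 3 = 0 := by
  intro x hx
  rw [mem_image] at hx
  obtain ⟨t, _, e⟩ := hx
  omega

private theorem Vdc1_c1 (n : ℕ) : (b1 n).card = n := by
  unfold b1
  rw [card_image_of_injective, card_range]
  intro a b hab
  have h0 : 3 * a + 1 = 3 * b + 1 := hab
  omega

private theorem Vdc1_c2 (n : ℕ) : (b2 n).card = n := by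
  unfold b2
  rw [card_image_of_injective, card_range]
  intro a b hab
  have h0 : 3 * a + 2 = 3 * b + 2 := hab
  omega

private theorem Vdc1_inj : Function.Injective (fun x : ℕ => 3 * x) := by
  intro a b hab
  have h0 : 3 * a = 3 * b := hab
  omega

theorem vdc1 {φ : GG → ℂ} (h : EPD φ) (k N l j : ℕ) (hk : 1 ≤ k) (hl : 1 ≤ l) :
    ‖(∑ i ∈ range l, φ (ag k (range (N * (i + 1) + N * (j + 1))))) / l‖ ^ 2 ≤
      (psi1 k N l φ (ag (k - 1) (range (N * (j + 1))))).re := by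
  set s : Finset ℕ := (range (N * (j + 1))).image (fun x => 3 * x) with hs
  have hsc : s.card = N * (j + 1) := by
    rw [hs, card_image_of_injective _ Vdc1_inj, card_range]
  have hsm : ∀ x ∈ s, x % 3 = 0 := Vdc1_s _
  have key : ∀ (b b' : Finset ℕ), (∀ x ∈ b, x % 3 = 1) → (∀ x ∈ b', x % 3 = 2) →
      lin (ins k (fun x => 3 * x) b) (ag (k - 1) (range (N * (j + 1)))) -
        lin (ins k (fun x => 3 * x) b') (ag (k - 1) (range (N * (j + 1)))) =
      ag k (b ∪ s) - ag k (b' ∪ s) := by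
    intro b b' hb hb'
    rw [ins_ag k hk Vdc1_inj b _ (Vdc1_mod hb hsm (by decide)),
      ins_ag k hk Vdc1_inj b' _ (Vdc1_mod hb' hsm (by decide)), ← hs, union_comm s b,
      union_comm s b']
    abel
  have hu : ∀ i r, i < l → φ (ag k (Vdc1_B N i r ∪ s) - 0) =
      φ (ag k (range (N * (i + 1) + N * (j + 1)))) := by
    intro i r _
    rw [sub_zero]
    refine exc_one h k _ _ ?_
    rw [card_union_of_disjoint (Vdc1_mod (Vdc1_B1 N i r) hsm (by decide)), Vdc1_card, hsc,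
      card_range]
  have hv : ∀ i i' r r', i < l → i' < l → (i, r) ≠ (i', r') →
      (φ (ag k (Vdc1_B N i' r' ∪ s) - ag k (Vdc1_B N i r ∪ s))).re =
      (φ (ag k (b1 (N * (i' + 1)) ∪ s) - ag k (b2 (N * (i + 1)) ∪ s))).re := by
    intro i i' r r' _ _ hne
    rw [exc_two h k s (Vdc1_B N i' r') (Vdc1_B N i r) (b1 (N * (i' + 1))) (b2 (N * (i + 1)))
      (Vdc1_disj N i r i' r' hne).symm
      (Vdc1_mod (Vdc1_b1 _) (Vdc1_b2 _) (by decide))
      (Vdc1_mod (Vdc1_B1 N i' r') hsm (by decide)) (Vdc1_mod (Vdc1_B1 N i r) hsm (by decide))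
      (Vdc1_mod (Vdc1_b1 _) hsm (by decide)) (Vdc1_mod (Vdc1_b2 _) hsm (by decide))
      (by rw [Vdc1_card, Vdc1_c1]) (by rw [Vdc1_card, Vdc1_c2])]
  have h1 := avg_two h.toPD l hl (fun i r => ag k (Vdc1_B N i r ∪ s)) 0
    (fun i => φ (ag k (range (N * (i + 1) + N * (j + 1)))))
    (fun i i' => (φ (ag k (b1 (N * (i' + 1)) ∪ s) - ag k (b2 (N * (i + 1)) ∪ s))).re) hu hv
  refine h1.trans (le_of_eq ?_)
  unfold psi1
  have h2 : ((l : ℂ)) ^ 2 = (((l : ℝ) ^ 2 : ℝ) : ℂ) := by push_cast; rfl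
  rw [h2, Complex.div_ofReal_re, Complex.re_sum, sum_comm]
  congr 1
  refine sum_congr rfl fun i _ => ?_
  rw [Complex.re_sum]
  refine sum_congr rfl fun i' _ => ?_
  rw [key _ _ (Vdc1_b1 _) (Vdc1_b2 _)]

end Pool.Agent.Lib.MP_90b327_co.RS
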