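import Mathlib
import Pool.Agent.Lib.MP_90b327_co.RS.RDef
import Pool.Agent.Lib.MP_90b327_co.RS.Vdc1
import Pool.Agent.Lib.MP_90b327_co.RS.PdA
import Pool.Agent.Lib.MP_90b327_co.RS.MmYy
import Pool.Agent.Lib.MP_90b327_co.RS.Psi1A

/-!
MODULE Vdc2 (45 minutes, old scale). Large means of `ψ` (text 9, step 1).

PROOF. Fix `l₁`. For `l` with `c ≤ ‖mm k N l φ‖`: `(mm (k-1) N l (psi1 ..)).re = (1/l) ∑_j (psi1 (ag (k-1) (range (N (j+1))))).re ≥ (1/l) ∑_j ‖x_j‖² ≥ ‖(1/l) ∑_j x_j‖²` (Cauchy-Schwarz), `x_j = (∑_{i<l₁} φ (ag k (range (N (i+1) + N (j+1))))) / l₁` (`vdc1`). `(1/l) ∑_j φ (ag k (range (N (i+1) + N (j+1))))` differs from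
`mm k N l φ` by at most `2 (i+1)/l` (shift by `i + 1` in a sum of `l` numbers of modulus `≤ 1`: `N (i+1) + N (j+1) = N (j + (i+1) + 1)`), so `‖(1/l) ∑_j x_j‖ ≥ c - 2 l₁ / l`, and its square is `≥ c²/2` for large `l`. (`c ≤ 1`.) Then `‖mm‖² ≤ YY` (`mm_yy`, `psi1_epd`): `c⁴/4 ≤ YY (k-1) N l (psi1 ..)` for infinitely many `l`.
-/

set_option autoImplicit false

namespace Pool.Agent.Lib.MP_90b327_co.RS

open Finset MeasureTheory Filter Pool.Agent.Lib.MP_90b327_co Pool.Agent.Lib.MP_90b327_co.RB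
  Pool.Agent.Lib.MP_90b327_co.WW

/-- shift of a mean of numbers of modulus `≤ 1` -/
private theorem vdc2_shift (a : ℕ → ℂ) (ha : ∀ n, ‖a n‖ ≤ 1) (l m : ℕ) :
    ‖∑ j ∈ range l, a (m + j) - ∑ j ∈ range l, a j‖ ≤ 2 * m := by
  have a1 : ∑ i ∈ range (l + m), a i = ∑ i ∈ range l, a i + ∑ i ∈ range m, a (l + i) :=
    Finset.sum_range_add _ _ _
  have a2 : ∑ i ∈ range (m + l), a i = ∑ i ∈ range m, a i + ∑ i ∈ range l, a (m + i) :=
    Finset.sum_range_add _ _ _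
  rw [add_comm m l, a1] at a2
  have e : ∑ j ∈ range l, a (m + j) - ∑ j ∈ range l, a j =
      ∑ i ∈ range m, a (l + i) - ∑ i ∈ range m, a i := by
    linear_combination -a2
  rw [e]
  refine (norm_sub_le _ _).trans ?_
  have b1 : ‖∑ i ∈ range m, a (l + i)‖ ≤ m := by
    refine (norm_sum_le _ _).trans ?_
    calc ∑ i ∈ range m, ‖a (l + i)‖ ≤ ∑ _i ∈ range m, (1 : ℝ) :=
          Finset.sum_le_sum (fun i _ => ha _)
      _ = m := by simp
  have b2 : ‖∑ i ∈ range m, a i‖ ≤ m := by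
    refine (norm_sum_le _ _).trans ?_
    calc ∑ i ∈ range m, ‖a i‖ ≤ ∑ _i ∈ range m, (1 : ℝ) :=
          Finset.sum_le_sum (fun i _ => ha _)
      _ = m := by simp
  linarith

/-- Cauchy-Schwarz for a mean -/
private theorem vdc2_cs (x : ℕ → ℂ) (l : ℕ) (hl : 1 ≤ l) :
    ‖(∑ j ∈ range l, x j) / l‖ ^ 2 ≤ (∑ j ∈ range l, ‖x j‖ ^ 2) / l := by
  have hl0 : (0 : ℝ) < l := by exact_mod_cast hl
  rw [norm_div, Complex.norm_natCast, div_pow, div_le_div_iff₀ (by positivity) hl0]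
  have h1 : ‖∑ j ∈ range l, x j‖ ^ 2 ≤ l * ∑ j ∈ range l, ‖x j‖ ^ 2 := by
    have h2 : ‖∑ j ∈ range l, x j‖ ≤ ∑ j ∈ range l, ‖x j‖ := norm_sum_le _ _
    have h3 : (∑ j ∈ range l, ‖x j‖) ^ 2 ≤ (range l).card * ∑ j ∈ range l, ‖x j‖ ^ 2 :=
      sq_sum_le_card_mul_sum_sq
    rw [card_range] at h3
    exact (pow_le_pow_left₀ (norm_nonneg _) h2 2).trans h3
  calc ‖∑ j ∈ range l, x j‖ ^ 2 * l ≤ (l * ∑ j ∈ range l, ‖x j‖ ^ 2) * l :=
        mul_le_mul_of_nonneg_right h1 hl0.le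
    _ = (∑ j ∈ range l, ‖x j‖ ^ 2) * (l : ℝ) ^ 2 := by ring

theorem vdc2 {φ : GG → ℂ} (h : EPD φ) (k N : ℕ) (hk : 1 ≤ k) (hN : 1 ≤ N) (c : ℝ) (hc : 0 < c)
    (hf : ∃ᶠ l in atTop, c ≤ ‖mm k N l φ‖) (l₁ : ℕ) (hl : 1 ≤ l₁) :
    ∃ᶠ l in atTop, c ^ 4 / 4 ≤ YY (k - 1) N l (psi1 k N l₁ φ) := by
  have hl1 : (0 : ℝ) < l₁ := by exact_mod_cast hl
  have key : ∀ l : ℕ, 1 ≤ l → 8 * (l₁ : ℝ) / c ≤ l → c ≤ ‖mm k N l φ‖ →
      c ^ 4 / 4 ≤ YY (k - 1) N l (psi1 k N l₁ φ) := by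
    intro l hl0 hlc hml
    have hlp : (0 : ℝ) < l := by exact_mod_cast hl0
    have hlc0 : (l : ℂ) ≠ 0 := by exact_mod_cast hlp.ne'
    have hl1c : (l₁ : ℂ) ≠ 0 := by exact_mod_cast hl1.ne'
    obtain ⟨a, ha⟩ : ∃ a : ℕ → ℂ, a = fun n => φ (ag k (range (N * (n + 1)))) := ⟨_, rfl⟩
    have ha1 : ∀ n, ‖a n‖ ≤ 1 := fun n => by rw [ha]; exact pd_norm h.toPD _
    obtain ⟨x, hx⟩ : ∃ x : ℕ → ℂ, x = fun j =>
      (∑ i ∈ range l₁, φ (ag k (range (N * (i + 1) + N * (j + 1))))) / l₁ := ⟨_, rfl⟩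
    have hxa : ∀ j, x j = (∑ i ∈ range l₁, a (i + 1 + j)) / l₁ := by
      intro j
      rw [hx, ha]
      simp only
      congr 1
      apply Finset.sum_congr rfl
      intro i _
      congr 3
      ring
    have hmm : mm k N l φ = (∑ i ∈ range l, a i) / l := by
      rw [ha]; rfl
    -- the mean of the `x j` is close to `mm`
    have h1 : ‖(∑ j ∈ range l, x j) / l - mm k N l φ‖ ≤ 2 * l₁ / l := by
      have e1 : (∑ j ∈ range l, x j) / l - mm k N l φ =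
          (∑ i ∈ range l₁, (∑ j ∈ range l, a (i + 1 + j) - ∑ j ∈ range l, a j)) / (l₁ * l) := by
        rw [hmm]
        simp only [hxa]
        rw [← Finset.sum_div, Finset.sum_comm, Finset.sum_sub_distrib, Finset.sum_const, card_range,
          nsmul_eq_mul]
        field_simp
      rw [e1, norm_div, norm_mul, Complex.norm_natCast, Complex.norm_natCast,
        div_le_div_iff₀ (by positivity) hlp]
      have h2 : ‖∑ i ∈ range l₁, (∑ j ∈ range l, a (i + 1 + j) - ∑ j ∈ range l, a j)‖ ≤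
          l₁ * (2 * l₁) := by
        refine (norm_sum_le _ _).trans ?_
        calc ∑ i ∈ range l₁, ‖∑ j ∈ range l, a (i + 1 + j) - ∑ j ∈ range l, a j‖
            ≤ ∑ _i ∈ range l₁, (2 * (l₁ : ℝ)) := by
              apply Finset.sum_le_sum
              intro i hi
              refine (vdc2_shift a ha1 l (i + 1)).trans ?_
              have : ((i + 1 : ℕ) : ℝ) ≤ l₁ := by
                exact_mod_cast (mem_range.mp hi)
              linarith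
          _ = l₁ * (2 * l₁) := by simp
      calc ‖∑ i ∈ range l₁, (∑ j ∈ range l, a (i + 1 + j) - ∑ j ∈ range l, a j)‖ * l
          ≤ (l₁ * (2 * l₁)) * l := mul_le_mul_of_nonneg_right h2 hlp.le
        _ = 2 * l₁ * (l₁ * l) := by ring
    have h2 : 2 * (l₁ : ℝ) / l ≤ c / 4 := by
      rw [div_le_div_iff₀ hlp (by norm_num)]
      rw [div_le_iff₀ hc] at hlc
      linarith
    have h3 : 3 * c / 4 ≤ ‖(∑ j ∈ range l, x j) / l‖ := by
      have h4 : ‖mm k N l φ‖ ≤ ‖(∑ j ∈ range l, x j) / l‖ +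
          ‖(∑ j ∈ range l, x j) / l - mm k N l φ‖ := by
        have h5 := norm_sub_norm_le (mm k N l φ) ((∑ j ∈ range l, x j) / l)
        rw [norm_sub_rev] at h5
        linarith
      linarith
    have h4 : c ^ 2 / 2 ≤ (mm (k - 1) N l (psi1 k N l₁ φ)).re := by
      have h5 : (mm (k - 1) N l (psi1 k N l₁ φ)).re =
          (∑ j ∈ range l, (psi1 k N l₁ φ (ag (k - 1) (range (N * (j + 1))))).re) / l := by
        unfold mm
        rw [← Complex.ofReal_natCast l, Complex.div_ofReal_re, Complex.re_sum]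
      have h6 := vdc2_cs x l hl0
      have h7 : (∑ j ∈ range l, ‖x j‖ ^ 2) / l ≤
          (∑ j ∈ range l, (psi1 k N l₁ φ (ag (k - 1) (range (N * (j + 1))))).re) / l := by
        apply div_le_div_of_nonneg_right _ hlp.le
        apply Finset.sum_le_sum
        intro j _
        rw [hx]
        exact vdc1 h k N l₁ j hk hl
      rw [h5]
      nlinarith
    have h5 : c ^ 2 / 2 ≤ ‖mm (k - 1) N l (psi1 k N l₁ φ)‖ :=
      h4.trans (Complex.re_le_norm _)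
    have h6 := mm_yy (psi1_epd h k N l₁ hl) (k - 1) N l hl0
    have h7 : (c ^ 2 / 2) ^ 2 ≤ ‖mm (k - 1) N l (psi1 k N l₁ φ)‖ ^ 2 :=
      pow_le_pow_left₀ (by positivity) h5 2
    calc c ^ 4 / 4 = (c ^ 2 / 2) ^ 2 := by ring
      _ ≤ _ := h7.trans h6
  refine (hf.and_eventually (eventually_ge_atTop (⌈8 * (l₁ : ℝ) / c⌉₊ + 1))).mono ?_
  intro l hll
  obtain ⟨h1, h2⟩ := hll
  apply key l (by omega) _ h1
  have h3 := Nat.le_ceil (8 * (l₁ : ℝ) / c)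
  have h4 : ((⌈8 * (l₁ : ℝ) / c⌉₊ + 1 : ℕ) : ℝ) ≤ l := by exact_mod_cast h2
  push_cast at h4
  linarith

end Pool.Agent.Lib.MP_90b327_co.RS
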