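import Mathlib
import Pool.Agent.Lib.MP_90b327_co.RS.RDef
import Pool.Agent.Lib.MP_90b327_co.RS.Vdc2
import Pool.Agent.Lib.MP_90b327_co.RS.PhjA
import Pool.Agent.Lib.MP_90b327_co.RS.AjA
import Pool.Agent.Lib.MP_90b327_co.RS.Psi1A

/-!
MODULE S2A (45 minutes, old scale). Step 2, first part (text 9, (***)).

PROOF. `T2 (k-1)` for `N` and `c⁴/4` gives `M`. For `l₁ ≥ 1`: `psi1_epd`, `vdc2`: `c⁴/8 ≤ (AJ J (psi1 k N l₁ φ) (fun t => M • 1_{e t})).re` (`{e t}` is non-empty of cardinality `1 ≤ k - 1`). Unfold `AJ`, `AF`: it is `J^(-2r) ∑_p ∑_q (psi1 (∑ t, (p_t - q_t) • M • 1_{e t})).re`, and `phj_psi`.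
(The real part of a sum divided by the real number `J^(2r)`; `AF` uses `Classical` decidability for the function type, the statement too: `open Classical in`.)
-/

set_option autoImplicit false

namespace Pool.Agent.Lib.MP_90b327_co.RS

open Finset MeasureTheory Filter Pool.Agent.Lib.MP_90b327_co Pool.Agent.Lib.MP_90b327_co.RB
  Pool.Agent.Lib.MP_90b327_co.WW

open Classical in
theorem s2_a (k : ℕ) (hk : 2 ≤ k) (h : T2 (k - 1)) (N : ℕ) (hN : 1 ≤ N) (c : ℝ) (hc : 0 < c) :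
    ∃ M : ℕ, 1 ≤ M ∧ ∀ φ : GG → ℂ, EPD φ → (∃ᶠ l in atTop, c ≤ ‖mm k N l φ‖) →
      ∀ (ι : Type) [Fintype ι] (e : ι → ℕ) (J l₁ : ℕ), 1 ≤ J → 1 ≤ l₁ →
        c ^ 4 / 8 * (J : ℝ) ^ (2 * Fintype.card ι) ≤ ∑ p : ι → Fin J, ∑ q : ι → Fin J,
          YY (k - 1) N l₁ (phj k M e φ (fun t => ((p t : ℕ) : ℤ) - ((q t : ℕ) : ℤ))) := by
  obtain ⟨M, hM, H⟩ := h N (c ^ 4 / 4) hN (by positivity)
  refine ⟨M, hM, fun φ hφ hf ι _ e J l₁ hJ hl => ?_⟩
  have h1 := psi1_epd hφ k N l₁ hl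
  have h2 := vdc2 hφ k N (by omega) hN c hc hf l₁ hl
  have h3 := H (psi1 k N l₁ φ) h1 h2 M hM dvd_rfl ι (fun t => {e t})
    (fun t => ⟨singleton_nonempty _, by rw [card_singleton]; omega⟩) J hJ
  have hJ0 : (0 : ℝ) < (J : ℝ) ^ (2 * Fintype.card ι) := by
    have : (0 : ℝ) < J := by exact_mod_cast hJ
    positivity
  have e1 : ∀ z : ℂ, (z / (J : ℂ) ^ (2 * Fintype.card ι)).re =
      z.re / (J : ℝ) ^ (2 * Fintype.card ι) := by
    intro z
    rw [← Complex.ofReal_natCast, ← Complex.ofReal_pow, Complex.div_ofReal_re]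
  unfold AJ AF at h3
  rw [e1, Complex.re_sum, le_div_iff₀ hJ0] at h3
  have e2 : c ^ 4 / 4 / 2 = c ^ 4 / 8 := by ring
  rw [e2] at h3
  refine h3.trans (le_of_eq ?_)
  refine Finset.sum_congr rfl fun p _ => ?_
  rw [Complex.re_sum]
  refine Finset.sum_congr rfl fun q _ => ?_
  exact phj_psi φ k M N l₁ (by omega) e _

end Pool.Agent.Lib.MP_90b327_co.RS
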