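import Mathlib
import Pool.Agent.Lib.MP_90b327_co.RS.RDef
import Pool.Agent.Lib.MP_90b327_co.RS.S2A
import Pool.Agent.Lib.MP_90b327_co.RS.Pig
import Pool.Agent.Lib.MP_90b327_co.RS.MmYy

/-!
MODULE S2B (45 minutes, old scale). Step 2, second part (text 9).

PROOF. `M₁` of `s2_a`, `c₁ = c⁴/8`; `M₂` of `T2 (k-1)` for `N`, `c₁/2`. `pig` with `α = (ι → Fin J) × (ι → Fin J)` (cardinality `J^(2 r)`), `f l (p, q) = YY (k-1) N l (phj k M₁ e φ (p - q))` (`yy_le`, `phj_epd`): a set `G` of at least `(c₁/2) J^(2r)` pairs with `∃ᶠ l, c₁/2 ≤ YY ..`. For these `T2 (k-1)` (`M' = M₂`) gives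
`c₁/4 ≤ (AJ J' (phj ..) (fun s => M₂ • 1_(B s))).re` for all finite families `B` of non-empty sets with at most `k - 1` elements and all `J' ≥ 1`.
-/

set_option autoImplicit false

namespace Pool.Agent.Lib.MP_90b327_co.RS

open Finset MeasureTheory Filter Pool.Agent.Lib.MP_90b327_co Pool.Agent.Lib.MP_90b327_co.RB
  Pool.Agent.Lib.MP_90b327_co.WW

open Classical in
theorem s2_b (k : ℕ) (hk : 2 ≤ k) (h : T2 (k - 1)) (N : ℕ) (hN : 1 ≤ N) (c : ℝ) (hc : 0 < c) :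
    ∃ M₁ M₂ : ℕ, 1 ≤ M₁ ∧ 1 ≤ M₂ ∧ ∀ φ : GG → ℂ, EPD φ → (∃ᶠ l in atTop, c ≤ ‖mm k N l φ‖) →
      ∀ (ι : Type) [Fintype ι] (e : ι → ℕ) (J : ℕ), 1 ≤ J →
        ∃ G : Finset ((ι → Fin J) × (ι → Fin J)),
          c ^ 4 / 16 * (J : ℝ) ^ (2 * Fintype.card ι) ≤ G.card ∧
          ∀ pq ∈ G, ∀ (κ : Type) [Fintype κ] (B : κ → Finset ℕ),
            (∀ s, (B s).Nonempty ∧ (B s).card ≤ k - 1) → ∀ J' : ℕ, 1 ≤ J' →
              c ^ 4 / 32 ≤ (AJ J' (phj k M₁ e φ (fun t => ((pq.1 t : ℕ) : ℤ) - ((pq.2 t : ℕ) : ℤ)))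
                (fun s => (M₂ : ℤ) • Finsupp.single (B s) 1)).re := by
  obtain ⟨M₁, hM₁, H1⟩ := s2_a k hk h N hN c hc
  obtain ⟨M₂, hM₂, H2⟩ := h N (c ^ 4 / 16) hN (by positivity)
  refine ⟨M₁, M₂, hM₁, hM₂, fun φ hφ hf ι _ e J hJ => ?_⟩
  have hcard : (Fintype.card ((ι → Fin J) × (ι → Fin J)) : ℝ) =
      (J : ℝ) ^ (2 * Fintype.card ι) := by
    rw [Fintype.card_prod, Fintype.card_fun, Fintype.card_fin]
    push_cast
    rw [two_mul, pow_add]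
  obtain ⟨G, hG1, hG2⟩ := pig (α := (ι → Fin J) × (ι → Fin J))
    (fun l pq => YY (k - 1) N l
      (phj k M₁ e φ (fun t => ((pq.1 t : ℕ) : ℤ) - ((pq.2 t : ℕ) : ℤ))))
    (c ^ 4 / 8) (by positivity) (fun l pq => yy_le (phj_epd hφ k M₁ e _) (k - 1) N l)
    (fun l hl => by
      rw [hcard, Fintype.sum_prod_type]
      exact H1 φ hφ hf ι e J l hJ hl)
  refine ⟨G, ?_, fun pq hpq κ _ B hB J' hJ' => ?_⟩
  · rw [hcard] at hG1
    refine le_trans (le_of_eq ?_) hG1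
    ring
  · have h1 : ∃ᶠ l in atTop, c ^ 4 / 16 ≤ YY (k - 1) N l
        (phj k M₁ e φ (fun t => ((pq.1 t : ℕ) : ℤ) - ((pq.2 t : ℕ) : ℤ))) := by
      refine (hG2 pq hpq).mono fun l hl => ?_
      refine le_trans (le_of_eq ?_) hl
      ring
    have h2 := H2 _ (phj_epd hφ k M₁ e _) h1 M₂ hM₂ dvd_rfl κ B hB J' hJ'
    refine le_trans (le_of_eq ?_) h2
    ring

end Pool.Agent.Lib.MP_90b327_co.RS
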