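import Mathlib
import Pool.Agent.Lib.MP_90b327_co.RS.RDef
import Pool.Agent.Lib.MP_90b327_co.RS.S2B
import Pool.Agent.Lib.MP_90b327_co.RS.AjB
import Pool.Agent.Lib.MP_90b327_co.RS.Boch
import Pool.Agent.Lib.MP_90b327_co.RS.LatA
import Pool.Agent.Lib.MP_90b327_co.RS.PhjA

/-!
MODULE S2C (60 minutes, old scale). Step 2, third part: random characters (text 9).

Constants: `c₃ = c⁸/512` (`= (c⁴/16)(c⁴/32)`), `K = ⌊4/c₃⌋`, `M₃ = K!`.
PROOF. `r : RCh φ` (`boch`). `ι = κ = Fin n`, `e t = t`. For `pq ∈ G` the function `a ↦ r.F ω (∑ t, (j t * M₁) • lin (rt k (3 t)) (rel t3 a))` (`j = p - q`) is a random character of `phj k M₁ e φ j` on the same space (an `RCh`), so by `aj_lim` (`s2_b`): `c⁴/32 ≤ P(∀ s, r.F ω (∑ t, (j t * M₁) • lin (rt k (3 t)) (rel t3 (M₂ • 1_(B s)))) = 1)`. The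
argument is `∑ t, j t • w_(s,t)`, `w_(s,t) = (M₁ M₂) • 1_(insert (3 t) ((B s).image t3))` (`lin_single`, `rel_single`, `rt` for `1 ≤ |B s| ≤ k - 1`). Let `f_ω j = 1` if `r.F ω (∑ t, j t • w_(s,t)) = 1` for all `s`, else `0`: a partial character of `Fin n → ℤ` (indicator of a subgroup). `AF J (f_ω)` is the proportion of the pairs with `f_ω (p - q) = 1`;
`∫ AF J f_ω ≥ (c⁴/16)(c⁴/32) = c₃` (sum over `pq ∈ G`). If for some `t` no `m` in `[1, K]` has `f_ω (m e_t) = 1`, `lat_a` gives `AF ≤ 1/(K+1) + 1/J ≤ c₃/4 + c₃/4` for `J ≥ 4/c₃`. So `c₃ ≤ P(good) + c₃/2`, `P(good) ≥ c₃/2`, and on the good event `r.F ω (w_(s,t))^(K!) = 1` for all `s`, `t`.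
-/

set_option autoImplicit false

namespace Pool.Agent.Lib.MP_90b327_co.RS

open Finset MeasureTheory Filter Pool.Agent.Lib.MP_90b327_co Pool.Agent.Lib.MP_90b327_co.RB
  Pool.Agent.Lib.MP_90b327_co.WW

open Classical in
/-- the partial character of the event -/
private noncomputable def S2C_f (F : GG → ℂ) {n : ℕ} (w : Fin n → Fin n → GG) (j : Fin n → ℤ) : ℂ :=
  if ∀ s, F (∑ t, j t • w s t) = 1 then 1 else 0

private theorem S2C_pch {F : GG → ℂ} (h0 : F 0 = 1) (ha : ∀ a b, F (a + b) = F a * F b)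
    {n : ℕ} (w : Fin n → Fin n → GG) : PCh (S2C_f F w) := by
  have hneg : ∀ X, F X = 1 → F (-X) = 1 := by
    intro X hX
    have h := ha X (-X)
    rw [add_neg_cancel, h0, hX, one_mul] at h
    exact h.symm
  refine ⟨?_, ?_, ?_, ?_⟩
  · unfold S2C_f
    rw [if_pos]
    intro s
    simp [h0]
  · intro a
    unfold S2C_f
    have e : ∀ s, ∑ t, (-a) t • w s t = -∑ t, a t • w s t := by
      intro s
      rw [← Finset.sum_neg_distrib]
      exact Finset.sum_congr rfl fun t _ => by rw [Pi.neg_apply, neg_smul]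
    by_cases h : ∀ s, F (∑ t, a t • w s t) = 1
    · rw [if_pos h, if_pos (fun s => by rw [e s]; exact hneg _ (h s)), map_one]
    · rw [if_neg h, if_neg, map_zero]
      intro h'
      apply h
      intro s
      have := hneg _ (h' s)
      rwa [e s, neg_neg] at this
  · intro a
    unfold S2C_f
    by_cases h : ∀ s, F (∑ t, a t • w s t) = 1
    · rw [if_pos h]; right; exact norm_one
    · rw [if_neg h]; left; rfl
  · intro a b ha' hb'
    unfold S2C_f at ha' hb' ⊢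
    have h1 : ∀ s, F (∑ t, a t • w s t) = 1 := by
      by_contra h
      rw [if_neg h] at ha'
      exact ha' rfl
    have h2 : ∀ s, F (∑ t, b t • w s t) = 1 := by
      by_contra h
      rw [if_neg h] at hb'
      exact hb' rfl
    rw [if_pos h1, if_pos h2, if_pos, one_mul]
    intro s
    have e : ∑ t, (a + b) t • w s t = ∑ t, a t • w s t + ∑ t, b t • w s t := by
      rw [← Finset.sum_add_distrib]
      exact Finset.sum_congr rfl fun t _ => by rw [Pi.add_apply, add_smul]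
    rw [e, ha, h1 s, h2 s, one_mul]

private theorem S2C_norm (F : GG → ℂ) {n : ℕ} (w : Fin n → Fin n → GG) (j : Fin n → ℤ) :
    ‖S2C_f F w j‖ ≤ 1 := by
  unfold S2C_f
  split_ifs
  · rw [norm_one]
  · rw [norm_zero]; exact zero_le_one

private theorem S2C_nsmul {F : GG → ℂ} (h0 : F 0 = 1) (ha : ∀ a b, F (a + b) = F a * F b)
    (m : ℕ) (a : GG) : F ((m : ℤ) • a) = F a ^ m := by
  induction m with
  | zero => rw [Nat.cast_zero, zero_smul, h0, pow_zero]
  | succ m ih => rw [Nat.cast_succ, add_smul, one_smul, ha, ih, pow_succ]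

private theorem S2C_bad {F : GG → ℂ} (h0 : F 0 = 1) (ha : ∀ a b, F (a + b) = F a * F b)
    {n : ℕ} (w : Fin n → Fin n → GG) (K J : ℕ) (hJ : 1 ≤ J)
    (hb : ¬ ∀ t, ∃ m : ℕ, 1 ≤ m ∧ m ≤ K ∧ ∀ s, F ((m : ℤ) • w s t) = 1) :
    ‖AF J (S2C_f F w)‖ ≤ 1 / ((K : ℝ) + 1) + 1 / J := by
  push Not at hb
  obtain ⟨t, ht⟩ := hb
  refine lat_a (S2C_pch h0 ha w) t K J hJ fun m h1 h2 => ?_
  obtain ⟨s, hs⟩ := ht m h1 h2
  unfold S2C_f
  rw [if_neg]
  intro h3
  apply hs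
  rw [← h3 s]
  congr 1
  rw [Finset.sum_eq_single t]
  · rw [Pi.smul_apply, Pi.single_eq_same, smul_eq_mul, mul_one]
  · intro t' _ ht'
    rw [Pi.smul_apply, Pi.single_eq_of_ne ht', smul_zero, zero_smul]
  · intro h; exact absurd (Finset.mem_univ t) h

private theorem S2C_meas {φ : GG → ℂ} (r : RCh φ) (a : GG) :
    MeasurableSet {ω | r.F ω a = 1} := r.meas a (measurableSet_singleton 1)

private theorem S2C_measE {φ : GG → ℂ} (r : RCh φ) {n : ℕ} (a : Fin n → GG) :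
    MeasurableSet {ω | ∀ s, r.F ω (a s) = 1} := by
  have e : {ω | ∀ s, r.F ω (a s) = 1} = ⋂ s, {ω | r.F ω (a s) = 1} := by
    ext ω; simp
  rw [e]
  exact MeasurableSet.iInter fun s => S2C_meas r (a s)

private theorem S2C_measf {φ : GG → ℂ} (r : RCh φ) {n : ℕ} (w : Fin n → Fin n → GG)
    (j : Fin n → ℤ) : Measurable (fun ω => S2C_f (r.F ω) w j) := by
  unfold S2C_f
  exact Measurable.ite (S2C_measE r (fun s => ∑ t, j t • w s t)) measurable_const measurable_const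

private theorem S2C_intf {φ : GG → ℂ} (r : RCh φ) {n : ℕ} (w : Fin n → Fin n → GG)
    (j : Fin n → ℤ) : ∫ ω, S2C_f (r.F ω) w j ∂r.P =
      ((r.P.real {ω | ∀ s, r.F ω (∑ t, j t • w s t) = 1} : ℝ) : ℂ) := by
  classical
  have hm := S2C_measE r (fun s => ∑ t, j t • w s t)
  have e : (fun ω => S2C_f (r.F ω) w j) =
      Set.indicator {ω | ∀ s, r.F ω (∑ t, j t • w s t) = 1} (fun _ => (1 : ℂ)) := by
    funext ω
    unfold S2C_f Set.indicator
    by_cases h : ∀ s, r.F ω (∑ t, j t • w s t) = 1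
    · rw [if_pos h, if_pos (by exact h)]
    · rw [if_neg h, if_neg (by exact h)]
  rw [e, integral_indicator_const _ hm]
  simp

/-- the lower bound for the good event -/
private theorem S2C_good {φ : GG → ℂ} (r : RCh φ) {n : ℕ} (w : Fin n → Fin n → GG) (K J : ℕ)
    (hJ : 1 ≤ J) (x y : ℝ) (hy : 0 ≤ y) (G : Finset ((Fin n → Fin J) × (Fin n → Fin J)))
    (hG : x * (J : ℝ) ^ (2 * n) ≤ G.card)
    (hP : ∀ pq ∈ G, y ≤ r.P.real {ω | ∀ s, r.F ω (∑ t, (((pq.1 t : ℕ) : ℤ) - ((pq.2 t : ℕ) : ℤ)) •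
      w s t) = 1}) :
    x * y ≤ r.P.real {ω | ∀ t, ∃ m : ℕ, 1 ≤ m ∧ m ≤ K ∧ ∀ s, r.F ω ((m : ℤ) • w s t) = 1} +
      (1 / ((K : ℝ) + 1) + 1 / J) := by
  classical
  set E : Set r.Ω := {ω | ∀ t, ∃ m : ℕ, 1 ≤ m ∧ m ≤ K ∧ ∀ s, r.F ω ((m : ℤ) • w s t) = 1} with hE
  have hEm : MeasurableSet E := by
    have e : E = ⋂ t, ⋃ m : ℕ, ⋃ (_ : 1 ≤ m ∧ m ≤ K), {ω | ∀ s, r.F ω ((m : ℤ) • w s t) = 1} := by
      ext ω
      simp only [hE, Set.mem_ofPred_eq, Set.mem_iInter, Set.mem_iUnion, exists_prop, and_assoc]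
    rw [e]
    exact MeasurableSet.iInter fun t => MeasurableSet.iUnion fun m => MeasurableSet.iUnion fun _ =>
      S2C_measE r _
  have hJ0 : (0 : ℝ) < J := by exact_mod_cast hJ
  have hJn : (0 : ℝ) < (J : ℝ) ^ (2 * n) := by positivity
  have hint := af_int r.P J (fun ω => S2C_f (r.F ω) w) (fun j => S2C_measf r w j)
    (fun ω j => S2C_norm _ w j)
  -- the upper bound
  have hup : ‖∫ ω, AF J (S2C_f (r.F ω) w) ∂r.P‖ ≤ r.P.real E + (1 / ((K : ℝ) + 1) + 1 / J) := by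
    have hI : Integrable (fun ω => Set.indicator E (fun _ => (1 : ℝ)) ω +
        (1 / ((K : ℝ) + 1) + 1 / J)) r.P :=
      ((integrable_const 1).indicator hEm).add (integrable_const _)
    have h1 := norm_integral_le_of_norm_le (f := fun ω => AF J (S2C_f (r.F ω) w)) hI
      (Eventually.of_forall fun ω => by
        have hpos : 0 ≤ 1 / ((K : ℝ) + 1) + 1 / J := by positivity
        by_cases hω : ω ∈ E
        · rw [Set.indicator_of_mem hω]
          have := af_norm J (S2C_f (r.F ω) w) (S2C_norm _ w)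
          linarith
        · rw [Set.indicator_of_notMem hω, zero_add]
          exact S2C_bad (r.zero ω) (r.add ω) w K J hJ hω)
    refine h1.trans (le_of_eq ?_)
    rw [integral_add ((integrable_const 1).indicator hEm) (integrable_const _),
      integral_indicator_const _ hEm, integral_const]
    simp
  -- the lower bound
  have hlow : x * y ≤ ‖∫ ω, AF J (S2C_f (r.F ω) w) ∂r.P‖ := by
    rw [← hint]
    have e1 : AF J (fun j => ∫ ω, S2C_f (r.F ω) w j ∂r.P) =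
        ((((∑ p : Fin n → Fin J, ∑ q : Fin n → Fin J,
          r.P.real {ω | ∀ s, r.F ω (∑ t, (((p t : ℕ) : ℤ) - ((q t : ℕ) : ℤ)) • w s t) = 1}) /
            (J : ℝ) ^ (2 * n) : ℝ)) : ℂ) := by
      unfold AF
      rw [Fintype.card_fin]
      push_cast
      congr 1
      refine Finset.sum_congr ?_ fun p _ => Finset.sum_congr ?_ fun q _ => S2C_intf r w _
      · ext x; simp only [Finset.mem_univ]
      · ext x; simp only [Finset.mem_univ]
    rw [e1, Complex.norm_real]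
    refine le_trans ?_ (le_abs_self _)
    rw [le_div_iff₀ hJn]
    have e2 : ∑ p : Fin n → Fin J, ∑ q : Fin n → Fin J,
          r.P.real {ω | ∀ s, r.F ω (∑ t, (((p t : ℕ) : ℤ) - ((q t : ℕ) : ℤ)) • w s t) = 1} =
        ∑ pq : (Fin n → Fin J) × (Fin n → Fin J),
          r.P.real {ω | ∀ s, r.F ω (∑ t, (((pq.1 t : ℕ) : ℤ) - ((pq.2 t : ℕ) : ℤ)) • w s t) = 1} := by
      rw [Fintype.sum_prod_type]
    rw [e2]
    calc x * y * (J : ℝ) ^ (2 * n) = (x * (J : ℝ) ^ (2 * n)) * y := by ring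
      _ ≤ (G.card : ℝ) * y := mul_le_mul_of_nonneg_right hG hy
      _ = ∑ _pq ∈ G, y := by rw [Finset.sum_const, nsmul_eq_mul]
      _ ≤ ∑ pq ∈ G, r.P.real {ω | ∀ s, r.F ω (∑ t, (((pq.1 t : ℕ) : ℤ) - ((pq.2 t : ℕ) : ℤ)) •
          w s t) = 1} := Finset.sum_le_sum hP
      _ ≤ _ := Finset.sum_le_sum_of_subset_of_nonneg (Finset.subset_univ G)
          fun _ _ _ => measureReal_nonneg
  exact hlow.trans hup

/-- the random characters of `phj` -/
private noncomputable def S2C_r {φ : GG → ℂ} (r : RCh φ) {n : ℕ} (k M : ℕ) (e : Fin n → ℕ)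
    (j : Fin n → ℤ) : RCh (phj k M e φ j) where
  Ω := r.Ω
  mΩ := r.mΩ
  P := r.P
  prob := r.prob
  F := fun ω a => r.F ω (∑ t, (j t * (M : ℤ)) • lin (rt k (3 * e t)) (rel t3 a))
  zero := fun ω => by
    have h0 : rel t3 (0 : GG) = 0 := Finsupp.mapDomain_zero
    simp only [h0, lin_zero, smul_zero, Finset.sum_const_zero]
    exact r.zero ω
  add := fun ω a b => by
    rw [← r.add ω]
    congr 1
    rw [← Finset.sum_add_distrib]
    exact Finset.sum_congr rfl fun t _ => by rw [rel_add, lin_add, smul_add]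
  nrm := fun ω a => r.nrm ω _
  meas := fun a => r.meas _
  mean := fun a => r.mean _

theorem s2_c (k : ℕ) (hk : 2 ≤ k) (h : T2 (k - 1)) (N : ℕ) (hN : 1 ≤ N) (c : ℝ) (hc : 0 < c) :
    ∃ M : ℕ, 1 ≤ M ∧ ∀ φ : GG → ℂ, EPD φ → (∃ᶠ l in atTop, c ≤ ‖mm k N l φ‖) →
      ∀ (r : RCh φ) (n : ℕ) (B : Fin n → Finset ℕ),
        (∀ s, (B s).Nonempty ∧ (B s).card ≤ k - 1) →
        c ^ 8 / 1024 ≤ r.P.real {ω | ∀ s t : Fin n, r.F ω ((M : ℤ) •
          Finsupp.single (insert (3 * (t : ℕ)) ((B s).image t3)) 1) = 1} := by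
  obtain ⟨M₁, M₂, hM₁, hM₂, H⟩ := s2_b k hk h N hN c hc
  set c₃ : ℝ := c ^ 8 / 512 with hc₃
  have hc₃0 : 0 < c₃ := by positivity
  set K : ℕ := ⌊4 / c₃⌋₊ with hK
  have hK1 : 1 / ((K : ℝ) + 1) ≤ c₃ / 4 := by
    have h1 : 4 / c₃ < (K : ℝ) + 1 := Nat.lt_floor_add_one _
    have h2 : 0 < (K : ℝ) + 1 := by positivity
    rw [div_le_iff₀ h2]
    rw [div_lt_iff₀ hc₃0] at h1
    linarith
  refine ⟨M₁ * M₂ * K.factorial, ?_, ?_⟩
  · exact Nat.mul_pos (Nat.mul_pos hM₁ hM₂) (Nat.factorial_pos K)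
  intro φ hφ hfr r n B hB
  obtain ⟨J, hJ⟩ := exists_nat_gt (4 / c₃)
  have hJ0 : (0 : ℝ) < J := lt_trans (by positivity) hJ
  have hJ1 : 1 ≤ J := by exact_mod_cast hJ0
  have hJ2 : 1 / (J : ℝ) ≤ c₃ / 4 := by
    rw [div_le_iff₀ hJ0]
    rw [div_lt_iff₀ hc₃0] at hJ
    linarith
  obtain ⟨G, hG, hGP⟩ := H φ hφ hfr (Fin n) (fun t => (t : ℕ)) J hJ1
  rw [Fintype.card_fin] at hG
  set w : Fin n → Fin n → GG := fun s t => ((M₁ : ℤ) * (M₂ : ℤ)) •
    Finsupp.single (insert (3 * (t : ℕ)) ((B s).image t3)) 1 with hw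
  have hwt : ∀ (s t : Fin n), (M₁ : ℤ) • lin (rt k (3 * (t : ℕ))) (rel t3
      ((M₂ : ℤ) • Finsupp.single (B s) 1)) = w s t := by
    intro s t
    have h1 : (M₂ : ℤ) • (Finsupp.single (B s) 1 : GG) = Finsupp.single (B s) (M₂ : ℤ) := by
      rw [Finsupp.smul_single, smul_eq_mul, mul_one]
    rw [h1, rel_single, lin_single, smul_smul]
    have h2 : ((B s).image t3).Nonempty ∧ ((B s).image t3).card + 1 ≤ k := by
      refine ⟨(hB s).1.image _, ?_⟩
      have h3 : ((B s).image t3).card ≤ (B s).card := Finset.card_image_le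
      have h4 := (hB s).2
      omega
    rw [rt, if_pos h2]
  have hmain := S2C_good r w K J hJ1 (c ^ 4 / 16) (c ^ 4 / 32) (by positivity) G hG (by
    intro pq hpq
    have h1 := aj_lim (S2C_r r k M₁ (fun t : Fin n => (t : ℕ))
      (fun t => ((pq.1 t : ℕ) : ℤ) - ((pq.2 t : ℕ) : ℤ)))
      (fun s => (M₂ : ℤ) • Finsupp.single (B s) 1) (c ^ 4 / 32)
      (fun J' hJ' => hGP pq hpq (Fin n) B hB J' hJ')
    refine h1.trans (le_of_eq ?_)
    congr 1
    ext ω
    simp only [Set.mem_ofPred_eq]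
    refine forall_congr' fun s => ?_
    have e : (S2C_r r k M₁ (fun t : Fin n => (t : ℕ))
        (fun t => ((pq.1 t : ℕ) : ℤ) - ((pq.2 t : ℕ) : ℤ))).F ω
          ((M₂ : ℤ) • Finsupp.single (B s) 1) =
        r.F ω (∑ t, (((pq.1 t : ℕ) : ℤ) - ((pq.2 t : ℕ) : ℤ)) • w s t) := by
      change r.F ω _ = r.F ω _
      congr 1
      refine Finset.sum_congr rfl fun t _ => ?_
      rw [← hwt s t, smul_smul]
    rw [e])
  have hx : c ^ 4 / 16 * (c ^ 4 / 32) = c₃ := by rw [hc₃]; ring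
  rw [hx] at hmain
  have hsub : {ω | ∀ t, ∃ m : ℕ, 1 ≤ m ∧ m ≤ K ∧ ∀ s, r.F ω ((m : ℤ) • w s t) = 1} ⊆
      {ω | ∀ s t : Fin n, r.F ω (((M₁ * M₂ * K.factorial : ℕ) : ℤ) •
          Finsupp.single (insert (3 * (t : ℕ)) ((B s).image t3)) 1) = 1} := by
    intro ω hω s t
    obtain ⟨m, h1, h2, h3⟩ := hω t
    obtain ⟨q, hq⟩ := Nat.dvd_factorial h1 h2
    have e : ((M₁ * M₂ * K.factorial : ℕ) : ℤ) •
          (Finsupp.single (insert (3 * (t : ℕ)) ((B s).image t3)) 1 : GG) =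
        (q : ℤ) • ((m : ℤ) • w s t) := by
      rw [hw]
      simp only
      rw [smul_smul, smul_smul, hq]
      congr 1
      push_cast
      ring
    rw [e, S2C_nsmul (r.zero ω) (r.add ω), h3 s, one_pow]
  have hmono := measureReal_mono (μ := r.P) hsub (measure_ne_top _ _)
  have e2 : c ^ 8 / 1024 = c₃ / 2 := by rw [hc₃]; ring
  rw [e2]
  linarith

end Pool.Agent.Lib.MP_90b327_co.RS
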