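import Mathlib
import Pool.Agent.Lib.MP_90b327_co.RS.RDef
import Pool.Agent.Lib.MP_90b327_co.RS.S2C
import Pool.Agent.Lib.MP_90b327_co.RS.AjB
import Pool.Agent.Lib.MP_90b327_co.RS.AjC
import Pool.Agent.Lib.MP_90b327_co.RS.Boch

/-!
MODULE S2D (40 minutes, old scale). Step 2, conclusion: coordinates with at least two elements (text 9).

PROOF. `M` of `s2_c`. Let `φ` be dissociated with large means, `2 ≤ |C| ≤ k`. For `n` let `B s` (`s : Fin n`) be pairwise disjoint sets with `|C| - 1` elements (e.g. `Ico (s |C|) (s |C| + |C| - 1)`), `C' t = insert (3 t) ((B t).image t3)`: `|C' t| = |C|`, pairwise disjoint (`t3` is injective with values `≢ 0 mod 3`). By `s2_c` the probability that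
`r.F ω (M • 1_(C' t)) = 1` for all `t` is `≥ c⁸/1024`, `aj_ge`: `c⁸/1024 ≤ (AJ J φ (fun t => M • 1_(C' t))).re` for all `J ≥ 1`; `dpd_one`.
-/

set_option autoImplicit false

namespace Pool.Agent.Lib.MP_90b327_co.RS

open Finset MeasureTheory Filter Pool.Agent.Lib.MP_90b327_co Pool.Agent.Lib.MP_90b327_co.RB
  Pool.Agent.Lib.MP_90b327_co.WW

private theorem s2d_t3_inj {x y : ℕ} (h : t3 x = t3 y) : x = y := by
  unfold t3 at h
  omega

private theorem s2d_t3_ne (x y : ℕ) : t3 x ≠ 3 * y := by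
  unfold t3
  omega

/-- the blocks -/
private def s2dB (m s : ℕ) : Finset ℕ := Ico (s * m) (s * m + (m - 1))

private theorem s2dB_disj {m s t : ℕ} (hm : 1 ≤ m) (h : s < t) {x : ℕ} (hx : x ∈ s2dB m s)
    (hy : x ∈ s2dB m t) : False := by
  unfold s2dB at hx hy
  rw [Finset.mem_Ico] at hx hy
  have h1 : (s + 1) * m ≤ t * m := Nat.mul_le_mul_right m h
  have h2 : (s + 1) * m = s * m + m := by ring
  omega

private theorem s2dB_disj' {m s t : ℕ} (hm : 1 ≤ m) (h : s ≠ t) {x : ℕ} (hx : x ∈ s2dB m s)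
    (hy : x ∈ s2dB m t) : False := by
  rcases lt_or_gt_of_ne h with h | h
  · exact s2dB_disj hm h hx hy
  · exact s2dB_disj hm h hy hx

/-- the copies -/
private def s2dC (m t : ℕ) : Finset ℕ := insert (3 * t) ((s2dB m t).image t3)

private theorem s2dC_card {m : ℕ} (hm : 1 ≤ m) (t : ℕ) : (s2dC m t).card = m := by
  unfold s2dC
  rw [card_insert_of_notMem, card_image_of_injective _ (fun x y h => s2d_t3_inj h)]
  · unfold s2dB
    rw [Nat.card_Ico]
    omega
  · intro h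
    obtain ⟨x, _, hx⟩ := mem_image.1 h
    exact s2d_t3_ne x t hx

private theorem s2dC_disj {m : ℕ} (hm : 1 ≤ m) {s t : ℕ} (h : s ≠ t) :
    Disjoint (s2dC m s) (s2dC m t) := by
  rw [Finset.disjoint_left]
  intro x hx hy
  unfold s2dC at hx hy
  rw [mem_insert, mem_image] at hx hy
  rcases hx with rfl | ⟨a, ha, rfl⟩
  · rcases hy with hy | ⟨b, _, hb⟩
    · exact h (by omega)
    · exact s2d_t3_ne b s hb
  · rcases hy with hy | ⟨b, hb, hb'⟩
    · exact s2d_t3_ne a t hy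
    · have := s2d_t3_inj hb'
      subst this
      exact s2dB_disj' hm h ha hb

theorem s2_d (k : ℕ) (hk : 2 ≤ k) (h : T2 (k - 1)) (N : ℕ) (hN : 1 ≤ N) (c : ℝ) (hc : 0 < c) :
    ∃ M : ℕ, 1 ≤ M ∧ ∀ φ : GG → ℂ, DPD φ → (∃ᶠ l in atTop, c ≤ ‖mm k N l φ‖) →
      ∀ C : Finset ℕ, 2 ≤ C.card → C.card ≤ k → φ ((M : ℤ) • Finsupp.single C 1) = 1 := by
  obtain ⟨M, hM, hM'⟩ := s2_c k hk h N hN c hc
  refine ⟨M, hM, fun φ hφ hl C hC2 hCk => ?_⟩
  obtain ⟨r⟩ := boch hφ.toEPD.toPD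
  have hm : 1 ≤ C.card := by omega
  refine dpd_one hφ C (M : ℤ) (c ^ 8 / 1024) (by positivity) fun n => ?_
  refine ⟨fun t => s2dC C.card t, fun s t hst => s2dC_disj hm (fun h => hst (Fin.ext h)),
    fun t => s2dC_card hm t, fun J hJ => ?_⟩
  have h1 := hM' φ hφ.toEPD hl r n (fun s => s2dB C.card s) (fun s => by
    have hcard : (s2dB C.card (s : ℕ)).card = C.card - 1 := by
      unfold s2dB
      rw [Nat.card_Ico]
      omega
    refine ⟨?_, by rw [hcard]; omega⟩
    rw [← Finset.card_pos, hcard]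
    omega)
  refine h1.trans (le_trans ?_ (aj_ge r J hJ _))
  refine measureReal_mono (fun ω hω t => ?_) (by finiteness)
  exact hω t t

end Pool.Agent.Lib.MP_90b327_co.RS
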