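import Mathlib
import Pool.Agent.Lib.MP_90b327_co.RS.RDef
import Pool.Agent.Lib.MP_90b327_co.RS.PdA
import Pool.Agent.Lib.MP_90b327_co.RS.ExcA
import Pool.Agent.Lib.MP_90b327_co.WW.ExInj

/-!
MODULE Samp2 (60 minutes, old scale). The sampling lemma (text 8.6).

PROOF. `Z = R ∪ y`, `|Z| ≥ m |R|`. Choose pairwise disjoint `R_1, .., R_m ⊆ Z` with `|R_i| = |R|` and pairwise disjoint fresh `R'_1, .., R'_m` (outside `Z ∪ V' ∪ y''`), `|R'_i| = |R|`; injections `s_i` with `R → R_i`, `y → Z \ R_i`, fixed on `V'` (`exists_inj`), `s'_i` with `R → R'_i`, `y'' → Z`, fixed on `V'` (`V'` disjoint from `y''`, see the hypotheses).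
`rel s_i (hh + ag Z) = rel s_i hh + ag Z`, `rel s'_i (hh + ag y'') = rel s'_i hh + ag Z`. So the difference is `(1/m) ∑_i (φ (rel s_i hh + ag Z) - φ (rel s'_i hh + ag Z))`, and by `pd_cs` (points `x = rel s_i hh` resp. `rel s'_i hh`, coefficients `±1/m`, `y = - ag Z`) its square is at most the quadratic form
`(1/m²) ∑_{i,j} [φ(x_j - x_i) - φ(x'_j - x_i) - φ(x_j - x'_i) + φ(x'_j - x'_i)]`; for `i ≠ j` the four values are equal (one value for any two disjoint copies of `R`: injections fixing `V'`; all of `R_i, R_j, R'_i, R'_j` are disjoint from each other and from `V'`); for `i = j` the term is `≤ 4`. Total `≤ 4/m`.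
-/

set_option autoImplicit false

namespace Pool.Agent.Lib.MP_90b327_co.RS

open Finset MeasureTheory Filter Pool.Agent.Lib.MP_90b327_co Pool.Agent.Lib.MP_90b327_co.RB
  Pool.Agent.Lib.MP_90b327_co.WW

/-- two copies of `R`, both fixing `V'`: the value is the same for all such pairs -/
private theorem samp2_pair {φ : GG → ℂ} (h : EPD φ) (R V' : Finset ℕ) (hh : GG)
    (hs : Sup hh (R ∪ V')) (hRV : Disjoint R V') {σ τ σ' τ' : ℕ → ℕ}
    (hσ : Function.Injective σ) (hτ : Function.Injective τ)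
    (hσ' : Function.Injective σ') (hτ' : Function.Injective τ')
    (f1 : ∀ x ∈ V', σ x = x) (f2 : ∀ x ∈ V', τ x = x) (f3 : ∀ x ∈ V', σ' x = x)
    (f4 : ∀ x ∈ V', τ' x = x) (hd : Disjoint (R.image σ) (R.image τ))
    (hd' : Disjoint (R.image σ') (R.image τ')) :
    φ (rel τ hh - rel σ hh) = φ (rel τ' hh - rel σ' hh) := by
  classical
  have hout : ∀ (ρ : ℕ → ℕ), Function.Injective ρ → (∀ x ∈ V', ρ x = x) → ∀ r ∈ R, ρ r ∉ V' := by
    intro ρ hρ hf r hr hV
    have h1 : ρ (ρ r) = ρ r := hf _ hV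
    have h2 : ρ r = r := hρ h1
    rw [h2] at hV
    exact disjoint_left.1 hRV hr hV
  let u : R × Bool → Finset ℕ := fun p => {if p.2 then σ p.1 else τ p.1}
  let v : R × Bool → Finset ℕ := fun p => {if p.2 then σ' p.1 else τ' p.1}
  have hgen : ∀ (a b : ℕ → ℕ), Function.Injective a → Function.Injective b →
      Disjoint (R.image a) (R.image b) → ∀ j j' : R × Bool, j ≠ j' →
      Disjoint ({if j.2 then a j.1 else b j.1} : Finset ℕ) {if j'.2 then a j'.1 else b j'.1} := by
    intro a b ha hb hab j j' hne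
    obtain ⟨⟨r, hr⟩, e⟩ := j
    obtain ⟨⟨r', hr'⟩, e'⟩ := j'
    rw [disjoint_singleton]
    cases e <;> cases e' <;> simp only [if_true, if_false, Bool.false_eq_true]
    · intro hcon
      exact hne (by have := hb hcon; subst this; rfl)
    · intro hcon
      exact disjoint_left.1 hab (mem_image.2 ⟨r', hr', hcon.symm⟩) (mem_image.2 ⟨r, hr, rfl⟩)
    · intro hcon
      exact disjoint_left.1 hab (mem_image.2 ⟨r, hr, hcon⟩) (mem_image.2 ⟨r', hr', rfl⟩)
    · intro hcon
      exact hne (by have := ha hcon; subst this; rfl)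
  have hB : ∀ (a b : ℕ → ℕ), Function.Injective a → Function.Injective b → (∀ x ∈ V', a x = x) →
      (∀ x ∈ V', b x = x) → ∀ j : R × Bool,
      Disjoint ({if j.2 then a j.1 else b j.1} : Finset ℕ) V' := by
    intro a b ha hb fa fb j
    obtain ⟨⟨r, hr⟩, e⟩ := j
    rw [disjoint_singleton_left]
    cases e
    · exact hout b hb fb r hr
    · exact hout a ha fa r hr
  obtain ⟨ρ, hρ, hρV, hρu⟩ := exists_inj (R × Bool) V' u v (hgen σ τ hσ hτ hd)
    (hgen σ' τ' hσ' hτ' hd') (hB σ τ hσ hτ f1 f2) (hB σ' τ' hσ' hτ' f3 f4) (fun j => by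
      simp only [u, v, card_singleton])
  have g1 : ∀ x ∈ R ∪ V', (ρ ∘ σ) x = σ' x := by
    intro x hx
    rcases mem_union.1 hx with hx | hx
    · have h1 := hρu (⟨x, hx⟩, true)
      simp only [u, v, if_true, image_singleton, singleton_inj] at h1
      exact h1
    · show ρ (σ x) = σ' x
      rw [f1 x hx, hρV x hx, f3 x hx]
  have g2 : ∀ x ∈ R ∪ V', (ρ ∘ τ) x = τ' x := by
    intro x hx
    rcases mem_union.1 hx with hx | hx
    · have h1 := hρu (⟨x, hx⟩, false)
      simp only [u, v, image_singleton, singleton_inj, Bool.false_eq_true, if_false] at h1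
      exact h1
    · show ρ (τ x) = τ' x
      rw [f2 x hx, hρV x hx, f4 x hx]
  rw [← h.inv ρ hρ (rel τ hh - rel σ hh), rel_sub, rel_comp, rel_comp, rel_congr hh _ hs g1,
    rel_congr hh _ hs g2]

private theorem samp2_dis (b s i j : ℕ) (hij : i < j) :
    Disjoint (Ico (b + i * s) (b + (i + 1) * s)) (Ico (b + j * s) (b + (j + 1) * s)) := by
  rw [Finset.disjoint_left]
  intro x hx hx'
  rw [Finset.mem_Ico] at hx hx'
  have : (i + 1) * s ≤ j * s := Nat.mul_le_mul_right s hij
  omega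

/-- an injection moving two disjoint blocks, fixing `V'` -/
private theorem samp2_inj (V' u u' v v' : Finset ℕ) (h1 : Disjoint u u') (h2 : Disjoint v v')
    (h3 : Disjoint u V') (h4 : Disjoint u' V') (h5 : Disjoint v V') (h6 : Disjoint v' V')
    (hc : u.card = v.card) (hc' : u'.card = v'.card) :
    ∃ σ : ℕ → ℕ, Function.Injective σ ∧ (∀ x ∈ V', σ x = x) ∧ u.image σ = v ∧ u'.image σ = v' := by
  obtain ⟨σ, a1, a2, a3⟩ := exists_inj Bool V' (fun b => if b then u else u')
    (fun b => if b then v else v')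
    (by rintro (_ | _) (_ | _) hne
        · exact absurd rfl hne
        · exact h1.symm
        · exact h1
        · exact absurd rfl hne)
    (by rintro (_ | _) (_ | _) hne
        · exact absurd rfl hne
        · exact h2.symm
        · exact h2
        · exact absurd rfl hne)
    (by rintro (_ | _)
        · exact h4
        · exact h3)
    (by rintro (_ | _)
        · exact h6
        · exact h5)
    (by rintro (_ | _)
        · exact hc'
        · exact hc)
  exact ⟨σ, a1, a2, a3 true, a3 false⟩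

/-- the quadratic form: only the diagonal counts -/
private theorem samp2_form {m : ℕ} (hm : 1 ≤ m) (f : Fin m × Bool → Fin m × Bool → ℂ)
    (hf : ∀ p q, ‖f p q‖ ≤ 1) (w : ℂ) (hw : ∀ p q, p.1 ≠ q.1 → f p q = w)
    (c : Fin m × Bool → ℂ) (hc : ∀ p, c p = (if p.2 then 1 else -1) / (m : ℂ)) :
    (∑ p, ∑ q, (starRingEnd ℂ) (c p) * c q * f p q).re ≤ 4 / m := by
  have hmp : (0 : ℝ) < m := by exact_mod_cast hm
  have hnc : ∀ p, ‖c p‖ = 1 / m := by
    intro p
    rw [hc, norm_div, Complex.norm_natCast]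
    congr 1
    split_ifs
    · exact norm_one
    · rw [norm_neg, norm_one]
  have e1 : ∀ i j : Fin m, i ≠ j →
      ∑ b : Bool, ∑ b' : Bool, (starRingEnd ℂ) (c (i, b)) * c (j, b') * f (i, b) (j, b') = 0 := by
    intro i j hij
    have e : ∀ b b', f (i, b) (j, b') = w := fun b b' => hw _ _ hij
    simp only [Fintype.sum_bool, e, hc, if_true, if_false, Bool.false_eq_true]
    rw [map_div₀, map_div₀, map_neg, map_one]
    ring
  have e2 : ∀ i : Fin m,
      (∑ b : Bool, ∑ b' : Bool, (starRingEnd ℂ) (c (i, b)) * c (i, b') * f (i, b) (i, b')).re ≤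
        4 / (m : ℝ) ^ 2 := by
    intro i
    refine (Complex.re_le_norm _).trans ?_
    have e : ∀ b b', ‖(starRingEnd ℂ) (c (i, b)) * c (i, b') * f (i, b) (i, b')‖ ≤
        1 / (m : ℝ) ^ 2 := by
      intro b b'
      rw [norm_mul, norm_mul, RCLike.norm_conj, hnc, hnc]
      calc 1 / (m : ℝ) * (1 / m) * ‖f (i, b) (i, b')‖ ≤ 1 / (m : ℝ) * (1 / m) * 1 :=
            mul_le_mul_of_nonneg_left (hf _ _) (by positivity)
        _ = 1 / (m : ℝ) ^ 2 := by ring
    simp only [Fintype.sum_bool]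
    refine (norm_add_le _ _).trans ?_
    have a1 := norm_add_le ((starRingEnd ℂ) (c (i, true)) * c (i, true) * f (i, true) (i, true))
      ((starRingEnd ℂ) (c (i, true)) * c (i, false) * f (i, true) (i, false))
    have a2 := norm_add_le ((starRingEnd ℂ) (c (i, false)) * c (i, true) * f (i, false) (i, true))
      ((starRingEnd ℂ) (c (i, false)) * c (i, false) * f (i, false) (i, false))
    have b1 := e true true
    have b2 := e true false
    have b3 := e false true
    have b4 := e false false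
    have b5 : 4 / (m : ℝ) ^ 2 = 1 / (m : ℝ) ^ 2 + 1 / (m : ℝ) ^ 2 + (1 / (m : ℝ) ^ 2 +
      1 / (m : ℝ) ^ 2) := by ring
    linarith
  have e3 : ∑ p, ∑ q, (starRingEnd ℂ) (c p) * c q * f p q =
      ∑ i : Fin m, ∑ b : Bool, ∑ b' : Bool,
        (starRingEnd ℂ) (c (i, b)) * c (i, b') * f (i, b) (i, b') := by
    rw [Fintype.sum_prod_type]
    refine Finset.sum_congr rfl fun i _ => ?_
    have e4 : ∀ b : Bool, ∑ q : Fin m × Bool, (starRingEnd ℂ) (c (i, b)) * c q * f (i, b) q =
        ∑ j : Fin m, ∑ b' : Bool, (starRingEnd ℂ) (c (i, b)) * c (j, b') * f (i, b) (j, b') :=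
      fun b => Fintype.sum_prod_type _
    rw [Finset.sum_congr rfl fun b _ => e4 b, Finset.sum_comm]
    rw [Finset.sum_eq_single i]
    · intro j _ hj
      exact e1 i j (Ne.symm hj)
    · intro hi
      exact absurd (mem_univ _) hi
  rw [e3, Complex.re_sum]
  refine (Finset.sum_le_sum fun i _ => e2 i).trans ?_
  rw [Finset.sum_const, card_univ, Fintype.card_fin, nsmul_eq_mul]
  apply le_of_eq
  field_simp

theorem samp2 {φ : GG → ℂ} (h : EPD φ) (k : ℕ) (R y y'' V' : Finset ℕ) (hh : GG)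
    (hs : Sup hh (R ∪ V')) (hRy : Disjoint R y) (hRV : Disjoint R V') (hyV : Disjoint y V')
    (hR'' : Disjoint y'' R) (hV'' : Disjoint y'' V') (hc : y''.card = R.card + y.card) (m : ℕ)
    (hm : 1 ≤ m) (hmR : m * R.card ≤ R.card + y.card) :
    ‖φ (hh + ag k (R ∪ y)) - φ (hh + ag k y'')‖ ≤ 2 / Real.sqrt m := by
  classical
  obtain ⟨s, hsc⟩ : ∃ s : ℕ, s = R.card := ⟨_, rfl⟩
  obtain ⟨n, hn⟩ : ∃ n : ℕ, n = s + y.card := ⟨_, rfl⟩
  obtain ⟨b, hb⟩ : ∃ b : ℕ, b = V'.sup id + 1 := ⟨_, rfl⟩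
  rw [← hsc] at hc hmR
  have hbV : ∀ a c : ℕ, b ≤ a → Disjoint (Ico a c) V' := by
    intro a c hac
    rw [Finset.disjoint_left]
    intro x hx hxB
    rw [Finset.mem_Ico] at hx
    have h1 : x ≤ V'.sup id := Finset.le_sup (f := id) hxB
    omega
  obtain ⟨Z, hZ⟩ : ∃ Z : Finset ℕ, Z = Ico b (b + n) := ⟨_, rfl⟩
  let A : ℕ → Finset ℕ := fun i => Ico (b + i * s) (b + (i + 1) * s)
  let A' : ℕ → Finset ℕ := fun i => Ico (b + n + i * s) (b + n + (i + 1) * s)
  have hAc : ∀ i, (A i).card = s := by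
    intro i
    simp only [A, Nat.card_Ico]
    have : (i + 1) * s = i * s + s := by ring
    omega
  have hAc' : ∀ i, (A' i).card = s := by
    intro i
    simp only [A', Nat.card_Ico]
    have : (i + 1) * s = i * s + s := by ring
    omega
  have hAV : ∀ i, Disjoint (A i) V' := fun i => hbV _ _ (by omega)
  have hAV' : ∀ i, Disjoint (A' i) V' := fun i => hbV _ _ (by omega)
  have hZV : Disjoint Z V' := by rw [hZ]; exact hbV _ _ le_rfl
  have hAZ : ∀ i < m, A i ⊆ Z := by
    intro i hi x hx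
    simp only [A, Finset.mem_Ico] at hx
    have h1 : (i + 1) * s ≤ m * s := Nat.mul_le_mul_right s hi
    rw [hZ, Finset.mem_Ico]
    omega
  have hAZ' : ∀ i, Disjoint (A' i) Z := by
    intro i
    rw [Finset.disjoint_left]
    intro x hx hx'
    simp only [A', Finset.mem_Ico] at hx
    rw [hZ, Finset.mem_Ico] at hx'
    omega
  have hZc : Z.card = n := by rw [hZ, Nat.card_Ico]; omega
  have hAA : ∀ i j, i ≠ j → Disjoint (A i) (A j) := by
    intro i j hij
    rcases lt_or_gt_of_ne hij with hlt | hlt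
    · exact samp2_dis b s i j hlt
    · exact (samp2_dis b s j i hlt).symm
  have hAA' : ∀ i j, i ≠ j → Disjoint (A' i) (A' j) := by
    intro i j hij
    rcases lt_or_gt_of_ne hij with hlt | hlt
    · exact samp2_dis (b + n) s i j hlt
    · exact (samp2_dis (b + n) s j i hlt).symm
  have hAX : ∀ i < m, ∀ j, Disjoint (A i) (A' j) := by
    intro i hi j
    exact (Disjoint.mono_right (hAZ i hi) (hAZ' j)).symm
  -- the injections
  have hσ : ∀ i : Fin m, ∃ σ : ℕ → ℕ, Function.Injective σ ∧ (∀ x ∈ V', σ x = x) ∧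
      R.image σ = A i ∧ y.image σ = Z \ A i := fun i =>
    samp2_inj V' R y (A i) (Z \ A i) hRy disjoint_sdiff hRV hyV (hAV i)
      (Disjoint.mono_left sdiff_subset hZV) (by rw [hAc i, hsc])
      (by rw [card_sdiff_of_subset (hAZ i i.2), hZc, hAc i]; omega)
  have hτ : ∀ i : Fin m, ∃ σ : ℕ → ℕ, Function.Injective σ ∧ (∀ x ∈ V', σ x = x) ∧
      R.image σ = A' i ∧ y''.image σ = Z := fun i =>
    samp2_inj V' R y'' (A' i) Z hR''.symm (hAZ' i) hRV hV'' (hAV' i) hZV (by rw [hAc' i, hsc])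
      (by rw [hZc, hc, hn])
  choose σ s1 s2 s3 s4 using hσ
  choose τ t1 t2 t3 t4 using hτ
  have e1 : ∀ i, φ (rel (σ i) hh + ag k Z) = φ (hh + ag k (R ∪ y)) := by
    intro i
    rw [← h.inv (σ i) (s1 i) (hh + ag k (R ∪ y)), rel_add, rel_ag (s1 i), image_union, s3, s4,
      union_sdiff_of_subset (hAZ i i.2)]
  have e2 : ∀ i, φ (rel (τ i) hh + ag k Z) = φ (hh + ag k y'') := by
    intro i
    rw [← h.inv (τ i) (t1 i) (hh + ag k y''), rel_add, rel_ag (t1 i), t4]
  -- the family of points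
  let S : Fin m × Bool → ℕ → ℕ := fun p => if p.2 then σ p.1 else τ p.1
  let c : Fin m × Bool → ℂ := fun p => (if p.2 then 1 else -1) / (m : ℂ)
  have S1 : ∀ p, Function.Injective (S p) := by
    rintro ⟨i, (_ | _)⟩
    · exact t1 i
    · exact s1 i
  have S2 : ∀ p, ∀ x ∈ V', S p x = x := by
    rintro ⟨i, (_ | _)⟩
    · exact t2 i
    · exact s2 i
  have S3 : ∀ p q, p.1 ≠ q.1 → Disjoint (R.image (S p)) (R.image (S q)) := by
    rintro ⟨i, (_ | _)⟩ ⟨j, (_ | _)⟩ hne
    · show Disjoint (R.image (τ i)) (R.image (τ j))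
      rw [t3, t3]
      exact hAA' _ _ (fun hcon => hne (Fin.ext hcon))
    · show Disjoint (R.image (τ i)) (R.image (σ j))
      rw [t3, s3]
      exact (hAX j j.2 i).symm
    · show Disjoint (R.image (σ i)) (R.image (τ j))
      rw [s3, t3]
      exact hAX i i.2 j
    · show Disjoint (R.image (σ i)) (R.image (σ j))
      rw [s3, s3]
      exact hAA _ _ (fun hcon => hne (Fin.ext hcon))
  have hcs := pd_cs h.toPD (Fin m × Bool) (fun p => rel (S p) hh) c (-ag k Z)
  have hm0 : (m : ℂ) ≠ 0 := by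
    have : m ≠ 0 := by omega
    exact_mod_cast this
  have hL : ∑ p, c p * φ (rel (S p) hh - -ag k Z) =
      φ (hh + ag k (R ∪ y)) - φ (hh + ag k y'') := by
    rw [Fintype.sum_prod_type]
    have e : ∀ i : Fin m, ∑ b : Bool, c (i, b) * φ (rel (S (i, b)) hh - -ag k Z) =
        (φ (hh + ag k (R ∪ y)) - φ (hh + ag k y'')) / m := by
      intro i
      rw [Fintype.sum_bool, sub_neg_eq_add, sub_neg_eq_add]
      show 1 / (m : ℂ) * φ (rel (σ i) hh + ag k Z) + -1 / (m : ℂ) * φ (rel (τ i) hh + ag k Z) = _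
      rw [e1, e2]
      ring
    rw [Finset.sum_congr rfl fun i _ => e i, Finset.sum_const, card_univ, Fintype.card_fin,
      nsmul_eq_mul]
    field_simp
  rw [hL] at hcs
  -- the common value
  have hQ : (∑ p, ∑ q, (starRingEnd ℂ) (c p) * c q * φ (rel (S q) hh - rel (S p) hh)).re ≤
      4 / m := by
    by_cases hex : ∃ p q : Fin m × Bool, p.1 ≠ q.1
    · obtain ⟨p₀, q₀, h0⟩ := hex
      refine samp2_form hm (fun p q => φ (rel (S q) hh - rel (S p) hh))
        (fun p q => pd_norm h.toPD _) (φ (rel (S q₀) hh - rel (S p₀) hh)) ?_ c (fun p => rfl)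
      intro p q hpq
      exact samp2_pair h R V' hh hs hRV (S1 p) (S1 q) (S1 p₀) (S1 q₀) (S2 p) (S2 q) (S2 p₀)
        (S2 q₀) (S3 p q hpq) (S3 p₀ q₀ h0)
    · refine samp2_form hm (fun p q => φ (rel (S q) hh - rel (S p) hh))
        (fun p q => pd_norm h.toPD _) 0 ?_ c (fun p => rfl)
      intro p q hpq
      exact absurd ⟨p, q, hpq⟩ hex
  have hfin := hcs.trans hQ
  have hmp : (0 : ℝ) < m := by exact_mod_cast hm
  have hsq : (2 / Real.sqrt m) ^ 2 = 4 / m := by
    rw [div_pow, Real.sq_sqrt hmp.le]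
    norm_num
  rw [← hsq] at hfin
  exact (sq_le_sq₀ (norm_nonneg _) (by positivity)).1 hfin

end Pool.Agent.Lib.MP_90b327_co.RS
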