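import Mathlib
import Pool.Agent.Lib.MP_90b327_co.RS.RDef
import Pool.Agent.Lib.MP_90b327_co.RS.Samp2
import Pool.Agent.Lib.MP_90b327_co.RS.ExcA

/-!
MODULE Mfold1 (60 minutes, old scale). The `M`-fold product (text 9, step 3), pointwise.

`R = (range (N (i+1))).image (2 ·)`, the blocks `bj N M j (t j)`, `j < M`, are pairwise disjoint sets of odd vertices with `N (t j + 1)` elements.
PROOF. Replace the sets `R ∪ bj j` one after the other by fresh sets `y_j` (pairwise disjoint, disjoint from all others, `|y_j| = N (i+1) + N (t j + 1)`): step `j`: `samp2` with `hh = ∑_{j' > j} ag k (R ∪ bj j') + ∑_{j' < j} ag k y_(j')` (`Sup hh (R ∪ V')`, `V'` = union of the `bj j'`, `j' > j`, and the `y_(j')`, `j' < j`), `y = bj j`, `m` = any number `≥ 1` with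
`m N (i+1) ≤ N (i+1) + N (t j + 1)`: take `m = (t j + 1)/(i + 1) + 1` (natural division), so `2/sqrt m ≤ 2 sqrt ((i+1)/(t j + 1))`. At the end dissociation: `φ (∑ ag k y_j) = ∏ φ (ag k (range (N (i+1) + N (t j + 1))))` (`mul` by induction, `exc_one`).
-/

set_option autoImplicit false

namespace Pool.Agent.Lib.MP_90b327_co.RS

open Finset MeasureTheory Filter Pool.Agent.Lib.MP_90b327_co Pool.Agent.Lib.MP_90b327_co.RB
  Pool.Agent.Lib.MP_90b327_co.WW

private theorem mfold1_sup_add {a b : GG} {V : Finset ℕ} (ha : Sup a V) (hb : Sup b V) :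
    Sup (a + b) V := by
  classical
  intro C hC
  have h1 := Finsupp.support_add hC
  rcases mem_union.1 h1 with h2 | h2
  · exact ha C h2
  · exact hb C h2

private theorem mfold1_sup_mono {a : GG} {V W : Finset ℕ} (ha : Sup a V) (h : V ⊆ W) :
    Sup a W := fun C hC => (ha C hC).trans h

private theorem mfold1_sup_sum {ι : Type} [DecidableEq ι] (S : Finset ι) (f : ι → GG)
    (V : Finset ℕ) (h : ∀ j ∈ S, Sup (f j) V) : Sup (∑ j ∈ S, f j) V := by
  induction S using Finset.induction_on with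
  | empty =>
    intro C hC
    simp at hC
  | insert j S hj ih =>
    rw [sum_insert hj]
    exact mfold1_sup_add (h j (mem_insert_self _ _)) (ih fun i hi => h i (mem_insert_of_mem hi))

private theorem mfold1_step {ι : Type} [DecidableEq ι] {φ : GG → ℂ} (h : DPD φ) (k : ℕ)
    (R : Finset ℕ) (b y : ι → Finset ℕ) (m : ι → ℕ) (hm : ∀ j, 1 ≤ m j)
    (hmR : ∀ j, m j * R.card ≤ R.card + (b j).card)
    (hbb : ∀ j j', j ≠ j' → Disjoint (b j) (b j'))
    (hyy : ∀ j j', j ≠ j' → Disjoint (y j) (y j'))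
    (hby : ∀ j j', Disjoint (b j) (y j')) (hRb : ∀ j, Disjoint R (b j))
    (hRy : ∀ j, Disjoint R (y j)) (hc : ∀ j, (y j).card = R.card + (b j).card)
    (S : Finset ι) : ∀ T : Finset ι, Disjoint S T →
      ‖φ (∑ j ∈ S, ag k (R ∪ b j) + ∑ j ∈ T, ag k (y j)) - φ (∑ j ∈ S ∪ T, ag k (y j))‖ ≤
        ∑ j ∈ S, 2 / Real.sqrt (m j) := by
  classical
  induction S using Finset.induction_on with
  | empty =>
    intro T _
    simp
  | insert j S hj ih =>
    intro T hT
    have hjT : j ∉ T := fun hh => disjoint_left.1 hT (mem_insert_self _ _) hh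
    have hST : Disjoint S (insert j T) := by
      rw [disjoint_left]
      intro x hx hx'
      rcases mem_insert.1 hx' with rfl | h1
      · exact hj hx
      · exact disjoint_left.1 hT (mem_insert_of_mem hx) h1
    have h2 := ih (insert j T) hST
    have e1 : S ∪ insert j T = insert j S ∪ T := by
      ext x
      simp only [mem_union, mem_insert]
      tauto
    rw [e1] at h2
    have h3 := samp2 h.toEPD k R (b j) (y j) (S.biUnion b ∪ T.biUnion y)
      (∑ j ∈ S, ag k (R ∪ b j) + ∑ j ∈ T, ag k (y j)) ?_ (hRb j) ?_ ?_ (hRy j).symm ?_ (hc j) (m j)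
      (hm j) (hmR j)
    · have e2 : (∑ j ∈ insert j S, ag k (R ∪ b j) + ∑ j ∈ T, ag k (y j)) =
          (∑ j ∈ S, ag k (R ∪ b j) + ∑ j ∈ T, ag k (y j)) + ag k (R ∪ b j) := by
        rw [sum_insert hj]
        abel
      have e3 : (∑ j ∈ S, ag k (R ∪ b j) + ∑ j ∈ insert j T, ag k (y j)) =
          (∑ j ∈ S, ag k (R ∪ b j) + ∑ j ∈ T, ag k (y j)) + ag k (y j) := by
        rw [sum_insert hjT]
        abel
      rw [e3] at h2
      rw [e2, sum_insert hj]
      calc _ ≤ _ := norm_sub_le_norm_sub_add_norm_sub _ (φ ((∑ j ∈ S, ag k (R ∪ b j) +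
            ∑ j ∈ T, ag k (y j)) + ag k (y j))) _
        _ ≤ _ := add_le_add h3 h2
    · refine mfold1_sup_add (mfold1_sup_sum _ _ _ ?_) (mfold1_sup_sum _ _ _ ?_)
      · intro i hi
        refine mfold1_sup_mono (ag_sup k _) ?_
        refine union_subset subset_union_left ?_
        refine ((subset_biUnion_of_mem b hi).trans subset_union_left).trans subset_union_right
      · intro i hi
        refine mfold1_sup_mono (ag_sup k _) ?_
        refine ((subset_biUnion_of_mem y hi).trans subset_union_right).trans subset_union_right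
    · rw [disjoint_union_right, disjoint_biUnion_right, disjoint_biUnion_right]
      exact ⟨fun i _ => hRb i, fun i _ => hRy i⟩
    · rw [disjoint_union_right, disjoint_biUnion_right, disjoint_biUnion_right]
      exact ⟨fun i hi => hbb _ _ (fun e => hj (e ▸ hi)), fun i _ => hby _ _⟩
    · rw [disjoint_union_right, disjoint_biUnion_right, disjoint_biUnion_right]
      exact ⟨fun i _ => (hby _ _).symm, fun i hi => hyy _ _ (fun e => hjT (e ▸ hi))⟩

private theorem mfold1_dis {ι : Type} [DecidableEq ι] {φ : GG → ℂ} (h : DPD φ) (k : ℕ)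
    (y : ι → Finset ℕ) (hyy : ∀ j j', j ≠ j' → Disjoint (y j) (y j')) (S : Finset ι) :
    φ (∑ j ∈ S, ag k (y j)) = ∏ j ∈ S, φ (ag k (y j)) := by
  classical
  induction S using Finset.induction_on with
  | empty => simp [h.zero]
  | insert j S hj ih =>
    rw [sum_insert hj, prod_insert hj, ← ih]
    refine h.mul _ _ (y j) (S.biUnion y) (ag_sup k _) (mfold1_sup_sum _ _ _ ?_) ?_
    · intro i hi
      exact mfold1_sup_mono (ag_sup k _) (subset_biUnion_of_mem y hi)
    · rw [disjoint_biUnion_right]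
      exact fun i hi => hyy _ _ (fun e => hj (e ▸ hi))

private theorem mfold1_mod {M a a' : ℕ} {x x' : ℕ} (ha : a < M) (ha' : a' < M)
    (h : M * x + a = M * x' + a') : a = a' := by
  have h1 := congrArg (· % M) h
  simp only [Nat.mul_add_mod, Nat.mod_eq_of_lt ha, Nat.mod_eq_of_lt ha'] at h1
  exact h1

private theorem mfold1_bound (i t : ℕ) :
    2 / Real.sqrt (((t + 1) / (i + 1) + 1 : ℕ) : ℝ) ≤
      2 * Real.sqrt (((i : ℝ) + 1) / ((t : ℝ) + 1)) := by
  have h1 : (0 : ℝ) < (i : ℝ) + 1 := by positivity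
  have h2 : (0 : ℝ) < (t : ℝ) + 1 := by positivity
  have hq : (0 : ℝ) < (((t + 1) / (i + 1) + 1 : ℕ) : ℝ) := by
    exact_mod_cast Nat.succ_pos _
  have h3 : (t : ℝ) + 1 ≤ ((i : ℝ) + 1) * (((t + 1) / (i + 1) + 1 : ℕ) : ℝ) := by
    have := (Nat.lt_mul_div_succ (t + 1) (Nat.succ_pos i)).le
    exact_mod_cast this
  rw [div_eq_mul_inv, ← Real.sqrt_inv]
  refine mul_le_mul_of_nonneg_left (Real.sqrt_le_sqrt ?_) (by norm_num)
  rw [inv_eq_one_div, div_le_div_iff₀ hq h2]
  linarith

theorem mfold1 {φ : GG → ℂ} (h : DPD φ) (k N M i : ℕ) (hN : 1 ≤ N) (t : Fin M → ℕ) :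
    ‖φ (∑ j : Fin M, ag k ((range (N * (i + 1))).image (fun x => 2 * x) ∪ bj N M j (t j))) -
        ∏ j : Fin M, φ (ag k (range (N * (i + 1) + N * (t j + 1))))‖ ≤
      ∑ j : Fin M, 2 * Real.sqrt (((i : ℝ) + 1) / ((t j : ℝ) + 1)) := by
  classical
  obtain ⟨R, hR⟩ : ∃ R : Finset ℕ, R = (range (N * (i + 1))).image (fun x => 2 * x) := ⟨_, rfl⟩
  obtain ⟨b, hb⟩ : ∃ b : Fin M → Finset ℕ, b = fun j : Fin M => bj N M j (t j) := ⟨_, rfl⟩
  obtain ⟨L, hL⟩ : ∃ L : ℕ, L = (R ∪ univ.biUnion b).sup id + 1 := ⟨_, rfl⟩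
  have hLt : ∀ w ∈ R ∪ univ.biUnion b, w < L := by
    intro w hw
    have := Finset.le_sup (f := id) hw
    rw [hL]
    exact Nat.lt_succ_of_le this
  obtain ⟨y, hy⟩ : ∃ y : Fin M → Finset ℕ, y = fun j : Fin M =>
    (range (N * (i + 1) + N * (t j + 1))).image (fun x => L + (M * x + (j : ℕ))) := ⟨_, rfl⟩
  have hRc : R.card = N * (i + 1) := by
    rw [hR, card_image_of_injective _ (fun a a' e => by simpa using e), card_range]
  have hbc : ∀ j, (b j).card = N * (t j + 1) := by
    intro j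
    have hM : 0 < M := lt_of_le_of_lt (Nat.zero_le _) j.2
    rw [hb]
    simp only [bj]
    rw [card_image_of_injective _ ?_, card_range]
    intro a a' e
    have e1 : M * a = M * a' := by
      simp only at e
      omega
    exact Nat.eq_of_mul_eq_mul_left hM e1
  have hyc : ∀ j, (y j).card = N * (i + 1) + N * (t j + 1) := by
    intro j
    have hM : 0 < M := lt_of_le_of_lt (Nat.zero_le _) j.2
    rw [hy]
    simp only
    rw [card_image_of_injective _ ?_, card_range]
    intro a a' e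
    have e1 : M * a = M * a' := by
      simp only at e
      omega
    exact Nat.eq_of_mul_eq_mul_left hM e1
  have hbb : ∀ j j', j ≠ j' → Disjoint (b j) (b j') := by
    intro j j' hne
    rw [disjoint_left]
    intro v hv hv'
    rw [hb] at hv hv'
    simp only [bj, mem_image] at hv hv'
    obtain ⟨x, -, hx⟩ := hv
    obtain ⟨x', -, hx'⟩ := hv'
    have e1 : M * x + (j : ℕ) = M * x' + (j' : ℕ) := by omega
    exact hne (Fin.ext (mfold1_mod j.2 j'.2 e1))
  have hyy : ∀ j j', j ≠ j' → Disjoint (y j) (y j') := by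
    intro j j' hne
    rw [disjoint_left]
    intro v hv hv'
    rw [hy] at hv hv'
    simp only [mem_image] at hv hv'
    obtain ⟨x, -, hx⟩ := hv
    obtain ⟨x', -, hx'⟩ := hv'
    have e1 : M * x + (j : ℕ) = M * x' + (j' : ℕ) := by omega
    exact hne (Fin.ext (mfold1_mod j.2 j'.2 e1))
  have hylt : ∀ j, ∀ v ∈ y j, L ≤ v := by
    intro j v hv
    rw [hy] at hv
    simp only [mem_image] at hv
    obtain ⟨x, -, hx⟩ := hv
    omega
  have hby : ∀ j j', Disjoint (b j) (y j') := by
    intro j j'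
    rw [disjoint_left]
    intro v hv hv'
    have h1 := hLt v (mem_union_right _ (mem_biUnion.2 ⟨j, mem_univ _, hv⟩))
    have h2 := hylt j' v hv'
    omega
  have hRy : ∀ j, Disjoint R (y j) := by
    intro j
    rw [disjoint_left]
    intro v hv hv'
    have h1 := hLt v (mem_union_left _ hv)
    have h2 := hylt j v hv'
    omega
  have hRb : ∀ j, Disjoint R (b j) := by
    intro j
    rw [disjoint_left]
    intro v hv hv'
    rw [hR] at hv
    rw [hb] at hv'
    simp only [bj, mem_image] at hv hv'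
    obtain ⟨x, -, hx⟩ := hv
    obtain ⟨x', -, hx'⟩ := hv'
    omega
  have h1 := mfold1_step h k R b y (fun j => (t j + 1) / (i + 1) + 1) (fun j => Nat.succ_pos _) ?_
    hbb hyy hby hRb hRy (fun j => by rw [hyc, hRc, hbc]) univ ∅ (disjoint_empty_right _)
  · rw [sum_empty, add_zero, union_empty, mfold1_dis h k y hyy] at h1
    have h2 : ∏ j : Fin M, φ (ag k (y j)) =
        ∏ j : Fin M, φ (ag k (range (N * (i + 1) + N * (t j + 1)))) := by
      refine prod_congr rfl fun j _ => exc_one h.toEPD k _ _ ?_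
      rw [hyc, card_range]
    rw [h2, hb, hR] at h1
    refine h1.trans (sum_le_sum fun j _ => ?_)
    exact mfold1_bound i (t j)
  · intro j
    rw [hRc, hbc]
    have h3 : (t j + 1) / (i + 1) * (i + 1) ≤ t j + 1 := Nat.div_mul_le_self _ _
    calc ((t j + 1) / (i + 1) + 1) * (N * (i + 1))
        = N * ((t j + 1) / (i + 1) * (i + 1)) + N * (i + 1) := by ring
      _ ≤ N * (t j + 1) + N * (i + 1) := by gcongr
      _ = N * (i + 1) + N * (t j + 1) := by ring

end Pool.Agent.Lib.MP_90b327_co.RS
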