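import Mathlib
import Pool.Agent.Lib.MP_90b327_co.RS.RDef
import Pool.Agent.Lib.MP_90b327_co.RS.LaLb
import Pool.Agent.Lib.MP_90b327_co.RS.ExcA
import Pool.Agent.Lib.MP_90b327_co.RS.PdA

/-!
MODULE RhoA (40 minutes, old scale). The map of step 3 (text 9).

PROOF. `rho_ag` (`b` disjoint from the even numbers, `1 ≤ k`): `lin (rho k b) (ag (k-1) s) + ∑_{A ⊆ s, |A| = k} 1_(2A) = ag k (s.image (2 ·) ∪ b)`: the sets `C ⊆ 2s ∪ b`, `|C| ≤ k`, are `2A ∪ B` with `A ⊆ s`, `B ⊆ b`; those with `|A| ≤ k - 1` are the first sum, those with `|A| = k` have `B = ∅`. `rho_drop`: if `φ (M • 1_C) = 1` for all `|C| = k` then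
`φ (∑_{j : Fin M} ag k (2s ∪ b_j)) = φ (∑_j lin (rho k b_j) (ag (k-1) s))` (`pd_add_one` for each `A`, `Finset.sum_const`, `card (Fin M) = M`). `rho_rel`: as `ins_rel`, `τ' (2 x) = 2 τ x`, `τ' = id` on the odd numbers.
-/

set_option autoImplicit false

namespace Pool.Agent.Lib.MP_90b327_co.RS

open Finset MeasureTheory Filter Pool.Agent.Lib.MP_90b327_co Pool.Agent.Lib.MP_90b327_co.RB
  Pool.Agent.Lib.MP_90b327_co.WW

private theorem RhoA_lin_sum {ι : Type} (τ : Finset ℕ → GG) (s : Finset ι) (f : ι → GG) :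
    lin τ (∑ i ∈ s, f i) = ∑ i ∈ s, lin τ (f i) :=
  map_sum (AddMonoidHom.mk' (lin τ) (lin_add τ)) f s

private theorem RhoA_rel_sum {ι : Type} (σ : ℕ → ℕ) (s : Finset ι) (f : ι → GG) :
    rel σ (∑ i ∈ s, f i) = ∑ i ∈ s, rel σ (f i) :=
  map_sum (AddMonoidHom.mk' (rel σ) (rel_add σ)) f s

private theorem RhoA_rel_zero (σ : ℕ → ℕ) : rel σ 0 = 0 := by
  unfold rel
  exact Finsupp.mapDomain_zero

private theorem RhoA_rel_smul (σ : ℕ → ℕ) (n : ℤ) (a : GG) : rel σ (n • a) = n • rel σ a := by
  unfold rel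
  exact Finsupp.mapDomain_smul n a

private theorem RhoA_inj : Function.Injective (fun x : ℕ => 2 * x) := fun a b h => by
  simp only at h
  omega

private theorem RhoA_disj (A B : Finset ℕ) (hB : ∀ x ∈ B, x % 2 = 1) :
    Disjoint (A.image (fun x => 2 * x)) B := by
  rw [Finset.disjoint_left]
  intro x hx hx'
  obtain ⟨a, _, rfl⟩ := Finset.mem_image.1 hx
  have := hB _ hx'
  omega

private theorem RhoA_card (A B : Finset ℕ) (hB : ∀ x ∈ B, x % 2 = 1) :
    (A.image (fun x => 2 * x) ∪ B).card = A.card + B.card := by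
  rw [Finset.card_union_of_disjoint (RhoA_disj A B hB),
    Finset.card_image_of_injective _ RhoA_inj]

/-- even part and odd part of `2A ∪ B` -/
private theorem RhoA_ev (A B : Finset ℕ) (hB : ∀ x ∈ B, x % 2 = 1) :
    (A.image (fun x => 2 * x) ∪ B).filter (fun x => x % 2 = 0) = A.image (fun x => 2 * x) := by
  ext x
  simp only [Finset.mem_filter, Finset.mem_union, Finset.mem_image]
  constructor
  · rintro ⟨h | h, h2⟩
    · exact h
    · have := hB x h
      omega
  · rintro ⟨a, ha, rfl⟩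
    exact ⟨Or.inl ⟨a, ha, rfl⟩, by omega⟩

private theorem RhoA_od (A B : Finset ℕ) (hB : ∀ x ∈ B, x % 2 = 1) :
    (A.image (fun x => 2 * x) ∪ B).filter (fun x => x % 2 = 1) = B := by
  ext x
  simp only [Finset.mem_filter, Finset.mem_union, Finset.mem_image]
  constructor
  · rintro ⟨⟨a, ha, rfl⟩ | h, h2⟩
    · omega
    · exact h
  · intro h
    exact ⟨Or.inr h, hB x h⟩

private theorem RhoA_pair_inj {A B A' B' : Finset ℕ} (hB : ∀ x ∈ B, x % 2 = 1)
    (hB' : ∀ x ∈ B', x % 2 = 1)
    (h : A.image (fun x => 2 * x) ∪ B = A'.image (fun x => 2 * x) ∪ B') : A = A' ∧ B = B' := by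
  constructor
  · have h1 := congrArg (fun s : Finset ℕ => s.filter (fun x => x % 2 = 0)) h
    simp only [RhoA_ev A B hB, RhoA_ev A' B' hB'] at h1
    exact Finset.image_injective RhoA_inj h1
  · have h1 := congrArg (fun s : Finset ℕ => s.filter (fun x => x % 2 = 1)) h
    simp only [RhoA_od A B hB, RhoA_od A' B' hB'] at h1
    exact h1

private theorem RhoA_decomp (s b C : Finset ℕ)
    (hC : C ⊆ s.image (fun x => 2 * x) ∪ b) :
    ∃ A ⊆ s, ∃ B ⊆ b, A.image (fun x => 2 * x) ∪ B = C := by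
  refine ⟨s.filter (fun x => 2 * x ∈ C), Finset.filter_subset _ _, b.filter (fun x => x ∈ C),
    Finset.filter_subset _ _, ?_⟩
  ext x
  simp only [Finset.mem_union, Finset.mem_image, Finset.mem_filter]
  constructor
  · rintro (⟨a, ⟨_, h⟩, rfl⟩ | ⟨_, h⟩)
    · exact h
    · exact h
  · intro h
    rcases Finset.mem_union.1 (hC h) with h1 | h1
    · obtain ⟨a, ha, rfl⟩ := Finset.mem_image.1 h1
      exact Or.inl ⟨a, ⟨ha, h⟩, rfl⟩
    · exact Or.inr ⟨h1, h⟩

/-- `ag k (2s ∪ b)` as a double sum -/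
private theorem RhoA_double (k : ℕ) (b s : Finset ℕ) (hb : ∀ x ∈ b, x % 2 = 1) :
    ag k (s.image (fun x => 2 * x) ∪ b) = ∑ A ∈ s.powerset,
      ∑ B ∈ b.powerset.filter (fun B => (A.image (fun x => 2 * x) ∪ B).card ≤ k),
        Finsupp.single (A.image (fun x => 2 * x) ∪ B) 1 := by
  classical
  unfold ag
  rw [Finset.sum_sigma']
  symm
  refine Finset.sum_bij (fun p _ => p.1.image (fun x => 2 * x) ∪ p.2) ?_ ?_ ?_ ?_
  · intro p hp
    simp only [Finset.mem_sigma, Finset.mem_powerset, Finset.mem_filter] at hp ⊢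
    exact ⟨Finset.union_subset_union (Finset.image_subset_image hp.1) hp.2.1, hp.2.2⟩
  · rintro ⟨A, B⟩ hp ⟨A', B'⟩ hp' h
    simp only [Finset.mem_sigma, Finset.mem_powerset, Finset.mem_filter] at hp hp' h
    obtain ⟨h1, h2⟩ := RhoA_pair_inj (fun x hx => hb x (hp.2.1 hx)) (fun x hx => hb x (hp'.2.1 hx)) h
    subst h1
    subst h2
    rfl
  · intro C hC
    simp only [Finset.mem_powerset, Finset.mem_filter] at hC
    obtain ⟨A, hA, B, hB, h⟩ := RhoA_decomp s b C hC.1
    refine ⟨⟨A, B⟩, ?_, h⟩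
    simp only [Finset.mem_sigma, Finset.mem_powerset, Finset.mem_filter]
    exact ⟨hA, hB, by rw [h]; exact hC.2⟩
  · intro p _
    rfl

theorem rho_ag (k : ℕ) (hk : 1 ≤ k) (b s : Finset ℕ) (hb : ∀ x ∈ b, x % 2 = 1) :
    lin (rho k b) (ag (k - 1) s) + ∑ A ∈ s.powerset.filter (fun A => A.card = k),
      Finsupp.single (A.image (fun x => 2 * x)) 1 = ag k (s.image (fun x => 2 * x) ∪ b) := by
  classical
  rw [RhoA_double k b s hb]
  have e1 : lin (rho k b) (ag (k - 1) s) = ∑ A ∈ s.powerset.filter (fun A => A.card ≤ k - 1),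
      ∑ B ∈ b.powerset.filter (fun B => (A.image (fun x => 2 * x) ∪ B).card ≤ k),
        Finsupp.single (A.image (fun x => 2 * x) ∪ B) 1 := by
    unfold ag
    rw [RhoA_lin_sum]
    refine Finset.sum_congr rfl fun A hA => ?_
    rw [lin_single, one_smul]
    unfold rho
    rw [if_pos]
    have := (Finset.mem_filter.1 hA).2
    omega
  have e2 : ∑ A ∈ s.powerset.filter (fun A => A.card = k),
      (Finsupp.single (A.image (fun x => 2 * x)) 1 : GG) =
      ∑ A ∈ s.powerset.filter (fun A => A.card = k),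
      ∑ B ∈ b.powerset.filter (fun B => (A.image (fun x => 2 * x) ∪ B).card ≤ k),
        Finsupp.single (A.image (fun x => 2 * x) ∪ B) 1 := by
    refine Finset.sum_congr rfl fun A hA => ?_
    have hA' := (Finset.mem_filter.1 hA).2
    have : b.powerset.filter (fun B => (A.image (fun x => 2 * x) ∪ B).card ≤ k) = {∅} := by
      ext B
      simp only [Finset.mem_filter, Finset.mem_powerset, Finset.mem_singleton]
      constructor
      · rintro ⟨h1, h2⟩
        rw [RhoA_card A B (fun x hx => hb x (h1 hx))] at h2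
        exact Finset.card_eq_zero.1 (by omega)
      · rintro rfl
        refine ⟨Finset.empty_subset _, ?_⟩
        rw [Finset.union_empty, Finset.card_image_of_injective _ RhoA_inj]
        omega
    rw [this, Finset.sum_singleton, Finset.union_empty]
  rw [e1, e2, ← Finset.sum_filter_add_sum_filter_not s.powerset (fun A => A.card ≤ k - 1)]
  congr 1
  refine Finset.sum_subset ?_ ?_
  · intro A hA
    simp only [Finset.mem_filter] at hA ⊢
    exact ⟨hA.1, by omega⟩
  · intro A hA hA'
    simp only [Finset.mem_filter, not_and, Finset.mem_powerset] at hA hA'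
    have h1 := hA' hA.1
    refine Finset.sum_eq_zero fun B hB => ?_
    exfalso
    simp only [Finset.mem_filter, Finset.mem_powerset] at hB
    have h2 := hB.2
    rw [RhoA_card A B (fun x hx => hb x (hB.1 hx))] at h2
    omega

theorem rho_drop {φ : GG → ℂ} (h : PD φ) (k M : ℕ) (hk : 1 ≤ k)
    (h1 : ∀ C : Finset ℕ, C.card = k → φ ((M : ℤ) • Finsupp.single C 1) = 1) (s : Finset ℕ)
    (b : Fin M → Finset ℕ) (hb : ∀ j, ∀ x ∈ b j, x % 2 = 1) :
    φ (∑ j, ag k (s.image (fun x => 2 * x) ∪ b j)) =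
      φ (∑ j, lin (rho k (b j)) (ag (k - 1) s)) := by
  classical
  have e : ∑ j, ag k (s.image (fun x => 2 * x) ∪ b j) = (∑ j, lin (rho k (b j)) (ag (k - 1) s)) +
      ∑ A ∈ s.powerset.filter (fun A => A.card = k),
        (M : ℤ) • (Finsupp.single (A.image (fun x => 2 * x)) 1 : GG) := by
    rw [Finset.sum_congr rfl (fun j _ => (rho_ag k hk (b j) s (hb j)).symm),
      Finset.sum_add_distrib, Finset.sum_const, Finset.card_univ, Fintype.card_fin,
      ← Finset.smul_sum, natCast_zsmul]
  rw [e]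
  have h2 : ∀ (S : Finset (Finset ℕ)), (∀ A ∈ S, A.card = k) → ∀ a : GG,
      φ (a + ∑ A ∈ S, (M : ℤ) • (Finsupp.single (A.image (fun x => 2 * x)) 1 : GG)) = φ a := by
    intro S
    induction S using Finset.induction_on with
    | empty => intro _ a; simp
    | insert A S hA ih =>
      intro hS a
      rw [Finset.sum_insert hA, ← add_assoc,
        ih (fun A' hA' => hS A' (Finset.mem_insert_of_mem hA'))]
      have h3 := pd_add_one h ((M : ℤ) • (Finsupp.single (A.image (fun x => 2 * x)) 1 : GG)) a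
        (h1 _ (by
          rw [Finset.card_image_of_injective _ RhoA_inj]
          exact hS A (Finset.mem_insert_self _ _))) 1
      rw [one_smul] at h3
      exact h3
  exact h2 _ (fun A hA => (Finset.mem_filter.1 hA).2) _

private theorem RhoA_image {τ τ' : ℕ → ℕ} (h : ∀ x, τ' (2 * x) = 2 * τ x) (A B : Finset ℕ)
    (hB : ∀ x ∈ B, τ' x = x) :
    (A.image (fun x => 2 * x) ∪ B).image τ' = (A.image τ).image (fun x => 2 * x) ∪ B := by
  rw [Finset.image_union, Finset.image_image, Finset.image_image]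
  congr 1
  · refine Finset.image_congr fun x _ => ?_
    exact h x
  · ext x
    simp only [Finset.mem_image]
    constructor
    · rintro ⟨y, hy, rfl⟩
      rw [hB y hy]
      exact hy
    · intro hx
      exact ⟨x, hx, hB x hx⟩

theorem rho_rel (k : ℕ) {τ τ' : ℕ → ℕ} (hτ' : Function.Injective τ')
    (h : ∀ x, τ' (2 * x) = 2 * τ x) (b : Finset ℕ) (hb : ∀ x ∈ b, τ' x = x) (a : GG) :
    lin (rho k b) (rel τ a) = rel τ' (lin (rho k b) a) := by
  classical
  have hτ : Function.Injective τ := by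
    intro x y hxy
    have h1 : τ' (2 * x) = τ' (2 * y) := by rw [h, h, hxy]
    have := hτ' h1
    omega
  induction a using Finsupp.induction_linear with
  | zero => rw [RhoA_rel_zero, lin_zero, RhoA_rel_zero]
  | add a b ha hb => rw [rel_add, lin_add, ha, hb, lin_add, rel_add]
  | single C n =>
    rw [rel_single, lin_single, lin_single, RhoA_rel_smul]
    congr 1
    unfold rho
    rw [Finset.card_image_of_injective _ hτ]
    split_ifs with hC
    · rw [RhoA_rel_sum]
      have h1 : ∀ B ∈ b.powerset, ((C.image τ).image (fun x => 2 * x) ∪ B).card =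
          (C.image (fun x => 2 * x) ∪ B).card := by
        intro B hB
        rw [← RhoA_image h C B (fun x hx => hb x (Finset.mem_powerset.1 hB hx)),
          Finset.card_image_of_injective _ hτ']
      rw [Finset.filter_congr (fun B hB => by rw [h1 B hB])]
      refine Finset.sum_congr rfl fun B hB => ?_
      rw [rel_single, RhoA_image h C B (fun x hx => hb x
        (Finset.mem_powerset.1 (Finset.mem_filter.1 hB).1 hx))]
    · rw [RhoA_rel_zero]

end Pool.Agent.Lib.MP_90b327_co.RS
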