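import Mathlib
import Pool.Agent.Lib.MP_90b327_co.RS.RDef
import Pool.Agent.Lib.MP_90b327_co.RS.RhoA

/-!
MODULE XiA (35 minutes, old scale). `ξ_l` is exchangeable; values at single vertices (text 9, step 3).

PROOF. `xi_epd`: mean of compositions of `φ` with additive maps; `inv` by `rho_rel` (`τ' (2 x) = 2 τ x`, `τ' = id` on odd numbers; `bj` consists of odd numbers). `xi_single` (`k ≥ 2`, `M ∣ M'`): `rho k b {v} = 1_{2v} + (sum of 1_C with |C| ≥ 2, C ≤ k)`; so `∑_j lin (rho k b_j) (∑_t n_t • M' • 1_{e t}) = ∑_t n_t • (M' M) • 1_{2 e_t} + (combination of M 1_C, |C| ≥ 2)`, the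
second part may be dropped (`pd_add_one`): all summands of `xi2` are equal to `φ (∑ t, n_t • (M' M) • 1_{2 e_t})`; there are `l^M` of them.
-/

set_option autoImplicit false

namespace Pool.Agent.Lib.MP_90b327_co.RS

open Finset MeasureTheory Filter Pool.Agent.Lib.MP_90b327_co Pool.Agent.Lib.MP_90b327_co.RB
  Pool.Agent.Lib.MP_90b327_co.WW

/-- the map of the summand `t` -/
private noncomputable def XiA_L (k N M l : ℕ) (t : Fin M → Fin l) : GG →+ GG :=
  ∑ j : Fin M, AddMonoidHom.mk' (lin (rho k (bj N M j (t j)))) (lin_add _)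

private theorem XiA_L_apply (k N M l : ℕ) (t : Fin M → Fin l) (a : GG) :
    XiA_L k N M l t a = ∑ j : Fin M, lin (rho k (bj N M j (t j))) a := by
  unfold XiA_L
  rw [AddMonoidHom.finsetSum_apply]
  rfl

private theorem XiA_xi (k N M l : ℕ) (φ : GG → ℂ) (a : GG) :
    xi2 k N M l φ a = (∑ t : Fin M → Fin l, φ (XiA_L k N M l t a)) / (l : ℂ) ^ M := by
  unfold xi2
  simp only [XiA_L_apply]

private theorem XiA_odd (N M j t : ℕ) : ∀ x ∈ bj N M j t, x % 2 = 1 := by
  intro x hx
  unfold bj at hx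
  obtain ⟨y, _, rfl⟩ := Finset.mem_image.1 hx
  omega

theorem xi_epd {φ : GG → ℂ} (h : EPD φ) (k N M l : ℕ) (hl : 1 ≤ l) : EPD (xi2 k N M l φ) := by
  have hl0 : ((l : ℂ) ^ M) ≠ 0 := pow_ne_zero _ (by exact_mod_cast (by omega : l ≠ 0))
  refine ⟨⟨?_, ?_, ?_⟩, ?_⟩
  · rw [XiA_xi]
    simp only [map_zero, h.zero]
    rw [Finset.sum_const, Finset.card_univ, Fintype.card_fun, Fintype.card_fin, Fintype.card_fin,
      nsmul_eq_mul, mul_one, Nat.cast_pow, div_self hl0]
  · intro a
    rw [XiA_xi, XiA_xi, map_div₀, map_sum, map_pow, Complex.conj_natCast]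
    congr 1
    refine Finset.sum_congr rfl fun t _ => ?_
    rw [map_neg, h.neg]
  · intro ι _ x c
    have e : (∑ i, ∑ j, (starRingEnd ℂ) (c i) * c j * xi2 k N M l φ (x j - x i)) =
        (∑ t : Fin M → Fin l, ∑ i, ∑ j, (starRingEnd ℂ) (c i) * c j *
          φ (XiA_L k N M l t (x j) - XiA_L k N M l t (x i))) / (l : ℂ) ^ M := by
      simp only [XiA_xi, map_sub, mul_div_assoc', Finset.mul_sum, ← Finset.sum_div]
      congr 1
      rw [Finset.sum_comm (s := univ (α := Fin M → Fin l))]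
      refine Finset.sum_congr rfl fun i _ => ?_
      rw [Finset.sum_comm]
    rw [e]
    have e2 : ((l : ℂ) ^ M) = (((l : ℝ) ^ M : ℝ) : ℂ) := by push_cast; rfl
    rw [e2, Complex.div_ofReal_re, Complex.re_sum]
    refine div_nonneg (Finset.sum_nonneg fun t _ => ?_) (by positivity)
    exact h.psd ι (fun i => XiA_L k N M l t (x i)) c
  · intro σ hσ a
    rw [XiA_xi, XiA_xi]
    congr 1
    refine Finset.sum_congr rfl fun t _ => ?_
    obtain ⟨τ', hτ⟩ : ∃ τ' : ℕ → ℕ, τ' = fun x => if x % 2 = 0 then 2 * σ (x / 2) else x :=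
      ⟨_, rfl⟩
    have h2 : ∀ x, τ' (2 * x) = 2 * σ x := by
      intro x
      rw [hτ]
      simp only
      rw [if_pos (by omega), show 2 * x / 2 = x by omega]
    have h3 : ∀ x, x % 2 = 1 → τ' x = x := by
      intro x hx
      rw [hτ]
      simp only
      rw [if_neg (by omega)]
    have h4 : Function.Injective τ' := by
      intro x y hxy
      rw [hτ] at hxy
      simp only at hxy
      by_cases hx : x % 2 = 0
      · by_cases hy : y % 2 = 0
        · rw [if_pos hx, if_pos hy] at hxy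
          have := hσ (show σ (x / 2) = σ (y / 2) by omega)
          omega
        · rw [if_pos hx, if_neg hy] at hxy
          omega
      · by_cases hy : y % 2 = 0
        · rw [if_neg hx, if_pos hy] at hxy
          omega
        · rw [if_neg hx, if_neg hy] at hxy
          exact hxy
    have h5 : XiA_L k N M l t (rel σ a) = rel τ' (XiA_L k N M l t a) := by
      rw [XiA_L_apply, XiA_L_apply]
      have h6 : rel τ' (∑ j : Fin M, lin (rho k (bj N M j (t j))) a) =
          ∑ j : Fin M, rel τ' (lin (rho k (bj N M j (t j))) a) :=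
        map_sum (AddMonoidHom.mk' (rel τ') (rel_add τ')) _ _
      rw [h6]
      refine Finset.sum_congr rfl fun j _ => ?_
      exact rho_rel k h4 h2 _ (fun x hx => h3 x (XiA_odd _ _ _ _ x hx)) a
    rw [h5, h.inv τ' h4]

/-- the subgroup where `φ = 1` -/
private def XiA_K {φ : GG → ℂ} (h : PD φ) : AddSubgroup GG where
  carrier := {a | φ a = 1}
  zero_mem' := h.zero
  add_mem' := by
    intro a b ha hb
    have := pd_add_one h b a hb 1
    rw [one_zsmul] at this
    show φ (a + b) = 1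
    rw [this]
    exact ha
  neg_mem' := by
    intro a ha
    show φ (-a) = 1
    rw [h.neg, show φ a = 1 from ha, map_one]

private theorem XiA_one {φ : GG → ℂ} (h : PD φ) (k N M l : ℕ) (hk : 2 ≤ k)
    (h1 : ∀ C : Finset ℕ, 2 ≤ C.card → C.card ≤ k → φ ((M : ℤ) • Finsupp.single C 1) = 1)
    (M' : ℕ) (hM : M ∣ M') (t : Fin M → Fin l) (v : ℕ) :
    ∃ r ∈ XiA_K h, (M' : ℤ) • XiA_L k N M l t (Finsupp.single {v} 1) =
      ((M' * M : ℕ) : ℤ) • Finsupp.single {2 * v} 1 + r := by
  classical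
  obtain ⟨q, hq⟩ := hM
  have hmem : ∀ C : Finset ℕ, 2 ≤ C.card → C.card ≤ k →
      (M' : ℤ) • (Finsupp.single C 1 : GG) ∈ XiA_K h := by
    intro C hC hC'
    have h2 : (M' : ℤ) • (Finsupp.single C 1 : GG) = (q : ℤ) • ((M : ℤ) • Finsupp.single C 1) := by
      rw [smul_smul, hq]
      congr 1
      push_cast
      ring
    rw [h2]
    exact (XiA_K h).zsmul_mem (h1 C hC hC') _
  have hrho : ∀ b : Finset ℕ, (∀ x ∈ b, x % 2 = 1) → ∃ r : GG, (M' : ℤ) • r ∈ XiA_K h ∧
      rho k b {v} = Finsupp.single {2 * v} 1 + r := by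
    intro b hb
    refine ⟨∑ B ∈ (b.powerset.filter (fun B => (({v} : Finset ℕ).image (fun x => 2 * x) ∪ B).card ≤ k)).erase
      ∅, Finsupp.single (({v} : Finset ℕ).image (fun x => 2 * x) ∪ B) 1, ?_, ?_⟩
    · rw [Finset.smul_sum]
      refine (XiA_K h).sum_mem fun B hB => ?_
      rw [Finset.mem_erase, Finset.mem_filter, Finset.mem_powerset] at hB
      refine hmem _ ?_ hB.2.2
      rw [Finset.image_singleton, Finset.card_union_of_disjoint, Finset.card_singleton]
      · have := Finset.card_pos.2 (Finset.nonempty_iff_ne_empty.2 hB.1)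
        omega
      · rw [Finset.disjoint_singleton_left]
        intro hx
        have := hb _ (hB.2.1 hx)
        omega
    · unfold rho
      rw [if_pos (by rw [Finset.card_singleton]; omega)]
      have h0 : (∅ : Finset ℕ) ∈ b.powerset.filter
          (fun B => (({v} : Finset ℕ).image (fun x => 2 * x) ∪ B).card ≤ k) := by
        rw [Finset.mem_filter, Finset.mem_powerset, Finset.union_empty, Finset.image_singleton,
          Finset.card_singleton]
        exact ⟨Finset.empty_subset _, by omega⟩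
      rw [← Finset.add_sum_erase _ _ h0, Finset.union_empty, Finset.image_singleton]
  choose r hr1 hr2 using fun j : Fin M => hrho (bj N M j (t j)) (XiA_odd _ _ _ _)
  refine ⟨(M' : ℤ) • ∑ j, r j, ?_, ?_⟩
  · rw [Finset.smul_sum]
    exact (XiA_K h).sum_mem fun j _ => hr1 j
  · rw [XiA_L_apply]
    have h2 : ∀ j : Fin M, lin (rho k (bj N M j (t j))) (Finsupp.single {v} 1) =
        Finsupp.single {2 * v} 1 + r j := by
      intro j
      rw [lin_single, one_smul, hr2 j]
    rw [Finset.sum_congr rfl fun j _ => h2 j, Finset.sum_add_distrib, Finset.sum_const,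
      Finset.card_univ, Fintype.card_fin, smul_add]
    congr 1
    rw [← natCast_zsmul, smul_smul]
    push_cast
    rfl

theorem xi_single {φ : GG → ℂ} (h : PD φ) (k N M l : ℕ) (hk : 2 ≤ k) (hl : 1 ≤ l)
    (h1 : ∀ C : Finset ℕ, 2 ≤ C.card → C.card ≤ k → φ ((M : ℤ) • Finsupp.single C 1) = 1)
    (M' : ℕ) (hM : M ∣ M') (ι : Type) [Fintype ι] (n : ι → ℤ) (e : ι → ℕ) :
    xi2 k N M l φ (∑ t, n t • ((M' : ℤ) • Finsupp.single {e t} 1)) =
      φ (∑ t, n t • (((M' * M : ℕ) : ℤ) • Finsupp.single {2 * e t} 1)) := by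
  have hl0 : ((l : ℂ) ^ M) ≠ 0 := pow_ne_zero _ (by exact_mod_cast (by omega : l ≠ 0))
  rw [XiA_xi]
  have h2 : ∀ t : Fin M → Fin l,
      φ (XiA_L k N M l t (∑ i, n i • ((M' : ℤ) • Finsupp.single {e i} 1))) =
        φ (∑ i, n i • (((M' * M : ℕ) : ℤ) • Finsupp.single {2 * e i} 1)) := by
    intro t
    choose r hr1 hr2 using fun i : ι => XiA_one h k N M l hk h1 M' hM t (e i)
    have h3 : XiA_L k N M l t (∑ i, n i • ((M' : ℤ) • Finsupp.single {e i} 1)) =
        ∑ i, n i • (((M' * M : ℕ) : ℤ) • Finsupp.single {2 * e i} 1) + ∑ i, n i • r i := by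
      rw [map_sum, ← Finset.sum_add_distrib]
      refine Finset.sum_congr rfl fun i _ => ?_
      rw [map_zsmul, map_zsmul, hr2 i, smul_add]
    have h4 : ∑ i, n i • r i ∈ XiA_K h :=
      (XiA_K h).sum_mem fun i _ => (XiA_K h).zsmul_mem (hr1 i) _
    rw [h3]
    have := pd_add_one h (∑ i, n i • r i)
      (∑ i, n i • (((M' * M : ℕ) : ℤ) • Finsupp.single {2 * e i} 1)) h4 1
    rw [one_zsmul] at this
    exact this
  rw [Finset.sum_congr rfl fun t _ => h2 t, Finset.sum_const, Finset.card_univ, Fintype.card_fun,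
    Fintype.card_fin, Fintype.card_fin, nsmul_eq_mul, Nat.cast_pow, mul_div_cancel_left₀ _ hl0]

end Pool.Agent.Lib.MP_90b327_co.RS
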