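import Mathlib
import Pool.Agent.Lib.MP_90b327_co.RS.RDef
import Pool.Agent.Lib.MP_90b327_co.RS.Mfold1
import Pool.Agent.Lib.MP_90b327_co.RS.RhoA
import Pool.Agent.Lib.MP_90b327_co.RS.XiA
import Pool.Agent.Lib.MP_90b327_co.RS.PdA

/-!
MODULE Mfold2 (60 minutes, old scale). The `M`-fold product, averaged (text 9, step 3).

PROOF. `M ≥ 1`. By `rho_drop` and `mfold1`: `mm (k-1) N l₁ (xi2 k N M l φ) = (1/l₁) ∑_{i<l₁} (1/l^M) ∑_{t : Fin M → Fin l} φ (∑_j ag k (2 (range (N(i+1))) ∪ bj j (t j)))` which differs from `(1/l₁) ∑_i (1/l^M) ∑_t ∏_j φ (ag k (range (N(i+1) + N(t j + 1))))` by at most `(1/l₁) ∑_i (1/l^M) ∑_t ∑_j 2 sqrt ((i+1)/(t_j+1)) ≤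
M * 2 sqrt l₁ * (1/l) ∑_{t<l} 1/sqrt(t+1) ≤ 4 M sqrt (l₁ / l)` (`∑_{t<l} 1/sqrt(t+1) ≤ 2 sqrt l`). The second expression is `(1/l₁) ∑_i ((1/l) ∑_t φ (ag k (range (N (i+1) + N (t+1)))))^M` (`Finset.prod_univ_sum`), and `‖(1/l) ∑_t .. - mm k N l φ‖ ≤ 2 (i+1)/l ≤ 2 l₁/l` (shift), so (numbers of modulus `≤ 1`: `|x^M - y^M| ≤ M |x - y|`)
it differs from `(mm k N l φ)^M` by at most `2 M l₁/l`. All errors tend to `0` as `l → ∞` (`l₁` fixed).
-/

set_option autoImplicit false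

namespace Pool.Agent.Lib.MP_90b327_co.RS

open Finset MeasureTheory Filter Pool.Agent.Lib.MP_90b327_co Pool.Agent.Lib.MP_90b327_co.RB
  Pool.Agent.Lib.MP_90b327_co.WW

private theorem mf2_sqrt (l : ℕ) : ∑ s ∈ range l, 1 / Real.sqrt ((s : ℝ) + 1) ≤ 2 * Real.sqrt l := by
  induction l with
  | zero => simp
  | succ l ih =>
    rw [sum_range_succ]
    have h1 : 0 < Real.sqrt ((l : ℝ) + 1) := Real.sqrt_pos.2 (by positivity)
    have h2 : Real.sqrt l ≤ Real.sqrt ((l : ℝ) + 1) := Real.sqrt_le_sqrt (by linarith)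
    have h3 : Real.sqrt ((l : ℝ) + 1) ^ 2 = (l : ℝ) + 1 := Real.sq_sqrt (by positivity)
    have h4 : Real.sqrt (l : ℝ) ^ 2 = (l : ℝ) := Real.sq_sqrt (by positivity)
    have h5 : 0 ≤ Real.sqrt (l : ℝ) := Real.sqrt_nonneg _
    have h6 : 2 * Real.sqrt l + 1 / Real.sqrt ((l : ℝ) + 1) ≤ 2 * Real.sqrt ((l : ℝ) + 1) := by
      rw [← sub_nonneg]
      have h7 : 2 * Real.sqrt ((l : ℝ) + 1) - (2 * Real.sqrt l + 1 / Real.sqrt ((l : ℝ) + 1)) =
          (2 * Real.sqrt ((l : ℝ) + 1) ^ 2 - 2 * Real.sqrt l * Real.sqrt ((l : ℝ) + 1) - 1) /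
            Real.sqrt ((l : ℝ) + 1) := by
        field_simp
        ring
      rw [h7]
      refine div_nonneg ?_ h1.le
      nlinarith [sq_nonneg (Real.sqrt ((l : ℝ) + 1) - Real.sqrt l)]
    push_cast
    linarith

private theorem mf2_pow {x y : ℂ} (hx : ‖x‖ ≤ 1) (hy : ‖y‖ ≤ 1) (M : ℕ) :
    ‖x ^ M - y ^ M‖ ≤ M * ‖x - y‖ := by
  induction M with
  | zero => simp
  | succ M ih =>
    have h1 : x ^ (M + 1) - y ^ (M + 1) = x ^ M * (x - y) + (x ^ M - y ^ M) * y := by ring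
    rw [h1]
    refine (norm_add_le _ _).trans ?_
    rw [norm_mul, norm_mul, norm_pow]
    have h2 : ‖x‖ ^ M ≤ 1 := pow_le_one₀ (norm_nonneg _) hx
    have h3 := norm_nonneg (x - y)
    have h4 := norm_nonneg (x ^ M - y ^ M)
    have h5 := norm_nonneg y
    push_cast
    nlinarith [mul_le_mul_of_nonneg_right h2 h3, mul_le_mul_of_nonneg_left hy h4]

/-- the sum of a function of one coordinate over `Fin M → Fin l` -/
private theorem mf2_marg (M l : ℕ) (a : ℕ → ℝ) (j : Fin M) :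
    ∑ t : Fin M → Fin l, a (t j : ℕ) = (l : ℝ) ^ (M - 1) * ∑ s ∈ range l, a s := by
  classical
  have h1 : ∀ t : Fin M → Fin l, a (t j : ℕ) =
      ∏ i : Fin M, (if i = j then a (t i : ℕ) else 1) := by
    intro t
    rw [Finset.prod_ite_eq' univ j (fun i => a (t i : ℕ))]
    simp
  have h2 : ∏ i : Fin M, ∑ s : Fin l, (if i = j then a (s : ℕ) else 1) =
      ∑ t : Fin M → Fin l, ∏ i : Fin M, (if i = j then a (t i : ℕ) else 1) := by
    rw [Finset.prod_univ_sum]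
    rw [Fintype.piFinset_univ]
  simp only [h1]
  rw [← h2]
  have h3 : ∀ i : Fin M, ∑ s : Fin l, (if i = j then a (s : ℕ) else 1) =
      if i = j then ∑ s ∈ range l, a s else (l : ℝ) := by
    intro i
    by_cases hi : i = j
    · rw [if_pos hi]
      simp only [if_pos hi]
      exact Fin.sum_univ_eq_sum_range (fun s => a s) l
    · rw [if_neg hi]
      simp only [if_neg hi]
      simp
  simp only [h3]
  rw [← Finset.mul_prod_erase univ _ (mem_univ j), if_pos rfl]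
  have h4 : ∏ i ∈ univ.erase j, (if i = j then ∑ s ∈ range l, a s else (l : ℝ)) =
      (l : ℝ) ^ (M - 1) := by
    rw [Finset.prod_congr rfl (fun i hi => if_neg (Finset.ne_of_mem_erase hi)), prod_const,
      card_erase_of_mem (mem_univ j), card_univ, Fintype.card_fin]
  rw [h4]
  ring

private theorem mf2_shift {g : ℕ → ℂ} (hg : ∀ s, ‖g s‖ ≤ 1) (l i : ℕ) :
    ‖∑ s ∈ range l, g (s + i) - ∑ s ∈ range l, g s‖ ≤ 2 * i := by
  have h1 : ∑ s ∈ range l, g (s + i) - ∑ s ∈ range l, g s =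
      ∑ s ∈ range i, g (l + s) - ∑ s ∈ range i, g s := by
    have a1 := sum_range_add (fun s => g s) l i
    have a2 := sum_range_add (fun s => g s) i l
    rw [add_comm i l] at a2
    have a3 : ∑ s ∈ range l, g (s + i) = ∑ s ∈ range l, g (i + s) :=
      Finset.sum_congr rfl (fun s _ => by rw [add_comm])
    rw [a3]
    linear_combination a1 - a2
  rw [h1]
  have h2 : ∀ f : ℕ → ℂ, (∀ s, ‖f s‖ ≤ 1) → ‖∑ s ∈ range i, f s‖ ≤ i := by
    intro f hf
    calc ‖∑ s ∈ range i, f s‖ ≤ ∑ s ∈ range i, ‖f s‖ := norm_sum_le _ _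
      _ ≤ ∑ s ∈ range i, (1 : ℝ) := Finset.sum_le_sum (fun s _ => hf s)
      _ = i := by simp
  calc ‖∑ s ∈ range i, g (l + s) - ∑ s ∈ range i, g s‖ ≤
        ‖∑ s ∈ range i, g (l + s)‖ + ‖∑ s ∈ range i, g s‖ := norm_sub_le _ _
    _ ≤ i + i := add_le_add (h2 _ (fun s => hg _)) (h2 _ hg)
    _ = 2 * i := by ring

private theorem mf2_core {φ : GG → ℂ} (h : DPD φ) (k N M : ℕ) (hk : 2 ≤ k) (hN : 1 ≤ N) (hM : 1 ≤ M)
    (h1 : ∀ C : Finset ℕ, 2 ≤ C.card → C.card ≤ k → φ ((M : ℤ) • Finsupp.single C 1) = 1)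
    (l₁ l i : ℕ) (hi : i < l₁) (hl : 1 ≤ l) :
    ‖xi2 k N M l φ (ag (k - 1) (range (N * (i + 1)))) - (mm k N l φ) ^ M‖ ≤
      4 * M * Real.sqrt ((l₁ : ℝ) / l) + 2 * M * l₁ / l := by
  classical
  have hl0 : (0 : ℝ) < l := by exact_mod_cast hl
  have hlC : (l : ℂ) ≠ 0 := by exact_mod_cast (by omega : l ≠ 0)
  have hPD : PD φ := h.toEPD.toPD
  set g : ℕ → ℂ := fun s => φ (ag k (range (N * (s + 1)))) with hg
  have hg1 : ∀ s, ‖g s‖ ≤ 1 := fun s => pd_norm hPD _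
  -- the value of `xi2`
  have e1 : xi2 k N M l φ (ag (k - 1) (range (N * (i + 1)))) =
      (∑ t : Fin M → Fin l, φ (∑ j : Fin M,
        ag k ((range (N * (i + 1))).image (fun x => 2 * x) ∪ bj N M j (t j)))) / (l : ℂ) ^ M := by
    unfold xi2
    congr 1
    refine Finset.sum_congr rfl (fun t _ => ?_)
    refine (rho_drop hPD k M (by omega) (fun C hC => h1 C (by omega) (by omega)) _ _ ?_).symm
    intro j x hx
    unfold bj at hx
    rw [mem_image] at hx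
    obtain ⟨y, -, rfl⟩ := hx
    omega
  -- the product
  have e2 : ∀ t : Fin M → Fin l, ∏ j : Fin M, φ (ag k (range (N * (i + 1) + N * ((t j : ℕ) + 1)))) =
      ∏ j : Fin M, g ((t j : ℕ) + (i + 1)) := by
    intro t
    refine Finset.prod_congr rfl (fun j _ => ?_)
    simp only [hg]
    congr 3
    ring
  have e3 : ∑ t : Fin M → Fin l, ∏ j : Fin M, g ((t j : ℕ) + (i + 1)) =
      (∑ s ∈ range l, g (s + (i + 1))) ^ M := by
    have a1 := Fintype.sum_pow (fun s : Fin l => g ((s : ℕ) + (i + 1))) M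
    rw [← a1]
    congr 1
    exact Fin.sum_univ_eq_sum_range (fun s => g (s + (i + 1))) l
  set S : ℂ := (∑ s ∈ range l, g (s + (i + 1))) / l with hS
  have e4 : (∑ t : Fin M → Fin l, ∏ j : Fin M, φ (ag k (range (N * (i + 1) + N * ((t j : ℕ) + 1))))) /
      (l : ℂ) ^ M = S ^ M := by
    rw [Finset.sum_congr rfl (fun t _ => e2 t), e3, hS, div_pow]
  have hS1 : ‖S‖ ≤ 1 := by
    rw [hS, norm_div, Complex.norm_natCast, div_le_one hl0]
    calc ‖∑ s ∈ range l, g (s + (i + 1))‖ ≤ ∑ s ∈ range l, ‖g (s + (i + 1))‖ := norm_sum_le _ _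
      _ ≤ ∑ s ∈ range l, (1 : ℝ) := Finset.sum_le_sum (fun s _ => hg1 _)
      _ = l := by simp
  have hmm : mm k N l φ = (∑ s ∈ range l, g s) / l := rfl
  have hm1 : ‖mm k N l φ‖ ≤ 1 := by
    rw [hmm, norm_div, Complex.norm_natCast, div_le_one hl0]
    calc ‖∑ s ∈ range l, g s‖ ≤ ∑ s ∈ range l, ‖g s‖ := norm_sum_le _ _
      _ ≤ ∑ s ∈ range l, (1 : ℝ) := Finset.sum_le_sum (fun s _ => hg1 _)
      _ = l := by simp
  have hl₁ : ((i : ℝ) + 1) ≤ l₁ := by exact_mod_cast hi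
  -- second error
  have err2 : ‖S ^ M - (mm k N l φ) ^ M‖ ≤ 2 * M * l₁ / l := by
    refine (mf2_pow hS1 hm1 M).trans ?_
    have a1 : ‖S - mm k N l φ‖ ≤ 2 * l₁ / l := by
      rw [hmm, hS, ← sub_div, norm_div, Complex.norm_natCast]
      refine div_le_div_of_nonneg_right ?_ hl0.le
      refine (mf2_shift hg1 l (i + 1)).trans ?_
      push_cast
      linarith
    calc (M : ℝ) * ‖S - mm k N l φ‖ ≤ M * (2 * l₁ / l) :=
          mul_le_mul_of_nonneg_left a1 (Nat.cast_nonneg M)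
      _ = 2 * M * l₁ / l := by ring
  -- first error
  have err1 : ‖xi2 k N M l φ (ag (k - 1) (range (N * (i + 1)))) - S ^ M‖ ≤
      4 * M * Real.sqrt ((l₁ : ℝ) / l) := by
    rw [e1, ← e4, ← sub_div, ← Finset.sum_sub_distrib, norm_div, norm_pow, Complex.norm_natCast]
    have a1 : ‖∑ t : Fin M → Fin l, (φ (∑ j : Fin M,
        ag k ((range (N * (i + 1))).image (fun x => 2 * x) ∪ bj N M j (t j))) -
        ∏ j : Fin M, φ (ag k (range (N * (i + 1) + N * ((t j : ℕ) + 1)))))‖ ≤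
        ∑ t : Fin M → Fin l, ∑ j : Fin M, 2 * (Real.sqrt l₁ * (1 / Real.sqrt (((t j : ℕ) : ℝ) + 1))) := by
      refine (norm_sum_le _ _).trans (Finset.sum_le_sum (fun t _ => ?_))
      refine (mfold1 h k N M i hN (fun j => (t j : ℕ))).trans (Finset.sum_le_sum (fun j _ => ?_))
      refine mul_le_mul_of_nonneg_left ?_ (by norm_num)
      rw [Real.sqrt_div (by positivity), mul_one_div]
      exact div_le_div_of_nonneg_right (Real.sqrt_le_sqrt hl₁) (Real.sqrt_nonneg _)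
    rw [Finset.sum_comm] at a1
    have a2 : ∀ j : Fin M, ∑ t : Fin M → Fin l,
        2 * (Real.sqrt l₁ * (1 / Real.sqrt (((t j : ℕ) : ℝ) + 1))) ≤
        (l : ℝ) ^ (M - 1) * (4 * (Real.sqrt l₁ * Real.sqrt l)) := by
      intro j
      rw [mf2_marg M l (fun s => 2 * (Real.sqrt l₁ * (1 / Real.sqrt ((s : ℝ) + 1)))) j]
      refine mul_le_mul_of_nonneg_left ?_ (by positivity)
      rw [← Finset.mul_sum, ← Finset.mul_sum]
      have := mf2_sqrt l
      have b1 : 0 ≤ Real.sqrt l₁ := Real.sqrt_nonneg _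
      nlinarith
    have a3 := Finset.sum_le_card_nsmul univ _ _ (fun j _ => a2 j)
    rw [card_univ, Fintype.card_fin, nsmul_eq_mul] at a3
    have a4 := a1.trans a3
    calc _ ≤ (M : ℝ) * ((l : ℝ) ^ (M - 1) * (4 * (Real.sqrt l₁ * Real.sqrt l))) / (l : ℝ) ^ M :=
          div_le_div_of_nonneg_right a4 (by positivity)
      _ = 4 * M * Real.sqrt ((l₁ : ℝ) / l) := by
          obtain ⟨M', rfl⟩ : ∃ M', M = M' + 1 := ⟨M - 1, by omega⟩
          rw [Nat.add_sub_cancel, Real.sqrt_div (Nat.cast_nonneg l₁)]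
          have b2 : 0 < Real.sqrt (l : ℝ) := Real.sqrt_pos.2 hl0
          rw [pow_succ (l : ℝ) M']
          have b3 : Real.sqrt (l : ℝ) / l = 1 / Real.sqrt l := Real.sqrt_div_self'
          calc ((M' + 1 : ℕ) : ℝ) * ((l : ℝ) ^ M' * (4 * (Real.sqrt l₁ * Real.sqrt l))) /
                ((l : ℝ) ^ M' * l) = 4 * ((M' + 1 : ℕ) : ℝ) * (Real.sqrt l₁ * (Real.sqrt l / l)) := by
                field_simp
            _ = 4 * ((M' + 1 : ℕ) : ℝ) * (Real.sqrt l₁ / Real.sqrt l) := by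
                rw [b3, mul_one_div]
  calc _ = ‖(xi2 k N M l φ (ag (k - 1) (range (N * (i + 1)))) - S ^ M) +
        (S ^ M - (mm k N l φ) ^ M)‖ := by congr 1; ring
    _ ≤ _ := (norm_add_le _ _).trans (add_le_add err1 err2)

theorem mfold2 {φ : GG → ℂ} (h : DPD φ) (k N M : ℕ) (hk : 2 ≤ k) (hN : 1 ≤ N) (hM : 1 ≤ M)
    (h1 : ∀ C : Finset ℕ, 2 ≤ C.card → C.card ≤ k → φ ((M : ℤ) • Finsupp.single C 1) = 1)
    (l₁ : ℕ) (hl₁ : 1 ≤ l₁) (η : ℝ) (hη : 0 < η) : ∃ L : ℕ, ∀ l, L ≤ l →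
      ‖mm (k - 1) N l₁ (xi2 k N M l φ) - (mm k N l φ) ^ M‖ ≤ η := by
  have hlim : Tendsto (fun l : ℕ => 4 * M * Real.sqrt ((l₁ : ℝ) / l) + 2 * M * l₁ / l) atTop
      (nhds (4 * M * Real.sqrt 0 + 0)) := by
    refine Tendsto.add ?_ ?_
    · refine Tendsto.const_mul _ ?_
      exact (Real.continuous_sqrt.tendsto 0).comp (tendsto_const_div_atTop_nhds_zero_nat _)
    · exact tendsto_const_div_atTop_nhds_zero_nat _
  rw [Real.sqrt_zero, mul_zero, add_zero] at hlim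
  have hev := hlim.eventually (gt_mem_nhds hη)
  obtain ⟨L, hL⟩ := eventually_atTop.1 (hev.and (eventually_ge_atTop 1))
  refine ⟨L, fun l hl => ?_⟩
  obtain ⟨hlη, hl1⟩ := hL l hl
  have hl₁0 : (0 : ℝ) < l₁ := by exact_mod_cast hl₁
  have hl₁C : (l₁ : ℂ) ≠ 0 := by exact_mod_cast (by omega : l₁ ≠ 0)
  have e1 : mm (k - 1) N l₁ (xi2 k N M l φ) - (mm k N l φ) ^ M =
      (∑ i ∈ range l₁, (xi2 k N M l φ (ag (k - 1) (range (N * (i + 1)))) - (mm k N l φ) ^ M)) / l₁ := by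
    rw [Finset.sum_sub_distrib, sub_div]
    unfold mm
    congr 1
    rw [sum_const, card_range, nsmul_eq_mul]
    field_simp
  rw [e1, norm_div, Complex.norm_natCast, div_le_iff₀ hl₁0]
  calc _ ≤ ∑ i ∈ range l₁, ‖xi2 k N M l φ (ag (k - 1) (range (N * (i + 1)))) - (mm k N l φ) ^ M‖ :=
        norm_sum_le _ _
    _ ≤ ∑ i ∈ range l₁, η := Finset.sum_le_sum (fun i hi =>
        (mf2_core h k N M hk hN hM h1 l₁ l i (mem_range.1 hi) hl1).trans hlη.le)
    _ = η * l₁ := by rw [sum_const, card_range, nsmul_eq_mul, mul_comm]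

end Pool.Agent.Lib.MP_90b327_co.RS
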