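import Mathlib
import Pool.Agent.Lib.MP_90b327_co.RS.RDef
import Pool.Agent.Lib.MP_90b327_co.RS.Mfold2
import Pool.Agent.Lib.MP_90b327_co.RS.XiA
import Pool.Agent.Lib.MP_90b327_co.RS.PdA

/-!
MODULE XiLim (50 minutes, old scale). The limit `ξ` (text 9, step 3).

PROOF. `𝒰` an ultrafilter on `ℕ` with `𝒰 ≤ atTop ⊓ 𝓟 {l | c ≤ ‖mm k N l φ‖}` (`Ultrafilter.of`, the filter is `NeBot` by `hf`). `xi2 k N M l φ a` is in the closed unit disc (`xi_epd`, `pd_norm`, `l ≥ 1`), compact, so the limit `ξ a` along `𝒰` exists (`IsCompact.ultrafilter_le_nhds`). All identities and inequalities of `EPD` pass to the limit.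
`mm (k-1) N l₁ ξ` is the limit of `mm (k-1) N l₁ (xi2 .. l ..)`, whose norm is `≥ c^M - η` for `𝒰`-almost all `l` (`mfold2`), for every `η`; so it is `≥ c^M`. Values at single vertices: `xi_single` (constant in `l ≥ 1`).
-/

set_option autoImplicit false

namespace Pool.Agent.Lib.MP_90b327_co.RS

open Finset MeasureTheory Filter Pool.Agent.Lib.MP_90b327_co Pool.Agent.Lib.MP_90b327_co.RB
  Pool.Agent.Lib.MP_90b327_co.WW

theorem xi_lim {φ : GG → ℂ} (h : DPD φ) (k N M : ℕ) (hk : 2 ≤ k) (hN : 1 ≤ N) (hM : 1 ≤ M)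
    (h1 : ∀ C : Finset ℕ, 2 ≤ C.card → C.card ≤ k → φ ((M : ℤ) • Finsupp.single C 1) = 1)
    (c : ℝ) (hc : 0 < c) (hf : ∃ᶠ l in atTop, c ≤ ‖mm k N l φ‖) :
    ∃ ξ : GG → ℂ, EPD ξ ∧ (∀ l, 1 ≤ l → c ^ M ≤ ‖mm (k - 1) N l ξ‖) ∧
      ∀ (M' : ℕ), M ∣ M' → ∀ (ι : Type) [Fintype ι] (n : ι → ℤ) (e : ι → ℕ),
        ξ (∑ t, n t • ((M' : ℤ) • Finsupp.single {e t} 1)) =
          φ (∑ t, n t • (((M' * M : ℕ) : ℤ) • Finsupp.single {2 * e t} 1)) := by
  classical
  have hne : (atTop ⊓ 𝓟 {l : ℕ | c ≤ ‖mm k N l φ‖}).NeBot := frequently_iff_neBot.1 hf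
  obtain ⟨U, hU⟩ : ∃ U : Ultrafilter ℕ, (U : Filter ℕ) ≤ atTop ⊓ 𝓟 {l : ℕ | c ≤ ‖mm k N l φ‖} :=
    ⟨Ultrafilter.of _, Ultrafilter.of_le _⟩
  have hU1 : (U : Filter ℕ) ≤ atTop := hU.trans inf_le_left
  have hU2 : ∀ᶠ l in (U : Filter ℕ), c ≤ ‖mm k N l φ‖ := by
    have h2 : (U : Filter ℕ) ≤ 𝓟 {l : ℕ | c ≤ ‖mm k N l φ‖} := hU.trans inf_le_right
    exact le_principal_iff.1 h2
  have hev : ∀ n : ℕ, ∀ᶠ l in (U : Filter ℕ), n ≤ l := fun n => hU1 (eventually_ge_atTop n)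
  have hepd : ∀ l, 1 ≤ l → EPD (xi2 k N M l φ) := fun l hl => xi_epd h.toEPD k N M l hl
  have hlim : ∀ a : GG, ∃ z : ℂ, Tendsto (fun l => xi2 k N M l φ a) (U : Filter ℕ) (nhds z) := by
    intro a
    obtain ⟨z, -, hz⟩ := (isCompact_closedBall (0 : ℂ) 1).ultrafilter_le_nhds
      (U.map (fun l => xi2 k N M l φ a)) (by
        rw [le_principal_iff]
        change ∀ᶠ l in (U : Filter ℕ), xi2 k N M l φ a ∈ Metric.closedBall (0 : ℂ) 1
        filter_upwards [hev 1] with l hl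
        rw [mem_closedBall_zero_iff]
        exact pd_norm (hepd l hl).toPD a)
    exact ⟨z, hz⟩
  choose ξ hξ using hlim
  have hE : EPD ξ := by
    refine { zero := ?_, neg := ?_, psd := ?_, inv := ?_ }
    · refine tendsto_nhds_unique (hξ 0) (Tendsto.congr' ?_ tendsto_const_nhds)
      filter_upwards [hev 1] with l hl
      exact (hepd l hl).zero.symm
    · intro a
      refine tendsto_nhds_unique (hξ (-a)) (Tendsto.congr' ?_
        ((Complex.continuous_conj.tendsto _).comp (hξ a)))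
      filter_upwards [hev 1] with l hl
      exact ((hepd l hl).neg a).symm
    · intro ι _ x d
      have h3 : Tendsto (fun l => (∑ i, ∑ j, (starRingEnd ℂ) (d i) * d j *
          xi2 k N M l φ (x j - x i)).re) (U : Filter ℕ)
          (nhds (∑ i, ∑ j, (starRingEnd ℂ) (d i) * d j * ξ (x j - x i)).re) := by
        refine (Complex.continuous_re.tendsto _).comp ?_
        refine tendsto_finsetSum _ fun i _ => tendsto_finsetSum _ fun j _ => ?_
        exact (hξ _).const_mul _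
      refine ge_of_tendsto h3 ?_
      filter_upwards [hev 1] with l hl
      exact (hepd l hl).psd ι x d
    · intro σ hσ a
      refine tendsto_nhds_unique (hξ (rel σ a)) (Tendsto.congr' ?_ (hξ a))
      filter_upwards [hev 1] with l hl
      exact ((hepd l hl).inv σ hσ a).symm
  refine ⟨ξ, hE, ?_, ?_⟩
  · intro l₁ hl₁
    have h4 : Tendsto (fun l => ‖mm (k - 1) N l₁ (xi2 k N M l φ)‖) (U : Filter ℕ)
        (nhds ‖mm (k - 1) N l₁ ξ‖) := by
      refine Tendsto.norm ?_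
      unfold mm
      exact (tendsto_finsetSum _ fun i _ => hξ _).div_const _
    refine le_of_forall_pos_le_add fun η hη => ?_
    obtain ⟨L, hL⟩ := mfold2 h k N M hk hN hM h1 l₁ hl₁ η hη
    rw [← sub_le_iff_le_add]
    refine ge_of_tendsto h4 ?_
    filter_upwards [hev L, hU2] with l hl hcl
    have h5 := hL l hl
    have h6 : ‖(mm k N l φ) ^ M‖ ≤ ‖mm (k - 1) N l₁ (xi2 k N M l φ)‖ +
        ‖mm (k - 1) N l₁ (xi2 k N M l φ) - (mm k N l φ) ^ M‖ :=
      norm_le_norm_add_norm_sub _ _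
    have h7 : c ^ M ≤ ‖(mm k N l φ) ^ M‖ := by
      rw [norm_pow]
      exact pow_le_pow_left₀ hc.le hcl M
    linarith
  · intro M' hMM ι _ n e
    refine tendsto_nhds_unique (hξ _) (Tendsto.congr' ?_ tendsto_const_nhds)
    filter_upwards [hev 1] with l hl
    exact (xi_single h.toPD k N M l hk hl h1 M' hMM ι n e).symm

end Pool.Agent.Lib.MP_90b327_co.RS
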