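import Mathlib
import Pool.Agent.Lib.MP_90b327_co.RS.RDef
import Pool.Agent.Lib.MP_90b327_co.RS.XiLim
import Pool.Agent.Lib.MP_90b327_co.RS.MmYy
import Pool.Agent.Lib.MP_90b327_co.RS.AjC

/-!
MODULE S3 (40 minutes, old scale). Step 3: coordinates with one element (text 9).

PROOF. `c ≤ 1` or there is nothing to prove.. (`‖mm‖ ≤ 1`). `T2 (k-1)` for `N` and `c' = (c^M)^2` gives `M₅`. For `φ` as in the statement: `xi_lim`, `mm_yy`: `c' ≤ YY (k-1) N l ξ` for all `l ≥ 1`. `M' = M * M₅`. For `r` and `e t = t` (`t : Fin r`): `c'/2 ≤ (AJ J ξ (fun t => M' • 1_{t})).re = (AJ J φ (fun t => (M' M) • 1_{2t})).re` (definition of `AJ`, `AF`, third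
property of `ξ`). The sets `{2 t}` are pairwise disjoint: `dpd_one` with `C = {v}`, `m = M' M`. So the constant `M * M₅ * M` works for `|C| = 1`.
-/

set_option autoImplicit false

namespace Pool.Agent.Lib.MP_90b327_co.RS

open Finset MeasureTheory Filter Pool.Agent.Lib.MP_90b327_co Pool.Agent.Lib.MP_90b327_co.RB
  Pool.Agent.Lib.MP_90b327_co.WW

theorem s3 (k : ℕ) (hk : 2 ≤ k) (h : T2 (k - 1)) (N : ℕ) (hN : 1 ≤ N) (c : ℝ) (hc : 0 < c)
    (M : ℕ) (hM : 1 ≤ M) : ∃ M₆ : ℕ, 1 ≤ M₆ ∧ ∀ φ : GG → ℂ, DPD φ →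
      (∃ᶠ l in atTop, c ≤ ‖mm k N l φ‖) →
      (∀ C : Finset ℕ, 2 ≤ C.card → C.card ≤ k → φ ((M : ℤ) • Finsupp.single C 1) = 1) →
      ∀ v : ℕ, φ ((M₆ : ℤ) • Finsupp.single {v} 1) = 1 := by
  have hc' : 0 < (c ^ M) ^ 2 := by positivity
  obtain ⟨M₅, hM5, hT⟩ := h N ((c ^ M) ^ 2) hN hc'
  have hM' : 1 ≤ M * M₅ := Nat.one_le_iff_ne_zero.2 (Nat.mul_ne_zero (by omega) (by omega))
  refine ⟨M * M₅ * M, Nat.one_le_iff_ne_zero.2 (Nat.mul_ne_zero (by omega) (by omega)), ?_⟩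
  intro φ hφ hf h1 v
  obtain ⟨ξ, hξ, hm, hv⟩ := xi_lim hφ k N M hk hN hM h1 c hc hf
  have hfr : ∃ᶠ l in atTop, (c ^ M) ^ 2 ≤ YY (k - 1) N l ξ := by
    refine Filter.Eventually.frequently ?_
    filter_upwards [eventually_ge_atTop 1] with l hl
    refine le_trans ?_ (mm_yy hξ (k - 1) N l hl)
    exact pow_le_pow_left₀ (by positivity) (hm l hl) 2
  refine dpd_one hφ {v} ((M * M₅ * M : ℕ) : ℤ) ((c ^ M) ^ 2 / 2) (by positivity) fun r => ?_
  refine ⟨fun t => {2 * (t : ℕ)}, ?_, ?_, ?_⟩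
  · intro s t hst
    rw [Finset.disjoint_singleton]
    intro he
    apply hst
    apply Fin.ext
    omega
  · intro t
    simp
  · intro J hJ
    have h2 := hT ξ hξ hfr (M * M₅) hM' (Dvd.intro_left M rfl) (Fin r) (fun t => {(t : ℕ)})
      (fun t => ⟨Finset.singleton_nonempty _, by simp only [Finset.card_singleton]; omega⟩) J hJ
    have e : AJ J ξ (fun t : Fin r => ((M * M₅ : ℕ) : ℤ) • Finsupp.single ({(t : ℕ)} : Finset ℕ) 1) =
        AJ J φ (fun t : Fin r => ((M * M₅ * M : ℕ) : ℤ) • Finsupp.single ({2 * (t : ℕ)} : Finset ℕ) 1) := by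
      unfold AJ
      congr 1
      funext j
      exact hv (M * M₅) (Dvd.intro M₅ rfl) (Fin r) j (fun t => (t : ℕ))
    rw [e] at h2
    exact h2

end Pool.Agent.Lib.MP_90b327_co.RS
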