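import Mathlib
import Pool.Agent.Lib.MP_90b327_co.RS.RDef
import Pool.Agent.Lib.MP_90b327_co.RS.PdA
import Pool.Agent.Lib.MP_90b327_co.RS.ZtRel
import Pool.Agent.Lib.MP_90b327_co.RB.RepC

/-!
MODULE DecE (75 minutes, old scale). Decomposition into dissociated functions (text 8.3).

PROOF. `rep` with `𝒳 = GG`, `m X A = rel (2 ·) X + rel (2 · + 1) A`, `R X Y X' Y' := (∃ c, X' = X + c ∧ Y' = Y + c) ∨ (∃ σ injective, X' = rel σ X ∧ Y' = rel σ Y)`. `Mrg m R`: `rel`: (i) `m (X + c) A = m X A + rel (2 ·) c`; (ii) `m (rel σ X) A = rel σ' (m X A)`, `σ' (2 i) = 2 σ i`, `σ' (2 i + 1) = 2 i + 1`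
(`rel` of a composition: `Finsupp.mapDomain_comp`, `Finset.image_image`). `left`: translate by `- rel (2 · + 1) A`, then `rel (2 ·)` is an alternative (ii) step. `right` likewise. Kernel `k X Y = φ (Y - X)`. `th ω` is translation invariant and invariant under injections: `φ_ω a := th ω 0 a`; then `th ω X Y = φ_ω (Y - X)`.
`DPD φ_ω`: `zero`, `neg`, `psd`, `inv` clear. `mul`: multiplicativity gives `φ_ω (rel (2 ·) a + rel (2 · + 1) b) = φ_ω a * φ_ω b`. For `Sup a U`, `Sup b V`, `U`, `V` disjoint: let `σ` be injective with `σ x = 2 x` on `U` and `σ x = 2 x + 1` on `V` (e.g. `2 x + 1` outside `U`): `rel σ (a + b) = rel (2 ·) a + rel (2 · + 1) b`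
(`Finsupp.mapDomain_congr` on the supports; the coordinate `∅` is fixed by everything). So `φ_ω (a + b) = φ_ω a * φ_ω b`.
-/

set_option autoImplicit false

namespace Pool.Agent.Lib.MP_90b327_co.RS

open Finset MeasureTheory Filter Pool.Agent.Lib.MP_90b327_co Pool.Agent.Lib.MP_90b327_co.RB
  Pool.Agent.Lib.MP_90b327_co.WW

/-- merging: even vertices, odd vertices -/
private noncomputable def mg (X A : GG) : GG :=
  rel (fun i => 2 * i) X + rel (fun i => 2 * i + 1) A

/-- translations and injections -/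
private def RG (X Y X' Y' : GG) : Prop :=
  (∃ c : GG, X' = X + c ∧ Y' = Y + c) ∨
  (∃ σ : ℕ → ℕ, Function.Injective σ ∧ X' = rel σ X ∧ Y' = rel σ Y)

private theorem inj_e : Function.Injective (fun i : ℕ => 2 * i) := fun a b h => by
  have : 2 * a = 2 * b := h
  omega

private theorem inj_o : Function.Injective (fun i : ℕ => 2 * i + 1) := fun a b h => by
  have : 2 * a + 1 = 2 * b + 1 := h
  omega

private theorem rel_comp (σ τ : ℕ → ℕ) (a : GG) : rel σ (rel τ a) = rel (σ ∘ τ) a := by
  unfold rel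
  rw [← Finsupp.mapDomain_comp]
  congr 1
  funext C
  simp only [Function.comp_apply, Finset.image_image]

private theorem rel_zero (σ : ℕ → ℕ) : rel σ 0 = 0 := by
  unfold rel
  exact Finsupp.mapDomain_zero

private theorem rel_sub' (σ : ℕ → ℕ) (a b : GG) : rel σ (a - b) = rel σ a - rel σ b := by
  have h := rel_add σ (a - b) b
  rw [sub_add_cancel] at h
  rw [h, add_sub_cancel_right]

private theorem rel_congr {σ τ : ℕ → ℕ} {a : GG} {U : Finset ℕ} (h : Sup a U)
    (h1 : ∀ x ∈ U, σ x = τ x) : rel σ a = rel τ a := by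
  unfold rel
  refine Finsupp.mapDomain_congr (fun C hC => ?_)
  exact Finset.image_congr (fun x hx => h1 x (h C hC hx))

/-- `2 i ↦ 2 σ i`, odd numbers fixed -/
private def ex0 (σ : ℕ → ℕ) (x : ℕ) : ℕ := if x % 2 = 0 then 2 * σ (x / 2) else x

private theorem ex0_inj {σ : ℕ → ℕ} (hσ : Function.Injective σ) : Function.Injective (ex0 σ) := by
  intro a b h
  unfold ex0 at h
  split_ifs at h with h1 h2 h2
  · have h3 : σ (a / 2) = σ (b / 2) := by omega
    have h4 := hσ h3
    omega
  · omega
  · omega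
  · exact h

/-- merging of a relabelled element -/
private theorem mg_rel {σ : ℕ → ℕ} (X A : GG) :
    mg (rel σ X) A = rel (ex0 σ) (mg X A) := by
  unfold mg
  rw [rel_add, rel_comp, rel_comp, rel_comp]
  congr 1
  · congr 1
    funext i
    simp only [Function.comp_apply, ex0]
    rw [if_pos (by omega)]
    congr 2
    omega
  · congr 1
    funext i
    simp only [Function.comp_apply, ex0]
    rw [if_neg (by omega)]

private theorem mrg_GG : Mrg mg RG where
  rel := by
    rintro X Y X' Y' A B (⟨c, rfl, rfl⟩ | ⟨σ, hσ, rfl, rfl⟩)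
    · left
      refine ⟨rel (fun i => 2 * i) c, ?_, ?_⟩
      · unfold mg
        rw [rel_add]
        abel
      · unfold mg
        rw [rel_add]
        abel
    · right
      exact ⟨ex0 σ, ex0_inj hσ, mg_rel X A, mg_rel Y B⟩
  left := by
    intro k hk X Y A
    have h1 : k (rel (fun i => 2 * i) X) (rel (fun i => 2 * i) Y) = k (mg X A) (mg Y A) :=
      hk _ _ _ _ (Or.inl ⟨rel (fun i => 2 * i + 1) A, rfl, rfl⟩)
    have h2 : k X Y = k (rel (fun i => 2 * i) X) (rel (fun i => 2 * i) Y) :=
      hk _ _ _ _ (Or.inr ⟨_, inj_e, rfl, rfl⟩)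
    rw [← h1, ← h2]
  right := by
    intro k hk X A B
    have h1 : k (rel (fun i => 2 * i + 1) A) (rel (fun i => 2 * i + 1) B) = k (mg X A) (mg X B) := by
      refine hk _ _ _ _ (Or.inl ⟨rel (fun i => 2 * i) X, ?_, ?_⟩)
      · unfold mg
        rw [add_comm]
      · unfold mg
        rw [add_comm]
    have h2 : k A B = k (rel (fun i => 2 * i + 1) A) (rel (fun i => 2 * i + 1) B) :=
      hk _ _ _ _ (Or.inr ⟨_, inj_o, rfl, rfl⟩)
    rw [← h1, ← h2]

private theorem ker_GG {φ : GG → ℂ} (h : EPD φ) : Ker RG (fun X Y => φ (Y - X)) where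
  one X := by
    change φ (X - X) = 1
    rw [sub_self]
    exact h.zero
  herm X Y := by
    change φ (X - Y) = (starRingEnd ℂ) (φ (Y - X))
    rw [← h.neg, neg_sub]
  psd := fun ι _ X c => h.psd ι X c
  rel := by
    rintro X Y X' Y' (⟨c, rfl, rfl⟩ | ⟨σ, hσ, rfl, rfl⟩)
    · change φ (Y - X) = φ (Y + c - (X + c))
      rw [add_sub_add_right_eq_sub]
    · change φ (Y - X) = φ (rel σ Y - rel σ X)
      rw [← rel_sub', h.inv σ hσ]

private theorem dpd_th {φ : GG → ℂ} (r : Repr mg RG (fun X Y => φ (Y - X))) (ω : r.Ω) :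
    DPD (fun a => r.th ω 0 a) := by
  have hker := r.ker ω
  have tr : ∀ X Y : GG, r.th ω 0 (Y - X) = r.th ω X Y := fun X Y =>
    hker.rel _ _ _ _ (Or.inl ⟨X, by rw [zero_add], by rw [sub_add_cancel]⟩)
  have hinv : ∀ σ : ℕ → ℕ, Function.Injective σ → ∀ a, r.th ω 0 (rel σ a) = r.th ω 0 a := by
    intro σ hσ a
    refine (hker.rel 0 a 0 (rel σ a) (Or.inr ⟨σ, hσ, ?_, rfl⟩)).symm
    rw [rel_zero]
  exact {
    zero := hker.one 0
    neg := fun a => by
      change r.th ω 0 (-a) = (starRingEnd ℂ) (r.th ω 0 a)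
      have h1 := tr a 0
      rw [zero_sub] at h1
      rw [h1, hker.herm 0 a]
    psd := fun ι _ x c => by
      have h1 := hker.psd ι x c
      have h2 : (∑ i, ∑ j, (starRingEnd ℂ) (c i) * c j * r.th ω 0 (x j - x i)) =
          ∑ i, ∑ j, (starRingEnd ℂ) (c i) * c j * r.th ω (x i) (x j) := by
        refine Finset.sum_congr rfl (fun i _ => Finset.sum_congr rfl (fun j _ => ?_))
        rw [tr]
      change 0 ≤ (∑ i, ∑ j, (starRingEnd ℂ) (c i) * c j * r.th ω 0 (x j - x i)).re
      rw [h2]
      exact h1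
    inv := hinv
    mul := by
      intro a b U V hU hV hUV
      change r.th ω 0 (a + b) = r.th ω 0 a * r.th ω 0 b
      classical
      set σ : ℕ → ℕ := fun x => if x ∈ U then 2 * x else 2 * x + 1 with hσ
      have hσi : Function.Injective σ := by
        intro x y hxy
        simp only [hσ] at hxy
        split_ifs at hxy <;> omega
      have h1 : rel σ (a + b) = mg a b := by
        unfold mg
        rw [rel_add]
        congr 1
        · refine rel_congr hU (fun x hx => ?_)
          simp only [hσ]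
          rw [if_pos hx]
        · refine rel_congr hV (fun x hx => ?_)
          simp only [hσ]
          rw [if_neg (Finset.disjoint_right.1 hUV hx)]
      have h2 : mg 0 0 = 0 := by
        unfold mg
        rw [rel_zero, rel_zero, add_zero]
      have h3 := r.mul ω 0 a 0 b
      rw [h2, ← h1, hinv σ hσi] at h3
      exact h3 }

theorem dec_ex {φ : GG → ℂ} (h : EPD φ) : Nonempty (Dec φ) := by
  obtain ⟨r⟩ := rep mrg_GG (fun X Y => φ (Y - X)) (ker_GG h)
  exact ⟨{
    Ω := r.Ω
    mΩ := r.mΩ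
    P := r.P
    prob := r.prob
    th := fun ω a => r.th ω 0 a
    dpd := dpd_th r
    meas := fun a => r.meas 0 a
    mean := fun a => by
      have h1 := r.mean 0 a
      simp only [sub_zero] at h1
      exact h1 }⟩

end Pool.Agent.Lib.MP_90b327_co.RS
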