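import Mathlib
import Pool.Agent.Lib.MP_90b327_co.RS.RDef
import Pool.Agent.Lib.MP_90b327_co.RS.ExcA
import Pool.Agent.Lib.MP_90b327_co.RS.AjA

/-!
MODULE YyDec (35 minutes, old scale). `Y` of a mixture (text 8.4).

PROOF. `evn n`, `odn m` are disjoint, `Sup (ag k (evn n)) (evn n)`: `th (ag (evn n) - ag (odn m)) = th (ag (evn n)) * th (- ag (odn m)) = th (ag k (range n)) * conj (th (ag k (range m)))` (`mul`, `neg`, `exc_one`; `evn_card`). So `∑ i j` is `(∑_i x_i) conj (∑_j x_j)` with real part `‖∑ x_i‖²`; integrate (`mean`, finite sums, real parts).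
-/

set_option autoImplicit false

namespace Pool.Agent.Lib.MP_90b327_co.RS

open Finset MeasureTheory Filter Pool.Agent.Lib.MP_90b327_co Pool.Agent.Lib.MP_90b327_co.RB
  Pool.Agent.Lib.MP_90b327_co.WW

private theorem yd_evn (n : ℕ) : (evn n).card = (range n).card := by
  unfold evn
  exact card_image_of_injective _ fun a b h => by
    have : 2 * a = 2 * b := h
    omega

private theorem yd_odn (n : ℕ) : (odn n).card = (range n).card := by
  unfold odn
  exact card_image_of_injective _ fun a b h => by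
    have : 2 * a + 1 = 2 * b + 1 := h
    omega

private theorem yd_disj (n m : ℕ) : Disjoint (evn n) (odn m) := by
  rw [Finset.disjoint_left]
  intro a ha hb
  unfold evn at ha
  unfold odn at hb
  rw [Finset.mem_image] at ha hb
  obtain ⟨x, _, hx⟩ := ha
  obtain ⟨y, _, hy⟩ := hb
  omega

private theorem yd_neg {a : GG} {V : Finset ℕ} (h : Sup a V) : Sup (-a) V := by
  intro C hC
  rw [Finsupp.support_neg] at hC
  exact h C hC

theorem yy_dec {φ : GG → ℂ} (d : Dec φ) (k N l : ℕ) :
    YY k N l φ = ∫ ω, ‖mm k N l (d.th ω)‖ ^ 2 ∂d.P := by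
  have hx : ∀ ω (n m : ℕ), d.th ω (ag k (evn n) - ag k (odn m)) =
      d.th ω (ag k (range n)) * (starRingEnd ℂ) (d.th ω (ag k (range m))) := by
    intro ω n m
    have hd := d.dpd ω
    rw [sub_eq_add_neg, hd.mul _ _ (evn n) (odn m) (ag_sup k _) (yd_neg (ag_sup k _)) (yd_disj n m),
      hd.neg, exc_one hd.toEPD k (evn n) (range n) (yd_evn n),
      exc_one hd.toEPD k (odn m) (range m) (yd_odn m)]
  have hint : ∀ a, Integrable (fun ω => d.th ω a) d.P := by
    intro a
    refine Integrable.of_bound (d.meas a).aestronglyMeasurable 1 (Eventually.of_forall fun ω => ?_)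
    exact pd_norm (d.dpd ω).toEPD.toPD a
  have hre : ∀ a, (φ a).re = ∫ ω, (d.th ω a).re ∂d.P := by
    intro a
    rw [d.mean a]
    exact (integral_re (hint a)).symm
  have hinr : ∀ a, Integrable (fun ω => (d.th ω a).re) d.P := fun a => (hint a).re
  have h1 : ∀ ω, ‖mm k N l (d.th ω)‖ ^ 2 = (∑ i ∈ range l, ∑ j ∈ range l,
      (d.th ω (ag k (evn (N * (i + 1))) - ag k (odn (N * (j + 1))))).re) / (l : ℝ) ^ 2 := by
    intro ω
    unfold mm
    rw [norm_div, div_pow, Complex.norm_natCast]
    congr 1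
    rw [← Complex.normSq_eq_norm_sq, ← Complex.ofReal_re (Complex.normSq _), ← Complex.mul_conj,
      map_sum, Finset.sum_mul_sum, Complex.re_sum]
    refine sum_congr rfl fun i _ => ?_
    rw [Complex.re_sum]
    refine sum_congr rfl fun j _ => ?_
    rw [hx]
  simp_rw [h1]
  unfold YY
  rw [integral_div, integral_finsetSum _ fun i _ => integrable_finsetSum _ fun j _ => hinr _]
  congr 1
  refine sum_congr rfl fun i _ => ?_
  rw [integral_finsetSum _ fun j _ => hinr _]
  exact sum_congr rfl fun j _ => hre _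

theorem mm_meas {φ : GG → ℂ} (d : Dec φ) (k N l : ℕ) :
    Measurable (fun ω => ‖mm k N l (d.th ω)‖ ^ 2) := by
  unfold mm
  exact ((Finset.measurable_sum _ fun i _ => d.meas _).div_const _).norm.pow_const _

end Pool.Agent.Lib.MP_90b327_co.RS
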