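import Mathlib
import Pool.Agent.Lib.MP_90b327_co.RS.RDef
import Pool.Agent.Lib.MP_90b327_co.RS.DecE
import Pool.Agent.Lib.MP_90b327_co.RS.YyDec
import Pool.Agent.Lib.MP_90b327_co.RS.AjA
import Pool.Agent.Lib.MP_90b327_co.RS.PdA

/-!
MODULE T1T2 (60 minutes, old scale). `T(k)` implies `T(k)` (text 9).

PROOF. `M` of `T1 k` for `N` and `c₁ = sqrt (c/2)`. Let `φ` be as in `T2`, `d : Dec φ`, `G = {ω | ∃ᶠ l, c/2 ≤ ‖mm k N l (th ω)‖²}` (measurable, `MeasurableSet` of a limsup: `⋂ n, ⋃ l ≥ n`). `P.real G ≥ c/2`: `c ≤ YY = ∫ ‖mm‖² ≤ P(G) + c/2 + ∫_{Gᶜ} (‖mm‖² - c/2)⁺` for infinitely many `l`, and the last integral tends to zero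
(dominated convergence: on `Gᶜ` the integrand is eventually zero; bounded by `1` as `‖mm‖ ≤ 1` by `pd_norm`). For `ω ∈ G`, `T1` gives `th ω (M • 1_C) = 1` for all allowed `C`, so `th ω (∑ t, j t • M' • 1_(C t)) = 1` (`pd_add_one` / `pd_zsmul`, `M ∣ M'`) and `AJ J (th ω) .. = 1`; for the other `ω` its real part is `≥ 0` (`aj_nonneg`).
`AJ J φ = ∫ AJ J (th ω)` (`af_int`): real part `≥ P.real G ≥ c/2`.
-/

set_option autoImplicit false

namespace Pool.Agent.Lib.MP_90b327_co.RS

open Finset MeasureTheory Filter Pool.Agent.Lib.MP_90b327_co Pool.Agent.Lib.MP_90b327_co.RB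
  Pool.Agent.Lib.MP_90b327_co.WW

private theorem tt_mm_le {φ : GG → ℂ} (h : PD φ) (k N l : ℕ) : ‖mm k N l φ‖ ≤ 1 := by
  unfold mm
  rcases Nat.eq_zero_or_pos l with hl | hl
  · subst hl
    simp
  · rw [norm_div, Complex.norm_natCast, div_le_one (by exact_mod_cast hl)]
    refine (norm_sum_le _ _).trans ?_
    calc ∑ i ∈ range l, ‖φ (ag k (range (N * (i + 1))))‖ ≤ ∑ _i ∈ range l, (1 : ℝ) :=
          Finset.sum_le_sum fun i _ => pd_norm h _
      _ = l := by simp

private theorem tt_sum_one {φ : GG → ℂ} (h : PD φ) {ι : Type} [Fintype ι] (b : ι → GG) (hb : ∀ t, φ (b t) = 1)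
    (n : ι → ℤ) (s : Finset ι) : φ (∑ t ∈ s, n t • b t) = 1 := by
  classical
  induction s using Finset.induction_on with
  | empty => simp [h.zero]
  | insert t s ht ih => rw [Finset.sum_insert ht, add_comm, pd_add_one h (b t) _ (hb t), ih]

private theorem tt_af_one {ι : Type} [Fintype ι] (J : ℕ) (hJ : 1 ≤ J) (f : (ι → ℤ) → ℂ) (hf : ∀ j, f j = 1) :
    AF J f = 1 := by
  unfold AF
  simp only [hf, Finset.sum_const, Finset.card_univ, Fintype.card_fun, Fintype.card_fin, nsmul_eq_mul, mul_one]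
  have hJ0 : (J : ℂ) ≠ 0 := by exact_mod_cast (by omega : J ≠ 0)
  rw [div_eq_one_iff_eq (pow_ne_zero _ hJ0)]
  push_cast
  rw [two_mul, pow_add]

private theorem tt_prob {Ω : Type} [MeasurableSpace Ω] (P : Measure Ω) [IsProbabilityMeasure P] (f : ℕ → Ω → ℝ)
    (hm : ∀ l, Measurable (f l)) (h0 : ∀ l ω, 0 ≤ f l ω) (h1 : ∀ l ω, f l ω ≤ 1) (c : ℝ) (hc : 0 < c)
    (hf : ∃ᶠ l in atTop, c ≤ ∫ ω, f l ω ∂P) (G : Set Ω) (hGm : MeasurableSet G)
    (hG : ∀ ω, ω ∉ G → ∀ᶠ l in atTop, f l ω < c / 2) : c / 2 ≤ P.real G := by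
  classical
  set g : ℕ → Ω → ℝ := fun l => Gᶜ.indicator (fun ω => max (f l ω - c / 2) 0) with hg
  have hgm : ∀ l, Measurable (g l) := fun l => (((hm l).sub_const _).max measurable_const).indicator hGm.compl
  have hg0 : ∀ l ω, 0 ≤ g l ω := by
    intro l ω
    exact Set.indicator_nonneg (fun _ _ => le_max_right _ _) ω
  have hg1 : ∀ l ω, g l ω ≤ 1 := by
    intro l ω
    by_cases hω : ω ∈ Gᶜ
    · simp only [hg, Set.indicator_of_mem hω]
      exact max_le (by linarith [h1 l ω]) zero_le_one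
    · simp only [hg, Set.indicator_of_notMem hω]
      exact zero_le_one
  have hlim : Tendsto (fun l => ∫ ω, g l ω ∂P) atTop (nhds (∫ _ω, (0 : ℝ) ∂P)) := by
    refine tendsto_integral_of_dominated_convergence (fun _ => (1 : ℝ)) (fun l => (hgm l).aestronglyMeasurable)
      (integrable_const _) (fun l => Eventually.of_forall fun ω => ?_) (Eventually.of_forall fun ω => ?_)
    · rw [Real.norm_of_nonneg (hg0 l ω)]
      exact hg1 l ω
    · by_cases hω : ω ∈ G
      · refine tendsto_const_nhds.congr fun l => ?_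
        have : ω ∉ Gᶜ := fun h => h hω
        simp only [hg, Set.indicator_of_notMem this]
      · refine tendsto_const_nhds.congr' ?_
        filter_upwards [hG ω hω] with l hl
        have : ω ∈ Gᶜ := hω
        simp only [hg, Set.indicator_of_mem this]
        rw [max_eq_right (by linarith)]
  rw [integral_zero] at hlim
  by_contra hcon
  push Not at hcon
  have hev : ∀ᶠ l in atTop, ∫ ω, g l ω ∂P < c / 2 - P.real G :=
    hlim.eventually (gt_mem_nhds (by linarith))
  have hev2 : ∀ᶠ l in atTop, ¬ (c ≤ ∫ ω, f l ω ∂P) := by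
    filter_upwards [hev] with l hl
    push Not
    have hle : ∀ ω, f l ω ≤ G.indicator (fun _ => (1 : ℝ)) ω + (c / 2 + g l ω) := by
      intro ω
      by_cases hω : ω ∈ G
      · rw [Set.indicator_of_mem hω]
        linarith [h1 l ω, hg0 l ω]
      · have hω' : ω ∈ Gᶜ := hω
        rw [Set.indicator_of_notMem hω]
        simp only [hg, Set.indicator_of_mem hω']
        linarith [le_max_left (f l ω - c / 2) 0]
    have hif : Integrable (f l) P := by
      refine Integrable.of_bound (hm l).aestronglyMeasurable 1 (Eventually.of_forall fun ω => ?_)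
      rw [Real.norm_of_nonneg (h0 l ω)]
      exact h1 l ω
    have hig : Integrable (g l) P := by
      refine Integrable.of_bound (hgm l).aestronglyMeasurable 1 (Eventually.of_forall fun ω => ?_)
      rw [Real.norm_of_nonneg (hg0 l ω)]
      exact hg1 l ω
    have hiG : Integrable (G.indicator (fun _ => (1 : ℝ))) P := (integrable_const _).indicator hGm
    have hcg : Integrable (fun ω => c / 2 + g l ω) P := (integrable_const _).add hig
    have hI1 : ∫ ω, G.indicator (fun _ => (1 : ℝ)) ω ∂P = P.real G := integral_indicator_one hGm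
    calc ∫ ω, f l ω ∂P ≤ ∫ ω, (G.indicator (fun _ => (1 : ℝ)) ω + (c / 2 + g l ω)) ∂P :=
          integral_mono hif (hiG.add hcg) hle
      _ = P.real G + (c / 2 + ∫ ω, g l ω ∂P) := by
          rw [integral_add hiG hcg, integral_add (integrable_const _) hig, hI1, integral_const]
          simp
      _ < c := by linarith
  exact (hf.and_eventually hev2).exists.elim fun l hl => hl.2 hl.1

theorem t1_t2 (k : ℕ) (h : T1 k) : T2 k := by
  classical
  intro N c hN hc
  obtain ⟨M, hM, hM2⟩ := h N (Real.sqrt (c / 2)) hN (Real.sqrt_pos.2 (by linarith))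
  refine ⟨M, hM, ?_⟩
  intro φ hφ hfr M' hM' hdvd ι _ C hC J hJ
  obtain ⟨d⟩ := dec_ex hφ
  set f : ℕ → d.Ω → ℝ := fun l ω => ‖mm k N l (d.th ω)‖ ^ 2 with hf
  have hfm : ∀ l, Measurable (f l) := fun l => mm_meas d k N l
  have hf0 : ∀ l ω, 0 ≤ f l ω := fun l ω => sq_nonneg _
  have hf1 : ∀ l ω, f l ω ≤ 1 := fun l ω =>
    pow_le_one₀ (norm_nonneg _) (tt_mm_le (d.dpd ω).toPD k N l)
  set G : Set d.Ω := ⋂ n : ℕ, ⋃ l : ℕ, ⋃ _ : n ≤ l, {ω | c / 2 ≤ f l ω} with hG
  have hGm : MeasurableSet G :=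
    MeasurableSet.iInter fun n => MeasurableSet.iUnion fun l => MeasurableSet.iUnion fun _ =>
      measurableSet_le measurable_const (hfm l)
  have hGiff : ∀ ω, ω ∈ G ↔ ∃ᶠ l in atTop, c / 2 ≤ f l ω := by
    intro ω
    rw [Filter.frequently_atTop, hG, Set.mem_iInter]
    refine forall_congr' fun n => ?_
    simp only [Set.mem_iUnion, exists_prop]
    rfl
  have hPG : c / 2 ≤ d.P.real G := by
    refine tt_prob d.P f hfm hf0 hf1 c hc ?_ G hGm fun ω hω => ?_
    · refine hfr.mono fun l hl => ?_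
      rw [yy_dec d k N l] at hl
      exact hl
    · rw [hGiff, Filter.not_frequently] at hω
      filter_upwards [hω] with l hl
      exact not_le.1 hl
  set a : ι → GG := fun t => (M' : ℤ) • Finsupp.single (C t) 1 with ha
  have hmeas : Measurable fun ω => AJ J (d.th ω) a := by
    unfold AJ AF
    exact (Finset.measurable_sum _ fun p _ => Finset.measurable_sum _ fun q _ => d.meas _).div_const _
  have hint : AJ J φ a = ∫ ω, AJ J (d.th ω) a ∂d.P := by
    unfold AJ
    rw [← af_int d.P J (fun ω j => d.th ω (∑ t, j t • a t)) (fun j => d.meas _)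
      (fun ω j => pd_norm (d.dpd ω).toPD _)]
    congr 1
    funext j
    exact d.mean _
  have hnorm : ∀ ω, ‖AJ J (d.th ω) a‖ ≤ 1 := fun ω =>
    af_norm J _ fun j => pd_norm (d.dpd ω).toPD _
  have hI : Integrable (fun ω => AJ J (d.th ω) a) d.P :=
    Integrable.of_bound hmeas.aestronglyMeasurable 1 (Eventually.of_forall hnorm)
  have hre : (AJ J φ a).re = ∫ ω, (AJ J (d.th ω) a).re ∂d.P := by
    rw [hint]
    exact (integral_re hI).symm
  have hlow : ∀ ω, G.indicator (fun _ => (1 : ℝ)) ω ≤ (AJ J (d.th ω) a).re := by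
    intro ω
    by_cases hω : ω ∈ G
    · rw [Set.indicator_of_mem hω]
      rw [hGiff] at hω
      have hfr2 : ∃ᶠ l in atTop, Real.sqrt (c / 2) ≤ ‖mm k N l (d.th ω)‖ := by
        refine hω.mono fun l hl => ?_
        rw [Real.sqrt_le_left (norm_nonneg _)]
        exact hl
      have h1 : ∀ C : Finset ℕ, C.Nonempty → C.card ≤ k → d.th ω ((M : ℤ) • Finsupp.single C 1) = 1 :=
        hM2 (d.th ω) (d.dpd ω) hfr2
      obtain ⟨m, hm⟩ := hdvd
      have h2 : AJ J (d.th ω) a = 1 := by
        unfold AJ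
        refine tt_af_one J hJ _ fun j => ?_
        have e : ∑ t, j t • a t = ∑ t, (j t * (m : ℤ)) • ((M : ℤ) • (Finsupp.single (C t) 1 : GG)) := by
          refine Finset.sum_congr rfl fun t _ => ?_
          simp only [ha, smul_smul, hm]
          congr 1
          push_cast
          ring
        rw [e]
        exact tt_sum_one (d.dpd ω).toPD _ (fun t => h1 (C t) (hC t).1 (hC t).2) _ _
      rw [h2]
      simp
    · rw [Set.indicator_of_notMem hω]
      exact aj_nonneg (d.dpd ω).toPD J a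
  rw [hre]
  refine hPG.trans ?_
  rw [← integral_indicator_one hGm]
  exact integral_mono ((integrable_const _).indicator hGm) hI.re hlow

end Pool.Agent.Lib.MP_90b327_co.RS
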