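import Mathlib
import Pool.Agent.Lib.MP_90b327_co.RS.RDef
import Pool.Agent.Lib.MP_90b327_co.RS.S2D
import Pool.Agent.Lib.MP_90b327_co.RS.S3
import Pool.Agent.Lib.MP_90b327_co.RS.Base
import Pool.Agent.Lib.MP_90b327_co.RS.T1T2
import Pool.Agent.Lib.MP_90b327_co.RS.PdA

/-!
MODULE TAll (25 minutes, old scale). Proposition `T` (text 9).

PROOF. Induction: `T1 0`, `T1 1` (`Base`); for `k ≥ 2`: `T2 (k-1)` from `t1_t2`, `M` of `s2_d`, `M₆` of `s3`; `M * M₆` works for all non-empty `C` with `|C| ≤ k` (`pd_zsmul`: `(M * M₆) • 1_C = M₆ • (M • 1_C)`; a set of cardinality one is `{v}`).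
-/

set_option autoImplicit false

namespace Pool.Agent.Lib.MP_90b327_co.RS

open Finset MeasureTheory Filter Pool.Agent.Lib.MP_90b327_co Pool.Agent.Lib.MP_90b327_co.RB
  Pool.Agent.Lib.MP_90b327_co.WW

theorem t1_all (k : ℕ) : T1 k := by
  induction k with
  | zero => exact t1_zero
  | succ k ih =>
    rcases Nat.eq_zero_or_pos k with h0 | hk
    · subst h0
      exact t1_one
    · intro N c hN hc
      have hT2 : T2 (k + 1 - 1) := t1_t2 k ih
      obtain ⟨M, hM, H⟩ := s2_d (k + 1) (by omega) hT2 N hN c hc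
      obtain ⟨M₆, hM₆, H6⟩ := s3 (k + 1) (by omega) hT2 N hN c hc M hM
      refine ⟨M * M₆, Nat.mul_pos hM hM₆, fun φ hφ hf C hC hCk => ?_⟩
      have hc1 : 1 ≤ C.card := Finset.card_pos.2 hC
      rcases Nat.lt_or_ge C.card 2 with h1 | h2
      · obtain ⟨v, hv⟩ := Finset.card_eq_one.1 (by omega : C.card = 1)
        have h3 := H6 φ hφ hf (fun C' h2 h3 => H φ hφ hf C' h2 h3) v
        have e : ((M * M₆ : ℕ) : ℤ) • (Finsupp.single C 1 : GG) =
            (M : ℤ) • ((M₆ : ℤ) • (Finsupp.single {v} 1 : GG)) := by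
          rw [hv, smul_smul, Nat.cast_mul]
        rw [e]
        exact pd_zsmul hφ.toPD _ h3 _
      · have h3 := H φ hφ hf C h2 hCk
        have e : ((M * M₆ : ℕ) : ℤ) • (Finsupp.single C 1 : GG) =
            (M₆ : ℤ) • ((M : ℤ) • (Finsupp.single C 1 : GG)) := by
          rw [smul_smul, Nat.cast_mul, mul_comm]
        rw [e]
        exact pd_zsmul hφ.toPD _ h3 _

theorem t2_all (k : ℕ) : T2 k := t1_t2 k (t1_all k)

end Pool.Agent.Lib.MP_90b327_co.RS
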