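import Mathlib
import Pool.Agent.Lib.MP_90b327_co.RS.RDef
import Pool.Agent.Lib.MP_90b327_co.RS.EndP
import Pool.Agent.Lib.MP_90b327_co.RS.EndAlg
import Pool.Agent.Lib.MP_90b327_co.RS.TAll
import Pool.Agent.Lib.MP_90b327_co.RS.MmYy
import Pool.Agent.Lib.MP_90b327_co.RS.PhiEPD

/-!
MODULE EndB1 (30 minutes, old scale). Torsion relations with positive probability (text 10).

PROOF. `k = D + natDegree Q`. `t2_all k` for `N`, `c²` gives `M₁`. For `T` as in the statement: `mm_yy` (`phi_epd`): `c² ≤ YY k N l (phi Q T)` for infinitely many `l` (`l ≥ 1`). For a finite set `W` with `|W| ≥ D + n₀` let `ι` be the subtype of the non-empty `C ⊆ W` with `|C| ≤ k`: `T2` gives `c²/2 ≤ (AJ J (phi Q T) ..).re` for all `J ≥ 1`,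
`end_p`: with probability `≥ c²/4`: `psi (m • 1_C) = 1` for all these `C`, `m = ⌊8/c²⌋! M₁`. `psi (m • 1_C) = ‖zi (la ..)‖ * zi (lb (m • 1_C)) = 1` implies `zi (m • bc D Q C) = 1` (`lb (m • single C 1) = m • bc D Q C`; norms are `0` or `1`: `zi_pch`). `end_alg` with `f = zi D (kz (T.z ω))` (a.e. `zi_pch`): `zi (M* • 1_A) = 1` for all `A ∈ br D W`.
The integer `m * ∏ Q(n)` may be negative or.. take `M = natAbs`; it is non-zero by `hn`; `zi (-a) = conj (zi a)`. For `W` with fewer elements enlarge `W`.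
-/

set_option autoImplicit false

namespace Pool.Agent.Lib.MP_90b327_co.RS

open Finset MeasureTheory Filter Pool.Agent.Lib.MP_90b327_co Pool.Agent.Lib.MP_90b327_co.RB
  Pool.Agent.Lib.MP_90b327_co.WW

private lemma eb1_lb (D : ℕ) (Q : Polynomial ℤ) (m : ℤ) (C : Finset ℕ) :
    lb D Q (m • Finsupp.single C 1) = m • bc D Q C := by
  unfold lb lin
  rw [Finsupp.smul_single, smul_eq_mul, mul_one, Finsupp.sum_single_index]
  exact zero_smul _ _

private lemma eb1_psi {D : ℕ} (Q : Polynomial ℤ) {k : Cn → Cn → ℂ} (h : KS D k) (m : ℤ)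
    (C : Finset ℕ) (hp : psi D Q k (m • Finsupp.single C 1) = 1) :
    zi D k (m • bc D Q C) = 1 := by
  unfold psi at hp
  rw [eb1_lb] at hp
  have hne : zi D k (la D (m • Finsupp.single C 1)) ≠ 0 := by
    intro h0
    rw [h0] at hp
    simp at hp
  rcases (zi_pch h).nrm (la D (m • Finsupp.single C 1)) with h0 | h1
  · exact absurd h0 hne
  · rw [h1] at hp
    simpa using hp

theorem end_b1 {D : ℕ} (Q : Polynomial ℤ) (n₀ : ℕ) (hn : ∀ n, n₀ ≤ n → Q.eval (n : ℤ) ≠ 0) (N : ℕ)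
    (hN : 1 ≤ N) (c : ℝ) (hc : 0 < c) : ∃ M : ℕ, 1 ≤ M ∧ ∀ (T : CS D), StAE T →
      (∃ᶠ l in atTop, c ≤ ‖mm (D + Q.natDegree) N l (phi Q T)‖) → ∀ W : Finset ℕ,
        c ^ 2 / 4 ≤ T.P.real {ω | ∀ A ∈ br D W,
          zi D (kz (T.z ω)) ((M : ℤ) • Finsupp.single A 1) = 1} := by
  classical
  obtain ⟨M₁, hM₁, hT2⟩ := t2_all (D + Q.natDegree) N (c ^ 2) hN (by positivity)
  set m : ℕ := ⌊4 / (c ^ 2 / 2)⌋₊.factorial * M₁ with hm
  have hm1 : 1 ≤ m := Nat.mul_pos (Nat.factorial_pos _) hM₁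
  set K : ℤ := (m : ℤ) * ∏ n ∈ Finset.Icc n₀ (n₀ + D), Q.eval (n : ℤ) with hK
  have hK0 : K ≠ 0 := by
    refine mul_ne_zero (by exact_mod_cast (by omega : m ≠ 0)) ?_
    rw [Finset.prod_ne_zero_iff]
    intro n hn'
    exact hn n (Finset.mem_Icc.1 hn').1
  refine ⟨K.natAbs, Int.natAbs_pos.2 hK0, fun T hst hfr W => ?_⟩
  have hepd := phi_epd Q T hst
  have hYY : ∃ᶠ l in atTop, c ^ 2 ≤ YY (D + Q.natDegree) N l (phi Q T) := by
    refine (hfr.and_eventually (eventually_ge_atTop 1)).mono ?_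
    rintro l ⟨h1, h2⟩
    exact (pow_le_pow_left₀ hc.le h1 2).trans (mm_yy hepd _ N l h2)
  obtain ⟨W', hWW, hW'⟩ : ∃ W' : Finset ℕ, W ⊆ W' ∧ D + n₀ ≤ W'.card := by
    obtain ⟨W', h1, h2⟩ := Infinite.exists_superset_card_eq W (W.card + (D + n₀)) (by omega)
    exact ⟨W', h1, by omega⟩
  let ι : Type := ↥(W'.powerset.filter (fun C => C.Nonempty ∧ C.card ≤ D + Q.natDegree))
  have hAJ := hT2 (phi Q T) hepd hYY M₁ hM₁ dvd_rfl ι (fun t => t.1)
    (fun t => (Finset.mem_filter.1 t.2).2)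
  have hend := end_p Q T hst M₁ (c ^ 2 / 2) (by positivity) ι (fun t => t.1) hAJ
  refine (by linarith : c ^ 2 / 4 ≤ c ^ 2 / 2 / 2).trans (hend.trans ?_)
  apply ENNReal.toReal_mono (measure_ne_top _ _)
  apply measure_mono_ae
  filter_upwards [hst] with ω hω hωm A hA
  have hωm' : ∀ t : ι, psi D Q (kz (T.z ω)) ((m : ℤ) • Finsupp.single t.1 1) = 1 := hωm
  have hA' : A ∈ br D W' := by
    rw [br_mem] at hA ⊢
    exact ⟨hA.1.trans hWW, hA.2⟩
  have halg := end_alg D Q n₀ (zi_pch hω) (m : ℤ) W' hW'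
    (fun C hC hCn hCc => eb1_psi Q hω (m : ℤ) C
      (hωm' ⟨C, Finset.mem_filter.2 ⟨Finset.mem_powerset.2 hC, hCn, hCc⟩⟩)) A hA'
  rw [← hK] at halg
  rcases Int.natAbs_eq K with h | h
  · rw [← h]; exact halg
  · have h2 : ((K.natAbs : ℕ) : ℤ) = -K := by linarith
    rw [h2, neg_smul, (zi_pch hω).neg, halg]
    simp

end Pool.Agent.Lib.MP_90b327_co.RS
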