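import Mathlib
import Pool.Agent.Lib.MP_90b327_co.RS.RDef
import Pool.Agent.Lib.MP_90b327_co.RS.ZtLaw
import Pool.Agent.Lib.MP_90b327_co.RS.ZiA
import Pool.Agent.Lib.MP_90b327_co.RS.ZtMeas
import Pool.Agent.Lib.MP_90b327_co.RS.ClBr
import Pool.Agent.Lib.MP_90b327_co.WW.ExInj

/-!
MODULE EndZ (60 minutes, old scale). Zero-one law (text 10).

PROOF. Fix `A ∈ coordinates`. For `W ⊇ A` let `E_W = {ω | zt D W (kz (T.z ω)) (M • 1_A) = 1}`, `E = {ω | zi .. = 1}`. A.e. `E_W ⊆ E` (`zi_of`) and `E = ⋃_n E_(range n)` (`zi` is one of the `zt (range n)`), increasing (`zt_mono`), so `P(E_(range n)) → P(E)`. By `zt_law` (`ι = Unit`) and `exists_inj`: for `A'` with `|A'| = |A|` and `W' ⊇ A'`,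
`|W'| = |W|`: `P(zt D W' (M • 1_(A')) = 1) = P(E_W) =: p_w`, `w = |W|`; likewise `P(zi (M • 1_(A')) = 1) = P(E) =: p` (limit). For `r` take pairwise disjoint `A'_1, .., A'_r` (`|A'_t| = |A|`) and pairwise disjoint `W'_t ⊇ A'_t` with `w` elements. The events `zt D (W'_t) (M • 1_(A'_t)) = 1` depend only on the values `z(x, y)` with rows in `W'_t`
(`zt D W k` uses only `k` on `Pn D W`; `cl D x ⊆ pw D W` for `x ⊆ br D W`) and are independent: by induction on `r` with `T.ind` (one block against the union of the others) `P(all) = p_w^r`. So by `h`: `c ≤ P(∀ t, zi (M • 1_(A'_t)) = 1) ≤ p_w^r + r (p - p_w)`; `w → ∞`: `c ≤ p^r` for all `r`, so `p = 1`.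
(`h` for `W` = union of the `A'_t`.)
-/

set_option autoImplicit false

namespace Pool.Agent.Lib.MP_90b327_co.RS

open Finset MeasureTheory Filter Pool.Agent.Lib.MP_90b327_co Pool.Agent.Lib.MP_90b327_co.RB
  Pool.Agent.Lib.MP_90b327_co.WW

open Classical in
private noncomputable def ezZ (U : Finset (Cn × Cn)) (k : Cn → Cn → ℂ) (a : GG) : ℂ :=
  if h : ∃ m, Rp U a m then ∏ p ∈ U, k p.1 p.2 ^ (Classical.choose h p) else 0

private lemma ez_zt (D : ℕ) (W : Finset ℕ) (k : Cn → Cn → ℂ) (a : GG) :
    zt D W k a = ezZ (Un D W k) k a := rfl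

private lemma ezZ_congr (U : Finset (Cn × Cn)) (k k' : Cn → Cn → ℂ) (a : GG)
    (h : ∀ p ∈ U, k p.1 p.2 = k' p.1 p.2) : ezZ U k a = ezZ U k' a := by
  unfold ezZ
  split_ifs with hh
  · apply Finset.prod_congr rfl
    intro p hp
    rw [h p hp]
  · rfl

private lemma ez_Un_mem (D : ℕ) (W : Finset ℕ) (k : Cn → Cn → ℂ) (p : Cn × Cn) :
    p ∈ Un D W k ↔ p ∈ Pn D W ∧ ‖k p.1 p.2‖ = 1 := by
  unfold Un
  rw [Finset.mem_filter]

private lemma ez_zt_congr (D : ℕ) (W : Finset ℕ) (k k' : Cn → Cn → ℂ) (a : GG)
    (h : ∀ p ∈ Pn D W, k p.1 p.2 = k' p.1 p.2) : zt D W k a = zt D W k' a := by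
  have hU : Un D W k = Un D W k' := by
    ext p
    rw [ez_Un_mem, ez_Un_mem]
    constructor
    · rintro ⟨h1, h2⟩
      exact ⟨h1, by rw [← h p h1]; exact h2⟩
    · rintro ⟨h1, h2⟩
      exact ⟨h1, by rw [h p h1]; exact h2⟩
  rw [ez_zt, ez_zt, hU]
  apply ezZ_congr
  intro p hp
  exact h p ((ez_Un_mem D W k' p).mp hp).1

private lemma ez_meas {Ω' : Type} [MeasurableSpace Ω'] (D : ℕ) (W : Finset ℕ)
    (k : Ω' → Cn → Cn → ℂ) (hk : ∀ x y, Measurable (fun ω => k ω x y)) (a : GG) :
    Measurable (fun ω => zt D W (k ω) a) := by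
  classical
  have hF : ∀ U : Finset (Cn × Cn), Measurable (fun ω => ezZ U (k ω) a) := by
    intro U
    unfold ezZ
    by_cases h : ∃ m, Rp U a m
    · simp only [dif_pos h]
      apply Finset.measurable_fun_prod
      intro p _
      exact (hk p.1 p.2).pow_const _
    · simp only [dif_neg h]
      exact measurable_const
  have hS : ∀ U : Finset (Cn × Cn), MeasurableSet {ω | Un D W (k ω) = U} := by
    intro U
    by_cases hU : U ⊆ Pn D W
    · have : {ω | Un D W (k ω) = U} =
          ⋂ p ∈ Pn D W, {ω | (‖k ω p.1 p.2‖ = 1 ↔ p ∈ U)} := by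
        ext ω
        simp only [Set.mem_setOf_eq, Set.mem_iInter]
        constructor
        · intro h p hp
          rw [← h, ez_Un_mem]
          tauto
        · intro h
          ext p
          rw [ez_Un_mem]
          constructor
          · rintro ⟨h1, h2⟩
            exact (h p h1).mp h2
          · intro hp
            exact ⟨hU hp, (h p (hU hp)).mpr hp⟩
      rw [this]
      apply Finset.measurableSet_biInter
      intro p _
      have hm : MeasurableSet {ω | ‖k ω p.1 p.2‖ = 1} :=
        (hk p.1 p.2).norm (measurableSet_singleton 1)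
      by_cases hp : p ∈ U
      · simpa only [hp, iff_true] using hm
      · have h9 : {ω | (‖k ω p.1 p.2‖ = 1 ↔ p ∈ U)} = {ω | ‖k ω p.1 p.2‖ = 1}ᶜ := by
          ext ω
          simp only [hp, iff_false, Set.mem_setOf_eq, Set.mem_compl_iff]
        rw [h9]
        exact hm.compl
    · have : {ω | Un D W (k ω) = U} = ∅ := by
        ext ω
        simp only [Set.mem_setOf_eq, Set.mem_empty_iff_false, iff_false]
        intro h
        apply hU
        intro p hp
        rw [← h, ez_Un_mem] at hp
        exact hp.1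
      rw [this]
      exact MeasurableSet.empty
  have heq : (fun ω => zt D W (k ω) a) =
      fun ω => ∑ U ∈ (Pn D W).powerset, if Un D W (k ω) = U then ezZ U (k ω) a else 0 := by
    funext ω
    rw [Finset.sum_ite_eq, if_pos, ez_zt]
    rw [Finset.mem_powerset]
    intro p hp
    exact ((ez_Un_mem D W (k ω) p).mp hp).1
  rw [heq]
  apply Finset.measurable_fun_sum
  intro U _
  exact Measurable.ite (hS U) (hF U) measurable_const

private noncomputable def ezA (M : ℕ) (A : Finset ℕ) : GG := (M : ℤ) • Finsupp.single A 1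

private lemma ezA_rel (M : ℕ) (A : Finset ℕ) (σ : ℕ → ℕ) :
    rel σ (ezA M A) = ezA M (A.image σ) := by
  unfold rel ezA
  rw [Finsupp.mapDomain_smul, Finsupp.mapDomain_single]

private lemma ez_inv {D : ℕ} (T : CS D) (hst : StAE T) (M : ℕ) (A A' W W' : Finset ℕ)
    (h1 : A ⊆ W) (h2 : A' ⊆ W') (h3 : A.card = A'.card) (h4 : W.card = W'.card) :
    T.P.real {ω | zt D W (kz (T.z ω)) (ezA M A) = 1} =
      T.P.real {ω | zt D W' (kz (T.z ω)) (ezA M A') = 1} := by
  classical
  obtain ⟨σ, hσ, -, hσ2⟩ := exists_inj Bool ∅ (fun b => if b then A else W \ A)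
    (fun b => if b then A' else W' \ A')
    (by
      intro j j' hj
      cases j <;> cases j' <;> simp_all [Finset.disjoint_sdiff, Finset.sdiff_disjoint])
    (by
      intro j j' hj
      cases j <;> cases j' <;> simp_all [Finset.disjoint_sdiff, Finset.sdiff_disjoint])
    (by intro j; exact Finset.disjoint_empty_right _)
    (by intro j; exact Finset.disjoint_empty_right _)
    (by
      intro j
      cases j
      · simp only [Bool.false_eq_true, if_false]
        rw [Finset.card_sdiff_of_subset h1, Finset.card_sdiff_of_subset h2, h3, h4]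
      · simpa using h3)
  have hA : A.image σ = A' := by simpa using hσ2 true
  have hW : W.image σ = W' := by
    have h5 : (W \ A).image σ = W' \ A' := by simpa using hσ2 false
    have h6 : W = A ∪ (W \ A) := (Finset.union_sdiff_of_subset h1).symm
    rw [h6, Finset.image_union, hA, h5, Finset.union_sdiff_of_subset h2]
  have hlaw := zt_law T hst σ hσ W Unit (fun _ => ezA M A)
  have hS : MeasurableSet {u : Unit → ℂ | u () = 1} :=
    (measurable_pi_apply ()) (measurableSet_singleton 1)
  have h7 : T.P.map (fun ω i => zt D (W.image σ) (kz (T.z ω)) (rel σ ((fun _ : Unit => ezA M A) i)))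
      {u : Unit → ℂ | u () = 1} = T.P.map (fun ω i => zt D W (kz (T.z ω))
        ((fun _ : Unit => ezA M A) i)) {u : Unit → ℂ | u () = 1} := by
    rw [hlaw]
  rw [Measure.map_apply (measurable_pi_lambda _ fun _ => zt_meas T _ _) hS,
    Measure.map_apply (measurable_pi_lambda _ fun _ => zt_meas T _ _) hS] at h7
  simp only [Set.preimage_setOf_eq, ezA_rel, hA, hW] at h7
  unfold Measure.real
  rw [h7]

private lemma ez_Pn_mono {D : ℕ} {W V : Finset ℕ} (h : W ⊆ V) : Pn D W ⊆ Pn D V := by
  intro p hp
  unfold Pn at hp ⊢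
  rw [Finset.mem_product, Finset.mem_powerset, Finset.mem_powerset] at hp ⊢
  have hbr : br D W ⊆ br D V := by
    intro A hA
    rw [br_mem] at hA ⊢
    exact ⟨hA.1.trans h, hA.2⟩
  exact ⟨hp.1.trans hbr, hp.2.trans hbr⟩

private lemma ez_cl {D : ℕ} {V : Finset ℕ} {x : Cn} (h : x ⊆ br D V) : cl D x ⊆ pw D V := by
  intro c hc
  rw [cl_mem] at hc
  have := ((br_mem V _).mp (h hc)).1
  unfold pw
  rw [Fintype.mem_piFinset]
  intro i
  exact this (Finset.mem_image_of_mem c (Finset.mem_univ i))

/-- the kernel of a vector of values -/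
private noncomputable def ezk (D : ℕ) (V : Finset ℕ) (u : ↥(Pn D V) → ℂ) (x y : Cn) : ℂ := by
  classical exact if h : (x, y) ∈ Pn D V then u ⟨(x, y), h⟩ else 0

private noncomputable def ezf {D : ℕ} (T : CS D) (V : Finset ℕ) (ω : T.Ω) : ↥(Pn D V) → ℂ :=
  fun p => T.z ω (cl D p.1.1) (cl D p.1.2)

private lemma ezk_meas (D : ℕ) (V : Finset ℕ) (x y : Cn) :
    Measurable (fun u : ↥(Pn D V) → ℂ => ezk D V u x y) := by
  unfold ezk
  by_cases h : (x, y) ∈ Pn D V
  · simp only [dif_pos h]
    exact measurable_pi_apply _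
  · simp only [dif_neg h]
    exact measurable_const

private lemma ezk_ezf {D : ℕ} (T : CS D) (V W : Finset ℕ) (hWV : W ⊆ V) (ω : T.Ω) (a : GG) :
    zt D W (ezk D V (ezf T V ω)) a = zt D W (kz (T.z ω)) a := by
  apply ez_zt_congr
  intro p hp
  have hp' := ez_Pn_mono hWV hp
  unfold ezk
  rw [dif_pos (show (p.1, p.2) ∈ Pn D V from hp')]
  rfl

private lemma ez_indep {D : ℕ} (T : DS D) (V V' : Finset ℕ) (h : Disjoint V V')
    (S : Set (↥(Pn D V) → ℂ)) (S' : Set (↥(Pn D V') → ℂ)) (hS : MeasurableSet S)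
    (hS' : MeasurableSet S') :
    T.P.real ((ezf T.toCS V) ⁻¹' S ∩ (ezf T.toCS V') ⁻¹' S') =
      T.P.real ((ezf T.toCS V) ⁻¹' S) * T.P.real ((ezf T.toCS V') ⁻¹' S') := by
  have hind := T.ind (↥(Pn D V)) (↥(Pn D V')) (fun p => cl D p.1.1) (fun p => cl D p.1.2)
    (fun p => cl D p.1.1) (fun p => cl D p.1.2) V V' h
    (by
      intro p
      have hp := p.2
      unfold Pn at hp
      rw [Finset.mem_product, Finset.mem_powerset, Finset.mem_powerset] at hp
      exact ⟨ez_cl hp.1, ez_cl hp.2⟩)
    (by
      intro p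
      have hp := p.2
      unfold Pn at hp
      rw [Finset.mem_product, Finset.mem_powerset, Finset.mem_powerset] at hp
      exact ⟨ez_cl hp.1, ez_cl hp.2⟩)
  have := hind.measure_inter_preimage_eq_mul S S' hS hS'
  unfold Measure.real
  rw [← ENNReal.toReal_mul]
  exact congrArg ENNReal.toReal this

theorem end_z {D : ℕ} (T : DS D) (hst : StAE T.toCS) (M : ℕ) (c : ℝ) (hc : 0 < c)
    (h : ∀ W : Finset ℕ, c ≤ T.P.real {ω | ∀ A ∈ br D W,
      zi D (kz (T.z ω)) ((M : ℤ) • Finsupp.single A 1) = 1}) :
    ∀ᵐ ω ∂T.P, ∀ A : Finset ℕ, A.Nonempty → A.card ≤ D →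
      zi D (kz (T.z ω)) ((M : ℤ) • Finsupp.single A 1) = 1 := by
  classical
  rw [ae_all_iff]
  intro A
  by_cases hA1 : A.Nonempty
  swap
  · exact Filter.Eventually.of_forall fun ω hA => absurd hA hA1
  by_cases hA2 : A.card ≤ D
  swap
  · exact Filter.Eventually.of_forall fun ω _ hA => absurd hA hA2
  -- the events
  have hmzt : ∀ (W : Finset ℕ) (B : Finset ℕ),
      MeasurableSet {ω | zt D W (kz (T.z ω)) (ezA M B) = 1} := fun W B =>
    (zt_meas T.toCS W (ezA M B)) (measurableSet_singleton 1)
  have hmzi : ∀ B : Finset ℕ, MeasurableSet {ω | zi D (kz (T.z ω)) (ezA M B) = 1} := fun B =>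
    (zi_meas T.toCS (ezA M B)) (measurableSet_singleton 1)
  -- limit
  have hlim : ∀ B : Finset ℕ, Tendsto
      (fun n : ℕ => T.P.real {ω | zt D (range n) (kz (T.z ω)) (ezA M B) = 1}) atTop
      (nhds (T.P.real {ω | zi D (kz (T.z ω)) (ezA M B) = 1})) := by
    intro B
    have h1 : Tendsto (fun n : ℕ => T.P {ω | zt D (range n) (kz (T.z ω)) (ezA M B) = 1}) atTop
        (nhds (T.P {ω | zi D (kz (T.z ω)) (ezA M B) = 1})) := by
      apply tendsto_measure_of_ae_tendsto_indicator_of_isFiniteMeasure atTop (hmzi B)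
        (fun n => hmzt (range n) B)
      filter_upwards [hst] with ω hω
      have ht := zi_tend hω (ezA M B)
      by_cases h1 : zi D (kz (T.z ω)) (ezA M B) = 1
      · rw [h1] at ht
        have hne : ∀ᶠ n : ℕ in atTop, zt D (range n) (kz (T.z ω)) (ezA M B) ≠ 0 :=
          ht.eventually_ne one_ne_zero
        filter_upwards [hne] with n hn
        have h9 := zi_eq hω n (ezA M B) hn
        rw [← h9]
      · refine Filter.Eventually.of_forall fun n => ?_
        constructor
        · intro h2
          rw [zi_eq hω n (ezA M B) (by rw [h2]; exact one_ne_zero)]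
          exact h2
        · intro h2
          exact absurd h2 h1
    exact (ENNReal.tendsto_toReal (measure_ne_top _ _)).comp h1
  -- probabilities of `zi` do not depend on the position
  have hpos : ∀ B : Finset ℕ, B.card = A.card →
      T.P.real {ω | zi D (kz (T.z ω)) (ezA M B) = 1} =
        T.P.real {ω | zi D (kz (T.z ω)) (ezA M A) = 1} := by
    intro B hB
    refine tendsto_nhds_unique (hlim B) ((hlim A).congr' ?_)
    filter_upwards [eventually_ge_atTop ((A ∪ B).sup id + 1)] with n hn
    have hsub : ∀ x ∈ A ∪ B, x ∈ range n := by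
      intro x hx
      have := Finset.le_sup (f := id) hx
      rw [Finset.mem_range]
      simp only [id] at this
      omega
    exact ez_inv T.toCS hst M A B (range n) (range n)
      (fun x hx => hsub x (Finset.mem_union_left _ hx))
      (fun x hx => hsub x (Finset.mem_union_right _ hx)) hB.symm rfl
  set p : ℝ := T.P.real {ω | zi D (kz (T.z ω)) (ezA M A) = 1} with hp
  have hp0 : 0 ≤ p := measureReal_nonneg
  have hp1 : p ≤ 1 := measureReal_le_one
  -- main inequality
  have hmain : ∀ (w r : ℕ), A.card ≤ w →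
      c ≤ T.P.real {ω | zt D (range w) (kz (T.z ω)) (ezA M (range A.card)) = 1} ^ r +
        r * (p - T.P.real {ω | zt D (range w) (kz (T.z ω)) (ezA M (range A.card)) = 1}) := by
    intro w r hw
    set pw' : ℝ := T.P.real {ω | zt D (range w) (kz (T.z ω)) (ezA M (range A.card)) = 1} with hpw
    set Wt : ℕ → Finset ℕ := fun t => Finset.Ico (t * w) (t * w + w) with hWt
    set At : ℕ → Finset ℕ := fun t => Finset.Ico (t * w) (t * w + A.card) with hAt
    have hAc : ∀ t, (At t).card = A.card := by
      intro t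
      simp only [hAt, Nat.card_Ico]
      omega
    have hWc : ∀ t, (Wt t).card = w := by
      intro t
      simp only [hWt, Nat.card_Ico]
      omega
    have hAW : ∀ t, At t ⊆ Wt t := by
      intro t x hx
      simp only [hAt, hWt, Finset.mem_Ico] at hx ⊢
      omega
    have hF : ∀ t, T.P.real {ω | zt D (Wt t) (kz (T.z ω)) (ezA M (At t)) = 1} = pw' := by
      intro t
      rw [hpw]
      apply ez_inv T.toCS hst M (At t) (range A.card) (Wt t) (range w) (hAW t)
      · intro x hx
        rw [Finset.mem_range] at hx ⊢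
        omega
      · rw [hAc, Finset.card_range]
      · rw [hWc, Finset.card_range]
    have hWV : ∀ r t, t < r → Wt t ⊆ range (r * w) := by
      intro r t ht x hx
      simp only [hWt, Finset.mem_Ico] at hx
      rw [Finset.mem_range]
      have : (t + 1) * w ≤ r * w := Nat.mul_le_mul_right w ht
      rw [Nat.add_mul, one_mul] at this
      omega
    -- independence
    have hI : ∀ r : ℕ, T.P.real {ω | ∀ t < r, zt D (Wt t) (kz (T.z ω)) (ezA M (At t)) = 1} =
        pw' ^ r := by
      intro r
      induction r with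
      | zero =>
        have : {ω | ∀ t < 0, zt D (Wt t) (kz (T.z ω)) (ezA M (At t)) = 1} = Set.univ := by
          ext ω
          simp
        rw [this, pow_zero]
        exact probReal_univ
      | succ r ih =>
        have hset : {ω | ∀ t < r + 1, zt D (Wt t) (kz (T.z ω)) (ezA M (At t)) = 1} =
            (ezf T.toCS (range (r * w))) ⁻¹' {u | ∀ t < r,
              zt D (Wt t) (ezk D (range (r * w)) u) (ezA M (At t)) = 1} ∩
            (ezf T.toCS (Wt r)) ⁻¹' {u | zt D (Wt r) (ezk D (Wt r) u) (ezA M (At r)) = 1} := by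
          ext ω
          simp only [Set.mem_setOf_eq, Set.mem_inter_iff, Set.mem_preimage]
          rw [ezk_ezf T.toCS (Wt r) (Wt r) (Finset.Subset.refl _)]
          constructor
          · intro h1
            refine ⟨fun t ht => ?_, h1 r (Nat.lt_succ_self r)⟩
            rw [ezk_ezf T.toCS _ _ (hWV r t ht)]
            exact h1 t (Nat.lt_succ_of_lt ht)
          · rintro ⟨h1, h2⟩ t ht
            rcases Nat.lt_succ_iff_lt_or_eq.mp ht with h3 | h3
            · rw [← ezk_ezf T.toCS _ _ (hWV r t h3)]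
              exact h1 t h3
            · rw [h3]
              exact h2
        have hset1 : {ω | ∀ t < r, zt D (Wt t) (kz (T.z ω)) (ezA M (At t)) = 1} =
            (ezf T.toCS (range (r * w))) ⁻¹' {u | ∀ t < r,
              zt D (Wt t) (ezk D (range (r * w)) u) (ezA M (At t)) = 1} := by
          ext ω
          simp only [Set.mem_setOf_eq, Set.mem_preimage]
          constructor
          · intro h1 t ht
            rw [ezk_ezf T.toCS _ _ (hWV r t ht)]
            exact h1 t ht
          · intro h1 t ht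
            rw [← ezk_ezf T.toCS _ _ (hWV r t ht)]
            exact h1 t ht
        have hset2 : {ω | zt D (Wt r) (kz (T.z ω)) (ezA M (At r)) = 1} =
            (ezf T.toCS (Wt r)) ⁻¹' {u | zt D (Wt r) (ezk D (Wt r) u) (ezA M (At r)) = 1} := by
          ext ω
          simp only [Set.mem_setOf_eq, Set.mem_preimage]
          rw [ezk_ezf T.toCS (Wt r) (Wt r) (Finset.Subset.refl _)]
        have hdis : Disjoint (range (r * w)) (Wt r) := by
          rw [Finset.disjoint_left]
          intro x hx hx'
          rw [Finset.mem_range] at hx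
          simp only [hWt, Finset.mem_Ico] at hx'
          omega
        have hm1 : MeasurableSet {u : ↥(Pn D (range (r * w))) → ℂ | ∀ t < r,
            zt D (Wt t) (ezk D (range (r * w)) u) (ezA M (At t)) = 1} := by
          have : {u : ↥(Pn D (range (r * w))) → ℂ | ∀ t < r,
              zt D (Wt t) (ezk D (range (r * w)) u) (ezA M (At t)) = 1} =
              ⋂ t ∈ range r, {u | zt D (Wt t) (ezk D (range (r * w)) u) (ezA M (At t)) = 1} := by
            ext u
            simp
          rw [this]
          apply Finset.measurableSet_biInter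
          intro t _
          exact (ez_meas D (Wt t) (fun u => ezk D (range (r * w)) u)
            (fun x y => ezk_meas D _ x y) (ezA M (At t))) (measurableSet_singleton 1)
        have hm2 : MeasurableSet {u : ↥(Pn D (Wt r)) → ℂ |
            zt D (Wt r) (ezk D (Wt r) u) (ezA M (At r)) = 1} :=
          (ez_meas D (Wt r) (fun u => ezk D (Wt r) u)
            (fun x y => ezk_meas D _ x y) (ezA M (At r))) (measurableSet_singleton 1)
        rw [hset, ez_indep T _ _ hdis _ _ hm1 hm2, ← hset1, ← hset2, ih, hF r, pow_succ]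
    -- the union bound
    have hsub : {ω | ∀ B ∈ br D (range (r * w)), zi D (kz (T.z ω)) (ezA M B) = 1} ⊆
        {ω | ∀ t < r, zt D (Wt t) (kz (T.z ω)) (ezA M (At t)) = 1} ∪
        ⋃ t ∈ range r, ({ω | zi D (kz (T.z ω)) (ezA M (At t)) = 1} \
          {ω | zt D (Wt t) (kz (T.z ω)) (ezA M (At t)) = 1}) := by
      intro ω hω
      by_cases h1 : ∀ t < r, zt D (Wt t) (kz (T.z ω)) (ezA M (At t)) = 1
      · exact Or.inl h1
      · right
        push Not at h1
        obtain ⟨t, ht, h2⟩ := h1
        rw [Set.mem_iUnion₂]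
        refine ⟨t, Finset.mem_range.mpr ht, ?_, h2⟩
        apply hω
        rw [br_mem]
        refine ⟨(hAW t).trans (hWV r t ht), ?_, ?_⟩
        · rw [← Finset.card_pos, hAc]
          exact Finset.card_pos.mpr hA1
        · rw [hAc]
          exact hA2
    have hdiff : ∀ t, T.P.real ({ω | zi D (kz (T.z ω)) (ezA M (At t)) = 1} \
          {ω | zt D (Wt t) (kz (T.z ω)) (ezA M (At t)) = 1}) ≤ p - pw' := by
      intro t
      have h1 : T.P.real {ω | zi D (kz (T.z ω)) (ezA M (At t)) = 1} = p := hpos _ (hAc t)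
      have h2 := hF t
      -- a.e. inclusion
      have h3 : T.P.real ({ω | zi D (kz (T.z ω)) (ezA M (At t)) = 1} ∩
          {ω | zt D (Wt t) (kz (T.z ω)) (ezA M (At t)) = 1}) = pw' := by
        rw [← h2]
        apply measureReal_congr
        filter_upwards [hst] with ω hω
        apply propext
        constructor
        · intro h4
          exact h4.2
        · intro h4
          refine ⟨?_, h4⟩
          have h5 : zt D (Wt t) (kz (T.z ω)) (ezA M (At t)) = 1 := h4
          show zi D (kz (T.z ω)) (ezA M (At t)) = 1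
          rw [zi_of hω (Wt t) _ (by rw [h5]; exact one_ne_zero)]
          exact h5
      have h4 := measureReal_inter_add_diff (μ := T.P)
        (s := {ω | zi D (kz (T.z ω)) (ezA M (At t)) = 1}) (hmzt (Wt t) (At t))
      rw [h3, h1] at h4
      linarith
    calc c ≤ T.P.real {ω | ∀ B ∈ br D (range (r * w)), zi D (kz (T.z ω)) (ezA M B) = 1} :=
          h (range (r * w))
      _ ≤ T.P.real ({ω | ∀ t < r, zt D (Wt t) (kz (T.z ω)) (ezA M (At t)) = 1} ∪
        ⋃ t ∈ range r, ({ω | zi D (kz (T.z ω)) (ezA M (At t)) = 1} \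
          {ω | zt D (Wt t) (kz (T.z ω)) (ezA M (At t)) = 1})) :=
          measureReal_mono hsub
      _ ≤ T.P.real {ω | ∀ t < r, zt D (Wt t) (kz (T.z ω)) (ezA M (At t)) = 1} +
          T.P.real (⋃ t ∈ range r, ({ω | zi D (kz (T.z ω)) (ezA M (At t)) = 1} \
          {ω | zt D (Wt t) (kz (T.z ω)) (ezA M (At t)) = 1})) := measureReal_union_le _ _
      _ ≤ pw' ^ r + ∑ t ∈ range r, (p - pw') := by
          apply add_le_add (le_of_eq (hI r))
          refine (measureReal_biUnion_finset_le _ _).trans ?_
          exact Finset.sum_le_sum fun t _ => hdiff t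
      _ = pw' ^ r + r * (p - pw') := by
          rw [Finset.sum_const, Finset.card_range, nsmul_eq_mul]
  -- limit `w → ∞`
  have hlim2 : Tendsto (fun n : ℕ =>
      T.P.real {ω | zt D (range n) (kz (T.z ω)) (ezA M (range A.card)) = 1}) atTop (nhds p) := by
    have := hlim (range A.card)
    rwa [hpos (range A.card) (by rw [Finset.card_range])] at this
  have hr : ∀ r : ℕ, c ≤ p ^ r := by
    intro r
    have h1 : Tendsto (fun n : ℕ =>
        T.P.real {ω | zt D (range n) (kz (T.z ω)) (ezA M (range A.card)) = 1} ^ r +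
        r * (p - T.P.real {ω | zt D (range n) (kz (T.z ω)) (ezA M (range A.card)) = 1})) atTop
        (nhds (p ^ r + r * (p - p))) :=
      (hlim2.pow r).add ((tendsto_const_nhds.sub hlim2).const_mul _)
    rw [sub_self, mul_zero, add_zero] at h1
    apply ge_of_tendsto h1
    filter_upwards [eventually_ge_atTop A.card] with n hn
    exact hmain n r hn
  have hpone : p = 1 := by
    by_contra hne
    have hlt : p < 1 := lt_of_le_of_ne hp1 hne
    have h1 := tendsto_pow_atTop_nhds_zero_of_lt_one hp0 hlt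
    have h2 : c ≤ 0 := ge_of_tendsto' h1 hr
    linarith
  have hae : ∀ᵐ ω ∂T.P, zi D (kz (T.z ω)) (ezA M A) = 1 := by
    have h1 : T.P {ω | zi D (kz (T.z ω)) (ezA M A) = 1} = 1 := by
      have h2 : (T.P {ω | zi D (kz (T.z ω)) (ezA M A) = 1}).toReal = 1 := hpone
      rw [← ENNReal.toReal_one] at h2
      exact (ENNReal.toReal_eq_toReal_iff' (measure_ne_top _ _) ENNReal.one_ne_top).mp h2
    exact (prob_compl_eq_zero_iff (hmzi A)).mpr h1
  filter_upwards [hae] with ω hω _ _
  exact hω

end Pool.Agent.Lib.MP_90b327_co.RS
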