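import Mathlib
import Pool.Agent.Lib.MP_90b327_co.RS.RDef
import Pool.Agent.Lib.MP_90b327_co.RS.LaLb
import Pool.Agent.Lib.MP_90b327_co.RS.ZiA
import Pool.Agent.Lib.MP_90b327_co.RS.PchPd
import Pool.Agent.Lib.MP_90b327_co.RS.ClBr

/-!
MODULE PhiVal (35 minutes, old scale). Values of `phi` (text 10).

PROOF. `phi_ag`: `la D (ag k g) = iv (br D g) = iv (br D g) - iv ∅`, `lb D Q (ag k g) = Q(|g|) • iv (br D g)`. For `g = range n`: `zi (iv (br D (range n))) = z_n` if `‖z_n‖ = 1`, else `0` (`zi_iv`, `kz (T.z ω) ∅ (br D (range n)) = zn T n ω` by `cl_empty`, `cl_br`). If `‖z_n‖ = 1`: `psi = 1 * z_n ^ Q(n)` (`pch_zpow`); otherwise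
`‖zi (la ..)‖ = 0` and `psi = 0`. `mm_phi` follows (definition of `mm`, `card_range`).
-/

set_option autoImplicit false

namespace Pool.Agent.Lib.MP_90b327_co.RS

open Finset MeasureTheory Filter Pool.Agent.Lib.MP_90b327_co Pool.Agent.Lib.MP_90b327_co.RB
  Pool.Agent.Lib.MP_90b327_co.WW

private theorem PhiVal_iv_empty : iv ∅ = 0 := by
  unfold iv
  exact Finset.sum_empty

theorem phi_ag {D : ℕ} (hD : 1 ≤ D) (Q : Polynomial ℤ) (T : CS D) (hst : StAE T) (k : ℕ)
    (hk : D + Q.natDegree ≤ k) (n : ℕ) : phi Q T (ag k (range n)) = mu Q T n := by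
  unfold phi mu
  apply integral_congr_ae
  filter_upwards [hst] with ω hω
  have hk1 : D ≤ k := by omega
  have h1 : zi D (kz (T.z ω)) (iv (br D (range n))) =
      if ‖zn T n ω‖ = 1 then zn T n ω else 0 := by
    have h2 := zi_iv hω ∅ (br D (range n)) (by intro A hA; simp at hA) (br_va D _)
    rw [PhiVal_iv_empty, sub_zero] at h2
    have h3 : kz (T.z ω) ∅ (br D (range n)) = zn T n ω := by
      unfold kz zn
      rw [cl_empty, cl_br hD]
    rw [h3] at h2
    exact h2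
  unfold psi
  rw [la_ag D k hk1, lb_ag D Q k hk, Finset.card_range, h1]
  by_cases hn : ‖zn T n ω‖ = 1
  · rw [if_pos hn, if_pos hn]
    have hne : zi D (kz (T.z ω)) (iv (br D (range n))) ≠ 0 := by
      rw [h1, if_pos hn]
      intro h0
      rw [h0, norm_zero] at hn
      exact zero_ne_one hn
    rw [pch_zpow (zi_pch hω) _ hne, h1, if_pos hn, hn]
    simp
  · rw [if_neg hn, if_neg hn, norm_zero]
    simp

theorem mm_phi {D : ℕ} (hD : 1 ≤ D) (Q : Polynomial ℤ) (T : CS D) (hst : StAE T) (k : ℕ)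
    (hk : D + Q.natDegree ≤ k) (N l : ℕ) :
    mm k N l (phi Q T) = (∑ i ∈ range l, mu Q T (N * (i + 1))) / l := by
  unfold mm
  congr 1
  exact Finset.sum_congr rfl fun i _ => phi_ag hD Q T hst k hk _

end Pool.Agent.Lib.MP_90b327_co.RS
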