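import Mathlib
import Pool.Agent.Lib.MP_90b327_co.RS.RDef
import Pool.Agent.Lib.MP_90b327_co.RS.EndZ
import Pool.Agent.Lib.MP_90b327_co.RS.PhiVal
import Pool.Agent.Lib.MP_90b327_co.RS.PchPd
import Pool.Agent.Lib.MP_90b327_co.RS.ZiA
import Pool.Agent.Lib.MP_90b327_co.RS.ClBr

/-!
MODULE EndM (30 minutes, old scale). All means are non-negative in the torsion case (text 10).

PROOF. A.e. on `‖z_n‖ = 1`: `zi (iv (br D (range n))) = z_n` (`zi_iv` with `u = ∅`), so `z_n ^ Q(n) = zi (Q(n) • iv (br D (range n)))` (`pch_zpow`) `= ∏_A zi (Q(n) • 1_A) = 1`, since `M ∣ Q(n)` and `zi (M • 1_A) = 1` for `A ∈ br D (range n)` (`PCh.add`, all values are `1`). So the integrand of `mu` is the indicator of `‖z_n‖ = 1`.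
-/

set_option autoImplicit false

namespace Pool.Agent.Lib.MP_90b327_co.RS

open Finset MeasureTheory Filter Pool.Agent.Lib.MP_90b327_co Pool.Agent.Lib.MP_90b327_co.RB
  Pool.Agent.Lib.MP_90b327_co.WW

private theorem em_sum {f : GG → ℂ} (hf : PCh f) (g : Finset ℕ → GG) (s : Cn)
    (h : ∀ A ∈ s, f (g A) = 1) : f (∑ A ∈ s, g A) = 1 := by
  classical
  induction s using Finset.induction_on with
  | empty => rw [Finset.sum_empty, hf.zero]
  | insert A s hA ih =>
    rw [Finset.sum_insert hA]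
    have h1 := h A (Finset.mem_insert_self _ _)
    have h2 := ih (fun B hB => h B (Finset.mem_insert_of_mem hB))
    rw [hf.add _ _ (by rw [h1]; exact one_ne_zero) (by rw [h2]; exact one_ne_zero), h1, h2, one_mul]

theorem end_m {D : ℕ} (hD : 1 ≤ D) (Q : Polynomial ℤ) (T : CS D) (hst : StAE T) (M : ℕ)
    (h : ∀ᵐ ω ∂T.P, ∀ A : Finset ℕ, A.Nonempty → A.card ≤ D →
      zi D (kz (T.z ω)) ((M : ℤ) • Finsupp.single A 1) = 1) (n : ℕ)
    (hn : (M : ℤ) ∣ Q.eval (n : ℤ)) : 0 ≤ (mu Q T n).re := by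
  classical
  have key : ∀ᵐ ω ∂T.P, (if ‖zn T n ω‖ = 1 then zn T n ω ^ (Q.eval (n : ℤ)) else 0) =
      (((if ‖zn T n ω‖ = 1 then (1 : ℝ) else 0) : ℝ) : ℂ) := by
    filter_upwards [hst, h] with ω hk hA
    by_cases hz : ‖zn T n ω‖ = 1
    · rw [if_pos hz, if_pos hz]
      have e1 : kz (T.z ω) ∅ (br D (range n)) = zn T n ω := by
        unfold kz zn
        rw [cl_empty, cl_br hD]
      have e2 := zi_iv hk ∅ (br D (range n)) (by intro A hA; simp at hA) (br_va D _)
      have e3 : iv ∅ = 0 := by unfold iv; rw [Finset.sum_empty]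
      rw [e3, sub_zero, e1, if_pos hz] at e2
      have hne : zi D (kz (T.z ω)) (iv (br D (range n))) ≠ 0 := by
        rw [e2]
        intro h0
        rw [h0, norm_zero] at hz
        exact zero_ne_one hz
      have e4 := pch_zpow (zi_pch hk) _ hne (Q.eval (n : ℤ))
      rw [e2] at e4
      rw [← e4]
      obtain ⟨m, hm⟩ := hn
      have e5 : Q.eval (n : ℤ) • iv (br D (range n)) =
          ∑ A ∈ br D (range n), m • ((M : ℤ) • (Finsupp.single A 1 : GG)) := by
        unfold iv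
        rw [Finset.smul_sum]
        refine Finset.sum_congr rfl fun A _ => ?_
        rw [smul_smul, hm, mul_comm]
      rw [e5]
      rw [em_sum (zi_pch hk)]
      · simp
      · intro A hA2
        have h1 := ((br_mem _ A).1 hA2).2
        have h2 := hA A h1.1 h1.2
        rw [pch_zpow (zi_pch hk) _ (by rw [h2]; exact one_ne_zero) m, h2, one_zpow]
    · rw [if_neg hz, if_neg hz, Complex.ofReal_zero]
  unfold mu
  have e : ∫ ω, (if ‖zn T n ω‖ = 1 then zn T n ω ^ (Q.eval (n : ℤ)) else 0) ∂T.P =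
      ∫ ω, (((if ‖zn T n ω‖ = 1 then (1 : ℝ) else 0) : ℝ) : ℂ) ∂T.P := integral_congr_ae key
  have e' : ∫ ω, (((if ‖zn T n ω‖ = 1 then (1 : ℝ) else 0) : ℝ) : ℂ) ∂T.P =
      ((∫ ω, (if ‖zn T n ω‖ = 1 then (1 : ℝ) else 0) ∂T.P : ℝ) : ℂ) := integral_ofReal
  rw [e, e', Complex.ofReal_re]
  refine integral_nonneg (fun ω => ?_)
  dsimp only [Pi.zero_apply]
  split_ifs
  · exact zero_le_one
  · exact le_rfl

end Pool.Agent.Lib.MP_90b327_co.RS
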