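import Mathlib
import Pool.Agent.Lib.MP_90b327_co.RS.RDef
import Pool.Agent.Lib.MP_90b327_co.WW.CkDist

/-!
MODULE SqK (35 minutes, old scale). The square of the modulus of a kernel is a kernel (text 4).

PROOF. `one`, `herm` clear, `rem` from `hk.rem`. `psd`: for a finite type `ι` and `X : ι → Co D` the matrices `A i j = k (X i) (X j)` and `B i j = conj (k (X i) (X j))` are positive semidefinite
(`Matrix.PosSemidef`: hermitian by `hk.herm`, quadratic form real (hermitian) and `≥ 0` by `hk.psd`; for `B` conjugate the coefficients), so is `Matrix.hadamard A B` (`Matrix.PosSemidef.hadamard`,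
Mathlib.Analysis.Matrix.Order).
-/

set_option autoImplicit false

namespace Pool.Agent.Lib.MP_90b327_co.RS

open Finset MeasureTheory Filter Pool.Agent.Lib.MP_90b327_co Pool.Agent.Lib.MP_90b327_co.RB
  Pool.Agent.Lib.MP_90b327_co.WW

open scoped ComplexOrder in
/-- a hermitian matrix with quadratic form of non-negative real part is positive semidefinite -/
private theorem sqk_psd {ι : Type} [Fintype ι] (A : Matrix ι ι ℂ) (hA : ∀ i j, A j i = (starRingEnd ℂ) (A i j))
    (h : ∀ c : ι → ℂ, 0 ≤ (∑ i, ∑ j, (starRingEnd ℂ) (c i) * c j * A i j).re) : A.PosSemidef := by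
  refine Matrix.PosSemidef.of_dotProduct_mulVec_nonneg ?_ fun x => ?_
  · ext i j
    rw [Matrix.conjTranspose_apply, hA j i]
    rfl
  · have e : dotProduct (star x) (A.mulVec x) = ∑ i, ∑ j, (starRingEnd ℂ) (x i) * x j * A i j := by
      unfold dotProduct Matrix.mulVec dotProduct
      refine Finset.sum_congr rfl fun i _ => ?_
      rw [Finset.mul_sum]
      refine Finset.sum_congr rfl fun j _ => ?_
      show (starRingEnd ℂ) (x i) * (A i j * x j) = _
      ring
    rw [e]
    have him : (starRingEnd ℂ) (∑ i, ∑ j, (starRingEnd ℂ) (x i) * x j * A i j) =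
        ∑ i, ∑ j, (starRingEnd ℂ) (x i) * x j * A i j := by
      rw [map_sum]
      have e2 : ∀ i, (starRingEnd ℂ) (∑ j, (starRingEnd ℂ) (x i) * x j * A i j) =
          ∑ j, (starRingEnd ℂ) (x j) * x i * A j i := by
        intro i
        rw [map_sum]
        refine Finset.sum_congr rfl fun j _ => ?_
        rw [map_mul, map_mul, Complex.conj_conj, ← hA i j]
        ring
      rw [Finset.sum_congr rfl fun i _ => e2 i]
      exact Finset.sum_comm
    rw [Complex.le_def]
    refine ⟨h x, ?_⟩
    have := Complex.conj_eq_iff_im.1 him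
    rw [this]
    rfl

open scoped ComplexOrder in
theorem ck_sq {D : ℕ} {k : Co D → Co D → ℂ} (hk : CK k) :
    CK (fun x y => k x y * (starRingEnd ℂ) (k x y)) := by
  refine ⟨fun x => ?_, fun x y => ?_, ?_, fun x y c h1 h2 h3 => ?_⟩
  · simp only [hk.one, map_one, mul_one]
  · simp only [map_mul, Complex.conj_conj, hk.herm x y]
  · intro ι _ X c
    have hA : (Matrix.of fun i j => k (X i) (X j)).PosSemidef := by
      refine sqk_psd _ (fun i j => ?_) fun c => ?_
      · simp only [Matrix.of_apply]
        exact hk.herm _ _
      · simp only [Matrix.of_apply]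
        exact hk.psd ι X c
    have hB : (Matrix.of fun i j => (starRingEnd ℂ) (k (X i) (X j))).PosSemidef := by
      refine sqk_psd _ (fun i j => ?_) fun c => ?_
      · simp only [Matrix.of_apply]
        rw [hk.herm (X i) (X j)]
      · simp only [Matrix.of_apply]
        have h := hk.psd ι X (fun i => (starRingEnd ℂ) (c i))
        rw [← Complex.conj_re, map_sum] at h
        refine h.trans (le_of_eq ?_)
        congr 1
        refine Finset.sum_congr rfl fun i _ => ?_
        rw [map_sum]
        refine Finset.sum_congr rfl fun j _ => ?_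
        simp only [map_mul, Complex.conj_conj]
    have hAB := (hA.hadamard hB).dotProduct_mulVec_nonneg c
    have e : dotProduct (star c) ((Matrix.hadamard (Matrix.of fun i j => k (X i) (X j))
        (Matrix.of fun i j => (starRingEnd ℂ) (k (X i) (X j)))).mulVec c) =
        ∑ i, ∑ j, (starRingEnd ℂ) (c i) * c j * (k (X i) (X j) * (starRingEnd ℂ) (k (X i) (X j))) := by
      unfold dotProduct Matrix.mulVec dotProduct
      refine Finset.sum_congr rfl fun i _ => ?_
      rw [Finset.mul_sum]
      refine Finset.sum_congr rfl fun j _ => ?_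
      show (starRingEnd ℂ) (c i) * (k (X i) (X j) * (starRingEnd ℂ) (k (X i) (X j)) * c j) = _
      ring
    rw [e, Complex.le_def] at hAB
    exact hAB.1
  · simp only [hk.rem x y c h1 h2 h3]

end Pool.Agent.Lib.MP_90b327_co.RS
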