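import Mathlib
import Pool.Agent.Lib.MP_90b327_co.RS.RDef
import Pool.Agent.Lib.MP_90b327_co.RS.SqK

/-!
MODULE SqT (25 minutes, old scale). The square of the modulus of a column space.

PROOF. `ck`: `ck_sq`. `meas`: product of measurable functions. `law`: the map `Z ω i = z z̄` is the composition of `fun ω i => T.z ω (x i) (y i)` with the measurable map `u ↦ fun i => u i * conj (u i)`:
`Measure.map_map` and `T.law`.
-/

set_option autoImplicit false

namespace Pool.Agent.Lib.MP_90b327_co.RS

open Finset MeasureTheory Filter Pool.Agent.Lib.MP_90b327_co Pool.Agent.Lib.MP_90b327_co.RB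
  Pool.Agent.Lib.MP_90b327_co.WW

theorem law_sq {D : ℕ} (T : CS D) (ι : Type) [Fintype ι] (x y : ι → Co D) (σ : ℕ → ℕ)
    (hσ : Function.Injective σ) :
    T.P.map (fun ω i => T.z ω (mv σ (x i)) (mv σ (y i)) *
        (starRingEnd ℂ) (T.z ω (mv σ (x i)) (mv σ (y i)))) =
      T.P.map (fun ω i => T.z ω (x i) (y i) * (starRingEnd ℂ) (T.z ω (x i) (y i))) := by
  have hg : Measurable (fun u : ι → ℂ => fun i => u i * (starRingEnd ℂ) (u i)) := by
    refine measurable_pi_lambda _ (fun i => ?_)
    exact (measurable_pi_apply i).mul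
      (Complex.continuous_conj.measurable.comp (measurable_pi_apply i))
  have h1 : Measurable (fun ω => fun i : ι => T.z ω (mv σ (x i)) (mv σ (y i))) :=
    measurable_pi_lambda _ (fun i => T.meas _ _)
  have h2 : Measurable (fun ω => fun i : ι => T.z ω (x i) (y i)) :=
    measurable_pi_lambda _ (fun i => T.meas _ _)
  have e1 := Measure.map_map (μ := T.P) hg h1
  have e2 := Measure.map_map (μ := T.P) hg h2
  have hl := T.law ι x y σ hσ
  rw [hl] at e1
  exact e1.symm.trans e2

/-- the column space of `|z|²` -/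
noncomputable def sqT {D : ℕ} (T : CS D) : CS D where
  Ω := T.Ω
  mΩ := T.mΩ
  P := T.P
  prob := T.prob
  z := fun ω x y => T.z ω x y * (starRingEnd ℂ) (T.z ω x y)
  ck := fun ω => ck_sq (T.ck ω)
  meas := fun x y => (T.meas x y).mul (Complex.continuous_conj.measurable.comp (T.meas x y))
  law := fun ι _ x y σ hσ => law_sq T ι x y σ hσ

end Pool.Agent.Lib.MP_90b327_co.RS
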