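import Mathlib
import Pool.Agent.Lib.MP_90b327_co.RS.RDef
import Pool.Agent.Lib.MP_90b327_co.NS.AvA

/-!
MODULE TkLow (20 minutes, old scale). Lower bound for `Tk` near one (text 4).

PROOF. `Tk k x = ‖Av k x‖²` as `x ≠ 1`; `Av k x = (1/k) ∑_{1 ≤ b ≤ k} x^b ≥ x^k ≥ (1 - 1/k)^k ≥ 1/4` for `k ≥ 2`: `(1 - 1/k)^k` is increasing; or elementary: for `k = 2 m`, `(1 - 1/k)^m ≥ 1 - m/k = 1/2`
(Bernoulli `one_add_mul_le_pow`), and for odd `k = 2 m + 1`, `m ≥ 1`: `(1 - 1/k)^k ≥ (1 - m/k)(1 - (m+1)/k) = (m+1) m / k² = (k² - 1)/(4 k²) ≥ 2/9`. (So use the bound `1/5` if you prefer; the claim `1/25` is enough.)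
-/

set_option autoImplicit false

namespace Pool.Agent.Lib.MP_90b327_co.RS

open Finset MeasureTheory Filter Pool.Agent.Lib.MP_90b327_co Pool.Agent.Lib.MP_90b327_co.RB
  Pool.Agent.Lib.MP_90b327_co.WW

/-- Bernoulli twice: the `k`-th power of `1 - 1/k` is at least `1/5` -/
private lemma pow_low (k : ℕ) (hk : 2 ≤ k) : (1 : ℝ) / 5 ≤ (1 - 1 / (k : ℝ)) ^ k := by
  have hk0 : (0 : ℝ) < k := by
    have : 0 < k := by omega
    exact_mod_cast this
  have hk2 : (2 : ℝ) ≤ k := by exact_mod_cast hk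
  have hq : (-2 : ℝ) ≤ -(1 / (k : ℝ)) := by
    have : 1 / (k : ℝ) ≤ 1 := by
      rw [div_le_one hk0]; linarith
    linarith
  have key : ∀ m : ℕ, 1 - (m : ℝ) / k ≤ (1 - 1 / (k : ℝ)) ^ m := by
    intro m
    have h := one_add_mul_le_pow hq m
    have e1 : 1 + (m : ℝ) * -(1 / (k : ℝ)) = 1 - (m : ℝ) / k := by
      field_simp
      ring
    have e2 : (1 : ℝ) + -(1 / (k : ℝ)) = 1 - 1 / (k : ℝ) := by ring
    rw [e1, e2] at h
    exact h
  obtain ⟨m, hm⟩ := Nat.even_or_odd' k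
  rcases hm with hm | hm
  · have h1 := key m
    have e : (1 : ℝ) - (m : ℝ) / k = 1 / 2 := by
      have hm' : (k : ℝ) = 2 * m := by exact_mod_cast hm
      have hm0 : (m : ℝ) ≠ 0 := by
        intro h
        rw [hm', h] at hk0
        simp at hk0
      rw [hm']
      field_simp
      ring
    rw [e] at h1
    have e3 : (1 - 1 / (k : ℝ)) ^ k = ((1 - 1 / (k : ℝ)) ^ m) * ((1 - 1 / (k : ℝ)) ^ m) := by
      rw [← pow_add]
      congr 1
      omega
    rw [e3]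
    nlinarith
  · have h1 := key m
    have h2 := key (m + 1)
    have hm' : (k : ℝ) = 2 * m + 1 := by exact_mod_cast hm
    have hm1 : (1 : ℝ) ≤ m := by
      have : 1 ≤ m := by omega
      exact_mod_cast this
    have e3 : (1 - 1 / (k : ℝ)) ^ k = ((1 - 1 / (k : ℝ)) ^ m) * ((1 - 1 / (k : ℝ)) ^ (m + 1)) := by
      rw [← pow_add]
      congr 1
      omega
    have p1 : (0 : ℝ) ≤ 1 - (m : ℝ) / k := by
      rw [sub_nonneg, div_le_one hk0]
      linarith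
    have p2 : (0 : ℝ) ≤ 1 - ((m + 1 : ℕ) : ℝ) / k := by
      rw [sub_nonneg, div_le_one hk0]
      push_cast
      linarith
    have h3 : (1 - (m : ℝ) / k) * (1 - ((m + 1 : ℕ) : ℝ) / k) ≤
        ((1 - 1 / (k : ℝ)) ^ m) * ((1 - 1 / (k : ℝ)) ^ (m + 1)) :=
      mul_le_mul h1 h2 p2 (p1.trans h1)
    rw [e3]
    refine le_trans ?_ h3
    have e4 : (1 - (m : ℝ) / k) * (1 - ((m + 1 : ℕ) : ℝ) / k) =
        ((m : ℝ) + 1) * m / (2 * m + 1) ^ 2 := by
      rw [hm']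
      push_cast
      have : (2 * (m : ℝ) + 1) ≠ 0 := by positivity
      field_simp
      ring
    rw [e4, div_le_div_iff₀ (by norm_num) (by positivity)]
    nlinarith

theorem tk_low (k : ℕ) (hk : 2 ≤ k) (x : ℝ) (h1 : 1 - 1 / (k : ℝ) ≤ x) (h2 : x < 1) :
    1 / 25 ≤ NS.Tk k (x : ℂ) := by
  have hk0 : (0 : ℝ) < k := by
    have : 0 < k := by omega
    exact_mod_cast this
  have hk2 : (2 : ℝ) ≤ k := by exact_mod_cast hk
  have hx1 : (x : ℂ) ≠ 1 := by
    intro h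
    have : x = 1 := by exact_mod_cast h
    linarith
  have hq0 : (0 : ℝ) ≤ 1 - 1 / (k : ℝ) := by
    rw [sub_nonneg, div_le_one hk0]
    linarith
  have hx0 : (0 : ℝ) ≤ x := hq0.trans h1
  unfold NS.Tk
  rw [if_neg hx1]
  have hav : NS.Av k (x : ℂ) = (((∑ b ∈ range k, x ^ (b + 1)) / k : ℝ) : ℂ) := by
    unfold NS.Av
    push_cast
    rfl
  have hlow : (1 : ℝ) / 5 ≤ (∑ b ∈ range k, x ^ (b + 1)) / k := by
    have hp : (1 : ℝ) / 5 ≤ x ^ k := (pow_low k hk).trans (pow_le_pow_left₀ hq0 h1 k)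
    rw [le_div_iff₀ hk0]
    calc (1 : ℝ) / 5 * k ≤ x ^ k * k := mul_le_mul_of_nonneg_right hp hk0.le
      _ = ∑ b ∈ range k, x ^ k := by simp [mul_comm]
      _ ≤ ∑ b ∈ range k, x ^ (b + 1) := by
          refine Finset.sum_le_sum fun b hb => ?_
          have hb' := Finset.mem_range.1 hb
          exact pow_le_pow_of_le_one hx0 h2.le (by omega)
  rw [hav, Complex.norm_real, Real.norm_eq_abs, abs_of_nonneg (by linarith)]
  nlinarith

end Pool.Agent.Lib.MP_90b327_co.RS
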