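import Mathlib
import Pool.Agent.Lib.MP_90b327_co.RS.RDef
import Pool.Agent.Lib.MP_90b327_co.RS.SqT
import Pool.Agent.Lib.MP_90b327_co.RS.TkLow
import Pool.Agent.Lib.MP_90b327_co.WW.Crit
import Pool.Agent.Lib.MP_90b327_co.WW.CkDist
import Pool.Agent.Lib.MP_90b327_co.NS.AvA

/-!
MODULE Small (60 minutes, old scale). The non-unimodular part is small on average (text 4).

PROOF. Let `e = ε / (100 q)`. `crit_mass hD (sqT T) e 2` gives `k ≥ 2` and `L` with `∑ a ∈ range l, ∫ Tk k ((sqT T).z ω ∅ (pw D (range (a + 1)))) ≤ e l` for `l ≥ L`. Here `(sqT T).z ω ∅ X = ‖z‖²` (`z * conj z = ‖z‖²` as a complex number,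
`Complex.mul_conj`, `Complex.normSq_eq_norm_sq`). For `n = q (i + 1)`, `z = z_n`: if `‖z‖ ≠ 1` then either `‖z‖² ≥ 1 - 1/k` and `‖z‖ ^ F n ≤ 1 ≤ 25 Tk k (‖z‖²)` (`tk_low`), or `‖z‖² < 1 - 1/k` and
`‖z‖ ^ F n ≤ s ^ F n`, `s = sqrt (1 - 1/k) < 1`. So the integrand is `≤ 25 Tk k (‖z_n‖²) + s ^ F n`. Sum over `i < R`: `∑ i < R, ∫ Tk k (‖z_(q(i+1))‖²) ≤ ∑ a ∈ range (q R), ∫ Tk k (..a + 1..) ≤ e q R` if `q R ≥ L` (the terms are
`≥ 0`; `a + 1 = q (i + 1)` are distinct), so `25 e q R ≤ ε R / 4`. `s ^ F (q (i + 1)) → 0` (`hF`), so `∑ i < R, s ^ F (q (i + 1)) ≤ ε R / 2` for large `R` (Cesaro: `Filter.Tendsto.cesaro`).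
-/

set_option autoImplicit false

namespace Pool.Agent.Lib.MP_90b327_co.RS

open Finset MeasureTheory Filter Pool.Agent.Lib.MP_90b327_co Pool.Agent.Lib.MP_90b327_co.RB
  Pool.Agent.Lib.MP_90b327_co.WW

private theorem small_pt {D : ℕ} (T : CS D) (F : ℕ → ℕ) (k : ℕ) (hk : 2 ≤ k) (n : ℕ) (ω : T.Ω) :
    (if ‖zn T n ω‖ = 1 then 0 else ‖zn T n ω‖ ^ F n) ≤
      25 * NS.Tk k ((sqT T).z ω ∅ (pw D (range n))) + √(1 - 1 / (k : ℝ)) ^ F n := by
  have hz : ‖zn T n ω‖ ≤ 1 := ck_norm (T.ck ω) _ _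
  have hsq : (sqT T).z ω ∅ (pw D (range n)) = ((‖zn T n ω‖ ^ 2 : ℝ) : ℂ) := by
    show zn T n ω * (starRingEnd ℂ) (zn T n ω) = _
    rw [Complex.mul_conj, Complex.normSq_eq_norm_sq]
  have ht := NS.tk_nonneg k ((sqT T).z ω ∅ (pw D (range n)))
  have hs : 0 ≤ √(1 - 1 / (k : ℝ)) ^ F n := pow_nonneg (Real.sqrt_nonneg _) _
  split_ifs with h
  · linarith
  · have hlt : ‖zn T n ω‖ < 1 := lt_of_le_of_ne hz h
    have h0 := norm_nonneg (zn T n ω)
    by_cases h1 : 1 - 1 / (k : ℝ) ≤ ‖zn T n ω‖ ^ 2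
    · have h2 : ‖zn T n ω‖ ^ 2 < 1 := by nlinarith
      have h3 := tk_low k hk _ h1 h2
      rw [← hsq] at h3
      have h4 : ‖zn T n ω‖ ^ F n ≤ 1 := pow_le_one₀ h0 hz
      linarith
    · have h2 : ‖zn T n ω‖ ≤ √(1 - 1 / (k : ℝ)) := Real.le_sqrt_of_sq_le (not_le.1 h1).le
      have h3 := pow_le_pow_left₀ h0 h2 (F n)
      linarith

private theorem small_int {D : ℕ} (T : CS D) (F : ℕ → ℕ) (k : ℕ) (hk : 2 ≤ k) (n : ℕ) :
    ∫ ω, (if ‖zn T n ω‖ = 1 then 0 else ‖zn T n ω‖ ^ F n) ∂T.P ≤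
      25 * ∫ ω : T.Ω, NS.Tk k ((sqT T).z ω ∅ (pw D (range n))) ∂T.P +
        √(1 - 1 / (k : ℝ)) ^ F n := by
  have hi : Integrable (fun ω : T.Ω => NS.Tk k ((sqT T).z ω ∅ (pw D (range n)))) T.P := by
    refine Integrable.of_bound (C := 1) ?_ (ae_of_all _ fun ω => ?_)
    · exact ((NS.tk_meas k).comp ((sqT T).meas ∅ (pw D (range n)))).aestronglyMeasurable
    · rw [Real.norm_eq_abs, abs_of_nonneg (NS.tk_nonneg _ _)]
      exact NS.tk_le_one _ _ (ck_norm ((sqT T).ck ω) _ _)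
  have h1 : ∫ ω, (if ‖zn T n ω‖ = 1 then 0 else ‖zn T n ω‖ ^ F n) ∂T.P ≤
      ∫ ω : T.Ω, (25 * NS.Tk k ((sqT T).z ω ∅ (pw D (range n))) + √(1 - 1 / (k : ℝ)) ^ F n) ∂T.P := by
    refine integral_mono_of_nonneg (ae_of_all _ fun ω => ?_)
      ((hi.const_mul 25).add (integrable_const _)) (ae_of_all _ fun ω => small_pt T F k hk n ω)
    show (0 : ℝ) ≤ (if ‖zn T n ω‖ = 1 then 0 else ‖zn T n ω‖ ^ F n)
    split_ifs
    · exact le_rfl
    · positivity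
  refine h1.trans (le_of_eq ?_)
  rw [integral_add (hi.const_mul 25) (integrable_const _), integral_const_mul, integral_const,
    probReal_univ, one_smul]

theorem small {D : ℕ} (hD : 1 ≤ D) (T : CS D) (F : ℕ → ℕ) (hF : Tendsto F atTop atTop) (q : ℕ)
    (hq : 1 ≤ q) (ε : ℝ) (hε : 0 < ε) : ∃ R₀ : ℕ, ∀ R, R₀ ≤ R →
      ∑ i ∈ range R, ∫ ω, (if ‖zn T (q * (i + 1)) ω‖ = 1 then 0
        else ‖zn T (q * (i + 1)) ω‖ ^ F (q * (i + 1))) ∂T.P ≤ ε * R := by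
  have hq0 : (0 : ℝ) < q := by exact_mod_cast hq
  obtain ⟨k, hk2, hk1, L, hL⟩ := crit_mass hD (sqT T) (ε / (100 * q)) (by positivity) 2
  obtain ⟨g, hg⟩ : ∃ g : ℕ → ℝ, ∀ a, g a =
      ∫ ω : T.Ω, NS.Tk k ((sqT T).z ω ∅ (pw D (range (a + 1)))) ∂T.P := ⟨_, fun _ => rfl⟩
  have hL' : ∀ l, L ≤ l → ∑ a ∈ range l, g a ≤ ε / (100 * q) * l := by
    intro l hl
    refine le_trans (le_of_eq ?_) (hL l hl)
    exact Finset.sum_congr rfl fun a _ => hg a
  have hg0 : ∀ a, 0 ≤ g a := fun a => by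
    rw [hg]
    exact integral_nonneg fun ω => NS.tk_nonneg _ _
  obtain ⟨s, hs⟩ : ∃ s : ℝ, s = √(1 - 1 / (k : ℝ)) := ⟨_, rfl⟩
  have hk0 : (0 : ℝ) < k := by
    have : 0 < k := by omega
    exact_mod_cast this
  have hs0 : 0 ≤ s := by rw [hs]; exact Real.sqrt_nonneg _
  have hs1 : s < 1 := by
    rw [hs, Real.sqrt_lt' one_pos]
    have : 0 < 1 / (k : ℝ) := by positivity
    linarith
  have hmul : Tendsto (fun i : ℕ => q * (i + 1)) atTop atTop := by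
    refine tendsto_atTop_mono (fun i => ?_) tendsto_id
    show i ≤ q * (i + 1)
    nlinarith
  have hlim : Tendsto (fun i : ℕ => s ^ F (q * (i + 1))) atTop (nhds 0) :=
    (tendsto_pow_atTop_nhds_zero_of_lt_one hs0 hs1).comp (hF.comp hmul)
  have hces := hlim.cesaro
  obtain ⟨R1, hR1⟩ := (hces.eventually (gt_mem_nhds (half_pos hε))).exists_forall_of_atTop
  refine ⟨max R1 L, fun R hR => ?_⟩
  have hRL : L ≤ R := (le_max_right _ _).trans hR
  have hRR : R1 ≤ R := (le_max_left _ _).trans hR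
  have hR0 : (0 : ℝ) ≤ R := Nat.cast_nonneg R
  -- first part
  have hA : ∑ i ∈ range R, g (q * (i + 1) - 1) ≤ ∑ a ∈ range (q * R), g a := by
    have hinj : Set.InjOn (fun i : ℕ => q * (i + 1) - 1) (range R : Finset ℕ) := by
      intro a _ b _ hab
      have hab' : q * (a + 1) - 1 = q * (b + 1) - 1 := hab
      have h1 : 1 ≤ q * (a + 1) := Nat.mul_pos hq (Nat.succ_pos a)
      have h2 : 1 ≤ q * (b + 1) := Nat.mul_pos hq (Nat.succ_pos b)
      have h3 : q * (a + 1) = q * (b + 1) := by omega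
      have h4 := Nat.eq_of_mul_eq_mul_left hq h3
      omega
    rw [← Finset.sum_image (f := g) hinj]
    refine Finset.sum_le_sum_of_subset_of_nonneg ?_ fun a _ _ => hg0 a
    intro a ha
    obtain ⟨i, hi, rfl⟩ := Finset.mem_image.1 ha
    have hi' := Finset.mem_range.1 hi
    refine Finset.mem_range.2 ?_
    have h1 : q * (i + 1) ≤ q * R := Nat.mul_le_mul_left q hi'
    have h2 : 1 ≤ q * (i + 1) := Nat.mul_pos hq (Nat.succ_pos i)
    show q * (i + 1) - 1 < q * R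
    omega
  have hqR : L ≤ q * R := hRL.trans (Nat.le_mul_of_pos_left R hq)
  have hB := hL' (q * R) hqR
  have hB' : ε / (100 * q) * ((q * R : ℕ) : ℝ) = ε * R / 100 := by
    push_cast
    field_simp
  rw [hB'] at hB
  -- second part
  have hC : ∑ i ∈ range R, s ^ F (q * (i + 1)) ≤ ε / 2 * R := by
    rcases Nat.eq_zero_or_pos R with h0 | h0
    · subst h0
      simp
    · have h1 := hR1 R hRR
      have h2 : (0 : ℝ) < R := by exact_mod_cast h0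
      have h3 : (R : ℝ)⁻¹ * ∑ i ∈ range R, s ^ F (q * (i + 1)) < ε / 2 := h1
      rw [inv_mul_lt_iff₀ h2] at h3
      linarith
  calc ∑ i ∈ range R, ∫ ω, (if ‖zn T (q * (i + 1)) ω‖ = 1 then 0
        else ‖zn T (q * (i + 1)) ω‖ ^ F (q * (i + 1))) ∂T.P
      ≤ ∑ i ∈ range R, (25 * g (q * (i + 1) - 1) + s ^ F (q * (i + 1))) := by
        refine Finset.sum_le_sum fun i _ => ?_
        have h1 := small_int T F k hk2 (q * (i + 1))
        have h2 : 1 ≤ q * (i + 1) := Nat.mul_pos hq (Nat.succ_pos i)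
        have h3 : q * (i + 1) - 1 + 1 = q * (i + 1) := by omega
        rw [hg, h3, hs]
        exact h1
    _ = 25 * ∑ i ∈ range R, g (q * (i + 1) - 1) + ∑ i ∈ range R, s ^ F (q * (i + 1)) := by
        rw [Finset.sum_add_distrib, Finset.mul_sum]
    _ ≤ ε * R := by
        have h1 : 0 ≤ ε * R := mul_nonneg hε.le hR0
        nlinarith

end Pool.Agent.Lib.MP_90b327_co.RS
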