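import Mathlib
import Pool.Agent.Lib.MP_90b327_co.RS.RDef
import Pool.Agent.Lib.MP_90b327_co.RS.ClBr
import Pool.Agent.Lib.MP_90b327_co.WW.CkUnion

/-!
MODULE KnCk (40 minutes, old scale). The kernel on contents (text 6, (K2)).

PROOF. `one`, `herm`, `psd` from `hk` (composition with `cl D`). `rem`: `cl D (insert A x) = cl D x ∪ rg D A` and the same for `y`; `ck_union` (WW/CkUnion) with `u = rg D A`: for `c ∈ u`, `c'` with `Bel c c'`
(`A = range of c ⊆ range of c' =: B`): `c' ∈ cl D x` iff `B ∈ x` iff `B ∈ y` iff `c' ∈ cl D y` (`cl_mem`, hypothesis).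
-/

set_option autoImplicit false

namespace Pool.Agent.Lib.MP_90b327_co.RS

open Finset MeasureTheory Filter Pool.Agent.Lib.MP_90b327_co Pool.Agent.Lib.MP_90b327_co.RB
  Pool.Agent.Lib.MP_90b327_co.WW

theorem kn_ck {D : ℕ} {z : Co D → Co D → ℂ} (hk : CK z) : KN (kz z) where
  one := fun x => hk.one _
  herm := fun x y => hk.herm _ _
  psd := fun ι _ X c => hk.psd ι (fun i => cl D (X i)) c
  rem := by
    intro x y A _ _ h
    unfold kz
    rw [cl_insert, cl_insert]
    refine ck_union hk _ _ _ ?_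
    intro c hc c' hb
    rw [cl_mem, cl_mem]
    refine h _ ?_
    intro v hv
    obtain ⟨i, hi⟩ := (Finset.mem_filter.1 hc).2 v hv
    obtain ⟨j, hj⟩ := hb i
    rw [Finset.mem_image]
    exact ⟨j, Finset.mem_univ j, by rw [← hj, hi]⟩

end Pool.Agent.Lib.MP_90b327_co.RS
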