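import Mathlib
import Pool.Agent.Lib.MP_90b327_co.RS.RDef
import Pool.Agent.Lib.MP_90b327_co.WW.EfTk

/-!
MODULE StarEF (30 minutes, old scale). Exchangeable functionals for (STAR) (text 5).

PROOF. See WW/EfTk (`ef_tk`). `nonneg`, `le_one`, `meas` (the set `{‖z‖ = 1}` is measurable). `inv`: for `σ` injective fixing `g` pointwise and finite families `t i`, `S i`: the integrand `∏ i, H (t i) ((S i).image σ) ω` is a
measurable function (product over `i`) of the vector `fun i => T.z ω ∅ (mv σ (pw D (S' i)))`, `S' i = S i ∪ g` or `S i`, since `(S i).image σ ∪ g = (S i ∪ g).image σ` and `pw D (S.image σ) = mv σ (pw D S)`; also `mv σ ∅ = ∅`. Use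
`T.law` (`integral_map` twice).
-/

set_option autoImplicit false

namespace Pool.Agent.Lib.MP_90b327_co.RS

open Finset MeasureTheory Filter Pool.Agent.Lib.MP_90b327_co Pool.Agent.Lib.MP_90b327_co.RB
  Pool.Agent.Lib.MP_90b327_co.WW

/-- indicator of `‖z_S‖ = 1` -/
noncomputable def I1 {D : ℕ} (T : CS D) (S : Finset ℕ) (ω : T.Ω) : ℝ := by
  classical exact if ‖T.z ω ∅ (pw D S)‖ = 1 then 1 else 0

private theorem StarEF_pw {D : ℕ} (σ : ℕ → ℕ) (S : Finset ℕ) :
    pw D (S.image σ) = mv σ (pw D S) := by
  ext c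
  unfold pw mv
  rw [Fintype.mem_piFinset, Finset.mem_image]
  constructor
  · intro hc
    choose c' hc' using fun j => Finset.mem_image.1 (hc j)
    refine ⟨c', ?_, ?_⟩
    · rw [Fintype.mem_piFinset]
      exact fun j => (hc' j).1
    · funext j
      exact (hc' j).2
  · rintro ⟨c', hc', rfl⟩ j
    rw [Fintype.mem_piFinset] at hc'
    exact Finset.mem_image_of_mem σ (hc' j)

private theorem StarEF_empty {D : ℕ} (σ : ℕ → ℕ) : mv σ (∅ : Co D) = ∅ := by
  unfold mv
  exact Finset.image_empty _

open Classical in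
private noncomputable def StarEF_f (u : ℂ) : ℝ := if ‖u‖ = 1 then 1 else 0

private theorem StarEF_fm : Measurable StarEF_f := by
  unfold StarEF_f
  exact Measurable.ite (measurable_norm (measurableSet_singleton 1)) measurable_const
    measurable_const

private theorem StarEF_I1 {D : ℕ} (T : CS D) (S : Finset ℕ) (ω : T.Ω) :
    I1 T S ω = StarEF_f (T.z ω ∅ (pw D S)) := by
  unfold I1 StarEF_f
  rfl

private theorem StarEF_I1m {D : ℕ} (T : CS D) (S : Finset ℕ) : Measurable (I1 T S) := by
  have : I1 T S = fun ω => StarEF_f (T.z ω ∅ (pw D S)) := by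
    funext ω
    exact StarEF_I1 T S ω
  rw [this]
  exact StarEF_fm.comp (T.meas _ _)

theorem ef_star {D : ℕ} (T : CS D) (g : Finset ℕ) :
    EF T.P g (fun t S ω => if t = 0 then I1 T (S ∪ g) ω else I1 T S ω) where
  nonneg t S ω := by
    have h : ∀ S' : Finset ℕ, 0 ≤ I1 T S' ω := by
      intro S'
      rw [StarEF_I1]
      unfold StarEF_f
      split_ifs <;> norm_num
    split_ifs
    · exact h _
    · exact h _
  le_one t S ω := by
    have h : ∀ S' : Finset ℕ, I1 T S' ω ≤ 1 := by
      intro S'
      rw [StarEF_I1]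
      unfold StarEF_f
      split_ifs <;> norm_num
    split_ifs
    · exact h _
    · exact h _
  meas t S := by
    by_cases ht : t = 0
    · simp only [ht, if_true]
      exact StarEF_I1m T _
    · simp only [ht, if_false]
      exact StarEF_I1m T _
  inv := by
    intro σ hσ hσg ι _ t S _
    obtain ⟨S', hS'⟩ : ∃ S' : ι → Finset ℕ, S' = fun i => if t i = 0 then S i ∪ g else S i :=
      ⟨_, rfl⟩
    have hgg : g.image σ = g := by
      ext x
      rw [Finset.mem_image]
      constructor
      · rintro ⟨y, hy, rfl⟩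
        rw [hσg y hy]
        exact hy
      · intro hx
        exact ⟨x, hx, hσg x hx⟩
    obtain ⟨Φ, hΦ⟩ : ∃ Φ : (ι → ℂ) → ℝ, Φ = fun v => ∏ i, StarEF_f (v i) := ⟨_, rfl⟩
    have hΦm : Measurable Φ := by
      rw [hΦ]
      exact Finset.measurable_fun_prod _ fun i _ => StarEF_fm.comp (measurable_pi_apply i)
    have hlaw := T.law ι (fun _ => ∅) (fun i => pw D (S' i)) σ hσ
    have m1 : Measurable (fun ω i => T.z ω (mv σ ∅) (mv σ (pw D (S' i)))) :=
      measurable_pi_iff.2 fun i => T.meas _ _
    have m2 : Measurable (fun ω i => T.z ω ∅ (pw D (S' i))) :=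
      measurable_pi_iff.2 fun i => T.meas _ _
    have e1 : ∫ ω, ∏ i, (if t i = 0 then I1 T ((S i).image σ ∪ g) ω else I1 T ((S i).image σ) ω)
          ∂T.P = ∫ ω, Φ (fun i => T.z ω (mv σ ∅) (mv σ (pw D (S' i)))) ∂T.P := by
      refine integral_congr_ae (Filter.Eventually.of_forall fun ω => ?_)
      rw [hΦ]
      simp only
      refine Finset.prod_congr rfl fun i _ => ?_
      rw [← StarEF_pw, StarEF_empty, hS']
      by_cases ht : t i = 0
      · simp only [ht, if_true]
        rw [StarEF_I1, Finset.image_union, hgg]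
      · simp only [ht, if_false]
        rw [StarEF_I1]
    have e2 : ∫ ω, ∏ i, (if t i = 0 then I1 T (S i ∪ g) ω else I1 T (S i) ω) ∂T.P =
        ∫ ω, Φ (fun i => T.z ω ∅ (pw D (S' i))) ∂T.P := by
      refine integral_congr_ae (Filter.Eventually.of_forall fun ω => ?_)
      rw [hΦ]
      simp only
      refine Finset.prod_congr rfl fun i _ => ?_
      rw [hS']
      by_cases ht : t i = 0
      · simp only [ht, if_true]
        rw [StarEF_I1]
      · simp only [ht, if_false]
        rw [StarEF_I1]
    rw [e1, e2, ← integral_map m1.aemeasurable hΦm.aestronglyMeasurable,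
      ← integral_map m2.aemeasurable hΦm.aestronglyMeasurable]
    rw [hlaw]

end Pool.Agent.Lib.MP_90b327_co.RS
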