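import Mathlib
import Pool.Agent.Lib.MP_90b327_co.RS.RDef
import Pool.Agent.Lib.MP_90b327_co.RS.StarEF
import Pool.Agent.Lib.MP_90b327_co.WW.Samp
import Pool.Agent.Lib.MP_90b327_co.WW.EfEq

/-!
MODULE StarCov (45 minutes, old scale). Covariance of the indicators (text 5).

PROOF. `p = ∫ I1 T (range n)`; by exchangeability `∫ I1 T S = p` for every `S` with `|S| = n` (`ef_one` with `g = ∅`, or `T.law`). With `H` of `ef_star T.toCS g` (base set `g`): `samp` with `t = 0`, `t' = 1`, `S = B`, `y = g'`, `y''` (called `y'` there) a set of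
`n` fresh vertices, disjoint from `B`, `g`, `g'`: `|∫ I1 (B ∪ g) * I1 (B ∪ g') - ∫ I1 (B ∪ g) * I1 y''| ≤ 1 / sqrt m`. `B ∪ g` and `y''` are disjoint: `T.ind` with `ι = κ = Unit` (contents `∅`, `pw D (B ∪ g)` and `∅`, `pw D y''`), composed with
the measurable map `u ↦ if ‖u‖ = 1 then 1 else 0`: `IndepFun.integral_mul_eq_mul_integral` (or `IndepFun.integral_fun_mul_eq_mul_integral`), so the second integral is `p²`.
-/

set_option autoImplicit false

namespace Pool.Agent.Lib.MP_90b327_co.RS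

open Finset MeasureTheory Filter Pool.Agent.Lib.MP_90b327_co Pool.Agent.Lib.MP_90b327_co.RB
  Pool.Agent.Lib.MP_90b327_co.WW

theorem star_one {D : ℕ} (T : CS D) (S : Finset ℕ) :
    ∫ ω, I1 T S ω ∂T.P = ∫ ω, I1 T (range S.card) ω ∂T.P := by
  have h := ef_one (ef_star T ∅) 1 S (range S.card) (Finset.disjoint_empty_right _)
    (Finset.disjoint_empty_right _) (Finset.card_range _).symm
  simpa using h

open Classical in
private noncomputable def uu (u : ℂ) : ℝ := if ‖u‖ = 1 then 1 else 0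

private theorem uu_meas : Measurable uu := by
  unfold uu
  exact Measurable.ite (measurableSet_eq_fun measurable_norm measurable_const) measurable_const
    measurable_const

private theorem i1_eq {D : ℕ} (T : CS D) (S : Finset ℕ) (ω : T.Ω) :
    I1 T S ω = uu (T.z ω ∅ (pw D S)) := by
  unfold I1 uu
  rfl

private theorem star_ind {D : ℕ} (T : DS D) (V V' : Finset ℕ) (hV : Disjoint V V') :
    ∫ ω, I1 T.toCS V ω * I1 T.toCS V' ω ∂T.P =
      (∫ ω, I1 T.toCS V ω ∂T.P) * ∫ ω, I1 T.toCS V' ω ∂T.P := by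
  have h := T.ind Unit Unit (fun _ => ∅) (fun _ => pw D V) (fun _ => ∅) (fun _ => pw D V') V V' hV
    (fun _ => ⟨Finset.empty_subset _, Finset.Subset.refl _⟩)
    (fun _ => ⟨Finset.empty_subset _, Finset.Subset.refl _⟩)
  have hm : Measurable (fun v : Unit → ℂ => uu (v ())) := uu_meas.comp (measurable_pi_apply _)
  have h2 := h.comp hm hm
  have h3 := h2.integral_mul_eq_mul_integral
    ((uu_meas.comp (T.meas ∅ (pw D V))).aestronglyMeasurable)
    ((uu_meas.comp (T.meas ∅ (pw D V'))).aestronglyMeasurable)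
  simp only [i1_eq]
  exact h3

private theorem fresh (A : Finset ℕ) (n : ℕ) : ∃ y : Finset ℕ, Disjoint y A ∧ y.card = n := by
  refine ⟨Ico (A.sup id + 1) (A.sup id + 1 + n), ?_, by simp⟩
  rw [Finset.disjoint_left]
  intro x hx hxA
  have h1 : id x ≤ A.sup id := Finset.le_sup hxA
  rw [Finset.mem_Ico] at hx
  simp only [id] at h1
  omega

theorem star_cov {D : ℕ} (T : DS D) (B g g' : Finset ℕ) (hg : Disjoint g B) (hg' : Disjoint g' B)
    (hgg : Disjoint g g') (hc : g.card = g'.card) (m : ℕ) (hm : 1 ≤ m)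
    (hmB : m * B.card ≤ B.card + g.card) :
    ∫ ω, I1 T.toCS (B ∪ g) ω * I1 T.toCS (B ∪ g') ω ∂T.P ≤
      (∫ ω, I1 T.toCS (range (B.card + g.card)) ω ∂T.P) ^ 2 + 1 / Real.sqrt m := by
  obtain ⟨y, hy, hyc⟩ := fresh (B ∪ g) (B.card + g'.card)
  rw [Finset.disjoint_union_right] at hy
  have h := samp (ef_star T.toCS g) 0 1 m hm B g' y hg.symm hgg.symm hy.2 hg'.symm hy.1.symm hyc
    (by rw [← hc]; exact hmB)
  simp only [if_true, one_ne_zero, if_false] at h
  have h1 := (abs_le.1 h).2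
  have h2 := star_ind T (B ∪ g) y (by
    rw [Finset.disjoint_union_left]
    exact ⟨hy.1.symm, hy.2.symm⟩)
  rw [h2] at h1
  have h3 := star_one T.toCS (B ∪ g)
  have h4 := star_one T.toCS y
  rw [Finset.card_union_of_disjoint hg.symm] at h3
  rw [hyc, ← hc] at h4
  rw [h3, h4] at h1
  nlinarith [h1]

end Pool.Agent.Lib.MP_90b327_co.RS
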