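import Mathlib
import Pool.Agent.Lib.MP_90b327_co.RS.RDef
import Pool.Agent.Lib.MP_90b327_co.RS.StarCov
import Pool.Agent.Lib.MP_90b327_co.WW.CkDist

/-!
MODULE Star (50 minutes, old scale). (STAR) holds almost surely (text 5).

PROOF. It is enough, for fixed finite `B`, `F` (countably many pairs, `ae_all_iff`), that almost surely there is `g`. Let `E` be the event that there is none. For `m ≥ 1` choose `n` with `p_n ≥ ε` (`p_n = ∫ I1 (range n)` is the probability in `h`: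
`zn T n ω = T.z ω ∅ (pw D (range n))`), `n ≥ m² (|B| + 1)`, and `m` disjoint sets `g^1, .., g^m` of `n - |B| ≥ 1` vertices outside `B ∪ F` (e.g. intervals after `(B ∪ F).sup id`). Let `Z = (1/m) ∑ I1 (B ∪ g^i)`. `∫ Z = p_n`
(`star_one`), `∫ Z² ≤ 1/m + p_n² + 1/sqrt(m²) = p_n² + 2/m` (`star_cov` with `m²`, diagonal terms `≤ 1`). On `E` `Z = 0`, so `P(E) p_n² ≤ ∫ (Z - p_n)² = ∫ Z² - p_n² ≤ 2/m`, `P(E) ≤ 2/(m ε²)` (use `measure` of a measurable superset `{Z = 0}` of `E`). `m → ∞`.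
-/

set_option autoImplicit false

namespace Pool.Agent.Lib.MP_90b327_co.RS

open Finset MeasureTheory Filter Pool.Agent.Lib.MP_90b327_co Pool.Agent.Lib.MP_90b327_co.RB
  Pool.Agent.Lib.MP_90b327_co.WW

private theorem i1_meas {D : ℕ} (T : CS D) (S : Finset ℕ) : Measurable (I1 T S) := by
  unfold I1
  exact Measurable.ite (measurableSet_eq_fun ((T.meas ∅ (pw D S)).norm) measurable_const) measurable_const
    measurable_const

private theorem i1_nonneg {D : ℕ} (T : CS D) (S : Finset ℕ) (ω : T.Ω) : 0 ≤ I1 T S ω := by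
  unfold I1
  split_ifs <;> norm_num

private theorem i1_le {D : ℕ} (T : CS D) (S : Finset ℕ) (ω : T.Ω) : I1 T S ω ≤ 1 := by
  unfold I1
  split_ifs <;> norm_num

private theorem i1_int {D : ℕ} (T : CS D) (S : Finset ℕ) : Integrable (I1 T S) T.P :=
  Integrable.of_bound (i1_meas T S).aestronglyMeasurable 1 (Filter.Eventually.of_forall fun ω => by
    rw [Real.norm_eq_abs, abs_of_nonneg (i1_nonneg T S ω)]
    exact i1_le T S ω)

private theorem i1_int2 {D : ℕ} (T : CS D) (S S' : Finset ℕ) :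
    Integrable (fun ω => I1 T S ω * I1 T S' ω) T.P :=
  Integrable.of_bound ((i1_meas T S).mul (i1_meas T S')).aestronglyMeasurable 1
    (Filter.Eventually.of_forall fun ω => by
      rw [Real.norm_eq_abs, abs_of_nonneg (mul_nonneg (i1_nonneg T S ω) (i1_nonneg T S' ω))]
      exact mul_le_one₀ (i1_le T S ω) (i1_nonneg T S' ω) (i1_le T S' ω))

private theorem star_sum {D : ℕ} (T : DS D) (B : Finset ℕ) (g : ℕ → Finset ℕ) (a m : ℕ) (hm : 1 ≤ m)
    (hgB : ∀ i, Disjoint (g i) B) (hgg : ∀ i j, i ≠ j → Disjoint (g i) (g j))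
    (hc : ∀ i, (g i).card = a) (hmB : m ^ 2 * B.card ≤ B.card + a) (p : ℝ)
    (hp : p = ∫ ω, I1 T.toCS (range (B.card + a)) ω ∂T.P) :
    ∫ ω, (∑ i ∈ range m, I1 T.toCS (B ∪ g i) ω - m * p) ^ 2 ∂T.P ≤ 2 * m := by
  have hm0 : (0 : ℝ) < m := by exact_mod_cast hm
  have e1 : ∀ ω, (∑ i ∈ range m, I1 T.toCS (B ∪ g i) ω - m * p) ^ 2 =
      ∑ i ∈ range m, ∑ j ∈ range m, I1 T.toCS (B ∪ g i) ω * I1 T.toCS (B ∪ g j) ω -
        (2 * m * p * ∑ i ∈ range m, I1 T.toCS (B ∪ g i) ω - m ^ 2 * p ^ 2) := by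
    intro ω
    rw [← Finset.sum_mul_sum]
    ring
  have hone : ∀ i, ∫ ω, I1 T.toCS (B ∪ g i) ω ∂T.P = p := by
    intro i
    rw [star_one T.toCS (B ∪ g i), Finset.card_union_of_disjoint (hgB i).symm, hc i, hp]
  have hi2 : Integrable (fun ω => ∑ i ∈ range m, ∑ j ∈ range m, I1 T.toCS (B ∪ g i) ω * I1 T.toCS (B ∪ g j) ω) T.P :=
    integrable_finsetSum _ fun i _ => integrable_finsetSum _ fun j _ => i1_int2 _ _ _
  have hi1 : Integrable (fun ω => ∑ i ∈ range m, I1 T.toCS (B ∪ g i) ω) T.P :=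
    integrable_finsetSum _ fun i _ => i1_int _ _
  have hi3 : Integrable (fun ω => 2 * m * p * ∑ i ∈ range m, I1 T.toCS (B ∪ g i) ω) T.P := hi1.const_mul _
  have hi4 : Integrable (fun ω => 2 * m * p * ∑ i ∈ range m, I1 T.toCS (B ∪ g i) ω - m ^ 2 * p ^ 2) T.P :=
    hi3.sub (integrable_const _)
  have e2 : ∫ ω, (∑ i ∈ range m, I1 T.toCS (B ∪ g i) ω - m * p) ^ 2 ∂T.P =
      ∑ i ∈ range m, ∑ j ∈ range m, ∫ ω, I1 T.toCS (B ∪ g i) ω * I1 T.toCS (B ∪ g j) ω ∂T.P - m ^ 2 * p ^ 2 := by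
    rw [integral_congr_ae (Filter.Eventually.of_forall e1), integral_sub hi2 hi4,
      integral_sub hi3 (integrable_const _), integral_const_mul, integral_finsetSum _ (fun i _ => i1_int _ _),
      integral_finsetSum _ (fun i _ => integrable_finsetSum _ fun j _ => i1_int2 _ _ _)]
    rw [Finset.sum_congr rfl (fun i _ => hone i)]
    rw [Finset.sum_congr rfl (fun i _ => integral_finsetSum _ (fun j _ => i1_int2 T.toCS (B ∪ g i) (B ∪ g j)))]
    simp only [Finset.sum_const, Finset.card_range, nsmul_eq_mul, integral_const, probReal_univ, smul_eq_mul, one_mul]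
    ring
  rw [e2]
  have h3 : ∀ i ∈ range m, ∀ j ∈ range m, ∫ ω, I1 T.toCS (B ∪ g i) ω * I1 T.toCS (B ∪ g j) ω ∂T.P ≤
      (if i = j then (1 : ℝ) else 0) + (p ^ 2 + 1 / m) := by
    intro i _ j _
    have hpos : 0 ≤ p ^ 2 + 1 / (m : ℝ) := by positivity
    by_cases hij : i = j
    · rw [if_pos hij]
      have : ∫ ω, I1 T.toCS (B ∪ g i) ω * I1 T.toCS (B ∪ g j) ω ∂T.P ≤ ∫ _, (1 : ℝ) ∂T.P := by
        apply integral_mono (i1_int2 _ _ _) (integrable_const _)
        intro ω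
        exact mul_le_one₀ (i1_le _ _ ω) (i1_nonneg _ _ ω) (i1_le _ _ ω)
      rw [integral_const, probReal_univ, one_smul] at this
      linarith
    · rw [if_neg hij]
      have h4 := star_cov T B (g i) (g j) (hgB i) (hgB j) (hgg i j hij) (by rw [hc, hc]) (m ^ 2)
        (Nat.one_le_pow _ _ hm) (by rw [hc]; exact hmB)
      rw [hc, ← hp] at h4
      push_cast at h4
      rw [Real.sqrt_sq hm0.le] at h4
      linarith
  have h5 := Finset.sum_le_sum fun i hi => Finset.sum_le_sum (h3 i hi)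
  have h6 : ∑ i ∈ range m, ∑ j ∈ range m, ((if i = j then (1 : ℝ) else 0) + (p ^ 2 + 1 / m)) =
      m + m * (m * (p ^ 2 + 1 / m)) := by
    have : ∀ i ∈ range m, ∑ j ∈ range m, ((if i = j then (1 : ℝ) else 0) + (p ^ 2 + 1 / m)) =
        1 + m * (p ^ 2 + 1 / m) := by
      intro i hi
      rw [Finset.sum_add_distrib, Finset.sum_ite_eq, if_pos hi, Finset.sum_const, Finset.card_range,
        nsmul_eq_mul]
    rw [Finset.sum_congr rfl this, Finset.sum_const, Finset.card_range, nsmul_eq_mul]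
    ring
  rw [h6] at h5
  have h7 : (m : ℝ) + m * (m * (p ^ 2 + 1 / m)) = 2 * m + m ^ 2 * p ^ 2 := by
    field_simp
    ring
  rw [h7] at h5
  linarith

private theorem star_fix {D : ℕ} (T : DS D) (ε : ℝ) (hε : 0 < ε)
    (h : ∃ᶠ n in atTop, ε ≤ T.P.real {ω | ‖zn T.toCS n ω‖ = 1}) (B F : Finset ℕ) (m : ℕ) (hm : 1 ≤ m) :
    T.P.real {ω | ¬ ∃ g : Finset ℕ, g.Nonempty ∧ Disjoint g (B ∪ F) ∧ ‖T.z ω ∅ (pw D (B ∪ g))‖ = 1} ≤
      2 / (m * ε ^ 2) := by
  have hm0 : (0 : ℝ) < m := by exact_mod_cast hm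
  obtain ⟨n, hn, hp⟩ := (Filter.frequently_atTop.1 h) (m ^ 2 * (B.card + 1))
  obtain ⟨a, rfl⟩ : ∃ a, n = B.card + a := by
    refine ⟨n - B.card, ?_⟩
    have : 1 ≤ m ^ 2 := Nat.one_le_pow _ _ hm
    have : B.card + 1 ≤ m ^ 2 * (B.card + 1) := Nat.le_mul_of_pos_left _ this
    omega
  have ha : 1 ≤ a := by
    have : 1 ≤ m ^ 2 := Nat.one_le_pow _ _ hm
    have : B.card + 1 ≤ m ^ 2 * (B.card + 1) := Nat.le_mul_of_pos_left _ this
    omega
  set b : ℕ := (B ∪ F).sup id + 1 with hb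
  let g : ℕ → Finset ℕ := fun i => Ico (b + i * a) (b + (i + 1) * a)
  have hgc : ∀ i, (g i).card = a := by
    intro i
    show (Ico (b + i * a) (b + (i + 1) * a)).card = a
    rw [Nat.card_Ico]
    have : (i + 1) * a = i * a + a := by ring
    omega
  have hgBF : ∀ i, Disjoint (g i) (B ∪ F) := by
    intro i
    rw [Finset.disjoint_left]
    intro x hx hxA
    have h1 : id x ≤ (B ∪ F).sup id := Finset.le_sup hxA
    have h2 := (Finset.mem_Ico.1 hx).1
    simp only [id] at h1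
    omega
  have hgB : ∀ i, Disjoint (g i) B := fun i => (Finset.disjoint_union_right.1 (hgBF i)).1
  have hlt : ∀ i j, i < j → Disjoint (g i) (g j) := by
    intro i j hij
    rw [Finset.disjoint_left]
    intro x hx hx'
    have h1 := (Finset.mem_Ico.1 hx).2
    have h2 := (Finset.mem_Ico.1 hx').1
    have : (i + 1) * a ≤ j * a := Nat.mul_le_mul_right a hij
    omega
  have hgg : ∀ i j, i ≠ j → Disjoint (g i) (g j) := by
    intro i j hij
    rcases Nat.lt_or_gt_of_ne hij with h1 | h1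
    · exact hlt i j h1
    · exact (hlt j i h1).symm
  have hpe : T.P.real {ω | ‖zn T.toCS (B.card + a) ω‖ = 1} = ∫ ω, I1 T.toCS (range (B.card + a)) ω ∂T.P := by
    have hms : MeasurableSet {ω | ‖zn T.toCS (B.card + a) ω‖ = 1} :=
      measurableSet_eq_fun ((T.meas ∅ (pw D (range (B.card + a)))).norm) measurable_const
    rw [← integral_indicator_one hms]
    apply integral_congr_ae
    refine Filter.Eventually.of_forall fun ω => ?_
    show Set.indicator {ω | ‖zn T.toCS (B.card + a) ω‖ = 1} 1 ω = I1 T.toCS (range (B.card + a)) ω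
    unfold I1 zn
    rw [Set.indicator_apply]
    simp only [Set.mem_ofPred_eq, Pi.one_apply]
  rw [hpe] at hp
  have hsum := star_sum T B g a m hm hgB hgg hgc (by
    have : m ^ 2 * B.card ≤ m ^ 2 * (B.card + 1) := Nat.mul_le_mul_left _ (by omega)
    omega) _ rfl
  set p : ℝ := ∫ ω, I1 T.toCS (range (B.card + a)) ω ∂T.P with hpdef
  have hSm : Measurable (fun ω => ∑ i ∈ range m, I1 T.toCS (B ∪ g i) ω) :=
    Finset.measurable_fun_sum _ fun i _ => i1_meas _ _
  have hEm : MeasurableSet {ω | ∑ i ∈ range m, I1 T.toCS (B ∪ g i) ω = 0} :=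
    measurableSet_eq_fun hSm measurable_const
  have hsub : {ω | ¬ ∃ g : Finset ℕ, g.Nonempty ∧ Disjoint g (B ∪ F) ∧ ‖T.z ω ∅ (pw D (B ∪ g))‖ = 1} ⊆
      {ω | ∑ i ∈ range m, I1 T.toCS (B ∪ g i) ω = 0} := by
    intro ω hω
    apply Finset.sum_eq_zero
    intro i _
    unfold I1
    rw [if_neg]
    intro h1
    apply hω
    refine ⟨g i, ?_, hgBF i, h1⟩
    rw [← Finset.card_pos, hgc]
    exact ha
  have h8 : T.P.real {ω | ∑ i ∈ range m, I1 T.toCS (B ∪ g i) ω = 0} * (m * p) ^ 2 ≤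
      ∫ ω, (∑ i ∈ range m, I1 T.toCS (B ∪ g i) ω - m * p) ^ 2 ∂T.P := by
    rw [← smul_eq_mul, ← integral_indicator_const _ hEm]
    apply integral_mono
    · exact (integrable_const _).indicator hEm
    · refine Integrable.of_bound ((hSm.sub_const _).pow_const 2).aestronglyMeasurable ((m + |m * p|) ^ 2)
        (Filter.Eventually.of_forall fun ω => ?_)
      rw [Real.norm_eq_abs, abs_pow]
      apply pow_le_pow_left₀ (abs_nonneg _)
      refine (abs_sub _ _).trans (add_le_add ?_ le_rfl)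
      rw [abs_of_nonneg (Finset.sum_nonneg fun i _ => i1_nonneg _ _ ω)]
      refine (Finset.sum_le_sum fun i _ => i1_le _ _ ω).trans ?_
      simp
    · intro ω
      by_cases h9 : ω ∈ {ω | ∑ i ∈ range m, I1 T.toCS (B ∪ g i) ω = 0}
      · rw [Set.indicator_of_mem h9]
        have h10 : ∑ i ∈ range m, I1 T.toCS (B ∪ g i) ω = 0 := h9
        simp only [h10]
        apply le_of_eq
        ring
      · rw [Set.indicator_of_notMem h9]
        positivity
  have h11 := (measureReal_mono hsub : T.P.real _ ≤ T.P.real _)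
  refine h11.trans ?_
  rw [le_div_iff₀ (by positivity)]
  set X := T.P.real {ω | ∑ i ∈ range m, I1 T.toCS (B ∪ g i) ω = 0} with hX
  have hX0 : 0 ≤ X := measureReal_nonneg
  have h12 : X * (m * p) ^ 2 ≤ 2 * m := h8.trans hsum
  have h13 : X * (m * ε) ^ 2 ≤ X * (m * p) ^ 2 := by
    apply mul_le_mul_of_nonneg_left _ hX0
    apply pow_le_pow_left₀ (by positivity)
    exact mul_le_mul_of_nonneg_left hp hm0.le
  have h14 : (m : ℝ) * (X * ((m : ℝ) * ε ^ 2)) ≤ (m : ℝ) * 2 := by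
    have e : (m : ℝ) * (X * ((m : ℝ) * ε ^ 2)) = X * ((m : ℝ) * ε) ^ 2 := by ring
    rw [e]
    linarith
  exact le_of_mul_le_mul_left h14 hm0

theorem star {D : ℕ} (T : DS D) (ε : ℝ) (hε : 0 < ε)
    (h : ∃ᶠ n in atTop, ε ≤ T.P.real {ω | ‖zn T.toCS n ω‖ = 1}) :
    ∀ᵐ ω ∂T.P, ∀ B F : Finset ℕ, ∃ g : Finset ℕ, g.Nonempty ∧ Disjoint g (B ∪ F) ∧
      ‖T.z ω ∅ (pw D (B ∪ g))‖ = 1 := by
  rw [ae_all_iff]
  intro B
  rw [ae_all_iff]
  intro F
  rw [ae_iff]
  have h1 : T.P.real {ω | ¬ ∃ g : Finset ℕ, g.Nonempty ∧ Disjoint g (B ∪ F) ∧ ‖T.z ω ∅ (pw D (B ∪ g))‖ = 1} ≤ 0 := by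
    have h2 : Tendsto (fun m : ℕ => (2 / ε ^ 2) * (1 / ((m : ℝ) + 1))) atTop (nhds ((2 / ε ^ 2) * 0)) :=
      tendsto_one_div_add_atTop_nhds_zero_nat.const_mul _
    rw [mul_zero] at h2
    refine ge_of_tendsto' h2 fun m => ?_
    refine (star_fix T ε hε h B F (m + 1) (by omega)).trans (le_of_eq ?_)
    push_cast
    field_simp
  have h2 := le_antisymm h1 measureReal_nonneg
  rwa [measureReal_eq_zero_iff] at h2

end Pool.Agent.Lib.MP_90b327_co.RS
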