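import Mathlib
import Pool.Agent.Lib.MP_90b327_co.RS.RDef
import Pool.Agent.Lib.MP_90b327_co.RS.Star
import Pool.Agent.Lib.MP_90b327_co.RS.KnCk

/-!
MODULE StarKS (15 minutes, old scale). (STAR) for the kernel on contents.

PROOF. `star` and `kn_ck (T.ck ω)`; `kz (T.z ω) ∅ (br D (B ∪ g)) = T.z ω ∅ (pw D (B ∪ g))` by `cl_empty`, `cl_br`.
-/

set_option autoImplicit false

namespace Pool.Agent.Lib.MP_90b327_co.RS

open Finset MeasureTheory Filter Pool.Agent.Lib.MP_90b327_co Pool.Agent.Lib.MP_90b327_co.RB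
  Pool.Agent.Lib.MP_90b327_co.WW

theorem star_ks {D : ℕ} (hD : 1 ≤ D) (T : DS D) (ε : ℝ) (hε : 0 < ε)
    (h : ∃ᶠ n in atTop, ε ≤ T.P.real {ω | ‖zn T.toCS n ω‖ = 1}) : StAE T.toCS := by
  filter_upwards [star T ε hε h] with ω hω
  refine ⟨kn_ck (T.ck ω), fun B F => ?_⟩
  obtain ⟨g, hg, hd, h1⟩ := hω B F
  refine ⟨g, hg, hd, ?_⟩
  show ‖T.z ω (cl D ∅) (cl D (br D (B ∪ g)))‖ = 1
  rw [cl_empty, cl_br hD]
  exact h1

end Pool.Agent.Lib.MP_90b327_co.RS
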