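import Mathlib
import Pool.Agent.Lib.MP_90b327_co.RS.RDef
import Pool.Agent.Lib.MP_90b327_co.RS.EndB1
import Pool.Agent.Lib.MP_90b327_co.RS.EndM
import Pool.Agent.Lib.MP_90b327_co.RS.PhiVal
import Pool.Agent.Lib.MP_90b327_co.RS.StarKS
import Pool.Agent.Lib.MP_90b327_co.RS.Small

/-!
MODULE EndMC (50 minutes, old scale). Claim (MC) (text 3, 10).

PROOF. Let `J n = (∫ z_n ^ (Q(n)).toNat).re`. `J n - (mu Q T n).re` is at most `∫ (if ‖z_n‖ = 1 then 0 else ‖z_n‖ ^ (Q n).toNat)` in absolute value when `Q(n) ≥ 0` (all large `n`; for the others `≤ 2`), so by `small` (with `F n = (Q.eval n).toNat → ∞`) it is enough to bound `(1/R) ∑_{i<R} (mu Q T (q (i+1))).re` from below by `- ε/2` for large `R`.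
Case 1: `P(‖z_n‖ = 1) → 0`: `|mu n| ≤ P(‖z_n‖ = 1) → 0`, `q₀ = 1`. Case 2: otherwise there are `ε' > 0` and infinitely many `n` with `P ≥ ε'`: `StAE T` by `star_ks`. Case 2a: for every `N ≥ 1` and `c > 0` eventually `‖(∑_{i<l} mu (N (i+1)))/l‖ < c`: `q₀ = 1`. Case 2b: for some `N ≥ 1`, `c > 0` it is `≥ c` infinitely often, i.e.
`c ≤ ‖mm (D + natDegree Q) N l (phi Q T)‖` (`mm_phi`). `n₀`: `Q(n) ≥ 1` for `n ≥ n₀`. `end_b1`, `end_z`: `M`; `q₀ = M`: if `M ∣ q` then `M ∣ Q(q (i+1))` because `Q(0) = 0` (`x ∣ Q(x)`), so `(mu (q (i+1))).re ≥ 0` (`end_m`).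
-/

set_option autoImplicit false

namespace Pool.Agent.Lib.MP_90b327_co.RS

open Finset MeasureTheory Filter Pool.Agent.Lib.MP_90b327_co Pool.Agent.Lib.MP_90b327_co.RB
  Pool.Agent.Lib.MP_90b327_co.WW

private theorem emc_tend (Q : Polynomial ℤ) (hQ0 : Q.eval 0 = 0) (hQ : 0 < Q.leadingCoeff) :
    Tendsto (fun n : ℕ => Q.eval (n : ℤ)) atTop atTop := by
  have hinj : Function.Injective (Int.castRingHom ℝ) := Int.cast_injective
  have hdeg : 0 < Q.natDegree := by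
    by_contra h
    have h0 : Q.natDegree = 0 := by omega
    have h1 := Polynomial.eq_C_of_natDegree_eq_zero h0
    rw [h1, Polynomial.eval_C] at hQ0
    rw [Polynomial.leadingCoeff, h0, hQ0] at hQ
    exact lt_irrefl _ hQ
  set P := Q.map (Int.castRingHom ℝ) with hP
  have hPl : P.leadingCoeff = (Q.leadingCoeff : ℝ) := by
    rw [hP, Polynomial.leadingCoeff_map_of_injective hinj]
    rfl
  have hPd : 0 < P.degree := by
    rw [hP, Polynomial.degree_map_eq_of_injective hinj]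
    exact Polynomial.natDegree_pos_iff_degree_pos.1 hdeg
  have h1 := Polynomial.tendsto_atTop_of_leadingCoeff_nonneg P hPd (by
    rw [hPl]
    exact_mod_cast hQ.le)
  have h2 := h1.comp (tendsto_natCast_atTop_atTop (R := ℝ))
  have h3 : ((fun x => Polynomial.eval x P) ∘ (Nat.cast : ℕ → ℝ)) =
      fun n : ℕ => ((Q.eval (n : ℤ) : ℤ) : ℝ) := by
    funext n
    rw [Function.comp, hP, Polynomial.eval_map, show ((n : ℕ) : ℝ) = (Int.castRingHom ℝ) (n : ℤ) by simp,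
      Polynomial.eval₂_at_apply]
    rfl
  rw [h3] at h2
  exact tendsto_intCast_atTop_iff.1 h2

private theorem emc_norm {D : ℕ} (T : CS D) (n : ℕ) (ω : T.Ω) : ‖zn T n ω‖ ≤ 1 :=
  ck_norm (T.ck ω) _ _

private theorem emc_meas {D : ℕ} (T : CS D) (n : ℕ) : Measurable (fun ω => zn T n ω) :=
  T.meas _ _

private theorem emc_set {D : ℕ} (T : CS D) (n : ℕ) : MeasurableSet {ω | ‖zn T n ω‖ = 1} :=
  measurableSet_eq_fun (emc_meas T n).norm measurable_const

open Classical in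
private theorem emc_int2 {D : ℕ} (T : CS D) (n : ℕ) (a : ℤ) :
    Integrable (fun ω => if ‖zn T n ω‖ = 1 then zn T n ω ^ a else 0) T.P := by
  have hm : Measurable (fun ω => if ‖zn T n ω‖ = 1 then zn T n ω ^ a else 0) :=
    Measurable.ite (emc_set T n) ((emc_meas T n).pow_const a) measurable_const
  refine Integrable.of_bound hm.aestronglyMeasurable 1 (Filter.Eventually.of_forall fun ω => ?_)
  split_ifs with h
  · rw [norm_zpow, h, one_zpow]
  · rw [norm_zero]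
    exact zero_le_one

private theorem emc_int1 {D : ℕ} (T : CS D) (n : ℕ) (a : ℕ) :
    Integrable (fun ω => zn T n ω ^ a) T.P := by
  refine Integrable.of_bound ((emc_meas T n).pow_const a).aestronglyMeasurable 1
    (Filter.Eventually.of_forall fun ω => ?_)
  rw [norm_pow]
  exact pow_le_one₀ (norm_nonneg _) (emc_norm T n ω)

open Classical in
private theorem emc_int3 {D : ℕ} (T : CS D) (n : ℕ) (a : ℕ) :
    Integrable (fun ω => if ‖zn T n ω‖ = 1 then 0 else ‖zn T n ω‖ ^ a) T.P := by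
  have hm : Measurable (fun ω => if ‖zn T n ω‖ = 1 then 0 else ‖zn T n ω‖ ^ a) :=
    Measurable.ite (emc_set T n) measurable_const ((emc_meas T n).norm.pow_const a)
  refine Integrable.of_bound hm.aestronglyMeasurable 1 (Filter.Eventually.of_forall fun ω => ?_)
  split_ifs with h
  · rw [norm_zero]
    exact zero_le_one
  · rw [norm_pow, norm_norm]
    exact pow_le_one₀ (norm_nonneg _) (emc_norm T n ω)

open Classical in
private theorem emc_ineq {D : ℕ} (Q : Polynomial ℤ) (T : CS D) (n : ℕ) :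
    (mu Q T n).re - ∫ ω, (if ‖zn T n ω‖ = 1 then 0
      else ‖zn T n ω‖ ^ (Q.eval (n : ℤ)).toNat) ∂T.P ≤
      (∫ ω, zn T n ω ^ (Q.eval (n : ℤ)).toNat ∂T.P).re := by
  set a := Q.eval (n : ℤ) with ha
  have i1 := emc_int1 T n a.toNat
  have i2 := emc_int2 T n a
  have i3 := emc_int3 T n a.toNat
  have e1 : (∫ ω, zn T n ω ^ a.toNat ∂T.P).re = ∫ ω, (zn T n ω ^ a.toNat).re ∂T.P :=
    (integral_re i1).symm
  have e2 : (mu Q T n).re = ∫ ω, (if ‖zn T n ω‖ = 1 then zn T n ω ^ a else 0).re ∂T.P := by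
    unfold mu
    exact (integral_re i2).symm
  have i2r : Integrable (fun ω => (if ‖zn T n ω‖ = 1 then zn T n ω ^ a else 0).re) T.P := i2.re
  have i1r : Integrable (fun ω => (zn T n ω ^ a.toNat).re) T.P := i1.re
  rw [e1, e2, ← integral_sub i2r i3]
  refine integral_mono (i2r.sub i3) i1r fun ω => ?_
  simp only
  by_cases h : ‖zn T n ω‖ = 1
  · rw [if_pos h, if_pos h, sub_zero]
    rcases le_or_gt 0 a with h0 | h0
    · have : zn T n ω ^ a = zn T n ω ^ a.toNat := by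
        conv_lhs => rw [← Int.toNat_of_nonneg h0]
        rw [zpow_natCast]
      rw [this]
    · rw [Int.toNat_of_nonpos h0.le, pow_zero]
      refine (Complex.re_le_norm _).trans ?_
      rw [norm_zpow, h, one_zpow]
      simp
  · rw [if_neg h, if_neg h]
    have h1 := Complex.abs_re_le_norm (zn T n ω ^ a.toNat)
    rw [norm_pow] at h1
    have h2 := (abs_le.1 h1).1
    rw [Complex.zero_re]
    linarith

open Classical in
private theorem emc_mu_norm {D : ℕ} (Q : Polynomial ℤ) (T : CS D) (n : ℕ) :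
    ‖mu Q T n‖ ≤ T.P.real {ω | ‖zn T n ω‖ = 1} := by
  unfold mu
  refine (norm_integral_le_integral_norm _).trans (le_of_eq ?_)
  have h1 : (fun ω => ‖(if ‖zn T n ω‖ = 1 then zn T n ω ^ Q.eval (n : ℤ) else 0)‖) =
      {ω | ‖zn T n ω‖ = 1}.indicator (fun _ => (1 : ℝ)) := by
    funext ω
    by_cases h : ‖zn T n ω‖ = 1
    · rw [if_pos h, Set.indicator_of_mem (by exact h), norm_zpow, h, one_zpow]
    · rw [if_neg h, Set.indicator_of_notMem (by exact h), norm_zero]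
  rw [h1, integral_indicator (emc_set T n), setIntegral_const, smul_eq_mul, mul_one]

private theorem emc_mu {D : ℕ} (hD : 1 ≤ D) (Q : Polynomial ℤ) (hQ0 : Q.eval 0 = 0)
    (hQ : 0 < Q.leadingCoeff) (T : DS D) :
    ∃ q₀ : ℕ, 1 ≤ q₀ ∧ ∀ q : ℕ, 1 ≤ q → q₀ ∣ q → ∀ ε : ℝ, 0 < ε → ∃ R₀ : ℕ, ∀ R, R₀ ≤ R →
      -ε * R ≤ ∑ i ∈ range R, (mu Q T.toCS (q * (i + 1))).re := by
  by_cases hp : Tendsto (fun n => T.P.real {ω | ‖zn T.toCS n ω‖ = 1}) atTop (nhds 0)
  · refine ⟨1, le_rfl, fun q hq _ ε hε => ?_⟩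
    have h1 : Tendsto (fun i : ℕ => q * (i + 1)) atTop atTop := by
      refine tendsto_atTop_mono (fun i => ?_) tendsto_id
      simp only [id]
      nlinarith
    have h2 := (hp.comp h1).cesaro
    obtain ⟨R₀, hR₀⟩ := Filter.eventually_atTop.1
      (h2.eventually (gt_mem_nhds hε))
    refine ⟨max R₀ 1, fun R hR => ?_⟩
    have hR1 : R₀ ≤ R := (le_max_left _ _).trans hR
    have hR2 : 1 ≤ R := (le_max_right _ _).trans hR
    have hRpos : (0 : ℝ) < R := by exact_mod_cast hR2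
    have h3 := hR₀ R hR1
    have h4 : ∑ i ∈ range R, T.P.real {ω | ‖zn T.toCS (q * (i + 1)) ω‖ = 1} ≤ ε * R := by
      have h5 : (R : ℝ)⁻¹ * ∑ i ∈ range R, T.P.real {ω | ‖zn T.toCS (q * (i + 1)) ω‖ = 1} < ε := h3
      rw [inv_mul_lt_iff₀ hRpos] at h5
      linarith
    have h6 : -∑ i ∈ range R, T.P.real {ω | ‖zn T.toCS (q * (i + 1)) ω‖ = 1} ≤
        ∑ i ∈ range R, (mu Q T.toCS (q * (i + 1))).re := by
      rw [← Finset.sum_neg_distrib]
      refine Finset.sum_le_sum fun i _ => ?_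
      have h7 := Complex.abs_re_le_norm (mu Q T.toCS (q * (i + 1)))
      have h8 := emc_mu_norm Q T.toCS (q * (i + 1))
      have h9 := (abs_le.1 h7).1
      linarith
    linarith
  · have hfreq : ∃ ε' : ℝ, 0 < ε' ∧
        ∃ᶠ n in atTop, ε' ≤ T.P.real {ω | ‖zn T.toCS n ω‖ = 1} := by
      by_contra hcon
      push Not at hcon
      apply hp
      rw [Metric.tendsto_atTop]
      intro ε hε
      have h1 := hcon ε hε
      obtain ⟨N, hN⟩ := Filter.eventually_atTop.1 h1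
      refine ⟨N, fun n hn => ?_⟩
      have h2 := hN n hn
      rw [Real.dist_eq, sub_zero, abs_of_nonneg measureReal_nonneg]
      exact h2
    obtain ⟨ε', hε', hfr⟩ := hfreq
    have hst : StAE T.toCS := star_ks hD T ε' hε' hfr
    by_cases h2a : ∀ N : ℕ, 1 ≤ N → ∀ c : ℝ, 0 < c →
        ∀ᶠ l : ℕ in atTop, ‖(∑ i ∈ range l, mu Q T.toCS (N * (i + 1))) / (l : ℂ)‖ < c
    · refine ⟨1, le_rfl, fun q hq _ ε hε => ?_⟩
      obtain ⟨R₀, hR₀⟩ := Filter.eventually_atTop.1 (h2a q hq ε hε)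
      refine ⟨max R₀ 1, fun R hR => ?_⟩
      have hR1 : R₀ ≤ R := (le_max_left _ _).trans hR
      have hR2 : 1 ≤ R := (le_max_right _ _).trans hR
      have hRpos : (0 : ℝ) < R := by exact_mod_cast hR2
      have h3 := hR₀ R hR1
      rw [norm_div, Complex.norm_natCast, div_lt_iff₀ hRpos] at h3
      have h4 := Complex.abs_re_le_norm (∑ i ∈ range R, mu Q T.toCS (q * (i + 1)))
      have h5 := (abs_le.1 h4).1
      rw [Complex.re_sum] at h5
      linarith
    · push Not at h2a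
      obtain ⟨N, hN, c, hc, h2b⟩ := h2a
      have hfq : ∃ᶠ l in atTop, c ≤ ‖mm (D + Q.natDegree) N l (phi Q T.toCS)‖ := by
        refine h2b.mono fun l hl => ?_
        rw [mm_phi hD Q T.toCS hst (D + Q.natDegree) le_rfl N l]
        exact hl
      obtain ⟨n₀, hn₀⟩ := Filter.eventually_atTop.1
        ((emc_tend Q hQ0 hQ).eventually_ge_atTop 1)
      obtain ⟨M, hM1, hM⟩ := end_b1 (D := D) Q n₀ (fun n hn => by
        have := hn₀ n hn
        omega) N hN c hc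
      have h3 := hM T.toCS hst hfq
      have h4 := end_z T hst M (c ^ 2 / 4) (by positivity) h3
      refine ⟨M, hM1, fun q hq hMq ε hε => ⟨0, fun R _ => ?_⟩⟩
      have h5 : 0 ≤ ∑ i ∈ range R, (mu Q T.toCS (q * (i + 1))).re := by
        refine Finset.sum_nonneg fun i _ => ?_
        refine end_m hD Q T.toCS hst M h4 _ ?_
        have h6 : ((q * (i + 1) : ℕ) : ℤ) ∣ Q.eval ((q * (i + 1) : ℕ) : ℤ) := by
          have := Polynomial.sub_dvd_eval_sub ((q * (i + 1) : ℕ) : ℤ) 0 Q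
          rwa [sub_zero, hQ0, sub_zero] at this
        refine dvd_trans ?_ h6
        exact_mod_cast hMq.mul_right (i + 1)
      have h7 : 0 ≤ ε * (R : ℝ) := by positivity
      linarith

theorem end_mc {D : ℕ} (hD : 1 ≤ D) (Q : Polynomial ℤ) (hQ0 : Q.eval 0 = 0)
    (hQ : 0 < Q.leadingCoeff) (T : DS D) :
    ∃ q₀ : ℕ, 1 ≤ q₀ ∧ ∀ q : ℕ, 1 ≤ q → q₀ ∣ q → ∀ ε : ℝ, 0 < ε → ∃ R₀ : ℕ, ∀ R, R₀ ≤ R →
      -ε * R ≤ ∑ i ∈ range R, (∫ ω, zn T.toCS (q * (i + 1)) ω ^
        (Q.eval ((q * (i + 1) : ℕ) : ℤ)).toNat ∂T.P).re := by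
  classical
  obtain ⟨q₀, hq₀, hmu⟩ := emc_mu hD Q hQ0 hQ T
  refine ⟨q₀, hq₀, fun q hq hd ε hε => ?_⟩
  obtain ⟨R₁, hR₁⟩ := hmu q hq hd (ε / 2) (by positivity)
  have hF : Tendsto (fun n : ℕ => (Q.eval (n : ℤ)).toNat) atTop atTop := by
    rw [tendsto_atTop]
    intro b
    filter_upwards [(emc_tend Q hQ0 hQ).eventually_ge_atTop (b : ℤ)] with n hn
    omega
  obtain ⟨R₂, hR₂⟩ := small hD T.toCS (fun n : ℕ => (Q.eval (n : ℤ)).toNat) hF q hq (ε / 2)
    (by positivity)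
  refine ⟨max R₁ R₂, fun R hR => ?_⟩
  have h1 := hR₁ R ((le_max_left _ _).trans hR)
  have h2 := hR₂ R ((le_max_right _ _).trans hR)
  have h3 : ∑ i ∈ range R, (mu Q T.toCS (q * (i + 1))).re -
      ∑ i ∈ range R, ∫ ω, (if ‖zn T.toCS (q * (i + 1)) ω‖ = 1 then 0
        else ‖zn T.toCS (q * (i + 1)) ω‖ ^ (Q.eval ((q * (i + 1) : ℕ) : ℤ)).toNat) ∂T.P ≤
      ∑ i ∈ range R, (∫ ω, zn T.toCS (q * (i + 1)) ω ^
        (Q.eval ((q * (i + 1) : ℕ) : ℤ)).toNat ∂T.P).re := by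
    rw [← Finset.sum_sub_distrib]
    refine Finset.sum_le_sum fun i _ => ?_
    have h4 := emc_ineq Q T.toCS (q * (i + 1))
    refine le_trans (le_of_eq ?_) h4
    congr 1
  have h5 : ∑ i ∈ range R, ∫ ω, (if ‖zn T.toCS (q * (i + 1)) ω‖ = 1 then 0
        else ‖zn T.toCS (q * (i + 1)) ω‖ ^ (Q.eval ((q * (i + 1) : ℕ) : ℤ)).toNat) ∂T.P ≤
      ε / 2 * R := by
    refine le_trans (le_of_eq ?_) h2
    refine Finset.sum_congr rfl fun i _ => ?_
    refine integral_congr_ae (Filter.Eventually.of_forall fun ω => ?_)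
    simp only
  linarith

end Pool.Agent.Lib.MP_90b327_co.RS
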