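import Mathlib
import Pool.Agent.Lib.MP_90b327_co.RS.RDef
import Pool.Agent.Lib.MP_90b327_co.WW.RemB
import Pool.Agent.Lib.MP_90b327_co.RB.LevelOne

/-!
MODULE KerL (30 minutes, old scale). The normalised kernel (text 1, 2).

PROOF. `bk_half`: `hg.psd Bool` with the two patterns `X`, `Y` and coefficients `1, 1`: `4 δ² ≤ 2 δ` (see `lo_half` in RB/LevelOne).
`ker_l`: as `lo_ker` in RB/LevelOne: `one` from `hg.diag`, `herm` from `hg.symm`, `psd`: real and imaginary parts of the coefficients and `hg.psd`; `rel`: first alternative `bk_rem`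
(WW/RemB), second alternative `hg.inv`.
-/

set_option autoImplicit false

namespace Pool.Agent.Lib.MP_90b327_co.RS

open Finset MeasureTheory Filter Pool.Agent.Lib.MP_90b327_co Pool.Agent.Lib.MP_90b327_co.RB
  Pool.Agent.Lib.MP_90b327_co.WW

theorem bk_half {D : ℕ} {δ : ℝ} {g : Bp D → Bp D → ℝ} (hg : BK D δ g) (hδ : 0 < δ) (X Y : Bp D)
    (h0 : g X Y = 0) : δ ≤ 1 / 2 := by
  have h2 := hg.psd Bool (fun o => if o = true then X else Y) (fun _ => 1)
  simp only [Fintype.sum_bool, if_true, Bool.false_eq_true, if_false, mul_one, one_mul] at h2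
  rw [hg.symm Y X, h0, hg.diag, hg.diag] at h2
  nlinarith

private theorem kl_re (p q p' q' r : ℝ) :
    ((starRingEnd ℂ) (⟨p, q⟩ : ℂ) * (⟨p', q'⟩ : ℂ) * ((r : ℝ) : ℂ)).re = (p * p' + q * q') * r := by
  simp only [Complex.mul_re, Complex.mul_im, Complex.conj_re, Complex.conj_im, Complex.ofReal_re,
    Complex.ofReal_im]
  ring

theorem ker_l {D : ℕ} {δ : ℝ} {g : Bp D → Bp D → ℝ} (hg : BK D δ g) (hδ : 0 < δ) (hδ1 : δ < 1) :
    Ker (RL (D := D)) (fun X Y => (((g X Y - δ ^ 2) / (δ - δ ^ 2) : ℝ) : ℂ)) := by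
  have hpos : 0 < δ - δ ^ 2 := by nlinarith
  refine ⟨fun X => ?_, fun X Y => ?_, fun ι _ X c => ?_, fun X Y X' Y' hR => ?_⟩
  · rw [hg.diag, div_self hpos.ne', Complex.ofReal_one]
  · rw [Complex.conj_ofReal, hg.symm]
  · rw [Complex.re_sum]
    have h1 : ∀ i, (∑ j, (starRingEnd ℂ) (c i) * c j * (((g (X i) (X j) - δ ^ 2) / (δ - δ ^ 2) : ℝ) : ℂ)).re =
        ∑ j, ((c i).re * (c j).re + (c i).im * (c j).im) * ((g (X i) (X j) - δ ^ 2) / (δ - δ ^ 2)) := by
      intro i
      rw [Complex.re_sum]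
      refine Finset.sum_congr rfl fun j _ => ?_
      exact kl_re _ _ _ _ _
    rw [Finset.sum_congr rfl fun i _ => h1 i]
    have h2 : ∑ i, ∑ j, ((c i).re * (c j).re + (c i).im * (c j).im) *
        ((g (X i) (X j) - δ ^ 2) / (δ - δ ^ 2)) =
        ((∑ i, ∑ j, (c i).re * (c j).re * g (X i) (X j) - δ ^ 2 * (∑ i, (c i).re) ^ 2) +
          (∑ i, ∑ j, (c i).im * (c j).im * g (X i) (X j) - δ ^ 2 * (∑ i, (c i).im) ^ 2)) /
            (δ - δ ^ 2) := by
      rw [sq (∑ i, (c i).re), sq (∑ i, (c i).im), Finset.sum_mul_sum, Finset.sum_mul_sum,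
        Finset.mul_sum, Finset.mul_sum, ← Finset.sum_sub_distrib, ← Finset.sum_sub_distrib,
        ← Finset.sum_add_distrib, Finset.sum_div]
      refine Finset.sum_congr rfl fun i _ => ?_
      rw [Finset.mul_sum, Finset.mul_sum, ← Finset.sum_sub_distrib, ← Finset.sum_sub_distrib,
        ← Finset.sum_add_distrib, Finset.sum_div]
      refine Finset.sum_congr rfl fun j _ => ?_
      ring
    rw [h2]
    have h3 := hg.psd ι X (fun i => (c i).re)
    have h4 := hg.psd ι X (fun i => (c i).im)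
    exact div_nonneg (by linarith) hpos.le
  · have h1 : g X' Y' = g X Y := by
      rcases hR with ⟨c, j, h1, h3, h4⟩ | ⟨σ, τ, h1, h2, h3, h4⟩
      · rw [h3, h4]
        exact bk_rem hg X Y c j h1
      · rw [h3, h4]
        exact hg.inv σ τ h1 h2 X Y
    rw [h1]

end Pool.Agent.Lib.MP_90b327_co.RS
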