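import Mathlib
import Pool.Agent.Lib.MP_90b327_co.RS.RDef
import Pool.Agent.Lib.MP_90b327_co.WW.MrgC
import Pool.Agent.Lib.MP_90b327_co.WW.ProdC
import Pool.Agent.Lib.MP_90b327_co.WW.LawM
import Pool.Agent.Lib.MP_90b327_co.WW.MomC
import Pool.Agent.Lib.MP_90b327_co.WW.ColSp
import Pool.Agent.Lib.MP_90b327_co.RB.RepC

/-!
MODULE ColL (50 minutes, old scale). Column spaces of a complex kernel (text 3).

PROOF. Copy of WW/ColSp and WW/MomC with `θ` in place of `g / δ`. `Ker (RC (D := D)) θ`: `RC X Y X' Y'` implies `RL X Y X' Y'` (in the second alternative take `σ = id`).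
`rep (mrg_c D) θ _` gives `r : Repr mc RC θ`. Put `T.z ω x y = r.th ω (sc x) (sc y)`, `ck := ck_c (r.ker ω)`. Moments: for a finite type `ι` and `x y : ι → Co D` the mean of
`∏ i, r.th ω (sc (x i)) (sc (y i))` is `θ X Y` with `X = ⋃ x i × {e i}` (private lemmas `momC_*` in WW/MomC: copy them, they are private), and replacing `x i`, `y i` by `mv σ (x i)`, `mv σ (y i)` changes `X`, `Y`
into `rb σ id X`, `rb σ id Y`, which does not change `θ` (`h.rel`, second alternative of `RL`). `law`: `law_m` as in `exists_cs`. `RepL`: `r.mean` and `prod_c`.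
-/

set_option autoImplicit false

namespace Pool.Agent.Lib.MP_90b327_co.RS

open Finset MeasureTheory Filter Pool.Agent.Lib.MP_90b327_co Pool.Agent.Lib.MP_90b327_co.RB
  Pool.Agent.Lib.MP_90b327_co.WW

private def ColL_mpk {D : ℕ} {ι : Type} [Fintype ι] {n : ℕ} (e : ι → Fin n) (z : ι → Co D) : Bp D :=
  Finset.univ.biUnion (fun i => (z i).image (fun c => (c, (e i : ℕ))))

private theorem ColL_mmem {D : ℕ} {ι : Type} [Fintype ι] {n : ℕ} (e : ι → Fin n) (z : ι → Co D)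
    (c : Ce D) (j : ℕ) : (c, j) ∈ ColL_mpk e z ↔ ∃ i, c ∈ z i ∧ (e i : ℕ) = j := by
  unfold ColL_mpk
  simp only [Finset.mem_biUnion, Finset.mem_univ, true_and, Finset.mem_image, Prod.mk.injEq]
  constructor
  · rintro ⟨i, c', hc', rfl, hj⟩
    exact ⟨i, hc', hj⟩
  · rintro ⟨i, hc, hj⟩
    exact ⟨i, c, hc, rfl, hj⟩

private theorem ColL_mcolm {D : ℕ} {ι : Type} [Fintype ι] {n : ℕ} {e : ι → Fin n}
    (he : Function.Injective e) (z : ι → Co D) (i : ι) :
    colm (ColL_mpk e z) (e i : ℕ) = z i := by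
  ext c
  unfold colm
  simp only [Finset.mem_image, Finset.mem_filter, Prod.exists]
  constructor
  · rintro ⟨c', j, ⟨h1, h2⟩, rfl⟩
    obtain ⟨i', hi', hj⟩ := (ColL_mmem e z c' j).1 h1
    have h3 : e i' = e i := by
      apply Fin.ext
      rw [hj, ← h2]
    rw [← he h3]
    exact hi'
  · intro hc
    exact ⟨c, e i, ⟨(ColL_mmem e z c _).2 ⟨i, hc, rfl⟩, rfl⟩, rfl⟩

private theorem ColL_mrb {D : ℕ} {ι : Type} [Fintype ι] {n : ℕ} (e : ι → Fin n) (z : ι → Co D)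
    (σ : ℕ → ℕ) : ColL_mpk e (fun i => mv σ (z i)) = rb σ id (ColL_mpk e z) := by
  ext ⟨c, j⟩
  rw [ColL_mmem]
  unfold rb mv
  simp only [Finset.mem_image, Prod.exists, Prod.mk.injEq, id_eq]
  constructor
  · rintro ⟨i, ⟨c', hc', rfl⟩, hj⟩
    exact ⟨c', j, (ColL_mmem e z c' j).2 ⟨i, hc', hj⟩, rfl, rfl⟩
  · rintro ⟨c', j', h, rfl, rfl⟩
    obtain ⟨i, hi, hj⟩ := (ColL_mmem e z c' j').1 h
    exact ⟨i, ⟨c', hi, rfl⟩, hj⟩

private theorem ColL_mprod {D : ℕ} {θ : Bp D → Bp D → ℂ} (h : Ker (RC (D := D)) θ)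
    (hm : ∀ X Y A B, θ (mc X A) (mc Y B) = θ X Y * θ A B) {ι : Type} [Fintype ι]
    (x y : ι → Co D) : ∏ i, θ (sc (x i)) (sc (y i)) =
      θ (ColL_mpk (Fintype.equivFin ι) x) (ColL_mpk (Fintype.equivFin ι) y) := by
  rw [prod_c h hm _ _ (range (Fintype.card ι))]
  · rw [Finset.prod_range]
    refine Fintype.prod_equiv (Fintype.equivFin ι) _ _ (fun i => ?_)
    rw [ColL_mcolm (Fintype.equivFin ι).injective, ColL_mcolm (Fintype.equivFin ι).injective]
  · rintro ⟨c, j⟩ hc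
    obtain ⟨i, _, hj⟩ := (ColL_mmem _ x c j).1 hc
    rw [Finset.mem_range, ← hj]
    exact (Fintype.equivFin ι i).2
  · rintro ⟨c, j⟩ hc
    obtain ⟨i, _, hj⟩ := (ColL_mmem _ y c j).1 hc
    rw [Finset.mem_range, ← hj]
    exact (Fintype.equivFin ι i).2

private theorem ColL_ker {D : ℕ} {θ : Bp D → Bp D → ℂ} (h : Ker (RL (D := D)) θ) :
    Ker (RC (D := D)) θ where
  one := h.one
  herm := h.herm
  psd := h.psd
  rel := by
    intro X Y X' Y' hR
    refine h.rel X Y X' Y' ?_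
    rcases hR with hR | ⟨τ, hτ, h1, h2⟩
    · exact Or.inl hR
    · exact Or.inr ⟨id, τ, Function.injective_id, hτ, h1, h2⟩

private theorem ColL_mom {D : ℕ} {θ₀ : Bp D → Bp D → ℂ} (h : Ker (RL (D := D)) θ₀)
    {Ω : Type} [MeasurableSpace Ω]
    (P : Measure Ω) (θ : Ω → Bp D → Bp D → ℂ) (hk : ∀ ω, Ker (RC (D := D)) (θ ω))
    (hm : ∀ ω X Y A B, θ ω (mc X A) (mc Y B) = θ ω X Y * θ ω A B)
    (hmean : ∀ X Y, θ₀ X Y = ∫ ω, θ ω X Y ∂P) (ι : Type) [Fintype ι] (x y : ι → Co D)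
    (σ : ℕ → ℕ) (hσ : Function.Injective σ) :
    ∫ ω, ∏ i, θ ω (sc (mv σ (x i))) (sc (mv σ (y i))) ∂P = ∫ ω, ∏ i, θ ω (sc (x i)) (sc (y i)) ∂P := by
  have h1 : ∀ a b : ι → Co D, ∫ ω, ∏ i, θ ω (sc (a i)) (sc (b i)) ∂P =
      θ₀ (ColL_mpk (Fintype.equivFin ι) a) (ColL_mpk (Fintype.equivFin ι) b) := by
    intro a b
    rw [hmean]
    refine integral_congr_ae (Filter.Eventually.of_forall (fun ω => ?_))
    exact ColL_mprod (hk ω) (hm ω) a b
  rw [h1 x y, h1 (fun i => mv σ (x i)) (fun i => mv σ (y i)), ColL_mrb, ColL_mrb]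
  exact (h.rel _ _ _ _ (Or.inr ⟨σ, id, hσ, Function.injective_id, rfl, rfl⟩)).symm

private theorem ColL_prod {ι : Type} [Fintype ι] (p q : ι → ℕ) (u v : ι → ℂ)
    (w : (Σ i : ι, Fin (p i) ⊕ Fin (q i)) → ℂ)
    (hw : ∀ i k, w ⟨i, Sum.inl k⟩ = u i) (hw' : ∀ i k, w ⟨i, Sum.inr k⟩ = v i) :
    ∏ i, (u i ^ p i * v i ^ q i) = ∏ j, w j := by
  rw [Fintype.prod_sigma]
  refine Finset.prod_congr rfl (fun i _ => ?_)
  rw [Fintype.prod_sum_type]
  simp only [hw, hw']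
  rw [Finset.prod_const, Finset.prod_const, Finset.card_univ, Finset.card_univ,
    Fintype.card_fin, Fintype.card_fin]

theorem exists_cs_l {D : ℕ} {θ : Bp D → Bp D → ℂ} (h : Ker (RL (D := D)) θ) :
    ∃ T : CS D, RepL θ T := by
  obtain ⟨r⟩ := rep (mrg_c D) _ (ColL_ker h)
  refine ⟨{ Ω := r.Ω
            mΩ := r.mΩ
            P := r.P
            prob := r.prob
            z := fun ω x y => r.th ω (sc x) (sc y)
            ck := fun ω => ck_c (r.ker ω)
            meas := fun x y => r.meas _ _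
            law := ?_ }, ?_⟩
  · intro ι _ x y σ hσ
    refine law_m r.P ι _ _ (measurable_pi_iff.2 fun i => r.meas _ _)
      (measurable_pi_iff.2 fun i => r.meas _ _)
      (fun ω i => ker_norm_le (r.ker ω) _ _) (fun ω i => ker_norm_le (r.ker ω) _ _)
      (fun p q => ?_)
    have hmm := ColL_mom h r.P r.th r.ker r.mul r.mean (Σ i : ι, Fin (p i) ⊕ Fin (q i))
      (fun j => Sum.elim (fun _ => x j.1) (fun _ => y j.1) j.2)
      (fun j => Sum.elim (fun _ => y j.1) (fun _ => x j.1) j.2) σ hσ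
    calc ∫ ω, ∏ i, (r.th ω (sc (mv σ (x i))) (sc (mv σ (y i))) ^ p i *
          (starRingEnd ℂ) (r.th ω (sc (mv σ (x i))) (sc (mv σ (y i)))) ^ q i) ∂r.P
        = ∫ ω, ∏ j : (Σ i : ι, Fin (p i) ⊕ Fin (q i)),
            r.th ω (sc (mv σ (Sum.elim (fun _ => x j.1) (fun _ => y j.1) j.2)))
              (sc (mv σ (Sum.elim (fun _ => y j.1) (fun _ => x j.1) j.2))) ∂r.P := by
          refine integral_congr_ae (Filter.Eventually.of_forall (fun ω => ?_))
          refine ColL_prod p q _ _ _ (fun i k => rfl) (fun i k => ?_)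
          exact (r.ker ω).herm _ _
      _ = ∫ ω, ∏ j : (Σ i : ι, Fin (p i) ⊕ Fin (q i)),
            r.th ω (sc (Sum.elim (fun _ => x j.1) (fun _ => y j.1) j.2))
              (sc (Sum.elim (fun _ => y j.1) (fun _ => x j.1) j.2)) ∂r.P := hmm
      _ = ∫ ω, ∏ i, (r.th ω (sc (x i)) (sc (y i)) ^ p i *
            (starRingEnd ℂ) (r.th ω (sc (x i)) (sc (y i))) ^ q i) ∂r.P := by
          refine (integral_congr_ae (Filter.Eventually.of_forall (fun ω => ?_))).symm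
          refine ColL_prod p q _ _ _ (fun i k => rfl) (fun i k => ?_)
          exact (r.ker ω).herm _ _
  · intro X Y J hX hY
    rw [r.mean X Y]
    refine integral_congr_ae (Filter.Eventually.of_forall (fun ω => ?_))
    exact prod_c (r.ker ω) (r.mul ω) X Y J hX hY

end Pool.Agent.Lib.MP_90b327_co.RS
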