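import Mathlib
import Pool.Agent.Lib.MP_90b327_co.RS.RDef
import Pool.Agent.Lib.MP_90b327_co.WW.LawM
import Pool.Agent.Lib.MP_90b327_co.RB.RepA

/-!
MODULE IndL (60 minutes, old scale). Disjoint sets of rows are independent (text 3, (Z4)).

PROOF. Let `Z ω = fun i => z ω (x i) (y i)`, `Z' ω = fun j => z ω (x' j) (y' j)`. By `ProbabilityTheory.indepFun_iff_map_prod_eq_prod_map_map` it is enough that
`T.P.map (fun ω => (Z ω, Z' ω)) = (T.P.map Z).prod (T.P.map Z')`. Use `law_m` on the space `T.Ω × T.Ω` with the measure `T.P.prod T.P` and the finite type `ι ⊕ κ`: the two functions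
`(ω, ω') ↦ Sum.elim (Z ω) (Z' ω)` and `(ω, ω') ↦ Sum.elim (Z ω) (Z' ω')` have the same moments: the moment of the second is the product of two integrals (`integral_prod_mul` or
`MeasureTheory.integral_prod_mul`), and all are values of `θ`: with `z^p conj(z)^q = z(x,y)^p z(y,x)^q` (`CK.herm`) the moment is the mean of a product over the finite type of factors
`Σ i, Fin (p i) ⊕ Fin (q i)` (see `colSp_prod` in WW/ColSp), each factor gets its own column; `RepL` gives `θ (X ∪ X') (Y ∪ Y')` with `X, Y` on rows in `V` and columns in a set `K`, `X', Y'` on rows in `V'` and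
columns in a disjoint set `K'`. Choose an injection `σ` of the rows with `σ V ⊆` even numbers, `σ V' ⊆` odd numbers, `τ` of the columns likewise (e.g. `σ x = 2 x` on `V`, `2 x + 1` on the complement of `V`):
`rb σ τ (X ∪ X') = ml X X'` (with `σ = 2 ·` on `V` and `2 · + 1` outside, `τ` likewise), so by `h.rel` (second alternative of `RL`) and `hm`: `θ (X ∪ X') (Y ∪ Y') = θ X Y * θ X' Y'`.
Transport back from `ι ⊕ κ → ℂ` to the product with a measurable map (`MeasurableEquiv.sumPiEquivProdPi` or compose with the two restrictions).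
-/

set_option autoImplicit false

namespace Pool.Agent.Lib.MP_90b327_co.RS

open Finset MeasureTheory Filter Pool.Agent.Lib.MP_90b327_co Pool.Agent.Lib.MP_90b327_co.RB
  Pool.Agent.Lib.MP_90b327_co.WW

private theorem il_norm {D : ℕ} {k : Co D → Co D → ℂ} (hk : CK k) (x y : Co D) : ‖k x y‖ ≤ 1 := by
  have h := posk_cs k hk.psd hk.herm x y
  rw [hk.one, hk.one, Complex.one_re, mul_one] at h
  have h0 := norm_nonneg (k x y)
  nlinarith

/-- the contents `X a` in the columns `e a` -/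
private def il_pk {D : ℕ} {α : Type} [Fintype α] (e : α → ℕ) (X : α → Co D) : Bp D :=
  Finset.univ.biUnion (fun a => (X a).image (fun c => (c, e a)))

private theorem il_mem {D : ℕ} {α : Type} [Fintype α] (e : α → ℕ) (X : α → Co D)
    (c : (Fin D → ℕ) × ℕ) : c ∈ il_pk e X ↔ ∃ a, c.1 ∈ X a ∧ e a = c.2 := by
  unfold il_pk
  simp only [Finset.mem_biUnion, Finset.mem_univ, true_and, Finset.mem_image]
  constructor
  · rintro ⟨a, d, hd, rfl⟩
    exact ⟨a, hd, rfl⟩
  · rintro ⟨a, h1, h2⟩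
    exact ⟨a, c.1, h1, by rw [h2]⟩

private theorem il_colm {D : ℕ} {α : Type} [Fintype α] (e : α → ℕ) (he : Function.Injective e)
    (X : α → Co D) (a : α) : colm (il_pk e X) (e a) = X a := by
  ext c
  unfold colm
  simp only [Finset.mem_image, Finset.mem_filter, il_mem]
  constructor
  · rintro ⟨d, ⟨⟨b, hb, h1⟩, h2⟩, rfl⟩
    have : b = a := he (h1.trans h2)
    rwa [← this]
  · intro hc
    exact ⟨(c, e a), ⟨⟨a, hc, rfl⟩, rfl⟩, rfl⟩

private theorem il_mean {D : ℕ} {θ : Bp D → Bp D → ℂ} {T : CS D} (hT : RepL θ T) {α : Type}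
    [Fintype α] (e : α → ℕ) (he : Function.Injective e) (X Y : α → Co D) :
    ∫ ω, ∏ a, T.z ω (X a) (Y a) ∂T.P = θ (il_pk e X) (il_pk e Y) := by
  classical
  rw [hT (il_pk e X) (il_pk e Y) (Finset.univ.image e)]
  · refine integral_congr_ae (Filter.Eventually.of_forall fun ω => ?_)
    show _ = ∏ j ∈ Finset.univ.image e, T.z ω (colm (il_pk e X) j) (colm (il_pk e Y) j)
    rw [Finset.prod_image (fun a _ b _ hab => he hab)]
    refine Finset.prod_congr rfl fun a _ => ?_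
    rw [il_colm e he, il_colm e he]
  · intro c hc
    obtain ⟨a, -, h⟩ := (il_mem e X c).mp hc
    exact Finset.mem_image.mpr ⟨a, Finset.mem_univ _, h⟩
  · intro c hc
    obtain ⟨a, -, h⟩ := (il_mem e Y c).mp hc
    exact Finset.mem_image.mpr ⟨a, Finset.mem_univ _, h⟩

private theorem il_pw {D : ℕ} {V : Finset ℕ} {x : Co D} (hx : x ⊆ pw D V) {c : Fin D → ℕ}
    (hc : c ∈ x) (i : Fin D) : c i ∈ V := by
  have h := hx hc
  unfold pw at h
  exact Fintype.mem_piFinset.mp h i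

private theorem il_rb {D : ℕ} {α β : Type} [Fintype α] [Fintype β] (e : α → ℕ) (e' : β → ℕ)
    (X : α → Co D) (X' : β → Co D) (V V' : Finset ℕ) (hV : Disjoint V V')
    (hX : ∀ a, X a ⊆ pw D V) (hX' : ∀ b, X' b ⊆ pw D V') :
    rb (fun v => if v ∈ V then 2 * v else 2 * v + 1) id
      (il_pk (Sum.elim (fun a => 2 * e a) (fun b => 2 * e' b + 1)) (Sum.elim X X')) =
    ml (il_pk e X) (il_pk e' X') := by
  ext c
  unfold rb ml
  simp only [Finset.mem_image, Finset.mem_union, rb, il_mem]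
  constructor
  · rintro ⟨d, ⟨a | b, h1, h2⟩, rfl⟩
    · left
      refine ⟨(d.1, e a), ⟨a, h1, rfl⟩, ?_⟩
      simp only [Sum.elim_inl] at h1 h2
      refine Prod.ext ?_ h2
      funext i
      have h3 := il_pw (hX a) h1 i
      simp only [Function.comp, if_pos h3]
    · right
      refine ⟨(d.1, e' b), ⟨b, h1, rfl⟩, ?_⟩
      simp only [Sum.elim_inr] at h1 h2
      refine Prod.ext ?_ h2
      funext i
      have h3 := il_pw (hX' b) h1 i
      have h4 : d.1 i ∉ V := fun h5 => Finset.disjoint_left.mp hV h5 h3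
      simp only [Function.comp, if_neg h4]
  · rintro (⟨d, ⟨a, h1, h2⟩, rfl⟩ | ⟨d, ⟨b, h1, h2⟩, rfl⟩)
    · refine ⟨(d.1, 2 * d.2), ⟨Sum.inl a, h1, by simp [h2]⟩, ?_⟩
      refine Prod.ext ?_ rfl
      funext i
      have h3 := il_pw (hX a) h1 i
      simp only [Function.comp, if_pos h3]
    · refine ⟨(d.1, 2 * d.2 + 1), ⟨Sum.inr b, h1, by simp [h2]⟩, ?_⟩
      refine Prod.ext ?_ rfl
      funext i
      have h3 := il_pw (hX' b) h1 i
      have h4 : d.1 i ∉ V := fun h5 => Finset.disjoint_left.mp hV h5 h3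
      simp only [Function.comp, if_neg h4]

private theorem il_sig (V : Finset ℕ) :
    Function.Injective (fun v => if v ∈ V then 2 * v else 2 * v + 1) := by
  intro u v h
  simp only at h
  split_ifs at h <;> omega

private theorem il_split {D : ℕ} {θ : Bp D → Bp D → ℂ} (h : Ker (RL (D := D)) θ)
    (hm : ∀ X Y A B, θ (ml X A) (ml Y B) = θ X Y * θ A B) {T : CS D} (hT : RepL θ T)
    {α β : Type} [Fintype α] [Fintype β] (X Y : α → Co D) (X' Y' : β → Co D)
    (V V' : Finset ℕ) (hV : Disjoint V V') (hX : ∀ a, X a ⊆ pw D V) (hY : ∀ a, Y a ⊆ pw D V)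
    (hX' : ∀ b, X' b ⊆ pw D V') (hY' : ∀ b, Y' b ⊆ pw D V') :
    ∫ ω, (∏ a, T.z ω (X a) (Y a)) * ∏ b, T.z ω (X' b) (Y' b) ∂T.P =
      (∫ ω, ∏ a, T.z ω (X a) (Y a) ∂T.P) * ∫ ω, ∏ b, T.z ω (X' b) (Y' b) ∂T.P := by
  classical
  let e : α → ℕ := fun a => (Fintype.equivFin α a : ℕ)
  let e' : β → ℕ := fun b => (Fintype.equivFin β b : ℕ)
  have he : Function.Injective e := fun a b hab =>
    (Fintype.equivFin α).injective (Fin.ext hab)
  have he' : Function.Injective e' := fun a b hab =>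
    (Fintype.equivFin β).injective (Fin.ext hab)
  have hs : Function.Injective (Sum.elim (fun a => 2 * e a) (fun b => 2 * e' b + 1)) := by
    rintro (a | a) (b | b) hab
    · simp only [Sum.elim_inl] at hab
      rw [he (show e a = e b by omega)]
    · simp only [Sum.elim_inl, Sum.elim_inr] at hab
      omega
    · simp only [Sum.elim_inl, Sum.elim_inr] at hab
      omega
    · simp only [Sum.elim_inr] at hab
      rw [he' (show e' a = e' b by omega)]
  have h1 : ∫ ω, (∏ a, T.z ω (X a) (Y a)) * ∏ b, T.z ω (X' b) (Y' b) ∂T.P =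
      ∫ ω, ∏ s : α ⊕ β, T.z ω (Sum.elim X X' s) (Sum.elim Y Y' s) ∂T.P := by
    refine integral_congr_ae (Filter.Eventually.of_forall fun ω => ?_)
    show _ = ∏ s : α ⊕ β, T.z ω (Sum.elim X X' s) (Sum.elim Y Y' s)
    rw [Fintype.prod_sum_type]
    rfl
  rw [h1, il_mean hT _ hs, il_mean hT e he, il_mean hT e' he',
    h.rel _ _ _ _ (Or.inr ⟨_, id, il_sig V, Function.injective_id, rfl, rfl⟩),
    il_rb e e' X X' V V' hV hX hX', il_rb e e' Y Y' V V' hV hY hY', hm]

private theorem il_prod {ι : Type} [Fintype ι] (p q : ι → ℕ) (u v : ι → ℂ)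
    (w : (Σ i : ι, Fin (p i) ⊕ Fin (q i)) → ℂ)
    (hw : ∀ i k, w ⟨i, Sum.inl k⟩ = u i) (hw' : ∀ i k, w ⟨i, Sum.inr k⟩ = v i) :
    ∏ i, (u i ^ p i * v i ^ q i) = ∏ j, w j := by
  rw [Fintype.prod_sigma]
  refine Finset.prod_congr rfl (fun i _ => ?_)
  rw [Fintype.prod_sum_type]
  simp only [hw, hw']
  rw [Finset.prod_const, Finset.prod_const, Finset.card_univ, Finset.card_univ,
    Fintype.card_fin, Fintype.card_fin]

private theorem il_prod' {D : ℕ} (T : CS D) (ω : T.Ω) {ι : Type} [Fintype ι] (p q : ι → ℕ)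
    (x y : ι → Co D) :
    ∏ i, (T.z ω (x i) (y i) ^ p i * (starRingEnd ℂ) (T.z ω (x i) (y i)) ^ q i) =
      ∏ j : (Σ i : ι, Fin (p i) ⊕ Fin (q i)),
        T.z ω (Sum.elim (fun _ => x j.1) (fun _ => y j.1) j.2)
          (Sum.elim (fun _ => y j.1) (fun _ => x j.1) j.2) := by
  refine il_prod p q _ _ _ (fun i k => rfl) (fun i k => ?_)
  exact (T.ck ω).herm _ _

private theorem il_moment {D : ℕ} {θ : Bp D → Bp D → ℂ} (h : Ker (RL (D := D)) θ)
    (hm : ∀ X Y A B, θ (ml X A) (ml Y B) = θ X Y * θ A B) (T : CS D) (hT : RepL θ T)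
    (ι κ : Type) [Fintype ι] [Fintype κ] (x y : ι → Co D) (x' y' : κ → Co D)
    (V V' : Finset ℕ) (hV : Disjoint V V') (hx : ∀ i, x i ⊆ pw D V ∧ y i ⊆ pw D V)
    (hx' : ∀ j, x' j ⊆ pw D V' ∧ y' j ⊆ pw D V') (p q : ι → ℕ) (p' q' : κ → ℕ) :
    ∫ ω, (∏ i, (T.z ω (x i) (y i) ^ p i * (starRingEnd ℂ) (T.z ω (x i) (y i)) ^ q i)) *
        ∏ j, (T.z ω (x' j) (y' j) ^ p' j * (starRingEnd ℂ) (T.z ω (x' j) (y' j)) ^ q' j) ∂T.P =
      (∫ ω, ∏ i, (T.z ω (x i) (y i) ^ p i * (starRingEnd ℂ) (T.z ω (x i) (y i)) ^ q i) ∂T.P) *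
        ∫ ω, ∏ j, (T.z ω (x' j) (y' j) ^ p' j *
          (starRingEnd ℂ) (T.z ω (x' j) (y' j)) ^ q' j) ∂T.P := by
  simp only [il_prod']
  refine il_split h hm hT _ _ _ _ V V' hV ?_ ?_ ?_ ?_
  · rintro ⟨i, k | k⟩
    · exact (hx i).1
    · exact (hx i).2
  · rintro ⟨i, k | k⟩
    · exact (hx i).2
    · exact (hx i).1
  · rintro ⟨i, k | k⟩
    · exact (hx' i).1
    · exact (hx' i).2
  · rintro ⟨i, k | k⟩
    · exact (hx' i).2
    · exact (hx' i).1

theorem ind_l {D : ℕ} {θ : Bp D → Bp D → ℂ} (h : Ker (RL (D := D)) θ)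
    (hm : ∀ X Y A B, θ (ml X A) (ml Y B) = θ X Y * θ A B) (T : CS D) (hT : RepL θ T)
    (ι κ : Type) [Fintype ι] [Fintype κ] (x y : ι → Co D) (x' y' : κ → Co D)
    (V V' : Finset ℕ) (hV : Disjoint V V') (hx : ∀ i, x i ⊆ pw D V ∧ y i ⊆ pw D V)
    (hx' : ∀ j, x' j ⊆ pw D V' ∧ y' j ⊆ pw D V') :
    ProbabilityTheory.IndepFun (fun ω i => T.z ω (x i) (y i)) (fun ω j => T.z ω (x' j) (y' j))
      T.P := by
  classical
  set Z : T.Ω → ι → ℂ := fun ω i => T.z ω (x i) (y i) with hZ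
  set Z' : T.Ω → κ → ℂ := fun ω j => T.z ω (x' j) (y' j) with hZ'
  have hZm : Measurable Z := measurable_pi_iff.2 fun i => T.meas _ _
  have hZm' : Measurable Z' := measurable_pi_iff.2 fun i => T.meas _ _
  have hn : ∀ ω a b, ‖T.z ω a b‖ ≤ 1 := fun ω a b => il_norm (T.ck ω) a b
  rw [ProbabilityTheory.indepFun_iff_map_prod_eq_prod_map_map hZm.aemeasurable hZm'.aemeasurable]
  let F : T.Ω × T.Ω → ι ⊕ κ → ℂ := fun ω => Sum.elim (Z ω.1) (Z' ω.1)
  let G : T.Ω × T.Ω → ι ⊕ κ → ℂ := fun ω => Sum.elim (Z ω.1) (Z' ω.2)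
  have hFm : Measurable F := by
    refine measurable_pi_iff.2 fun s => ?_
    rcases s with i | j
    · exact (T.meas _ _).comp measurable_fst
    · exact (T.meas _ _).comp measurable_fst
  have hGm : Measurable G := by
    refine measurable_pi_iff.2 fun s => ?_
    rcases s with i | j
    · exact (T.meas _ _).comp measurable_fst
    · exact (T.meas _ _).comp measurable_snd
  have hFG : (T.P.prod T.P).map F = (T.P.prod T.P).map G := by
    refine law_m (T.P.prod T.P) (ι ⊕ κ) F G hFm hGm ?_ ?_ ?_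
    · rintro ω (i | j)
      · exact hn _ _ _
      · exact hn _ _ _
    · rintro ω (i | j)
      · exact hn _ _ _
      · exact hn _ _ _
    · intro p q
      let f : T.Ω → ℂ := fun ω => ∏ i, (Z ω i ^ p (Sum.inl i) * (starRingEnd ℂ) (Z ω i) ^ q (Sum.inl i))
      let g : T.Ω → ℂ := fun ω => ∏ j, (Z' ω j ^ p (Sum.inr j) * (starRingEnd ℂ) (Z' ω j) ^ q (Sum.inr j))
      have e1 : ∀ ω : T.Ω × T.Ω, ∏ s, (F ω s ^ p s * (starRingEnd ℂ) (F ω s) ^ q s) =
          f ω.1 * g ω.1 := by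
        intro ω
        rw [Fintype.prod_sum_type]
        rfl
      have e2 : ∀ ω : T.Ω × T.Ω, ∏ s, (G ω s ^ p s * (starRingEnd ℂ) (G ω s) ^ q s) =
          f ω.1 * g ω.2 := by
        intro ω
        rw [Fintype.prod_sum_type]
        rfl
      rw [integral_congr_ae (Filter.Eventually.of_forall e1),
        integral_congr_ae (Filter.Eventually.of_forall e2), integral_prod_mul f g]
      have e3 : ∫ ω : T.Ω × T.Ω, f ω.1 * g ω.1 ∂(T.P.prod T.P) = ∫ ω, f ω * g ω ∂T.P := by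
        rw [integral_fun_fst (fun ω => f ω * g ω)]
        simp
      rw [e3]
      exact il_moment h hm T hT ι κ x y x' y' V V' hV hx hx' _ _ _ _
  let R : (ι ⊕ κ → ℂ) → (ι → ℂ) × (κ → ℂ) := fun v => (fun i => v (Sum.inl i), fun j => v (Sum.inr j))
  have hR : Measurable R := by
    refine Measurable.prodMk ?_ ?_
    · exact measurable_pi_iff.2 fun i => measurable_pi_apply _
    · exact measurable_pi_iff.2 fun i => measurable_pi_apply _
  have e4 : T.P.map (fun ω => (Z ω, Z' ω)) = ((T.P.prod T.P).map F).map R := by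
    rw [Measure.map_map hR hFm]
    have : R ∘ F = (fun ω => (Z ω, Z' ω)) ∘ Prod.fst := rfl
    rw [this, ← Measure.map_map (hZm.prodMk hZm') measurable_fst, Measure.map_fst_prod]
    simp
  have e5 : (T.P.map Z).prod (T.P.map Z') = ((T.P.prod T.P).map G).map R := by
    rw [Measure.map_map hR hGm, Measure.map_prod_map _ _ hZm hZm']
    rfl
  rw [e4, e5, hFG]

end Pool.Agent.Lib.MP_90b327_co.RS
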