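import Mathlib
import Pool.Agent.Lib.MP_90b327_co.RS.RDef
import Pool.Agent.Lib.MP_90b327_co.RS.ColL
import Pool.Agent.Lib.MP_90b327_co.RS.IndL

/-!
MODULE LevTwo (10 minutes, old scale). Dissociated column spaces (text 3).

PROOF. `exists_cs_l` and `ind_l`.
-/

set_option autoImplicit false

namespace Pool.Agent.Lib.MP_90b327_co.RS

open Finset MeasureTheory Filter Pool.Agent.Lib.MP_90b327_co Pool.Agent.Lib.MP_90b327_co.RB
  Pool.Agent.Lib.MP_90b327_co.WW

theorem exists_ds {D : ℕ} {θ : Bp D → Bp D → ℂ} (h : Ker (RL (D := D)) θ)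
    (hm : ∀ X Y A B, θ (ml X A) (ml Y B) = θ X Y * θ A B) : ∃ T : DS D, RepL θ T.toCS := by
  obtain ⟨T, hT⟩ := exists_cs_l h
  have hi := ind_l h hm T hT
  exact ⟨{ toCS := T, ind := hi }, hT⟩

end Pool.Agent.Lib.MP_90b327_co.RS
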