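import Mathlib
import Pool.Agent.Lib.MP_90b327_co.RS.RDef
import Pool.Agent.Lib.MP_90b327_co.WW.MrgC
import Pool.Agent.Lib.MP_90b327_co.RB.Mg

/-!
MODULE MrgL (40 minutes, old scale). Merging data of level one (text 2).

PROOF. As `mrg_c` (WW/MrgC) and `mrg1` (RB/Mg). `rb σ τ (rb σ' τ' X) = rb (σ ∘ σ') (τ ∘ τ') X`, `rb` commutes with unions and `insert`; membership in
`ml X A`: `(c, j) ∈ ml X A` iff `(∃ c' j', (c', j') ∈ X, c = (2 * ·) ∘ c', j = 2 * j')` or `(∃ c' j', (c', j') ∈ A, c = (2 * · + 1) ∘ c', j = 2 * j' + 1)`.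
`rel`: (i) `X' = insert (c, j) X`, `Y' = insert (c, j) Y`, `Free X Y c j`: then `ml X' A = insert (2c, 2j) (ml X A)`, `ml Y' B = insert (2c, 2j) (ml Y B)`, and `Free (ml X A) (ml Y B) (2c) (2j)`: the
column `2j` contains only cells of the copies of `X`, `Y`, and `Bel (2c) (2c'')` iff `Bel c c''`. (ii) `X' = rb σ τ X`: `ml (rb σ τ X) A = rb σ' τ' (ml X A)` with `σ' (2 i) = 2 σ i`, `σ' (2 i + 1) = 2 i + 1`
(injective), `τ'` likewise, and the same for `Y`, `B`.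
`left`: `k (ml X A) (ml Y A) = k X Y`: remove the cells of `A` one at a time (`Finset.induction_on A`): the cell `(2c + 1, 2j + 1)` is `Free` since in the column `2j + 1` both patterns agree (they contain there
the same cells of `A`); this gives `k (ml X ∅) (ml Y ∅)`, and `ml X ∅ = rb (2 * ·) (2 * ·) X` (second alternative of `RL`). `right` in the same way.
-/

set_option autoImplicit false

namespace Pool.Agent.Lib.MP_90b327_co.RS

open Finset MeasureTheory Filter Pool.Agent.Lib.MP_90b327_co Pool.Agent.Lib.MP_90b327_co.RB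
  Pool.Agent.Lib.MP_90b327_co.WW

private theorem MrgL_rb {D : ℕ} (σ τ : ℕ → ℕ) (X : Bp D) (c : Ce D) (k : ℕ) :
    (c, k) ∈ rb σ τ X ↔ ∃ (c' : Ce D) (n : ℕ), (c', n) ∈ X ∧ σ ∘ c' = c ∧ τ n = k := by
  unfold rb
  simp only [Finset.mem_image, Prod.exists, Prod.mk.injEq]

private theorem MrgL_even {D : ℕ} (X A : Bp D) (c : Ce D) (j : ℕ) :
    (c, 2 * j) ∈ ml X A ↔ ∃ c' : Ce D, (c', j) ∈ X ∧ (fun i => 2 * i) ∘ c' = c := by
  unfold ml
  rw [Finset.mem_union, MrgL_rb, MrgL_rb]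
  constructor
  · rintro (⟨c', n, hn, hc, hk⟩ | ⟨c', n, hn, hc, hk⟩)
    · have h : n = j := by omega
      exact ⟨c', h ▸ hn, hc⟩
    · omega
  · rintro ⟨c', h, hc⟩
    exact Or.inl ⟨c', j, h, hc, rfl⟩

private theorem MrgL_cinj {D : ℕ} {σ : ℕ → ℕ} (hσ : Function.Injective σ) {c c' : Ce D}
    (h : σ ∘ c = σ ∘ c') : c = c' := by
  funext i
  exact hσ (congrFun h i)

private theorem MrgL_e : Function.Injective (fun i : ℕ => 2 * i) := fun a b h => by
  simp only at h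
  omega

private theorem MrgL_o : Function.Injective (fun i : ℕ => 2 * i + 1) := fun a b h => by
  simp only at h
  omega

private theorem MrgL_free {D : ℕ} {X Y A B : Bp D} {c : Ce D} {j : ℕ} (h : Free X Y c j) :
    Free (ml X A) (ml Y B) ((fun i => 2 * i) ∘ c) (2 * j) := by
  refine ⟨?_, ?_, ?_⟩
  · rw [MrgL_even]
    rintro ⟨c', h1, h2⟩
    rw [MrgL_cinj MrgL_e h2] at h1
    exact h.1 h1
  · rw [MrgL_even]
    rintro ⟨c', h1, h2⟩
    rw [MrgL_cinj MrgL_e h2] at h1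
    exact h.2.1 h1
  · intro c'' hB
    rw [MrgL_even, MrgL_even]
    have key : ∀ c' : Ce D, (fun i => 2 * i) ∘ c' = c'' → ((c', j) ∈ X ↔ (c', j) ∈ Y) := by
      intro c' hc'
      refine h.2.2 c' fun i => ?_
      obtain ⟨i', hi'⟩ := hB i
      refine ⟨i', ?_⟩
      rw [← hc'] at hi'
      have h3 : 2 * c i = 2 * c' i' := hi'
      omega
    constructor
    · rintro ⟨c', h1, h2⟩
      exact ⟨c', (key c' h2).1 h1, h2⟩
    · rintro ⟨c', h1, h2⟩
      exact ⟨c', (key c' h2).2 h1, h2⟩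

private theorem MrgL_insert {D : ℕ} (X A : Bp D) (c : Ce D) (j : ℕ) :
    ml (insert (c, j) X) A = insert ((fun i => 2 * i) ∘ c, 2 * j) (ml X A) := by
  unfold ml rb
  rw [Finset.image_insert, Finset.insert_union]

/-- extension of a relabelling of the even numbers -/
private def MrgL_E (σ : ℕ → ℕ) (n : ℕ) : ℕ := if n % 2 = 0 then 2 * σ (n / 2) else n

private theorem MrgL_E_even (σ : ℕ → ℕ) (i : ℕ) : MrgL_E σ (2 * i) = 2 * σ i := by
  unfold MrgL_E
  rw [if_pos (by omega), Nat.mul_div_cancel_left i (by omega)]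

private theorem MrgL_E_odd (σ : ℕ → ℕ) (i : ℕ) : MrgL_E σ (2 * i + 1) = 2 * i + 1 := by
  unfold MrgL_E
  rw [if_neg (by omega)]

private theorem MrgL_E_inj {σ : ℕ → ℕ} (h : Function.Injective σ) :
    Function.Injective (MrgL_E σ) := by
  intro a b hab
  rcases Nat.even_or_odd' a with ⟨i, rfl | rfl⟩ <;> rcases Nat.even_or_odd' b with ⟨j, rfl | rfl⟩
  · rw [MrgL_E_even, MrgL_E_even] at hab
    rw [h (by omega : σ i = σ j)]
  · rw [MrgL_E_even, MrgL_E_odd] at hab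
    omega
  · rw [MrgL_E_even, MrgL_E_odd] at hab
    omega
  · rw [MrgL_E_odd, MrgL_E_odd] at hab
    exact hab

private theorem MrgL_rb_rb {D : ℕ} (σ τ σ' τ' : ℕ → ℕ) (X : Bp D) :
    rb σ' τ' (rb σ τ X) = rb (fun i => σ' (σ i)) (fun j => τ' (τ j)) X := by
  unfold rb
  rw [Finset.image_image]
  rfl

private theorem MrgL_rb_union {D : ℕ} (σ τ : ℕ → ℕ) (X Y : Bp D) :
    rb σ τ (X ∪ Y) = rb σ τ X ∪ rb σ τ Y :=
  Finset.image_union _ _

private theorem MrgL_rl {D : ℕ} (σ τ : ℕ → ℕ) (X A : Bp D) :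
    ml (rb σ τ X) A = rb (MrgL_E σ) (MrgL_E τ) (ml X A) := by
  unfold ml
  rw [MrgL_rb_union, MrgL_rb_rb, MrgL_rb_rb, MrgL_rb_rb]
  simp only [MrgL_E_even, MrgL_E_odd]

private theorem MrgL_drop {D : ℕ} {k : Bp D → Bp D → ℂ}
    (hk : ∀ X Y X' Y', RL X Y X' Y' → k X Y = k X' Y') (U V : Bp D) (C : Bp D)
    (hC : ∀ p ∈ C, ∀ c' : Ce D, (c', p.2) ∉ U ∧ (c', p.2) ∉ V) :
    k (U ∪ C) (V ∪ C) = k U V := by
  induction C using Finset.induction_on with
  | empty => rw [Finset.union_empty, Finset.union_empty]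
  | insert p C hp ih =>
    obtain ⟨c, j⟩ := p
    rw [← ih (fun p' hp' => hC p' (Finset.mem_insert_of_mem hp'))]
    have h0 := hC (c, j) (Finset.mem_insert_self _ _)
    refine (hk _ _ _ _ (Or.inl ⟨c, j, ⟨?_, ?_, ?_⟩, ?_, ?_⟩)).symm
    · rw [Finset.mem_union]
      rintro (h | h)
      · exact (h0 c).1 h
      · exact hp h
    · rw [Finset.mem_union]
      rintro (h | h)
      · exact (h0 c).2 h
      · exact hp h
    · intro c' _
      rw [Finset.mem_union, Finset.mem_union]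
      constructor
      · rintro (h | h)
        · exact absurd h (h0 c').1
        · exact Or.inr h
      · rintro (h | h)
        · exact absurd h (h0 c').2
        · exact Or.inr h
    · rw [Finset.union_insert]
    · rw [Finset.union_insert]

private theorem MrgL_col {D : ℕ} {σ τ σ' τ' : ℕ → ℕ} (h : ∀ i j, τ i ≠ τ' j) (X C : Bp D) :
    ∀ p ∈ rb σ' τ' C, ∀ c' : Ce D, (c', p.2) ∉ rb σ τ X := by
  rintro ⟨c, j⟩ hp c' hc'
  obtain ⟨_, n, _, _, hn⟩ := (MrgL_rb _ _ _ _ _).1 hp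
  obtain ⟨_, m, _, _, hm⟩ := (MrgL_rb _ _ _ _ _).1 hc'
  exact h m n (hm.trans hn.symm)

theorem mrg_l (D : ℕ) : Mrg (ml (D := D)) (RL (D := D)) := by
  refine ⟨?_, ?_, ?_⟩
  · rintro X Y X' Y' A B (⟨c, j, hf, rfl, rfl⟩ | ⟨σ, τ, hσ, hτ, rfl, rfl⟩)
    · exact Or.inl ⟨_, 2 * j, MrgL_free hf, MrgL_insert _ _ _ _, MrgL_insert _ _ _ _⟩
    · exact Or.inr ⟨_, _, MrgL_E_inj hσ, MrgL_E_inj hτ, MrgL_rl _ _ _ _, MrgL_rl _ _ _ _⟩
  · intro k hk X Y A
    unfold ml
    rw [MrgL_drop hk]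
    · exact (hk _ _ _ _ (Or.inr ⟨_, _, MrgL_e, MrgL_e, rfl, rfl⟩)).symm
    · intro p hp c'
      exact ⟨MrgL_col (fun i j => by omega) X A p hp c',
        MrgL_col (fun i j => by omega) Y A p hp c'⟩
  · intro k hk X A B
    unfold ml
    rw [Finset.union_comm, Finset.union_comm (rb _ _ X) (rb _ _ B), MrgL_drop hk]
    · exact (hk _ _ _ _ (Or.inr ⟨_, _, MrgL_o, MrgL_o, rfl, rfl⟩)).symm
    · intro p hp c'
      exact ⟨MrgL_col (fun i j => by omega) A X p hp c',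
        MrgL_col (fun i j => by omega) B X p hp c'⟩

end Pool.Agent.Lib.MP_90b327_co.RS
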