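import Mathlib
import Pool.Agent.Lib.MP_90b327_co.RS.RDef
import Pool.Agent.Lib.MP_90b327_co.RS.EndMC
import Pool.Agent.Lib.MP_90b327_co.RS.LevTwo
import Pool.Agent.Lib.MP_90b327_co.RS.MrgL
import Pool.Agent.Lib.MP_90b327_co.RS.KerL
import Pool.Agent.Lib.MP_90b327_co.RB.RepC
import Pool.Agent.Lib.MP_90b327_co.RB.Fatou

/-!
MODULE NoX (50 minutes, old scale). There is no kernel (text 2, 3).

PROOF. `Q(n) ≥ 1` for `n ≥ n₀`, `n₀ ≥ max M 1`. For `n ≥ n₀`: `hbad ∅ (range n) (range (Q n))`: `g ∅ (pw D (range n) ×ˢ range (Q n).toNat) = 0`. So `δ ≤ 1/2` (`bk_half`), `ker_l`, `rep (mrg_l D)`: `r : Repr ml RL κ`, `κ X Y = (g X Y - δ²)/(δ - δ²)`. Let `J n ω = (r.th ω ∅ (pw D (range n) ×ˢ range (Q n).toNat)).re`: `∫ J n = - c`, `c = δ²/(δ - δ²) > 0` for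
`n ≥ n₀`, `|J n ω| ≤ 1` (`ker_norm_le`), measurable. For fixed `ω`: `exists_ds (r.ker ω) (r.mul ω)` gives `T`, `RepL`, and `r.th ω ∅ (pw D (range n) ×ˢ range b) = ∫ zn T n ^ b` (`RepL` with `J = range b`; `colm` of a product: see `EndB_colm` in WW/EndB). `end_mc` gives `q₀`; the sum in `fatou_contra` runs over `n ∈ range R` with the values `J (q n)`: the term `n = 0` is
`≥ -1`, the others are the `i = n - 1 < R - 1`. So `- ε` for large `R`. `fatou_contra`.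
-/

set_option autoImplicit false

namespace Pool.Agent.Lib.MP_90b327_co.RS

open Finset MeasureTheory Filter Pool.Agent.Lib.MP_90b327_co Pool.Agent.Lib.MP_90b327_co.RB
  Pool.Agent.Lib.MP_90b327_co.WW

/-- a polynomial with positive leading coefficient and `Q(0) = 0` is eventually at least one -/
private theorem NoX_ev (Q : Polynomial ℤ) (hQ0 : Q.eval 0 = 0) (hQ : 0 < Q.leadingCoeff) :
    ∃ n₀ : ℕ, ∀ n : ℕ, n₀ ≤ n → 1 ≤ Q.eval (n : ℤ) := by
  have hinj : Function.Injective (Int.castRingHom ℝ) := Int.cast_injective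
  have hdeg : 0 < Q.degree := by
    by_contra hcon
    have h1 := Polynomial.eq_C_of_degree_le_zero (not_lt.1 hcon)
    have h2 : Q.coeff 0 = 0 := by
      rw [Polynomial.coeff_zero_eq_eval_zero]
      exact hQ0
    rw [h2, Polynomial.C_0] at h1
    rw [h1, Polynomial.leadingCoeff_zero] at hQ
    exact lt_irrefl _ hQ
  have hd' : 0 < (Q.map (Int.castRingHom ℝ)).degree := by
    rw [Polynomial.degree_map_eq_of_injective hinj]
    exact hdeg
  have hl' : 0 ≤ (Q.map (Int.castRingHom ℝ)).leadingCoeff := by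
    rw [Polynomial.leadingCoeff_map_of_injective hinj]
    rw [eq_intCast]
    exact_mod_cast hQ.le
  have ht := (Q.map (Int.castRingHom ℝ)).tendsto_atTop_of_leadingCoeff_nonneg hd' hl'
  have ht2 := ht.comp (tendsto_natCast_atTop_atTop (R := ℝ))
  obtain ⟨n₀, hn₀⟩ := Filter.eventually_atTop.1 (ht2.eventually_ge_atTop 1)
  refine ⟨n₀, fun n hn => ?_⟩
  have h3 := hn₀ n hn
  simp only [Function.comp_apply] at h3
  have h4 : (Q.map (Int.castRingHom ℝ)).eval ((n : ℕ) : ℝ) = ((Q.eval (n : ℤ) : ℤ) : ℝ) := by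
    have h5 := Polynomial.eval_intCast_map (Int.castRingHom ℝ) Q (n : ℤ)
    simpa using h5
  rw [h4] at h3
  exact_mod_cast h3

private theorem NoX_colm_empty {D : ℕ} (j : ℕ) : colm (∅ : Bp D) j = ∅ := by
  unfold colm
  simp

private theorem NoX_colm {D : ℕ} (x : Co D) (E : Finset ℕ) (j : ℕ) (hj : j ∈ E) :
    colm (x ×ˢ E : Bp D) j = x := by
  ext c
  unfold colm
  rw [Finset.mem_image]
  constructor
  · rintro ⟨p, hp, rfl⟩
    rw [Finset.mem_filter, Finset.mem_product] at hp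
    exact hp.1.1
  · intro hc
    refine ⟨(c, j), ?_, rfl⟩
    rw [Finset.mem_filter, Finset.mem_product]
    exact ⟨⟨hc, hj⟩, rfl⟩

/-- powers of `zn` -/
private theorem NoX_pow {D : ℕ} {θ : Bp D → Bp D → ℂ} (T : CS D) (h : RepL θ T) (n b : ℕ) :
    θ ∅ (pw D (range n) ×ˢ range b) = ∫ ω, zn T n ω ^ b ∂T.P := by
  have h2 := h ∅ (pw D (range n) ×ˢ range b) (range b) (fun c hc => absurd hc (Finset.notMem_empty c))
    (fun c hc => (Finset.mem_product.1 hc).2)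
  rw [h2]
  refine integral_congr_ae (ae_of_all _ fun ω => ?_)
  simp only
  have h3 : ∀ j ∈ range b, T.z ω (colm ∅ j) (colm (pw D (range n) ×ˢ range b) j) = zn T n ω := by
    intro j hj
    rw [NoX_colm_empty, NoX_colm _ _ _ hj]
    rfl
  rw [Finset.prod_congr rfl h3, Finset.prod_const, Finset.card_range]

theorem no_x {D : ℕ} (hD : 1 ≤ D) {δ : ℝ} (hδ : 0 < δ) {g : Bp D → Bp D → ℝ} (hg : BK D δ g)
    (M : ℕ) (Q : Polynomial ℤ) (hQ0 : Q.eval 0 = 0) (hQ : 0 < Q.leadingCoeff)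
    (hbad : ∀ (X : Bp D) (γ E : Finset ℕ), M ≤ γ.card → 1 ≤ E.card →
      (E.card : ℤ) = Q.eval (γ.card : ℤ) → Disjoint X (pw D γ ×ˢ E) →
      g X (X ∪ pw D γ ×ˢ E) = 0) : False := by
  obtain ⟨n₁, hn₁⟩ := NoX_ev Q hQ0 hQ
  set n₀ : ℕ := max n₁ M with hn₀
  let P : ℕ → Bp D := fun n => pw D (range n) ×ˢ range (Q.eval (n : ℤ)).toNat
  -- the kernel vanishes at the bad pairs
  have hz : ∀ n, n₀ ≤ n → g ∅ (P n) = 0 := by
    intro n hn
    have h1 : 1 ≤ Q.eval (n : ℤ) := hn₁ n ((le_max_left _ _).trans hn)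
    have h2 : M ≤ n := (le_max_right _ _).trans hn
    have h3 := hbad ∅ (range n) (range (Q.eval (n : ℤ)).toNat) (by rw [Finset.card_range]; exact h2)
      (by rw [Finset.card_range]; omega)
      (by rw [Finset.card_range, Finset.card_range]; exact Int.toNat_of_nonneg (by omega))
      (Finset.disjoint_empty_left _)
    rw [Finset.empty_union] at h3
    exact h3
  have hδ2 : δ ≤ 1 / 2 := bk_half hg hδ ∅ (P n₀) (hz n₀ le_rfl)
  have hδ1 : δ < 1 := by linarith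
  have hpos : 0 < δ - δ ^ 2 := by nlinarith
  have hker := ker_l hg hδ hδ1
  obtain ⟨r⟩ := rep (mrg_l D) _ hker
  let J : ℕ → r.Ω → ℝ := fun n ω => (r.th ω ∅ (P n)).re
  have hJm : ∀ n, Measurable (J n) := fun n => Complex.measurable_re.comp (r.meas ∅ (P n))
  have hth1 : ∀ n ω, ‖r.th ω ∅ (P n)‖ ≤ 1 := fun n ω => ker_norm_le (r.ker ω) _ _
  have hJb : ∀ n ω, |J n ω| ≤ 1 := fun n ω => (Complex.abs_re_le_norm _).trans (hth1 n ω)
  have hmean : ∀ n, n₀ ≤ n → ∫ ω, J n ω ∂r.P = -(δ ^ 2 / (δ - δ ^ 2)) := by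
    intro n hn
    have hi : Integrable (fun ω => r.th ω ∅ (P n)) r.P :=
      Integrable.of_bound (r.meas ∅ (P n)).aestronglyMeasurable 1 (ae_of_all _ (hth1 n))
    have h1 := r.mean ∅ (P n)
    rw [hz n hn] at h1
    have h2 : ∫ ω, J n ω ∂r.P = (∫ ω, r.th ω ∅ (P n) ∂r.P).re := by
      have h3 := integral_re (μ := r.P) (𝕜 := ℂ) hi
      simpa using h3
    rw [h2, ← h1, Complex.ofReal_re, zero_sub, neg_div]
  refine fatou_contra r.P J hJm hJb (δ ^ 2 / (δ - δ ^ 2)) (by positivity) n₀ hmean (fun ω => ?_)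
  obtain ⟨T, hT⟩ := exists_ds (r.ker ω) (r.mul ω)
  obtain ⟨q₀, hq₀, hq⟩ := end_mc hD Q hQ0 hQ T
  refine ⟨q₀, hq₀, fun q hq1 hqd ε hε => ?_⟩
  obtain ⟨R₀, hR₀⟩ := hq q hq1 hqd (ε / 2) (by positivity)
  obtain ⟨R₁, hR₁⟩ := exists_nat_ge (2 / ε)
  refine ⟨R₀ + R₁ + 1, fun R hR => ?_⟩
  obtain ⟨S, rfl⟩ : ∃ S, R = S + 1 := ⟨R - 1, by omega⟩
  have hS := hR₀ S (by omega)
  have hSR : 2 / ε ≤ (S : ℝ) := hR₁.trans (by exact_mod_cast (by omega : R₁ ≤ S))
  rw [div_le_iff₀ hε] at hSR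
  have hRpos : (0 : ℝ) < ((S + 1 : ℕ) : ℝ) := by positivity
  rw [le_div_iff₀ hRpos, Finset.sum_range_succ']
  have h4 : ∑ i ∈ range S, J (q * (i + 1)) ω = ∑ i ∈ range S, (∫ ω', zn T.toCS (q * (i + 1)) ω' ^
        (Q.eval ((q * (i + 1) : ℕ) : ℤ)).toNat ∂T.P).re := by
    refine Finset.sum_congr rfl (fun i _ => ?_)
    change (r.th ω ∅ (P (q * (i + 1)))).re = _
    rw [← NoX_pow T.toCS hT]
  rw [h4]
  have h5 := (abs_le.1 (hJb (q * 0) ω)).1
  rw [Nat.cast_add, Nat.cast_one]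
  have h6 : -ε * ((S : ℝ) + 1) ≤ -(ε / 2) * S + -1 := by nlinarith
  exact h6.trans (add_le_add hS h5)

end Pool.Agent.Lib.MP_90b327_co.RS
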