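import Mathlib
import Pool.Agent.Lib.MP_90b327_co.RS.RDef
import Pool.Agent.Lib.MP_90b327_co.RS.NoX
import Pool.Agent.Lib.MP_90b327_co.WW.GLimit
import Pool.Agent.Lib.MP_90b327_co.WW.GFiber
import Pool.Agent.Lib.MP_90b327_co.WW.GJoint
import Pool.Agent.Lib.MP_90b327_co.WW.WShape
import Pool.Agent.Lib.MP_90b327_co.WW.BipW

/-!
MODULE XFinal (25 minutes, old scale). The theorem (text 1).

PROOF. As `w_final` in WW/WFinal with `F n = (Q.eval n).toNat` and `w = 0`: `Adm M F 0 m n` means `M ≤ m`, `1 ≤ n`, `n = F m`; so `(n : ℤ) = Q.eval m` (`toNat` of a positive number: `F m = n ≥ 1`). `no_x` in place of `no_bk` (its hypothesis follows from `bip_bad`: if `(E.card : ℤ) = Q.eval γ.card` and `1 ≤ E.card` then `E.card = F γ.card`).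
-/

set_option autoImplicit false

namespace Pool.Agent.Lib.MP_90b327_co.RS

open Finset MeasureTheory Filter Pool.Agent.Lib.MP_90b327_co Pool.Agent.Lib.MP_90b327_co.RB
  Pool.Agent.Lib.MP_90b327_co.WW

theorem x_final (D : ℕ) (hD : 1 ≤ D) (δ : ℝ) (hδ : 0 < δ) (M : ℕ) (Q : Polynomial ℤ)
    (hQ0 : Q.eval 0 = 0) (hQ : 0 < Q.leadingCoeff) :
    ∃ N₀ : ℕ, ∀ N, N₀ ≤ N → ∀ S : Finset (Finset (Fin (D + 1) → Fin N)),
      δ * 2 ^ (N ^ (D + 1)) < (S.card : ℝ) →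
      ∃ A ∈ S, ∃ γ Γ : Finset (Fin N), M ≤ γ.card ∧ 1 ≤ Γ.card ∧
        (Γ.card : ℤ) = Q.eval (γ.card : ℤ) ∧ Disjoint A (cyl γ Γ) ∧ A ∪ cyl γ Γ ∈ S := by
  obtain ⟨F, hF⟩ : ∃ F : ℕ → ℕ, F = fun n : ℕ => (Q.eval (n : ℤ)).toNat := ⟨_, rfl⟩
  obtain ⟨w, hw⟩ : ∃ w : ℕ → ℕ, w = fun _ => 0 := ⟨_, rfl⟩
  have key : ∃ N₀ : ℕ, ∀ S : Finset (Finset (Fin (D + 1) → Fin N₀)),
      δ * 2 ^ (N₀ ^ (D + 1)) < (S.card : ℝ) → GoodS (WSh D M F w) N₀ S := by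
    by_contra hcon
    push Not at hcon
    obtain ⟨δ', hδ', ⟨L⟩⟩ := exists_glim (D + 1) (by omega) (WSh D M F w) δ (fun N => by
      obtain ⟨S, hS, hS'⟩ := hcon N
      exact ⟨S, hS, hS'⟩)
    obtain ⟨g, hg⟩ := exists_jk L
    refine no_x hD (lt_of_lt_of_le hδ hδ') (bip_w hg) M Q hQ0 hQ ?_
    intro X γ E h1 h2 h3 h4
    refine bip_bad hg X γ E ⟨h1, h2, ?_, ?_⟩ h4
    · rw [hF]
      show (Q.eval (γ.card : ℤ)).toNat ≤ E.card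
      rw [← h3, Int.toNat_natCast]
    · rw [hF, hw]
      show E.card ≤ (Q.eval (γ.card : ℤ)).toNat + 0
      rw [← h3, Int.toNat_natCast, add_zero]
  obtain ⟨N₀, hN₀⟩ := key
  refine ⟨N₀, fun N hN S hS => ?_⟩
  obtain ⟨A, hA, P, ⟨γ, Γ, hP, h1, h2, h3, h4⟩, h5, h6⟩ :=
    gfiber (D + 1) (WSh D M F w) δ hδ N₀ hN₀ N hN S hS
  rw [hP] at h5 h6
  refine ⟨A, hA, γ, Γ, h1, h2, ?_, h5, h6⟩
  rw [hF] at h3 h4
  rw [hw] at h4
  have h3' : (Q.eval (γ.card : ℤ)).toNat ≤ Γ.card := h3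
  have h4' : Γ.card ≤ (Q.eval (γ.card : ℤ)).toNat + 0 := h4
  have h5' : (Q.eval (γ.card : ℤ)).toNat = Γ.card := by omega
  omega

end Pool.Agent.Lib.MP_90b327_co.RS
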