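import Mathlib
import Pool.Agent.Lib.MP_90b327_co.RS.RDef
import Pool.Agent.Lib.MP_90b327_co.RS.XFinal

/-!
MODULE XCoord (40 minutes, old scale). The theorem for an arbitrary special coordinate `i`, any `d ≥ 2`.

The shape is `Fintype.piFinset (Function.update (fun _ => γ) i Γ)`: the coordinate `i` lies in `Γ`, all others in `γ`.
PROOF. `d = D + 1`, `D ≥ 1` (`obtain ⟨D, rfl⟩`). Let `s = Equiv.swap i (Fin.last D)` and `Φ c = c ∘ s` (an involution of the cells). Apply `x_final` to the family `S' = S.image (fun A => A.image Φ)` (same cardinality: `Finset.card_image_of_injective`,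
`Finset.image_injective`). It gives `A' ∈ S'`, i.e. `A' = A.image Φ`, `A ∈ S`, and `A' ∪ cyl γ Γ = B.image Φ`, `B ∈ S`. Apply `image Φ` again: `B = A ∪ (cyl γ Γ).image Φ`, and `(cyl γ Γ).image Φ = Fintype.piFinset (Function.update (fun _ => γ) i Γ)` (membership: `c ∈` right side iff `c ∘ s ∈ cyl γ Γ`;
for `j ≠ i`, `s j` is not the last coordinate or `j` is it and then `s j = i`; `Fin.lastCases`). `N₀` does not depend on `i` (the same `N₀` of `x_final`).
-/

set_option autoImplicit false

namespace Pool.Agent.Lib.MP_90b327_co.RS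

open Finset MeasureTheory Filter Pool.Agent.Lib.MP_90b327_co Pool.Agent.Lib.MP_90b327_co.RB
  Pool.Agent.Lib.MP_90b327_co.WW

theorem x_coord (d : ℕ) (hd : 2 ≤ d) (δ : ℝ) (hδ : 0 < δ) (M : ℕ) (Q : Polynomial ℤ)
    (hQ0 : Q.eval 0 = 0) (hQ : 0 < Q.leadingCoeff) :
    ∃ N₀ : ℕ, ∀ N, N₀ ≤ N → ∀ (i : Fin d) (S : Finset (Finset (Fin d → Fin N))),
      δ * 2 ^ (N ^ d) < (S.card : ℝ) →
      ∃ A ∈ S, ∃ γ Γ : Finset (Fin N), M ≤ γ.card ∧ 1 ≤ Γ.card ∧
        (Γ.card : ℤ) = Q.eval (γ.card : ℤ) ∧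
        Disjoint A (Fintype.piFinset (Function.update (fun _ => γ) i Γ)) ∧
        A ∪ Fintype.piFinset (Function.update (fun _ => γ) i Γ) ∈ S := by
  classical
  obtain ⟨D, rfl⟩ : ∃ D, d = D + 1 := ⟨d - 1, by omega⟩
  obtain ⟨N₀, hN₀⟩ := x_final D (by omega) δ hδ M Q hQ0 hQ
  refine ⟨N₀, fun N hN i S hS => ?_⟩
  obtain ⟨s, hs⟩ : ∃ s : Equiv.Perm (Fin (D + 1)), s = Equiv.swap i (Fin.last D) := ⟨_, rfl⟩
  have hss : ∀ j, s (s j) = j := by intro j; rw [hs]; simp
  have hsl : s (Fin.last D) = i := by rw [hs]; simp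
  obtain ⟨Φ, hΦd⟩ : ∃ Φ : (Fin (D + 1) → Fin N) → (Fin (D + 1) → Fin N),
    Φ = fun c j => c (s j) := ⟨_, rfl⟩
  have hΦa : ∀ c j, Φ c j = c (s j) := by intro c j; rw [hΦd]
  have hΦΦ : ∀ c, Φ (Φ c) = c := by intro c; funext j; rw [hΦa, hΦa, hss]
  have hΦ : Function.Injective Φ := Function.LeftInverse.injective hΦΦ
  have hII : ∀ A : Finset (Fin (D + 1) → Fin N), (A.image Φ).image Φ = A := by
    intro A
    rw [Finset.image_image]
    have h : Φ ∘ Φ = id := funext hΦΦ
    rw [h, Finset.image_id]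
  have hi : Function.Injective (fun A : Finset (Fin (D + 1) → Fin N) => A.image Φ) := by
    intro A B hAB
    have h := congrArg (fun A : Finset (Fin (D + 1) → Fin N) => A.image Φ) hAB
    simp only [hII] at h
    exact h
  have hSc : (S.image (fun A => A.image Φ)).card = S.card := Finset.card_image_of_injective _ hi
  obtain ⟨A', hA', γ, Γ, h1, h2, h3, h4, h5⟩ :=
    hN₀ N hN (S.image (fun A => A.image Φ)) (by rw [hSc]; exact hS)
  obtain ⟨A, hA, rfl⟩ := Finset.mem_image.1 hA'
  obtain ⟨B, hB, hBe⟩ := Finset.mem_image.1 h5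
  have hbox : (cyl γ Γ).image Φ
      = Fintype.piFinset (Function.update (fun _ => γ) i Γ) := by
    ext c
    rw [Fintype.mem_piFinset, Finset.mem_image]
    constructor
    · rintro ⟨a, ha, rfl⟩ j
      obtain ⟨ha1, ha2⟩ := (Finset.mem_filter.1 ha).2
      rw [hΦa]
      by_cases hj : j = i
      · subst hj
        have h6 : s j = Fin.last D := by rw [← hsl, hss]
        rw [h6, Function.update_self]
        exact ha2
      · rw [Function.update_of_ne hj]
        have h6 : s j ≠ Fin.last D := by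
          intro h7
          apply hj
          rw [← hss j, h7, hsl]
        obtain ⟨k, hk⟩ := Fin.exists_castSucc_eq.2 h6
        rw [← hk]
        exact ha1 k
    · intro h
      refine ⟨Φ c, Finset.mem_filter.2 ⟨Finset.mem_univ _, ?_, ?_⟩, hΦΦ c⟩
      · intro k
        rw [hΦa]
        have h6 : s k.castSucc ≠ i := by
          intro h7
          rw [← hsl] at h7
          exact (Fin.castSucc_lt_last k).ne (s.injective h7)
        have h8 := h (s k.castSucc)
        rw [Function.update_of_ne h6] at h8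
        exact h8
      · rw [hΦa, hsl]
        have h8 := h i
        rw [Function.update_self] at h8
        exact h8
  have hBA : B = A ∪ Fintype.piFinset (Function.update (fun _ => γ) i Γ) := by
    have h := congrArg (fun A : Finset (Fin (D + 1) → Fin N) => A.image Φ) hBe
    simp only [hII, Finset.image_union] at h
    rw [h, hbox]
  refine ⟨A, hA, γ, Γ, h1, h2, h3, ?_, ?_⟩
  · have h := (Finset.disjoint_image hΦ).2 h4
    rw [hII, hbox] at h
    exact h
  · rw [← hBA]
    exact hB

end Pool.Agent.Lib.MP_90b327_co.RS
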