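import Mathlib
import Pool.Agent.Lib.MP_90b327_co.RS.RDef
import Pool.Agent.Lib.MP_90b327_co.RS.XFinal

/-!
MODULE XInv (35 minutes, old scale). Families invariant under the permutations of the last coordinate.

PROOF. `x_final` with `Q = X`, `M = 1`: `A`, `γ`, `Γ`, `|Γ| = |γ| ≥ 1`. Choose a permutation `e` of `Fin N` with `Γ.image e = γ` (`Finset.equivOfCardEq`, `Equiv.extendSubtype`, as in RB/Final). `pm e` maps `cyl γ Γ` onto `cyl γ γ = Fintype.piFinset (fun _ => γ)`, is injective on cells and preserves `S`: take `pm e A`.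
-/

set_option autoImplicit false

namespace Pool.Agent.Lib.MP_90b327_co.RS

open Finset MeasureTheory Filter Pool.Agent.Lib.MP_90b327_co Pool.Agent.Lib.MP_90b327_co.RB
  Pool.Agent.Lib.MP_90b327_co.WW

/-- action of a permutation of `[N]` on the last coordinate -/
def pm {D N : ℕ} (e : Equiv.Perm (Fin N)) (A : Finset (Fin (D + 1) → Fin N)) :
    Finset (Fin (D + 1) → Fin N) :=
  A.image (fun c => (Fin.snoc (fun i : Fin D => c i.castSucc) (e (c (Fin.last D))) :
    Fin (D + 1) → Fin N))

theorem x_inv (D : ℕ) (hD : 1 ≤ D) (δ : ℝ) (hδ : 0 < δ) :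
    ∃ N₀ : ℕ, ∀ N, N₀ ≤ N → ∀ S : Finset (Finset (Fin (D + 1) → Fin N)),
      δ * 2 ^ (N ^ (D + 1)) < (S.card : ℝ) →
      (∀ e : Equiv.Perm (Fin N), ∀ A ∈ S, pm e A ∈ S) →
      ∃ A ∈ S, ∃ γ : Finset (Fin N), γ.Nonempty ∧
        Disjoint A (Fintype.piFinset (fun _ : Fin (D + 1) => γ)) ∧
        A ∪ Fintype.piFinset (fun _ : Fin (D + 1) => γ) ∈ S := by
  obtain ⟨N₀, h⟩ := x_final D hD δ hδ 1 Polynomial.X (by rw [Polynomial.eval_X])
    (by rw [Polynomial.leadingCoeff_X]; norm_num)
  refine ⟨N₀, fun N hN S hS hinv => ?_⟩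
  obtain ⟨A, hA, γ, Γ, h1, h2, h3, h4, h5⟩ := h N hN S hS
  rw [Polynomial.eval_X] at h3
  have hcard : Γ.card = γ.card := by exact_mod_cast h3
  let e0 : {x // x ∈ Γ} ≃ {x // x ∈ γ} := Finset.equivOfCardEq hcard
  let e : Equiv.Perm (Fin N) := e0.extendSubtype
  have he1 : ∀ x ∈ Γ, e x ∈ γ := fun x hx => e0.extendSubtype_mem x hx
  have he2 : ∀ x, x ∉ Γ → e x ∉ γ := fun x hx => e0.extendSubtype_not_mem x hx
  have hcast : ∀ (c : Fin (D + 1) → Fin N) (i : Fin D),
      (Fin.snoc (fun i : Fin D => c i.castSucc) (e (c (Fin.last D))) : Fin (D + 1) → Fin N) i.castSucc =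
        c i.castSucc := fun c i => Fin.snoc_castSucc (α := fun _ => Fin N) _ _ i
  have hlast : ∀ c : Fin (D + 1) → Fin N,
      (Fin.snoc (fun i : Fin D => c i.castSucc) (e (c (Fin.last D))) : Fin (D + 1) → Fin N) (Fin.last D) =
        e (c (Fin.last D)) := fun c => Fin.snoc_last (α := fun _ => Fin N) _ _
  have hψ : Function.Injective (fun c : Fin (D + 1) → Fin N =>
      (Fin.snoc (fun i : Fin D => c i.castSucc) (e (c (Fin.last D))) : Fin (D + 1) → Fin N)) := by
    intro c d hcd
    have hcd' : (Fin.snoc (fun i : Fin D => c i.castSucc) (e (c (Fin.last D))) : Fin (D + 1) → Fin N) =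
      Fin.snoc (fun i : Fin D => d i.castSucc) (e (d (Fin.last D))) := hcd
    funext i
    refine Fin.lastCases ?_ (fun i => ?_) i
    · have h6 := congrFun hcd' (Fin.last D)
      rw [hlast, hlast] at h6
      exact e.injective h6
    · have h6 := congrFun hcd' i.castSucc
      rw [hcast, hcast] at h6
      exact h6
  have hbox : pm e (cyl γ Γ) = Fintype.piFinset (fun _ : Fin (D + 1) => γ) := by
    ext y
    unfold pm
    rw [mem_image, Fintype.mem_piFinset]
    constructor
    · rintro ⟨c, hc, rfl⟩ i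
      unfold cyl at hc
      rw [mem_filter] at hc
      refine Fin.lastCases ?_ (fun i => ?_) i
      · rw [hlast]
        exact he1 _ hc.2.2
      · rw [hcast]
        exact hc.2.1 i
    · intro hy
      refine ⟨(Fin.snoc (fun i : Fin D => y i.castSucc) (e.symm (y (Fin.last D))) : Fin (D + 1) → Fin N), ?_, ?_⟩
      · unfold cyl
        rw [mem_filter]
        refine ⟨mem_univ _, fun i => ?_, ?_⟩
        · rw [Fin.snoc_castSucc (α := fun _ => Fin N)]
          exact hy _
        · rw [Fin.snoc_last (α := fun _ => Fin N)]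
          by_contra hcon
          apply he2 _ hcon
          rw [Equiv.apply_symm_apply]
          exact hy _
      · funext i
        refine Fin.lastCases ?_ (fun i => ?_) i
        · rw [hlast, Fin.snoc_last (α := fun _ => Fin N), Equiv.apply_symm_apply]
        · rw [hcast, Fin.snoc_castSucc (α := fun _ => Fin N)]
  refine ⟨pm e A, hinv e A hA, γ, ?_, ?_, ?_⟩
  · rw [← Finset.card_pos]
    omega
  · rw [← hbox]
    unfold pm
    exact (Finset.disjoint_image hψ).2 h4
  · rw [← hbox]
    have h6 := hinv e _ h5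
    unfold pm at h6 ⊢
    rw [image_union] at h6
    exact h6

end Pool.Agent.Lib.MP_90b327_co.RS
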