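import Mathlib
import Pool.Agent.Lib.MP_90b327_co.RS.RDef
import Pool.Agent.Lib.MP_90b327_co.RS.XCoord

/-!
MODULE XRob (80 minutes, old scale). Q1 for families which are almost invariant under the transpositions of one coordinate.

PROOF. Let `N₁ = max 1 N₀`, `N₀` from `x_coord d hd (δ/2) _ 1 Polynomial.X`. Window: `W = {v : Fin N | v < N₁}`, `ι = Fin.castLE : Fin N₁ → Fin N`; window cells = `ι ∘ b`, `b : Fin d → Fin N₁`. For `E` a set of non-window cells let `F_E = {B : Finset (Fin d → Fin N₁) | E ∪ B.image (ι ∘ ·) ∈ S}`.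
`∑_E |F_E| = |S|` (every `A` is uniquely `E ∪ B.image`), there are `2 ^ (N^d - N₁^d)` sets `E`, so more than `(δ/2) 2^(N^d - N₁^d)` sets `E` have `|F_E| > (δ/2) 2^(N₁^d)` ('big'). For a big `E` `x_coord` gives `B ∈ F_E` and `γ, Γ`, `|Γ| = |γ| ≥ 1`, with `B ∪ box ∈ F_E`, `B` disjoint from the box. Let `e` be a permutation
of `Fin N₁` with `Γ.image e = γ`, `e'` its extension to `Fin N` (identity outside the window; `Equiv.Perm.viaEmbedding` or `Equiv.Perm.extendDomain`). `A = E ∪ B.image`, `A ∪ ι(box)` are in `S`; if `ac i e' A` and `ac i e' (A ∪ ι(box)) = ac i e' A ∪ (γ')^d` (`γ' = γ.image ι`, disjoint) were both in `S`, the conclusion holds. So, if the conclusion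
fails, every big `E` is the exterior part of some `A' ∈ S` with `ac i e' A' ∉ S` for some `e : Perm (Fin N₁)`: the number of big `E` is at most `∑_e #{A' ∈ S | ac i e' A' ∉ S}`.
Subadditivity: `#{A ∈ S | ac i (t * e) A ∉ S} ≤ #{A ∈ S | ac i e A ∉ S} + #{A ∈ S | ac i t A ∉ S}` (`ac i (t * e) = ac i t ∘ ac i e`, `ac i e` injective). By `Equiv.Perm.swap_induction_on` (in `Perm (Fin N₁)`) there is for every `e` a number `C e` with `#{A ∈ S | ac i e' A ∉ S} ≤ C e * ε * 2^(N^d)` for ALL `N ≥ N₁`, `S`, `i` with the hypothesis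
(the extension of a transposition is a transposition of `Fin N`). So `(δ/2) 2^(N^d) / 2^(N₁^d) < (∑_e C e) ε 2^(N^d)`, false for `ε = δ / (2^(N₁^d + 2) * (1 + ∑_e C e))`.
-/

set_option autoImplicit false

namespace Pool.Agent.Lib.MP_90b327_co.RS

open Finset MeasureTheory Filter Pool.Agent.Lib.MP_90b327_co Pool.Agent.Lib.MP_90b327_co.RB
  Pool.Agent.Lib.MP_90b327_co.WW

/-- action of a permutation of `[N]` on the coordinate `i` of all cells of `A` -/
def ac {d N : ℕ} (i : Fin d) (e : Equiv.Perm (Fin N)) (A : Finset (Fin d → Fin N)) :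
    Finset (Fin d → Fin N) :=
  A.image (fun c => Function.update c i (e (c i)))

private theorem ac_apply {d N : ℕ} (i : Fin d) (e : Equiv.Perm (Fin N)) :
    Function.Injective (fun c : Fin d → Fin N => Function.update c i (e (c i))) := by
  intro c c' h
  funext j
  have h1 := congrFun h j
  by_cases hj : j = i
  · subst hj
    simp only [Function.update_self] at h1
    exact e.injective h1
  · simp only [Function.update_of_ne hj] at h1
    exact h1

private theorem ac_inj {d N : ℕ} (i : Fin d) (e : Equiv.Perm (Fin N)) :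
    Function.Injective (ac (d := d) i e) :=
  Finset.image_injective (ac_apply i e)

private theorem ac_mul {d N : ℕ} (i : Fin d) (t e : Equiv.Perm (Fin N))
    (A : Finset (Fin d → Fin N)) : ac i (t * e) A = ac i t (ac i e A) := by
  unfold ac
  rw [Finset.image_image]
  congr 1
  funext c
  simp [Function.comp]

private theorem ac_one {d N : ℕ} (i : Fin d) (A : Finset (Fin d → Fin N)) :
    ac i (1 : Equiv.Perm (Fin N)) A = A := by
  unfold ac
  simp

/-- the number of members of `S` which leave `S` under `e` -/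
private noncomputable def bad {d N : ℕ} (i : Fin d) (S : Finset (Finset (Fin d → Fin N)))
    (e : Equiv.Perm (Fin N)) : ℝ :=
  ((S.filter (fun A => ac i e A ∉ S)).card : ℝ)

private theorem bad_one {d N : ℕ} (i : Fin d) (S : Finset (Finset (Fin d → Fin N))) :
    bad i S 1 = 0 := by
  unfold bad
  have h : S.filter (fun A => ac i (1 : Equiv.Perm (Fin N)) A ∉ S) = ∅ := by
    rw [Finset.filter_eq_empty_iff]
    intro A hA
    rw [ac_one]
    simpa using hA
  rw [h]
  simp

private theorem bad_mul {d N : ℕ} (i : Fin d) (S : Finset (Finset (Fin d → Fin N)))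
    (t e : Equiv.Perm (Fin N)) : bad i S (t * e) ≤ bad i S e + bad i S t := by
  classical
  unfold bad
  have h : S.filter (fun A => ac i (t * e) A ∉ S)
      ⊆ S.filter (fun A => ac i e A ∉ S)
        ∪ (S.filter (fun A => ac i e A ∈ S ∧ ac i t (ac i e A) ∉ S)) := by
    intro A hA
    obtain ⟨h1, h2⟩ := Finset.mem_filter.1 hA
    rw [ac_mul] at h2
    by_cases h3 : ac i e A ∈ S
    · exact Finset.mem_union_right _ (Finset.mem_filter.2 ⟨h1, h3, h2⟩)
    · exact Finset.mem_union_left _ (Finset.mem_filter.2 ⟨h1, h3⟩)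
  have h1 : (S.filter (fun A => ac i e A ∈ S ∧ ac i t (ac i e A) ∉ S)).card
      ≤ (S.filter (fun A => ac i t A ∉ S)).card := by
    refine Finset.card_le_card_of_injOn (ac i e) ?_ ((ac_inj i e).injOn)
    intro A hA
    obtain ⟨-, h2, h3⟩ := Finset.mem_filter.1 hA
    exact Finset.mem_coe.2 (Finset.mem_filter.2 ⟨h2, h3⟩)
  have h2 := (Finset.card_le_card h).trans (Finset.card_union_le _ _)
  have h3 : (S.filter (fun A => ac i (t * e) A ∉ S)).card
      ≤ (S.filter (fun A => ac i e A ∉ S)).card + (S.filter (fun A => ac i t A ∉ S)).card := by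
    omega
  exact_mod_cast h3

/-- extension of a permutation of the window -/
private noncomputable def ext {N₁ N : ℕ} (h : N₁ ≤ N) (e : Equiv.Perm (Fin N₁)) :
    Equiv.Perm (Fin N) :=
  e.viaEmbedding (Fin.castLEEmb h)

private theorem ext_castLE {N₁ N : ℕ} (h : N₁ ≤ N) (e : Equiv.Perm (Fin N₁)) (v : Fin N₁) :
    ext h e (Fin.castLE h v) = Fin.castLE h (e v) :=
  Equiv.Perm.viaEmbedding_apply e (Fin.castLEEmb h) v

private theorem ext_out {N₁ N : ℕ} (h : N₁ ≤ N) (e : Equiv.Perm (Fin N₁)) (v : Fin N)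
    (hv : ∀ u : Fin N₁, Fin.castLE h u ≠ v) : ext h e v = v := by
  refine Equiv.Perm.viaEmbedding_apply_of_notMem e (Fin.castLEEmb h) v ?_
  rintro ⟨u, hu⟩
  exact hv u hu

private theorem ext_one {N₁ N : ℕ} (h : N₁ ≤ N) : ext h (1 : Equiv.Perm (Fin N₁)) = 1 := by
  ext v
  by_cases hv : ∃ u : Fin N₁, Fin.castLE h u = v
  · obtain ⟨u, rfl⟩ := hv
    rw [ext_castLE]
    rfl
  · push Not at hv
    rw [ext_out h 1 v hv]
    rfl

private theorem ext_mul {N₁ N : ℕ} (h : N₁ ≤ N) (t e : Equiv.Perm (Fin N₁)) :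
    ext h (t * e) = ext h t * ext h e := by
  ext v
  by_cases hv : ∃ u : Fin N₁, Fin.castLE h u = v
  · obtain ⟨u, rfl⟩ := hv
    rw [Equiv.Perm.mul_apply, ext_castLE, ext_castLE, ext_castLE, Equiv.Perm.mul_apply]
  · push Not at hv
    rw [Equiv.Perm.mul_apply, ext_out h _ v hv, ext_out h _ v hv, ext_out h _ v hv]

private theorem ext_swap {N₁ N : ℕ} (h : N₁ ≤ N) (a b : Fin N₁) :
    ext h (Equiv.swap a b) = Equiv.swap (Fin.castLE h a) (Fin.castLE h b) := by
  apply Equiv.ext
  intro v
  by_cases hv : ∃ u : Fin N₁, Fin.castLE h u = v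
  · obtain ⟨u, rfl⟩ := hv
    rw [ext_castLE, Equiv.swap_apply_def, Equiv.swap_apply_def]
    have hi : Function.Injective (Fin.castLE h) := Fin.castLE_injective h
    by_cases h1 : u = a
    · subst h1
      simp
    · by_cases h2 : u = b
      · subst h2
        rw [if_neg h1, if_pos rfl, if_neg (fun h3 => h1 (hi h3)), if_pos rfl]
      · rw [if_neg h1, if_neg h2, if_neg (fun h3 => h1 (hi h3)), if_neg (fun h3 => h2 (hi h3))]
  · push Not at hv
    rw [ext_out h _ v hv, Equiv.swap_apply_of_ne_of_ne (fun h1 => hv a h1.symm)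
      (fun h1 => hv b h1.symm)]

/-- every permutation of the window is a product of a bounded number of transpositions -/
private theorem bad_le (N₁ : ℕ) (e : Equiv.Perm (Fin N₁)) :
    ∃ C : ℝ, 0 ≤ C ∧ ∀ (d N : ℕ) (h : N₁ ≤ N) (i : Fin d) (S : Finset (Finset (Fin d → Fin N)))
      (η : ℝ), (∀ v w : Fin N, bad i S (Equiv.swap v w) ≤ η) → bad i S (ext h e) ≤ C * η := by
  induction e using Equiv.Perm.swap_induction_on with
  | one =>
    refine ⟨0, le_rfl, fun d N h i S η _ => ?_⟩
    rw [ext_one, bad_one, zero_mul]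
  | swap_mul f a b _ ih =>
    obtain ⟨C, hC, ih⟩ := ih
    refine ⟨C + 1, by linarith, fun d N h i S η hη => ?_⟩
    rw [ext_mul, ext_swap]
    have h1 := bad_mul i S (Equiv.swap (Fin.castLE h a) (Fin.castLE h b)) (ext h f)
    have h2 := ih d N h i S η hη
    have h3 := hη (Fin.castLE h a) (Fin.castLE h b)
    linarith

/-- the number of dense fibres over the window -/
private theorem many_fib {d N₀ N : ℕ} (hN : N₀ ≤ N) (S : Finset (Finset (Fin d → Fin N))) (δ : ℝ)
    (hδ : 0 < δ) (hS : δ * 2 ^ (N ^ d) < (S.card : ℝ)) :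
    ∃ T : Finset (Finset (Fin d → Fin N)),
      (δ / 2) * 2 ^ (N ^ d) < (T.card : ℝ) * 2 ^ (N₀ ^ d) ∧
      (∀ O ∈ T, ∀ x ∈ O, ∀ c : Fin d → Fin N₀, (fun j => Fin.castLE hN (c j)) ≠ x) ∧
      ∀ O ∈ T, (δ / 2) * 2 ^ (N₀ ^ d) < ((Finset.univ.filter (fun C : Finset (Fin d → Fin N₀) =>
        O ∪ C.image (fun c j => Fin.castLE hN (c j)) ∈ S)).card : ℝ) := by
  classical
  obtain ⟨φ, hφd⟩ : ∃ φ : (Fin d → Fin N₀) → (Fin d → Fin N),
    φ = fun c j => Fin.castLE hN (c j) := ⟨_, rfl⟩
  have hφ : Function.Injective φ := by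
    intro c c' h
    funext j
    have h1 := congrFun h j
    rw [hφd] at h1
    exact Fin.castLE_injective hN h1
  obtain ⟨Rg, hRg⟩ : ∃ Rg : Finset (Fin d → Fin N), Rg = Finset.univ.image φ := ⟨_, rfl⟩
  have hRgm : ∀ c, φ c ∈ Rg := fun c => by
    rw [hRg]
    exact Finset.mem_image.2 ⟨c, Finset.mem_univ _, rfl⟩
  have hRgc : Rg.card = N₀ ^ d := by
    rw [hRg, Finset.card_image_of_injective _ hφ, Finset.card_univ, Fintype.card_fun,
      Fintype.card_fin, Fintype.card_fin]
  obtain ⟨Out, hOut⟩ : ∃ Out : Finset (Finset (Fin d → Fin N)),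
    Out = (Finset.univ \ Rg).powerset := ⟨_, rfl⟩
  have hOutc : (Out.card : ℝ) * 2 ^ (N₀ ^ d) = 2 ^ (N ^ d) := by
    have h1 : Out.card = 2 ^ (N ^ d - N₀ ^ d) := by
      rw [hOut, Finset.card_powerset, Finset.card_sdiff_of_subset (Finset.subset_univ _), hRgc,
        Finset.card_univ, Fintype.card_fun, Fintype.card_fin, Fintype.card_fin]
    have h2 : N₀ ^ d ≤ N ^ d := by
      have h3 := Finset.card_le_univ Rg
      rw [hRgc, Fintype.card_fun, Fintype.card_fin, Fintype.card_fin] at h3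
      exact h3
    rw [h1]
    push_cast
    rw [← pow_add]
    congr 1
    omega
  obtain ⟨SO, hSO⟩ : ∃ SO : Finset (Fin d → Fin N) → Finset (Finset (Fin d → Fin N₀)),
    SO = fun O => Finset.univ.filter (fun C => O ∪ C.image φ ∈ S) := ⟨_, rfl⟩
  have hsum : (S.card : ℝ) ≤ ∑ O ∈ Out, ((SO O).card : ℝ) := by
    have h2 : S.card ≤ ∑ O ∈ Out, (SO O).card := by
      rw [← Finset.card_sigma]
      refine Finset.card_le_card_of_injOn
        (fun A => (⟨A \ Rg, Finset.univ.filter (fun c => φ c ∈ A)⟩ :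
          (_ : Finset (Fin d → Fin N)) × Finset (Fin d → Fin N₀))) ?_ ?_
      · intro A hA
        have hA' : A ∈ S := hA
        have h3 : (A \ Rg) ∪ (Finset.univ.filter (fun c => φ c ∈ A)).image φ = A := by
          ext x
          constructor
          · intro h4
            rcases Finset.mem_union.mp h4 with h4 | h4
            · exact (Finset.mem_sdiff.mp h4).1
            · obtain ⟨c, h4c, rfl⟩ := Finset.mem_image.mp h4
              exact (Finset.mem_filter.mp h4c).2
          · intro h4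
            by_cases h5 : x ∈ Rg
            · rw [hRg] at h5
              obtain ⟨c, _, rfl⟩ := Finset.mem_image.mp h5
              exact Finset.mem_union_right _ (Finset.mem_image.mpr
                ⟨c, Finset.mem_filter.mpr ⟨Finset.mem_univ _, h4⟩, rfl⟩)
            · exact Finset.mem_union_left _ (Finset.mem_sdiff.mpr ⟨h4, h5⟩)
        refine Finset.mem_coe.mpr (Finset.mem_sigma.mpr ⟨?_, ?_⟩)
        · rw [hOut]
          exact Finset.mem_powerset.mpr (Finset.sdiff_subset_sdiff (Finset.subset_univ _)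
            (Finset.Subset.refl _))
        · rw [hSO]
          refine Finset.mem_filter.mpr ⟨Finset.mem_univ _, ?_⟩
          rw [h3]
          exact hA'
      · intro A _ B _ hAB
        have h3 := Sigma.mk.inj_iff.mp hAB
        obtain ⟨h4, h5⟩ := h3
        have h5 := eq_of_heq h5
        ext x
        by_cases h6 : x ∈ Rg
        · rw [hRg] at h6
          obtain ⟨c, _, rfl⟩ := Finset.mem_image.mp h6
          have h7 := Finset.ext_iff.mp h5 c
          simpa using h7
        · have h7 := Finset.ext_iff.mp h4 x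
          rw [Finset.mem_sdiff, Finset.mem_sdiff] at h7
          constructor
          · intro h8; exact (h7.mp ⟨h8, h6⟩).1
          · intro h8; exact (h7.mpr ⟨h8, h6⟩).1
    exact_mod_cast h2
  obtain ⟨T, hT⟩ : ∃ T : Finset (Finset (Fin d → Fin N)),
    T = Out.filter (fun O => (δ / 2) * 2 ^ (N₀ ^ d) < ((SO O).card : ℝ)) := ⟨_, rfl⟩
  have hall : ∀ O, ((SO O).card : ℝ) ≤ 2 ^ (2 ^ 0 * N₀ ^ d) := by
    intro O
    have h1 := Finset.card_le_univ (SO O)
    rw [Fintype.card_finset, Fintype.card_fun, Fintype.card_fin, Fintype.card_fin] at h1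
    have h2 : ((SO O).card : ℝ) ≤ ((2 ^ (N₀ ^ d) : ℕ) : ℝ) := by exact_mod_cast h1
    rw [pow_zero, one_mul]
    calc ((SO O).card : ℝ) ≤ ((2 ^ (N₀ ^ d) : ℕ) : ℝ) := h2
      _ = 2 ^ (N₀ ^ d) := by push_cast; rfl
  refine ⟨T, ?_, ?_, ?_⟩
  · have h1 : ∑ O ∈ Out, ((SO O).card : ℝ)
        = ∑ O ∈ T, ((SO O).card : ℝ)
          + ∑ O ∈ Out.filter (fun O => ¬ (δ / 2) * 2 ^ (N₀ ^ d) < ((SO O).card : ℝ)),
            ((SO O).card : ℝ) := by
      rw [hT, Finset.sum_filter_add_sum_filter_not]
    have h2 : ∑ O ∈ T, ((SO O).card : ℝ) ≤ (T.card : ℝ) * 2 ^ (N₀ ^ d) := by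
      have h3 := Finset.sum_le_card_nsmul T (fun O => ((SO O).card : ℝ)) (2 ^ (N₀ ^ d))
        (fun O _ => by simpa using hall O)
      rw [nsmul_eq_mul] at h3
      exact h3
    have h4 : ∑ O ∈ Out.filter (fun O => ¬ (δ / 2) * 2 ^ (N₀ ^ d) < ((SO O).card : ℝ)),
        ((SO O).card : ℝ) ≤ (δ / 2) * 2 ^ (N ^ d) := by
      have h5 := Finset.sum_le_card_nsmul
        (Out.filter (fun O => ¬ (δ / 2) * 2 ^ (N₀ ^ d) < ((SO O).card : ℝ)))
        (fun O => ((SO O).card : ℝ)) ((δ / 2) * 2 ^ (N₀ ^ d))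
        (fun O hO => not_lt.1 (Finset.mem_filter.1 hO).2)
      rw [nsmul_eq_mul] at h5
      refine h5.trans ?_
      have h6 : ((Out.filter (fun O => ¬ (δ / 2) * 2 ^ (N₀ ^ d) < ((SO O).card : ℝ))).card : ℝ)
          ≤ (Out.card : ℝ) := by
        exact_mod_cast Finset.card_le_card (Finset.filter_subset _ _)
      calc ((Out.filter (fun O => ¬ (δ / 2) * 2 ^ (N₀ ^ d) < ((SO O).card : ℝ))).card : ℝ)
            * ((δ / 2) * 2 ^ (N₀ ^ d))
          ≤ (Out.card : ℝ) * ((δ / 2) * 2 ^ (N₀ ^ d)) :=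
            mul_le_mul_of_nonneg_right h6 (by positivity)
        _ = (δ / 2) * ((Out.card : ℝ) * 2 ^ (N₀ ^ d)) := by ring
        _ = (δ / 2) * 2 ^ (N ^ d) := by rw [hOutc]
    have h7 : δ * 2 ^ (N ^ d) = (δ / 2) * 2 ^ (N ^ d) + (δ / 2) * 2 ^ (N ^ d) := by ring
    linarith
  · intro O hO x hx c hc
    rw [hT] at hO
    have h1 := (Finset.mem_filter.1 hO).1
    rw [hOut] at h1
    have h2 := (Finset.mem_sdiff.1 (Finset.mem_powerset.1 h1 hx)).2
    apply h2
    rw [← hc]
    have h3 := hRgm c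
    rw [hφd] at h3
    exact h3
  · intro O hO
    rw [hT] at hO
    have h1 := (Finset.mem_filter.1 hO).2
    rw [hSO, hφd] at h1
    exact h1

/-- a permutation which moves one set onto another of the same size -/
private theorem perm_ex {N : ℕ} {s t : Finset (Fin N)} (h : s.card = t.card) :
    ∃ e : Equiv.Perm (Fin N), s.image e = t := by
  classical
  have h1 : Fintype.card {x // x ∈ s} = Fintype.card {x // x ∈ t} := by
    simpa using h
  obtain ⟨f⟩ := Fintype.card_eq.1 h1
  refine ⟨f.extendSubtype, ?_⟩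
  ext x
  rw [Finset.mem_image]
  constructor
  · rintro ⟨y, hy, rfl⟩
    exact f.extendSubtype_mem y hy
  · intro hx
    refine ⟨f.extendSubtype.symm x, ?_, Equiv.apply_symm_apply _ _⟩
    by_contra hn
    have h2 := f.extendSubtype_not_mem _ hn
    rw [Equiv.apply_symm_apply] at h2
    exact h2 hx

theorem x_rob (d : ℕ) (hd : 2 ≤ d) (δ : ℝ) (hδ : 0 < δ) :
    ∃ (ε : ℝ) (N₀ : ℕ), 0 < ε ∧ ∀ N, N₀ ≤ N → ∀ (i : Fin d) (S : Finset (Finset (Fin d → Fin N))),
      δ * 2 ^ (N ^ d) < (S.card : ℝ) →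
      (∀ v w : Fin N, ((S.filter (fun A => ac i (Equiv.swap v w) A ∉ S)).card : ℝ) ≤
        ε * 2 ^ (N ^ d)) →
      ∃ A ∈ S, ∃ γ : Finset (Fin N), γ.Nonempty ∧
        Disjoint A (Fintype.piFinset (fun _ : Fin d => γ)) ∧
        A ∪ Fintype.piFinset (fun _ : Fin d => γ) ∈ S := by
  classical
  obtain ⟨N₁, hN₁⟩ := x_coord d hd (δ / 2) (by positivity) 1 Polynomial.X (by simp) (by simp)
  choose C hC0 hC using bad_le N₁
  obtain ⟨Ct, hCt⟩ : ∃ Ct : ℝ, Ct = ∑ e : Equiv.Perm (Fin N₁), C e := ⟨_, rfl⟩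
  have hCt0 : 0 ≤ Ct := by rw [hCt]; exact Finset.sum_nonneg fun e _ => hC0 e
  refine ⟨(δ / 2) / ((1 + Ct) * 2 ^ (N₁ ^ d)), N₁, by positivity, ?_⟩
  intro N hN i S hS hsw
  by_contra hcon
  push Not at hcon
  obtain ⟨ε, hε⟩ : ∃ ε : ℝ, ε = (δ / 2) / ((1 + Ct) * 2 ^ (N₁ ^ d)) := ⟨_, rfl⟩
  rw [← hε] at hsw
  have hε0 : 0 < ε := by rw [hε]; positivity
  obtain ⟨T, hT1, hT2, hT3⟩ := many_fib hN S δ hδ hS
  obtain ⟨φ, hφd⟩ : ∃ φ : (Fin d → Fin N₁) → (Fin d → Fin N),
    φ = fun c j => Fin.castLE hN (c j) := ⟨_, rfl⟩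
  have hφ : Function.Injective φ := by
    intro c c' h
    funext j
    have h1 := congrFun h j
    rw [hφd] at h1
    exact Fin.castLE_injective hN h1
  -- every member of `T` is the exterior part of a bad member
  have key : ∀ O ∈ T, ∃ e : Equiv.Perm (Fin N₁), ∃ A ∈ S.filter (fun A => ac i (ext hN e) A ∉ S),
      A.filter (fun x => ∀ c, φ c ≠ x) = O := by
    intro O hO
    have h1 := hN₁ N₁ le_rfl i _ (hT3 O hO)
    obtain ⟨B, hB, γ, Γ, h2, h3, h4, h5, h6⟩ := h1
    rw [Finset.mem_filter] at hB h6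
    have hB := hB.2
    have h6 := h6.2
    have hc : Γ.card = γ.card := by
      have : (Γ.card : ℤ) = (γ.card : ℤ) := by simpa using h4
      exact_mod_cast this
    obtain ⟨e, he⟩ := perm_ex hc
    have hOout : ∀ x ∈ O, ∀ c, φ c ≠ x := by
      intro x hx c
      rw [hφd]
      exact hT2 O hO x hx c
    have hext : ∀ B' : Finset (Fin d → Fin N₁), (O ∪ B'.image φ).filter (fun x => ∀ c, φ c ≠ x) = O := by
      intro B'
      ext x
      rw [Finset.mem_filter, Finset.mem_union, Finset.mem_image]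
      constructor
      · rintro ⟨h7 | ⟨c, -, rfl⟩, h8⟩
        · exact h7
        · exact absurd rfl (h8 c)
      · intro h7
        exact ⟨Or.inl h7, hOout x h7⟩
    have hA1 : O ∪ B.image φ ∈ S := by rw [hφd]; exact hB
    have hA2 : O ∪ (B ∪ Fintype.piFinset (Function.update (fun _ => γ) i Γ)).image φ ∈ S := by
      rw [hφd]; exact h6
    refine ⟨e, ?_⟩
    by_cases hb1 : ac i (ext hN e) (O ∪ B.image φ) ∈ S
    · refine ⟨_, Finset.mem_filter.2 ⟨hA2, ?_⟩, hext _⟩
      intro hb2
      -- the box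
      obtain ⟨γ', hγ'⟩ : ∃ γ' : Finset (Fin N), γ' = γ.image (Fin.castLE hN) := ⟨_, rfl⟩
      have hbox : ac i (ext hN e) ((Fintype.piFinset (Function.update (fun _ => γ) i Γ)).image φ)
          = Fintype.piFinset (fun _ : Fin d => γ') := by
        unfold ac
        ext x
        rw [Finset.mem_image, Fintype.mem_piFinset]
        constructor
        · rintro ⟨y, hy, rfl⟩ j
          obtain ⟨c, hc, rfl⟩ := Finset.mem_image.1 hy
          rw [Fintype.mem_piFinset] at hc
          rw [hγ']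
          by_cases hj : j = i
          · subst hj
            rw [Function.update_self]
            have h8 := hc j
            rw [Function.update_self] at h8
            have h9 : φ c j = Fin.castLE hN (c j) := by rw [hφd]
            rw [h9, ext_castLE]
            refine Finset.mem_image.2 ⟨e (c j), ?_, rfl⟩
            rw [← he]
            exact Finset.mem_image.2 ⟨_, h8, rfl⟩
          · rw [Function.update_of_ne hj]
            have h8 := hc j
            rw [Function.update_of_ne hj] at h8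
            have h9 : φ c j = Fin.castLE hN (c j) := by rw [hφd]
            rw [h9]
            exact Finset.mem_image.2 ⟨_, h8, rfl⟩
        · intro hx
          rw [hγ'] at hx
          have h8 : ∀ j, ∃ u ∈ γ, Fin.castLE hN u = x j := fun j => Finset.mem_image.1 (hx j)
          choose u hu1 hu2 using h8
          have h9 : u i ∈ Γ.image e := by rw [he]; exact hu1 i
          obtain ⟨v, hv1, hv2⟩ := Finset.mem_image.1 h9
          refine ⟨φ (Function.update u i v), Finset.mem_image.2
            ⟨Function.update u i v, ?_, rfl⟩, ?_⟩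
          · rw [Fintype.mem_piFinset]
            intro j
            by_cases hj : j = i
            · subst hj
              rw [Function.update_self, Function.update_self]
              exact hv1
            · rw [Function.update_of_ne hj, Function.update_of_ne hj]
              exact hu1 j
          · funext j
            have h10 : ∀ (c : Fin d → Fin N₁) j, φ c j = Fin.castLE hN (c j) := by
              intro c j
              rw [hφd]
            by_cases hj : j = i
            · subst hj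
              rw [Function.update_self, h10, Function.update_self, ext_castLE, hv2]
              exact hu2 j
            · rw [Function.update_of_ne hj, h10, Function.update_of_ne hj]
              exact hu2 j
      have hun : ∀ X Y : Finset (Fin d → Fin N),
          ac i (ext hN e) (X ∪ Y) = ac i (ext hN e) X ∪ ac i (ext hN e) Y := by
        intro X Y
        unfold ac
        exact Finset.image_union _ _
      rw [Finset.image_union, ← Finset.union_assoc, hun, hbox] at hb2
      refine hcon _ hb1 γ' ?_ ?_ hb2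
      · rw [hγ']
        have h8 : γ.Nonempty := Finset.card_pos.1 (by omega)
        exact h8.image _
      · rw [← hbox]
        unfold ac
        rw [Finset.disjoint_image (ac_apply i (ext hN e))]
        rw [Finset.disjoint_union_left]
        constructor
        · rw [Finset.disjoint_left]
          intro x hx hx'
          obtain ⟨c, -, rfl⟩ := Finset.mem_image.1 hx'
          exact hOout _ hx c rfl
        · exact (Finset.disjoint_image hφ).2 h5
    · exact ⟨_, Finset.mem_filter.2 ⟨hA1, hb1⟩, hext _⟩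
  -- counting
  have hcount : (T.card : ℝ) ≤ ∑ e : Equiv.Perm (Fin N₁), bad i S (ext hN e) := by
    have h1 : T ⊆ Finset.univ.biUnion (fun e : Equiv.Perm (Fin N₁) =>
        (S.filter (fun A => ac i (ext hN e) A ∉ S)).image
          (fun A => A.filter (fun x => ∀ c, φ c ≠ x))) := by
      intro O hO
      obtain ⟨e, A, hA, hAO⟩ := key O hO
      exact Finset.mem_biUnion.2 ⟨e, Finset.mem_univ _, Finset.mem_image.2 ⟨A, hA, hAO⟩⟩
    have h2 : T.card ≤ ∑ e : Equiv.Perm (Fin N₁),
        (S.filter (fun A => ac i (ext hN e) A ∉ S)).card := by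
      refine (Finset.card_le_card h1).trans (Finset.card_biUnion_le.trans ?_)
      exact Finset.sum_le_sum fun e _ => Finset.card_image_le
    have h3 : ((∑ e : Equiv.Perm (Fin N₁),
        (S.filter (fun A => ac i (ext hN e) A ∉ S)).card : ℕ) : ℝ)
        = ∑ e : Equiv.Perm (Fin N₁), bad i S (ext hN e) := by
      push_cast
      rfl
    rw [← h3]
    exact_mod_cast h2
  have hsum : ∑ e : Equiv.Perm (Fin N₁), bad i S (ext hN e) ≤ Ct * (ε * 2 ^ (N ^ d)) := by
    rw [hCt, Finset.sum_mul]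
    exact Finset.sum_le_sum fun e _ => hC e d N hN i S _ hsw
  have hP : (0 : ℝ) < 2 ^ (N ^ d) := by positivity
  have hQ : (0 : ℝ) < 2 ^ (N₁ ^ d) := by positivity
  have h1 : (δ / 2) * 2 ^ (N ^ d) < Ct * (ε * 2 ^ (N ^ d)) * 2 ^ (N₁ ^ d) := by
    refine hT1.trans_le ?_
    exact mul_le_mul_of_nonneg_right (hcount.trans hsum) hQ.le
  have h2 : Ct * (ε * 2 ^ (N ^ d)) * 2 ^ (N₁ ^ d) ≤ (δ / 2) * 2 ^ (N ^ d) := by
    have h3 : ε * ((1 + Ct) * 2 ^ (N₁ ^ d)) = δ / 2 := by
      rw [hε]
      field_simp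
    have h4 : Ct * ε * 2 ^ (N₁ ^ d) ≤ δ / 2 := by
      rw [← h3]
      nlinarith [mul_pos hε0 hQ]
    calc Ct * (ε * 2 ^ (N ^ d)) * 2 ^ (N₁ ^ d) = (Ct * ε * 2 ^ (N₁ ^ d)) * 2 ^ (N ^ d) := by ring
      _ ≤ (δ / 2) * 2 ^ (N ^ d) := mul_le_mul_of_nonneg_right h4 hP.le
  linarith

end Pool.Agent.Lib.MP_90b327_co.RS
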