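import Mathlib
import Pool.Agent.Lib.MP_90b327_co.RS.RDef
import Pool.Agent.Lib.MP_90b327_co.RS.XCoord

/-!
MODULE XUni. The unified statement: exact sizes for every dense family; every set of the prescribed size may be taken
if the family is almost invariant under the transpositions of one coordinate. (Counting argument as in XRob.)

-/

set_option autoImplicit false

namespace Pool.Agent.Lib.MP_90b327_co.RS

open Finset MeasureTheory Filter Pool.Agent.Lib.MP_90b327_co Pool.Agent.Lib.MP_90b327_co.RB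
  Pool.Agent.Lib.MP_90b327_co.WW

/-- action of a permutation of `[N]` on the coordinate `i` of all cells of `A` -/
def acu {d N : ℕ} (i : Fin d) (e : Equiv.Perm (Fin N)) (A : Finset (Fin d → Fin N)) :
    Finset (Fin d → Fin N) :=
  A.image (fun c => Function.update c i (e (c i)))

private theorem ac_apply {d N : ℕ} (i : Fin d) (e : Equiv.Perm (Fin N)) :
    Function.Injective (fun c : Fin d → Fin N => Function.update c i (e (c i))) := by
  intro c c' h
  funext j
  have h1 := congrFun h j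
  by_cases hj : j = i
  · subst hj
    simp only [Function.update_self] at h1
    exact e.injective h1
  · simp only [Function.update_of_ne hj] at h1
    exact h1

private theorem ac_inj {d N : ℕ} (i : Fin d) (e : Equiv.Perm (Fin N)) :
    Function.Injective (acu (d := d) i e) :=
  Finset.image_injective (ac_apply i e)

private theorem ac_mul {d N : ℕ} (i : Fin d) (t e : Equiv.Perm (Fin N))
    (A : Finset (Fin d → Fin N)) : acu i (t * e) A = acu i t (acu i e A) := by
  unfold acu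
  rw [Finset.image_image]
  congr 1
  funext c
  simp [Function.comp]

private theorem ac_one {d N : ℕ} (i : Fin d) (A : Finset (Fin d → Fin N)) :
    acu i (1 : Equiv.Perm (Fin N)) A = A := by
  unfold acu
  simp

/-- the number of members of `S` which leave `S` under `e` -/
private noncomputable def bad {d N : ℕ} (i : Fin d) (S : Finset (Finset (Fin d → Fin N)))
    (e : Equiv.Perm (Fin N)) : ℝ :=
  ((S.filter (fun A => acu i e A ∉ S)).card : ℝ)

private theorem bad_one {d N : ℕ} (i : Fin d) (S : Finset (Finset (Fin d → Fin N))) :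
    bad i S 1 = 0 := by
  unfold bad
  have h : S.filter (fun A => acu i (1 : Equiv.Perm (Fin N)) A ∉ S) = ∅ := by
    rw [Finset.filter_eq_empty_iff]
    intro A hA
    rw [ac_one]
    simpa using hA
  rw [h]
  simp

private theorem bad_mul {d N : ℕ} (i : Fin d) (S : Finset (Finset (Fin d → Fin N)))
    (t e : Equiv.Perm (Fin N)) : bad i S (t * e) ≤ bad i S e + bad i S t := by
  classical
  unfold bad
  have h : S.filter (fun A => acu i (t * e) A ∉ S)
      ⊆ S.filter (fun A => acu i e A ∉ S)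
        ∪ (S.filter (fun A => acu i e A ∈ S ∧ acu i t (acu i e A) ∉ S)) := by
    intro A hA
    obtain ⟨h1, h2⟩ := Finset.mem_filter.1 hA
    rw [ac_mul] at h2
    by_cases h3 : acu i e A ∈ S
    · exact Finset.mem_union_right _ (Finset.mem_filter.2 ⟨h1, h3, h2⟩)
    · exact Finset.mem_union_left _ (Finset.mem_filter.2 ⟨h1, h3⟩)
  have h1 : (S.filter (fun A => acu i e A ∈ S ∧ acu i t (acu i e A) ∉ S)).card
      ≤ (S.filter (fun A => acu i t A ∉ S)).card := by
    refine Finset.card_le_card_of_injOn (acu i e) ?_ ((ac_inj i e).injOn)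
    intro A hA
    obtain ⟨-, h2, h3⟩ := Finset.mem_filter.1 hA
    exact Finset.mem_coe.2 (Finset.mem_filter.2 ⟨h2, h3⟩)
  have h2 := (Finset.card_le_card h).trans (Finset.card_union_le _ _)
  have h3 : (S.filter (fun A => acu i (t * e) A ∉ S)).card
      ≤ (S.filter (fun A => acu i e A ∉ S)).card + (S.filter (fun A => acu i t A ∉ S)).card := by
    omega
  exact_mod_cast h3

/-- the number of dense fibres over the window -/
private theorem many_fib {d N₀ N : ℕ} (hN : N₀ ≤ N) (S : Finset (Finset (Fin d → Fin N))) (δ : ℝ)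
    (hδ : 0 < δ) (hS : δ * 2 ^ (N ^ d) < (S.card : ℝ)) :
    ∃ T : Finset (Finset (Fin d → Fin N)),
      (δ / 2) * 2 ^ (N ^ d) < (T.card : ℝ) * 2 ^ (N₀ ^ d) ∧
      (∀ O ∈ T, ∀ x ∈ O, ∀ c : Fin d → Fin N₀, (fun j => Fin.castLE hN (c j)) ≠ x) ∧
      ∀ O ∈ T, (δ / 2) * 2 ^ (N₀ ^ d) < ((Finset.univ.filter (fun C : Finset (Fin d → Fin N₀) =>
        O ∪ C.image (fun c j => Fin.castLE hN (c j)) ∈ S)).card : ℝ) := by
  classical
  obtain ⟨φ, hφd⟩ : ∃ φ : (Fin d → Fin N₀) → (Fin d → Fin N),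
    φ = fun c j => Fin.castLE hN (c j) := ⟨_, rfl⟩
  have hφ : Function.Injective φ := by
    intro c c' h
    funext j
    have h1 := congrFun h j
    rw [hφd] at h1
    exact Fin.castLE_injective hN h1
  obtain ⟨Rg, hRg⟩ : ∃ Rg : Finset (Fin d → Fin N), Rg = Finset.univ.image φ := ⟨_, rfl⟩
  have hRgm : ∀ c, φ c ∈ Rg := fun c => by
    rw [hRg]
    exact Finset.mem_image.2 ⟨c, Finset.mem_univ _, rfl⟩
  have hRgc : Rg.card = N₀ ^ d := by
    rw [hRg, Finset.card_image_of_injective _ hφ, Finset.card_univ, Fintype.card_fun,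
      Fintype.card_fin, Fintype.card_fin]
  obtain ⟨Out, hOut⟩ : ∃ Out : Finset (Finset (Fin d → Fin N)),
    Out = (Finset.univ \ Rg).powerset := ⟨_, rfl⟩
  have hOutc : (Out.card : ℝ) * 2 ^ (N₀ ^ d) = 2 ^ (N ^ d) := by
    have h1 : Out.card = 2 ^ (N ^ d - N₀ ^ d) := by
      rw [hOut, Finset.card_powerset, Finset.card_sdiff_of_subset (Finset.subset_univ _), hRgc,
        Finset.card_univ, Fintype.card_fun, Fintype.card_fin, Fintype.card_fin]
    have h2 : N₀ ^ d ≤ N ^ d := by
      have h3 := Finset.card_le_univ Rg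
      rw [hRgc, Fintype.card_fun, Fintype.card_fin, Fintype.card_fin] at h3
      exact h3
    rw [h1]
    push_cast
    rw [← pow_add]
    congr 1
    omega
  obtain ⟨SO, hSO⟩ : ∃ SO : Finset (Fin d → Fin N) → Finset (Finset (Fin d → Fin N₀)),
    SO = fun O => Finset.univ.filter (fun C => O ∪ C.image φ ∈ S) := ⟨_, rfl⟩
  have hsum : (S.card : ℝ) ≤ ∑ O ∈ Out, ((SO O).card : ℝ) := by
    have h2 : S.card ≤ ∑ O ∈ Out, (SO O).card := by
      rw [← Finset.card_sigma]
      refine Finset.card_le_card_of_injOn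
        (fun A => (⟨A \ Rg, Finset.univ.filter (fun c => φ c ∈ A)⟩ :
          (_ : Finset (Fin d → Fin N)) × Finset (Fin d → Fin N₀))) ?_ ?_
      · intro A hA
        have hA' : A ∈ S := hA
        have h3 : (A \ Rg) ∪ (Finset.univ.filter (fun c => φ c ∈ A)).image φ = A := by
          ext x
          constructor
          · intro h4
            rcases Finset.mem_union.mp h4 with h4 | h4
            · exact (Finset.mem_sdiff.mp h4).1
            · obtain ⟨c, h4c, rfl⟩ := Finset.mem_image.mp h4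
              exact (Finset.mem_filter.mp h4c).2
          · intro h4
            by_cases h5 : x ∈ Rg
            · rw [hRg] at h5
              obtain ⟨c, _, rfl⟩ := Finset.mem_image.mp h5
              exact Finset.mem_union_right _ (Finset.mem_image.mpr
                ⟨c, Finset.mem_filter.mpr ⟨Finset.mem_univ _, h4⟩, rfl⟩)
            · exact Finset.mem_union_left _ (Finset.mem_sdiff.mpr ⟨h4, h5⟩)
        refine Finset.mem_coe.mpr (Finset.mem_sigma.mpr ⟨?_, ?_⟩)
        · rw [hOut]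
          exact Finset.mem_powerset.mpr (Finset.sdiff_subset_sdiff (Finset.subset_univ _)
            (Finset.Subset.refl _))
        · rw [hSO]
          refine Finset.mem_filter.mpr ⟨Finset.mem_univ _, ?_⟩
          rw [h3]
          exact hA'
      · intro A _ B _ hAB
        have h3 := Sigma.mk.inj_iff.mp hAB
        obtain ⟨h4, h5⟩ := h3
        have h5 := eq_of_heq h5
        ext x
        by_cases h6 : x ∈ Rg
        · rw [hRg] at h6
          obtain ⟨c, _, rfl⟩ := Finset.mem_image.mp h6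
          have h7 := Finset.ext_iff.mp h5 c
          simpa using h7
        · have h7 := Finset.ext_iff.mp h4 x
          rw [Finset.mem_sdiff, Finset.mem_sdiff] at h7
          constructor
          · intro h8; exact (h7.mp ⟨h8, h6⟩).1
          · intro h8; exact (h7.mpr ⟨h8, h6⟩).1
    exact_mod_cast h2
  obtain ⟨T, hT⟩ : ∃ T : Finset (Finset (Fin d → Fin N)),
    T = Out.filter (fun O => (δ / 2) * 2 ^ (N₀ ^ d) < ((SO O).card : ℝ)) := ⟨_, rfl⟩
  have hall : ∀ O, ((SO O).card : ℝ) ≤ 2 ^ (2 ^ 0 * N₀ ^ d) := by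
    intro O
    have h1 := Finset.card_le_univ (SO O)
    rw [Fintype.card_finset, Fintype.card_fun, Fintype.card_fin, Fintype.card_fin] at h1
    have h2 : ((SO O).card : ℝ) ≤ ((2 ^ (N₀ ^ d) : ℕ) : ℝ) := by exact_mod_cast h1
    rw [pow_zero, one_mul]
    calc ((SO O).card : ℝ) ≤ ((2 ^ (N₀ ^ d) : ℕ) : ℝ) := h2
      _ = 2 ^ (N₀ ^ d) := by push_cast; rfl
  refine ⟨T, ?_, ?_, ?_⟩
  · have h1 : ∑ O ∈ Out, ((SO O).card : ℝ)
        = ∑ O ∈ T, ((SO O).card : ℝ)
          + ∑ O ∈ Out.filter (fun O => ¬ (δ / 2) * 2 ^ (N₀ ^ d) < ((SO O).card : ℝ)),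
            ((SO O).card : ℝ) := by
      rw [hT, Finset.sum_filter_add_sum_filter_not]
    have h2 : ∑ O ∈ T, ((SO O).card : ℝ) ≤ (T.card : ℝ) * 2 ^ (N₀ ^ d) := by
      have h3 := Finset.sum_le_card_nsmul T (fun O => ((SO O).card : ℝ)) (2 ^ (N₀ ^ d))
        (fun O _ => by simpa using hall O)
      rw [nsmul_eq_mul] at h3
      exact h3
    have h4 : ∑ O ∈ Out.filter (fun O => ¬ (δ / 2) * 2 ^ (N₀ ^ d) < ((SO O).card : ℝ)),
        ((SO O).card : ℝ) ≤ (δ / 2) * 2 ^ (N ^ d) := by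
      have h5 := Finset.sum_le_card_nsmul
        (Out.filter (fun O => ¬ (δ / 2) * 2 ^ (N₀ ^ d) < ((SO O).card : ℝ)))
        (fun O => ((SO O).card : ℝ)) ((δ / 2) * 2 ^ (N₀ ^ d))
        (fun O hO => not_lt.1 (Finset.mem_filter.1 hO).2)
      rw [nsmul_eq_mul] at h5
      refine h5.trans ?_
      have h6 : ((Out.filter (fun O => ¬ (δ / 2) * 2 ^ (N₀ ^ d) < ((SO O).card : ℝ))).card : ℝ)
          ≤ (Out.card : ℝ) := by
        exact_mod_cast Finset.card_le_card (Finset.filter_subset _ _)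
      calc ((Out.filter (fun O => ¬ (δ / 2) * 2 ^ (N₀ ^ d) < ((SO O).card : ℝ))).card : ℝ)
            * ((δ / 2) * 2 ^ (N₀ ^ d))
          ≤ (Out.card : ℝ) * ((δ / 2) * 2 ^ (N₀ ^ d)) :=
            mul_le_mul_of_nonneg_right h6 (by positivity)
        _ = (δ / 2) * ((Out.card : ℝ) * 2 ^ (N₀ ^ d)) := by ring
        _ = (δ / 2) * 2 ^ (N ^ d) := by rw [hOutc]
    have h7 : δ * 2 ^ (N ^ d) = (δ / 2) * 2 ^ (N ^ d) + (δ / 2) * 2 ^ (N ^ d) := by ring
    linarith
  · intro O hO x hx c hc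
    rw [hT] at hO
    have h1 := (Finset.mem_filter.1 hO).1
    rw [hOut] at h1
    have h2 := (Finset.mem_sdiff.1 (Finset.mem_powerset.1 h1 hx)).2
    apply h2
    rw [← hc]
    have h3 := hRgm c
    rw [hφd] at h3
    exact h3
  · intro O hO
    rw [hT] at hO
    have h1 := (Finset.mem_filter.1 hO).2
    rw [hSO, hφd] at h1
    exact h1

/-- a permutation which moves one set onto another of the same size, product of few transpositions -/
private theorem perm_ex {N : ℕ} (n : ℕ) : ∀ (s t : Finset (Fin N)), s.card = t.card →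
    (s \ t).card = n → ∃ e : Equiv.Perm (Fin N), s.image e = t ∧
      ∀ (d : ℕ) (i : Fin d) (S : Finset (Finset (Fin d → Fin N))) (η : ℝ),
        (∀ v w : Fin N, bad i S (Equiv.swap v w) ≤ η) → bad i S e ≤ n * η := by
  classical
  induction n with
  | zero =>
    intro s t hc h
    have h1 : s \ t = ∅ := Finset.card_eq_zero.1 h
    have h2 : s ⊆ t := Finset.sdiff_eq_empty_iff_subset.1 h1
    have h3 : s = t := Finset.eq_of_subset_of_card_le h2 hc.ge
    refine ⟨1, ?_, ?_⟩
    · rw [h3]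
      simp
    · intro d i S η _
      rw [bad_one]
      simp
  | succ n ih =>
    intro s t hc h
    obtain ⟨a, ha⟩ : (s \ t).Nonempty := Finset.card_pos.1 (by omega)
    have hts : (t \ s).card = n + 1 := by
      have h1 := Finset.card_sdiff_add_card_inter s t
      have h2 := Finset.card_sdiff_add_card_inter t s
      rw [Finset.inter_comm] at h2
      omega
    obtain ⟨b, hb⟩ : (t \ s).Nonempty := Finset.card_pos.1 (by omega)
    rw [Finset.mem_sdiff] at ha hb
    obtain ⟨s', hs'⟩ : ∃ s' : Finset (Fin N), s' = s.image (Equiv.swap a b) := ⟨_, rfl⟩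
    have hab : a ≠ b := fun h1 => hb.2 (h1 ▸ ha.1)
    have hs1 : s' = insert b (s.erase a) := by
      rw [hs']
      ext x
      rw [Finset.mem_image, Finset.mem_insert, Finset.mem_erase]
      constructor
      · rintro ⟨y, hy, rfl⟩
        by_cases hya : y = a
        · left
          rw [hya, Equiv.swap_apply_left]
        · have hyb : y ≠ b := fun h1 => hb.2 (h1 ▸ hy)
          rw [Equiv.swap_apply_of_ne_of_ne hya hyb]
          exact Or.inr ⟨hya, hy⟩
      · rintro (rfl | ⟨h1, h2⟩)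
        · exact ⟨a, ha.1, Equiv.swap_apply_left _ _⟩
        · refine ⟨x, h2, Equiv.swap_apply_of_ne_of_ne h1 (fun h3 => hb.2 (h3 ▸ h2))⟩
    have hcs : s'.card = t.card := by
      rw [hs', Finset.card_image_of_injective _ (Equiv.swap a b).injective]
      exact hc
    have hn : (s' \ t).card = n := by
      have h1 : s' \ t = (s \ t).erase a := by
        rw [hs1]
        ext x
        rw [Finset.mem_sdiff, Finset.mem_insert, Finset.mem_erase, Finset.mem_erase,
          Finset.mem_sdiff]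
        constructor
        · rintro ⟨rfl | ⟨h1, h2⟩, h3⟩
          · exact absurd hb.1 h3
          · exact ⟨h1, h2, h3⟩
        · rintro ⟨h1, h2, h3⟩
          exact ⟨Or.inr ⟨h1, h2⟩, h3⟩
      rw [h1, Finset.card_erase_of_mem (Finset.mem_sdiff.2 ha), h]
      rfl
    obtain ⟨e, he, hbe⟩ := ih s' t hcs hn
    refine ⟨e * Equiv.swap a b, ?_, ?_⟩
    · rw [← he, hs', Finset.image_image]
      rfl
    · intro d i S η hη
      have h1 := bad_mul i S e (Equiv.swap a b)
      have h2 := hbe d i S η hη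
      have h3 := hη a b
      push_cast
      linarith

/-- the box: coordinate `i` in `Γ`, the others in `γ` -/
private def bx3 {d N : ℕ} (i : Fin d) (γ Γ : Finset (Fin N)) : Finset (Fin d → Fin N) :=
  Fintype.piFinset (Function.update (fun _ => γ) i Γ)

private theorem bx3_mem {d N : ℕ} (i : Fin d) (γ Γ : Finset (Fin N)) (c : Fin d → Fin N) :
    c ∈ bx3 i γ Γ ↔ c i ∈ Γ ∧ ∀ j, j ≠ i → c j ∈ γ := by
  unfold bx3
  rw [Fintype.mem_piFinset]
  constructor
  · intro h
    refine ⟨?_, fun j hj => ?_⟩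
    · have := h i
      rwa [Function.update_self] at this
    · have := h j
      rwa [Function.update_of_ne hj] at this
  · rintro ⟨h1, h2⟩ j
    by_cases hj : j = i
    · subst hj
      rw [Function.update_self]
      exact h1
    · rw [Function.update_of_ne hj]
      exact h2 j hj

private theorem bx3_ac {d N : ℕ} (i : Fin d) (γ Γ : Finset (Fin N)) (e : Equiv.Perm (Fin N)) :
    acu i e (bx3 i γ Γ) = bx3 i γ (Γ.image e) := by
  unfold acu
  ext x
  rw [Finset.mem_image, bx3_mem]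
  constructor
  · rintro ⟨y, hy, rfl⟩
    rw [bx3_mem] at hy
    refine ⟨?_, fun j hj => ?_⟩
    · rw [Function.update_self]
      exact Finset.mem_image.2 ⟨_, hy.1, rfl⟩
    · rw [Function.update_of_ne hj]
      exact hy.2 j hj
  · rintro ⟨h1, h2⟩
    obtain ⟨v, hv, hv2⟩ := Finset.mem_image.1 h1
    refine ⟨Function.update x i v, ?_, ?_⟩
    · rw [bx3_mem]
      refine ⟨?_, fun j hj => ?_⟩
      · rw [Function.update_self]
        exact hv
      · rw [Function.update_of_ne hj]
        exact h2 j hj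
    · rw [Function.update_self, hv2, Function.update_idem, Function.update_eq_self]

private theorem bx3_win {d N₁ N : ℕ} (h : N₁ ≤ N) (i : Fin d) (γ Γ : Finset (Fin N₁)) :
    (bx3 i γ Γ).image (fun c j => Fin.castLE h (c j)) =
      bx3 i (γ.image (Fin.castLE h)) (Γ.image (Fin.castLE h)) := by
  ext x
  rw [Finset.mem_image, bx3_mem]
  constructor
  · rintro ⟨y, hy, rfl⟩
    rw [bx3_mem] at hy
    exact ⟨Finset.mem_image.2 ⟨_, hy.1, rfl⟩, fun j hj => Finset.mem_image.2 ⟨_, hy.2 j hj, rfl⟩⟩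
  · rintro ⟨h1, h2⟩
    have h3 : ∀ j, ∃ u : Fin N₁, Fin.castLE h u = x j ∧ (j = i → u ∈ Γ) ∧ (j ≠ i → u ∈ γ) := by
      intro j
      by_cases hj : j = i
      · subst hj
        obtain ⟨u, hu, hu2⟩ := Finset.mem_image.1 h1
        exact ⟨u, hu2, fun _ => hu, fun h4 => absurd rfl h4⟩
      · obtain ⟨u, hu, hu2⟩ := Finset.mem_image.1 (h2 j hj)
        exact ⟨u, hu2, fun h4 => absurd h4 hj, fun _ => hu⟩
    choose u hu1 hu2 hu3 using h3
    refine ⟨u, ?_, ?_⟩
    · rw [bx3_mem]
      exact ⟨hu2 i rfl, fun j hj => hu3 j hj⟩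
    · funext j
      exact hu1 j

theorem x_uni (d : ℕ) (hd : 2 ≤ d) (δ : ℝ) (hδ : 0 < δ) (M : ℕ) (Q : Polynomial ℤ)
    (hQ0 : Q.eval 0 = 0) (hQ : 0 < Q.leadingCoeff) :
    ∃ (ε : ℝ) (N₀ : ℕ), 0 < ε ∧ ∀ N, N₀ ≤ N → ∀ (i : Fin d) (S : Finset (Finset (Fin d → Fin N))),
      δ * 2 ^ (N ^ d) < (S.card : ℝ) →
      ∃ γ : Finset (Fin N), M ≤ γ.card ∧ 1 ≤ Q.eval (γ.card : ℤ) ∧
        (∃ Γ : Finset (Fin N), (Γ.card : ℤ) = Q.eval (γ.card : ℤ) ∧
          ∃ A ∈ S, Disjoint A (Fintype.piFinset (Function.update (fun _ => γ) i Γ)) ∧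
            A ∪ Fintype.piFinset (Function.update (fun _ => γ) i Γ) ∈ S) ∧
        ((∀ v w : Fin N, ((S.filter (fun A => A.image (fun c =>
            Function.update c i (Equiv.swap v w (c i))) ∉ S)).card : ℝ) ≤ ε * 2 ^ (N ^ d)) →
          ∀ Γ : Finset (Fin N), (Γ.card : ℤ) = Q.eval (γ.card : ℤ) →
            ∃ A ∈ S, Disjoint A (Fintype.piFinset (Function.update (fun _ => γ) i Γ)) ∧
              A ∪ Fintype.piFinset (Function.update (fun _ => γ) i Γ) ∈ S) := by
  classical
  obtain ⟨N₁, hN₁⟩ := x_coord d hd (δ / 2) (by positivity) M Q hQ0 hQ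
  obtain ⟨L, hL⟩ : ∃ L : ℕ, L = Fintype.card (Finset (Fin N₁) × Finset (Fin N₁)) := ⟨_, rfl⟩
  refine ⟨(δ / 2) / ((L + 1) * (N₁ + 1) * 2 ^ (N₁ ^ d)), N₁, by positivity, ?_⟩
  intro N hN i S hS
  obtain ⟨ε, hε⟩ : ∃ ε : ℝ, ε = (δ / 2) / ((L + 1) * (N₁ + 1) * 2 ^ (N₁ ^ d)) := ⟨_, rfl⟩
  rw [← hε]
  have hε0 : 0 < ε := by rw [hε]; positivity
  obtain ⟨T, hT1, hT2, hT3⟩ := many_fib hN S δ hδ hS
  obtain ⟨φ, hφd⟩ : ∃ φ : (Fin d → Fin N₁) → (Fin d → Fin N),
    φ = fun c j => Fin.castLE hN (c j) := ⟨_, rfl⟩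
  have hφ : Function.Injective φ := by
    intro c c' h
    funext j
    have h1 := congrFun h j
    rw [hφd] at h1
    exact Fin.castLE_injective hN h1
  rw [← hφd] at hT3
  have hOout : ∀ O ∈ T, ∀ x ∈ O, ∀ c, φ c ≠ x := by
    intro O hO x hx c
    rw [hφd]
    exact hT2 O hO x hx c
  have hext : ∀ O ∈ T, ∀ B' : Finset (Fin d → Fin N₁),
      (O ∪ B'.image φ).filter (fun x => ∀ c, φ c ≠ x) = O := by
    intro O hO B'
    ext x
    rw [Finset.mem_filter, Finset.mem_union, Finset.mem_image]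
    constructor
    · rintro ⟨h7 | ⟨c, -, rfl⟩, h8⟩
      · exact h7
      · exact absurd rfl (h8 c)
    · intro h7
      exact ⟨Or.inl h7, hOout O hO x h7⟩
  -- labels
  have hlab : ∀ O : Finset (Fin d → Fin N), ∃ p : Finset (Fin N₁) × Finset (Fin N₁), O ∈ T →
      M ≤ p.1.card ∧ 1 ≤ p.2.card ∧ (p.2.card : ℤ) = Q.eval (p.1.card : ℤ) ∧
      ∃ B : Finset (Fin d → Fin N₁), O ∪ B.image φ ∈ S ∧ Disjoint B (bx3 i p.1 p.2) ∧
        O ∪ (B ∪ bx3 i p.1 p.2).image φ ∈ S := by
    intro O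
    by_cases hO : O ∈ T
    · have h1 := hN₁ N₁ le_rfl i _ (hT3 O hO)
      obtain ⟨B, hB, γ, Γ, h2, h3, h4, h5, h6⟩ := h1
      rw [Finset.mem_filter] at hB h6
      exact ⟨(γ, Γ), fun _ => ⟨h2, h3, h4, B, hB.2, h5, h6.2⟩⟩
    · exact ⟨(∅, ∅), fun h => absurd h hO⟩
  choose lab hlab using hlab
  -- a popular label
  obtain ⟨p, -, hp⟩ := Finset.exists_max_image
    (Finset.univ : Finset (Finset (Fin N₁) × Finset (Fin N₁)))
    (fun p => (T.filter (fun O => lab O = p)).card) ⟨(∅, ∅), Finset.mem_univ _⟩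
  have hpop : (T.card : ℝ) ≤ L * ((T.filter (fun O => lab O = p)).card : ℝ) := by
    have h1 : T.card = ∑ q : Finset (Fin N₁) × Finset (Fin N₁),
        (T.filter (fun O => lab O = q)).card :=
      Finset.card_eq_sum_card_fiberwise (fun O _ => Finset.mem_coe.2 (Finset.mem_univ (lab O)))
    have h2 : T.card ≤ L * (T.filter (fun O => lab O = p)).card := by
      rw [h1, hL]
      have h3 := Finset.sum_le_card_nsmul
        (Finset.univ : Finset (Finset (Fin N₁) × Finset (Fin N₁)))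
        (fun q => (T.filter (fun O => lab O = q)).card) _ (fun q _ => hp q (Finset.mem_univ q))
      rw [smul_eq_mul, Finset.card_univ] at h3
      exact h3
    exact_mod_cast h2
  have hTpos : (0 : ℝ) < T.card := by
    by_contra h1
    have h2 : (T.card : ℝ) ≤ 0 := not_lt.1 h1
    have h3 : (T.card : ℝ) * 2 ^ (N₁ ^ d) ≤ 0 := mul_nonpos_of_nonpos_of_nonneg h2 (by positivity)
    have h4 : 0 < (δ / 2) * (2 : ℝ) ^ (N ^ d) := by positivity
    linarith
  have hne : (T.filter (fun O => lab O = p)).Nonempty := by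
    rw [← Finset.card_pos]
    by_contra h1
    have h2 : (T.filter (fun O => lab O = p)).card = 0 := by omega
    rw [h2] at hpop
    simp at hpop
    have h5 : T.card = 0 := by rw [hpop]; simp
    rw [h5] at hTpos
    simp at hTpos
  obtain ⟨O₀, hO₀⟩ := hne
  rw [Finset.mem_filter] at hO₀
  obtain ⟨q1, q2, q3, B₀, q4, q5, q6⟩ := hlab O₀ hO₀.1
  rw [hO₀.2] at q1 q2 q3 q5 q6
  obtain ⟨γ', hγ'⟩ : ∃ γ' : Finset (Fin N), γ' = p.1.image (Fin.castLE hN) := ⟨_, rfl⟩
  obtain ⟨Γ', hΓ'⟩ : ∃ Γ' : Finset (Fin N), Γ' = p.2.image (Fin.castLE hN) := ⟨_, rfl⟩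
  have hγc : γ'.card = p.1.card := by
    rw [hγ', Finset.card_image_of_injective _ (Fin.castLE_injective hN)]
  have hΓc : Γ'.card = p.2.card := by
    rw [hΓ', Finset.card_image_of_injective _ (Fin.castLE_injective hN)]
  have hwin : (bx3 i p.1 p.2).image φ = bx3 i γ' Γ' := by
    rw [hφd, hγ', hΓ']
    exact bx3_win hN i p.1 p.2
  -- disjointness and membership for every fibre of the popular label
  have hfib : ∀ O ∈ T.filter (fun O => lab O = p), ∃ A ∈ S, A.filter (fun x => ∀ c, φ c ≠ x) = O ∧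
      Disjoint A (bx3 i γ' Γ') ∧ A ∪ bx3 i γ' Γ' ∈ S ∧
      (A ∪ bx3 i γ' Γ').filter (fun x => ∀ c, φ c ≠ x) = O := by
    intro O hO
    rw [Finset.mem_filter] at hO
    obtain ⟨-, -, -, B, r4, r5, r6⟩ := hlab O hO.1
    rw [hO.2] at r5 r6
    refine ⟨O ∪ B.image φ, r4, hext O hO.1 B, ?_, ?_, ?_⟩
    · rw [← hwin, Finset.disjoint_union_left]
      constructor
      · rw [Finset.disjoint_left]
        intro x hx hx'
        obtain ⟨c, -, rfl⟩ := Finset.mem_image.1 hx'
        exact hOout O hO.1 _ hx c rfl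
      · exact (Finset.disjoint_image hφ).2 r5
    · rw [← hwin, Finset.union_assoc, ← Finset.image_union]
      exact r6
    · rw [← hwin, Finset.union_assoc, ← Finset.image_union]
      exact hext O hO.1 _
  refine ⟨γ', ?_, ?_, ?_, ?_⟩
  · rw [hγc]
    exact q1
  · rw [hγc, ← q3]
    exact_mod_cast q2
  · obtain ⟨A, hA, -, hA1, hA2, -⟩ := hfib O₀ (Finset.mem_filter.2 hO₀)
    refine ⟨Γ', ?_, A, hA, hA1, hA2⟩
    rw [hγc, hΓc]
    exact q3
  · intro hsw Γ hΓ
    by_contra hcon
    push Not at hcon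
    have hcc : Γ'.card = Γ.card := by
      rw [hγc, ← q3, ← hΓc] at hΓ
      exact_mod_cast hΓ.symm
    obtain ⟨e, he, hbe⟩ := perm_ex _ Γ' Γ hcc rfl
    have hbad : bad i S e ≤ (N₁ : ℝ) * (ε * 2 ^ (N ^ d)) := by
      refine (hbe d i S (ε * 2 ^ (N ^ d)) hsw).trans ?_
      refine mul_le_mul_of_nonneg_right ?_ (by positivity)
      have h1 : (Γ' \ Γ).card ≤ N₁ := by
        refine (Finset.card_le_card Finset.sdiff_subset).trans ?_
        rw [hΓc]
        have := Finset.card_le_univ p.2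
        rwa [Fintype.card_fin] at this
      exact_mod_cast h1
    have hsub : T.filter (fun O => lab O = p) ⊆
        (S.filter (fun A => acu i e A ∉ S)).image (fun A => A.filter (fun x => ∀ c, φ c ≠ x)) := by
      intro O hO
      obtain ⟨A, hA, hA0, hA1, hA2, hA3⟩ := hfib O hO
      by_cases hb1 : acu i e A ∈ S
      · refine Finset.mem_image.2 ⟨_, Finset.mem_filter.2 ⟨hA2, ?_⟩, hA3⟩
        intro hb2
        have hun : acu i e (A ∪ bx3 i γ' Γ') = acu i e A ∪ bx3 i γ' Γ := by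
          rw [← he, ← bx3_ac]
          unfold acu
          exact Finset.image_union _ _
        rw [hun] at hb2
        refine hcon _ hb1 ?_ hb2
        change Disjoint (acu i e A) (bx3 i γ' Γ)
        rw [← he, ← bx3_ac]
        unfold acu
        exact (Finset.disjoint_image (ac_apply i e)).2 hA1
      · exact Finset.mem_image.2 ⟨A, Finset.mem_filter.2 ⟨hA, hb1⟩, hA0⟩
    have hcnt : ((T.filter (fun O => lab O = p)).card : ℝ) ≤ (N₁ : ℝ) * (ε * 2 ^ (N ^ d)) := by
      refine le_trans ?_ hbad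
      unfold bad
      have h1 := (Finset.card_le_card hsub).trans Finset.card_image_le
      exact_mod_cast h1
    have hP : (0 : ℝ) < 2 ^ (N ^ d) := by positivity
    have hP1 : (0 : ℝ) < 2 ^ (N₁ ^ d) := by positivity
    have hL0 : (0 : ℝ) ≤ L := Nat.cast_nonneg _
    have hN0 : (0 : ℝ) ≤ N₁ := Nat.cast_nonneg _
    have h1 : (T.card : ℝ) ≤ L * ((N₁ : ℝ) * (ε * 2 ^ (N ^ d))) :=
      hpop.trans (mul_le_mul_of_nonneg_left hcnt hL0)
    have h2 : (δ / 2) * 2 ^ (N ^ d) < L * ((N₁ : ℝ) * (ε * 2 ^ (N ^ d))) * 2 ^ (N₁ ^ d) :=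
      hT1.trans_le (mul_le_mul_of_nonneg_right h1 hP1.le)
    have h3 : ε * ((L + 1) * (N₁ + 1) * 2 ^ (N₁ ^ d)) = δ / 2 := by
      rw [hε]
      field_simp
    have h4 : ε * (L * N₁ * 2 ^ (N₁ ^ d)) ≤ δ / 2 := by
      rw [← h3]
      refine mul_le_mul_of_nonneg_left ?_ hε0.le
      refine mul_le_mul_of_nonneg_right ?_ hP1.le
      nlinarith
    have h5 : L * ((N₁ : ℝ) * (ε * 2 ^ (N ^ d))) * 2 ^ (N₁ ^ d) =
        ε * (L * N₁ * 2 ^ (N₁ ^ d)) * 2 ^ (N ^ d) := by ring
    rw [h5] at h2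
    have h6 := mul_le_mul_of_nonneg_right h4 hP.le
    linarith

end Pool.Agent.Lib.MP_90b327_co.RS
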